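import Pool.Agent.P.MP_c1f06d_ag.d.DBC1

open Matrix Module Pool.Agent.SU

universe u

namespace Pool.Agent.GSD

variable {T T' T'' A A' A'' : Type u} [CommRing T] [CommRing T'] [CommRing T''] [Ring A] [Ring A']
  [Ring A''] [Algebra T A] [Algebra T' A'] [Algebra T'' A''] {f : T →+* T'} {g : T' →+* T''}
  {j : A →+* A'} {k : A' →+* A''}

section Star
variable [StarRing A] [StarRing A'] [StarRing A'']

variable (T A) in
/-- The involution as a linear map. -/
def dbcStar [StarFix T A] : A →ₗ[T] A where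
  toFun := star
  map_add' := star_add
  map_smul' := star_smul_fix

theorem SBC.refl [Module.Free T A] [Module.Finite T A] : SBC (RingHom.id T) (RingHom.id A) := by
  exact ⟨BC.refl, fun _ => rfl⟩

theorem SBC.comp (h : SBC f j) (h' : SBC g k) : SBC (g.comp f) (k.comp j) := by
  refine ⟨h.toBC.comp h'.toBC, fun a => ?_⟩
  rw [RingHom.comp_apply, RingHom.comp_apply, h.map_star, h'.map_star]

theorem SBC.mat (h : SBC f j) (n : Type) [Fintype n] [DecidableEq n] :
    SBC f (j.mapMatrix : Matrix n n A →+* Matrix n n A') := by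
  refine ⟨h.toBC.mat n, fun a => ?_⟩
  ext i i'
  exact h.map_star (a i' i)

theorem SBC.lift [StarFix T' A'] [StarFix T'' A''] (h : SBC f j) {j' : A →+* A''}
    (h' : SBC (g.comp f) j') : ∃ k : A' →+* A'', k.comp j = j' ∧ SBC g k := by
  obtain ⟨k, hk, hk2⟩ := h.toBC.lift (g := g) j' h'.alg
  have hb : BC g k := h.toBC.of_comp (hk ▸ h'.toBC) hk2
  have hkj : ∀ a, k (j a) = j' a := fun a => by rw [← hk]; rfl
  refine ⟨k, hk, hb, fun x => ?_⟩
  refine h.toBC.induction (p := fun x => k (star x) = star (k x)) ?_ (fun t a => ?_)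
    (fun x y hx hy => ?_) x
  · rw [star_zero, map_zero, star_zero]
  · rw [star_smul_fix, hb.smul, hb.smul, star_smul_fix, ← h.map_star, hkj, hkj, h'.map_star]
  · rw [star_add, map_add, map_add, star_add, hx, hy]

theorem SBC.r1 [StarFix T' A'] (h : SBC f j) {v : A} (hv : R1 v) : R1 (j v) := by
  intro c
  refine h.toBC.induction (p := fun c => star (j v) * (c - star c) * j v = 0) ?_ (fun t a => ?_)
    (fun x y hx hy => ?_) c
  · rw [star_zero, sub_zero, mul_zero, zero_mul]
  · rw [star_smul_fix, ← smul_sub, mul_smul_comm, smul_mul_assoc, ← h.map_star, ← h.map_star,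
      ← map_sub, ← map_mul, ← map_mul, hv a, map_zero, smul_zero]
  · rw [star_add, add_sub_add_comm, mul_add, add_mul, hx, hy, add_zero]

/-- `Alt` descends along a faithfully flat map. -/
theorem SBC.alt_of_map [StarFix T A] [StarFix T' A'] (h : SBC f j) (hf : f.FaithfullyFlat) {a : A}
    (ha : Alt (j a)) : Alt a := by
  obtain ⟨c, hc⟩ := ha
  obtain ⟨x, hx⟩ := h.toBC.mem_range hf (LinearMap.id - dbcStar T A) (LinearMap.id - dbcStar T' A')
    (fun a => by
      change j a - star (j a) = j (a - star a)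
      rw [map_sub, h.map_star]) ⟨c, hc.symm⟩
  exact ⟨x, hx.symm⟩

instance salgFix {N : ℕ} (B : SAlg T N) : StarFix T B.Car := ⟨SAlg.star_algebraMap⟩

theorem sbc_bc {N : ℕ} (B : SAlg T N) (f : T →+* T') : SBC f (B.bc f) := by
  refine ⟨⟨SAlg.bc_algebraMap f, N, (Pi.basisFun T (Fin N)).map B.coL.symm,
    (Pi.basisFun T' (Fin N)).map (B.map f).coL.symm, fun i => ?_⟩, SAlg.bc_star f⟩
  rw [Basis.map_apply, Basis.map_apply, Pi.basisFun_apply, Pi.basisFun_apply]
  exact SAlg.bc_e f i

omit [StarRing A] in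
theorem dbc_sum {N : ℕ} (b : Basis (Fin N) T A) (x : A) :
    ∑ i, b.repr x i • Algebra.leftMulMatrix b (b i) = Algebra.leftMulMatrix b x := by
  conv_rhs => rw [← b.sum_repr x]
  simp only [map_sum, map_smul]

/-- The structure constants with respect to a basis. -/
noncomputable def dbcAlg [StarFix T A] {N : ℕ} (b : Basis (Fin N) T A) : SAlg T N where
  L i := Algebra.leftMulMatrix b (b i)
  one := b.repr 1
  st := LinearMap.toMatrix b b (dbcStar T A)
  L_mul i i' := by
    simp only [Algebra.leftMulMatrix_eq_repr_mul]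
    rw [dbc_sum, map_mul]
  one_L := by rw [dbc_sum, map_one]
  L_one i := by
    rw [Algebra.leftMulMatrix_mulVec_repr, mul_one, b.repr_self, Finsupp.single_eq_pi_single]
  st_st := by
    rw [← LinearMap.toMatrix_mul, ← LinearMap.toMatrix_one b]
    exact congrArg _ (LinearMap.ext fun x => star_star x)
  st_L i i' a := by
    simp only [LinearMap.toMatrix_apply]
    rw [dbc_sum, Algebra.leftMulMatrix_apply, Algebra.leftMulMatrix_apply, ← LinearMap.toMatrix_mul,
      ← LinearMap.toMatrix_mul, LinearMap.toMatrix_apply, LinearMap.toMatrix_apply]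
    exact congrArg (fun x => b.repr x a) (star_mul (b i) (b i'))

/-- Coordinates with respect to a basis. -/
noncomputable def dbcEquiv [StarFix T A] {N : ℕ} (b : Basis (Fin N) T A) : A ≃+* (dbcAlg b).Car where
  toFun x := ⟨b.repr x⟩
  invFun y := b.equivFun.symm y.co
  left_inv x := b.equivFun.symm_apply_apply x
  right_inv y := SAlg.Car.ext (b.equivFun.apply_symm_apply y.co)
  map_add' x y := SAlg.Car.ext (by rw [map_add]; rfl)
  map_mul' x y := SAlg.Car.ext (by
    change _ = (∑ i, b.repr x i • Algebra.leftMulMatrix b (b i)) *ᵥ b.repr y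
    rw [dbc_sum, Algebra.leftMulMatrix_mulVec_repr])

theorem dbcEquiv_smul [StarFix T A] {N : ℕ} (b : Basis (Fin N) T A) (t : T) (x : A) :
    dbcEquiv b (t • x) = t • dbcEquiv b x :=
  SAlg.Car.ext (b.equivFun.map_smul t x)

theorem dbcEquiv_star [StarFix T A] {N : ℕ} (b : Basis (Fin N) T A) (x : A) :
    dbcEquiv b (star x) = star (dbcEquiv b x) :=
  SAlg.Car.ext (LinearMap.toMatrix_mulVec_repr b b (dbcStar T A) x).symm

/-- Structure constants. -/
theorem exists_salg [StarFix T A] [Module.Free T A] [Module.Finite T A] :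
    ∃ (N : ℕ) (B : SAlg T N) (e : A ≃+* B.Car), SBC (RingHom.id T) (e : A →+* B.Car) ∧
      SBC (RingHom.id T) (e.symm : B.Car →+* A) := by
  obtain ⟨N, b, -⟩ := (BC.refl (T := T) (A := A)).basis
  have ha : ∀ t, dbcEquiv b (algebraMap T A t) = algebraMap T (dbcAlg b).Car t := fun t => by
    rw [Algebra.algebraMap_eq_smul_one, Algebra.algebraMap_eq_smul_one, dbcEquiv_smul, map_one]
  refine ⟨N, dbcAlg b, dbcEquiv b, ⟨bc_of_bijective _ (dbcEquiv b).bijective ha, dbcEquiv_star b⟩,
    ⟨bc_of_bijective _ (dbcEquiv b).symm.bijective fun t => ?_, fun x => ?_⟩⟩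
  · exact (dbcEquiv b).symm_apply_eq.2 (ha t).symm
  · refine (dbcEquiv b).symm_apply_eq.2 ?_
    rw [dbcEquiv_star]
    exact congrArg star ((dbcEquiv b).apply_symm_apply x).symm

/-- Base changes exist. -/
theorem exists_sbc [StarFix T A] [Module.Free T A] [Module.Finite T A] (f : T →+* T') :
    ∃ (A1 : Type u) (_ : Ring A1) (_ : StarRing A1) (_ : Algebra T' A1) (_ : StarFix T' A1)
      (j : A →+* A1), SBC f j := by
  obtain ⟨N, B, e, h, -⟩ := exists_salg (T := T) (A := A)
  exact ⟨(B.map f).Car, inferInstance, inferInstance, inferInstance, inferInstance,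
    (B.bc f).comp (e : A →+* B.Car), h.comp (sbc_bc B f)⟩

end Star

end Pool.Agent.GSD
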