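import Pool.Agent.P.MP_c1f06d_ag.d.DDefs
import Pool.Agent.P.MP_c1f06d_ag.su.SA

open Matrix Module Pool.Agent.SU

universe u

namespace Pool.Agent.GSD

variable {T T' T'' A A' A'' : Type u} [CommRing T] [CommRing T'] [CommRing T''] [Ring A] [Ring A']
  [Ring A''] [Algebra T A] [Algebra T' A'] [Algebra T'' A''] {f : T →+* T'} {g : T' →+* T''}
  {j : A →+* A'} {k : A' →+* A''}

theorem BC.smul (h : BC f j) (t : T) (a : A) : j (t • a) = f t • j a := by
  rw [Algebra.smul_def, Algebra.smul_def, map_mul, h.alg]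

theorem BC.free (h : BC f j) : Module.Free T A := by
  obtain ⟨N, b, _, _⟩ := h.basis
  exact Module.Free.of_basis b

theorem BC.finite (h : BC f j) : Module.Finite T A := by
  obtain ⟨N, b, _, _⟩ := h.basis
  exact Module.Finite.of_basis b

theorem BC.free' (h : BC f j) : Module.Free T' A' := by
  obtain ⟨N, _, b, _⟩ := h.basis
  exact Module.Free.of_basis b

theorem BC.finite' (h : BC f j) : Module.Finite T' A' := by
  obtain ⟨N, _, b, _⟩ := h.basis
  exact Module.Finite.of_basis b

theorem dbc0_sum (h : BC f j) {ι : Type*} [Fintype ι] (b : Basis ι T A) (a : A) :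
    j a = ∑ i, f (b.repr a i) • j (b i) := by
  conv_lhs => rw [← b.sum_repr a]
  simp only [map_sum, h.smul]

theorem dbc0_repr (h : BC f j) {ι : Type*} [Fintype ι] (b : Basis ι T A) (b' : Basis ι T' A')
    (hb : ∀ i, j (b i) = b' i) (a : A) (i : ι) : b'.repr (j a) i = f (b.repr a i) := by
  rw [dbc0_sum h b a]
  simp only [hb]
  exact congrFun (b'.repr_sum_self fun i => f (b.repr a i)) i

theorem dbc0_mk (ha : ∀ t, j (algebraMap T A t) = algebraMap T' A' (f t)) {ι : Type*} [Fintype ι]
    (b : Basis ι T A) (b' : Basis ι T' A') (hb : ∀ i, j (b i) = b' i) : BC f j :=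
  ⟨ha, _, b.reindex (Fintype.equivFin ι), b'.reindex (Fintype.equivFin ι), fun i => by
    rw [Basis.reindex_apply, Basis.reindex_apply, hb]⟩

theorem dbc0_repr_mem {ι : Type*} (b : Basis ι T A) {I : Ideal T} {a : A} (ha : a ∈ extI A I)
    (i : ι) : b.repr a i ∈ I := by
  refine Submodule.smul_induction_on (mem_extI_iff.1 ha) (fun t ht x _ => ?_) fun x y hx hy => ?_
  · rw [map_smul, Finsupp.smul_apply, smul_eq_mul]
    exact I.mul_mem_right _ ht
  · rw [map_add, Finsupp.add_apply]
    exact I.add_mem hx hy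

theorem dbc0_induction (h : BC f j) {p : A' → Prop} (h0 : p 0) (h1 : ∀ (t : T') a, p (t • j a))
    (h2 : ∀ x y, p x → p y → p (x + y)) (x : A') : p x := by
  obtain ⟨N, b, b', hb⟩ := h.basis
  rw [← b'.sum_repr x]
  exact Finset.sum_induction _ p h2 h0 fun i _ => by rw [← hb]; exact h1 _ _

/-- Every basis goes to a basis. -/
theorem BC.exists_basis (h : BC f j) {ι : Type*} [Fintype ι] (b : Basis ι T A) :
    ∃ b' : Basis ι T' A', (∀ i, j (b i) = b' i) ∧ ∀ a i, b'.repr (j a) i = f (b.repr a i) := by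
  classical
  obtain ⟨N, b0, b0', h0⟩ := h.basis
  let F : (ι → T') →ₗ[T'] A' := Fintype.linearCombination T' fun i => j (b i)
  let G : A' →ₗ[T'] (ι → T') := b0'.constr T' fun k i => f (b.repr (b0 k) i)
  have hF : ∀ a, F (fun i => f (b.repr a i)) = j a := fun a => by
    rw [dbc0_sum h b a]
    exact Fintype.linearCombination_apply _ _ _
  have hG : ∀ a, G (j a) = fun i => f (b.repr a i) := fun a => by
    rw [dbc0_sum h b0 a, map_sum]
    ext i
    conv_rhs => rw [← b0.sum_repr a]
    simp only [h0, G, map_smul, Basis.constr_basis, map_sum, Finset.sum_apply, Pi.smul_apply,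
      smul_eq_mul, Finsupp.coe_finsetSum, Finsupp.coe_smul, map_mul]
  let e : A' ≃ₗ[T'] (ι → T') := LinearEquiv.ofLinearMap G F (by
      refine (Pi.basisFun T' ι).ext fun i => ?_
      have : F (Pi.basisFun T' ι i) = j (b i) := by simp [F]
      rw [LinearMap.comp_apply, this, hG]
      ext l
      simp [Finsupp.single_apply, Pi.single_apply, eq_comm]) (by
      refine b0'.ext fun k => ?_
      rw [LinearMap.comp_apply, ← h0, hG, hF]
      rfl)
  have hb : ∀ i, j (b i) = Basis.ofEquivFun e i := fun i => by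
    rw [Basis.coe_ofEquivFun]
    show _ = F (Pi.single i 1)
    simp [F]
  exact ⟨Basis.ofEquivFun e, hb, dbc0_repr h b _ hb⟩

theorem BC.refl [Module.Free T A] [Module.Finite T A] : BC (RingHom.id T) (RingHom.id A) := by
  exact dbc0_mk (fun _ => rfl) (Module.Free.chooseBasis T A) (Module.Free.chooseBasis T A)
    fun _ => rfl

theorem BC.comp (h : BC f j) (h' : BC g k) : BC (g.comp f) (k.comp j) := by
  obtain ⟨N, b, b', hb⟩ := h.basis
  obtain ⟨b'', h1, _⟩ := h'.exists_basis b'
  exact ⟨fun t => by rw [RingHom.comp_apply, h.alg, h'.alg, RingHom.comp_apply], N, b, b'',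
    fun i => by rw [RingHom.comp_apply, hb, h1]⟩

/-- Cancellation. -/
theorem BC.of_comp (h : BC f j) (h' : BC (g.comp f) (k.comp j))
    (hk : ∀ t, k (algebraMap T' A' t) = algebraMap T'' A'' (g t)) : BC g k := by
  obtain ⟨N, b, b', hb⟩ := h.basis
  obtain ⟨b'', h1, _⟩ := h'.exists_basis b
  exact ⟨hk, N, b', b'', fun i => by rw [← hb, ← h1, RingHom.comp_apply]⟩

/-- The universal property. -/
theorem BC.lift (h : BC f j) (j' : A →+* A'')
    (hj : ∀ t, j' (algebraMap T A t) = algebraMap T'' A'' (g (f t))) :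
    ∃ k : A' →+* A'', k.comp j = j' ∧ ∀ t, k (algebraMap T' A' t) = algebraMap T'' A'' (g t) := by
  obtain ⟨N, b, b', hb⟩ := h.basis
  let k0 : A' →+ A'' :=
    { toFun := fun x => ∑ i, g (b'.repr x i) • j' (b i)
      map_zero' := by simp
      map_add' := fun x y => by simp [add_smul, Finset.sum_add_distrib] }
  have k1 : ∀ (t : T') x, k0 (t • x) = g t • k0 x := fun t x => by
    show ∑ i, g (b'.repr (t • x) i) • j' (b i) = g t • ∑ i, g (b'.repr x i) • j' (b i)
    simp [Finset.smul_sum, mul_smul]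
  have k2 : ∀ a, k0 (j a) = j' a := fun a => by
    show ∑ i, g (b'.repr (j a) i) • j' (b i) = _
    conv_rhs => rw [← b.sum_repr a]
    rw [map_sum]
    refine Finset.sum_congr rfl fun i _ => ?_
    rw [dbc0_repr h b b' hb, Algebra.smul_def, Algebra.smul_def, map_mul, hj]
  have k3 : k0 1 = 1 := by rw [← map_one j, k2, map_one]
  have k4 : ∀ x y, k0 (x * y) = k0 x * k0 y := by
    intro x y
    induction x using dbc0_induction h with
    | h0 => simp
    | h2 x x' h1 h2 => rw [add_mul, map_add, map_add, h1, h2, add_mul]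
    | h1 t a =>
      induction y using dbc0_induction h with
      | h0 => simp
      | h2 y y' h1 h2 => rw [mul_add, map_add, map_add, h1, h2, mul_add]
      | h1 s c =>
        rw [smul_mul_assoc, mul_smul_comm, ← map_mul, k1, k1, k1, k1, k2, k2, k2, map_mul,
          smul_mul_assoc, mul_smul_comm]
  refine ⟨{ k0 with map_one' := k3, map_mul' := k4 }, RingHom.ext k2, fun t => ?_⟩
  show k0 (algebraMap T' A' t) = _
  rw [Algebra.algebraMap_eq_smul_one, k1, k3, Algebra.algebraMap_eq_smul_one]

theorem BC.induction (h : BC f j) {p : A' → Prop} (h0 : p 0) (h1 : ∀ (t : T') a, p (t • j a))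
    (h2 : ∀ x y, p x → p y → p (x + y)) (x : A') : p x := by
  exact dbc0_induction h h0 h1 h2 x

theorem BC.injective (h : BC f j) (hf : Function.Injective f) : Function.Injective j := by
  obtain ⟨N, b, b', hb⟩ := h.basis
  intro x y hxy
  refine b.repr.injective (Finsupp.ext fun i => hf ?_)
  rw [← dbc0_repr h b b' hb, ← dbc0_repr h b b' hb, hxy]

theorem BC.surjective (h : BC f j) (hf : Function.Surjective f) : Function.Surjective j := by
  intro x
  induction x using dbc0_induction h with
  | h0 => exact ⟨0, map_zero j⟩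
  | h1 t a =>
    obtain ⟨s, rfl⟩ := hf t
    exact ⟨s • a, h.smul s a⟩
  | h2 x y h1 h2 =>
    obtain ⟨a, rfl⟩ := h1
    obtain ⟨c, rfl⟩ := h2
    exact ⟨a + c, map_add j a c⟩

theorem BC.isUnit_of_map (h : BC f j) [IsLocalHom f] {a : A} (ha : IsUnit (j a)) : IsUnit a := by
  obtain ⟨N, b, b', hb⟩ := h.basis
  have h1 : Algebra.leftMulMatrix b' (j a) = f.mapMatrix (Algebra.leftMulMatrix b a) := by
    ext p q
    rw [RingHom.mapMatrix_apply, Matrix.map_apply, Algebra.leftMulMatrix_eq_repr_mul,
      Algebra.leftMulMatrix_eq_repr_mul, ← hb, ← map_mul, dbc0_repr h b b' hb]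
  have h2 : IsUnit (Algebra.leftMulMatrix b a).det := by
    refine IsUnit.of_map f _ ?_
    rw [RingHom.map_det, ← h1, ← Matrix.isUnit_iff_isUnit_det]
    exact ha.map _
  have := h.free
  have := h.finite
  have h3 : IsUnit (Algebra.lmul T A a) := by
    rw [LinearMap.isUnit_iff_isUnit_det, ← LinearMap.det_toMatrix b]
    exact h2
  have h4 : Function.Bijective (Algebra.lmul T A a) := (Module.End.isUnit_iff _).1 h3
  obtain ⟨c, hc⟩ := h4.2 1
  have hc1 : a * c = 1 := hc
  have hc2 : c * a = 1 := h4.1 (show a * (c * a) = a * 1 by rw [← mul_assoc, hc1, one_mul, mul_one])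
  exact ⟨⟨a, c, hc1, hc2⟩, rfl⟩

theorem BC.map_eq_zero_iff (h : BC f j) {a : A} : j a = 0 ↔ a ∈ extI A (RingHom.ker f) := by
  obtain ⟨N, b, b', hb⟩ := h.basis
  constructor
  · intro ha
    rw [← b.sum_repr a]
    refine Ideal.sum_mem _ fun i _ => smul_mem_extI ?_ _
    rw [RingHom.mem_ker, ← dbc0_repr h b b' hb, ha, map_zero, Finsupp.zero_apply]
  · intro ha
    rw [dbc0_sum h b a]
    refine Finset.sum_eq_zero fun i _ => ?_
    rw [RingHom.mem_ker.1 (dbc0_repr_mem b ha i), zero_smul]

theorem BC.mat (h : BC f j) (n : Type) [Fintype n] [DecidableEq n] :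
    BC f (j.mapMatrix : Matrix n n A →+* Matrix n n A') := by
  obtain ⟨N, b, b', hb⟩ := h.basis
  refine dbc0_mk (fun t => ?_) (b.matrix n n) (b'.matrix n n) ?_
  · ext p q
    simp only [RingHom.mapMatrix_apply, Matrix.map_apply, Matrix.algebraMap_matrix_apply]
    split_ifs
    · exact h.alg t
    · exact map_zero j
  · rintro ⟨p, q, i⟩
    rw [Basis.matrix_apply, Basis.matrix_apply, RingHom.mapMatrix_apply, ← hb]
    ext p' q'
    simp only [Matrix.map_apply, Matrix.single_apply]
    split_ifs
    · rfl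
    · exact map_zero j

/-- Matrices over the base ring. -/
theorem bc_mapMatrix (f : T →+* T') (n : Type) [Fintype n] [DecidableEq n] :
    BC f (f.mapMatrix : Matrix n n T →+* Matrix n n T') := by
  have h : BC f f := dbc0_mk (fun _ => rfl) (Basis.singleton Unit T) (Basis.singleton Unit T')
    fun i => by simp
  exact h.mat n

/-- A bijective algebra map is a base change along the identity. -/
theorem bc_of_bijective {A1 : Type u} [Ring A1] [Algebra T A1] [Module.Free T A]
    [Module.Finite T A] (e : A →+* A1) (he : Function.Bijective e)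
    (ha : ∀ t, e (algebraMap T A t) = algebraMap T A1 t) : BC (RingHom.id T) e := by
  let e' : A →ₗ[T] A1 :=
    { toFun := e
      map_add' := map_add e
      map_smul' := fun t a => by
        rw [Algebra.smul_def, map_mul, ha, RingHom.id_apply, Algebra.smul_def] }
  exact dbc0_mk ha (Module.Free.chooseBasis T A)
    ((Module.Free.chooseBasis T A).map (LinearEquiv.ofBijective e' he)) fun _ => rfl

theorem bc_qm [Module.Free T A] [Module.Finite T A] (I : Ideal T) [Algebra (T ⧸ I) (QA A I)]
    (hI : ∀ t, algebraMap (T ⧸ I) (QA A I) (Ideal.Quotient.mk I t) = qm I (algebraMap T A t)) :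
    BC (Ideal.Quotient.mk I) (qm (A := A) I) := by
  let b := Module.Free.chooseBasis T A
  have hs : ∀ (t : T) (a : A), Ideal.Quotient.mk I t • qm I a = qm I (t • a) := fun t a => by
    rw [Algebra.smul_def, Algebra.smul_def, hI, map_mul]
  have li : LinearIndependent (T ⧸ I) fun i => qm I (b i) := by
    rw [Fintype.linearIndependent_iff]
    intro c hc i
    choose t ht using fun i => Ideal.Quotient.mk_surjective (c i)
    have h1 : qm I (∑ i, t i • b i) = 0 := by
      rw [map_sum, ← hc]
      exact Finset.sum_congr rfl fun i _ => by rw [← ht, hs]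
    have h2 := dbc0_repr_mem b (Ideal.Quotient.eq_zero_iff_mem.1 h1) i
    rw [congrFun (b.repr_sum_self t) i] at h2
    rw [← ht]
    exact Ideal.Quotient.eq_zero_iff_mem.2 h2
  have sp : ⊤ ≤ Submodule.span (T ⧸ I) (Set.range fun i => qm I (b i)) := by
    intro x _
    obtain ⟨a, rfl⟩ := qm_surjective I x
    rw [← b.sum_repr a, map_sum]
    refine Submodule.sum_mem _ fun i _ => ?_
    rw [← hs]
    exact Submodule.smul_mem _ _ (Submodule.subset_span ⟨i, rfl⟩)
  exact dbc0_mk (fun t => (hI t).symm) b (Basis.mk li sp) fun i => (Basis.mk_apply li sp i).symm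

end Pool.Agent.GSD
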