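import Pool.Agent.P.MP_c1f06d_ag.d.DBC0

open Matrix Module Pool.Agent.SU

universe u

namespace Pool.Agent.GSD

variable {T T' T'' A A' A'' : Type u} [CommRing T] [CommRing T'] [CommRing T''] [Ring A] [Ring A']
  [Ring A''] [Algebra T A] [Algebra T' A'] [Algebra T'' A''] {f : T →+* T'} {g : T' →+* T''}
  {j : A →+* A'} {k : A' →+* A''}

theorem dbc1_smul (h : BC f j) (t : T) (a : A) : j (t • a) = f t • j a := by
  rw [Algebra.smul_def, Algebra.smul_def, map_mul, h.alg]

theorem dbc1_expand (h : BC f j) {N : ℕ} (b : Basis (Fin N) T A) (a : A) :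
    j a = ∑ i, f (b.repr a i) • j (b i) := by
  conv_lhs => rw [← b.sum_repr a]
  rw [map_sum]
  exact Finset.sum_congr rfl fun i _ => dbc1_smul h _ _

theorem BC.isBaseChange [Algebra T T'] [Algebra T A'] [IsScalarTower T T' A'] (j : A →ₐ[T] A')
    (h : BC (algebraMap T T') (j : A →+* A')) : IsBaseChange T' j.toLinearMap := by
  obtain ⟨N, b, b', hb⟩ := h.basis
  refine IsBaseChange.of_equiv
    ((Algebra.TensorProduct.basis T' b).equiv b' (Equiv.refl _)) fun x => ?_
  have h1 : ((((Algebra.TensorProduct.basis T' b).equiv b' (Equiv.refl _)).toLinearMap.restrictScalars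
      T).comp (TensorProduct.mk T T' A 1)) = j.toLinearMap := by
    refine b.ext fun i => ?_
    have h2 := (Algebra.TensorProduct.basis T' b).equiv_apply i b' (Equiv.refl _)
    rw [Algebra.TensorProduct.basis_apply] at h2
    exact h2.trans (hb i).symm
  exact LinearMap.congr_fun h1 x

theorem bc_of_isBaseChange [Algebra T T'] [Algebra T A'] [IsScalarTower T T' A'] [Module.Free T A]
    [Module.Finite T A] (j : A →ₐ[T] A') (h : IsBaseChange T' j.toLinearMap) :
    BC (algebraMap T T') (j : A →+* A') := by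
  refine ⟨fun t => ?_, ?_⟩
  · exact (j.commutes t).trans (IsScalarTower.algebraMap_apply T T' A' t)
  · let b := (Module.Free.chooseBasis T A).reindex (Fintype.equivFin _)
    exact ⟨_, b, h.basis b, fun i => (h.basis_apply b i).symm⟩

/-- A linear map extends along a base change. -/
theorem BC.exists_linear (h : BC f j) (p : A →ₗ[T] A) :
    ∃ p' : A' →ₗ[T'] A', ∀ a, p' (j a) = j (p a) := by
  obtain ⟨N, b, b', hb⟩ := h.basis
  refine ⟨b'.constr T' fun i => j (p (b i)), fun a => ?_⟩
  rw [dbc1_expand h b a, map_sum]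
  conv_rhs => rw [← b.sum_repr a]
  rw [map_sum, map_sum]
  refine Finset.sum_congr rfl fun i _ => ?_
  rw [map_smul, map_smul, dbc1_smul h, hb, Basis.constr_basis]

theorem BC.exists_functional (h : BC f j) (p : A →ₗ[T] T) :
    ∃ p' : A' →ₗ[T'] T', ∀ a, p' (j a) = f (p a) := by
  obtain ⟨N, b, b', hb⟩ := h.basis
  refine ⟨b'.constr T' fun i => f (p (b i)), fun a => ?_⟩
  rw [dbc1_expand h b a, map_sum]
  conv_rhs => rw [← b.sum_repr a]
  rw [map_sum, map_sum]
  refine Finset.sum_congr rfl fun i _ => ?_
  rw [map_smul, map_smul, hb, Basis.constr_basis, smul_eq_mul, smul_eq_mul, map_mul]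

/-- Membership in a submodule descends. -/
theorem dbc1_desc {O S Q Q' : Type*} [CommRing O] [CommRing S] [Algebra O S] [AddCommGroup Q]
    [Module O Q] [AddCommGroup Q'] [Module O Q'] [Module S Q'] [IsScalarTower O S Q']
    [Module.FaithfullyFlat O S] {i : Q →ₗ[O] Q'} (hi : IsBaseChange S i)
    (N : Submodule O Q) {q : Q} (h : i q ∈ Submodule.span S (i '' (N : Set Q))) : q ∈ N := by
  let e : Q' →ₗ[S] TensorProduct O S (Q ⧸ N) :=
    hi.lift ((TensorProduct.mk O S (Q ⧸ N) 1).comp N.mkQ)
  have he : ∀ x, e (i x) = 1 ⊗ₜ N.mkQ x := fun x => hi.lift_eq _ x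
  have h0 : Submodule.span S (i '' (N : Set Q)) ≤ LinearMap.ker e := by
    rw [Submodule.span_le]
    rintro _ ⟨x, hx, rfl⟩
    rw [SetLike.mem_coe, LinearMap.mem_ker, he, N.mkQ_apply,
      (Submodule.Quotient.mk_eq_zero N).2 hx, TensorProduct.tmul_zero]
  have h1 := h0 h
  rw [LinearMap.mem_ker, he, Module.FaithfullyFlat.one_tmul_eq_zero_iff] at h1
  exact (Submodule.Quotient.mk_eq_zero N).1 h1

/-- Linear descent along a faithfully flat map. -/
theorem BC.mem_range (h : BC f j) (hf : f.FaithfullyFlat) (p : A →ₗ[T] A) (p' : A' →ₗ[T'] A')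
    (hp : ∀ a, p' (j a) = j (p a)) {y : A} (hy : ∃ x', p' x' = j y) : ∃ x, p x = y := by
  let _ : Algebra T T' := f.toAlgebra
  let _ : Algebra T A' := ((algebraMap T' A').comp f).toAlgebra' fun c x => Algebra.commutes _ _
  have : IsScalarTower T T' A' := IsScalarTower.of_algebraMap_eq fun _ => rfl
  have : Module.FaithfullyFlat T T' := hf
  let J : A →ₐ[T] A' := { j with commutes' := h.alg }
  have hJ : IsBaseChange T' J.toLinearMap := BC.isBaseChange J h
  have h1 : ∀ z, p' z ∈ Submodule.span T' (J.toLinearMap '' (LinearMap.range p : Set A)) := by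
    intro z
    induction z using hJ.inductionOn with
    | zero => rw [map_zero]; exact zero_mem _
    | tmul x => exact Submodule.subset_span ⟨p x, ⟨x, rfl⟩, (hp x).symm⟩
    | smul s y hy => rw [map_smul]; exact Submodule.smul_mem _ _ hy
    | add y z hy hz => rw [map_add]; exact add_mem hy hz
  obtain ⟨x', hx'⟩ := hy
  have h2 := h1 x'
  rw [hx'] at h2
  exact dbc1_desc hJ (LinearMap.range p) h2

/-- Two base changes along maps from the same ring fit in a square that keeps faithful flatness. -/
theorem exists_pushout (f : T →+* T') (s : T →+* T'') (hs : s.FaithfullyFlat) :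
    ∃ (P : Type u) (_ : CommRing P) (s' : T' →+* P) (f' : T'' →+* P),
      s'.comp f = f'.comp s ∧ s'.FaithfullyFlat := by
  let _ : Algebra T T' := f.toAlgebra
  let _ : Algebra T T'' := s.toAlgebra
  have : Module.FaithfullyFlat T T'' := hs
  refine ⟨TensorProduct T T' T'', inferInstance, algebraMap T' _,
    (Algebra.TensorProduct.includeRight : T'' →ₐ[T] TensorProduct T T' T''), ?_, ?_⟩
  · ext t
    exact (IsScalarTower.algebraMap_apply T T' (TensorProduct T T' T'') t).symm.trans
      ((Algebra.TensorProduct.includeRight : T'' →ₐ[T] TensorProduct T T' T'').commutes t).symm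
  · rw [RingHom.faithfullyFlat_algebraMap_iff]
    infer_instance

/-- Descent of one element. -/
theorem ff_descent {s : T →+* T'} (hs : s.FaithfullyFlat) (x : T')
    (hx : ∀ (P : Type u) [CommRing P] (a b : T' →+* P), a.comp s = b.comp s → a x = b x) :
    ∃ t, s t = x := by
  let _ : Algebra T T' := s.toAlgebra
  have : Module.FaithfullyFlat T T' := hs
  have h1 := hx (TensorProduct T T' T')
    (Algebra.TensorProduct.includeLeft : T' →ₐ[T] TensorProduct T T' T')
    (Algebra.TensorProduct.includeRight : T' →ₐ[T] TensorProduct T T' T') (by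
      ext t
      exact ((Algebra.TensorProduct.includeLeft : T' →ₐ[T] TensorProduct T T' T').commutes t).trans
        ((Algebra.TensorProduct.includeRight : T' →ₐ[T] TensorProduct T T' T').commutes t).symm)
  have h2 : (x ⊗ₜ[T] (1 : T') : TensorProduct T T' T') = (1 : T') ⊗ₜ[T] x := h1
  let N : Submodule T T' := LinearMap.range (Algebra.linearMap T T')
  have h3 := congrArg (LinearMap.lTensor T' N.mkQ) h2
  have h4 : N.mkQ 1 = 0 := (Submodule.Quotient.mk_eq_zero N).2 ⟨1, map_one (algebraMap T T')⟩
  rw [LinearMap.lTensor_tmul, LinearMap.lTensor_tmul, h4, TensorProduct.tmul_zero, eq_comm,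
    Module.FaithfullyFlat.one_tmul_eq_zero_iff] at h3
  exact (Submodule.Quotient.mk_eq_zero N).1 h3

theorem ff_injective {s : T →+* T'} (hs : s.FaithfullyFlat) : Function.Injective s :=
  hs.injective

theorem ff_isLocalHom {s : T →+* T'} (hs : s.FaithfullyFlat) : IsLocalHom s := by
  let _ : Algebra T T' := s.toAlgebra
  have : Module.FaithfullyFlat T T' := hs
  exact Module.FaithfullyFlat.isLocalHom T T'

theorem exists_bc [Module.Free T A] [Module.Finite T A] (f : T →+* T') :
    ∃ (A1 : Type u) (_ : Ring A1) (_ : Algebra T' A1) (j : A →+* A1), BC f j := by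
  let _ : Algebra T T' := f.toAlgebra
  exact ⟨TensorProduct T T' A, inferInstance, inferInstance,
    (Algebra.TensorProduct.includeRight : A →ₐ[T] TensorProduct T T' A),
    bc_of_isBaseChange _ (TensorProduct.isBaseChange T A T')⟩

end Pool.Agent.GSD
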