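import Pool.Agent.P.MP_c1f06d_ag.d.LiftQ

open Matrix CliffordAlgebra

universe u

namespace Pool.Agent.GSD

open Pool.Agent.P.MP_c1f06d_ag

variable {T T' : Type u} [CommRing T] [CommRing T'] {d : ℕ}
variable {ρ : Type*} [Fintype ρ] [DecidableEq ρ]

/-- The blocks `Cs i` side by side. -/
def flatC (Cs : ρ → Matrix (Fin d) (Fin d) T) : Matrix (Fin d) (ρ × Fin d) T :=
  Matrix.of fun a p => Cs p.1 a p.2

/-- A matrix of blocks as one matrix. -/
def flatM (Y : Matrix ρ ρ (Matrix (Fin d) (Fin d) T)) : Matrix (ρ × Fin d) (ρ × Fin d) T :=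
  Matrix.comp ρ ρ (Fin d) (Fin d) T Y

/-- The block diagonal matrix with equal blocks. -/
def flatD (ρ : Type*) [DecidableEq ρ] (h : Matrix (Fin d) (Fin d) T) :
    Matrix (ρ × Fin d) (ρ × Fin d) T :=
  Matrix.comp ρ ρ (Fin d) (Fin d) T (diagonal fun _ => h)

omit [CommRing T] [Fintype ρ] [DecidableEq ρ] in
theorem flatM_apply (Y : Matrix ρ ρ (Matrix (Fin d) (Fin d) T)) (p p' : ρ × Fin d) :
    flatM Y p p' = Y p.1 p'.1 p.2 p'.2 := rfl

omit [DecidableEq ρ] in
theorem flatM_mul (Y Z : Matrix ρ ρ (Matrix (Fin d) (Fin d) T)) :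
    flatM (Y * Z) = flatM Y * flatM Z :=
  (compRingEquiv ρ (Fin d) T).map_mul Y Z

theorem flatM_one : flatM (1 : Matrix ρ ρ (Matrix (Fin d) (Fin d) T)) = 1 :=
  (compRingEquiv ρ (Fin d) T).map_one

omit [Fintype ρ] in
theorem flatD_apply (h : Matrix (Fin d) (Fin d) T) (p p' : ρ × Fin d) :
    flatD ρ h p p' = if p.1 = p'.1 then h p.2 p'.2 else 0 := by
  change (diagonal (fun _ => h) p.1 p'.1) p.2 p'.2 = _
  rw [diagonal_apply]
  split_ifs <;> rfl

theorem det_flatD (h : Matrix (Fin d) (Fin d) T) : (flatD ρ h).det = h.det ^ Fintype.card ρ := by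
  have e : flatD ρ h = (blockDiagonal fun _ : ρ => h).submatrix (Equiv.prodComm _ _)
      (Equiv.prodComm _ _) := by
    ext p p'
    rw [flatD_apply, submatrix_apply, blockDiagonal_apply]
    rfl
  rw [e, det_submatrix_equiv_self, det_blockDiagonal, Finset.prod_const, Finset.card_univ]

omit [Fintype ρ] in
theorem flatD_transpose (h : Matrix (Fin d) (Fin d) T) : (flatD ρ h)ᵀ = flatD ρ hᵀ := by
  ext p p'
  simp only [transpose_apply, flatD_apply, eq_comm]

theorem flatD_mul_apply (h : Matrix (Fin d) (Fin d) T) (Y : Matrix ρ ρ (Matrix (Fin d) (Fin d) T))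
    (p p' : ρ × Fin d) : (flatD ρ h * flatM Y) p p' = (h * Y p.1 p'.1) p.2 p'.2 := by
  change (flatM (diagonal fun _ : ρ => h) * flatM Y : Matrix _ _ T) p p' = _
  rw [← flatM_mul, flatM_apply, diagonal_mul]

theorem mul_flatD_apply (h : Matrix (Fin d) (Fin d) T) (Y : Matrix ρ ρ (Matrix (Fin d) (Fin d) T))
    (p p' : ρ × Fin d) : (flatM Y * flatD ρ h) p p' = (Y p.1 p'.1 * h) p.2 p'.2 := by
  change (flatM Y * flatM (diagonal fun _ : ρ => h) : Matrix _ _ T) p p' = _
  rw [← flatM_mul, flatM_apply, mul_diagonal]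

theorem flatD_mul (h k : Matrix (Fin d) (Fin d) T) : flatD ρ h * flatD ρ k = flatD ρ (h * k) := by
  change flatM (diagonal fun _ => h) * flatM (diagonal fun _ => k) = flatM _
  rw [← flatM_mul, diagonal_mul_diagonal]

omit [DecidableEq ρ] in
theorem flatC_mul_flatM (Cs : ρ → Matrix (Fin d) (Fin d) T)
    (Y : Matrix ρ ρ (Matrix (Fin d) (Fin d) T)) :
    flatC Cs * flatM Y = flatC fun j => ∑ i, Cs i * Y i j := by
  ext a p
  simp [flatC, flatM_apply, mul_apply, Fintype.sum_prod_type, Matrix.sum_apply]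

theorem flatC_mul_flatD (Cs : ρ → Matrix (Fin d) (Fin d) T) (h : Matrix (Fin d) (Fin d) T) :
    flatC Cs * flatD ρ h = flatC fun j => Cs j * h := by
  change flatC Cs * flatM (diagonal fun _ => h) = _
  rw [flatC_mul_flatM]
  congr 1
  funext j
  rw [Finset.sum_eq_single j (fun i _ hi => by rw [diagonal_apply_ne _ hi, Matrix.mul_zero])
    (fun hj => absurd (Finset.mem_univ j) hj), diagonal_apply_eq]

omit [Fintype ρ] [DecidableEq ρ] in
theorem mul_flatC (h : Matrix (Fin d) (Fin d) T) (Cs : ρ → Matrix (Fin d) (Fin d) T) :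
    h * flatC Cs = flatC fun j => h * Cs j := rfl

omit [DecidableEq ρ] in
theorem flatC_mul_transpose (Cs Ds : ρ → Matrix (Fin d) (Fin d) T) :
    flatC Cs * (flatC Ds)ᵀ = ∑ i, Cs i * (Ds i)ᵀ := by
  ext a b
  simp [flatC, mul_apply, Fintype.sum_prod_type, Matrix.sum_apply]

omit [Fintype ρ] [DecidableEq ρ] in
theorem transpose_mul_flatC (Cs Ds : ρ → Matrix (Fin d) (Fin d) T) :
    (flatC Cs)ᵀ * flatC Ds = flatM (Matrix.of fun i j => (Cs i)ᵀ * Ds j) := rfl

/-- A Wall datum over the matrix algebra with the adjoint involution of `B`: `Cs i` is the adjoint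
of `C i`, and `Y = C l C*` up to an element `Z - Z*`. -/
structure WallM (B l : Matrix (Fin d) (Fin d) T) (Y : Matrix ρ ρ (Matrix (Fin d) (Fin d) T))
    (C Cs : ρ → Matrix (Fin d) (Fin d) T) : Prop where
  symm : Bᵀ = B
  adj : ∀ i, B * Cs i = (C i)ᵀ * B
  alt : ∃ Z Zs : Matrix ρ ρ (Matrix (Fin d) (Fin d) T), (∀ i j, B * Zs i j = (Z j i)ᵀ * B) ∧
    ∀ i j, Y i j = C i * l * Cs j + (Z i j - Zs i j)

variable {B l : Matrix (Fin d) (Fin d) T} {Y : Matrix ρ ρ (Matrix (Fin d) (Fin d) T)}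
  {C Cs : ρ → Matrix (Fin d) (Fin d) T}

omit [Fintype ρ] [DecidableEq ρ] in
theorem WallM.adj' (h : WallM B l Y C Cs) (i : ρ) : (Cs i)ᵀ * B = B * C i := by
  have e := congrArg transpose (h.adj i)
  rwa [transpose_mul, transpose_mul, transpose_transpose, h.symm] at e

theorem WallM.isAltM (h : WallM B l Y C Cs) :
    IsAltM (flatD ρ B * flatM Y - (flatC Cs)ᵀ * (B * l) * flatC Cs) := by
  obtain ⟨Z, Zs, h1, h2⟩ := h.alt
  refine ⟨flatD ρ B * flatM Z, ?_⟩
  ext p p'
  have e : B * Y p.1 p'.1 - (Cs p.1)ᵀ * (B * l * Cs p'.1) =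
      B * Z p.1 p'.1 - (B * Z p'.1 p.1)ᵀ := by
    rw [transpose_mul, h.symm, ← h1, h2, ← Matrix.mul_assoc, ← Matrix.mul_assoc, h.adj']
    simp only [Matrix.mul_add, Matrix.mul_sub, Matrix.mul_assoc]
    abel
  rw [Matrix.mul_assoc, mul_flatC, transpose_mul_flatC, Matrix.sub_apply, Matrix.sub_apply,
    transpose_apply, flatD_mul_apply, flatD_mul_apply, flatD_mul_apply, flatM_apply, of_apply]
  exact congrFun (congrFun e p.2) p'.2

variable {R : Type u} [CommRing R] [Algebra R T] {Q : Matrix (Fin d) (Fin d) R}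

theorem WallM.isDatum (h : WallM B l Y C Cs) (hQ : Q.map (algebraMap R T) = B * l) :
    IsDatum (formOver Q T) (fun p => (flatC Cs)ᵀ p) (flatD ρ B * flatM Y)ᵀ := fun x => by
  rw [isDatum_of_alt (Q := Q) (hQ ▸ h.isAltM) x, dotProduct_mulVec x _ᵀ, vecMul_transpose,
    dotProduct_comm]

/-- The Clifford lift of a Wall datum. -/
noncomputable def WallM.lift (h : WallM B l Y C Cs) (hQ : Q.map (algebraMap R T) = B * l) :
    Cl Q T :=
  (h.isDatum hQ).lift

omit [DecidableEq ρ] in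
theorem card_flat_even (hk : Even (Fintype.card ρ * d)) : Even (Fintype.card (ρ × Fin d)) := by
  rwa [Fintype.card_prod, Fintype.card_fin]

theorem isUnit_det_flatM {Yi : Matrix ρ ρ (Matrix (Fin d) (Fin d) T)} (hY : Y * Yi = 1) :
    IsUnit (flatM Y).det :=
  Matrix.isUnit_det_of_right_inverse (by rw [← flatM_mul, hY, flatM_one])

theorem det_wall (B : Matrix (Fin d) (Fin d) T) (Y : Matrix ρ ρ (Matrix (Fin d) (Fin d) T)) :
    (flatD ρ B * flatM Y)ᵀ.det = B.det ^ Fintype.card ρ * (flatM Y).det := by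
  rw [det_transpose, det_mul, det_flatD]

theorem WallM.wallMat_eq (h : WallM B l Y C Cs) (hB : IsUnit B.det) (hl : B * l + (B * l)ᵀ = B)
    {Yi : Matrix ρ ρ (Matrix (Fin d) (Fin d) T)} (hY : Y * Yi = 1) :
    wallMat (B * l) (flatC Cs) (flatD ρ B * flatM Y)ᵀ = 1 - ∑ j, ∑ i, Cs i * Yi i j * C j := by
  have e : (flatD ρ B * flatM Y)⁻¹ = flatM Yi * flatD ρ B⁻¹ := by
    apply inv_eq_right_inv
    rw [Matrix.mul_assoc, ← Matrix.mul_assoc (flatM Y), ← flatM_mul, hY, flatM_one,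
      Matrix.one_mul, flatD_mul, mul_nonsing_inv _ hB]
    exact flatM_one
  rw [wallMat, transpose_transpose, hl, e, ← Matrix.mul_assoc, flatC_mul_flatM, flatC_mul_flatD,
    flatC_mul_transpose, Finset.sum_mul]
  congr 1
  refine Finset.sum_congr rfl fun j _ => ?_
  rw [Matrix.mul_assoc, h.adj', Matrix.mul_assoc, ← Matrix.mul_assoc B⁻¹, nonsing_inv_mul _ hB,
    Matrix.one_mul, Finset.sum_mul]

theorem WallM.lift_even (h : WallM B l Y C Cs) (hQ : Q.map (algebraMap R T) = B * l)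
    (hk : Even (Fintype.card ρ * d)) : h.lift hQ ∈ even (formOver Q T) :=
  (h.isDatum hQ).lift_even (card_flat_even hk)

theorem WallM.lift_ind (h : WallM B l Y C Cs) (hQ : Q.map (algebraMap R T) = B * l)
    (hk : Even (Fintype.card ρ * d)) (hB : IsUnit B.det) (hl : B * l + (B * l)ᵀ = B)
    {Yi : Matrix ρ ρ (Matrix (Fin d) (Fin d) T)} (hY : Y * Yi = 1) :
    Ind Q (h.lift hQ) (1 - ∑ j, ∑ i, Cs i * Yi i j * C j) := by
  rw [← h.wallMat_eq hB hl hY, ← hQ]
  exact (h.isDatum hQ).lift_ind (card_flat_even hk)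
    (by rw [det_wall]; exact (hB.pow _).mul (isUnit_det_flatM hY))

theorem WallM.reverse_lift_mul (h : WallM B l Y C Cs) (hQ : Q.map (algebraMap R T) = B * l)
    (hk : Even (Fintype.card ρ * d)) (hB : IsUnit B.det) (hY : IsUnit (flatM Y).det) :
    reverse (h.lift hQ) * h.lift hQ =
      algebraMap T _ (B.det ^ Fintype.card ρ * (flatM Y).det) := by
  rw [← det_wall]
  exact (h.isDatum hQ).reverse_lift_mul (card_flat_even hk)
    (by rw [det_wall]; exact (hB.pow _).mul hY)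

theorem WallM.lift_mul_reverse (h : WallM B l Y C Cs) (hU : Unim Q)
    (hQ : Q.map (algebraMap R T) = B * l)
    (hk : Even (Fintype.card ρ * d)) (hB : IsUnit B.det) (hY : IsUnit (flatM Y).det) :
    h.lift hQ * reverse (h.lift hQ) =
      algebraMap T _ (B.det ^ Fintype.card ρ * (flatM Y).det) := by
  rw [← det_wall]
  exact (h.isDatum hQ).lift_mul_reverse hU (card_flat_even hk)
    (by rw [det_wall]; exact (hB.pow _).mul hY)

/-- Naturality: along a map of Clifford algebras that is `f` on scalars and `v ↦ g (f v)` on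
vectors, the lift goes to `(det g) ^ r` times the lift of the transported datum. -/
theorem WallM.map_lift (h : WallM B l Y C Cs) (hQ : Q.map (algebraMap R T) = B * l)
    {R' : Type u} [CommRing R'] [Algebra R' T'] {Q' : Matrix (Fin d) (Fin d) R'}
    {B' l' : Matrix (Fin d) (Fin d) T'} {Y' : Matrix ρ ρ (Matrix (Fin d) (Fin d) T')}
    {C' Cs' : ρ → Matrix (Fin d) (Fin d) T'} (h' : WallM B' l' Y' C' Cs')
    (hQ' : Q'.map (algebraMap R' T') = B' * l') (f : T →+* T') (g : Matrix (Fin d) (Fin d) T')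
    (ψ : Cl Q T →+* Cl Q' T') (h1 : ∀ t, ψ (algebraMap T _ t) = algebraMap T' _ (f t))
    (h2 : ∀ v, ψ (ι (formOver Q T) v) = ι (formOver Q' T') (g *ᵥ (f ∘ v)))
    (hg : gᵀ * B' * g = B.map f) (hC : ∀ i, Cs' i * g = g * (Cs i).map f)
    (hY : ∀ i j, Y' i j * g = g * (Y i j).map f) :
    ψ (h.lift hQ) = g.det ^ Fintype.card ρ • h'.lift hQ' := by
  have eY : (flatD ρ B * flatM Y)ᵀ.map f =
      (flatD ρ g)ᵀ * (flatD ρ B' * flatM Y')ᵀ * flatD ρ g := by
    have e0 : flatM Y' * flatD ρ g = flatD ρ g * flatM (Y.map fun y => y.map f) := by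
      ext p p'
      rw [mul_flatD_apply, flatD_mul_apply, hY, Matrix.map_apply]
    have e1 : (flatD ρ B * flatM Y).map f =
        (flatD ρ g)ᵀ * (flatD ρ B' * flatM Y') * flatD ρ g := by
      rw [Matrix.mul_assoc, Matrix.mul_assoc, e0, flatD_transpose, ← Matrix.mul_assoc,
        ← Matrix.mul_assoc, flatD_mul, flatD_mul, hg]
      ext p p'
      rw [flatD_mul_apply, Matrix.map_apply, flatD_mul_apply, Matrix.map_apply, ← Matrix.map_mul,
        Matrix.map_apply]
    rw [transpose_map, e1, transpose_mul _ (flatD ρ g), transpose_mul (flatD ρ g)ᵀ,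
      transpose_transpose, Matrix.mul_assoc]
  have eC : ∀ j, g *ᵥ (f ∘ (flatC Cs)ᵀ j) = ∑ i, flatD ρ g i j • (flatC Cs')ᵀ i := fun j => by
    rw [sum_smul_col]
    funext a
    change (g * (Cs j.1).map f) a j.2 = (flatC Cs' * flatD ρ g) a j
    rw [flatC_mul_flatD, ← hC]; rfl
  have hd : IsDatum (formOver Q' T') (fun j => g *ᵥ (f ∘ (flatC Cs)ᵀ j))
      ((flatD ρ B * flatM Y)ᵀ.map f) := by
    rw [eY, funext eC]
    exact (h'.isDatum hQ').congr _
  rw [WallM.lift, (h.isDatum hQ).map_lift h1 (fun i => h2 _) hd,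
    (h'.isDatum hQ').lift_congr (flatD ρ g) hd eC eY, det_flatD]
  rfl

end Pool.Agent.GSD
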