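import Mathlib

/-! Algebra of alternating elements, isometries and Cayley transforms in a ring with involution. -/

namespace Pool.Agent.GSD

section
variable {A : Type*} [Ring A] [StarRing A]

/-- Alternating elements. -/
def Alt (x : A) : Prop := ∃ c, x = c - star c

/-- The coset `l₀ + Alt`. -/
def La (l0 l : A) : Prop := Alt (l - l0)

/-- Isometries of the quadratic form `l₀`. -/
def Iso (l0 g : A) : Prop := Alt (star g * l0 * g - l0)

/-- The Cayley transform `1 - l⁻¹`. -/
def gl (l : Aˣ) : A := 1 - ((l⁻¹ : Aˣ) : A)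

theorem alt_sub_star (a : A) : Alt (a - star a) := ⟨a, rfl⟩

theorem alt_star_sub (a : A) : Alt (star a - a) := ⟨star a, by rw [star_star]⟩

theorem alt_zero : Alt (0 : A) := ⟨0, by simp⟩

theorem Alt.add {x y : A} (hx : Alt x) (hy : Alt y) : Alt (x + y) := by
  obtain ⟨a, rfl⟩ := hx
  obtain ⟨b, rfl⟩ := hy
  exact ⟨a + b, by rw [star_add]; abel⟩

theorem Alt.neg {x : A} (hx : Alt x) : Alt (-x) := by
  obtain ⟨a, rfl⟩ := hx
  exact ⟨-a, by rw [star_neg]; abel⟩

theorem Alt.sub {x y : A} (hx : Alt x) (hy : Alt y) : Alt (x - y) := by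
  rw [sub_eq_add_neg]; exact hx.add hy.neg

theorem Alt.star_eq {x : A} (hx : Alt x) : star x = -x := by
  obtain ⟨a, rfl⟩ := hx
  rw [star_sub, star_star, neg_sub]

theorem Alt.add_star {x : A} (hx : Alt x) : x + star x = 0 := by
  rw [hx.star_eq, add_neg_cancel]

theorem Alt.star {x : A} (hx : Alt x) : Alt (star x) := by
  rw [hx.star_eq]; exact hx.neg

theorem Alt.conj {x : A} (hx : Alt x) (a : A) : Alt (Star.star a * x * a) := by
  obtain ⟨c, rfl⟩ := hx
  exact ⟨Star.star a * c * a, by simp only [star_mul, star_star]; noncomm_ring⟩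

theorem Alt.conj' {x : A} (hx : Alt x) (a : A) : Alt (a * x * Star.star a) := by
  simpa using hx.conj (Star.star a)

theorem Alt.of_eq {x y : A} (hx : Alt x) (h : y = x) : Alt y := h ▸ hx

/-- multiplication by a central self-adjoint element -/
theorem Alt.cmul {x μ : A} (hx : Alt x) (hc : ∀ a, μ * a = a * μ) (hs : Star.star μ = μ) :
    Alt (μ * x) := by
  obtain ⟨c, rfl⟩ := hx
  exact ⟨μ * c, by rw [star_mul, hs, ← hc, mul_sub]⟩

theorem Alt.map {B : Type*} [Ring B] [StarRing B] (f : A →+* B)
    (hf : ∀ a, f (Star.star a) = Star.star (f a)) {x : A} (hx : Alt x) : Alt (f x) := by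
  obtain ⟨c, rfl⟩ := hx
  exact ⟨f c, by rw [map_sub, hf]⟩

/-- alternating elements lift along a surjection -/
theorem Alt.lift {B : Type*} [Ring B] [StarRing B] (f : A →+* B)
    (hf : ∀ a, f (Star.star a) = Star.star (f a)) (hs : Function.Surjective f) {y : B}
    (hy : Alt y) : ∃ x, Alt x ∧ f x = y := by
  obtain ⟨c, rfl⟩ := hy
  obtain ⟨a, rfl⟩ := hs c
  exact ⟨a - Star.star a, alt_sub_star a, by rw [map_sub, hf]⟩

/-- a one-sided inverse of an alternating element is alternating -/
theorem Alt.inv {x y : A} (hx : Alt x) (h : x * y = 1) : Alt y := by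
  have h1 : Star.star y * x = -1 := by
    have := congrArg Star.star h
    rw [star_mul, hx.star_eq, star_one, mul_neg] at this
    exact neg_eq_iff_eq_neg.1 this
  exact (hx.conj y).neg.of_eq (by rw [h1]; simp)

theorem La.refl (l0 : A) : La l0 l0 := alt_zero.of_eq (sub_self l0)

theorem La.symm {l0 l : A} (h : La l0 l) : La l l0 := h.neg.of_eq (neg_sub _ _).symm

theorem La.trans {l0 l l' : A} (h : La l0 l) (h' : La l l') : La l0 l' :=
  (Alt.add h' h).of_eq (by abel)

theorem La.add_alt {l0 l n : A} (h : La l0 l) (hn : Alt n) : La l0 (l + n) :=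
  (Alt.add h hn).of_eq (by abel)

theorem La.sub {l0 l l' : A} (h : La l0 l) (h' : La l0 l') : Alt (l - l') :=
  (Alt.sub h h').of_eq (by abel)

theorem La.star {l0 l : A} (h : La l0 l) : La l0 (star l) :=
  (Alt.add h (alt_star_sub l)).of_eq (by abel)

theorem La.add_star {l0 l : A} (h0 : l0 + Star.star l0 = 1) (h : La l0 l) :
    l + Star.star l = 1 := by
  have h1 := Alt.add_star h
  rw [star_sub] at h1
  calc l + Star.star l = (l - l0 + (Star.star l - Star.star l0)) + (l0 + Star.star l0) := by abel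
    _ = 1 := by rw [h1, h0, zero_add]

theorem La.map {B : Type*} [Ring B] [StarRing B] (f : A →+* B)
    (hf : ∀ a, f (Star.star a) = Star.star (f a)) {l0 l : A} (h : La l0 l) : La (f l0) (f l) :=
  (Alt.map f hf h).of_eq (map_sub f l l0).symm

theorem La.lift {B : Type*} [Ring B] [StarRing B] (f : A →+* B)
    (hf : ∀ a, f (Star.star a) = Star.star (f a)) (hs : Function.Surjective f) {l0 : A} {y : B}
    (hy : La (f l0) y) : ∃ l, La l0 l ∧ f l = y := by
  obtain ⟨x, hx, e⟩ := Alt.lift f hf hs hy
  exact ⟨l0 + x, (La.refl l0).add_alt hx, by rw [map_add, e]; abel⟩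

/-- the sum of two elements of `La`, minus one, is alternating -/
theorem La.add_sub_one {l0 l l' : A} (h0 : l0 + Star.star l0 = 1) (h : La l0 l) (h' : La l0 l') :
    Alt (l + l' - 1) :=
  (h.sub h'.star).of_eq (by rw [← h'.add_star h0]; abel)

/-- A0 -/
theorem alt_polar {l : A} (h : l + star l = 1) (a b : A) :
    Alt (star a * l * b + star b * l * a - star a * b) := by
  refine ⟨star b * l * a, ?_⟩
  have e : star a * b = star a * (l + star l) * b := by rw [h, mul_one]
  rw [e]
  simp only [star_mul, star_star]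
  noncomm_ring

theorem Iso.one (l0 : A) : Iso l0 1 := alt_zero.of_eq (by simp)

theorem Iso.mul {l0 g g' : A} (h : Iso l0 g) (h' : Iso l0 g') : Iso l0 (g * g') :=
  (Alt.add (Alt.conj h g') h').of_eq (by rw [star_mul]; noncomm_ring)

theorem Iso.of_la {l0 l g : A} (hl : La l0 l) (h : Iso l g) : Iso l0 g :=
  (Alt.add (Alt.sub h (Alt.conj hl g)) hl).of_eq (by noncomm_ring)

theorem Iso.star_mul_self {l0 g : A} (h0 : l0 + star l0 = 1) (h : Iso l0 g) : star g * g = 1 := by
  have h1 := Alt.add_star h
  simp only [star_sub, star_mul, star_star] at h1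
  calc star g * g = star g * (l0 + star l0) * g := by rw [h0, mul_one]
    _ = (star g * l0 * g - l0 + (star g * (star l0 * g) - star l0)) + (l0 + star l0) := by
        noncomm_ring
    _ = 1 := by rw [h1, h0, zero_add]

/-- a right inverse of an isometry is an isometry -/
theorem Iso.inv {l0 g g' : A} (h : Iso l0 g) (e : g * g' = 1) : Iso l0 g' := by
  refine (Alt.conj h g').neg.of_eq ?_
  have e' : star g' * star g = 1 := by rw [← star_mul, e, star_one]
  calc star g' * l0 * g' - l0
      = star g' * l0 * g' - (star g' * star g) * l0 * (g * g') := by rw [e, e']; simp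
    _ = _ := by noncomm_ring

theorem Iso.conj_la {l0 g l : A} (h : Iso l0 g) (hl : La l0 l) : La l0 (star g * l * g) :=
  (Alt.add h (Alt.conj hl g)).of_eq (by noncomm_ring)

theorem Iso.map {B : Type*} [Ring B] [StarRing B] (f : A →+* B)
    (hf : ∀ a, f (star a) = star (f a)) {l0 g : A} (h : Iso l0 g) : Iso (f l0) (f g) :=
  (Alt.map f hf h).of_eq (by rw [map_sub, map_mul, map_mul, hf])

theorem coe_star_inv (l : Aˣ) : (((star l)⁻¹ : Aˣ) : A) = star ((l⁻¹ : Aˣ) : A) := rfl

theorem star_gl (l : Aˣ) : star (gl l) = gl (star l) := by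
  rw [gl, gl, star_sub, star_one, coe_star_inv]

theorem mul_gl {l : Aˣ} (h : (l : A) + star (l : A) = 1) : (l : A) * gl l = -star (l : A) := by
  rw [gl, mul_sub, mul_one, Units.mul_inv, ← h]; abel

theorem gl_mul {l : Aˣ} (h : (l : A) + star (l : A) = 1) : gl l * (l : A) = -star (l : A) := by
  rw [gl, sub_mul, one_mul, Units.inv_mul, ← h]; abel

omit [StarRing A] in
theorem one_sub_gl_mul_gl (l l' : Aˣ) :
    1 - gl l * gl l' = ((l⁻¹ : Aˣ) : A) * ((l : A) + l' - 1) * ((l'⁻¹ : Aˣ) : A) := by
  have h1 : ((l⁻¹ : Aˣ) : A) * ((l : A) + l' - 1) * ((l'⁻¹ : Aˣ) : A)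
      = (((l⁻¹ : Aˣ) : A) * l) * ((l'⁻¹ : Aˣ) : A) + ((l⁻¹ : Aˣ) : A) * (l' * ((l'⁻¹ : Aˣ) : A))
        - ((l⁻¹ : Aˣ) : A) * ((l'⁻¹ : Aˣ) : A) := by noncomm_ring
  rw [h1, Units.inv_mul, Units.mul_inv, gl, gl]
  noncomm_ring

omit [StarRing A] in
theorem one_sub_mul_gl (g : A) (l : Aˣ) :
    1 - g * gl l = ((1 - g) * l + g) * ((l⁻¹ : Aˣ) : A) := by
  rw [add_mul, mul_assoc, Units.mul_inv, gl]
  noncomm_ring

theorem gl_mul_gl_star {l : Aˣ} (h : (l : A) + star (l : A) = 1) : gl l * gl (star l) = 1 := by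
  have h1 := one_sub_gl_mul_gl l (star l)
  rw [Units.coe_star, h, sub_self, mul_zero, zero_mul] at h1
  exact (sub_eq_zero.1 h1).symm

theorem gl_star_mul_gl {l : Aˣ} (h : (l : A) + star (l : A) = 1) : gl (star l) * gl l = 1 := by
  have h1 := one_sub_gl_mul_gl (star l) l
  rw [Units.coe_star, add_comm, h, sub_self, mul_zero, zero_mul] at h1
  exact (sub_eq_zero.1 h1).symm

theorem isUnit_gl {l : Aˣ} (h : (l : A) + star (l : A) = 1) : IsUnit (gl l) :=
  ⟨⟨gl l, gl (star l), gl_mul_gl_star h, gl_star_mul_gl h⟩, rfl⟩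

theorem star_gl_mul_mul {l : Aˣ} (h : (l : A) + star (l : A) = 1) :
    star (gl l) * l * gl l = l := by
  have h' : ((star l : Aˣ) : A) + star ((star l : Aˣ) : A) = 1 := by
    rw [Units.coe_star, star_star, add_comm, h]
  have h2 := gl_mul h'
  rw [Units.coe_star, star_star] at h2
  rw [mul_assoc, mul_gl h, star_gl, mul_neg, h2, neg_neg]

theorem La.iso_gl {l0 : A} (h0 : l0 + Star.star l0 = 1) {l : Aˣ} (h : La l0 l) : Iso l0 (gl l) :=
  Iso.of_la h (alt_zero.of_eq (by rw [star_gl_mul_mul (h.add_star h0), sub_self]))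

/-- A1 -/
theorem Iso.la_inv {l0 g y : A} (h0 : l0 + star l0 = 1) (h : Iso l0 g) (e : (1 - g) * y = 1) :
    La l0 y := by
  have h1 : Alt (star (1 - g) * l0 * (1 - g) - star (1 - g)) := by
    have a1 := alt_polar h0 g 1
    have a2 := alt_sub_star l0
    refine ((Alt.sub h a1).add a2).of_eq ?_
    have e1 : star l0 = 1 - l0 := eq_sub_of_add_eq' h0
    rw [star_sub, star_one, e1]
    noncomm_ring
  have e' : star y * star (1 - g) = 1 := by rw [← star_mul, e, star_one]
  refine (h1.conj y).neg.of_eq ?_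
  calc y - l0 = (star y * star (1 - g)) * y - (star y * star (1 - g)) * l0 * ((1 - g) * y) := by
        rw [e, e']; simp
    _ = _ := by noncomm_ring

/-- A1, unit form: an isometry with `1 - g` a unit is a Cayley transform -/
theorem Iso.exists_gl {l0 g : A} (h0 : l0 + star l0 = 1) (h : Iso l0 g) (hu : IsUnit (1 - g)) :
    ∃ l : Aˣ, La l0 l ∧ g = gl l ∧ ((l⁻¹ : Aˣ) : A) = 1 - g := by
  obtain ⟨u, hu⟩ := hu
  refine ⟨u⁻¹, h.la_inv h0 (by rw [← hu, Units.mul_inv]), ?_, ?_⟩
  · rw [gl, inv_inv, hu, sub_sub_cancel]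
  · rw [inv_inv, hu]

/-- A1, second part: `g = g_{l'} g_{l*}` when `1 - g g_l` is a unit -/
theorem Iso.exists_gl_mul_gl {l0 g : A} (h0 : l0 + star l0 = 1) (h : Iso l0 g) {l : Aˣ}
    (hl : La l0 l) (hu : IsUnit (1 - g * gl l)) :
    ∃ l' : Aˣ, La l0 l' ∧ g * gl l = gl l' ∧ g = gl l' * gl (star l) ∧
      ((l'⁻¹ : Aˣ) : A) = 1 - g * gl l := by
  obtain ⟨l', h1, h2, h3⟩ := (h.mul (hl.iso_gl h0)).exists_gl h0 hu
  exact ⟨l', h1, h2, by rw [← h2, mul_assoc, gl_mul_gl_star (hl.add_star h0), mul_one], h3⟩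

/-- A2 -/
theorem iso_one_add {l0 j n ci : A} (h0 : l0 + star l0 = 1) (hn : Alt n)
    (hc : (1 - star j * l0 * j * n) * ci = 1) (hc' : ci * (1 - star j * l0 * j * n) = 1) :
    Iso l0 (1 + j * (n * ci) * star j) := by
  set Q := star j * l0 * j with hQ
  set c := 1 - Q * n with hcd
  have h1 : Alt (star c * (n * ci + star (n * ci) * Q * (n * ci)) * c) := by
    have e1 : n * ci * c = n := by rw [mul_assoc, hc', mul_one]
    have e2 : star c * star (n * ci) = star n := by rw [← star_mul, e1]
    refine (hn.add ((alt_sub_star Q).conj n)).of_eq ?_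
    calc star c * (n * ci + star (n * ci) * Q * (n * ci)) * c
        = star c * (n * ci * c) + (star c * star (n * ci)) * Q * (n * ci * c) := by noncomm_ring
      _ = star c * n + star n * Q * n := by rw [e1, e2]
      _ = _ := by rw [hcd, star_sub, star_one, star_mul]; noncomm_ring
  have h2 : Alt (n * ci + star (n * ci) * Q * (n * ci)) := by
    refine (h1.conj ci).of_eq ?_
    have e' : star ci * star c = 1 := by rw [← star_mul, hc, star_one]
    calc _ = (star ci * star c) * (n * ci + star (n * ci) * Q * (n * ci)) * (c * ci) := by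
          rw [e', hc, one_mul, mul_one]
      _ = _ := by noncomm_ring
  refine ((alt_polar h0 1 (j * (n * ci) * star j)).add (h2.conj' j)).of_eq ?_
  rw [hQ]
  generalize n * ci = th
  simp only [star_add, star_one, star_mul, star_star]
  noncomm_ring

/-- A3 -/
theorem exists_alt_inv {e n0 c0 : A} (he : e * e = e) (hn : Alt n0)
    (hc : star e * n0 * e * c0 = star e) :
    ∃ ν, Alt ν ∧ e * ν = ν ∧ ν * star e = ν ∧ star e * n0 * e * ν = star e ∧
      ν * (star e * n0 * e) = e := by
  have he' : star e * star e = star e := by rw [← star_mul, he]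
  have hM : Alt (star e * n0 * e) := hn.conj e
  set M := star e * n0 * e with hMd
  have hMe : M * e = M := by rw [hMd, mul_assoc, he]
  have h1 : M * (e * c0 * star e) = star e := by
    rw [← mul_assoc, ← mul_assoc, hMe, hc, he']
  have h2 : star (e * c0 * star e) * M = -e := by
    have := congrArg star h1
    rw [star_mul, hM.star_eq, star_star, mul_neg] at this
    exact neg_eq_iff_eq_neg.1 this
  have h3 : e * (e * c0 * star e) = e * c0 * star e := by rw [← mul_assoc, ← mul_assoc, he]
  have h4 : Alt (e * c0 * star e) :=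
    (hM.conj (e * c0 * star e)).neg.of_eq (by rw [h2, neg_mul, neg_neg, h3])
  refine ⟨e * c0 * star e, h4, h3, by rw [mul_assoc, he'], h1, ?_⟩
  rw [h4.star_eq, neg_mul] at h2
  exact neg_injective h2

/-- A hyperbolic idempotent. -/
structure Hyp (l0 e : A) : Prop where
  idem : e * e = e
  star_mul : star e * e = 0
  mul_star : e * star e = 0
  alt : Alt (star e * l0 * e)
  alt' : Alt (e * l0 * star e)

/-- A4, first part -/
theorem hyp_of_isotropic {l0 v : A} (h0 : l0 + star l0 = 1) (hv : v * v = v)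
    (ha : Alt (star v * l0 * v)) :
    Hyp l0 (v - v * l0 * star v) ∧ (v - v * l0 * star v) * v = v ∧
      v * (v - v * l0 * star v) = v - v * l0 * star v := by
  have hv' : star v * star v = star v := by rw [← star_mul, hv]
  have h1 : star v * v = 0 := by
    have := ha.add_star
    simp only [star_mul, star_star] at this
    calc star v * v = star v * (l0 + star l0) * v := by rw [h0, mul_one]
      _ = 0 := by rw [← this]; noncomm_ring
  have e0 : v - v * l0 * star v = v * (1 - l0 * star v) := by noncomm_ring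
  have e1 : (v - v * l0 * star v) * v = v := by
    rw [sub_mul, hv, mul_assoc, h1, mul_zero, sub_zero]
  have e2 : v * (v - v * l0 * star v) = v - v * l0 * star v := by rw [e0, ← mul_assoc, hv]
  have es : star (v - v * l0 * star v) = star v - v * star l0 * star v := by
    simp only [star_sub, star_mul, star_star, mul_assoc]
  refine ⟨⟨?_, ?_, ?_, ?_, ?_⟩, e1, e2⟩
  · calc _ = ((v - v * l0 * star v) * v) * (1 - l0 * star v) := by noncomm_ring
      _ = _ := by rw [e1, e0]
  · rw [e0, star_mul]
    calc _ = star (1 - l0 * star v) * (star v * v) * (1 - l0 * star v) := by noncomm_ring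
      _ = 0 := by rw [h1]; simp
  · rw [es]
    calc _ = v * star v - (v * v) * star l0 * star v - v * l0 * (star v * star v)
          + v * l0 * (star v * v) * star l0 * star v := by noncomm_ring
      _ = v * star v - v * (l0 + star l0) * star v := by rw [hv, hv', h1]; noncomm_ring
      _ = 0 := by rw [h0, mul_one, sub_self]
  · refine (ha.conj (1 - l0 * star v)).of_eq ?_
    rw [e0, star_mul]
    noncomm_ring
  · refine ((ha.conj' (v * l0)).add (alt_star_sub (v * l0 * v * star l0 * star v))).of_eq ?_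
    rw [es]
    simp only [star_mul, star_star]
    have e3 : v * l0 * star v = v * l0 * star v * (l0 + star l0) * star v := by
      rw [h0, mul_one, mul_assoc (v * l0), hv']
    calc (v - v * l0 * star v) * l0 * (star v - v * star l0 * star v)
        = v * l0 * star v - v * l0 * star v * (l0 + star l0) * star v
          + (v * l0 * (star v * l0 * v) * (star l0 * star v)
            + (v * (l0 * (star v * (star l0 * star v))) - v * l0 * v * star l0 * star v)) := by
          noncomm_ring
      _ = _ := by rw [← e3, sub_self, zero_add]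

namespace Hyp

variable {l0 e : A} (h : Hyp l0 e)
include h

theorem idem' : star e * star e = star e := by rw [← StarMul.star_mul, h.idem]

omit h in
theorem star_pi : star (1 - e - star e) = 1 - e - star e := by
  rw [star_sub, star_sub, star_one, star_star]; abel

theorem pi_mul : (1 - e - star e) * e = 0 := by
  rw [sub_mul, sub_mul, one_mul, h.idem, h.star_mul]; abel

theorem mul_pi : e * (1 - e - star e) = 0 := by
  rw [mul_sub, mul_sub, mul_one, h.idem, h.mul_star]; abel

theorem pi_mul_star : (1 - e - star e) * star e = 0 := by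
  rw [sub_mul, sub_mul, one_mul, h.idem', h.mul_star]; abel

theorem star_mul_pi : star e * (1 - e - star e) = 0 := by
  rw [mul_sub, mul_sub, mul_one, h.idem', h.star_mul]; abel

theorem pi_idem : (1 - e - star e) * (1 - e - star e) = 1 - e - star e := by
  have e1 : (1 - e - star e) * (1 - e - star e)
      = (1 - e - star e) - (1 - e - star e) * e - (1 - e - star e) * star e := by noncomm_ring
  rw [e1, h.pi_mul, h.pi_mul_star, sub_zero, sub_zero]

theorem of_la {l : A} (hl : La l0 l) : Hyp l e :=
  ⟨h.idem, h.star_mul, h.mul_star, (h.alt.add (Alt.conj hl e)).of_eq (by noncomm_ring),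
    (h.alt'.add (Alt.conj' hl e)).of_eq (by noncomm_ring)⟩

theorem la_corner (h0 : l0 + star l0 = 1) {l1 : A} (hl : La l0 l1) :
    La l0 (star e + (1 - e - star e) * l1 * (1 - e - star e)) := by
  have h1 := hl.add_star h0
  have h' := h.of_la hl
  have a1 := alt_polar h1 e (star e)
  have a2 := alt_polar h1 (1 - e - star e) e
  have a3 := alt_polar h1 (1 - e - star e) (star e)
  rw [star_star, h.idem'] at a1
  rw [star_pi, h.pi_mul] at a2
  rw [star_pi, h.pi_mul_star, star_star] at a3
  refine hl.trans (((((a1.add a2).add a3).add h'.alt).add h'.alt').neg.of_eq ?_)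
  noncomm_ring

/-- A4, second part -/
theorem la_mu (h0 : l0 + star l0 = 1) {l1 μ : A} (hl : La l0 l1) (hc : ∀ a, μ * a = a * μ)
    (hs : star μ = μ) :
    La l0 (μ * e + (1 - μ) * star e + (1 - e - star e) * l1 * (1 - e - star e)) := by
  refine Alt.of_eq ((h.la_corner h0 hl).add_alt ((alt_sub_star e).cmul hc hs)) ?_
  noncomm_ring

end Hyp

end

end Pool.Agent.GSD
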