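import Pool.Agent.P.MP_c1f06d_ag.d.Stmt
import Pool.Agent.P.MP_c1f06d_ag.d.LiftM
import Pool.Agent.P.MP_c1f06d_ag.d.ValA

open Matrix

universe u

namespace Pool.Agent.GSD

/-- `(Y, C)` is a Wall datum of `g` for the form `l`; `Yi` is the inverse of `Y`. -/
structure WallD {B : Type*} [Ring B] [StarRing B] {ρ : Type*} [Fintype ρ] [DecidableEq ρ]
    (l g : B) (Y Yi : Matrix ρ ρ B) (C : ρ → B) : Prop where
  inv : Y * Yi = 1
  alt : ∃ Z : Matrix ρ ρ B, ∀ i j, Y i j = C i * l * star (C j) + (Z i j - star (Z j i))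
  eq : g = 1 - ∑ j, ∑ i, star (C i) * Yi i j * C j

variable {R A B : Type u} [CommRing R] [Ring A] [StarRing A] [Algebra R A]
  [Ring B] [StarRing B] [Algebra R B]

/-- `n` is the reduced norm of the matrix `Y` over the `F`-algebra `B`, a base change of `A`. -/
def NrdIs (l : A) (d : ℕ) (i : A →ₐ[R] B) {F : Type u} [CommRing F] [Algebra F B]
    {ρ : Type} [Fintype ρ] [DecidableEq ρ] (Y : Matrix ρ ρ B) (n : F) : Prop :=
  ∀ (T : Type u) [CommRing T] [Algebra R T] (s : Splitting R l d T) (f : F →+* T)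
    (τ : B →+* Matrix (Fin d) (Fin d) T), (∀ c b, τ (c • b) = f c • τ b) →
    (∀ a, τ (i a) = s.φ a) → (flatM (Y.map τ)).det = f n

/-- `c` is a spinor norm of `g`. -/
def SNw (l : A) (d : ℕ) (i : A →ₐ[R] B) {F : Type u} [CommRing F] [Algebra F B] (g : B) (c : F) :
    Prop :=
  ∃ (ρ : Type) (_ : Fintype ρ) (_ : DecidableEq ρ), Even (Fintype.card ρ) ∧
    ∃ (Y Yi : Matrix ρ ρ B) (C : ρ → B) (v n : F),
      WallD (i l) g Y Yi C ∧ NrdIs l d i Y n ∧ c = v ^ 2 * n

/-- `B` is the base change of `A` to `F`, with its involution. -/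
structure GenB (F : Type u) [CommRing F] [Algebra R F] [Algebra F B] [IsScalarTower R F B]
    (i : A →ₐ[R] B) : Prop where
  map_star : ∀ a, i (star a) = star (i a)
  star_smul : ∀ (c : F) (b : B), star (c • b) = c • star b
  bc : IsBaseChange F i.toLinearMap

end Pool.Agent.GSD
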