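import Pool.Agent.P.MP_c1f06d_ag.d.DWall
import Pool.Agent.P.MP_c1f06d_ag.d.TDefs

open Matrix Module Pool.Agent.SU

universe u

namespace Pool.Agent.GSD

variable {R A B F : Type u} [CommRing R] [Ring A] [StarRing A] [Algebra R A] [Ring B] [StarRing B]
  [Algebra R B] [CommRing F] [Algebra R F] [Algebra F B] [IsScalarTower R F B] {l : A} {d : ℕ}
  {i : A →ₐ[R] B}

theorem SBC.genB [StarFix F B] (h : SBC (algebraMap R F) (i : A →+* B)) : GenB F i := by
  exact ⟨h.map_star, star_smul_fix, BC.isBaseChange i h.toBC⟩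

theorem nrdIs_iff [StarFix F B] (hA : QAz R d l) (h : SBC (algebraMap R F) (i : A →+* B))
    {ρ : Type} [Fintype ρ] [DecidableEq ρ] (Y : Matrix ρ ρ B) (n : F) :
    NrdIs l d i Y n ↔ nrd F Y = n := by
  have hB : Az F B := (hA.map h).az
  constructor
  · intro hn
    obtain ⟨S, _, s, φ, Q, hs, hq⟩ := hA
    obtain ⟨P, _, s', f', hc, hs'⟩ := exists_pushout (algebraMap R F) s hs
    have h1 := hq.post f'
    rw [← hc] at h1
    obtain ⟨φ', hφ', h2⟩ := QSpl.lift h h1
    let _ : Algebra R P := (s'.comp (algebraMap R F)).toAlgebra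
    obtain ⟨s0, hs0, -⟩ := QSpl.splitting (T := R) (S := P) h1
    have h3 := hn P s0 s' φ' (fun c b => h2.toBC.smul c b) fun a => by
      rw [hs0, ← hφ']; rfl
    apply ff_injective hs'
    rw [hB.nrd_mat_spec h2.toBC Y, ← h3]
    rfl
  · rintro rfl T _ _ s f τ hτ hi
    have := hA.az.free
    have := hA.az.finite
    have hk : ∀ t, τ (algebraMap F B t) = algebraMap T _ (f t) := fun t => by
      rw [Algebra.algebraMap_eq_smul_one, hτ, map_one, Algebra.algebraMap_eq_smul_one]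
    have he : τ.comp (i : A →+* B) = (s.φ : A →+* _) := RingHom.ext hi
    have h1 : BC (f.comp (algebraMap R F)) (τ.comp (i : A →+* B)) := by
      refine ⟨fun t => ?_, ?_⟩
      · rw [RingHom.comp_apply, RingHom.comp_apply, h.alg, hk]
      · rw [he]
        exact s.qspl.basis
    rw [hB.nrd_mat_spec (h.toBC.of_comp h1 hk) Y]
    rfl

theorem SN.snw [StarFix F B] (hA : QAz R d l) (h : SBC (algebraMap R F) (i : A →+* B)) {g : B}
    {c : F} (hs : SN F (i l) g c) : SNw l d i g c := by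
  obtain ⟨n, _, _, C, Y, v, hn, ⟨Z, hZ⟩, hg, hc⟩ := hs
  refine ⟨n, _, _, hn, (Y : Matrix n n B), ((Y⁻¹ : (Matrix n n B)ˣ) : Matrix n n B),
    fun a => star (C a), v, nrd F (Y : Matrix n n B), ⟨Y.mul_inv, ⟨Z, fun a b => ?_⟩, ?_⟩,
    (nrdIs_iff hA h _ _).2 rfl, hc⟩
  · have := congrFun (congrFun hZ a) b
    rw [Matrix.sub_apply, Matrix.sub_apply, Matrix.star_apply, gram, Matrix.of_apply] at this
    rw [star_star, ← this, add_sub_cancel]
  · rw [hg, wiso, Finset.sum_comm]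
    simp only [star_star]

theorem SNw.sn [StarFix F B] (hA : QAz R d l) (h : SBC (algebraMap R F) (i : A →+* B)) {g : B}
    {c : F} (hc : IsUnit c) (hs : SNw l d i g c) : SN F (i l) g c := by
  obtain ⟨ρ, _, _, hn, Y, Yi, C, v, n, ⟨hi, ⟨Z, hZ⟩, hg⟩, hY, rfl⟩ := hs
  have hB : Az F B := (hA.map h).az
  have hY' := (nrdIs_iff hA h _ _).1 hY
  subst hY'
  obtain ⟨v, rfl⟩ : IsUnit v := (isUnit_pow_iff two_ne_zero).1 (isUnit_of_mul_isUnit_left hc)
  obtain ⟨Y, rfl⟩ : IsUnit Y := (hB.mat ρ).isUnit_nrd_iff.1 (isUnit_of_mul_isUnit_right hc)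
  refine ⟨ρ, _, _, fun a => star (C a), Y, v, hn, ⟨Z, ?_⟩, ?_, rfl⟩
  · ext a b
    rw [Matrix.sub_apply, Matrix.sub_apply, Matrix.star_apply, gram, Matrix.of_apply, star_star,
      hZ, add_sub_cancel_left]
  · rw [hg, wiso, Finset.sum_comm, Units.inv_eq_of_mul_eq_one_right hi]
    simp only [star_star]

end Pool.Agent.GSD
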