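import Pool.Agent.P.MP_c1f06d_ag.su.VLay

/-! Lattice data attached to an isometry over the fraction field of a valuation ring. -/

namespace Pool.Agent.GSD

open IsLocalRing Pool.Agent.SU

/-- A saturated submodule of a finite module over a valuation ring has a projection. -/
theorem exists_proj_of_saturated {O M : Type*} [CommRing O] [IsDomain O] [ValuationRing O]
    [AddCommGroup M] [Module O M] [Module.Finite O M] (L : Submodule O M)
    (hL : ∀ (c : O) (y : M), c ≠ 0 → c • y ∈ L → y ∈ L) :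
    ∃ p : M →ₗ[O] M, (∀ y, p y ∈ L) ∧ ∀ y ∈ L, p y = y := by
  have hflat : Module.Flat O (M ⧸ L) := by
    rw [Module.Flat.flat_iff_torsion_eq_bot_of_isBezout, eq_bot_iff]
    rintro x ⟨⟨c, hc⟩, hx⟩
    obtain ⟨y, rfl⟩ := L.mkQ_surjective x
    have h1 : L.mkQ (c • y) = 0 := by rw [map_smul]; exact hx
    exact (Submodule.Quotient.mk_eq_zero L).2
      (hL c y (nonZeroDivisors.ne_zero hc) ((Submodule.Quotient.mk_eq_zero L).1 h1))
  have hfree : Module.Free O (M ⧸ L) := Module.free_of_flat_of_isLocalRing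
  obtain ⟨s, hs⟩ := Module.projective_lifting_property L.mkQ LinearMap.id L.mkQ_surjective
  have hs' : ∀ x, L.mkQ (s x) = x := fun x => LinearMap.congr_fun hs x
  refine ⟨LinearMap.id - s ∘ₗ L.mkQ, fun y => ?_, fun y hy => ?_⟩
  · rw [← Submodule.Quotient.mk_eq_zero, ← Submodule.mkQ_apply]
    simp only [LinearMap.sub_apply, LinearMap.id_apply, LinearMap.comp_apply, map_sub, hs',
      sub_self]
  · have : L.mkQ y = 0 := (Submodule.Quotient.mk_eq_zero L).2 hy
    simp only [LinearMap.sub_apply, LinearMap.id_apply, LinearMap.comp_apply, this, map_zero,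
      sub_zero]

section
variable {O A : Type*} [CommRing O] [Ring A] [Algebra O A] [StarRing A] [StarFix O A]

/-- The involution as a linear map. -/
def v1StarL (O A : Type*) [CommRing O] [Ring A] [Algebra O A] [StarRing A] [StarFix O A] :
    A →ₗ[O] A where
  toFun := star
  map_add' := star_add
  map_smul' := star_smul_fix

/-- Averaging for right modules. -/
theorem avg_right (h : Avg O A) :
    ∃ (n : ℕ) (x y : Fin n → A), ∑ i, x i * y i = 1 ∧
      ∀ (p : A →ₗ[O] A) (a : A), (∑ i, p (x i) * y i) * a = ∑ i, p (a * x i) * y i := by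
  obtain ⟨n, x, y, h1, h2⟩ := h
  refine ⟨n, fun i => star (y i), fun i => star (x i), ?_, fun p a => ?_⟩
  · have := congrArg star h1
    simpa only [star_sum, star_mul, star_one] using this
  · have := congrArg star (h2 (v1StarL O A ∘ₗ p ∘ₗ v1StarL O A) (star a))
    simpa only [star_sum, star_mul, star_star, LinearMap.comp_apply, v1StarL, LinearMap.coe_mk,
      AddHom.coe_mk] using this

end

section
variable {O A B : Type*} [CommRing O] [Ring A] [Algebra O A] [StarRing A] [Ring B] [Algebra O B]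
  [StarRing B]

/-- `B` is obtained from `A` by inverting the nonzero scalars. -/
structure Frac (ι : A →ₐ[O] B) : Prop where
  inj : Function.Injective ι
  map_star : ∀ a, ι (star a) = star (ι a)
  den : ∀ b, ∃ c : O, c ≠ 0 ∧ ∃ a, ι a = c • b
  unit : ∀ c : O, c ≠ 0 → IsUnit (algebraMap O B c)

/-- The lattice `A ∩ g A`. -/
def latN (ι : A →ₐ[O] B) (g : B) : Submodule O A where
  carrier := {a | ∃ r, ι a = g * ι r}
  add_mem' := by
    rintro a b ⟨r, hr⟩ ⟨s, hs⟩
    exact ⟨r + s, by rw [map_add, map_add, mul_add, hr, hs]⟩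
  zero_mem' := ⟨0, by simp⟩
  smul_mem' := by
    rintro c a ⟨r, hr⟩
    exact ⟨c • r, by rw [map_smul, map_smul, hr, mul_smul_comm]⟩

omit [StarRing A] [StarRing B] in
theorem mem_latN {ι : A →ₐ[O] B} {g : B} {a : A} : a ∈ latN ι g ↔ ∃ r, ι a = g * ι r := Iff.rfl

omit [StarRing A] [StarRing B] in
theorem latN_mul {ι : A →ₐ[O] B} {g : B} {a : A} (h : a ∈ latN ι g) (b : A) :
    a * b ∈ latN ι g := by
  obtain ⟨r, hr⟩ := h
  exact ⟨r * b, by rw [map_mul, map_mul, hr, mul_assoc]⟩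

variable {ι : A →ₐ[O] B} (hι : Frac ι)
include hι

theorem Frac.smul_cancel {c : O} (hc : c ≠ 0) {x y : B} (h : c • x = c • y) : x = y := by
  rw [Algebra.smul_def, Algebra.smul_def] at h
  exact (hι.unit c hc).mul_left_cancel h

theorem Frac.smul_cancel' {c : O} (hc : c ≠ 0) {x y : A} (h : c • x = c • y) : x = y :=
  hι.inj (hι.smul_cancel hc (by rw [← map_smul, ← map_smul, h]))

theorem Frac.exists_div {c : O} (hc : c ≠ 0) (x : B) : ∃ y, c • y = x := by
  obtain ⟨u, hu⟩ := hι.unit c hc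
  exact ⟨(u⁻¹ : Bˣ) * x, by rw [Algebra.smul_def, ← hu, Units.mul_inv_cancel_left]⟩

/-- a scalar multiple of `A` lies in the lattice -/
theorem Frac.exists_smul_mem {g g' : B} (hg : g * g' = 1) :
    ∃ f : O, f ≠ 0 ∧ ∀ y, f • y ∈ latN ι g := by
  obtain ⟨c, hc, a, ha⟩ := hι.den g'
  exact ⟨c, hc, fun y => ⟨a * y, by
    rw [map_mul, ha, map_smul, smul_mul_assoc, mul_smul_comm, ← mul_assoc, hg, one_mul]⟩⟩

/-- the case of a full lattice -/
theorem Frac.integral_of_top {g : B} {h : A} (hg : star g * g = ι h) (hN : latN ι g = ⊤) :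
    ∃ a r, ι a = g ∧ g * ι r = 1 := by
  obtain ⟨r, hr⟩ : (1 : A) ∈ latN ι g := hN ▸ Submodule.mem_top
  rw [map_one] at hr
  refine ⟨star (h * r), r, ?_, hr.symm⟩
  have h1 : star g = ι (h * r) := by
    calc star g = star g * (g * ι r) := by rw [← hr, mul_one]
      _ = ι (h * r) := by rw [← mul_assoc, hg, map_mul]
  rw [hι.map_star, ← h1, star_star]

omit [StarRing A] hι in
/-- the hypothesis `g * ι hi * g* = 1` from `g* g = ι h` with `h` a unit -/
theorem mul_inv_star {g gi : B} {h : Aˣ} (h1 : g * gi = 1)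
    (hg : star g * g = ι h) : g * ι (h⁻¹ : Aˣ) * star g = 1 := by
  have h2 : star g = ι h * gi := by rw [← hg, mul_assoc, h1, mul_one]
  rw [h2, mul_assoc, ← mul_assoc (ι _), ← map_mul, Units.inv_mul, map_one, one_mul, h1]

variable [IsDomain O] [ValuationRing O] [Module.Finite O A] [StarFix O A]

/-- V1 (a) -/
theorem Frac.exists_PP (hav : Avg O A) (g : B) :
    ∃ P P' Q Q' : A, ι Q = g * ι P ∧ ι Q' = g * ι P' ∧ ι P + ι P' * g = 1 := by
  let L : Submodule O (A × A) :=
    { carrier := {z | ι z.2 = g * ι z.1}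
      add_mem' := fun {a b} ha hb => by
        simp only [Set.mem_ofPred_eq, Prod.snd_add, Prod.fst_add, map_add, mul_add] at ha hb ⊢
        rw [ha, hb]
      zero_mem' := by simp
      smul_mem' := fun c a ha => by
        simp only [Set.mem_ofPred_eq, Prod.smul_snd, Prod.smul_fst, map_smul,
          mul_smul_comm] at ha ⊢
        rw [ha] }
  have hL : ∀ z : A × A, z ∈ L ↔ ι z.2 = g * ι z.1 := fun z => Iff.rfl
  obtain ⟨p, hp1, hp2⟩ := exists_proj_of_saturated L fun c y hc hy => by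
    rw [hL] at hy ⊢
    rw [Prod.smul_snd, Prod.smul_fst, map_smul, map_smul, mul_smul_comm] at hy
    exact hι.smul_cancel hc hy
  obtain ⟨n, x, y, h1, h2⟩ := avg_right hav
  have key : ∀ z : Fin n → A × A,
      ι (∑ i, (p (z i)).2 * y i) = g * ι (∑ i, (p (z i)).1 * y i) := by
    intro z
    rw [map_sum, map_sum, Finset.mul_sum]
    refine Finset.sum_congr rfl fun i _ => ?_
    rw [map_mul, map_mul, (hL _).1 (hp1 (z i)), mul_assoc]
  refine ⟨∑ i, (p (x i, 0)).1 * y i, ∑ i, (p (0, x i)).1 * y i, ∑ i, (p (x i, 0)).2 * y i,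
    ∑ i, (p (0, x i)).2 * y i, key fun i => (x i, 0), key fun i => (0, x i), ?_⟩
  obtain ⟨c, hc, b, hb⟩ := hι.den g
  have e1 := h2 (LinearMap.fst O A A ∘ₗ p ∘ₗ LinearMap.inl O A A) (c • 1)
  have e2 := h2 (LinearMap.fst O A A ∘ₗ p ∘ₗ LinearMap.inr O A A) b
  simp only [LinearMap.comp_apply, LinearMap.fst_apply, LinearMap.inl_apply,
    LinearMap.inr_apply] at e1 e2
  have e3 : (∑ i, (p (x i, 0)).1 * y i) * (c • 1) + (∑ i, (p (0, x i)).1 * y i) * b = c • 1 := by
    rw [e1, e2, ← Finset.sum_add_distrib]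
    calc _ = ∑ i, (c • (1 : A)) * (x i * y i) := by
          refine Finset.sum_congr rfl fun i _ => ?_
          rw [← add_mul, ← Prod.fst_add, ← map_add, Prod.mk_add_mk, add_zero, zero_add, hp2,
            mul_assoc]
          rw [hL, map_mul, map_mul, hb, map_smul, map_one, smul_mul_assoc, smul_mul_assoc,
            one_mul, mul_smul_comm]
      _ = c • 1 := by rw [← Finset.mul_sum, h1, mul_one]
  refine hι.smul_cancel hc ?_
  have e4 := congrArg ι e3
  rw [map_add, map_mul, map_mul, hb, map_smul, map_one, mul_smul_comm, mul_smul_comm,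
    mul_one] at e4
  rw [smul_add, e4]

theorem Frac.latN_fg (hav : Avg O A) (g : B) : (latN ι g).FG := by
  obtain ⟨P, P', Q, Q', h1, h2, h3⟩ := hι.exists_PP hav g
  have e : latN ι g = LinearMap.range (LinearMap.mulLeft O Q) ⊔
      LinearMap.range (LinearMap.mulLeft O Q') := by
    refine le_antisymm ?_ (sup_le ?_ ?_)
    · rintro a ⟨r, hr⟩
      refine Submodule.mem_sup.2 ⟨Q * r, ⟨r, rfl⟩, Q' * a, ⟨a, rfl⟩, hι.inj ?_⟩
      rw [map_add, map_mul, map_mul, h1, h2]
      calc g * ι P * ι r + g * ι P' * ι a = g * ((ι P + ι P' * g) * ι r) := by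
            rw [hr]; noncomm_ring
        _ = ι a := by rw [h3, one_mul, hr]
    · rintro _ ⟨r, rfl⟩
      exact latN_mul ⟨P, h1⟩ r
    · rintro _ ⟨r, rfl⟩
      exact latN_mul ⟨P', h2⟩ r
  rw [e]
  exact (Module.Finite.iff_fg.1 inferInstance).sup (Module.Finite.iff_fg.1 inferInstance)

/-- V1 (a), duality: the dual of `A ∩ g A` is `A + g A` -/
theorem Frac.dual (hav : Avg O A) {g : B} {hi : A} (hg : g * ι hi * star g = 1) {w : B}
    (hw : ∀ a ∈ latN ι g, ∃ b, ι b = ι (star a) * w) : ∃ a r, w = ι a + g * ι r := by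
  obtain ⟨P, P', Q, Q', h1, h2, h3⟩ := hι.exists_PP hav g
  obtain ⟨r, hr⟩ := hw Q ⟨P, h1⟩
  obtain ⟨a, ha⟩ := hw Q' ⟨P', h2⟩
  refine ⟨a, hi * r, ?_⟩
  have h4 := congrArg star h3
  rw [star_add, star_mul, star_one] at h4
  rw [map_mul, ha, hr, hι.map_star, hι.map_star, h1, h2, star_mul, star_mul]
  calc w = g * ι hi * 1 * star g * w := by rw [mul_one, hg, one_mul]
    _ = g * ι hi * (star (ι P) + star g * star (ι P')) * star g * w := by rw [h4]
    _ = (g * ι hi * star g) * star (ι P') * star g * w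
        + g * (ι hi * (star (ι P) * star g * w)) := by noncomm_ring
    _ = _ := by rw [hg, one_mul]

variable [Module.Free O A]

/-- V1 (b) -/
theorem Frac.exists_layer (hav : Avg O A) {g gi : B} (hg : g * gi = 1) (hN : latN ι g ≠ ⊤) :
    ∃ (lam : O) (n0 om : A), lam ∈ maximalIdeal O ∧ lam ≠ 0 ∧ n0 ∈ latN ι g ∧
      (∀ a ∈ latN ι g, ∃ b, (1 - n0) * a = lam • b) ∧ lam • om ∈ latN ι g ∧
      om ∉ latN ι g ⊔ maximalIdeal O • (⊤ : Submodule O A) := by
  obtain ⟨f, hf, hfN⟩ := hι.exists_smul_mem hg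
  obtain ⟨c, p, w, h1, h2, h3, h4, h5, h6⟩ := vlay (latN ι g) (hι.latN_fg hav g) hf hfN hN
  obtain ⟨n, x, y, e1, e2⟩ := avg_right hav
  refine ⟨c, ∑ i, p (x i) * y i, w, h1, h2,
    Submodule.sum_mem _ fun i _ => latN_mul (h3 _) _, fun a ha => ?_, h5, h6⟩
  choose b hb using fun i => h4 (a * x i) (latN_mul ha _)
  refine ⟨-∑ i, b i * y i, ?_⟩
  have e3 : a = ∑ i, a * x i * y i := by
    conv_lhs => rw [← mul_one a, ← e1, Finset.mul_sum]
    simp only [mul_assoc]
  rw [sub_mul, one_mul, e2, smul_neg, Finset.smul_sum, eq_neg_iff_add_eq_zero]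
  have e4 : ∑ i, c • (b i * y i) = ∑ i, p (a * x i) * y i - ∑ i, a * x i * y i := by
    rw [← Finset.sum_sub_distrib]
    exact Finset.sum_congr rfl fun i _ => by rw [← smul_mul_assoc, ← hb, sub_mul]
  rw [e4, ← e3]
  abel

/-- V1 (b) and (c) together -/
theorem Frac.exists_data (hav : Avg O A) {g : B} {hi : A} (hg : g * ι hi * star g = 1)
    (hN : latN ι g ≠ ⊤) :
    ∃ (lam : O) (e om a0 v r : A), lam ∈ maximalIdeal O ∧ lam ≠ 0 ∧
      1 - star e ∈ latN ι g ∧ (∀ a ∈ latN ι g, ∃ b, star e * a = lam • b) ∧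
      (∃ b, e * e - e = lam • b) ∧ e = lam • a0 + v ∧ ι v = lam • (g * ι r) ∧
      lam • om ∈ latN ι g ∧ om ∉ latN ι g ⊔ maximalIdeal O • (⊤ : Submodule O A) ∧
      star e * om ∉ maximalIdeal O • (⊤ : Submodule O A) ∧
      ∀ a b, star e * a = lam • b → ∃ n ∈ latN ι g, a = n + lam • b := by
  obtain ⟨lam, n0, om, h1, h2, h3, h4, h5, h6⟩ :=
    hι.exists_layer hav ((mul_assoc _ _ _).symm.trans hg) hN
  obtain ⟨w, hw⟩ := hι.exists_div h2 (ι (star (1 - n0)))
  obtain ⟨a0, r, e1⟩ := hι.dual hav hg (w := w) fun a ha => by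
    obtain ⟨b, hb⟩ := h4 a ha
    refine ⟨star b, hι.smul_cancel h2 ?_⟩
    rw [← mul_smul_comm, hw, ← map_mul, ← star_mul, hb, star_smul_fix, map_smul]
  refine ⟨lam, star (1 - n0), om, a0, star (1 - n0) - lam • a0, r, h1, h2, ?_, ?_, ?_, ?_, ?_, h5,
    h6, ?_, ?_⟩
  · rwa [star_star, sub_sub_cancel]
  · rwa [star_star]
  · obtain ⟨b, hb⟩ := h4 n0 h3
    refine ⟨-star b, ?_⟩
    rw [← star_mul, ← star_sub, smul_neg, ← star_smul_fix, ← hb, ← star_neg]
    congr 1
    noncomm_ring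
  · abel
  · rw [map_sub, ← hw, e1, map_smul, smul_add, add_sub_cancel_left]
  · rw [star_star]
    intro h
    refine h6 (Submodule.mem_sup.2 ⟨n0 * om, latN_mul h3 om, _, h, ?_⟩)
    noncomm_ring
  · intro a b hab
    rw [star_star] at hab
    exact ⟨n0 * a, latN_mul h3 a, by rw [← hab]; noncomm_ring⟩

/-- V1, stated for `v` alone -/
theorem Frac.exists_v (hav : Avg O A) {g : B} {hi : A} (hg : g * ι hi * star g = 1)
    (hN : latN ι g ≠ ⊤) :
    ∃ (lam : O) (v r om : A), lam ∈ maximalIdeal O ∧ lam ≠ 0 ∧ ι v = lam • (g * ι r) ∧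
      (∃ n, v * v - v = lam • n) ∧ (∀ a, (∃ x, ι a = g * ι x) → ∃ n, star v * a = lam • n) ∧
      (∃ x, ι (lam • om) = g * ι x) ∧ om ∉ latN ι g ⊔ maximalIdeal O • (⊤ : Submodule O A) ∧
      qm (maximalIdeal O) (star v * om) ≠ 0 ∧
      (∃ n x b, ι n = g * ι x ∧ 1 - star v = n + lam • b) := by
  obtain ⟨lam, e, om, a0, v, r, h1, h2, ⟨x, hx⟩, h4, ⟨b, hb⟩, h6, h7, h8, h9, h10, -⟩ :=
    hι.exists_data hav hg hN
  have hv : v = e - lam • a0 := by rw [h6]; abel
  have hv' : star v = star e - lam • star a0 := by rw [hv, star_sub, star_smul_fix]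
  refine ⟨lam, v, r, om, h1, h2, h7, ⟨b - e * a0 - a0 * e + lam • (a0 * a0) + a0, ?_⟩,
    fun a ha => ?_, h8, h9, fun h => h10 ?_, 1 - star e, x, star a0, hx, by rw [hv']; abel⟩
  · rw [hv, smul_add, smul_add, smul_sub, smul_sub, ← hb]
    simp only [sub_mul, mul_sub, smul_mul_assoc, mul_smul_comm, smul_sub]
    abel
  · obtain ⟨n, hn⟩ := h4 a ha
    exact ⟨n - star a0 * a, by rw [hv', sub_mul, hn, smul_sub, smul_mul_assoc]⟩
  · have h' : star v * om ∈ maximalIdeal O • (⊤ : Submodule O A) :=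
      mem_extI_iff.1 (Ideal.Quotient.eq_zero_iff_mem.1 h)
    have e1 : star e * om = star v * om + lam • (star a0 * om) := by
      rw [hv', sub_mul, smul_mul_assoc]; abel
    rw [e1]
    exact add_mem h' (Submodule.smul_mem_smul h1 trivial)

end

end Pool.Agent.GSD
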