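import Pool.Agent.P.MP_c1f06d_ag.d.ValD
import Pool.Agent.P.MP_c1f06d_ag.d.Val1

/-! The lattice step of the valuation lemma: the number of generators of `A / (A ∩ x A)` drops. -/

namespace Pool.Agent.GSD

open Pool.Agent.SU IsLocalRing

section Modules

variable {O A : Type*} [CommRing O] [AddCommGroup A] [Module O A]

/-- A finitely generated submodule of `O ^ r` is generated by `r` elements. -/
theorem vl_exists_gen_fin [IsDomain O] [ValuationRing O] {r : ℕ} (C : Submodule O (Fin r → O))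
    (hC : C.FG) : ∃ e : Fin r → Fin r → O, (∀ j, e j ∈ C) ∧ C ≤ Submodule.span O (Set.range e) := by
  have : Module.Finite O C := Module.Finite.iff_fg.2 hC
  have : Module.Flat O C := by
    rw [Module.Flat.flat_iff_torsion_eq_bot_of_isBezout]
    exact Submodule.isTorsionFree_iff_torsion_eq_bot.1 inferInstance
  have : Module.Free O C := Module.free_of_flat_of_isLocalRing
  have hle : Module.finrank O C ≤ r := by
    simpa using Submodule.finrank_le C
  let b := Module.finBasis O C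
  refine ⟨fun j => if h : (j : ℕ) < Module.finrank O C then (b ⟨j, h⟩ : Fin r → O) else 0,
    fun j => ?_, fun c hc => ?_⟩
  · dsimp only
    split_ifs
    · exact (b _).2
    · exact C.zero_mem
  · have e : c = ∑ j, b.repr ⟨c, hc⟩ j • (b j : Fin r → O) := by
      have := congrArg C.subtype (b.sum_repr ⟨c, hc⟩)
      rw [map_sum] at this
      exact this.symm
    rw [e]
    refine Submodule.sum_mem _ fun j _ => Submodule.smul_mem _ _ (Submodule.subset_span ?_)
    exact ⟨⟨j, lt_of_lt_of_le j.2 hle⟩, by simp⟩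

/-- SUB: if the image of `A` lies in `L` plus `r` elements, then `r` elements of `A` suffice. -/
theorem vl_sub_gen [IsDomain O] [ValuationRing O] [Module.Finite O A] {M : Type*} [AddCommGroup M]
    [Module O M] (f : A →ₗ[O] M) (L : Submodule O M) {r : ℕ} (s : Fin r → M)
    (h : ∀ a, ∃ c : Fin r → O, f a - ∑ j, c j • s j ∈ L) :
    ∃ t : Fin r → A, L.comap f ⊔ Submodule.span O (Set.range t) = ⊤ := by
  obtain ⟨n, a, ha⟩ := Module.Finite.exists_fin (R := O) (M := A)
  choose c hc using h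
  let φ : (Fin r → O) →ₗ[O] M := Fintype.linearCombination O s
  have hφ : ∀ x, φ x = ∑ j, x j • s j := fun x => Fintype.linearCombination_apply O s x
  obtain ⟨e, he, hle⟩ := vl_exists_gen_fin (Submodule.span O (Set.range fun j => c (a j)))
    (Submodule.fg_span (Set.finite_range _))
  have h1 : Submodule.span O (Set.range fun j => c (a j)) ≤ (LinearMap.range f ⊔ L).comap φ := by
    rw [Submodule.span_le]
    rintro _ ⟨j, rfl⟩
    have e1 : φ (c (a j)) = f (a j) - (f (a j) - ∑ k, c (a j) k • s k) := by rw [hφ]; abel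
    show φ (c (a j)) ∈ LinearMap.range f ⊔ L
    rw [e1]
    exact Submodule.sub_mem _ (Submodule.mem_sup_left ⟨_, rfl⟩) (Submodule.mem_sup_right (hc _))
  have h2 : ∀ j, ∃ t : A, φ (e j) - f t ∈ L := fun j => by
    obtain ⟨_, ⟨t, rfl⟩, y, hy, e2⟩ := Submodule.mem_sup.1 (h1 (he j))
    exact ⟨t, by rw [← e2]; simpa using hy⟩
  choose t ht using h2
  refine ⟨t, top_le_iff.1 ?_⟩
  rw [← ha, Submodule.span_le]
  rintro _ ⟨j, rfl⟩
  obtain ⟨β, hβ⟩ := (Submodule.mem_span_range_iff_exists_fun O).1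
    (hle (Submodule.subset_span ⟨j, rfl⟩))
  have e3 : a j = (a j - ∑ k, β k • t k) + ∑ k, β k • t k := by abel
  rw [e3]
  refine Submodule.add_mem _ (Submodule.mem_sup_left ?_) (Submodule.mem_sup_right
    (Submodule.sum_mem _ fun k _ => Submodule.smul_mem _ _ (Submodule.subset_span ⟨k, rfl⟩)))
  have e4 : f (a j - ∑ k, β k • t k)
      = (f (a j) - ∑ k, c (a j) k • s k) + ∑ k, β k • (φ (e k) - f (t k)) := by
    rw [← hφ, show c (a j) = ∑ k, β k • e k from hβ.symm]
    simp only [map_sub, map_sum, map_smul, smul_sub, Finset.sum_sub_distrib]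
    abel
  show f (a j - ∑ k, β k • t k) ∈ L
  rw [e4]
  exact L.add_mem (hc _) (L.sum_mem fun k _ => L.smul_mem _ (ht k))

/-- Count: a cyclic summand `O / lam` splits off, the complement needs one generator less. -/
theorem vl_count_gen [IsLocalRing O] (N : Submodule O A) {r : ℕ} (s : Fin (r + 1) → A)
    (h : N ⊔ Submodule.span O (Set.range s) = ⊤) (φ : A →ₗ[O] O) {lam : O}
    (hm : lam ∈ maximalIdeal O) (hφ : ∀ a ∈ N, lam ∣ φ a) {w : A} (hw : lam • w ∈ N)
    (hu : IsUnit (φ w)) :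
    ∃ t : Fin r → A, ∀ a, lam ∣ φ a → ∃ c : Fin r → O, a - ∑ j, c j • t j ∈ N := by
  obtain ⟨u, hu⟩ := hu
  have hw1 : φ ((↑u⁻¹ : O) • w) = 1 := by rw [map_smul, ← hu, smul_eq_mul, Units.inv_mul]
  have hw2 : lam • ((↑u⁻¹ : O) • w) ∈ N := by rw [smul_comm]; exact N.smul_mem _ hw
  generalize (↑u⁻¹ : O) • w = w1 at hw1 hw2
  have hd : ∀ x, lam ∣ x → x • w1 ∈ N := by
    rintro _ ⟨y, rfl⟩
    rw [mul_comm, mul_smul]
    exact N.smul_mem _ hw2
  obtain ⟨n, hn, y, hy, e⟩ := Submodule.mem_sup.1 (h.ge (Submodule.mem_top (x := w1)))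
  obtain ⟨c, rfl⟩ := (Submodule.mem_span_range_iff_exists_fun O).1 hy
  have hex : ∃ i, IsUnit (c i) := by
    by_contra hne
    push Not at hne
    apply (maximalIdeal.isMaximal O).ne_top
    rw [Ideal.eq_top_iff_one, ← hw1, ← e, map_add, map_sum]
    refine Ideal.add_mem _ ?_ (Ideal.sum_mem _ fun i _ => ?_)
    · obtain ⟨z, hz⟩ := hφ n hn
      rw [hz]
      exact Ideal.mul_mem_right _ _ hm
    · rw [map_smul, smul_eq_mul]
      exact Ideal.mul_mem_right _ _ ((mem_maximalIdeal _).2 (hne i))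
  obtain ⟨i0, c0, hc0⟩ := hex
  let π : A →ₗ[O] A := LinearMap.id - φ.smulRight w1
  have hπ : ∀ a, π a = a - φ a • w1 := fun a => rfl
  let t : Fin r → A := fun j => π (s (i0.succAbove j))
  let W : Submodule O A := (N ⊔ Submodule.span O (Set.range t)).comap π
  have w_N : N ≤ W := fun a ha => by
    show π a ∈ N ⊔ Submodule.span O (Set.range t)
    rw [hπ]
    exact Submodule.mem_sup_left (N.sub_mem ha (hd _ (hφ a ha)))
  have w_s : ∀ j, s (i0.succAbove j) ∈ W := fun j =>
    Submodule.mem_sup_right (Submodule.subset_span ⟨j, rfl⟩)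
  have w_w : w1 ∈ W := by
    show π w1 ∈ N ⊔ Submodule.span O (Set.range t)
    rw [hπ, hw1, one_smul, sub_self]
    exact Submodule.zero_mem _
  have w_0 : s i0 ∈ W := by
    have e1 : s i0 = (↑c0⁻¹ : O) • (w1 - n - ∑ j, c (i0.succAbove j) • s (i0.succAbove j)) := by
      rw [← e, Fin.sum_univ_succAbove _ i0, ← hc0]
      have : n + ((c0 : O) • s i0 + ∑ j, c (i0.succAbove j) • s (i0.succAbove j)) - n
          - ∑ j, c (i0.succAbove j) • s (i0.succAbove j) = (c0 : O) • s i0 := by abel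
      rw [this, smul_smul, Units.inv_mul, one_smul]
    rw [e1]
    exact W.smul_mem _ (W.sub_mem (W.sub_mem w_w (w_N hn))
      (W.sum_mem fun j _ => W.smul_mem _ (w_s j)))
  have w_top : W = ⊤ := by
    rw [← top_le_iff, ← h, sup_le_iff, Submodule.span_le]
    refine ⟨w_N, ?_⟩
    rintro _ ⟨j, rfl⟩
    rcases Fin.eq_self_or_eq_succAbove i0 j with rfl | ⟨k, rfl⟩
    · exact w_0
    · exact w_s k
  refine ⟨t, fun a ha => ?_⟩
  obtain ⟨n', hn', y, hy, e'⟩ := Submodule.mem_sup.1 (w_top.ge (Submodule.mem_top (x := a)))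
  obtain ⟨c', rfl⟩ := (Submodule.mem_span_range_iff_exists_fun O).1 hy
  refine ⟨c', ?_⟩
  have e2 : a - ∑ j, c' j • t j = n' + φ a • w1 := by
    rw [hπ] at e'
    rw [eq_sub_iff_add_eq.2 e']
    abel
  rw [e2]
  exact N.add_mem hn' (hd _ ha)

/-- An element outside `m A` has a unit coordinate. -/
theorem vl_exists_coord_unit [IsLocalRing O] [Module.Free O A] {x : A}
    (hx : x ∉ maximalIdeal O • (⊤ : Submodule O A)) : ∃ c : A →ₗ[O] O, IsUnit (c x) := by
  by_contra hne
  push Not at hne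
  apply hx
  let b := Module.Free.chooseBasis O A
  rw [← b.linearCombination_repr x, Finsupp.linearCombination_apply, Finsupp.sum]
  exact Submodule.sum_mem _ fun j _ =>
    Submodule.smul_mem_smul ((mem_maximalIdeal _).2 (hne (b.coord j))) trivial

end Modules

section Aux

variable {O A : Type*} [CommRing O] [Ring A] [Algebra O A]

/-- `1 - lam a` is a unit. -/
theorem vl_isUnit [IsLocalRing O] [Module.Finite O A] {lam : O}
    (hm : lam ∈ maximalIdeal O) (a : A) : IsUnit (1 - lam • a) := by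
  have key : ∀ f : A →ₗ[O] A, ∃ y, y - lam • f y = 1 := fun f => by
    have h : (⊤ : Submodule O A) ≤ LinearMap.range (LinearMap.id - lam • f) := by
      refine Submodule.le_of_le_smul_of_le_jacobson_bot Module.Finite.fg_top
        (IsLocalRing.maximalIdeal_le_jacobson ⊥) fun y _ => ?_
      have e : y = (y - lam • f y) + lam • f y := by abel
      rw [e]
      exact Submodule.add_mem_sup ⟨y, rfl⟩ (Submodule.smul_mem_smul hm trivial)
    exact h (Submodule.mem_top (x := 1))
  obtain ⟨y, hy⟩ := key (LinearMap.mulLeft O a)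
  obtain ⟨z, hz⟩ := key (LinearMap.mulRight O a)
  have h1 : (1 - lam • a) * y = 1 := by rw [sub_mul, one_mul, smul_mul_assoc]; exact hy
  have h2 : z * (1 - lam • a) = 1 := by rw [mul_sub, mul_one, mul_smul_comm]; exact hz
  exact ⟨⟨_, y, h1, by rw [← left_inv_eq_right_inv h2 h1, h2]⟩, rfl⟩

variable [StarRing A] [StarFix O A]

theorem vl_alt_smul {x : A} (hx : Alt x) (t : O) : Alt (t • x) := by
  obtain ⟨c, rfl⟩ := hx
  exact ⟨t • c, by rw [star_smul_fix, smul_sub]⟩

/-- A2 for `n = lam ν`. -/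
theorem vl_iso_smul [IsLocalRing O] [Module.Finite O A] {l0 : A} (h0 : l0 + star l0 = 1)
    {lam : O} (hm : lam ∈ maximalIdeal O) (j : A) {ν : A} (hν : Alt ν) :
    ∃ θ n : A, θ - ν = lam • n ∧ Iso l0 (1 + lam • (j * θ * star j)) := by
  obtain ⟨c, hc⟩ := vl_isUnit hm (star j * l0 * j * ν)
  rw [← mul_smul_comm] at hc
  have h1 := c.mul_inv
  have h2 := c.inv_mul
  rw [hc] at h1 h2
  generalize ((c⁻¹ : Aˣ) : A) = ci at h1 h2
  refine ⟨ν * ci, ν * (star j * l0 * j * ν * ci), ?_, ?_⟩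
  · have e : ci - 1 = lam • (star j * l0 * j * ν * ci) := by
      rw [← h1, sub_mul, one_mul, mul_smul_comm, smul_mul_assoc, sub_sub_cancel]
    rw [← mul_smul_comm, ← e, mul_sub, mul_one]
  · have := iso_one_add h0 (vl_alt_smul hν lam) h1 h2
    rwa [smul_mul_assoc, mul_smul_comm, smul_mul_assoc] at this

end Aux

variable {O A B : Type*} [CommRing O] [IsDomain O] [ValuationRing O] [Ring A] [StarRing A]
  [Algebra O A] [StarFix O A] [Module.Finite O A] [Module.Free O A] [Ring B] [StarRing B]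
  [Algebra O B] [StarFix O B] {i : A →ₐ[O] B}

theorem exists_cov (x : B) : ∃ r, Cov i r x := by
  classical
  obtain ⟨s, hs⟩ := Module.Finite.fg_top (R := O) (M := A)
  refine ⟨_, s.image i, le_rfl, fun a => ⟨0, ?_⟩⟩
  rw [map_zero, mul_zero, sub_zero, Finset.coe_image]
  exact Submodule.apply_mem_span_image_of_mem_span i.toLinearMap (hs ▸ Submodule.mem_top)

theorem Cov.zero {x xi : B} (h : Cov i 0 x) (hx : xi * x = 1) : ∃ y : A, i y = xi := by
  obtain ⟨s, hs, h⟩ := h
  obtain ⟨c, hc⟩ := h 1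
  rw [Finset.card_eq_zero.1 (Nat.le_zero.1 hs), Finset.coe_empty, Submodule.span_empty,
    Submodule.mem_bot, map_one, sub_eq_zero] at hc
  exact ⟨c, by rw [← one_mul (i c), ← hx, mul_assoc, ← hc, mul_one]⟩

/-- V1 -/
theorem exists_lay (hi : GenF i) (hav : Avg O A) {x xi : B} {h : A} (h1 : x * xi = 1)
    (h2 : xi * x = 1) (hh : IsUnit h) (hx : star x * x = i h) :
    (∃ y : A, i y = xi) ∨ ∃ lam v r om, Lay i x lam v r om := by
  have hF : Frac i := ⟨hi.inj, hi.map_star, fun b => by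
    obtain ⟨d, hd, a, e⟩ := hi.den b
    exact ⟨d, hd, a, e.symm⟩, hi.unit⟩
  by_cases hN : latN i x = ⊤
  · obtain ⟨r, hr⟩ : (1 : A) ∈ latN i x := hN ▸ Submodule.mem_top
    rw [map_one] at hr
    exact Or.inl ⟨r, by rw [← one_mul (i r), ← h2, mul_assoc, ← hr, mul_one]⟩
  · obtain ⟨u, rfl⟩ := hh
    obtain ⟨lam, v, r, om, a1, a2, a3, a4, a5, a6, -, a7, n, y, b, a8, a9⟩ :=
      hF.exists_v hav (mul_inv_star h1 hx) hN
    exact Or.inr ⟨lam, v, r, om, a1, a2, a3, a4, a5, a6, a7, n, ⟨y, a8⟩, b,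
      by rw [a9, add_sub_cancel_left]⟩

/-- STEP -/
theorem Cov.step (hi : GenF i) {x k ki : B} {lam : O} {om E c a : A} {n : ℕ}
    (hlam : lam ∈ maximalIdeal O) (hom : InN i x (lam • om))
    (hE : ∀ y, InN i x y → Dv lam (E * y)) (hp : qm (maximalIdeal O) (E * om) ≠ 0)
    (hk : ki * k = 1) (hk' : k * ki = 1) (e : k = x * i c + i a) (ha : Dv lam (E * a))
    (h : Cov i (n + 1) x) : Cov i n (ki * x) := by
  classical
  obtain ⟨f, hf⟩ := vl_exists_coord_unit (O := O) (x := E * om) fun h =>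
    hp (Ideal.Quotient.eq_zero_iff_mem.2 (mem_extI_iff.2 h))
  have hdvd : ∀ y, Dv lam (E * y) → lam ∣ (f ∘ₗ LinearMap.mulLeft O E) y := by
    rintro y ⟨n, hn⟩
    exact ⟨f n, by rw [LinearMap.comp_apply, LinearMap.mulLeft_apply, hn, map_smul, smul_eq_mul]⟩
  obtain ⟨s, hs, h⟩ := h
  obtain ⟨s0, hs0⟩ : ∃ s0 : Fin (n + 1) → B, (s : Set B) ⊆ Set.range s0 := by
    refine ⟨fun j => if hj : (j : ℕ) < s.card then (s.equivFin.symm ⟨j, hj⟩ : B) else 0,
      fun b hb => ⟨⟨s.equivFin ⟨b, hb⟩, lt_of_lt_of_le (s.equivFin ⟨b, hb⟩).2 hs⟩, ?_⟩⟩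
    simp
  let L : Submodule O B := LinearMap.range (LinearMap.mulLeft O x ∘ₗ i.toLinearMap)
  obtain ⟨s1, hs1⟩ := vl_sub_gen i.toLinearMap L s0 fun y => by
    obtain ⟨z, hz⟩ := h y
    obtain ⟨d, hd⟩ := (Submodule.mem_span_range_iff_exists_fun O).1 (Submodule.span_mono hs0 hz)
    exact ⟨d, z, by rw [hd]; exact (sub_sub_cancel _ _).symm⟩
  obtain ⟨t, ht⟩ := vl_count_gen _ s1 hs1 (f ∘ₗ LinearMap.mulLeft O E) hlam
    (fun y ⟨z, hz⟩ => hdvd y (hE y ⟨z, hz.symm⟩)) (w := om)
    (by obtain ⟨z, hz⟩ := hom; exact ⟨z, hz.symm⟩) hf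
  obtain ⟨m, hm⟩ := ha
  refine ⟨Finset.univ.image fun j => ki * i (t j), Finset.card_image_le.trans (by simp), fun y => ?_⟩
  obtain ⟨d, z, hz⟩ := ht (a * y) (hdvd _ ⟨m * y, by rw [← mul_assoc, hm, smul_mul_assoc]⟩)
  have hz' : x * i z = i (a * y) - ∑ j, d j • i (t j) := by simpa using hz
  refine ⟨c * y + z, ?_⟩
  have e1 : i y - ki * x * i (c * y + z) = ∑ j, d j • (ki * i (t j)) := by
    calc i y - ki * x * i (c * y + z)
        = ki * (x * i c + i a) * i y - ki * x * i (c * y + z) := by rw [← e, hk, one_mul]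
      _ = ki * (i (a * y) - x * i z) := by rw [map_add, map_mul, map_mul]; noncomm_ring
      _ = _ := by
        rw [hz', sub_sub_cancel, Finset.mul_sum]
        simp only [mul_smul_comm]
  rw [e1]
  exact Submodule.sum_mem _ fun j _ => Submodule.smul_mem _ _ (Submodule.subset_span
    (Finset.mem_coe.2 (Finset.mem_image_of_mem _ (Finset.mem_univ j))))

/-- V2, the algebra -/
theorem exists_v2 (hi : GenF i) {l : A} (hl : l + star l = 1) {g : B} (hg : g * star g = 1)
    {lam : O} {v r om z n ν : A} (L : Lay i g lam v r om) (hn : Alt n) (hν : Alt ν)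
    (hz : Dv lam (v * z - z)) (hinv : Dv lam (star z * n * z * ν * star z - star z)) :
    ∃ u k c a : A, Iso l u ∧ Iso l k ∧ qm (maximalIdeal O) u = 1 ∧ qm (maximalIdeal O) k = 1 ∧
      i k * (g * i u * star g) = g * i c + i a ∧ Dv lam (star z * a) := by
  let q : A →+* QA A (Ideal.span {lam}) := qm (Ideal.span {lam})
  have hq : ∀ {a b : A}, q a = q b ↔ ∃ n, a - b = lam • n := qm_span_eq_iff
  have hq0 : ∀ a : A, q (lam • a) = 0 := fun a => qm_smul (Ideal.mem_span_singleton_self lam) a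
  have hqs : ∀ a : A, q (star a) = star (q a) := fun a => qm_star _ a
  have he1 : q (v * z) = q z := hq.2 hz
  have he2 : q (star (v * z)) = q (star z) := by rw [hqs, he1, hqs]
  obtain ⟨θ, n1, hθ, hu⟩ := vl_iso_smul hl L.mem (r * z) hν
  obtain ⟨η, n2, hη, hk⟩ := vl_iso_smul hl L.mem 1 hn.neg
  rw [star_one, one_mul, mul_one] at hk
  have h1 : ∀ a : A, qm (maximalIdeal O) (1 + lam • a) = 1 := fun a => by
    rw [map_add, map_one, qm_smul L.mem, add_zero]
  refine ⟨_, _, r * z * θ * star (v * z), 1 + lam • η + η * (v * z) * θ * star (v * z), hu, hk,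
    h1 _, h1 _, ?_, ?_⟩
  · have hV : i (v * z) = lam • (g * i (r * z)) := by
      rw [map_mul, L.eq, smul_mul_assoc, map_mul, mul_assoc]
    have hV' : i (star (v * z)) = lam • (star (i (r * z)) * star g) := by
      rw [hi.map_star, hV, star_smul_fix, star_mul]
    have hU : g * i (1 + lam • (r * z * θ * star (r * z))) * star g
        = 1 + g * i (r * z * θ * star (v * z)) := by
      rw [map_add, map_one, mul_add, add_mul, mul_one, hg, map_smul, map_mul _ _ (star (r * z)),
        map_mul _ _ (star (v * z)), hV', hi.map_star]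
      simp only [mul_smul_comm, smul_mul_assoc, mul_assoc]
    have e1 : i (η * (v * z) * θ * star (v * z))
        = i (lam • η) * (g * i (r * z * θ * star (v * z))) := by
      rw [map_mul, map_mul, map_mul _ η, hV, map_smul, map_mul _ _ (star (v * z)), map_mul _ _ θ]
      simp only [mul_smul_comm, smul_mul_assoc, mul_assoc]
    rw [hU, map_add _ (1 + lam • η), e1, map_add, map_one]
    noncomm_ring
  · have e1 : q θ = q ν := hq.2 ⟨n1, hθ⟩
    have e2 : q η = q (-n) := hq.2 ⟨n2, hη⟩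
    have e3 : q (star z * n * z * ν * star z) = q (star z) := hq.2 hinv
    have hy : q (star z * (1 + lam • η + η * (v * z) * θ * star (v * z))) = q 0 := by
      rw [map_mul, map_add, map_add, hq0, map_one, map_mul, map_mul, map_mul _ η, he1, he2, e1, e2,
        map_neg, map_zero]
      simp only [map_mul] at e3
      calc _ = q (star z) - q (star z) * q n * q z * q ν * q (star z) := by noncomm_ring
        _ = 0 := by rw [e3, sub_self]
    have := hq.1 hy
    rwa [sub_zero] at this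

end Pool.Agent.GSD
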