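import Pool.Agent.P.MP_c1f06d_ag.d.ValZ

namespace Pool.Agent.GSD

open Pool.Agent.SU IsLocalRing

variable {O A B : Type*} [CommRing O] [IsDomain O] [ValuationRing O] [Infinite (ResidueField O)]
  [Ring A] [StarRing A] [Algebra O A] [StarFix O A] [Module.Finite O A] [Module.Free O A] [Ring B]
  [StarRing B] [Algebra O B] [StarFix O B] {i : A →ₐ[O] B}

/-- The torus move at the first layer. `P` is a property of skew elements (a form parameter). -/
theorem Lay.move (hi : GenF i) {x : B} {lam : O} {v r om : A} (L : Lay i x lam v r om) {l q : A}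
    (hl : l + star l = 1) {P : A → Prop} (hP : ∀ n, P n → n + star n = 0)
    (hx : ∀ s n : A, i n = star (i s) * (star x * i l * x - i q) * i s → P n)
    {μ ε : O} {j : ℕ} (hj : 1 ≤ j) (hμ : μ ∈ maximalIdeal O) (hε : IsUnit ε)
    (e : lam = μ ^ j * ε) :
    ∃ (n l1 : A) (y1 : Bˣ) (c a T f b : A), P n ∧ La (l - n) l1 ∧ i l1 = y1 ∧
      gl y1 ^ j = x * i c + i a ∧ Dv lam (star v * a) ∧ IsUnit T ∧ Dv (lam ^ 2) (f * f - f) ∧
      Dv (lam ^ 2) (l1 - T * (μ • f + 1 - f)) ∧ f = v * b ∧ qm (maximalIdeal O) f ≠ 0 := by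
  obtain ⟨d, hd⟩ := L.idem
  have hlam := L.ne
  have hμ0 : μ ≠ 0 := by
    rintro rfl
    exact hlam (by rw [e, zero_pow (by omega), zero_mul])
  obtain ⟨p, hp⟩ : ∃ p : A, p = 3 * v - 2 * (v * v) := ⟨_, rfl⟩
  obtain ⟨w, hw⟩ : ∃ w : A, w = v * p := ⟨_, rfl⟩
  have hiw : i w = lam • (x * i (r * p)) := by
    rw [hw, map_mul, L.eq, map_mul, smul_mul_assoc, mul_assoc]
  have hww : w * w - w = lam ^ 2 • (d * d * (4 * (v * v) - 4 * v - 3)) := by
    rw [pow_two, ← smul_mul_assoc, ← smul_mul_smul_comm, ← hd, hw, hp]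
    noncomm_ring
  have hwv : w - v = lam • ((1 - 2 * v) * d) := by
    rw [← mul_smul_comm, ← hd, hw, hp]
    noncomm_ring
  obtain ⟨n, hn⟩ : ∃ n : A, n = star w * l * w - lam ^ 2 • (star (r * p) * q * (r * p)) := ⟨_, rfl⟩
  have hPn : P n := by
    refine hx (lam • (r * p)) n ?_
    rw [hn, map_sub, map_mul, map_mul, map_smul, map_mul, map_mul, hi.map_star, hi.map_star, hiw,
      map_smul, star_smul_fix, star_smul_fix, star_mul]
    simp only [smul_mul_assoc, mul_smul_comm, smul_smul, mul_sub, sub_mul, smul_sub, mul_assoc,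
      pow_two]
  have hl' : l - n + star (l - n) = 1 := by
    rw [star_sub, ← hl, ← sub_eq_zero, ← neg_zero, ← hP n hPn]
    abel
  have hq : Dv (lam ^ 2) (star w * (l - n) * w) := by
    have h1 : qm (Ideal.span {lam ^ 2}) (w * w) = qm (Ideal.span {lam ^ 2}) w :=
      dv_sub_iff.1 ⟨_, hww⟩
    have h2 : qm (Ideal.span {lam ^ 2}) (star w * star w) = qm (Ideal.span {lam ^ 2}) (star w) := by
      rw [← star_mul, qm_star, h1, qm_star]
    have h3 : star w * (l - n) * w - 0 = star w * l * w - (star w * star w) * l * (w * w) +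
        lam ^ 2 • (star w * (star (r * p) * q * (r * p)) * w) := by
      rw [hn]
      simp only [mul_sub, sub_mul, smul_mul_assoc, mul_smul_comm, mul_assoc]
      abel
    rw [← sub_zero (star w * (l - n) * w)]
    refine dv_sub_iff.2 ?_
    rw [← sub_zero (star w * (l - n) * w), h3, map_add, map_sub,
      qm_smul (Ideal.mem_span_singleton_self _), map_mul _ (_ * _) (w * w), map_mul _ (_ * _) l, h1,
      h2, ← map_mul, ← map_mul, sub_self, add_zero, map_zero]
  obtain ⟨l1, m, T, c, a, h1, h2, h3, h4, h5, h6, h7, h8, ⟨a', h9⟩⟩ :=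
    exists_v4 hl' hj hμ hlam hε e ⟨_, hww⟩ hq
  obtain ⟨u, hu⟩ := hi.unit μ hμ0
  have hu' : ∀ y : B, μ • (((u⁻¹ : Bˣ) : B) * y) = y := fun y => by
    rw [Algebra.smul_def, ← hu, Units.mul_inv_cancel_left]
  have g1 : i l1 * (((u⁻¹ : Bˣ) : B) * i m) = 1 := hi.cancel hμ0 (by
    rw [← mul_smul_comm, hu', ← map_mul, h2, map_smul, map_one])
  have g2 : (((u⁻¹ : Bˣ) : B) * i m) * i l1 = 1 := hi.cancel hμ0 (by
    rw [← smul_mul_assoc, hu', ← map_mul, h3, map_smul, map_one])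
  have hl2 : lam ^ 2 ∈ maximalIdeal O := by
    rw [pow_two]; exact Ideal.mul_mem_left _ _ L.mem
  refine ⟨n, l1, ⟨i l1, _, g1, g2⟩, ε • (r * p * c), ε • a, T, w - w * (l - n) * star w,
    p * (1 - (l - n) * star w), hPn, h1, rfl, hi.cancel (pow_ne_zero j hμ0) ?_,
    ⟨ε • (a' - star ((1 - 2 * v) * d) * a), ?_⟩, h4, h5, h7, ?_, fun h0 => L.prim ?_⟩
  · have e1 : μ • gl (⟨i l1, _, g1, g2⟩ : Bˣ) = i (μ • 1 - m) := by
      rw [gl, smul_sub, map_sub, map_smul, map_one]
      exact congrArg _ (hu' _)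
    rw [← smul_pow, e1, ← map_pow, h8, map_add, map_mul, hiw, map_smul, map_smul, map_smul,
      map_mul _ (r * p), mul_smul_comm, ← smul_add, smul_smul, ← e, smul_add, smul_mul_assoc,
      mul_assoc]
  · have e1 : star v = star w - lam • star ((1 - 2 * v) * d) := by
      rw [← star_smul_fix, ← hwv, star_sub, sub_sub_cancel]
    rw [mul_smul_comm, smul_comm lam ε, e1, sub_mul, h9, smul_mul_assoc, smul_sub lam]
  · rw [← mul_assoc, ← hw]
    noncomm_ring
  · have e1 := Dv.res hl2 h6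
    have e2 := Dv.res L.mem (a := w) (b := v) ⟨_, hwv⟩
    rw [map_mul, h0, zero_mul] at e1
    rw [map_mul, qm_star, ← e2, ← e1, star_zero, zero_mul]

end Pool.Agent.GSD
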