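import Pool.Agent.P.MP_c1f06d_ag.WittA
import Pool.Agent.P.MP_c1f06d_ag.d.ValL
import Pool.Agent.P.MP_c1f06d_ag.d.ValMove

namespace Pool.Agent.GSD

open Pool.Agent.SU IsLocalRing Pool.Agent.P.MP_c1f06d_ag

section
variable {B : Type*} [Ring B] [StarRing B] {L : FP B} {l : B}

theorem vma_add_star (hl : l + star l = 1) {y : B} (hy : L.Mem (y - l)) : y + star y = 1 := by
  have h := hy.add_star
  rw [star_sub] at h
  calc y + star y = (y - l + (star y - star l)) + (l + star l) := by abel
    _ = 1 := by rw [h, hl, zero_add]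

theorem vma_star {y : B} (hy : L.Mem (y - l)) : L.Mem (star y - l) :=
  (hy.sub (L.sub_star y)).of_eq (by abel)

theorem vma_step (hl : l + star l = 1) {y : Bˣ} (hy : L.Mem ((y : B) - l)) {x q : B}
    (hx : L.Mem (star x * l * x - q)) : L.Mem (star (gl y * x) * l * (gl y * x) - q) := by
  refine ((hx.add (hy.conj x)).sub (hy.conj (gl y * x))).of_eq ?_
  have e : star x * (y : B) * x = star (gl y * x) * y * (gl y * x) := by
    rw [star_mul]
    calc _ = star x * (star (gl y) * y * gl y) * x := by rw [star_gl_mul_mul (vma_add_star hl hy)]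
      _ = _ := by noncomm_ring
  calc _ = star (gl y * x) * l * (gl y * x) - q
        + (star x * (y : B) * x - star (gl y * x) * y * (gl y * x)) := by rw [e, sub_self, add_zero]
    _ = _ := by noncomm_ring

end

variable {O A B : Type*} [CommRing O] [IsDomain O] [ValuationRing O] [Infinite (ResidueField O)]
  [Ring A] [StarRing A] [Algebra O A] [StarFix O A] [Module.Finite O A] [Module.Free O A] [Ring B]
  [StarRing B] [Algebra O B] [StarFix O B] {i : A →ₐ[O] B}

/-- (A), for any saturated form parameter, with the class of the correcting isometry. -/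
theorem valA (hi : GenF i) (hav : Avg O A) (L : FP A) (LK : FP B)
    (hL : ∀ a, LK.Mem (i a) ↔ L.Mem a) {l q : A} (hl : l + star l = 1)
    (hq : IsUnit (q + star q)) (Pr : B → Prop) (h1 : Pr 1)
    (hP : ∀ (l1 l2 : A) (y1 y2 : Bˣ) (k : B), L.Mem (l1 - l) → L.Mem (l2 - l) → i l1 = y1 →
      i l2 = y2 → Pr k → Pr (gl y1 * gl y2 * k))
    {x : B} (hu : IsUnit x) (hx : LK.Mem (star x * i l * x - i q)) :
    ∃ y : Aˣ, L.Mem (star (y : A) * l * y - q) ∧ ∃ k, Pr k ∧ x = k * i y := by
  have hl' : i l + star (i l) = 1 := by rw [← hi.map_star, ← map_add, hl, map_one]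
  have hh : ∀ {x : B}, LK.Mem (star x * i l * x - i q) → star x * x = i (q + star q) := by
    intro x hx
    have h := hx.add_star
    simp only [star_sub, star_mul, star_star] at h
    rw [map_add, hi.map_star]
    calc star x * x = star x * (i l + star (i l)) * x := by rw [hl', mul_one]
      _ = (star x * i l * x - i q + (star x * (star (i l) * x) - star (i q)))
          + (i q + star (i q)) := by noncomm_ring
      _ = _ := by rw [h, zero_add]
  have base : ∀ x : Bˣ, LK.Mem (star (x : B) * i l * x - i q) → (∃ y : A, i y = (x⁻¹ : Bˣ)) →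
      ∃ y : Aˣ, L.Mem (star (y : A) * l * y - q) ∧ ∃ k, Pr k ∧ (x : B) = k * i y := by
    rintro x hx ⟨y, hy⟩
    have e : i (star ((q + star q) * y)) = x := by
      rw [hi.map_star, map_mul, ← hh hx, hy, mul_assoc, Units.mul_inv, mul_one, star_star]
    refine ⟨⟨star ((q + star q) * y), y, hi.inj ?_, hi.inj ?_⟩, (hL _).1 ?_, 1, h1, ?_⟩
    · rw [map_mul, e, hy, Units.mul_inv, map_one]
    · rw [map_mul, e, hy, Units.inv_mul, map_one]
    · rw [map_sub, map_mul, map_mul, hi.map_star, e]
      exact hx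
    · rw [one_mul, e]
  obtain ⟨l0, hl0⟩ := exists_unit_la O hl
  have m0 : L.Mem ((l0 : A) - l) := FP.Mem.of_alt hl0
  let y0 : Bˣ := Units.map (i : A →* B) l0
  have e0 : i l0 = y0 := rfl
  have g0 : gl y0 = i (gl l0) := by
    rw [gl, gl, map_sub, map_one]
    rfl
  obtain ⟨x, rfl⟩ := hu
  obtain ⟨r, hr⟩ := exists_cov (i := i) (x : B)
  induction r generalizing x with
  | zero => exact base x hx (hr.zero x.inv_mul)
  | succ r ih =>
    rcases exists_lay hi hav x.mul_inv x.inv_mul hq (hh hx) with hb | ⟨lam, v, ρ, om, Ly⟩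
    · exact base x hx hb
    obtain ⟨n, l1, y1, c, a, -, -, -, hn, hl1, e1, e2, ha, -⟩ :=
      Ly.move hi (q := q) hl (P := L.Mem) (fun n hn => hn.add_star)
        (fun s n e => (hL n).1 (e ▸ hx.conj (i s))) (μ := lam) (ε := 1) (j := 1) le_rfl Ly.mem
        isUnit_one (by rw [pow_one, mul_one])
    rw [pow_one] at e2
    have m1 : L.Mem (l1 - l) := ((FP.Mem.of_alt hl1).sub hn).of_eq (by abel)
    have k0 : LK.Mem ((y0 : B) - i l) := by rw [← e0, ← map_sub]; exact (hL _).2 m0
    have k1 : LK.Mem ((y1 : B) - i l) := by rw [← e1, ← map_sub]; exact (hL _).2 m1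
    have s0 := vma_add_star hl' k0
    have s1 := vma_add_star hl' k1
    have hk : gl (star y0) * gl (star y1) * (gl y1 * gl y0) = 1 := by
      rw [mul_assoc, ← mul_assoc (gl (star y1)), gl_star_mul_gl s1, one_mul, gl_star_mul_gl s0]
    have hk' : gl y1 * gl y0 * (gl (star y0) * gl (star y1)) = 1 := by
      rw [mul_assoc, ← mul_assoc (gl y0), gl_mul_gl_star s0, one_mul, gl_mul_gl_star s1]
    have hc := hr.step hi Ly.mem Ly.hom Ly.kill Ly.prim hk hk' (c := c * gl l0) (a := a * gl l0)
      (by rw [e2, g0, map_mul, map_mul, add_mul, mul_assoc])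
      (by obtain ⟨z, hz⟩ := ha; exact ⟨z * gl l0, by rw [← mul_assoc, hz, smul_mul_assoc]⟩)
    obtain ⟨y, hy, k, hk1, e⟩ := ih (⟨_, _, hk, hk'⟩ * x) (by
      have := vma_step hl' (y := star y0) (vma_star k0) (vma_step hl' (y := star y1) (vma_star k1) hx)
      rwa [← mul_assoc (gl (star y0))] at this) hc
    refine ⟨y, hy, _, hP l1 l0 y1 y0 k m1 m0 e1 e0 hk1, ?_⟩
    rw [mul_assoc, ← e, Units.val_mul, ← mul_assoc, hk', one_mul]

end Pool.Agent.GSD
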