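import Pool.Agent.P.MP_c1f06d_ag.d.ValL
import Pool.Agent.P.MP_c1f06d_ag.d.ValMove

namespace Pool.Agent.GSD

open Pool.Agent.SU IsLocalRing

theorem exists_int_of_sq {O K : Type*} [CommRing O] [IsDomain O] [ValuationRing O] [Field K]
    [Algebra O K] [IsFractionRing O K] {u : K} {c : O} (hu : u ≠ 0)
    (h : IsSquare (u ^ 2 * algebraMap O K c)) : ∃ t : O, t ^ 2 = c := by
  obtain ⟨w, hw⟩ := h
  have h1 : (w / u) ^ 2 = algebraMap O K c := by
    rw [div_pow, sq w, ← hw, mul_div_cancel_left₀ _ (pow_ne_zero 2 hu)]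
  obtain ⟨t, ht⟩ : ∃ t : O, algebraMap O K t = w / u := by
    rcases ValuationRing.isInteger_or_isInteger O (w / u) with h2 | ⟨s, hs⟩
    · exact h2
    · refine ⟨c * s, ?_⟩
      rw [map_mul, hs, ← h1]
      by_cases h0 : w / u = 0
      · rw [h0]; simp
      · field_simp
  exact ⟨t, IsFractionRing.injective O K (by rw [map_pow, ht, h1])⟩

section
variable {O A B : Type*} [CommRing O] [Ring A] [Algebra O A] [Ring B] [Algebra O B]
  {i : A →ₐ[O] B} {x : B}

theorem InN.add {a b : A} (ha : InN i x a) (hb : InN i x b) : InN i x (a + b) := by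
  obtain ⟨c, hc⟩ := ha
  obtain ⟨d, hd⟩ := hb
  exact ⟨c + d, by rw [map_add, map_add, mul_add, hc, hd]⟩

theorem InN.mul {a : A} (ha : InN i x a) (b : A) : InN i x (a * b) := by
  obtain ⟨c, hc⟩ := ha
  exact ⟨c * b, by rw [map_mul, map_mul, hc, mul_assoc]⟩

theorem map_gl (l : Aˣ) : i (gl l) = gl (Units.map (i : A →* B) l) := by
  rw [gl, gl, map_sub, map_one]
  rfl

end

variable {O A B : Type*} [CommRing O] [IsDomain O] [ValuationRing O] [Infinite (ResidueField O)]
  [Ring A] [StarRing A] [Algebra O A] [StarFix O A] [Module.Finite O A] [Module.Free O A] [Ring B]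
  [StarRing B] [Algebra O B] [StarFix O B] {i : A →ₐ[O] B}

omit [Infinite (ResidueField O)] [StarRing B] [StarFix O B] in
/-- With one pole the layer idempotent cuts out the lattice. -/
theorem Lay.mem_of_r1 {nrd : A → O} (hb : Base nrd) {x : B} {lam : O} {v r om : A}
    (L : Lay i x lam v r om) (h : R1 (qm (maximalIdeal O) v)) {a : A}
    (ha : Dv lam (star v * a)) : InN i x a := by
  have := hb.avg.isSemisimpleRing
  obtain ⟨n, hn, y, hy⟩ := L.compl
  obtain ⟨z, hz⟩ := h.star_mem vreg hb.prime (b := qm (maximalIdeal O) om) (by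
    rw [← qm_star, ← map_mul]; exact L.prim)
  obtain ⟨z, rfl⟩ := qm_surjective (maximalIdeal O) z
  have h1 : star (qm (maximalIdeal O) v) = 1 - qm (maximalIdeal O) n := by
    have h2 := congrArg (qm (maximalIdeal O)) hy
    rw [qm_smul L.mem, map_sub, map_sub, map_one, qm_star, sub_right_comm] at h2
    exact (sub_eq_zero.1 h2).symm
  obtain ⟨U, hU⟩ : IsUnit (om * z + n * (1 - om * z)) := isUnit_of_qm (T := O) (by
    have h3 : qm (maximalIdeal O) (om * z + n * (1 - om * z)) = 1 := by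
      rw [h1] at hz
      simp only [map_add, map_mul, map_sub, map_one]
      calc _ = qm (maximalIdeal O) n + (1 - qm (maximalIdeal O) n) * qm (maximalIdeal O) om *
            qm (maximalIdeal O) z := by noncomm_ring
        _ = 1 := by rw [← hz, add_sub_cancel]
    rw [h3]
    exact isUnit_one)
  have h4 : ∀ b : A, InN i x (lam • b) := fun b => by
    have h5 := (L.hom.mul (z * (U⁻¹ : Aˣ) * b)).add (hn.mul ((1 - om * z) * (U⁻¹ : Aˣ) * (lam • b)))
    have h6 : lam • om * (z * (U⁻¹ : Aˣ) * b) + n * ((1 - om * z) * (U⁻¹ : Aˣ) * (lam • b))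
        = lam • ((om * z + n * (1 - om * z)) * (U⁻¹ : Aˣ) * b) := by
      simp only [smul_mul_assoc, mul_smul_comm, add_mul, smul_add, mul_assoc]
    rwa [h6, ← hU, U.mul_inv, one_mul] at h5
  obtain ⟨b, hb'⟩ := ha
  have h7 : a = n * a + lam • (b + y * a) := by
    rw [smul_add, ← hb', ← smul_mul_assoc, ← hy]
    noncomm_ring
  rw [h7]
  exact (hn.mul a).add (h4 _)

variable {K : Type*} [Field K] [Algebra O K] [IsFractionRing O K] [Algebra K B]
  [IsScalarTower O K B] (hi : GenF i) {nrd : A → O} (hb : Base nrd) {l : A}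
  (hl : l + star l = 1) {SN : B → K → Prop} (hs : SNax i l nrd SN)

omit [IsDomain O] [ValuationRing O] [Infinite (ResidueField O)] [StarFix O A] [Module.Finite O A]
  [Module.Free O A] [StarFix O B] [IsFractionRing O K] [Algebra K B] [IsScalarTower O K B] in
theorem SNax.gen' (hs : SNax i l nrd SN) {l1 l2 : Aˣ} (h1 : La l l1) (h2 : La l l2) :
    SN (i (gl l1 * gl l2)) (algebraMap O K (nrd l1 * nrd l2)) := by
  rw [map_mul, map_gl, map_gl]
  exact hs.gen l1 l2 _ _ h1 h2 rfl rfl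

include hi hb hl hs

theorem sq_of_int {g : A} {κ : K} (h : SN (i g) κ) : ∃ l1 l2 : Aˣ, La l l1 ∧ La l l2 ∧
    IsSquare (κ * algebraMap O K (nrd l1 * nrd l2)) := by
  obtain ⟨h1, h2⟩ := hs.iso _ _ h
  obtain ⟨y, h3, h4⟩ := hs.ori _ _ h
  obtain ⟨l1, l2, a1, a2, e⟩ := exists_v0 (K := K) hi hb hl h1 h2 h3 h4
  have h5 := hs.mul _ _ _ _ h (hs.inv _ _ (hs.gen' a1 a2))
  rw [← e, h2] at h5
  exact ⟨l1, l2, a1, a2, hs.one _ h5⟩

theorem zc_of_int {g : A} {c : O} {u : K} (hu : u ≠ 0) (h : SN (i g) (u ^ 2 * algebraMap O K c)) :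
    ∃ (l1 l2 : Aˣ) (t : O), La l l1 ∧ La l l2 ∧ c = t ^ 2 * (nrd l1 * nrd l2) := by
  obtain ⟨l1, l2, a1, a2, h1⟩ := sq_of_int hi hb hl hs h
  rw [mul_assoc, ← map_mul] at h1
  obtain ⟨t, ht⟩ := exists_int_of_sq hu h1
  obtain ⟨n, hn⟩ := (hb.unit _ l1.isUnit).mul (hb.unit _ l2.isUnit)
  refine ⟨l1, l2, t * (n⁻¹ : Oˣ), a1, a2, ?_⟩
  rw [mul_pow, ht, ← hn]
  have h2 : (n : O) * (n⁻¹ : Oˣ) = 1 := n.mul_inv
  calc c = c * ((n : O) * (n⁻¹ : Oˣ)) ^ 2 := by rw [h2, one_pow, mul_one]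
    _ = _ := by ring

omit hi [Module.Free O A] [StarFix O B] [IsFractionRing O K] [Algebra K B]
  [IsScalarTower O K B] in
theorem sn_of_small {u : A} (h : Iso l u) (h1 : qm (maximalIdeal O) u = 1) :
    ∃ c : O, IsUnit c ∧ SN (i u) (algebraMap O K c) := by
  obtain ⟨l0, h0⟩ := exists_unit_la O hl
  obtain ⟨l', a1, -, a2, -⟩ := h.exists_gl_mul_gl hl h0 (isUnit_of_qm (T := O) (by
    rw [map_sub, map_mul, h1, one_mul, ← map_sub, gl, sub_sub_cancel]
    exact (l0⁻¹).isUnit.map _))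
  exact ⟨_, (hb.unit _ l'.isUnit).mul (hb.unit _ (star l0).isUnit), a2 ▸ hs.gen' a1 h0.star⟩

theorem valB_cov (n : ℕ) : ∀ (g : B) (c : O) (u : K), Cov i n g → IsUnit c → u ≠ 0 →
    SN g (u ^ 2 * algebraMap O K c) →
    ∃ (l1 l2 : Aˣ) (t : O), La l l1 ∧ La l l2 ∧ c = t ^ 2 * (nrd l1 * nrd l2) := by
  have hlB : i l + star (i l) = 1 := by rw [← hi.map_star, ← map_add, hl, map_one]
  have hint : ∀ (g : B) (c : O) (u : K), (∃ y, i y = star g) → u ≠ 0 →
      SN g (u ^ 2 * algebraMap O K c) →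
      ∃ (l1 l2 : Aˣ) (t : O), La l l1 ∧ La l l2 ∧ c = t ^ 2 * (nrd l1 * nrd l2) :=
    fun g c u ⟨y, hy⟩ hu h => zc_of_int hi hb hl hs (g := y) hu (hy ▸ hs.inv _ _ h)
  induction n with
  | zero =>
    intro g c u hc _ hu h
    exact hint g c u (hc.zero ((hs.iso _ _ h).1.star_mul_self hlB)) hu h
  | succ n ih =>
    intro g c u hcov hc hu h
    obtain ⟨hg, hg1⟩ := hs.iso _ _ h
    have hg2 := hg.star_mul_self hlB
    rcases exists_lay hi hb.avg hg1 hg2 isUnit_one (hg2.trans (map_one i).symm) with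
      h0 | ⟨lam, v, r, om, L⟩
    · exact hint g c u h0 hu h
    have step : ∀ (k : B) (κ : K) (E c a : A), SN k κ → (∀ y, InN i g y → Dv lam (E * y)) →
        qm (maximalIdeal O) (E * om) ≠ 0 → k = g * i c + i a → Dv lam (E * a) →
        Cov i n (star k * g) := fun k κ E c a hk h1 h2 h3 h4 =>
      hcov.step hi L.mem L.hom h1 h2 ((hs.iso _ _ hk).1.star_mul_self hlB) (hs.iso _ _ hk).2 h3 h4
    rcases exists_v3 hb L.mem L.idem L.prim with hr | ⟨z, m, ν, hm, hν, hz, hinv, hp⟩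
    · have mv := fun {μ ε : O} {j : ℕ} => L.move hi (q := l) hl (P := Alt) (μ := μ) (ε := ε)
        (j := j) (fun _ => Alt.add_star) (fun s m e => hi.alt hb ((Alt.conj hg (i s)).of_eq e))
      have hla : ∀ {m l1 : A}, Alt m → La (l - m) l1 → La l l1 := fun hm h1 =>
        (Alt.sub h1 hm).of_eq (by abel)
      obtain ⟨μ, ε, hε, e⟩ : ∃ μ ε : O, IsUnit ε ∧ lam = μ ^ 2 * ε := by
        obtain ⟨m, l1, y1, c1, a, T, f, b, hm, h1, h2, h3, h4, h5, h6, h7, h8, h9⟩ :=
          mv le_rfl L.mem isUnit_one (by rw [pow_one, mul_one])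
        obtain ⟨η, hη, e1⟩ := hb.nr1 lam L.mem L.ne l1 T f h5 h6 h9
          (by rw [h8, map_mul]; exact hr.mul_right _) h7
        obtain ⟨l0, h0⟩ := exists_unit_la O hl
        obtain ⟨c2, hc2⟩ := L.mem_of_r1 hb hr h4
        have h10 := hs.mul _ _ _ _ (hs.inv _ _ h) (hs.gen l1 l0 y1 (Units.map (i : A →* B) l0)
          (hla hm h1) h0 h2 rfl)
        have h11 : star g * (gl y1 * gl (Units.map (i : A →* B) l0)) = i ((c1 + c2) * gl l0) := by
          rw [pow_one] at h3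
          rw [h3, hc2, ← mul_add, ← map_gl, ← mul_assoc, ← mul_assoc, hg2, one_mul, map_mul,
            map_add]
        rw [h11] at h10
        obtain ⟨l2, l3, -, -, h12⟩ := sq_of_int hi hb hl hs h10
        rw [mul_assoc, mul_assoc, ← map_mul, ← map_mul] at h12
        obtain ⟨t, ht⟩ := exists_int_of_sq hu h12
        obtain ⟨w, hw⟩ := ((hc.mul hη).mul (hb.unit _ l0.isUnit)).mul
          ((hb.unit _ l2.isUnit).mul (hb.unit _ l3.isUnit))
        refine ⟨t, (w⁻¹ : Oˣ), (w⁻¹).isUnit, ?_⟩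
        have h13 : t ^ 2 = lam * w := by rw [ht, hw, e1]; ring
        rw [h13, mul_assoc, w.mul_inv, mul_one]
      have hμ : μ ∈ maximalIdeal O := fun h1 => L.mem (e ▸ (IsUnit.pow 2 h1).mul hε)
      obtain ⟨m, l1, y1, c1, a, -, -, -, hm, h1, h2, h3, h4, -⟩ := mv one_le_two hμ hε e
      have h5 := hs.gen l1 l1 y1 y1 (hla hm h1) (hla hm h1) h2 h2
      have h6 := hs.ne _ _ h5
      rw [map_mul] at h6
      refine ih _ c (algebraMap O K (nrd l1) * u) (step _ _ _ _ _ h5 L.kill L.prim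
        ((sq _).symm.trans h3) h4) hc (mul_ne_zero (left_ne_zero_of_mul h6) hu) ?_
      have h7 := hs.mul _ _ _ _ (hs.inv _ _ h5) h
      rwa [map_mul, ← mul_assoc, ← sq (algebraMap O K _), ← mul_pow] at h7
    · obtain ⟨u1, k1, c1, a, i1, i2, q1, q2, e, ha⟩ := exists_v2 hi hl hg1 L hm hν hz hinv
      obtain ⟨d1, hd1, s1⟩ := sn_of_small hb hl hs i1 q1
      obtain ⟨d2, hd2, s2⟩ := sn_of_small hb hl hs i2 q2
      have s3 := hs.mul _ _ _ _ s2 (hs.mul _ _ _ _ (hs.mul _ _ _ _ h s1) (hs.inv _ _ h))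
      have hE : ∀ y, InN i g y → Dv lam (star z * y) := fun y hy => by
        obtain ⟨w, hw⟩ := hz
        obtain ⟨w', hw'⟩ := L.kill y hy
        have h1 : star z = star z * star v - lam • star w := by
          rw [← star_smul_fix, ← hw, star_sub, star_mul, sub_sub_cancel]
        exact ⟨star z * w' - star w * y, by
          rw [smul_sub, ← mul_smul_comm, ← hw', ← smul_mul_assoc, ← mul_assoc, ← sub_mul, ← h1]⟩
      have s4 := hs.mul _ _ _ _ (hs.inv _ _ s3) h
      have hκ := hs.ne _ _ h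
      obtain ⟨l1, l2, t, a1, a2, e2⟩ := ih _ (c * d1 * d2) (u * (u ^ 2 * algebraMap O K c))
        (step _ _ _ _ _ s3 hE hp e ha) ((hc.mul hd1).mul hd2) (mul_ne_zero hu hκ) (by
          have e1 : (u * (u ^ 2 * algebraMap O K c)) ^ 2 * algebraMap O K (c * d1 * d2) =
              algebraMap O K d2 * (u ^ 2 * algebraMap O K c * algebraMap O K d1 *
                (u ^ 2 * algebraMap O K c)) * (u ^ 2 * algebraMap O K c) := by
            rw [map_mul, map_mul]; ring
          rwa [e1])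
      have s5 := hs.mul _ _ _ _ (hs.mul _ _ _ _ (hs.gen' a1 a2) s1) s2
      have hinj := IsFractionRing.injective O K
      have ht : algebraMap O K t ≠ 0 := (map_ne_zero_iff _ hinj).2 fun h0 =>
        ((hc.mul hd1).mul hd2).ne_zero (by rw [e2, h0]; ring)
      have hd : algebraMap O K (d1 * d2) ≠ 0 := (map_ne_zero_iff _ hinj).2 (hd1.mul hd2).ne_zero
      refine zc_of_int hi hb hl hs (g := gl l1 * gl l2 * u1 * k1)
        (div_ne_zero hd ht) ?_
      have e3 := congrArg (algebraMap O K) e2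
      have e4 : (algebraMap O K (d1 * d2) / algebraMap O K t) ^ 2 * algebraMap O K c =
          algebraMap O K (nrd l1 * nrd l2) * algebraMap O K d1 * algebraMap O K d2 := by
        rw [map_mul, map_mul, map_mul _ (t ^ 2), map_pow] at e3
        rw [map_mul _ d1]
        field_simp
        linear_combination (algebraMap O K d1 * algebraMap O K d2) * e3
      rw [e4, map_mul i _ k1, map_mul i _ u1]
      exact s5

/-- (B) -/
theorem valB {g : B} {c : O} {u : K} (hc : IsUnit c) (hu : u ≠ 0)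
    (h : SN g (u ^ 2 * algebraMap O K c)) :
    ∃ (l1 l2 : Aˣ) (t : O), La l l1 ∧ La l l2 ∧ c = t ^ 2 * (nrd l1 * nrd l2) := by
  obtain ⟨n, hn⟩ := exists_cov (i := i) g
  exact valB_cov hi hb hl hs n g c u hn hc hu h

end Pool.Agent.GSD
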