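import Mathlib

namespace Pool.Agent.GSD

variable {A : Type*} [Ring A] [StarRing A]

/-- `a* (c - c*) a = 0` for all `c`. -/
def R1 (a : A) : Prop := ∀ c : A, star a * (c - star c) * a = 0

theorem r1_zero : R1 (0 : A) := fun c => by simp

theorem R1.mul_mul {a : A} (h : R1 a) (u b : A) : R1 (u * a * b) := fun c => by
  have e : star (u * a * b) * (c - star c) * (u * a * b) =
      star b * (star a * (star u * c * u - star (star u * c * u)) * a) * b := by
    simp only [star_mul, star_star]
    noncomm_ring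
  rw [e, h, mul_zero, zero_mul]

theorem R1.mul_left {a : A} (h : R1 a) (u : A) : R1 (u * a) := by
  simpa using h.mul_mul u 1

theorem R1.mul_right {a : A} (h : R1 a) (b : A) : R1 (a * b) := by
  simpa using h.mul_mul 1 b

variable (hreg : ∀ a : A, ∃ b, a * b * a = a)
  (hprime : ∀ a b : A, (∀ c, a * c * b = 0) → a = 0 ∨ b = 0)
include hreg hprime

/-- WL: in a regular prime ring, `w ≠ 0` and `w Alt v = 0` give `v* ∈ A w`. -/
theorem r1_wl {w v : A} (hw : w ≠ 0) (h : ∀ c : A, w * (c - star c) * v = 0) :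
    ∃ y, star v = y * w := by
  obtain ⟨b, hb⟩ := hreg w
  have h0 : w * (1 - b * w) = 0 := by rw [mul_sub, mul_one, ← mul_assoc, hb, sub_self]
  have h1 : ∀ c, w * c * (star (1 - b * w) * v) = 0 := fun c => by
    have h2 := h ((1 - b * w) * star c)
    rw [mul_sub w, ← mul_assoc w, h0, zero_mul, zero_sub, star_mul, star_star, neg_mul,
      neg_eq_zero] at h2
    rw [← h2]
    simp only [mul_assoc]
  have h3 := congrArg star ((hprime _ _ h1).resolve_left hw)
  rw [star_mul, star_star, star_zero, mul_sub, mul_one, sub_eq_zero, ← mul_assoc] at h3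
  exact ⟨_, h3⟩

/-- RK1, first part. -/
theorem R1.star {a : A} (h : R1 a) : R1 (star a) := by
  by_cases ha : a = 0
  · rw [ha, star_zero]; exact r1_zero
  obtain ⟨z, hz⟩ : ∃ z, a * z * Star.star a ≠ 0 := by
    by_contra hn
    push Not at hn
    exact ha ((hprime _ _ hn).elim id star_eq_zero.1)
  obtain ⟨y, hy⟩ := r1_wl hreg hprime hz (v := a) fun c => by
    rw [mul_assoc (a * z), mul_assoc (a * z), h c, mul_zero]
  have e : Star.star a = y * a * (z * Star.star a) := by
    rw [mul_assoc y, ← mul_assoc a]; exact hy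
  rw [e]
  exact h.mul_mul _ _

/-- `x a ≠ 0` and `a` of rank one give `a ∈ A x a`. -/
theorem R1.mem_left {a : A} (h : R1 a) {x : A} (hx : x * a ≠ 0) : ∃ y, a = y * (x * a) := by
  have h1 := h.star hreg hprime
  obtain ⟨y, hy⟩ := r1_wl hreg hprime hx (v := Star.star a) fun c => by
    have h2 := h1 c
    rw [star_star] at h2
    rw [mul_assoc x, mul_assoc x, h2, mul_zero]
  exact ⟨y, by rwa [star_star] at hy⟩

/-- `a b ≠ 0` and `a` of rank one give `a ∈ a b A`. -/
theorem R1.mem_right {a : A} (h : R1 a) {b : A} (hb : a * b ≠ 0) : ∃ y, a = a * b * y := by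
  have h1 : Star.star b * Star.star a ≠ 0 := by
    rw [← star_mul]; exact star_ne_zero.2 hb
  obtain ⟨y, hy⟩ := (h.star hreg hprime).mem_left hreg hprime h1
  refine ⟨Star.star y, ?_⟩
  have := congrArg Star.star hy
  rwa [star_star, star_mul, star_mul, star_star, star_star] at this

/-- RK1, second part, as in the paper: `a* b ≠ 0` gives `a* ∈ a* b A`. -/
theorem R1.star_mem {a : A} (h : R1 a) {b : A} (hb : Star.star a * b ≠ 0) :
    ∃ y, Star.star a = Star.star a * b * y :=
  (h.star hreg hprime).mem_right hreg hprime hb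

end Pool.Agent.GSD
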