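import Pool.Agent.P.MP_c1f06d_ag.d.ValA
import Pool.Agent.P.MP_c1f06d_ag.d.RankOne

namespace Pool.Agent.GSD

open Matrix

section Abstract
variable {A B : Type*} [Ring A] [StarRing A] [Ring B] [StarRing B] (π : A →+* B)

theorem R1.alt {p x : A} (h : R1 p) (hx : Alt x) : Star.star p * x * p = 0 := by
  obtain ⟨c, rfl⟩ := hx
  exact h c

/-- An alternating element of a corner whose kernel is cut out by a rank one idempotent is von
Neumann regular. -/
theorem reg_of_lift (hs : ∀ a, π (star a) = star (π a)) (hsurj : Function.Surjective π)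
    (hu : ∀ a, π a = 1 → IsUnit a) {e p n0 : A} (he : e * e = e) (hp : p * p = p)
    (hep : e * p = p) (hpe : p * e = p) (hn : Alt n0) (hR : R1 p)
    (hM : π (star e * n0 * e) * π p = 0) {c0 : B}
    (hc : star (π e - π p) = π (star e * n0 * e) * c0) :
    ∃ c, star e * n0 * e * c * (star e * n0 * e) = star e * n0 * e := by
  obtain ⟨c1, rfl⟩ := hsurj c0
  have hMa : Alt (star e * n0 * e) := hn.conj e
  have hMe : star e * n0 * e * e = star e * n0 * e := by rw [mul_assoc _ e e, he]
  have heM : star e * (star e * n0 * e) = star e * n0 * e := by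
    rw [← mul_assoc, ← mul_assoc, ← star_mul, he]
  generalize star e * n0 * e = M at *
  have h1 : (e - p) * (e - p) = e - p := by
    rw [sub_mul, mul_sub, mul_sub, he, hep, hpe, hp]; abel
  have h1s : star (e - p) * star (e - p) = star (e - p) := by rw [← star_mul, h1]
  have hM' : star (π p) * π M = 0 := by
    have := congrArg star hM
    rwa [star_mul, ← hs M, hMa.star_eq, map_neg, mul_neg, star_zero, neg_eq_zero] at this
  have h2 : π (star (e - p) * M * (e - p)) = π M := by
    rw [star_sub, sub_mul (star e), heM, sub_mul, mul_sub M, hMe, map_sub, map_sub, map_mul, hM,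
      map_mul, map_mul, hs, hM', zero_mul, sub_zero, sub_zero]
  obtain ⟨u, hu'⟩ := hu (1 - star (e - p) + star (e - p) * M * (e - p) * c1) (by
    rw [map_add, map_mul, h2, ← hc, map_sub, hs, map_sub, map_one, sub_add_cancel])
  have h3 : star (e - p) * M * (e - p) * (c1 * (u⁻¹ : Aˣ)) = star (e - p) := by
    rw [← mul_assoc, Units.mul_inv_eq_iff_eq_mul, hu', mul_add, mul_sub _ 1, mul_one, h1s, sub_self,
      zero_add, ← mul_assoc, ← mul_assoc, ← mul_assoc, h1s]
  obtain ⟨ν, hν, k1, k2, k3, k4⟩ := exists_alt_inv h1 hMa h3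
  refine ⟨ν, ?_⟩
  have hX : Alt (M - M * ν * M) :=
    (hMa.add (hν.conj M)).of_eq (by rw [hMa.star_eq]; noncomm_ring)
  have a1 : star (e - p) * (M - M * ν * M) = 0 := by
    have : star (e - p) * (M * ν * M) = star (e - p) * M * (e - p) * ν * M := by
      rw [mul_assoc _ (e - p) ν, k1]; noncomm_ring
    rw [mul_sub, this, k3, sub_self]
  have a2 : (M - M * ν * M) * (e - p) = 0 := by
    have := congrArg star a1
    rwa [star_mul, star_star, hX.star_eq, star_zero, neg_mul, neg_eq_zero] at this
  have a3 : star e * (M - M * ν * M) = M - M * ν * M := by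
    rw [mul_sub, heM, ← mul_assoc, ← mul_assoc, heM]
  have a4 : (M - M * ν * M) * e = M - M * ν * M := by
    rw [sub_mul, hMe, mul_assoc _ M e, hMe]
  have a5 := hR.alt hX
  rw [star_sub, sub_mul, a3, sub_eq_zero] at a1
  rw [mul_sub, a4, sub_eq_zero] at a2
  rw [← a1, ← a2, sub_eq_zero] at a5
  exact a5.symm

/-- Rank one idempotents lift when there is a rank one idempotent upstairs. -/
theorem exists_lift_r1 {S : Type*} [CommRing S] [Algebra S A] (hsurj : Function.Surjective π)
    (hloc : ∀ t : S, π (algebraMap S A t) ≠ 0 → IsUnit t)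
    (hreg : ∀ a : B, ∃ b, a * b * a = a)
    (hprime : ∀ a b : B, (∀ c, a * c * b = 0) → a = 0 ∨ b = 0)
    {ε : A} (hRε : R1 ε) (hε0 : π ε ≠ 0) (hεS : ∀ a, ∃ t : S, ε * a * ε = t • ε)
    {e : A} (he : e * e = e) {p : B} (hp : p * p = p) (hep : π e * p = p) (hpe : p * π e = p)
    (hR : R1 p) :
    ∃ p1 : A, p1 * p1 = p1 ∧ e * p1 = p1 ∧ p1 * e = p1 ∧ R1 p1 ∧ π p1 = p := by
  by_cases hp0 : p = 0
  · exact ⟨0, by simp, by simp, by simp, r1_zero, by simp [hp0]⟩
  obtain ⟨z, hz⟩ : ∃ z, p * (z * π ε) ≠ 0 := by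
    by_contra hn
    push Not at hn
    exact (hprime p (π ε) fun c => by rw [mul_assoc, hn]).elim hp0 hε0
  obtain ⟨y, hy⟩ := hR.mem_right hreg hprime hz
  obtain ⟨v, hv⟩ := hsurj (p * z)
  obtain ⟨w, hw⟩ := hsurj (y * p)
  obtain ⟨t, ht⟩ := hεS (w * e * v)
  have h1 : π (e * v * ε * (w * e)) = p := by
    simp only [map_mul, hv, hw]
    calc π e * (p * z) * π ε * (y * p * π e) = π e * (p * (z * π ε) * y) * (p * π e) := by
          noncomm_ring
      _ = p := by rw [← hy, hep, hpe, hp]
  have h2 : e * v * ε * (w * e) * (e * v * ε * (w * e)) = t • (e * v * ε * (w * e)) := by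
    calc e * v * ε * (w * e) * (e * v * ε * (w * e))
        = e * v * (ε * (w * (e * e) * v) * ε) * (w * e) := by noncomm_ring
      _ = _ := by rw [he, ht, mul_smul_comm, smul_mul_assoc]
  have h3 : p = π (algebraMap S A t) * p := by
    have := congrArg π h2
    rwa [map_mul, Algebra.smul_def, map_mul π (algebraMap S A t), h1, hp] at this
  obtain ⟨u, rfl⟩ := hloc t fun h => hp0 (by rw [h3, h, zero_mul])
  refine ⟨((u⁻¹ : Sˣ) : S) • (e * v * ε * (w * e)), ?_, ?_, ?_, ?_, ?_⟩
  · rw [smul_mul_assoc, mul_smul_comm, h2, smul_smul ((u⁻¹ : Sˣ) : S) (u : S), Units.inv_mul,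
      one_smul]
  · rw [mul_smul_comm, ← mul_assoc e, ← mul_assoc e, ← mul_assoc e, he]
  · rw [smul_mul_assoc, mul_assoc _ (w * e) e, mul_assoc w, he]
  · rw [← smul_mul_assoc, ← smul_mul_assoc]
    exact hRε.mul_mul _ _
  · rw [Algebra.smul_def, map_mul, h1]
    conv_lhs => rw [h3, ← mul_assoc, ← map_mul, ← map_mul, Units.inv_mul, map_one, map_one, one_mul]

end Abstract

variable (n : Type*) [Fintype n] [DecidableEq n]

/-- An invertible symmetric matrix. -/
structure SymU (S : Type*) [CommRing S] where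
  B : Matrix n n S
  Bi : Matrix n n S
  mul : B * Bi = 1
  mul' : Bi * B = 1
  symm : Bᵀ = B

variable {n} {S S' : Type*} [CommRing S] [CommRing S']

theorem SymU.symm' (β : SymU n S) : β.Biᵀ = β.Bi := by
  have h : β.Biᵀ * β.B = 1 := by
    have := congrArg transpose β.mul
    rwa [transpose_mul, β.symm, transpose_one] at this
  rw [← mul_one β.Biᵀ, ← β.mul, ← mul_assoc, h, one_mul]

/-- Base change of an invertible symmetric matrix. -/
def SymU.map (β : SymU n S) (f : S →+* S') : SymU n S' where
  B := β.B.map f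
  Bi := β.Bi.map f
  mul := by rw [← Matrix.map_mul, β.mul, Matrix.map_one _ (map_zero f) (map_one f)]
  mul' := by rw [← Matrix.map_mul, β.mul', Matrix.map_one _ (map_zero f) (map_one f)]
  symm := by rw [← transpose_map, β.symm]

/-- Matrices with the adjoint involution of `β`. -/
def Adj (_ : SymU n S) : Type _ := Matrix n n S

instance (β : SymU n S) : Ring (Adj β) := inferInstanceAs (Ring (Matrix n n S))

instance (β : SymU n S) : Algebra S (Adj β) := inferInstanceAs (Algebra S (Matrix n n S))

/-- A matrix as an element of the algebra with involution. -/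
def Adj.of (β : SymU n S) : Matrix n n S ≃+* Adj β := RingEquiv.refl _

instance (β : SymU n S) : StarRing (Adj β) where
  star a := Adj.of β (β.Bi * ((Adj.of β).symm a)ᵀ * β.B)
  star_involutive a := by
    change β.Bi * (β.Bi * (show Matrix n n S from a)ᵀ * β.B)ᵀ * β.B = (show Matrix n n S from a)
    rw [transpose_mul, transpose_mul, transpose_transpose, β.symm, β.symm', ← mul_assoc,
      ← mul_assoc, β.mul', one_mul, mul_assoc, β.mul', mul_one]
  star_mul a b := by
    change β.Bi * ((show Matrix n n S from a) * (show Matrix n n S from b))ᵀ * β.B =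
      β.Bi * (show Matrix n n S from b)ᵀ * β.B * (β.Bi * (show Matrix n n S from a)ᵀ * β.B)
    rw [transpose_mul]
    simp only [mul_assoc]
    rw [← mul_assoc β.B β.Bi, β.mul, one_mul]
  star_add a b := by
    change β.Bi * ((show Matrix n n S from a) + (show Matrix n n S from b))ᵀ * β.B =
      β.Bi * (show Matrix n n S from a)ᵀ * β.B + β.Bi * (show Matrix n n S from b)ᵀ * β.B
    rw [transpose_add, mul_add, add_mul]

theorem Adj.star_of (β : SymU n S) (a : Matrix n n S) :
    star (Adj.of β a) = Adj.of β (β.Bi * aᵀ * β.B) := rfl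

theorem Adj.of_smul (β : SymU n S) (t : S) (a : Matrix n n S) :
    Adj.of β (t • a) = t • Adj.of β a := rfl

theorem Adj.star_smul (β : SymU n S) (t : S) (a : Adj β) : star (t • a) = t • star a := by
  obtain ⟨a, rfl⟩ := (Adj.of β).surjective a
  rw [← Adj.of_smul, Adj.star_of, Adj.star_of, ← Adj.of_smul, transpose_smul, mul_smul_comm,
    smul_mul_assoc]

/-- Base change of matrices. -/
def Adj.map (β : SymU n S) (f : S →+* S') : Adj β →+* Adj (β.map f) := f.mapMatrix

theorem Adj.map_of (β : SymU n S) (f : S →+* S') (a : Matrix n n S) :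
    Adj.map β f (Adj.of β a) = Adj.of (β.map f) (a.map f) := rfl

theorem Adj.map_star (β : SymU n S) (f : S →+* S') (a : Adj β) :
    Adj.map β f (star a) = star (Adj.map β f a) := by
  obtain ⟨a, rfl⟩ := (Adj.of β).surjective a
  rw [Adj.star_of, Adj.map_of, Adj.map_of, Adj.star_of, Matrix.map_mul, Matrix.map_mul,
    transpose_map]
  rfl

theorem Adj.map_surjective (β : SymU n S) {f : S →+* S'} (hf : Function.Surjective f) :
    Function.Surjective (Adj.map β f) := fun y => by
  obtain ⟨y, rfl⟩ := (Adj.of (β.map f)).surjective y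
  choose g hg using hf
  exact ⟨Adj.of β (y.map g), by rw [Adj.map_of]; congr 1; ext i j; simp [hg]⟩

theorem Adj.r1_single (β : SymU n S) (i : n) : R1 (Adj.of β (single i i 1)) := fun c => by
  obtain ⟨c, rfl⟩ := (Adj.of β).surjective c
  rw [Adj.star_of, Adj.star_of, ← map_sub, ← map_mul, ← map_mul, map_eq_zero_iff _
    (Adj.of β).injective, transpose_single]
  have e : β.B * (c - β.Bi * cᵀ * β.B) = β.B * c - (β.B * c)ᵀ := by
    rw [mul_sub, ← mul_assoc, ← mul_assoc, β.mul, one_mul, transpose_mul, β.symm]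
  rw [mul_assoc _ β.B, e, mul_assoc β.Bi, mul_assoc β.Bi, single_mul_mul_single,
    Matrix.sub_apply, transpose_apply]
  simp

theorem matrix_prime {k : Type*} [Field k] (a b : Matrix n n k) (h : ∀ c, a * c * b = 0) :
    a = 0 ∨ b = 0 := by
  by_contra hn
  push Not at hn
  obtain ⟨i, j, hij⟩ : ∃ i j, a i j ≠ 0 := by
    by_contra h'
    push Not at h'
    exact hn.1 (Matrix.ext h')
  obtain ⟨r, s, hrs⟩ : ∃ r s, b r s ≠ 0 := by
    by_contra h'
    push Not at h'
    exact hn.2 (Matrix.ext h')
  have := congrFun (congrFun (h (single j r 1)) i) s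
  rw [mul_apply, Finset.sum_eq_single r] at this
  · simp [hij, hrs] at this
  · intro x _ hx
    simp [hx]
  · simp

theorem matrix_reg {k : Type*} [Field k] (a : Matrix n n k) : ∃ b, a * b * a = a := by
  obtain ⟨e, he, hI⟩ := IsSemisimpleRing.ideal_eq_span_idempotent (Ideal.span {a})
  have h1 : e ∈ Ideal.span {a} := hI ▸ Ideal.mem_span_singleton_self e
  have h2 : a ∈ Ideal.span {e} := hI ▸ Ideal.mem_span_singleton_self a
  obtain ⟨b, hb⟩ := Ideal.mem_span_singleton'.1 h1
  obtain ⟨c, hc⟩ := Ideal.mem_span_singleton'.1 h2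
  exact ⟨b, by rw [mul_assoc, hb, ← hc, mul_assoc, he]⟩

/-- Regularity in a split algebra over a local ring. -/
theorem Adj.reg {k : Type*} [Field k] (β : SymU n S) (f : S →+* k) (hf : Function.Surjective f)
    (hloc : ∀ t, f t ≠ 0 → IsUnit t) {e n0 : Adj β} (he : e * e = e) (hn : Alt n0)
    {p c0 : Adj (β.map f)} (hp : p * p = p) (hep : Adj.map β f e * p = p)
    (hpe : p * Adj.map β f e = p) (hR : R1 p) (hM : Adj.map β f (star e * n0 * e) * p = 0)
    (hc : star (Adj.map β f e - p) = Adj.map β f (star e * n0 * e) * c0) :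
    ∃ c, star e * n0 * e * c * (star e * n0 * e) = star e * n0 * e := by
  cases isEmpty_or_nonempty n with
  | inl h => exact ⟨0, Subsingleton.elim (α := Matrix n n S) _ _⟩
  | inr h =>
    obtain ⟨i⟩ := h
    obtain ⟨p1, h1, h2, h3, h4, rfl⟩ := exists_lift_r1 (S := S) (Adj.map β f)
      (Adj.map_surjective β hf)
      (fun t ht => hloc t fun h0 => ht (by
        change (algebraMap S (Matrix n n S) t).map f = 0
        ext a b
        simp [algebraMap_matrix_apply, apply_ite f, h0]))
      (fun a => matrix_reg (n := n) a) (fun a b => matrix_prime (n := n) a b)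
      (ε := Adj.of β (single i i 1))
      (Adj.r1_single β i)
      (fun h0 => by
        have := congrFun (congrFun (show (single i i (1 : S)).map f = 0 from h0) i) i
        simp at this)
      (fun a => by
        obtain ⟨a, rfl⟩ := (Adj.of β).surjective a
        refine ⟨a i i, ?_⟩
        rw [← map_mul, ← map_mul, ← Adj.of_smul, single_mul_mul_single, smul_single]
        simp)
      he hp hep hpe hR
    refine reg_of_lift (Adj.map β f) (Adj.map_star β f) (Adj.map_surjective β hf) (fun a ha => ?_) he h1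
      h2 h3 hn h4 hM hc
    obtain ⟨a, rfl⟩ := (Adj.of β).surjective a
    refine IsUnit.map (Adj.of β) ((Matrix.isUnit_iff_isUnit_det a).2 (hloc _ ?_))
    have : f.mapMatrix a = 1 := ha
    rw [RingHom.map_det, this, det_one]
    exact one_ne_zero

end Pool.Agent.GSD
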