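import Pool.Agent.P.MP_c1f06d_ag.d.ValS1
import Pool.Agent.P.MP_c1f06d_ag.d.Reg0

namespace Pool.Agent.GSD

open Pool.Agent.SU IsLocalRing Matrix

universe u

/-- The local ring at `q` modulo `L`. -/
theorem s2_loc {S : Type u} [CommRing S] (q : Ideal S) [hq : q.IsPrime] {L : S} (hL : L ∈ q) :
    ∃ (S1 : Type u) (_ : CommRing S1) (_ : IsLocalRing S1) (g : S →+* S1), g L = 0 ∧
      (∀ x ∈ q, residue S1 (g x) = 0) ∧ (∀ y, ∃ t ∉ q, ∃ x, g t * y = g x) ∧
      ∀ x, g x = 0 → ∃ s ∉ q, L ∣ s * x := by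
  let Sq := Localization.AtPrime q
  let I : Ideal Sq := Ideal.span {algebraMap S Sq L}
  have hm : ∀ x ∈ q, algebraMap S Sq x ∈ maximalIdeal Sq := fun x hx =>
    (IsLocalization.AtPrime.to_map_mem_maximal_iff Sq q x).2 hx
  have hI : I ≤ maximalIdeal Sq := (Ideal.span_singleton_le_iff_mem _).2 (hm L hL)
  have : Nontrivial (Sq ⧸ I) := Ideal.Quotient.nontrivial_iff.2
    fun h => (maximalIdeal.isMaximal Sq).ne_top (top_le_iff.1 (h ▸ hI))
  have hloc : IsLocalRing (Sq ⧸ I) :=
    IsLocalRing.of_surjective' (Ideal.Quotient.mk I) Ideal.Quotient.mk_surjective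
  refine ⟨Sq ⧸ I, inferInstance, hloc, (Ideal.Quotient.mk I).comp (algebraMap S Sq),
    Ideal.Quotient.eq_zero_iff_mem.2 (Ideal.mem_span_singleton_self _), fun x hx => ?_,
    fun y => ?_, fun x hx => ?_⟩
  · rw [residue_eq_zero_iff, mem_maximalIdeal, mem_nonunits_iff]
    intro hu
    obtain ⟨y, hy⟩ := hu.exists_right_inv
    obtain ⟨y, rfl⟩ := Ideal.Quotient.mk_surjective y
    rw [RingHom.comp_apply, ← map_mul, ← map_one (Ideal.Quotient.mk I), Ideal.Quotient.eq] at hy
    have h1 := sub_mem (Ideal.mul_mem_right y _ (hm x hx)) (hI hy)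
    rw [sub_sub_cancel] at h1
    exact (maximalIdeal.isMaximal Sq).ne_top ((Ideal.eq_top_iff_one _).2 h1)
  · obtain ⟨y, rfl⟩ := Ideal.Quotient.mk_surjective y
    obtain ⟨⟨x, t⟩, h⟩ := IsLocalization.surj q.primeCompl y
    refine ⟨t, t.2, x, ?_⟩
    rw [RingHom.comp_apply, RingHom.comp_apply, ← map_mul, mul_comm, h]
  · rw [RingHom.comp_apply, Ideal.Quotient.eq_zero_iff_mem, Ideal.mem_span_singleton] at hx
    obtain ⟨y, hy⟩ := hx
    obtain ⟨⟨z, t⟩, h⟩ := IsLocalization.surj q.primeCompl y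
    have h1 : algebraMap S Sq (t * x) = algebraMap S Sq (L * z) := by
      rw [map_mul, map_mul, hy, ← h]; ring
    obtain ⟨c, hc⟩ := (IsLocalization.eq_iff_exists q.primeCompl Sq).1 h1
    refine ⟨c * t, (c * t).2, c * z, ?_⟩
    rw [mul_assoc, hc]; ring

theorem s2_prod {S ι : Type*} [CommRing S] [Fintype ι] (q : Ideal S) [hq : q.IsPrime]
    (t : ι → S) (ht : ∀ i, t i ∉ q) : ∃ s ∉ q, ∀ i, t i ∣ s :=
  ⟨∏ i, t i, q.primeCompl.prod_mem fun i _ => ht i,
    fun i => Finset.dvd_prod_of_mem _ (Finset.mem_univ i)⟩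

theorem s2_r1 {k d : Type*} [CommRing k] [Fintype d] [DecidableEq d] (β : SymU d k)
    {p : Matrix d d k} (h : ∀ i j r s, p i r * p j s = p j r * p i s) : R1 (Adj.of β p) := by
  intro c
  obtain ⟨c, rfl⟩ := (Adj.of β).surjective c
  rw [Adj.star_of, Adj.star_of, ← map_sub, ← map_mul, ← map_mul, map_eq_zero_iff _
    (Adj.of β).injective]
  have e : β.B * (c - β.Bi * cᵀ * β.B) = β.B * c - (β.B * c)ᵀ := by
    rw [mul_sub, ← mul_assoc, ← mul_assoc, β.mul, one_mul, transpose_mul, β.symm]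
  have e2 : ∀ X : Matrix d d k, pᵀ * Xᵀ * p = pᵀ * X * p := by
    intro X
    ext r s
    simp only [Matrix.mul_apply, transpose_apply, Finset.sum_mul]
    rw [Finset.sum_comm]
    refine Finset.sum_congr rfl fun i _ => Finset.sum_congr rfl fun j _ => ?_
    rw [mul_right_comm, h, mul_right_comm]
  rw [mul_assoc _ β.B, e, mul_assoc β.Bi, mul_assoc β.Bi, mul_sub, sub_mul, e2, sub_self, mul_zero]

theorem s2_alg {B : Type*} [Ring B] [StarRing B] {E N C : B} (hE : E * E = E) (hN : Alt N)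
    (h : star E * N * E * C * (star E * N * E) = star E * N * E) :
    (E - E * C * (star E * N * E)) * (E - E * C * (star E * N * E)) =
        E - E * C * (star E * N * E) ∧
      E * (E - E * C * (star E * N * E)) = E - E * C * (star E * N * E) ∧
      (E - E * C * (star E * N * E)) * E = E - E * C * (star E * N * E) ∧
      star E * N * E * (E - E * C * (star E * N * E)) = 0 ∧
      star (E - (E - E * C * (star E * N * E))) = star E * N * E * (-(star C * star E)) := by
  have hMa : Alt (star E * N * E) := hN.conj E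
  have hMe : star E * N * E * E = star E * N * E := by rw [mul_assoc _ E E, hE]
  generalize star E * N * E = M at *
  have h1 : E * (E - E * C * M) = E - E * C * M := by
    rw [mul_sub, ← mul_assoc, ← mul_assoc, hE]
  have h2 : M * (E - E * C * M) = 0 := by
    rw [mul_sub, ← mul_assoc, ← mul_assoc, hMe, h, sub_self]
  refine ⟨?_, h1, ?_, h2, ?_⟩
  · rw [sub_mul, h1, mul_assoc _ M, h2, mul_zero, sub_zero]
  · rw [sub_mul, hE, mul_assoc _ M, hMe]
  · rw [sub_sub_cancel, star_mul, star_mul, hMa.star_eq, neg_mul, mul_neg]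

section
variable {O A S d : Type*} [CommRing O] [Ring A] [Algebra O A] [CommRing S] [Algebra O S]
  [Fintype d] [DecidableEq d] {φ : A →ₐ[O] Matrix d d S}

theorem s2_desc [IsLocalRing O] [Module.FaithfullyFlat O S] (h : IsBaseChange S φ.toLinearMap)
    (N : Submodule O A) {x : A}
    (hx : ∀ q : Ideal S, q.IsMaximal → (maximalIdeal O).map (algebraMap O S) ≤ q →
      ∃ s ∉ q, s • φ x ∈ Submodule.span S (φ.toLinearMap '' (N : Set A))) : x ∈ N := by
  let N' : Submodule O A := N ⊔ maximalIdeal O • Submodule.span O {x}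
  let J : Ideal S := (Submodule.span S (φ.toLinearMap '' (N' : Set A))).comap
    (LinearMap.toSpanSingleton S _ (φ x))
  have hJ : J = ⊤ := by
    by_contra hne
    obtain ⟨q, hq, hle⟩ := Ideal.exists_le_maximal J hne
    obtain ⟨s, hs, hs'⟩ := hx q hq (le_trans (Ideal.map_le_iff_le_comap.2 fun t ht => by
      change algebraMap O S t • φ x ∈ Submodule.span S (φ.toLinearMap '' (N' : Set A))
      rw [algebraMap_smul, ← map_smul]
      exact Submodule.subset_span ⟨t • x, Submodule.mem_sup_right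
        (Submodule.smul_mem_smul ht (Submodule.mem_span_singleton_self x)), rfl⟩) hle)
    exact hs (hle (Submodule.span_mono (Set.image_mono (le_sup_left : N ≤ N')) hs'))
  have h1 : (1 : S) ∈ J := hJ ▸ Submodule.mem_top
  have h2 : x ∈ N' := s1_desc h N' (by
    have : (1 : S) • φ x ∈ Submodule.span S (φ.toLinearMap '' (N' : Set A)) := h1
    rwa [one_smul] at this)
  obtain ⟨y, hy, z, hz, hyz⟩ := Submodule.mem_sup.1 h2
  obtain ⟨μ, hμ, rfl⟩ := Submodule.mem_smul_span_singleton.1 hz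
  obtain ⟨v, hv⟩ := isUnit_one_sub_self_of_mem_nonunits μ hμ
  have h3 : y = (v : O) • x := by rw [hv, sub_smul, one_smul, eq_sub_iff_add_eq, hyz]
  have h4 := N.smul_mem ((v⁻¹ : Oˣ) : O) hy
  rwa [h3, smul_smul, Units.inv_mul, one_smul] at h4

variable [StarRing A] {b : Matrix d d S}

theorem Spl.s2_reg [IsLocalRing O] [StarFix O A] [Module.FaithfullyFlat O S] (h : Spl φ b)
    (lam : O) (hm : lam ∈ maximalIdeal O) (e n c0 : A) (he : Dv lam (e * e - e)) (hn : Alt n)
    (hc : qm (maximalIdeal O) (star e * n * e * c0 * (star e * n * e)) =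
      qm (maximalIdeal O) (star e * n * e))
    (hr : R1 (qm (maximalIdeal O) (e - e * c0 * (star e * n * e)))) :
    ∃ c : A, Dv lam (star e * n * e * c * (star e * n * e) - star e * n * e) := by
  let F : A × A →ₗ[O] A :=
    ((LinearMap.mulRight O (star e * n * e)).comp (LinearMap.mulLeft O (star e * n * e))).coprod
      (lam • LinearMap.id)
  have hF : ∀ x y, F (x, y) = star e * n * e * x * (star e * n * e) + lam • y := fun _ _ => rfl
  suffices hs : star e * n * e ∈ LinearMap.range F by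
    obtain ⟨⟨c, y⟩, hy⟩ := hs
    rw [hF] at hy
    exact ⟨c, -y, by rw [smul_neg, eq_sub_iff_add_eq.2 hy]; abel⟩
  refine s2_desc h.bc _ fun q hq hle => ?_
  have := hq.isPrime
  obtain ⟨S1, _, _, g, g1, g2, g3, g4⟩ := s2_loc q (hle (Ideal.mem_map_of_mem _ hm))
  let β0 : SymU d S := ⟨b, ↑h.unit.unit⁻¹, h.unit.mul_val_inv, h.unit.val_inv_mul, h.symm⟩
  let ψ0 : A →+* Adj β0 := (Adj.of β0).toRingHom.comp φ.toRingHom
  have s0 : ∀ a, ψ0 (star a) = star (ψ0 a) := fun a => by
    change Adj.of β0 (φ (star a)) = star (Adj.of β0 (φ a))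
    rw [Adj.star_of, mul_assoc]
    change _ = Adj.of β0 (_ * ((φ a)ᵀ * b))
    rw [← h.adj, ← mul_assoc]
    change _ = Adj.of β0 (β0.Bi * β0.B * _)
    rw [β0.mul', one_mul]
  let ψ : A →+* Adj (β0.map g) := (Adj.map β0 g).comp ψ0
  have hψ : ∀ a, ψ a = Adj.of (β0.map g) ((φ a).map g) := fun _ => rfl
  have s1 : ∀ a, ψ (star a) = star (ψ a) := fun a => by
    rw [RingHom.comp_apply, s0, Adj.map_star]; rfl
  let χ : A →+* Adj ((β0.map g).map (residue S1)) := (Adj.map (β0.map g) (residue S1)).comp ψ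
  have hχ : ∀ a, χ a = Adj.of _ (((φ a).map g).map (residue S1)) := fun _ => rfl
  have hχ' : ∀ a, Adj.map (β0.map g) (residue S1) (ψ a) = χ a := fun _ => rfl
  have s2 : ∀ a, χ (star a) = star (χ a) := fun a => by
    rw [RingHom.comp_apply, s1, Adj.map_star]; rfl
  have k1 : ∀ x y, qm (maximalIdeal O) x = qm (maximalIdeal O) y → χ x = χ y := by
    intro x y hxy
    rw [← sub_eq_zero, ← map_sub, hχ, map_eq_zero_iff _ (Adj.of _).injective]
    ext i j
    exact g2 _ (hle (s1_entry (Ideal.Quotient.eq.1 hxy) i j))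
  have k2 : ψ e * ψ e = ψ e := by
    obtain ⟨y, hy⟩ := he
    rw [← map_mul, ← sub_eq_zero, ← map_sub, hy, hψ, map_eq_zero_iff _ (Adj.of _).injective]
    ext i j
    rw [Matrix.map_apply, map_smul, Matrix.smul_apply, Algebra.smul_def, map_mul, g1, zero_mul,
      Matrix.zero_apply]
  have k3 : χ e * χ e = χ e := by rw [← hχ', ← map_mul, k2]
  have k4 := k1 _ _ hc
  simp only [map_mul, s2] at k4
  obtain ⟨p1, p2, p3, p4, p5⟩ := s2_alg k3 (hn.map χ s2) k4
  have k5 : R1 (χ e - χ e * χ c0 * (star (χ e) * χ n * χ e)) := by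
    rw [← s2, ← map_mul, ← map_mul, ← map_mul, ← map_mul, ← map_sub, hχ]
    refine s2_r1 _ fun i j r s => ?_
    simp only [Matrix.map_apply, ← map_mul]
    rw [← sub_eq_zero, ← map_sub, ← map_sub]
    exact g2 _ (hle (h.s1_minor hr i j r s))
  have k6 : Adj.map (β0.map g) (residue S1) (star (ψ e) * ψ n * ψ e) =
      star (χ e) * χ n * χ e := by rw [map_mul, map_mul, Adj.map_star, hχ', hχ']
  obtain ⟨c1, hc1⟩ := Adj.reg (β0.map g) (residue S1) residue_surjective
    (fun t ht => (residue_ne_zero_iff_isUnit t).1 ht) k2 (hn.map ψ s1) p1 p2 p3 k5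
    (by rw [k6]; exact p4) (by rw [k6]; exact p5)
  rw [← s1, ← map_mul, ← map_mul] at hc1
  generalize star e * n * e = M at hc1 hF
  obtain ⟨c1, rfl⟩ := (Adj.of (β0.map g)).surjective c1
  rw [hψ, ← map_mul, ← map_mul] at hc1
  replace hc1 := (Adj.of _).injective hc1
  choose t ht x hx using fun i : d × d => g3 (c1 i.1 i.2)
  obtain ⟨t0, ht0, hd⟩ := s2_prod q t ht
  choose u hu using hd
  let Z : Matrix d d S := of fun i j => u (i, j) * x (i, j)
  have k7 : Z.map g = g t0 • c1 := by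
    ext i j
    rw [Matrix.map_apply, Matrix.smul_apply, smul_eq_mul, hu (i, j)]
    change g (u (i, j) * x (i, j)) = _
    rw [map_mul, map_mul, ← hx (i, j)]
    ring
  have k8 : (t0 • φ M - φ M * Z * φ M).map g = 0 := by
    rw [Matrix.map_sub _ (map_sub g), Matrix.map_mul, Matrix.map_mul, k7, mul_smul_comm,
      smul_mul_assoc, hc1, sub_eq_zero]
    ext i j
    simp
  choose s hs hs' using fun i : d × d => g4 _ (congrFun (congrFun k8 i.1) i.2)
  obtain ⟨s0, hs0, hd'⟩ := s2_prod q s hs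
  have k9 : ∀ i j, algebraMap O S lam ∣ s0 * (t0 • φ M - φ M * Z * φ M) i j := fun i j =>
    (hs' (i, j)).trans (mul_dvd_mul_right (hd' (i, j)) _)
  choose W hW using k9
  refine ⟨s0 * t0, q.primeCompl.mul_mem hs0 ht0, ?_⟩
  have k10 : (s0 * t0) • φ M = φ M * (s0 • Z) * φ M + algebraMap O S lam • of W := by
    ext i j
    have := hW i j
    simp only [Matrix.sub_apply, Matrix.smul_apply, smul_eq_mul] at this
    simp only [mul_smul_comm, smul_mul_assoc, Matrix.add_apply, Matrix.smul_apply, smul_eq_mul,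
      of_apply, ← this]
    ring
  have k11 : ∀ Y : Matrix d d S, φ M * Y * φ M ∈
      Submodule.span S (φ.toLinearMap '' (LinearMap.range F : Set A)) ∧ algebraMap O S lam • Y ∈
      Submodule.span S (φ.toLinearMap '' (LinearMap.range F : Set A)) := by
    intro Y
    induction Y using h.bc.inductionOn with
    | zero => simp
    | tmul a =>
      refine ⟨Submodule.subset_span ⟨_, ⟨(a, 0), rfl⟩, ?_⟩,
        Submodule.subset_span ⟨_, ⟨(0, a), rfl⟩, ?_⟩⟩ <;> simp [hF]
    | smul r Y hY =>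
      rw [mul_smul_comm, smul_mul_assoc, smul_comm]
      exact ⟨Submodule.smul_mem _ _ hY.1, Submodule.smul_mem _ _ hY.2⟩
    | add Y Y' hY hY' =>
      rw [mul_add, add_mul, smul_add]
      exact ⟨add_mem hY.1 hY'.1, add_mem hY.2 hY'.2⟩
  rw [k10]
  exact add_mem (k11 _).1 (k11 _).2

end

/-- The base facts follow from a splitting over a faithfully flat extension. -/
theorem Spl.base {O A S d : Type*} [CommRing O] [IsDomain O] [ValuationRing O] [Ring A]
    [StarRing A] [Algebra O A] [StarFix O A] [Module.Finite O A] [Module.Free O A] [CommRing S]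
    [Algebra O S] [Module.FaithfullyFlat O S] [Fintype d] [DecidableEq d]
    {φ : A →ₐ[O] Matrix d d S} {b : Matrix d d S} (h : Spl φ b) {nrd : A → O}
    (hn : ∀ a, algebraMap O S (nrd a) = (φ a).det) : Base nrd :=
  ⟨s1_avg h.bc, h.s1_sat, s1_prime h.bc, s1_unit hn, h.s2_reg, h.s1_nr1 hn⟩

end Pool.Agent.GSD
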