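import Pool.Agent.P.MP_c1f06d_ag.d.DWall
import Pool.Agent.P.MP_c1f06d_ag.d.ValMA
import Pool.Agent.P.MP_c1f06d_ag.d.ValMB
import Pool.Agent.P.MP_c1f06d_ag.d.ValS

open Matrix Module Pool.Agent.SU IsLocalRing

universe u

namespace Pool.Agent.GSD

section Field
variable {K B : Type u} [Field K] [Infinite K] [Ring B] [StarRing B] [Algebra K B] {m : ℕ} {l : B}

omit [Infinite K] in
theorem dori_iso (h : QAz K m l) (s : List Bˣ) (hs : ∀ y ∈ s, La l (y : B)) :
    Iso l (s.map gl).prod := by
  induction s with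
  | nil => exact Iso.one l
  | cons y s ih =>
    rw [List.map_cons, List.prod_cons]
    exact ((hs y (by simp)).iso_gl h.add_star).mul (ih fun z hz => hs z (by simp [hz]))

/-- A product of Cayley transforms is in general position with some Cayley transform. -/
theorem ori_of_prod (h : QAz K m l) (hm : Even m) (s : List Bˣ) (hs : ∀ y ∈ s, La l (y : B)) :
    ∃ y : Bˣ, La l y ∧ IsUnit (1 - (s.map gl).prod * gl y) := by
  have := h.starFix
  have := h.az.finite
  have : Infinite (ResidueField K) := Infinite.of_injective (residue K) (residue K).injective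
  have hl := h.add_star
  induction s using List.reverseRecOn with
  | nil =>
    obtain ⟨y, hy⟩ := exists_unit_la K hl
    refine ⟨y, hy, ?_⟩
    rw [List.map_nil, List.prod_nil, one_mul, gl, sub_sub_cancel]
    exact (y⁻¹).isUnit
  | append_singleton s y1 ih =>
    obtain ⟨y, h1, h2⟩ := ih fun z hz => hs z (by simp [hz])
    have h3 : La l y1 := hs y1 (by simp)
    obtain ⟨w, hw, hwu⟩ := h.exists_alt_unit hm
    rw [List.map_append, List.prod_append, List.map_singleton, List.prod_singleton]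
    generalize (s.map gl).prod = u at h2
    have h4 : IsUnit ((1 - u) * y + u) := by
      rw [one_sub_mul_gl] at h2
      simpa using h2.mul y.isUnit
    have h5 : IsUnit ((y : B) - y1 + (1 : K) • ((y1 : B) + w - y)) := by
      rwa [one_smul, show (y : B) - y1 + ((y1 : B) + w - y) = w by abel]
    obtain ⟨t, ht⟩ := (((finite_not_isUnit (F := K) y.isUnit ((y1 : B) + w - y)).union
      (finite_not_isUnit (F := K) h4 ((1 - u) * ((y1 : B) + w - y)))).union
      (finite_not_isUnit' h5)).exists_notMem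
    simp only [Set.mem_union, Set.mem_ofPred_eq, not_or, not_not] at ht
    obtain ⟨⟨⟨z, hz⟩, h6⟩, h7⟩ := ht
    have h8 : La l z := hz ▸ h1.add_alt (((h3.add_alt hw).sub h1).smul t)
    have h9 : IsUnit (1 - gl (star y1) * gl z) := by
      rw [one_sub_gl_mul_gl]
      refine ((star y1)⁻¹.isUnit.mul ?_).mul z⁻¹.isUnit
      have e : ((star y1 : Bˣ) : B) + z - 1 = (y : B) - y1 + t • ((y1 : B) + w - y) := by
        rw [hz, ← h3.add_star hl, Units.coe_star]; abel
      rwa [e]
    obtain ⟨y', a1, a2, -⟩ := ((h3.star.iso_gl (l := star y1) hl).mul (h8.iso_gl hl)).exists_gl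
      hl h9
    refine ⟨y', a1, ?_⟩
    rw [← a2, mul_assoc, ← mul_assoc (gl y1), gl_mul_gl_star (h3.add_star hl), one_mul,
      one_sub_mul_gl]
    refine IsUnit.mul ?_ z⁻¹.isUnit
    rwa [hz, mul_add, mul_smul_comm, add_right_comm]

theorem IsPair.mul (h : QAz K m l) (hm : Even m) {g g' : B} (hg : IsPair l g) (hg' : IsPair l g') :
    IsPair l (g * g') := by
  obtain ⟨y1, y2, a1, a2, rfl⟩ := hg
  obtain ⟨y3, y4, a3, a4, rfl⟩ := hg'
  have hs : ∀ y ∈ [y1, y2, y3, y4], La l (y : B) := by simp [a1, a2, a3, a4]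
  obtain ⟨y, h1, h2⟩ := ori_of_prod h hm _ hs
  obtain ⟨y', h3, -, h4, -⟩ := (dori_iso h _ hs).exists_gl_mul_gl h.add_star h1 h2
  refine ⟨y', star y, h3, h1.star, ?_⟩
  rw [← h4]
  simp [mul_assoc]

/-- Kneser: without elements of rank one every isometry is a product of two Cayley transforms. -/
theorem isPair_of_no_r1 (h : QAz K m l) (hn : ∀ v : B, R1 v → v = 0) {g : B} (hg : Iso l g) :
    IsPair l g := by
  have := h.starFix
  have := h.az.finite
  have : Infinite (ResidueField K) := Infinite.of_injective (residue K) (residue K).injective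
  have : IsNoetherianRing B := isNoetherian_of_tower K (inferInstance : IsNoetherian K B)
  have hl := h.add_star
  have h0 := hg.star_mul_self hl
  obtain ⟨l0, hl0⟩ := exists_unit_la K hl
  obtain ⟨l1, h1, h2⟩ := kd (F := K) h.az.reg h.az.prime hl0
    (g := g) ⟨⟨g, star g, mul_eq_one_comm.1 h0, h0⟩, rfl⟩
  obtain ⟨t, ht⟩ := (h2 0 alt_zero).exists_notMem
  rw [Set.mem_ofPred_eq, not_not, smul_zero, add_zero] at ht
  obtain ⟨⟨y, rfl⟩, h3⟩ := ht
  obtain ⟨b, hb⟩ := h.az.reg ((1 - g) * y + g)
  have h4 := hn _ (h3 (1 - b * ((1 - g) * y + g)) (by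
    rw [mul_sub, mul_one, ← mul_assoc, hb, sub_self]))
  have h5 := (sub_eq_zero.1 h4).symm
  obtain ⟨y', h6, -, h7, -⟩ := hg.exists_gl_mul_gl hl h1 (by
    rw [one_sub_mul_gl]
    exact IsUnit.mul ⟨⟨_, b, mul_eq_one_comm.1 h5, h5⟩, rfl⟩ (y⁻¹).isUnit)
  exact ⟨y', star y, h6, h1.star, h7⟩

omit [Infinite K] in
theorem dori_star {g : B} (hg : IsPair l g) : IsPair l (star g) := by
  obtain ⟨y1, y2, a1, a2, rfl⟩ := hg
  exact ⟨star y2, star y1, a2.star, a1.star, by rw [star_mul, star_gl, star_gl]⟩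

end Field

section Val
variable {O K A B : Type u} [CommRing O] [IsDomain O] [ValuationRing O] [Infinite (ResidueField O)]
  [Field K] [Algebra O K] [IsFractionRing O K] [Ring A] [StarRing A] [Algebra O A] [Ring B]
  [StarRing B] [Algebra K B] [StarFix K B] {j : A →+* B} {m : ℕ} {l : A}

omit [Infinite (ResidueField O)] [StarFix K B] in
theorem dori_base (h : QAz O m l) : @Base O _ _ A _ _ _ h.starFix (nrd O) := by
  have := h.starFix
  have := h.az.finite
  have := h.az.free
  obtain ⟨S, _, _, _, φ, b, h1, h2⟩ := h.exists_spl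
  exact h1.base h2

/-- (A) over a valuation ring. -/
theorem val_formIso (h : QAz O m l) (hj : SBC (algebraMap O K) j) {th : A}
    (hth : IsUnit (th + star th)) (hK : FormIso (j l) (j th)) : FormIso l th := by
  let : Algebra O B := Algebra.compHom B (algebraMap O K)
  have : IsScalarTower O K B := ⟨fun a b c => by
    rw [Algebra.smul_def a b, mul_smul]; rfl⟩
  have := h.starFix
  have := h.az.finite
  have := h.az.free
  have := hj.finite'
  have : StarFix O B := ⟨fun t => StarFix.fix (algebraMap O K t)⟩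
  let i : A →ₐ[O] B := ⟨j, hj.alg⟩
  have hi : GenF i := SBC.genF i hj
  have hb := dori_base h
  obtain ⟨x, hx⟩ := hK
  obtain ⟨y, hy, -⟩ := valA hi hb.avg (P.MP_c1f06d_ag.FP.alt A) (P.MP_c1f06d_ag.FP.alt B)
    (fun a => ⟨hi.alt hb, fun h => Alt.map j hj.map_star h⟩) h.add_star hth (fun _ => True) trivial
    (fun _ _ _ _ _ _ _ _ _ _ => trivial) (x := x) (isUnit_of_formIso (T := K) (h.map hj).add_star
      (by rw [← hj.map_star, ← map_add]; exact hth.map j) hx) hx
  exact ⟨y, hy⟩

/-- (B) over a valuation ring. -/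
theorem val_pairN (h : QAz O m l) (hm : Even m) (hj : SBC (algebraMap O K) j) {c : O}
    (hc : IsUnit c) (hK : PairN K (j l) (algebraMap O K c)) : PairN O l c := by
  let : Algebra O B := Algebra.compHom B (algebraMap O K)
  have : IsScalarTower O K B := ⟨fun a b c => by
    rw [Algebra.smul_def a b, mul_smul]; rfl⟩
  have := h.starFix
  have := h.az.finite
  have := h.az.free
  have : StarFix O B := ⟨fun t => StarFix.fix (algebraMap O K t)⟩
  have : Infinite O := Infinite.of_surjective _ (residue_surjective (R := O))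
  have : Infinite K := Infinite.of_injective _ (IsFractionRing.injective O K)
  let i : A →ₐ[O] B := ⟨j, hj.alg⟩
  have hi : GenF i := SBC.genF i hj
  have hb := dori_base h
  have hB := h.map hj
  have hs : SNax i l (nrd O) fun g c => SN K (j l) g c ∧ IsPair (j l) g :=
    { mul := fun _ _ _ _ a b => ⟨a.1.mul hB b.1, a.2.mul hB hm b.2⟩
      inv := fun _ _ a => ⟨a.1.inv hB, dori_star a.2⟩
      one := fun _ a => a.1.isSquare hB
      ne := fun _ _ a => (a.1.isUnit hB).ne_zero
      iso := fun _ _ a => a.1.iso hB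
      ori := fun _ _ ⟨_, y1, y2, a1, a2, e⟩ => ⟨star y2, a2.star, by
        rw [e, mul_assoc, gl_mul_gl_star (a2.add_star hB.add_star), mul_one, gl, sub_sub_cancel]
        exact (y1⁻¹).isUnit⟩
      gen := fun l1 l2 y1 y2 a1 a2 e1 e2 => by
        have b1 : La (j l) y1 := e1 ▸ a1.map j hj.map_star
        have b2 : La (j l) y2 := e2 ▸ a2.map j hj.map_star
        refine ⟨?_, y1, y2, b1, b2, rfl⟩
        rw [map_mul, ← h.az.nrd_map hj.toBC, ← h.az.nrd_map hj.toBC]
        have e1' : j l1 = y1 := e1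
        have e2' : j l2 = y2 := e2
        rw [e1', e2']
        exact sn_gl hB b1 b2 }
  obtain ⟨y1, y2, t, c1, c2, a1, a2, n1, n2, e⟩ := hK
  have ht : t ≠ 0 := fun h0 => (hc.map (algebraMap O K)).ne_zero (by rw [e, h0]; ring)
  obtain ⟨l1, l2, s, b1, b2, e1⟩ := valB hi hb h.add_star hs (g := gl y1 * gl y2) hc one_ne_zero (by
    rw [one_pow, one_mul, e, ← hB.az.nrd_eq n1, ← hB.az.nrd_eq n2]
    exact ⟨(sn_gl hB a1 a2).mul_sq (IsUnit.mk0 t ht), y1, y2, a1, a2, rfl⟩)
  exact ⟨l1, l2, s, _, _, b1, b2, h.az.isNrd _, h.az.isNrd _, e1⟩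

end Val

end Pool.Agent.GSD
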