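import Pool.Agent.P.MP_c1f06d_ag.d.DQAz
import Pool.Agent.P.MP_c1f06d_ag.OddA
import Pool.Agent.P.MP_c1f06d_ag.SplitA

open Matrix Module Polynomial Pool.Agent.SU IsLocalRing TensorProduct Pool.Agent.P.MP_c1f06d_ag

universe u

namespace Pool.Agent.GSD

section Mat
variable {S : Type*} [CommRing S] {n : Type*} [Fintype n] [DecidableEq n]

theorem dsplit_one_mem (α : Matrix n n S →+* Matrix n n S) (i0 : n) (I : Ideal S)
    (hI : ∀ a b, α (single i0 i0 1) a b ∈ I) : (1 : S) ∈ I := by
  have e : (1 : Matrix n n S) =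
      ∑ i, α (single i i0 1) * α (single i0 i0 1) * α (single i0 i 1) := by
    simp only [← map_mul, single_mul_single_same, mul_one, ← map_sum]
    rw [← map_one α]
    congr 1
    ext a b
    simp [Matrix.sum_apply, Matrix.single_apply, Matrix.one_apply, ite_and, eq_comm]
  have e2 := congrFun (congrFun e i0) i0
  rw [one_apply_eq, Matrix.sum_apply] at e2
  rw [e2]
  refine I.sum_mem fun i _ => ?_
  rw [mul_apply]
  refine I.sum_mem fun b _ => I.mul_mem_right _ ?_
  rw [mul_apply]
  exact I.sum_mem fun a _ => I.mul_mem_left _ (hI a b)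

/-- Skolem-Noether over a local ring. -/
theorem dsplit_inner [IsLocalRing S] (α : Matrix n n S →ₐ[S] Matrix n n S) :
    ∃ g : Matrix n n S, IsUnit g.det ∧ ∀ X, α X * g = g * X := by
  cases isEmpty_or_nonempty n with
  | inl _ => exact ⟨1, by simp, fun X => Subsingleton.elim _ _⟩
  | inr hn =>
    obtain ⟨i0⟩ := hn
    obtain ⟨a, b, hab⟩ : ∃ a b, IsUnit (α (single i0 i0 1) a b) := by
      by_contra hc
      push Not at hc
      exact (maximalIdeal.isMaximal S).ne_top ((Ideal.eq_top_iff_one _).2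
        (dsplit_one_mem α.toRingHom i0 (maximalIdeal S) hc))
    obtain ⟨g, g', hg, hg'⟩ := exists_intertwine α i0 a b
    have e := congrArg det hg'
    rw [det_mul, det_smul, det_one, mul_one] at e
    exact ⟨g, isUnit_of_mul_isUnit_right (e ▸ hab.pow _), hg⟩

/-- The type of an adjoint involution does not depend on the splitting. -/
theorem dsplit_symm (α : Matrix n n S →ₐ[S] Matrix n n S) {B1 B2 : Matrix n n S}
    (h1 : IsUnit B1.det) (h2 : IsUnit B2.det) (hs : B2ᵀ = B2)
    (hα : ∀ X Y, B1 * Y = Xᵀ * B1 → B2 * α Y = (α X)ᵀ * B2) : B1ᵀ = B1 := by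
  ext i j
  rw [← sub_eq_zero]
  refine eq_zero_of_entries α.toRingHom i (2 * Fintype.card n) fun a b => ?_
  obtain ⟨g, g', hg, hg'⟩ := exists_intertwine α i a b
  obtain ⟨μ, hμ⟩ := exists_multiplier α h1 hα hg
  have e := congrArg det hg'
  rw [det_mul, det_smul, det_one, mul_one] at e
  have e1 : μ • B1ᵀ = μ • B1 := by
    rw [← transpose_smul, ← hμ, transpose_mul, transpose_mul, transpose_transpose, hs,
      Matrix.mul_assoc]
  have e2 := congrFun (congrFun e1 i) j
  rw [Matrix.smul_apply, Matrix.smul_apply, smul_eq_mul, smul_eq_mul] at e2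
  have e3 := congrArg det hμ
  rw [det_mul, det_mul, det_transpose, det_smul] at e3
  obtain ⟨k, hk⟩ : ∃ k, Fintype.card n = k + 1 :=
    Nat.exists_eq_succ_of_ne_zero (Fintype.card_pos_iff.2 ⟨i⟩).ne'
  change α (single i i 1) a b ^ _ * _ = 0
  rw [mul_comm 2, pow_mul, ← e]
  rw [hk] at e3
  refine h2.mul_right_eq_zero.1 ?_
  linear_combination (g'.det ^ 2 * (B1ᵀ i j - B1 i j)) * e3 + g'.det ^ 2 * μ ^ k * B1.det * e2

/-- A matrix that kills the alternating matrices has rank one. -/
theorem dsplit_rank_one {V : Matrix n n S} (h : ∀ C : Matrix n n S, Vᵀ * (C - Cᵀ) * V = 0)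
    (X : Matrix n n S) : V * X * V = (X * V).trace • V := by
  have hm : ∀ i a j b, V i a * V j b = V j a * V i b := fun i a j b => by
    have e := congrFun (congrFun (h (single i j 1)) a) b
    rw [Matrix.mul_sub, Matrix.sub_mul, transpose_single, Matrix.sub_apply, Matrix.zero_apply,
      sub_eq_zero] at e
    simpa [mul_apply, Matrix.single_apply, ite_and, Finset.sum_ite_eq] using e
  ext i b
  simp only [mul_apply, Matrix.smul_apply, smul_eq_mul, trace, diag_apply, Finset.sum_mul]
  rw [Finset.sum_comm]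
  refine Finset.sum_congr rfl fun a _ => Finset.sum_congr rfl fun j _ => ?_
  linear_combination X a j * hm i a j b

end Mat

section Field
variable {k D : Type u} [Field k] [Ring D] [Algebra k D] {m : ℕ}

theorem dsplit_simple [Nontrivial D] (h : Az k D) : IsSimpleRing D := by
  have := h.isSemisimpleRing
  refine IsSimpleRing.of_eq_bot_or_eq_top fun I => ?_
  rw [or_iff_not_imp_left, ← I.one_mem_iff]
  intro hI
  obtain ⟨d, hd, hd0⟩ := SetLike.exists_of_lt (bot_lt_iff_ne_bot.mpr hI : ⊥ < I)
  obtain ⟨J, hJ⟩ := exists_isCompl (I.asIdeal : Submodule D D)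
  have h1 : (1 : D) ∈ I.asIdeal ⊔ J := by rw [hJ.sup_eq_top]; trivial
  obtain ⟨x, hx, y, hy, e⟩ := Submodule.mem_sup.1 h1
  have hy0 : y = 0 := (h.prime d y fun c => by
    have h2 : d * c * y ∈ I.asIdeal ⊓ J :=
      ⟨TwoSidedIdeal.mem_asIdeal.2 (I.mul_mem_right _ _ (I.mul_mem_right _ _ hd)),
        J.smul_mem (d * c) hy⟩
    rwa [hJ.inf_eq_bot, Submodule.mem_bot] at h2).resolve_left
      fun e0 => hd0 ((TwoSidedIdeal.mem_bot _).2 e0)
  rw [hy0, add_zero] at e
  exact TwoSidedIdeal.mem_asIdeal.1 (e ▸ hx)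

theorem dsplit_field [Nontrivial D] (h : Az k D) (hm : finrank k D = m * m)
    (H : ∀ (n : ℕ) [NeZero n] (E : Type u) [DivisionRing E] [Algebra k E] [Module.Finite k E]
      (_ : D ≃ₐ[k] Matrix (Fin n) (Fin n) E), Function.Surjective (algebraMap k E)) :
    ASplit k D m := by
  have := h.free
  have := h.finite
  have := dsplit_simple h
  have : IsArtinianRing D := IsArtinianRing.of_finite k D
  obtain ⟨n, _, E, _, _, _, ⟨e⟩⟩ := IsSimpleRing.exists_algEquiv_matrix_divisionRing_finite k D
  let ψ : k ≃ₐ[k] E := AlgEquiv.ofBijective (Algebra.ofId k E)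
    ⟨(algebraMap k E).injective, H n E e⟩
  let e' : D ≃ₐ[k] Matrix (Fin n) (Fin n) k := e.trans ψ.symm.mapMatrix
  have hn := e'.toLinearEquiv.finrank_eq
  rw [hm, Module.finrank_matrix, Module.finrank_self, Fintype.card_fin, mul_one] at hn
  obtain rfl : m = n := Nat.mul_self_inj.1 hn
  exact ⟨e'.toRingEquiv.toRingHom, bc_of_bijective _ e'.bijective e'.commutes⟩

theorem dsplit_r1 [StarRing D] {l : D} (h : QAz k m l) {v : D} (hv : v ≠ 0) (h1 : R1 v) (x : D) :
    ∃ t : k, v * x * v = t • v := by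
  have := h.az.finite
  obtain ⟨S, _, f, φ, Q, hf, hq⟩ := h
  have hs : (Q + Qᵀ)ᵀ = Q + Qᵀ := by rw [transpose_add, transpose_transpose, add_comm]
  have k1 : ∀ X : Matrix (Fin m) (Fin m) S,
      (φ v)ᵀ * ((Q + Qᵀ) * X - ((Q + Qᵀ) * X)ᵀ) * φ v = 0 := fun X => by
    refine hq.toBC.induction
      (p := fun X => (φ v)ᵀ * ((Q + Qᵀ) * X - ((Q + Qᵀ) * X)ᵀ) * φ v = 0) (by simp)
      (fun t c => ?_) (fun X Y hX hY => ?_) X
    · have e := congrArg (fun a => (Q + Qᵀ) * φ a) (h1 c)
      simp only [map_mul, map_sub, map_zero, mul_zero] at e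
      rw [← mul_assoc, ← mul_assoc, hq.adj, mul_assoc (φ v)ᵀ, mul_sub, hq.adj] at e
      rw [Matrix.mul_smul, transpose_smul, ← smul_sub, Matrix.mul_smul, Matrix.smul_mul,
        transpose_mul, hs, e, smul_zero]
    · rw [mul_add (Q + Qᵀ), transpose_add ((Q + Qᵀ) * X), add_sub_add_comm, mul_add, add_mul, hX,
        hY, add_zero]
  have k2 := dsplit_rank_one (V := φ v) (fun C => by
    have e := k1 ((Q + Qᵀ)⁻¹ * C)
    rwa [← mul_assoc, mul_nonsing_inv _ hq.unit, one_mul] at e) (φ x)
  let b := Module.finBasis k D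
  obtain ⟨b', -, hb⟩ := hq.toBC.exists_basis b
  have k3 : ∀ i, f (b.repr (v * x * v) i) = (φ x * φ v).trace * f (b.repr v i) := fun i => by
    rw [← hb, ← hb, map_mul φ, map_mul φ, k2, map_smul, Finsupp.smul_apply, smul_eq_mul]
  obtain ⟨i0, hi0⟩ : ∃ i, b.repr v i ≠ 0 := by
    by_contra hc
    push Not at hc
    exact hv (b.repr.map_eq_zero_iff.1 (Finsupp.ext hc))
  refine ⟨b.repr (v * x * v) i0 * (b.repr v i0)⁻¹, b.repr.injective (Finsupp.ext fun i => ?_)⟩
  apply ff_injective hf
  rw [map_smul, Finsupp.smul_apply, smul_eq_mul, map_mul f, map_mul f, k3, k3,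
    mul_assoc (trace _), ← map_mul f, mul_inv_cancel₀ hi0, map_one, mul_one]

theorem dsplit_of_r1 [StarRing D] {l : D} (h : QAz k m l) {v : D} (hv : v ≠ 0) (h1 : R1 v) :
    ASplit k D m := by
  have : Nontrivial D := nontrivial_of_ne v 0 hv
  refine dsplit_field h.az h.finrank fun n _ E _ _ _ e z => ?_
  obtain ⟨i, j, hij⟩ : ∃ i j, e v i j ≠ 0 := by
    by_contra hc
    push Not at hc
    exact hv (e.injective ((Matrix.ext hc).trans (map_zero e).symm))
  obtain ⟨t, ht⟩ := dsplit_r1 h hv h1 (e.symm (single j i ((e v i j)⁻¹ * z)))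
  have e1 := congrFun (congrFun (congrArg e ht) i) j
  rw [map_mul, map_mul, e.apply_symm_apply, map_smul, Matrix.smul_apply, Algebra.smul_def] at e1
  refine ⟨t, mul_right_cancel₀ hij (e1.symm.trans ?_)⟩
  simp [mul_apply, Matrix.single_apply, ite_and, Finset.sum_ite_eq, mul_inv_cancel_left₀ hij]

end Field

section Loc
variable {R A : Type u} [CommRing R] [Ring A] [Algebra R A] {m : ℕ}

theorem dsplit_triv [Nontrivial R] [Subsingleton A] [StarRing A] {l : A} (h : QAz R m l) :
    ASplit R A m := by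
  have := h.az.free
  have := h.az.finite
  have hm := h.finrank
  rw [Module.finrank_zero_of_subsingleton] at hm
  obtain rfl : m = 0 := (Nat.mul_eq_zero.1 hm.symm).elim id id
  exact ⟨⟨⟨⟨fun _ => 0, Subsingleton.elim _ _⟩, fun _ _ => Subsingleton.elim _ _⟩, rfl,
      fun _ _ => Subsingleton.elim _ _⟩,
    bc_of_bijective _ ⟨fun _ _ _ => Subsingleton.elim _ _, fun _ => ⟨0, Subsingleton.elim _ _⟩⟩
      fun _ => Subsingleton.elim _ _⟩

theorem dsplit_res_simple [IsLocalRing R] [Nontrivial A] (h : Az R A) :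
    IsSimpleRing (ResidueField R ⊗[R] A) := by
  have := h.free
  have := h.finite
  have : Nontrivial (ResidueField R ⊗[R] A) := by
    rw [← not_subsingleton_iff_nontrivial, IsLocalRing.subsingleton_tensorProduct]
    exact not_subsingleton A
  exact dsplit_simple (k := ResidueField R) (h.map (bc_of_isBaseChange
    (Algebra.TensorProduct.includeRight : A →ₐ[R] ResidueField R ⊗[R] A)
    (TensorProduct.isBaseChange R A (ResidueField R))))

end Loc

/-- (C) over a valuation ring. -/
theorem val_split {O K A B : Type u} [CommRing O] [IsDomain O] [ValuationRing O] [Field K]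
    [Algebra O K] [IsFractionRing O K] [Ring A] [StarRing A] [Algebra O A] [Ring B] [StarRing B]
    [Algebra K B] [StarFix K B] {j : A →+* B} {m : ℕ} {l : A} (h : QAz O m l)
    (hj : SBC (algebraMap O K) j) {v : B} (hv : v ≠ 0) (h1 : R1 v) : ASplit O A m := by
  have := h.az.free
  have := h.az.finite
  have : Nontrivial B := nontrivial_of_ne v 0 hv
  have : Nontrivial A := j.domain_nontrivial
  have := dsplit_res_simple h.az
  obtain ⟨φ, hφ⟩ := dsplit_of_r1 (h.map hj) hv h1
  obtain ⟨ψ⟩ := rep_of_fraction (O := O) (K := K) (A := A) (m := m)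
    { φ.comp j with
      commutes' := fun r => by
        change φ (j _) = _
        rw [hj.alg, hφ.alg]
        rfl }
  exact ⟨ψ.toRingHom, bc_of_bijective _ (rep_bijective h.finrank ψ) ψ.commutes⟩

variable {R A A1 : Type u} [CommRing R] [IsLocalRing R] [Ring A] [StarRing A] [Algebra R A]
  {m : ℕ} {l : A} {P : R[X]} [Ring A1] [StarRing A1] [Algebra (AdjoinRoot P) A1] {j : A →+* A1}

/-- (C), descent along an extension of degree `1 mod m`. -/
theorem desc_split (h : QAz R m l) (hP : P.Monic) {k : ℕ} (hd : P.natDegree = m * k + 1)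
    (hj : BC (AdjoinRoot.of P) j) (hs : ASplit (AdjoinRoot P) A1 m) : ASplit R A m := by
  cases subsingleton_or_nontrivial A with
  | inl _ => exact dsplit_triv h
  | inr _ =>
    have := h.az.free
    have := h.az.finite
    have := dsplit_res_simple h.az
    have := Module.Free.of_basis (AdjoinRoot.powerBasis' hP).basis
    have := (AdjoinRoot.powerBasis' hP).finite
    obtain ⟨φ, hφ⟩ := hs
    obtain ⟨e⟩ := split_descent (S := AdjoinRoot P) (k := k) h.finrank
      ((AdjoinRoot.powerBasis' hP).finrank.trans hd)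
      { φ.comp j with
        commutes' := fun r => by
          change φ (j _) = _
          rw [hj.alg, hφ.alg]
          rfl }
    exact ⟨e.toRingEquiv.toRingHom, bc_of_bijective _ e.bijective e.commutes⟩

/-- (A), descent along an extension of odd degree. -/
theorem desc_formIso [StarFix (AdjoinRoot P) A1] (h : QAz R m l) (hP : P.Monic)
    (hd : Odd P.natDegree) (hj : SBC (AdjoinRoot.of P) j) {th : A} (hth : IsUnit (th + star th))
    (hs : FormIso (j l) (j th)) : FormIso l th := by
  have := h.az.free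
  have := h.az.finite
  obtain ⟨k, hk⟩ := hd
  obtain ⟨D, _, _, ρ, hρ⟩ := exists_bc (A := A) (residue R)
  have := hρ.finite'
  have := (h.az.map hρ).isSemisimpleRing
  let pb : Basis (Fin (2 * k + 1)) R (AdjoinRoot P) :=
    (AdjoinRoot.powerBasis' hP).basis.reindex (finCongr hk)
  have hpb : ∀ i, pb i = AdjoinRoot.root P ^ (i : ℕ) := fun i => by
    rw [Basis.reindex_apply, PowerBasis.basis_eq_pow]
    rfl
  let t : A1 := algebraMap (AdjoinRoot P) A1 (AdjoinRoot.root P)
  have ht : star t = t := StarFix.fix _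
  have htc : ∀ x, t * x = x * t := fun x => Algebra.commutes _ x
  have hsm : ∀ (i : Fin (2 * k + 1)) (y : A1), t ^ (i : ℕ) * y = pb i • y := fun i y => by
    rw [hpb, Algebra.smul_def, map_pow]
  have hex : ∀ x, ∃ c : Fin (2 * k + 1) → A,
      x = ∑ i : Fin (2 * k + 1), t ^ (i : ℕ) * j (c i) := fun x => by
    refine hj.toBC.induction (p := fun x => ∃ c : Fin (2 * k + 1) → A,
      x = ∑ i : Fin (2 * k + 1), t ^ (i : ℕ) * j (c i)) ⟨0, by simp⟩
      (fun s a => ⟨fun i => pb.repr s i • a, ?_⟩) ?_ x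
    · nth_rw 1 [← pb.sum_repr s]
      rw [Finset.sum_smul]
      refine Finset.sum_congr rfl fun i _ => ?_
      rw [hsm, hj.toBC.smul, smul_smul, Algebra.smul_def (pb.repr s i), mul_comm]
      rfl
    · rintro _ _ ⟨c, rfl⟩ ⟨d, rfl⟩
      exact ⟨c + d, by simp only [Pi.add_apply, map_add, mul_add, Finset.sum_add_distrib]⟩
  have hun : ∀ c : Fin (2 * k + 1) → A,
      ∑ i : Fin (2 * k + 1), t ^ (i : ℕ) * j (c i) = 0 → c = 0 := fun c hc => by
    let b := Module.Free.chooseBasis R A
    obtain ⟨b', -, hb⟩ := hj.toBC.exists_basis b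
    funext i
    refine b.repr.map_eq_zero_iff.1 (Finsupp.ext fun n => ?_)
    refine Fintype.linearIndependent_iff.1 pb.linearIndependent (fun i => b.repr (c i) n) ?_ i
    have e := congrArg (fun y => b'.repr y n) hc
    simp only [hsm, map_sum, map_smul, map_zero, Finsupp.finsetSum_apply, Finsupp.smul_apply,
      smul_eq_mul, hb, Finsupp.zero_apply] at e
    rw [← e]
    refine Finset.sum_congr rfl fun i _ => ?_
    rw [Algebra.smul_def, mul_comm]
    rfl
  obtain ⟨x, hx⟩ := hs
  exact odd_descent (κ := ResidueField R) ρ (hρ.surjective residue_surjective)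
    (fun _ => hρ.isUnit_of_map) (FP.alt A) (FP.alt A1) j hj.map_star t ht htc k hex hun
    (fun c hc => coord_alt j hj.map_star t ht htc hun hex c hc _)
    (h.add_star ▸ isUnit_one) hth hx

/-- A split algebra over a local ring has a split quadratic pair. -/
theorem ASplit.isSplit (h : QAz R m l) (hs : ASplit R A m) : IsSplit R m l := by
  obtain ⟨φ, hφ⟩ := hs
  have := h.starFix
  have hl := h.add_star
  let e : A ≃+* Matrix (Fin m) (Fin m) R := RingEquiv.ofBijective φ
    ⟨hφ.injective Function.injective_id, hφ.surjective Function.surjective_id⟩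
  have he : ∀ a, e.symm (φ a) = a := e.symm_apply_apply
  obtain ⟨B, hB, hg⟩ := dsplit_inner (S := R) (n := Fin m)
    { toFun := fun X => (φ (star (e.symm X)))ᵀ
      map_one' := by simp
      map_mul' := fun X Y => by rw [map_mul, star_mul, map_mul, transpose_mul]
      map_zero' := by simp
      map_add' := fun X Y => by rw [map_add, star_add, map_add, transpose_add]
      commutes' := fun r => by
        have e1 : algebraMap R (Matrix (Fin m) (Fin m) R) r = φ (algebraMap R A r) :=
          (hφ.alg r).symm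
        rw [e1, he, StarFix.fix, ← e1, Algebra.algebraMap_eq_smul_one, transpose_smul,
          transpose_one] }
  have hadj : ∀ a, B * φ (star a) = (φ a)ᵀ * B := fun a => by
    have e1 := hg (φ (star a))
    change (φ (star (e.symm _)))ᵀ * B = _ at e1
    rw [← e1, he, star_star]
  have hsym : Bᵀ = B := by
    obtain ⟨S, _, f, φ', Q, hf, hq⟩ := h
    have hbc : BC f ((f.mapMatrix : _ →+* Matrix (Fin m) (Fin m) S).comp φ) :=
      hφ.comp (bc_mapMatrix f (Fin m))
    obtain ⟨κ, hκ, hκa⟩ := hbc.lift (g := RingHom.id S) φ' hq.alg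
    let α : Matrix (Fin m) (Fin m) S →ₐ[S] Matrix (Fin m) (Fin m) S := { κ with commutes' := hκa }
    have hα : ∀ a, α ((φ a).map f) = φ' a := fun a => RingHom.congr_fun hκ a
    have h1 : IsUnit (B.map f).det := by
      have e1 := hB.map f
      rwa [RingHom.map_det] at e1
    have k1 : ∀ X, (Q + Qᵀ) * α ((B.map f)⁻¹ * (Xᵀ * B.map f)) = (α X)ᵀ * (Q + Qᵀ) := fun X => by
      refine hbc.induction
        (p := fun X => (Q + Qᵀ) * α ((B.map f)⁻¹ * (Xᵀ * B.map f)) = (α X)ᵀ * (Q + Qᵀ)) (by simp)
        (fun t a => ?_) (fun X Y hX hY => ?_) X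
      · have e1 : ((φ a).map f)ᵀ * B.map f = B.map f * (φ (star a)).map f := by
          rw [← Matrix.map_mul, hadj, Matrix.map_mul, transpose_map]
        change (Q + Qᵀ) * α (_ * ((t • (φ a).map f)ᵀ * _)) = (α (t • (φ a).map f))ᵀ * _
        rw [transpose_smul, Matrix.smul_mul, Matrix.mul_smul, e1, ← mul_assoc,
          nonsing_inv_mul _ h1, one_mul, map_smul, map_smul, hα, hα, Matrix.mul_smul, hq.adj,
          transpose_smul, Matrix.smul_mul]
      · rw [transpose_add X, add_mul Xᵀ, mul_add (B.map f)⁻¹, map_add α, mul_add (Q + Qᵀ), hX, hY,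
          map_add α, transpose_add (α X), add_mul (α X)ᵀ]
    have k2 := dsplit_symm α h1 hq.unit (by rw [transpose_add, transpose_transpose, add_comm])
      fun X Y hXY => by rw [← k1, ← hXY, ← mul_assoc, nonsing_inv_mul _ h1, one_mul]
    ext a b
    exact ff_injective hf (congrFun (congrFun k2 a) b)
  have hQ : B * φ l + (B * φ l)ᵀ = B := by
    rw [transpose_mul, hsym, ← hadj, ← mul_add, ← map_add, hl, map_one, mul_one]
  exact ⟨φ, B * φ l, hφ, by rwa [hQ], by rw [hQ]; exact hadj, by rw [hQ]⟩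

/-- Wedderburn. -/
theorem isSplit_of_finite {k D : Type u} [Field k] [Finite k] [Ring D] [StarRing D] [Algebra k D]
    {l : D} (h : QAz k m l) : IsSplit k m l := by
  refine ASplit.isSplit h ?_
  cases subsingleton_or_nontrivial D with
  | inl _ => exact dsplit_triv h
  | inr _ =>
    refine dsplit_field h.az h.finrank fun n _ E _ _ _ e z => ?_
    have : Finite E := Module.finite_of_finite k
    obtain ⟨t, ht⟩ := h.az.cen (z := e.symm (Matrix.scalar (Fin n) z)) fun a => e.injective (by
      rw [map_mul, map_mul, e.apply_symm_apply]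
      exact (Matrix.scalar_commute z (fun r => (Finite.isDomain_to_isField E).mul_comm z r) _).eq)
    have e1 := congrFun (congrFun (congrArg e ht) 0) 0
    rw [e.apply_symm_apply, e.commutes, Matrix.algebraMap_matrix_apply, if_pos rfl] at e1
    exact ⟨t, e1.symm.trans (by simp)⟩

end Pool.Agent.GSD
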