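import Pool.Agent.P.MP_c1f06d_ag.d.DCore0
import Pool.Agent.P.MP_c1f06d_ag.d.DOri
import Pool.Agent.P.MP_c1f06d_ag.d.DSplit

open Matrix Module Polynomial Pool.Agent.SU SAlg IsLocalRing Pool.Agent.P.MP_c1f06d_ag

universe u

namespace Pool.Agent.GSD

variable {N m : ℕ}

theorem FormIso.map {A B : Type u} [Ring A] [StarRing A] [Ring B] [StarRing B] (f : A →+* B)
    (hf : ∀ a, f (star a) = star (f a)) {l x : A} (h : FormIso l x) : FormIso (f l) (f x) := by
  obtain ⟨y, hy⟩ := h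
  have := hy.map f hf
  rw [map_sub, map_mul, map_mul, hf] at this
  exact ⟨_, this⟩

theorem FormIso.trans {A : Type u} [Ring A] [StarRing A] {a b c : A} (h : FormIso a b)
    (h' : FormIso b c) : FormIso a c := by
  obtain ⟨z, hz⟩ := h
  obtain ⟨y, hy⟩ := h'
  exact ⟨z * y, ((hz.conj y).add hy).of_eq (by rw [star_mul]; noncomm_ring)⟩

theorem dcorea_spread {B O : Type u} [CommRing B] [CommRing O] {ρ : B →+* O} (h : LocPres ρ 0)
    (A : SAlg B N) (l x : A.Car) (H : FormIso (A.bc ρ l) (A.bc ρ x)) :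
    ∃ (B' : Type u) (_ : CommRing B') (j : B →+* B') (ρ' : B' →+* O), Nb ρ j ρ' ∧
      FormIso (A.bc j l) (A.bc j x) := by
  obtain ⟨y, z, H⟩ := H
  obtain ⟨B1, _, j1, ρ1, n1, w, hw⟩ := spr_lift h A ![y, z]
  obtain rfl := n1.comp
  obtain rfl : (A.map j1).bc ρ1 (w 0) = y := Car.ext (hw 0)
  obtain rfl : (A.map j1).bc ρ1 (w 1) = z := Car.ext (hw 1)
  obtain ⟨B2, _, j2, ρ2, n2, e⟩ := spr_eq n1.lp (A.map j1)
    (fun _ : Unit => star (w 0) * A.bc j1 l * w 0 - A.bc j1 x) (fun _ => w 1 - star (w 1))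
    fun _ => by simp only [map_sub, map_mul, bc_star]; exact H
  have := e ()
  simp only [map_sub, map_mul, bc_star] at this
  exact ⟨B2, inferInstance, _, ρ2, n1.trans n2, _, _, this⟩

theorem sysA (hm : 0 < m) : Sys.{u} (N := N) 2 (fun T _ _ l => QAz T m l)
    (fun _ _ _ _ x _ => IsUnit (x + star x)) (fun _ _ _ l x _ => FormIso l x)
    (fun _ _ _ l x _ => FormIso l x) (fun _ _ _ l x _ => FormIso l x) where
  pos := two_pos
  qn _ _ _ _ h := h.qn hm
  gd_bc _ _ _ _ f A _ h := h.map (sbc_bc A f)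
  ad_bc _ _ _ _ f A _ x _ h := by
    have := h.map (A.bc f)
    rwa [map_add, bc_star] at this
  p0_bc _ _ _ _ f A _ _ _ h := h.map _ (bc_star f)
  p2_bc _ _ _ _ f A _ _ _ _ h := h.map _ (bc_star f)
  ad_iso _ _ _ _ Φ _ _ x _ _ h := by
    have := h.map Φ.e.symm
    rwa [← Φ.st, ← map_add, AlgEquiv.symm_apply_apply] at this
  p0_iso _ _ _ _ Φ l1 l2 x _ hl h := by
    obtain ⟨y, hy⟩ := h
    have : FormIso (Φ.e l1) (Φ.e x) := ⟨y, ((hl.conj y).add hy).of_eq (by noncomm_ring)⟩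
    have := this.map Φ.e.symm.toRingEquiv.toRingHom Φ.symm.st
    simpa using this
  ad_spread B O _ _ ρ h A _ x _ _ H := by
    obtain ⟨v, hv⟩ := H.exists_right_inv
    obtain ⟨B1, _, j1, ρ1, n1, w, hw⟩ := spr_lift h A fun _ : Unit => v
    obtain rfl := n1.comp
    obtain rfl : (A.map j1).bc ρ1 (w ()) = v := Car.ext (hw ())
    obtain ⟨B2, _, j2, ρ2, n2, e⟩ := spr_eq n1.lp (A.map j1)
      (fun _ : Unit => (A.bc j1 x + star (A.bc j1 x)) * w ()) (fun _ => 1)
      fun _ => by simp only [map_add, map_mul, bc_star, map_one]; exact hv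
    have := e ()
    simp only [map_add, map_mul, bc_star, map_one] at this
    exact ⟨B2, inferInstance, _, ρ2, n1.trans n2, isUnit_of_mul_eq_one this⟩
  p0_spread _ _ _ _ _ h A l x _ _ H := dcorea_spread h A l x H
  p2_spread _ _ _ _ _ h A l x _ _ H := dcorea_spread h A l x H
  near T R _ _ _ _ i σ hi A l x1 x2 _ _ _ h1 _ e _ := by
    obtain ⟨T', _, f, σ', hf, hc, y, -, hy⟩ := exists_etale_form σ
      (fun r => ⟨i r, RingHom.congr_fun hi r⟩) h1 e.symm
    refine ⟨T', inferInstance, f, σ', hf, hc, fun S _ χ ⟨z, hz⟩ => ?_⟩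
    have := hy.map (((A.map i).map f).bc χ) (bc_star χ)
    rw [map_sub, map_mul, map_mul, bc_star] at this
    obtain ⟨y', hy'⟩ : ∃ y' : ((A.map i).map (χ.comp f)).Car, Alt (star y' *
      (A.map i).bc (χ.comp f) x2 * y' - (A.map i).bc (χ.comp f) x1) := ⟨_, this⟩
    exact FormIso.trans ⟨z, hz⟩ ⟨y', hy'⟩
  val _ K _ _ _ _ _ _ _ A _ _ _ h h1 H := val_formIso h (sbc_bc A _) h1 H
  desc _ _ _ _ A _ _ _ h h1 P k hP hk H := desc_formIso h hP ⟨k, hk⟩ (sbc_bc A _) h1 H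
  fin _ _ _ _ A _ _ _ h h1 := ⟨2, two_pos, fun P k hP _ hk H =>
    desc_formIso h hP ⟨k + 1, hk⟩ (sbc_bc A _) h1 H⟩

/-- The algebra has a representation of degree `m` over its base ring. -/
def HasRep (m : ℕ) {T : Type u} [CommRing T] (A : SAlg T N) : Prop :=
  ∃ r : Rep m A T, r.f = RingHom.id T

section
variable {T T' : Type u} [CommRing T] [CommRing T'] {A : SAlg T N}

theorem HasRep.map (h : HasRep m A) (f : T →+* T') : HasRep m (A.map f) :=
  let ⟨r, hr⟩ := h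
  ⟨(r.post f).lift f (RingHom.id _) (by change _ = f.comp r.f; rw [hr]; rfl), rfl⟩

theorem HasRep.algHom [Algebra T T'] (h : HasRep m (A.map (algebraMap T T'))) :
    Nonempty (A.Car →ₐ[T] Matrix (Fin m) (Fin m) T') :=
  let ⟨r, hr⟩ := h
  ⟨{ r.φ.comp (A.bc _) with
    commutes' := fun t => by
      change r.φ (A.bc _ _) = _
      rw [bc_algebraMap, r.map_algebraMap, hr, Algebra.algebraMap_eq_smul_one (A := Matrix _ _ _),
        RingHom.id_apply, algebraMap_smul] }⟩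

theorem hasRep_of_algHom (φ : A.Car →ₐ[T] Matrix (Fin m) (Fin m) T) : HasRep m A :=
  ⟨⟨RingHom.id T, φ, map_smul φ⟩, rfl⟩

end

theorem dcorec_spread {B O : Type u} [CommRing B] [CommRing O] {ρ : B →+* O} (h : LocPres ρ 0)
    (A : SAlg B N) (H : HasRep m (A.map ρ)) :
    ∃ (B' : Type u) (_ : CommRing B') (j : B →+* B') (ρ' : B' →+* O), Nb ρ j ρ' ∧
      HasRep m (A.map j) := by
  obtain ⟨r, hr⟩ := H
  obtain ⟨B1, _, j1, ρ1, n1, y, hy⟩ := exists_nb_lift h
    fun p : Fin N × Fin m × Fin m => r.φ ((A.map ρ).e p.1) p.2.1 p.2.2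
  obtain rfl := n1.comp
  obtain ⟨E, hE⟩ : ∃ E : Fin N → Matrix (Fin m) (Fin m) B1, ∀ i, (E i).map ρ1 = r.φ (SAlg.e _ i) :=
    ⟨fun i => of fun a b => y (i, a, b), fun i => Matrix.ext fun a b => hy (i, a, b)⟩
  have h1 := r.basis_one
  have h2 := r.basis_mul
  simp only [hr, ← hE] at h1 h2
  obtain ⟨B2, _, j2, ρ2, n2, e⟩ := exists_nb_eq n1.lp
    (ι := Option (Fin N × Fin N) × Fin m × Fin m)
    (fun p => (p.1.elim (∑ i, j1 (A.one i) • E i) fun q => E q.1 * E q.2) p.2.1 p.2.2)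
    (fun p => (p.1.elim 1 fun q => ∑ a, j1 (A.L q.1 a q.2) • E a) p.2.1 p.2.2) (by
      rintro ⟨_ | q, a, b⟩
      · change ((∑ i, j1 (A.one i) • E i).map ρ1) a b = ((1 : Matrix _ _ B1).map ρ1) a b
        rw [spr_sum_map, Matrix.map_one _ ρ1.map_zero ρ1.map_one]
        exact congrFun (congrFun h1 a) b
      · change ((E q.1 * E q.2).map ρ1) a b = ((∑ a, j1 (A.L q.1 a q.2) • E a).map ρ1) a b
        rw [spr_sum_map, Matrix.map_mul]
        exact congrFun (congrFun (h2 q.1 q.2) a) b)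
  refine ⟨B2, inferInstance, _, ρ2, n1.trans n2,
    Rep.ofBasis _ (RingHom.id _) (fun i => (E i).map j2) ?_ fun i j => ?_, rfl⟩
  · have : (∑ i, j1 (A.one i) • E i).map j2 = (1 : Matrix _ _ B1).map j2 :=
      Matrix.ext fun a b => e (none, a, b)
    rwa [spr_sum_map, Matrix.map_one _ j2.map_zero j2.map_one] at this
  · have : (E i * E j).map j2 = (∑ a, j1 (A.L i a j) • E a).map j2 :=
      Matrix.ext fun a b => e (some (i, j), a, b)
    rwa [spr_sum_map, Matrix.map_mul] at this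

theorem dcorec_simple {R A : Type u} [CommRing R] [IsLocalRing R] [Ring A] [StarRing A]
    [Algebra R A] {l : A} (h : QAz R m l) (hm : 0 < m) :
    IsSimpleRing (TensorProduct R (ResidueField R) A) := by
  have : Nontrivial A := Module.nontrivial_of_finrank_pos (R := R) (by
    rw [h.finrank]; exact Nat.mul_pos hm hm)
  exact dsplit_res_simple h.az

theorem dcorec_desc {R : Type u} [CommRing R] [IsLocalRing R] {A : SAlg R N} {l : A.Car}
    (h : QAz R m l) (hm : 0 < m) {P : R[X]} (hP : P.Monic) {k : ℕ} (hk : P.natDegree = m * k + 1)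
    (H : HasRep m (A.map (AdjoinRoot.of P))) : HasRep m A := by
  have := dcorec_simple h hm
  have := Module.Free.of_basis (AdjoinRoot.powerBasis' hP).basis
  have := (AdjoinRoot.powerBasis' hP).finite
  obtain ⟨φ⟩ := HasRep.algHom (T' := AdjoinRoot P) H
  obtain ⟨e⟩ := split_descent h.finrank ((AdjoinRoot.powerBasis' hP).finrank.trans hk) φ
  exact hasRep_of_algHom e.toAlgHom

theorem sysC (hm : 0 < m) : Sys.{u} (N := N) m (fun T _ _ l => QAz T m l)
    (fun _ _ _ _ _ _ => True) (fun _ _ A _ _ _ => HasRep m A) (fun _ _ A _ _ _ => HasRep m A)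
    (fun _ _ A _ _ _ => HasRep m A) where
  pos := hm
  qn _ _ _ _ h := h.qn hm
  gd_bc _ _ _ _ f A _ h := h.map (sbc_bc A f)
  ad_bc _ _ _ _ _ _ _ _ _ h := h
  p0_bc _ _ _ _ f _ _ _ _ h := h.map f
  p2_bc _ _ _ _ f _ _ _ _ _ h := h.map f
  ad_iso _ _ _ _ _ _ _ _ _ _ h := h
  p0_iso _ _ _ _ Φ _ _ _ _ _ h := let ⟨r, hr⟩ := h; ⟨r.pull Φ.e.toAlgHom, hr⟩
  ad_spread B _ _ _ ρ h _ _ _ _ _ _ := ⟨B, inferInstance, _, ρ, Nb.refl h, trivial⟩
  p0_spread _ _ _ _ _ h A _ _ _ _ H := dcorec_spread h A H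
  p2_spread _ _ _ _ _ h A _ _ _ _ H := dcorec_spread h A H
  near T _ _ _ _ _ _ σ _ _ _ _ _ _ _ _ _ _ _ _ := ⟨T, inferInstance, RingHom.id T, σ,
    RingHom.Etale.of_bijective Function.bijective_id, rfl, fun _ _ _ h => h⟩
  val _ K _ _ _ _ _ _ _ A _ _ _ _ _ H :=
    let ⟨φ⟩ := H.algHom
    let ⟨ψ⟩ := rep_of_fraction φ
    hasRep_of_algHom ψ
  desc _ _ _ _ _ _ _ _ h _ _ _ hP hk H := dcorec_desc h hm hP hk H
  fin _ _ _ _ _ _ _ _ h _ := ⟨m, hm, fun _ _ hP _ hk H => dcorec_desc h hm hP hk H⟩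

variable (V C : Type u) [CommRing V] [IsDomain V] [ValuationRing V] [CommRing C] [Algebra V C]
  [Algebra.Smooth V C] (p : Ideal C) [p.IsPrime] {R : Type u} [CommRing R] [IsDomain R]
  [Algebra C R] [IsLocalization.AtPrime R p] {K : Type u} [Field K] [Algebra R K]
  [IsFractionRing R K] {A AK : Type u} [Ring A] [StarRing A] [Algebra R A] [Ring AK] [StarRing AK]
  [Algebra K AK] [StarFix K AK] {j : A →+* AK} {l : A}
include V p

theorem coreA' (h : QAz R m l) (hm : 2 ≤ m) (hj : SBC (algebraMap R K) j) {th : A}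
    (hth : IsUnit (th + star th)) (hK : FormIso (j l) (j th)) : FormIso l th := by
  have : IsLocalRing R := IsLocalization.AtPrime.isLocalRing R p
  obtain ⟨N, B, e, e', k, h1, h2, h3, h4, h5, h6⟩ := exists_core_model h hj
  have h7 := hK.map k h3.map_star
  rw [h5, h5] at h7
  have h8 := hth.map e
  rw [map_add, h1.map_star] at h8
  have := ((sysA (by omega)).main V C p R K (c := 0) h6 h8 h7).map e' h2.map_star
  rwa [h4, h4] at this

theorem coreC' (h : QAz R m l) (hm : 2 ≤ m) (hj : SBC (algebraMap R K) j) {v : AK} (hv : v ≠ 0)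
    (h1 : R1 v) : IsSplit R m l := by
  have : IsLocalRing R := IsLocalization.AtPrime.isLocalRing R p
  obtain ⟨N, B, e, e', k, k1, -, k3, -, k5, k6⟩ := exists_core_model h hj
  obtain ⟨φ, hφ⟩ := dsplit_of_r1 (k6.map (sbc_bc B (algebraMap R K)))
    ((map_ne_zero_iff k (k3.injective Function.injective_id)).2 hv) (k3.r1 h1)
  obtain ⟨r, hr⟩ := (sysC (by omega)).main V C p R K (x := 0) (c := 0) k6 trivial
    ⟨⟨RingHom.id K, φ, hφ.smul⟩, rfl⟩
  have := h.az.free
  have := h.az.finite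
  have := dcorec_simple h (by omega)
  let ψ : A →ₐ[R] Matrix (Fin m) (Fin m) R :=
    { r.φ.comp e with
      commutes' := fun t => by
        change r.φ (e _) = _
        rw [k1.alg, r.map_algebraMap, hr, Algebra.algebraMap_eq_smul_one]; rfl }
  exact ASplit.isSplit h ⟨ψ.toRingHom, bc_of_bijective _ (rep_bijective h.finrank ψ) ψ.commutes⟩

end Pool.Agent.GSD
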