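import Pool.Agent.P.MP_c1f06d_ag.QField
import Pool.Agent.P.MP_c1f06d_ag.Top

open Matrix Module Pool.Agent.P.MP_c1f06d_ag

universe u

namespace Pool.Agent.GSD

variable {F : Type u} [Field F] {m : ℕ} {Q : Matrix (Fin m) (Fin m) F}

theorem dfing_ext {A B : Matrix (Fin m) (Fin m) F} (h : ∀ x, A *ᵥ x = B *ᵥ x) : A = B := by
  apply Matrix.toLin'.injective
  apply LinearMap.ext
  intro x
  simp only [toLin'_apply, h]

theorem dfing_smul {s : F} (hs : s ≠ 0) (v : Fin m → F) : reflMat Q (s • v) = reflMat Q v := by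
  apply dfing_ext
  intro x
  rw [reflMat_mulVec, reflMat_mulVec, refl.eq_1, refl.eq_1, bv_smul_right, qv_smul, smul_smul,
    Ring.inverse_eq_inv', mul_inv]
  congr 2
  field_simp

theorem dfing_conj {a : Fin m → F} (ha : qv Q a ≠ 0) (w : Fin m → F) :
    reflMat Q (refl Q a w) = reflMat Q a * reflMat Q w * reflMat Q a := by
  have hu : IsUnit (qv Q a) := ha.isUnit
  apply dfing_ext
  intro x
  have e : bv Q x (refl Q a w) = bv Q (refl Q a x) w := by
    rw [bv_comm Q x, bv_refl_left, bv_refl_left, bv_comm Q w x, bv_comm Q w a, bv_comm Q x a]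
    ring
  rw [← mulVec_mulVec, ← mulVec_mulVec, reflMat_mulVec, reflMat_mulVec a x,
    reflMat_mulVec w, refl.eq_1 Q w, mulVec_sub, mulVec_smul, reflMat_mulVec, reflMat_mulVec,
    refl_refl hu, refl.eq_1 Q (refl Q a w), qv_refl hu, e]

/-- Two reflections in vectors of the same value give a product of two squares. -/
theorem dfing_same (hQ : Unim Q) (hm : 5 ≤ m) (N : Matrix (Fin m) (Fin m) F → Prop)
    (hmul : ∀ a b, N a → N b → N (a * b))
    (hsq : ∀ g, (∃ L : List (Fin m → F), Even L.length ∧ (∀ v ∈ L, qv Q v ≠ 0) ∧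
      g = (L.map (reflMat Q)).prod) → N (g * g))
    {w w' : Fin m → F} (hw : qv Q w ≠ 0) (h : qv Q w' = qv Q w) :
    N (reflMat Q w * reflMat Q w') := by
  obtain ⟨a, ha, hb⟩ := exists_two_refl hQ hm h hw.isUnit
  have e : refl Q (refl Q a w - w') (refl Q a w) = w' :=
    refl_sub ((qv_refl ha w).trans h.symm) hb
  generalize refl Q a w - w' = b at hb e
  have h1 := hsq (reflMat Q w * reflMat Q b) ⟨[w, b], by simp, by simp [hw, hb.ne_zero], by simp⟩
  have h2 := hsq (reflMat Q b * (reflMat Q w * (reflMat Q a * reflMat Q b)))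
    ⟨[b, w, a, b], by simp only [List.length_cons, List.length_nil]; decide,
      by simp [hw, hb.ne_zero, ha.ne_zero], by simp⟩
  have h3 := hmul _ _ h1 h2
  have hx : ∀ M, reflMat Q w * (reflMat Q w * M) = M := fun M => by
    rw [← mul_assoc, reflMat_mul_self hw.isUnit, one_mul]
  have hy : ∀ M, reflMat Q b * (reflMat Q b * M) = M := fun M => by
    rw [← mul_assoc, reflMat_mul_self hb, one_mul]
  rw [← e, dfing_conj hb.ne_zero, dfing_conj ha.ne_zero]
  simp only [mul_assoc, hx, hy] at h3 ⊢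
  exact h3

theorem dfing_repr {k : Type u} [Field k] [Finite k] {Q0 : Matrix (Fin m) (Fin m) k}
    (hQ : Unim Q0) (hm : 5 ≤ m) (c : k) : ∃ v, qv Q0 v = c := by
  obtain ⟨x, hx, hx0⟩ := exists_isotropic_of_finite Q0 (by omega)
  obtain ⟨i, hi⟩ := Function.ne_iff.1 hx
  obtain ⟨y, hy⟩ := hQ.exists_bv_one (x := x) (i := i) (Ne.isUnit hi)
  refine ⟨(c - qv Q0 y) • x + y, ?_⟩
  rw [qv_add, qv_smul, bv_smul_left, hx0, hy]
  ring

theorem dfing_odd_sum (q : ℕ) {d : ℕ} (hd : Odd d) : Odd (∑ i ∈ Finset.range d, q ^ i) := by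
  obtain ⟨e, rfl⟩ := hd
  induction e with
  | zero => simp
  | succ e ih =>
    rw [show 2 * (e + 1) + 1 = 2 * e + 1 + 1 + 1 by ring, Finset.sum_range_succ,
      Finset.sum_range_succ, add_assoc]
    refine ih.add_even ?_
    rw [show q ^ (2 * e + 1) + q ^ (2 * e + 1 + 1) = q ^ (2 * e) * (q * (q + 1)) by ring]
    exact (Nat.even_mul_succ_self q).mul_left _

theorem dfing_norm {k : Type u} [Field k] [Finite F] [Algebra k F] (ho : Odd (finrank k F))
    {c : F} (hc : c ≠ 0) : ∃ (s : F) (c0 : k), s ≠ 0 ∧ algebraMap k F c0 = s ^ 2 * c := by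
  obtain ⟨e, he⟩ := dfing_odd_sum (Nat.card k) ho
  refine ⟨c ^ e, Algebra.norm k c, pow_ne_zero _ hc, ?_⟩
  rw [FiniteField.algebraMap_norm_eq_pow_sum, he]
  ring

/-- Over an odd degree extension of finite fields, squares and constant pairs generate
(`fin_group` with `EvenRefl` unfolded). -/
theorem dfing_fin_group {k : Type u} [Field k] [Finite F] [Algebra k F] (ho : Odd (finrank k F))
    {Q0 : Matrix (Fin m) (Fin m) k} (hQ : Unim Q0) (hm : 5 ≤ m)
    (N : Matrix (Fin m) (Fin m) F → Prop) (hmul : ∀ a b, N a → N b → N (a * b))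
    (hsq : ∀ g, (∃ L : List (Fin m → F), Even L.length ∧
      (∀ v ∈ L, qv (Q0.map (algebraMap k F)) v ≠ 0) ∧
      g = (L.map (reflMat (Q0.map (algebraMap k F)))).prod) → N (g * g))
    (hc : ∀ g0, (∃ L : List (Fin m → k), Even L.length ∧ (∀ v ∈ L, qv Q0 v ≠ 0) ∧
      g0 = (L.map (reflMat Q0)).prod) → N (g0.map (algebraMap k F)))
    {g : Matrix (Fin m) (Fin m) F}
    (hg : ∃ L : List (Fin m → F), Even L.length ∧
      (∀ v ∈ L, qv (Q0.map (algebraMap k F)) v ≠ 0) ∧
      g = (L.map (reflMat (Q0.map (algebraMap k F)))).prod) : N g := by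
  have : Finite k := Finite.of_injective _ (algebraMap k F).injective
  have hQ' := hQ.map (algebraMap k F)
  have key : ∀ v, qv (Q0.map (algebraMap k F)) v ≠ 0 → ∃ (v0 : Fin m → k) (v1 : Fin m → F),
      qv Q0 v0 ≠ 0 ∧ qv (Q0.map (algebraMap k F)) v1 ≠ 0 ∧
      qv (Q0.map (algebraMap k F)) (algebraMap k F ∘ v0) = qv (Q0.map (algebraMap k F)) v1 ∧
      reflMat (Q0.map (algebraMap k F)) v = reflMat (Q0.map (algebraMap k F)) v1 := by
    intro v hv
    obtain ⟨s, c0, hs, e⟩ := dfing_norm ho hv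
    obtain ⟨v0, h0⟩ := dfing_repr hQ hm c0
    have h1 : qv (Q0.map (algebraMap k F)) (s • v) ≠ 0 := by
      rw [qv_smul]; exact mul_ne_zero (pow_ne_zero _ hs) hv
    refine ⟨v0, s • v, fun h => h1 ?_, h1, ?_, (dfing_smul hs v).symm⟩
    · rw [qv_smul, ← e, ← h0, h, map_zero]
    · rw [qv_map, h0, e, qv_smul]
  have pair : ∀ v w, qv (Q0.map (algebraMap k F)) v ≠ 0 → qv (Q0.map (algebraMap k F)) w ≠ 0 →
      N (reflMat (Q0.map (algebraMap k F)) v * reflMat (Q0.map (algebraMap k F)) w) := by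
    intro v w hv hw
    obtain ⟨v0, v1, a0, a1, a2, a3⟩ := key v hv
    obtain ⟨w0, w1, b0, b1, b2, b3⟩ := key w hw
    have h1 := dfing_same hQ' hm N hmul hsq a1 a2
    have h3 := dfing_same hQ' hm N hmul hsq (b2 ▸ b1) b2.symm
    have h2 := hc (reflMat Q0 v0 * reflMat Q0 w0) ⟨[v0, w0], by simp, by simp [a0, b0], by simp⟩
    rw [Matrix.map_mul, reflMat_map _ a0.isUnit, reflMat_map _ b0.isUnit] at h2
    have h4 := hmul _ _ h1 (hmul _ _ h2 h3)
    have hx : ∀ z M, qv (Q0.map (algebraMap k F)) z ≠ 0 →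
        reflMat (Q0.map (algebraMap k F)) z * (reflMat (Q0.map (algebraMap k F)) z * M) = M :=
      fun z M hz => by rw [← mul_assoc, reflMat_mul_self hz.isUnit, one_mul]
    rw [mul_assoc, mul_assoc, hx _ _ (a2 ▸ a1), hx _ _ (b2 ▸ b1)] at h4
    rw [a3, b3]
    exact h4
  obtain ⟨L, ⟨n, hn⟩, hL, rfl⟩ := hg
  induction n generalizing L with
  | zero =>
    rw [List.length_eq_zero_iff.1 hn]
    have h1 := hc 1 ⟨[], by simp, by simp, by simp⟩
    rwa [Matrix.map_one _ (map_zero _) (map_one _)] at h1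
  | succ n ih =>
    match L, hn, hL with
    | [], hn, _ => simp at hn
    | [_], hn, _ => simp only [List.length_singleton] at hn; omega
    | v :: w :: L, hn, hL =>
      rw [List.map_cons, List.map_cons, List.prod_cons, List.prod_cons, ← mul_assoc]
      refine hmul _ _ (pair v w (hL v (by simp)) (hL w (by simp))) (ih L ?_ fun z hz => hL z ?_)
      · simp only [List.length_cons] at hn; omega
      · simp [hz]

end Pool.Agent.GSD
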