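import Pool.Agent.P.MP_c1f06d_ag.d.DWall
import Pool.Agent.P.MP_c1f06d_ag.d.DFinG
import Pool.Agent.P.MP_c1f06d_ag.d.LiftM
import Pool.Agent.P.MP_c1f06d_ag.QField
import Pool.Agent.P.MP_c1f06d_ag.Top

open Matrix Module Pool.Agent.SU Pool.Agent.P.MP_c1f06d_ag

universe u

namespace Pool.Agent.GSD

variable {F : Type u} [Field F] {m : ℕ} {Q : Matrix (Fin m) (Fin m) F}

/-- Products of an even number of reflections. -/
def EvenRefl (Q g : Matrix (Fin m) (Fin m) F) : Prop :=
  ∃ L : List (Fin m → F), Even L.length ∧ (∀ v ∈ L, qv Q v ≠ 0) ∧ g = (L.map (reflMat Q)).prod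

theorem dfinb_ext {g h : Matrix (Fin m) (Fin m) F} (e : ∀ v, g *ᵥ v = h *ᵥ v) : g = h :=
  Matrix.toLin'.injective (LinearMap.ext fun v => by simpa only [toLin'_apply] using e v)

/-- The Eichler transformation. -/
def dfinbE (Q : Matrix (Fin m) (Fin m) F) (e u : Fin m → F) : Matrix (Fin m) (Fin m) F :=
  1 + vecMulVec u ((Q + Qᵀ) *ᵥ e) - vecMulVec e ((Q + Qᵀ) *ᵥ u) -
    qv Q u • vecMulVec e ((Q + Qᵀ) *ᵥ e)

theorem dfinbE_mulVec (e u x : Fin m → F) : dfinbE Q e u *ᵥ x =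
    x + bv Q x e • u - (bv Q x u + qv Q u * bv Q x e) • e := by
  unfold dfinbE
  rw [sub_mulVec, sub_mulVec, add_mulVec, one_mulVec, smul_mulVec, vecMulVec_mulVec,
    vecMulVec_mulVec, vecMulVec_mulVec]
  funext i
  simp only [Pi.sub_apply, Pi.add_apply, Pi.smul_apply, smul_eq_mul, MulOpposite.smul_eq_mul_unop,
    MulOpposite.unop_op, bv, dotProduct_comm ((Q + Qᵀ) *ᵥ _) x]
  ring

theorem dfinbE_add {e u w : Fin m → F} (he : qv Q e = 0) (hu : bv Q e u = 0) (hw : bv Q w e = 0) :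
    dfinbE Q e u * dfinbE Q e w = dfinbE Q e (u + w) := by
  refine dfinb_ext fun x => ?_
  rw [← mulVec_mulVec, dfinbE_mulVec, dfinbE_mulVec, dfinbE_mulVec]
  simp only [bv_sub_left, bv_add_left, bv_smul_left, bv_add_right, qv_add, bv_self, he, hu, hw,
    bv_comm Q w u]
  funext i
  simp only [Pi.sub_apply, Pi.add_apply, Pi.smul_apply, smul_eq_mul]
  ring

theorem dfinbE_zero (e : Fin m → F) : dfinbE Q e 0 = 1 := by
  refine dfinb_ext fun x => ?_
  rw [dfinbE_mulVec, one_mulVec, bv_zero_right, qv_zero]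
  simp

theorem dfinbE_refl {e u : Fin m → F} (he : qv Q e = 0) (hu : bv Q e u = 0) (hq : qv Q u ≠ 0) :
    qv Q (u - qv Q u • e) = qv Q u ∧
      dfinbE Q e u = reflMat Q (u - qv Q u • e) * reflMat Q u := by
  have h1 : qv Q (u - qv Q u • e) = qv Q u := by
    rw [qv_sub, qv_smul, bv_smul_right, bv_comm Q u e, he, hu]; ring
  refine ⟨h1, dfinb_ext fun x => ?_⟩
  rw [← mulVec_mulVec, dfinbE_mulVec, reflMat_mulVec, reflMat_mulVec]
  unfold P.MP_c1f06d_ag.refl
  rw [h1, Ring.inverse_eq_inv']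
  simp only [bv_sub_left, bv_sub_right, bv_smul_left, bv_smul_right, bv_self, bv_comm Q u e, hu]
  funext i
  simp only [Pi.sub_apply, Pi.add_apply, Pi.smul_apply, smul_eq_mul]
  field_simp
  ring

theorem dfinbE_list (hQ : Unim Q) (hm : 5 ≤ m) {e u : Fin m → F} (he : qv Q e = 0)
    (hu : bv Q e u = 0) (hq : qv Q u = 0) : ∃ L : List (Fin m → F), L.length = 4 ∧
      (∀ v ∈ L, qv Q v ≠ 0) ∧ dfinbE Q e u = (L.map (reflMat Q)).prod := by
  obtain ⟨w, h1, h2, h3⟩ := exists_qv_ne_zero_perp hQ hm e u 0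
  rw [zero_add] at h3
  have h4 : qv Q (u - w) ≠ 0 := by rwa [qv_sub, hq, bv_comm Q u w, h2, zero_add, sub_zero]
  have h5 : bv Q e w = 0 := by rw [bv_comm, h1]
  have h6 : bv Q e (u - w) = 0 := by rw [bv_sub_right, hu, h5, sub_zero]
  obtain ⟨a1, a2⟩ := dfinbE_refl he h6 h4
  obtain ⟨b1, b2⟩ := dfinbE_refl he h5 h3
  refine ⟨[u - w - qv Q (u - w) • e, u - w, w - qv Q w • e, w], rfl, ?_, ?_⟩
  · intro v hv
    simp only [List.mem_cons, List.not_mem_nil, or_false] at hv
    rcases hv with rfl | rfl | rfl | rfl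
    exacts [a1.trans_ne h4, h4, b1.trans_ne h3, h3]
  · have e1 := dfinbE_add he h6 h1
    rw [sub_add_cancel, a2, b2] at e1
    simp only [← e1, List.map_cons, List.map_nil, List.prod_cons, List.prod_nil, Matrix.mul_one,
      Matrix.mul_assoc]

section Ind
variable {U : Type*} [AddCommGroup U] [Module F U] [Module.Finite F U]

theorem dfinb_finrank (W : Submodule F U) (p : U →ₗ[F] F) {x : U} (hx : x ∈ W) (hp : p x ≠ 0) :
    finrank F (W ⊓ LinearMap.ker p : Submodule F U) + 1 = finrank F W := by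
  have h1 := LinearMap.finrank_range_add_finrank_ker (p.domRestrict W)
  have h2 : LinearMap.range (p.domRestrict W) = ⊤ := by
    rw [eq_top_iff]
    intro t _
    refine ⟨(t / p x) • ⟨x, hx⟩, ?_⟩
    rw [map_smul, LinearMap.domRestrict_apply, smul_eq_mul, div_mul_cancel₀ _ hp]
  rw [h2, finrank_top, finrank_self, LinearMap.ker_domRestrict,
    ← Submodule.finrank_map_subtype_eq, Submodule.map_comap_subtype] at h1
  omega

/-- `g` is the isometry of the Wall datum `(W, C, Y)`. -/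
def dfinbWal (Q : Matrix (Fin m) (Fin m) F) (C : U →ₗ[F] Fin m → F) (Y : U →ₗ[F] U →ₗ[F] F)
    (W : Submodule F U) (g : Matrix (Fin m) (Fin m) F) : Prop :=
  ∀ v, ∃ x ∈ W, (∀ y ∈ W, Y y x = bv Q (C y) v) ∧ g *ᵥ v = v - C x

theorem dfinb_ind (hQ : Unim Q) (hm : 5 ≤ m) (C : U →ₗ[F] Fin m → F) (Y : U →ₗ[F] U →ₗ[F] F)
    (hY : ∀ x, Y x x = qv Q (C x)) (N : ℕ) : ∀ (W : Submodule F U) (g : Matrix (Fin m) (Fin m) F),
      finrank F W = N → (∀ x ∈ W, (∀ y ∈ W, Y x y = 0) → x = 0) → dfinbWal Q C Y W g →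
      ∃ L : List (Fin m → F), Even (L.length + N) ∧ (∀ v ∈ L, qv Q v ≠ 0) ∧
        g = (L.map (reflMat Q)).prod := by
  have pol : ∀ x y, Y x y + Y y x = bv Q (C x) (C y) := fun x y => by
    have e := hY (x + y)
    rw [map_add C, qv_add, ← hY, ← hY] at e
    simp only [map_add, LinearMap.add_apply] at e
    linear_combination e
  induction N using Nat.strong_induction_on with
  | _ N ih =>
  intro W g hN hnd hg
  by_cases h0 : ∃ x ∈ W, Y x x ≠ 0
  · obtain ⟨x0, hx0, ha⟩ := h0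
    have hc : qv Q (C x0) ≠ 0 := hY x0 ▸ ha
    have hr := dfinb_finrank W (Y.flip x0) hx0 ha
    have dec : ∀ x ∈ W, x - (Y x x0 / Y x0 x0) • x0 ∈ W ⊓ LinearMap.ker (Y.flip x0) :=
      fun x hx => ⟨W.sub_mem hx (W.smul_mem _ hx0), by
        change Y (x - _) x0 = 0
        rw [map_sub, map_smul, LinearMap.sub_apply, LinearMap.smul_apply, smul_eq_mul,
          div_mul_cancel₀ _ ha, sub_self]⟩
    obtain ⟨L, h1, h2, h3⟩ := ih _ (by omega) (W ⊓ LinearMap.ker (Y.flip x0))
      (reflMat Q (C x0) * g) rfl (fun x hx h => hnd x hx.1 fun y hy => by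
        have e := h _ (dec y hy)
        have e2 : Y x x0 = 0 := hx.2
        rwa [map_sub, map_smul, e2, smul_zero, sub_zero] at e) (fun v => by
        obtain ⟨x, hx, e1, e2⟩ := hg v
        refine ⟨_, dec x hx, fun y hy => ?_, ?_⟩
        · have e3 : Y y x0 = 0 := hy.2
          rw [map_sub, map_smul, e3, smul_zero, sub_zero, e1 y hy.1]
        · have e4 := pol x x0
          rw [← mulVec_mulVec, e2, reflMat_mulVec, P.MP_c1f06d_ag.refl, Ring.inverse_eq_inv',
            bv_sub_left, bv_comm Q v, ← e1 x0 hx0, ← e4, ← hY, map_sub, map_smul]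
          funext i
          simp only [Pi.sub_apply, Pi.smul_apply, smul_eq_mul]
          ring)
    refine ⟨C x0 :: L, ?_, ?_, ?_⟩
    · rw [List.length_cons, ← hN, ← hr]
      obtain ⟨k, hk⟩ := h1
      exact ⟨k + 1, by omega⟩
    · intro v hv
      rcases List.mem_cons.1 hv with rfl | hv
      exacts [hc, h2 v hv]
    · rw [List.map_cons, List.prod_cons, ← h3, ← Matrix.mul_assoc, reflMat_mul_self hc.isUnit,
        Matrix.one_mul]
  push Not at h0
  have alt : ∀ x ∈ W, ∀ y ∈ W, Y y x = -Y x y := fun x hx y hy => by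
    have e := h0 _ (W.add_mem hx hy)
    simp only [map_add, LinearMap.add_apply, h0 x hx, h0 y hy] at e
    linear_combination e
  have hb : ∀ x ∈ W, ∀ y ∈ W, bv Q (C x) (C y) = 0 := fun x hx y hy => by
    rw [← pol, alt x hx y hy, add_neg_cancel]
  by_cases hW : W = ⊥
  · refine ⟨[], ?_, by simp, dfinb_ext fun v => ?_⟩
    · rw [← hN, hW]; simp
    · obtain ⟨x, hx, -, e2⟩ := hg v
      rw [hW, Submodule.mem_bot] at hx
      rw [e2, hx]; simp
  obtain ⟨x1, hx1, hne⟩ := W.exists_mem_ne_zero_of_ne_bot hW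
  obtain ⟨x2, hx2, h12⟩ : ∃ x2 ∈ W, Y x1 x2 = 1 := by
    have := mt (hnd x1 hx1) hne
    push Not at this
    obtain ⟨y, hy, e⟩ := this
    exact ⟨(Y x1 y)⁻¹ • y, W.smul_mem _ hy, by rw [map_smul, smul_eq_mul, inv_mul_cancel₀ e]⟩
  have h21 : Y x2 x1 = -1 := by rw [alt x1 hx1 x2 hx2, h12]
  have hr1 := dfinb_finrank W (Y.flip x2) hx1 (by change Y x1 x2 ≠ 0; rw [h12]; exact one_ne_zero)
  have hr2 := dfinb_finrank (W ⊓ LinearMap.ker (Y.flip x2)) (Y.flip x1) (x := x2)
    ⟨hx2, h0 x2 hx2⟩ (by change Y x2 x1 ≠ 0; rw [h21]; exact neg_ne_zero.2 one_ne_zero)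
  have dec : ∀ x ∈ W, x - Y x x2 • x1 + Y x x1 • x2 ∈
      W ⊓ LinearMap.ker (Y.flip x2) ⊓ LinearMap.ker (Y.flip x1) := fun x hx =>
    ⟨⟨W.add_mem (W.sub_mem hx (W.smul_mem _ hx1)) (W.smul_mem _ hx2), by
      change Y (x - _ + _) x2 = 0
      simp only [map_add, map_sub, map_smul, LinearMap.add_apply, LinearMap.sub_apply,
        LinearMap.smul_apply, smul_eq_mul, h12, h0 x2 hx2]
      ring⟩, by
      change Y (x - _ + _) x1 = 0
      simp only [map_add, map_sub, map_smul, LinearMap.add_apply, LinearMap.sub_apply,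
        LinearMap.smul_apply, smul_eq_mul, h21, h0 x1 hx1]
      ring⟩
  have q1 : qv Q (C x1) = 0 := hY x1 ▸ h0 x1 hx1
  have q2 : qv Q (C x2) = 0 := hY x2 ▸ h0 x2 hx2
  have b12 := hb x1 hx1 x2 hx2
  obtain ⟨L, h1, h2, h3⟩ := ih _ (by omega)
    (W ⊓ LinearMap.ker (Y.flip x2) ⊓ LinearMap.ker (Y.flip x1))
    (dfinbE Q (C x1) (C x2) * g) rfl (fun x hx h => hnd x hx.1.1 fun y hy => by
      have e := h _ (dec y hy)
      have e2 : Y x x2 = 0 := hx.1.2
      have e3 : Y x x1 = 0 := hx.2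
      rwa [map_add, map_sub, map_smul, map_smul, e2, e3, smul_zero, smul_zero, sub_zero,
        add_zero] at e) (fun v => by
      obtain ⟨x, hx, e1, e2⟩ := hg v
      refine ⟨_, dec x hx, fun y hy => ?_, ?_⟩
      · have e3 : Y y x2 = 0 := hy.1.2
        have e4 : Y y x1 = 0 := hy.2
        rw [map_add, map_sub, map_smul, map_smul, e3, e4, smul_zero, smul_zero, sub_zero, add_zero,
          e1 y hy.1.1]
      · rw [← mulVec_mulVec, e2, dfinbE_mulVec, bv_sub_left, bv_sub_left, hb x hx x1 hx1,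
          hb x hx x2 hx2, bv_comm Q v, bv_comm Q v, ← e1 x1 hx1, ← e1 x2 hx2, q2,
          alt x hx x1 hx1, alt x hx x2 hx2, map_add, map_sub, map_smul, map_smul]
        funext i
        simp only [Pi.sub_apply, Pi.add_apply, Pi.smul_apply, smul_eq_mul]
        ring)
  have b3 : bv Q (C x1) (-C x2) = 0 := by rw [bv_neg_right, b12, neg_zero]
  obtain ⟨L0, l1, l2, l3⟩ := dfinbE_list hQ hm q1 b3 (by rw [qv_neg, q2])
  refine ⟨L0 ++ L, ?_, ?_, ?_⟩
  · rw [List.length_append, l1, ← hN, ← hr1, ← hr2]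
    obtain ⟨k, hk⟩ := h1
    exact ⟨k + 3, by omega⟩
  · intro v hv
    rcases List.mem_append.1 hv with hv | hv
    exacts [l2 v hv, h2 v hv]
  · rw [List.map_append, List.prod_append, ← l3, ← h3, ← Matrix.mul_assoc,
      dfinbE_add q1 b3 (by rw [bv_comm, b12]), neg_add_cancel, dfinbE_zero, Matrix.one_mul]

end Ind

/-- The isometry of a Wall datum of even size is a product of an even number of reflections. -/
theorem evenRefl_of_wall (hQ : Unim Q) (hm : 5 ≤ m) {n : Type} [Fintype n] [DecidableEq n]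
    (hn : Even (Fintype.card n)) (C : Matrix (Fin m) n F) {Y Z : Matrix n n F} (hYZ : Y * Z = 1)
    (ha : IsAltM (Y - Cᵀ * Q * C)) : EvenRefl Q (1 - C * Z * Cᵀ * (Q + Qᵀ)) := by
  obtain ⟨X, hX⟩ := ha
  have ct : ∀ (x : n → F) (w : Fin m → F), x ⬝ᵥ Cᵀ *ᵥ w = (C *ᵥ x) ⬝ᵥ w := fun x w => by
    rw [dotProduct_mulVec, vecMul_transpose]
  obtain ⟨L, h1, h2, h3⟩ := dfinb_ind hQ hm (Matrix.toLin' C) (Matrix.toBilin' Y) (fun x => by
      rw [toBilin'_apply', toLin'_apply, sub_eq_iff_eq_add.1 hX, add_mulVec, sub_mulVec,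
        dotProduct_add, dotProduct_sub, dotProduct_mulVec x Xᵀ, vecMul_transpose,
        dotProduct_comm (X *ᵥ x), sub_self, zero_add, ← mulVec_mulVec, ← mulVec_mulVec, ct]
      rfl) _ ⊤ (1 - C * Z * Cᵀ * (Q + Qᵀ)) rfl (fun x _ h => by
      funext i
      have e := h (Z *ᵥ Pi.single i 1) trivial
      rw [toBilin'_apply', mulVec_mulVec, hYZ, one_mulVec] at e
      simpa using e) (fun v => ⟨(Z * Cᵀ * (Q + Qᵀ)) *ᵥ v, trivial, fun y _ => by
      rw [toBilin'_apply', toLin'_apply, mulVec_mulVec, ← Matrix.mul_assoc, ← Matrix.mul_assoc,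
        hYZ, Matrix.one_mul, ← mulVec_mulVec, ct]
      rfl, by
      rw [toLin'_apply, sub_mulVec, one_mulVec, mulVec_mulVec]
      simp only [Matrix.mul_assoc]⟩)
  rw [finrank_top, finrank_fintype_fun_eq_card] at h1
  exact ⟨L, (Nat.even_add.1 h1).2 hn, h2, h3⟩

section Dict
variable {D : Type u} [Ring D] [StarRing D] [Algebra F D] {l : D}

/-- A datum of size two, padded by a hyperbolic block. -/
theorem dfinb_pad [StarFix F D] {p r p' r' : D} (hp : star p = p) (hr : star r = r)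
    (a1 : p * r' = 0) (a2 : r * p' = 0) (a3 : p * p' + r * r' = 1) (b1 : p' * r = 0)
    (b2 : r' * p = 0) (b3 : p' * p + r' * r = 1) (C : Fin 2 → D) (hC : ∀ i, C i * r' = 0)
    (G M M' N : Matrix (Fin 2) (Fin 2) F) (hG : ∀ i j, star (C i) * l * C j = G i j • p)
    (hM : M * M' = 1) (hN : M - G = N - Nᵀ) :
    ∃ c, SN F l (1 - ∑ i, ∑ j, M' i j • (C i * p' * star (C j))) c := by
  have key : ∀ (x y x' y' : D) (A B A' B' : Matrix (Fin 2) (Fin 2) F), x * y' = 0 → y * x' = 0 →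
      x * x' + y * y' = 1 → A * A' = 1 → B * B' = 1 →
      (Matrix.of fun i j => A i j • x + B i j • y) * (Matrix.of fun i j => A' i j • x' + B' i j • y')
        = (1 : Matrix (Fin 2) (Fin 2) D) := by
    intro x y x' y' A B A' B' c1 c2 c3 c4 c5
    ext i j
    have e : ∀ k, (A i k • x + B i k • y) * (A' k j • x' + B' k j • y') =
        (A i k * A' k j) • (x * x') + (B i k * B' k j) • (y * y') := fun k => by
      simp only [add_mul, mul_add, smul_mul_smul_comm, c1, c2, smul_zero, add_zero, zero_add]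
    simp only [Matrix.mul_apply, of_apply, e, Finset.sum_add_distrib, ← Finset.sum_smul]
    rw [← Matrix.mul_apply, ← Matrix.mul_apply, c4, c5, ← smul_add, c3, Matrix.one_apply,
      Matrix.one_apply]
    split_ifs <;> simp
  have hs : ∀ (t : F) (x : D), star (t • x) = t • star x := fun t x => by
    rw [Algebra.smul_def, star_mul, StarFix.fix, ← Algebra.commutes, ← Algebra.smul_def]
  let J : Matrix (Fin 2) (Fin 2) F := !![0, 1; -1, 0]
  let J' : Matrix (Fin 2) (Fin 2) F := !![0, -1; 1, 0]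
  let U : Matrix (Fin 2) (Fin 2) F := !![0, 1; 0, 0]
  have j1 : J * J' = 1 := by
    ext i j; fin_cases i <;> fin_cases j <;> simp [J, J', Matrix.mul_apply, Fin.sum_univ_two]
  have j2 : ∀ i j, J i j = U i j - U j i := fun i j => by
    fin_cases i <;> fin_cases j <;> simp [J, U]
  refine ⟨_, Fin 2, inferInstance, inferInstance, C, ⟨_, _, key p r p' r' M J M' J' a1 a2 a3 hM j1,
    key p' r' p r M' J' M J b1 b2 b3 (mul_eq_one_comm.1 hM) (mul_eq_one_comm.1 j1)⟩, 1, by simp,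
    ⟨Matrix.of fun i j => N i j • p + U i j • r, ?_⟩, ?_, rfl⟩
  · ext i j
    have e : M i j - G i j = N i j - N j i := congrFun (congrFun hN i) j
    simp only [Matrix.sub_apply, of_apply, gram, hG, Matrix.star_apply, star_add, hs, hp, hr, j2]
    rw [sub_eq_iff_eq_add.1 e]
    module
  · simp only [wiso, Units.inv_mk, of_apply, mul_add, mul_smul_comm, hC, smul_zero, add_zero,
      smul_mul_assoc]

variable {φ : D →+* Matrix (Fin m) (Fin m) F}

theorem dfinb_pair (h : QSpl l (RingHom.id F) φ Q) (hm : 5 ≤ m) {v w : Fin m → F}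
    (hv : qv Q v ≠ 0) (hw : qv Q w ≠ 0) :
    ∃ g c, SN F l g c ∧ φ g = reflMat Q v * reflMat Q w := by
  have := QAz.starFix (T := F) ⟨F, _, _, φ, Q, RingHom.FaithfullyFlat.of_bijective
    Function.bijective_id, h⟩
  have hi := h.toBC.injective Function.injective_id
  obtain ⟨ψ, hψ⟩ := (h.toBC.surjective Function.surjective_id).hasRightInverse
  have hψ' : ∀ x, φ (ψ x) = x := hψ
  have hsm : ∀ (t : F) a, φ (t • a) = t • φ a := h.toBC.smul
  obtain ⟨B, hB⟩ : ∃ B, B = Q + Qᵀ := ⟨_, rfl⟩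
  have sy : Bᵀ = B := by rw [hB, transpose_add, transpose_transpose, add_comm]
  have u1 : B⁻¹ * B = 1 := nonsing_inv_mul _ (hB ▸ h.unit)
  have u2 : B * B⁻¹ = 1 := mul_nonsing_inv _ (hB ▸ h.unit)
  have st : ∀ a, φ (star a) = B⁻¹ * (φ a)ᵀ * B := fun a => by
    rw [Matrix.mul_assoc, hB, ← h.adj, ← hB, ← Matrix.mul_assoc, u1, Matrix.one_mul]
  have sy' : B⁻¹ᵀ = B⁻¹ := by rw [transpose_nonsing_inv, sy]
  let e : Fin m → F := Pi.single ⟨0, by omega⟩ 1
  have ee : e ⬝ᵥ e = 1 := by simp [e]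
  obtain ⟨E, hE⟩ : ∃ E, E = vecMulVec e e := ⟨_, rfl⟩
  have xE : ∀ x : Fin m → F, vecMulVec x e * E = vecMulVec x e := fun x => by
    rw [hE, vecMulVec_mul_vecMulVec, ee, one_smul]
  have EE : E * E = E := by have := xE e; rwa [← hE] at this
  have Et : Eᵀ = E := by rw [hE, transpose_vecMulVec]
  have c1 : ∀ X : Matrix (Fin m) (Fin m) F, B * (B⁻¹ * X) = X := fun X => by
    rw [← Matrix.mul_assoc, u2, Matrix.one_mul]
  have c2 : ∀ X : Matrix (Fin m) (Fin m) F, E * (E * X) = E * X := fun X => by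
    rw [← Matrix.mul_assoc, EE]
  obtain ⟨c, hc⟩ := dfinb_pad (F := F) (l := l) (p := ψ (B⁻¹ * E)) (r := ψ (B⁻¹ * (1 - E)))
    (p' := ψ (E * B)) (r' := ψ ((1 - E) * B))
    (hi (by rw [st, hψ', transpose_mul, Et, sy', Matrix.mul_assoc, Matrix.mul_assoc, u1,
      Matrix.mul_one]))
    (hi (by rw [st, hψ', transpose_mul, transpose_sub, transpose_one, Et, sy', Matrix.mul_assoc,
      Matrix.mul_assoc, u1, Matrix.mul_one]))
    (hi (by simp [hψ', Matrix.mul_assoc, Matrix.sub_mul, Matrix.mul_sub, c2]))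
    (hi (by simp [hψ', Matrix.mul_assoc, Matrix.sub_mul, Matrix.mul_sub, c2]))
    (hi (by simp [hψ', Matrix.mul_assoc, Matrix.sub_mul, Matrix.mul_sub, c2, u1]))
    (hi (by simp [hψ', Matrix.mul_assoc, Matrix.mul_sub, c1, EE, u2]))
    (hi (by simp [hψ', Matrix.mul_assoc, Matrix.sub_mul, c1, EE]))
    (hi (by simp [hψ', Matrix.mul_assoc, Matrix.sub_mul, Matrix.mul_sub, c1, EE, u2]))
    (fun i => ψ (vecMulVec (![v, w] i) e))
    (fun i => hi (by
      rw [map_mul, hψ', hψ', map_zero, ← Matrix.mul_assoc, Matrix.mul_sub, xE, Matrix.mul_one,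
        sub_self, Matrix.zero_mul]))
    (Matrix.of fun i j => ![v, w] i ⬝ᵥ Q *ᵥ ![v, w] j) !![qv Q v, bv Q v w; 0, qv Q w]
    !![(qv Q v)⁻¹, -(bv Q v w * (qv Q v)⁻¹ * (qv Q w)⁻¹); 0, (qv Q w)⁻¹]
    !![0, w ⬝ᵥ Q *ᵥ v; 0, 0]
    (fun i j => hi (by
      rw [map_mul, map_mul, st, hsm, hψ', hψ', hψ', Matrix.mul_assoc _ B, hB, ← h.ell, ← hB,
        transpose_vecMulVec, Matrix.mul_assoc, mul_vecMulVec Q, Matrix.mul_assoc,
        vecMulVec_mul_vecMulVec, vecMulVec_smul, ← hE, Matrix.mul_smul, of_apply]))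
    (by
      ext i j
      fin_cases i <;> fin_cases j <;> simp [Matrix.mul_apply, Fin.sum_univ_two, hv, hw]
      field_simp
      ring)
    (by
      ext i j
      fin_cases i <;> fin_cases j <;> simp [qv, bv_eq])
  refine ⟨_, c, hc, ?_⟩
  have t : ∀ x y : Fin m → F, φ (ψ (vecMulVec x e) * ψ (E * B) * star (ψ (vecMulVec y e))) =
      vecMulVec x (B *ᵥ y) := fun x y => by
    rw [map_mul, map_mul, st, hψ', hψ', hψ', ← Matrix.mul_assoc _ E, xE, Matrix.mul_assoc,
      Matrix.mul_assoc B⁻¹, c1, ← Matrix.mul_assoc, transpose_vecMulVec, vecMulVec_mul_vecMulVec,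
      ee, one_smul, vecMulVec_mul, ← mulVec_transpose, sy]
  simp only [map_sub, map_one, map_add, hsm, t, Fin.sum_univ_two]
  simp only [reflMat, ← hB, Ring.inverse_eq_inv', Matrix.sub_mul, Matrix.mul_sub, Matrix.one_mul,
    Matrix.mul_one, Matrix.smul_mul, Matrix.mul_smul, vecMulVec_mul_vecMulVec, vecMulVec_smul]
  have e3 : B *ᵥ v ⬝ᵥ w = bv Q v w := by rw [dotProduct_comm, bv_comm, hB]; rfl
  simp only [e3, of_apply, cons_val', cons_val_zero, cons_val_one, cons_val_fin_one]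
  module

/-- The dictionary for a split pair over a field. -/
theorem sn_iff_evenRefl {D : Type u} [Ring D] [StarRing D] [Algebra F D] {l : D}
    {φ : D →+* Matrix (Fin m) (Fin m) F} (h : QSpl l (RingHom.id F) φ Q) (hm : 5 ≤ m) (g : D) :
    (∃ c, SN F l g c) ↔ EvenRefl Q (φ g) := by
  have hz : QAz F m l := ⟨F, _, _, φ, Q, RingHom.FaithfullyFlat.of_bijective
    Function.bijective_id, h⟩
  constructor
  · rintro ⟨c, n, _, _, C, Y, u, hn, ⟨X, hX⟩, rfl, -⟩
    have sy : (Q + Qᵀ)ᵀ = Q + Qᵀ := by rw [transpose_add, transpose_transpose, add_comm]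
    have hW : WallM (Q + Qᵀ) (φ l) ((Y : Matrix n n D).map φ) (fun i => φ (star (C i)))
        (fun i => φ (C i)) := ⟨sy, fun i => by rw [← h.adj, star_star],
      X.map φ, (star X).map φ, fun i j => h.adj _, fun i j => by
        have e : (Y : Matrix n n D) i j - star (C i) * l * C j = X i j - star X i j :=
          congrFun (congrFun hX i) j
        simp only [Matrix.map_apply, sub_eq_iff_eq_add'.1 e, map_add, map_sub, map_mul]⟩
    have hY : (Y : Matrix n n D).map φ * ((Y⁻¹ : (Matrix n n D)ˣ) : Matrix n n D).map φ = 1 := by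
      rw [← Matrix.map_mul, Units.mul_inv, Matrix.map_one _ φ.map_zero φ.map_one]
    have e1 := hW.wallMat_eq h.unit (by rw [← h.ell]) hY
    have e2 := hW.isAltM
    rw [← h.ell] at e1 e2
    have e3 := evenRefl_of_wall (Q := Q) h.unit hm
      (card_flat_even (ρ := n) (d := m) (hn.mul_right _)) _
      (mul_nonsing_inv _ (by
        rw [det_mul, det_flatD]; exact (h.unit.pow _).mul (isUnit_det_flatM hY))) e2
    rw [wallMat, transpose_transpose, Finset.sum_comm] at e1
    rw [e1] at e3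
    simpa only [wiso, map_sub, map_one, map_sum, map_mul, Matrix.map_apply] using e3
  · rintro ⟨L, ⟨k, hk⟩, h2, h3⟩
    have hi := h.toBC.injective Function.injective_id
    induction k generalizing L g with
    | zero =>
      rw [List.length_eq_zero_iff.1 hk, List.map_nil, List.prod_nil, ← map_one φ] at h3
      exact ⟨_, hi h3 ▸ sn_one hz isUnit_one⟩
    | succ k ih =>
      match L, hk, h2, h3 with
      | v :: w :: L, hk, h2, h3 =>
        have hv := h2 v (by simp)
        have hw := h2 w (by simp)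
        obtain ⟨g1, c1, s1, e1⟩ := dfinb_pair h hm hv hw
        obtain ⟨g2, e2⟩ := h.toBC.surjective Function.surjective_id (L.map (reflMat Q)).prod
        obtain ⟨c2, s2⟩ := ih g2 L (by simp only [List.length_cons] at hk; omega)
          (fun x hx => h2 x (by simp [hx])) e2
        have e : g = g1 * g2 := hi (by
          rw [h3, map_mul, e1, e2, List.map_cons, List.map_cons, List.prod_cons, List.prod_cons,
            Matrix.mul_assoc])
        exact ⟨_, e ▸ s1.mul hz s2⟩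
      | [], hk, _, _ => simp at hk
      | [_], hk, _, _ => simp only [List.length_cons, List.length_nil] at hk; omega

end Dict

/-- Over an odd degree extension of finite fields, squares and constant pairs generate. -/
theorem fin_group {k : Type u} [Field k] [Finite F] [Algebra k F] (ho : Odd (finrank k F))
    {Q0 : Matrix (Fin m) (Fin m) k} (hQ : Unim Q0) (hm : 5 ≤ m)
    (N : Matrix (Fin m) (Fin m) F → Prop) (hmul : ∀ a b, N a → N b → N (a * b))
    (hsq : ∀ g, EvenRefl (Q0.map (algebraMap k F)) g → N (g * g))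
    (hc : ∀ g0, EvenRefl Q0 g0 → N (g0.map (algebraMap k F))) {g : Matrix (Fin m) (Fin m) F}
    (hg : EvenRefl (Q0.map (algebraMap k F)) g) : N g :=
  dfing_fin_group ho hQ hm N hmul hsq hc hg

end Pool.Agent.GSD
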