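import Pool.Agent.P.MP_c1f06d_ag.d.DFinA
import Pool.Agent.P.MP_c1f06d_ag.d.DFinB

open Matrix Module Polynomial Pool.Agent.SU IsLocalRing

universe u

namespace Pool.Agent.GSD

theorem dfinc_main {R S k F A A1 : Type u} [CommRing R] [Nontrivial R] [CommRing S] [Algebra R S]
    [Module.Free R S] [Module.Finite R S] [Field k] [Finite k] [Field F] [Finite F] [Algebra k F]
    [Ring A] [StarRing A] [Algebra R A] {m : ℕ} {l : A} [Ring A1] [StarRing A1] [Algebra S A1]
    [StarFix S A1] {j : A →+* A1} {r : R →+* k} {π : S →+* F} (hr : Function.Surjective r)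
    [IsLocalHom r] (hπ : Function.Surjective π) [IsLocalHom π]
    (hsq : π.comp (algebraMap R S) = (algebraMap k F).comp r) (ho : Odd (finrank k F))
    (ho' : Odd (finrank R S)) (h : QAz R m l) (h5 : 5 ≤ m) (hj : SBC (algebraMap R S) j)
    (hker : ∀ g c, SN S (j l) g c → g - 1 ∈ extI A1 (RingHom.ker π) → WN R l (Algebra.norm R c))
    {c : S} (hc : WN S (j l) c) : WN R l (Algebra.norm R c) := by
  have := h.starFix
  have := h.az.free
  have := h.az.finite
  have := hj.toBC.free'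
  have := hj.toBC.finite'
  have hS : QAz S m (j l) := h.map hj
  obtain ⟨Ak, _, _, _, _, jk, hjk⟩ := exists_sbc (A := A) r
  obtain ⟨AF, _, _, _, _, p, hp⟩ := exists_sbc (A := A1) π
  have hcomp := hj.comp hp
  rw [hsq] at hcomp
  obtain ⟨e, he, hes⟩ := hjk.lift hcomp
  have he' : ∀ a, e (jk a) = p (j a) := fun a => RingHom.congr_fun he a
  obtain ⟨φ0, Q0, h0⟩ := isSplit_of_finite (h.map hjk)
  have h1 := h0.post (algebraMap k F)
  rw [RingHom.comp_id] at h1
  obtain ⟨φ, hφ, h2⟩ := QSpl.lift (g := RingHom.id F) hes (by rwa [RingHom.id_comp])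
  have hφ' : ∀ a, φ (e a) = (φ0 a).map (algebraMap k F) := fun a => RingHom.congr_fun hφ a
  rw [he'] at h2
  have key : ∀ g, EvenRefl (Q0.map (algebraMap k F)) g →
      ∃ g1 c1, SN S (j l) g1 c1 ∧ φ (p g1) = g ∧ WN R l (Algebra.norm R c1) := fun g hg => by
    refine fin_group ho h0.unit h5
      (fun g => ∃ g1 c1, SN S (j l) g1 c1 ∧ φ (p g1) = g ∧ WN R l (Algebra.norm R c1))
      ?_ ?_ ?_ hg
    · rintro _ _ ⟨g1, c1, s1, rfl, w1⟩ ⟨g2, c2, s2, rfl, w2⟩
      exact ⟨g1 * g2, c1 * c2, s1.mul hS s2, by rw [map_mul, map_mul],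
        by rw [map_mul]; exact w1.mul h w2⟩
    · intro g hg
      obtain ⟨g, rfl⟩ := h2.toBC.surjective Function.surjective_id g
      obtain ⟨c', hs⟩ := (sn_iff_evenRefl h2 h5 g).2 hg
      obtain ⟨g1, c1, s1, rfl, -⟩ := hs.lift hS hp hπ
      refine ⟨g1 * g1, c1 * c1, s1.mul hS s1, by rw [map_mul, map_mul], ?_⟩
      rw [map_mul, ← sq]
      exact wn_sq h ((s1.isUnit hS).map (Algebra.norm R))
    · intro g hg
      obtain ⟨g, rfl⟩ := h0.toBC.surjective Function.surjective_id g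
      obtain ⟨c', hs⟩ := (sn_iff_evenRefl h0 h5 g).2 hg
      obtain ⟨g1, c1, s1, rfl, -⟩ := hs.lift h hjk hr
      refine ⟨j g1, algebraMap R S c1, s1.map h hj, by rw [← he', hφ'], ?_⟩
      rw [Algebra.norm_algebraMap]
      obtain ⟨t, ht⟩ := ho'
      refine WN.of_isSquare h ⟨g1, s1⟩ ((s1.isUnit h).pow _) ⟨c1 ^ (t + 1), ?_⟩
      rw [ht]
      ring
  obtain ⟨g, hs⟩ := hc
  obtain ⟨g1, c1, s1, hg, w1⟩ := key _ ((sn_iff_evenRefl h2 h5 _).1 ⟨_, hs.map hS hp⟩)
  have hg' : p g1 = p g := h2.toBC.injective Function.injective_id hg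
  have w2 := hker _ _ (hs.mul hS (s1.inv hS)) (hp.toBC.map_eq_zero_iff.1 (by
    rw [map_sub, map_mul, ← hg', ← map_mul, (s1.iso hS).2, sub_self]))
  refine WN.of_isSquare h (w2.mul h w1) ((hs.isUnit hS).map (Algebra.norm R))
    ⟨Algebra.norm R c * Algebra.norm R c1, ?_⟩
  rw [map_mul]
  ring

/-- The norm principle over a local ring with finite residue field. -/
theorem np_fin {R A A1 : Type u} [CommRing R] [IsLocalRing R] [Finite (ResidueField R)] [Ring A]
    [StarRing A] [Algebra R A] {m : ℕ} {l : A} {P : R[X]} [Ring A1] [StarRing A1]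
    [Algebra (AdjoinRoot P) A1] [StarFix (AdjoinRoot P) A1] {j : A →+* A1} (h : QAz R m l)
    (hm : Even m) (h5 : 5 ≤ m) (hP : P.Monic) (hi : Irreducible (P.map (residue R)))
    (hd : FinDeg (m * m + Nat.card (ResidueField R)) P.natDegree)
    (hj : SBC (AdjoinRoot.of P) j) {c : AdjoinRoot P} (hc : WN (AdjoinRoot P) (j l) c) :
    WN R l (Algebra.norm R c) := by
  have := Module.Free.of_basis (AdjoinRoot.powerBasis' hP).basis
  have := Module.Finite.of_basis (AdjoinRoot.powerBasis' hP).basis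
  have := Fact.mk hi
  have hodd : Odd P.natDegree := by
    rw [← Nat.not_even_iff_odd, even_iff_two_dvd]
    exact hd.2 2 le_rfl (by nlinarith)
  set B := P.map (residue R) with hB
  have hdB : B.natDegree = P.natDegree := hP.natDegree_map _
  have := Module.Finite.of_basis (AdjoinRoot.powerBasis hi.ne_zero).basis
  have : Finite (AdjoinRoot B) := Module.finite_of_finite (ResidueField R)
  let φ : AdjoinRoot P →+* AdjoinRoot B :=
    AdjoinRoot.lift ((AdjoinRoot.of B).comp (residue R)) (AdjoinRoot.root B)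
      (by rw [← eval₂_map]; exact AdjoinRoot.eval₂_root _)
  have hφ : ∀ r, φ (AdjoinRoot.mk P r) = AdjoinRoot.mk B (r.map (residue R)) := fun r => by
    rw [AdjoinRoot.lift_mk, ← eval₂_map, ← AdjoinRoot.aeval_eq]
    rfl
  have hm' := map_surjective (residue R) residue_surjective
  have hs : Function.Surjective φ := fun x => by
    obtain ⟨r, rfl⟩ := AdjoinRoot.mk_surjective x
    obtain ⟨r, rfl⟩ := hm' r
    exact ⟨_, hφ r⟩
  have hk : ∀ x, φ x = 0 → x ∈ (maximalIdeal R).map (algebraMap R (AdjoinRoot P)) := fun x hx => by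
    obtain ⟨r, rfl⟩ := AdjoinRoot.mk_surjective x
    obtain ⟨t, ht⟩ := AdjoinRoot.mk_eq_zero.1 ((hφ r).symm.trans hx)
    obtain ⟨t, rfl⟩ := hm' t
    have h1 : r - P * t ∈ RingHom.ker (mapRingHom (residue R)) := by
      rw [RingHom.mem_ker, coe_mapRingHom, Polynomial.map_sub, Polynomial.map_mul, ht, sub_self]
    rw [ker_mapRingHom, ker_residue] at h1
    have h2 := Ideal.mem_map_of_mem (AdjoinRoot.mk P) h1
    rwa [Ideal.map_map, map_sub, map_mul, AdjoinRoot.mk_self, zero_mul, sub_zero] at h2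
  have : IsLocalHom φ := ⟨fun x hx => by
    obtain ⟨y, hy⟩ := hs (φ x)⁻¹
    refine isUnit_of_mul_isUnit_left (y := y)
      (Pool.Agent.P.MP_c1f06d_ag.isUnit_of_sub_mem_map (R := R) isUnit_one (hk _ ?_))
    rw [map_sub, map_mul, hy, map_one, mul_inv_cancel₀ hx.ne_zero, sub_self]⟩
  let _ : Algebra (ResidueField R) (AdjoinRoot B) := AdjoinRoot.instAlgebra B
  have ho : Odd (finrank (ResidueField R) (AdjoinRoot B)) := by
    rwa [(AdjoinRoot.powerBasis hi.ne_zero).finrank, AdjoinRoot.powerBasis_dim, hdB]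
  refine dfinc_main (S := AdjoinRoot P) (k := ResidueField R) (F := AdjoinRoot B)
    (r := residue R) (π := φ) residue_surjective hs (AdjoinRoot.lift_comp_of _) ho ?_ h h5 hj
    (fun g c hs hg => fin_kernel h hm hP hi hd hj hs (Ideal.map_mono (fun x hx => hk x hx) hg)) hc
  rwa [(AdjoinRoot.powerBasis' hP).finrank]

end Pool.Agent.GSD
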