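import Pool.Agent.P.MP_c1f06d_ag.d.NPasm

/-! A hyperbolic frame in a split algebra with quadratic pair over an algebraically closed
field. -/

namespace Pool.Agent.GSD

open Matrix Polynomial

theorem exists_isotropic {k V : Type*} [Field k] [IsAlgClosed k] [AddCommGroup V] [Module k V]
    [Module.Finite k V] (β : V →ₗ[k] V →ₗ[k] k) (W : Submodule k V)
    (hW : 2 ≤ Module.finrank k W) : ∃ e ∈ W, e ≠ 0 ∧ β e e = 0 := by
  obtain ⟨v, hv⟩ := exists_linearIndependent_of_le_finrank hW
  have hx : ((v 0 : W) : V) ≠ 0 := fun h => hv.ne_zero 0 (Subtype.ext h)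
  by_cases h0 : β (v 0) (v 0) = 0
  · exact ⟨v 0, (v 0).2, hx, h0⟩
  obtain ⟨τ, hτ⟩ := IsAlgClosed.exists_root (C (β (v 0) (v 0)) * X ^ 2
    + C (β (v 0) (v 1) + β (v 1) (v 0)) * X + C (β (v 1) (v 1)))
    (by rw [degree_quadratic h0]; norm_num)
  refine ⟨τ • v 0 + v 1, (τ • v 0 + v 1).2, fun h => ?_, ?_⟩
  · have := Fintype.linearIndependent_iff.mp hv ![τ, 1] (by
      rw [Fin.sum_univ_two]
      exact Subtype.ext (by simpa using h)) 1
    simp at this
  · simp only [IsRoot, eval_add, eval_mul, eval_C, eval_pow, eval_X] at hτ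
    simp only [map_add, map_smul, LinearMap.add_apply, LinearMap.smul_apply, smul_eq_mul]
    linear_combination hτ

theorem exists_hyperbolic {k V : Type*} [Field k] [IsAlgClosed k] [AddCommGroup V] [Module k V]
    [Module.Finite k V] (β : V →ₗ[k] V →ₗ[k] k)
    (hβ : ∀ x, (∀ y, β x y + β y x = 0) → x = 0) (m : ℕ) (hm : 2 * m ≤ Module.finrank k V) :
    ∃ e f : Fin m → V, (∀ i, β (e i) (e i) = 0) ∧ (∀ i, β (f i) (f i) = 0) ∧
      (∀ i j, β (e i) (e j) + β (e j) (e i) = 0) ∧ (∀ i j, β (f i) (f j) + β (f j) (f i) = 0) ∧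
      ∀ i j, β (e i) (f j) + β (f j) (e i) = if i = j then 1 else 0 := by
  induction m with
  | zero => exact ⟨Fin.elim0, Fin.elim0, by simp, by simp, by simp, by simp, by simp⟩
  | succ m ih =>
    obtain ⟨e, f, h1, h2, h3, h4, h5⟩ := ih (by omega)
    let B : V →ₗ[k] V →ₗ[k] k := β + β.flip
    have hB : ∀ x y, B x y = β x y + β y x := fun _ _ => rfl
    have hBs : ∀ x y, B x y = B y x := fun x y => by rw [hB, hB, add_comm]
    simp only [← hB] at h3 h4 h5 hβ ⊢
    let L : V →ₗ[k] (Fin m → k) × (Fin m → k) :=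
      (LinearMap.pi fun i => B (e i)).prod (LinearMap.pi fun i => B (f i))
    have hker : 2 ≤ Module.finrank k (LinearMap.ker L) := by
      have a1 := L.finrank_range_add_finrank_ker
      have a2 := (LinearMap.range L).finrank_le
      rw [Module.finrank_prod, Module.finrank_fin_fun] at a2
      omega
    obtain ⟨e0, he0, hne, hq⟩ := exists_isotropic β _ hker
    have hL := LinearMap.mem_ker.mp he0
    have a1 : ∀ i, B (e i) e0 = 0 := fun i => congrFun (congrArg Prod.fst hL) i
    have a2 : ∀ i, B (f i) e0 = 0 := fun i => congrFun (congrArg Prod.snd hL) i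
    have a0 : B e0 e0 = 0 := by rw [hB, hq, add_zero]
    obtain ⟨z, hz⟩ : ∃ z, B e0 z = 1 := by
      by_contra h
      refine hne (hβ e0 fun y => by_contra fun hy => h ⟨(B e0 y)⁻¹ • y, ?_⟩)
      rw [map_smul, smul_eq_mul, inv_mul_cancel₀ hy]
    set z' := z - ∑ i, (B (f i) z • e i + B (e i) z • f i) with hz'
    have b0 : B e0 z' = 1 := by
      simp only [hz', map_sub, map_sum, map_add, map_smul, hBs e0 (e _), hBs e0 (f _), a1, a2, hz]
      simp
    have b1 : ∀ i, B (e i) z' = 0 := by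
      intro i
      simp only [hz', map_sub, map_sum, map_add, map_smul, h3, h5]
      simp
    have b2 : ∀ i, B (f i) z' = 0 := by
      intro i
      simp only [hz', map_sub, map_sum, map_add, map_smul, h4, hBs (f i) (e _), h5]
      simp
    set f0 := z' - β z' z' • e0 with hf0
    have c0 : B e0 f0 = 1 := by rw [hf0, map_sub, map_smul, b0, a0]; simp
    have c1 : ∀ i, B (e i) f0 = 0 := fun i => by rw [hf0, map_sub, map_smul, b1, a1]; simp
    have c2 : ∀ i, B (f i) f0 = 0 := fun i => by rw [hf0, map_sub, map_smul, b2, a2]; simp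
    have c3 : β f0 f0 = 0 := by
      rw [hB] at b0
      simp only [hf0, map_sub, map_smul, LinearMap.sub_apply, LinearMap.smul_apply, smul_eq_mul, hq]
      linear_combination (-β z' z') * b0
    have c4 : B f0 f0 = 0 := by rw [hB, c3, add_zero]
    refine ⟨Fin.cons e0 e, Fin.cons f0 f, ?_, ?_, ?_, ?_, ?_⟩
    · intro i; cases i using Fin.cases <;> simp [hq, h1]
    · intro i; cases i using Fin.cases <;> simp [c3, h2]
    · intro i j
      cases i using Fin.cases <;> cases j using Fin.cases <;>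
        simp only [Fin.cons_zero, Fin.cons_succ, a0, hBs e0 (e _), a1, h3]
    · intro i j
      cases i using Fin.cases <;> cases j using Fin.cases <;>
        simp only [Fin.cons_zero, Fin.cons_succ, c4, hBs f0 (f _), c2, h4]
    · intro i j
      cases i using Fin.cases <;> cases j using Fin.cases <;>
        simp only [Fin.cons_zero, Fin.cons_succ, c0, hBs e0 (f _), a2, c1, h5, Fin.succ_inj,
          Fin.succ_ne_zero, (Fin.succ_ne_zero _).symm, if_true, if_false]

theorem exists_hypFrame {k A d : Type*} [Field k] [IsAlgClosed k] [Ring A] [StarRing A]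
    [Fintype d] [DecidableEq d] (φ : A →+* Matrix d d k) (hφ : Function.Bijective φ) (l : A)
    (Q : Matrix d d k) (hu : IsUnit (Q + Qᵀ))
    (hadj : ∀ a, (Q + Qᵀ) * φ (star a) = (φ a)ᵀ * (Q + Qᵀ)) (hQ : Q = (Q + Qᵀ) * φ l) (m : ℕ)
    (hm : Fintype.card d = 2 * m) : ∃ p : Fin m ⊕ Fin m → A, HypFrame l Sum.swap p := by
  set b := Q + Qᵀ with hb
  have hbs : bᵀ = b := by rw [hb, transpose_add, transpose_transpose, add_comm]
  have hsym : ∀ x y : d → k, x ⬝ᵥ b *ᵥ y = y ⬝ᵥ b *ᵥ x := by
    intro x y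
    rw [dotProduct_mulVec, ← mulVec_transpose, hbs, dotProduct_comm]
  have hB : ∀ x y : d → k, Matrix.toLinearMap₂' k Q x y + Matrix.toLinearMap₂' k Q y x
      = x ⬝ᵥ b *ᵥ y := by
    intro x y
    rw [Matrix.toLinearMap₂'_apply', Matrix.toLinearMap₂'_apply', hb, add_mulVec, dotProduct_add,
      dotProduct_mulVec y, ← mulVec_transpose, dotProduct_comm (Qᵀ *ᵥ y)]
  have hinj : Function.Injective b.mulVec := mulVec_injective_iff_isUnit.mpr hu
  obtain ⟨e, f, h1, h2, h3, h4, h5⟩ := exists_hyperbolic (Matrix.toLinearMap₂' k Q)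
    (fun x hx => hinj (by
      funext i
      have := hx (Pi.single i 1)
      rw [hB, hsym] at this
      simpa using this)) m (by simp [hm])
  simp only [hB] at h3 h4 h5
  simp only [Matrix.toLinearMap₂'_apply'] at h1 h2
  let v : Fin m ⊕ Fin m → d → k := Sum.elim e f
  have hv : ∀ a a', v a.swap ⬝ᵥ b *ᵥ v a' = if a = a' then 1 else 0 := by
    rintro (i | i) (j | j)
    · simp only [v, Sum.swap_inl, Sum.elim_inl, Sum.elim_inr, Sum.inl.injEq]
      rw [hsym, h5]; simp only [eq_comm]
    · simpa [v] using h4 i j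
    · simpa [v] using h3 i j
    · simpa [v] using h5 i j
  have hvq : ∀ a, v a ⬝ᵥ Q *ᵥ v a = 0 := by
    rintro (i | i)
    · exact h1 i
    · exact h2 i
  let P : Fin m ⊕ Fin m → Matrix d d k := fun a => vecMulVec (v a) (b *ᵥ v a.swap)
  choose p hp using fun a => hφ.2 (P a)
  have hPXP : ∀ a a' X, P a * X * P a'
      = (v a.swap ⬝ᵥ (b * X) *ᵥ v a') • vecMulVec (v a) (b *ᵥ v a'.swap) := by
    intro a a' X
    simp only [P]
    rw [mul_assoc, mul_vecMulVec, vecMulVec_mul_vecMulVec, vecMulVec_smul, ← mulVec_mulVec,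
      hsym, dotProduct_comm]
  have hPP : ∀ a a', P a * P a' = if a = a' then P a else 0 := by
    intro a a'
    have := hPXP a a' 1
    rw [mul_one, mul_one, hv] at this
    rw [this]
    split_ifs with h
    · subst h; rw [one_smul]
    · rw [zero_smul]
  have hsum : ∑ a, P a = 1 := by
    let V : Matrix d (Fin m ⊕ Fin m) k := Matrix.of fun i a => v a i
    let U : Matrix (Fin m ⊕ Fin m) d k := Matrix.of fun a i => (b *ᵥ v a.swap) i
    have hUV : U * V = 1 := by
      ext a a'
      rw [one_apply, ← hv, hsym, dotProduct_comm]; rfl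
    have hVU : V * U = 1 :=
      (Matrix.mul_eq_one_comm_of_card_eq _ _ _ (by simp [hm, two_mul])).mp hUV
    rw [← hVU]
    ext i j
    rw [Matrix.sum_apply]; rfl
  refine ⟨p, Sum.swap_swap, by rintro (i | i) <;> simp, fun a a' => hφ.1 ?_, hφ.1 ?_,
    fun a => hφ.1 (hu.mul_left_cancel ?_), fun a h => ?_, fun a x => hφ.1 ?_, fun a => hφ.1 ?_⟩
  · rw [map_mul, hp, hp, hPP]; split_ifs <;> simp [hp]
  · rw [map_sum, map_one, ← hsum]; simp only [hp]
  · rw [hadj, hp, hp]
    simp only [P, Sum.swap_swap]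
    rw [transpose_vecMulVec, vecMulVec_mul, mul_vecMulVec, ← mulVec_transpose, hbs]
  · have h0 : P a *ᵥ v a = v a := by
      simp only [P]
      rw [vecMulVec_mulVec, dotProduct_comm, hsym, hv]; simp
    have h6 := hv a a
    rw [← hp, h, map_zero, zero_mulVec] at h0
    rw [← h0] at h6
    simp at h6
  · rw [map_mul, map_mul, hp, hp, hPXP, map_sub, mul_sub, hadj, sub_mulVec, dotProduct_sub,
      ← mulVec_mulVec, ← mulVec_mulVec, hsym, dotProduct_mulVec _ (φ x)ᵀ, vecMul_transpose,
      sub_self, zero_smul, map_zero]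
  · rw [map_mul, map_mul, hp, hp, hPXP, ← hQ, hvq, zero_smul, map_zero]

end Pool.Agent.GSD
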