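import Pool.Agent.P.MP_c1f06d_ag.d.DWall
import Pool.Agent.P.MP_c1f06d_ag.d.NPhyp

open Matrix Module Polynomial Pool.Agent.SU IsLocalRing

universe u

namespace Pool.Agent.GSD

section

variable {R S A A1 : Type u} [CommRing R] [CommRing S] [Algebra R S] [Ring A] [Algebra R A]
  [Ring A1] [Algebra S A1] {j : A →+* A1} {m : ℕ} {l : A}

theorem dnp_field [IsLocalRing R] [Infinite (ResidueField R)] [StarRing A] (h : QAz R m l) :
    ∃ (k : Type u) (_ : Field k) (_ : IsAlgClosed k) (ψ : R →+* k)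
      (φ : A →+* Matrix (Fin m) (Fin m) k) (Q : Matrix (Fin m) (Fin m) k),
      IsLocalHom ψ ∧ (Set.range ψ).Infinite ∧ QSpl l ψ φ Q := by
  obtain ⟨S, _, s, φ, Q, hs, hq⟩ := h
  let _ := s.toAlgebra
  have : Module.FaithfullyFlat R S := hs
  obtain ⟨p, hp, hl⟩ := (maximalIdeal R).exists_isPrime_liesOver_of_faithfullyFlat (B := S)
  let g : S →+* AlgebraicClosure p.ResidueField :=
    (algebraMap p.ResidueField _).comp (algebraMap S p.ResidueField)
  have hg : IsLocalHom (g.comp s) := ⟨fun r hr => by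
    by_contra hn
    have h1 : s r ∈ p := (Ideal.mem_of_liesOver p (maximalIdeal R) r).1 hn
    have h2 : algebraMap S p.ResidueField (s r) = 0 := Ideal.algebraMap_residueField_eq_zero.2 h1
    refine hr.ne_zero ?_
    change algebraMap p.ResidueField _ (algebraMap S p.ResidueField (s r)) = 0
    rw [h2, map_zero]⟩
  refine ⟨_, inferInstance, inferInstance, g.comp s, _, _, hg, ?_, hq.post g⟩
  refine (Set.infinite_range_of_injective (ResidueField.lift (g.comp s)).injective).mono ?_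
  rintro _ ⟨x, rfl⟩
  obtain ⟨r, rfl⟩ := residue_surjective x
  exact ⟨r, rfl⟩

theorem dnp_pb {k : Type u} [CommRing k] (ψ : R →+* k) {n : Type} (b : Basis n R S) :
    ∃ (S' : Type u) (_ : CommRing S') (_ : Algebra k S') (g : S →+* S') (b' : Basis n k S'),
      (∀ t, g (algebraMap R S t) = algebraMap k S' (ψ t)) ∧ (∀ i, g (b i) = b' i) ∧
        ∀ a i, b'.repr (g a) i = ψ (b.repr a i) := by
  let _ := ψ.toAlgebra
  refine ⟨TensorProduct R k S, inferInstance, inferInstance,
    (Algebra.TensorProduct.includeRight (R := R) (A := k) (B := S)).toRingHom, b.baseChange k,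
    fun t => ?_, fun i => (Basis.baseChange_apply k b i).symm, fun a i => ?_⟩
  · exact ((Algebra.TensorProduct.includeRight (R := R) (A := k) (B := S)).commutes t).trans
      (IsScalarTower.algebraMap_apply R k _ t)
  · exact (Basis.baseChange_repr_tmul k b 1 a i).trans (mul_one _)

theorem dnp_reg [Algebra R A1] [IsScalarTower R S A1] (hj : BC (algebraMap R S) j) {n : Type}
    [Fintype n] [DecidableEq n] (b : Basis n R S) :
    ∃ ρ : A1 →ₐ[R] Matrix n n A, (∀ a, ρ (j a) = diagonal fun _ => a) ∧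
      ∀ s : S, ρ (algebraMap S A1 s) = (Algebra.leftMulMatrix b s).map (algebraMap R A) := by
  obtain ⟨ρ, h1, h2⟩ := hj.exists_regular b
  refine ⟨{ ρ with commutes' := fun r => ?_ }, h1, h2⟩
  rw [IsScalarTower.algebraMap_apply R S A1, ← hj.alg]
  exact h1 _

theorem dnp_gen (hj : BC (algebraMap R S) j) (pb : PowerBasis R S) (x : A1) :
    x ∈ AddSubgroup.closure {x | ∃ a ∈ Set.range j, ∃ i : ℕ, x = a * algebraMap S A1 pb.gen ^ i} := by
  induction x using hj.induction with
  | h0 => exact zero_mem _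
  | h1 t a =>
    rw [← pb.basis.sum_repr t, Finset.sum_smul]
    refine sum_mem fun i _ => AddSubgroup.subset_closure ⟨_, ⟨pb.basis.repr t i • a, rfl⟩, i, ?_⟩
    rw [hj.smul, pb.basis_eq_pow, ← map_pow, ← Algebra.commutes, ← Algebra.smul_def, smul_smul,
      Algebra.smul_def (pb.basis.repr t i), mul_comm]
  | h2 x y hx hy => exact add_mem hx hy

theorem dnp_char [StarRing A] [Nontrivial A] (h : QAz R m l) (y : A) :
    0 < m ∧ ∃ q : R[X], q.Monic ∧ q.natDegree = m ∧ aeval y q = 0 := by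
  have ha := h.az
  obtain ⟨S, _, s, φ, Q, hs, hq⟩ := h
  have hi := ff_injective hs
  have hφ := hq.toBC.injective hi
  have hn := hφ.nontrivial
  have hS : Nontrivial S := by
    by_contra hS
    rw [not_nontrivial_iff_subsingleton] at hS
    exact not_subsingleton (Matrix (Fin m) (Fin m) S) inferInstance
  refine ⟨Nat.pos_of_ne_zero fun h0 => ?_, ?_⟩
  · subst h0
    exact not_subsingleton (Matrix (Fin 0) (Fin 0) S) inferInstance
  obtain ⟨p, -, hp⟩ := ha.exists_line (-y) 1
  have hb := hq.toBC.comp (bc_mapMatrix (C : S →+* S[X]) (Fin m))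
  have e : p.map s = (φ y).charpoly := by
    have h1 := hp _ _ _ _ hb X
    have h2 := (ha.map hb).nrd_spec BC.refl
    simp only [RingHom.id_apply] at h2
    rw [h2, eval_map] at h1
    refine h1.symm.trans (congrArg det ?_)
    rw [map_neg, map_one, charmatrix, neg_add_eq_sub, scalar_apply, smul_one_eq_diagonal]
    rfl
  refine ⟨p, monic_of_injective hi (e ▸ charpoly_monic _), ?_, hφ ?_⟩
  · rw [← natDegree_map_eq_of_injective hi, e, charpoly_natDegree_eq_dim, Fintype.card_fin]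
  · rw [map_aeval_eq_aeval_map (φ := s) (RingHom.ext fun t => (hq.alg t).symm), e,
      aeval_self_charpoly, map_zero]

variable [StarRing A] [StarRing A1] [StarFix S A1] [Algebra R A1] [IsScalarTower R S A1]

theorem dnp_good [IsLocalRing R] [Infinite (ResidueField R)] (h : QAz R m l) (hm : Even m)
    (pb : PowerBasis R S) (hj : SBC (algebraMap R S) j)
    (ρ0 : A1 →ₐ[R] Matrix (Fin pb.dim) (Fin pb.dim) A) (h1 : ∀ a, ρ0 (j a) = diagonal fun _ => a)
    (h2 : ∀ s : S, ρ0 (algebraMap S A1 s) =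
      (Algebra.leftMulMatrix pb.basis s).map (algebraMap R A))
    {F : Matrix (Fin pb.dim) (Fin pb.dim) A}
    (hF : F = Matrix.of fun i i' => (pb.basis.repr 1 i * pb.basis.repr 1 i') • l)
    (y : A1) (hy : La (j l) y) (hyu : IsUnit y) :
    ∃ u v, Alt u ∧ u * v = 1 ∧ v * u = 1 ∧ NPGood ρ0 F (y + u) ∧
      NPGood ρ0 F (y - y * v * star y) := by
  have hA := h.starFix
  have := h.az.free
  have := h.az.finite
  have := hj.toBC.free'
  have := hj.toBC.finite'
  obtain ⟨k, _, _, ψ, φ, Q, hψ, hinf, hq⟩ := dnp_field h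
  obtain ⟨m', rfl⟩ := hm
  obtain ⟨Ak, _, _, _, hAk, jk, hjk⟩ := exists_sbc (A := A) ψ
  obtain ⟨φ', -, hq'⟩ := QSpl.lift (g := RingHom.id k) hjk hq
  obtain ⟨p, hp⟩ := exists_hypFrame φ' ⟨hq'.toBC.injective Function.injective_id,
    hq'.toBC.surjective Function.surjective_id⟩ (jk l) Q ((isUnit_iff_isUnit_det _).2 hq'.unit)
    hq'.adj hq'.ell m' (by rw [Fintype.card_fin, two_mul])
  obtain ⟨Sk, _, _, g, bk, hg1, hg2, hg3⟩ := dnp_pb ψ pb.basis
  have hg : BC ψ g := ⟨hg1, _, _, _, hg2⟩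
  have hgl : IsLocalHom g := ⟨fun _ => hg.isUnit_of_map⟩
  let pk : PowerBasis k Sk := ⟨g pb.gen, pb.dim, bk, fun i => by
    rw [← hg2, pb.basis_eq_pow, map_pow]⟩
  obtain ⟨Bk, _, _, _, hBk, κ, hκ⟩ := exists_sbc (A := A1) g
  let _ : Algebra k Bk := Algebra.compHom Bk (algebraMap k Sk)
  have : IsScalarTower k Sk Bk := IsScalarTower.of_algebraMap_eq' rfl
  have := hjk.toBC.finite'
  have := hκ.toBC.finite'
  have := Module.Finite.of_basis bk
  have : Module.Finite k Bk := Module.Finite.trans Sk Bk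
  obtain ⟨j1, hj1, hj1'⟩ := hjk.lift (g := algebraMap k Sk)
    ((RingHom.ext hg1 : g.comp (algebraMap R S) = (algebraMap k Sk).comp ψ) ▸ hj.comp hκ)
  have hj2 : ∀ a, j1 (jk a) = κ (j a) := RingHom.congr_fun hj1
  obtain ⟨ρ, r1, r2⟩ := dnp_reg hj1'.toBC bk
  obtain ⟨lam, hlam⟩ := exists_lam pk
  have hl := h.add_star
  have hZ := zar_good_of_frame hAk.fix (jk l) (by rw [← hjk.map_star, ← map_add, hl, map_one])
    Sum.swap p hp bk pk.gen pk.adjoin_gen_eq_top lam hlam j1 hj1'.map_star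
    (IsScalarTower.toAlgHom k Sk Bk) (fun s x => Algebra.commutes s x) hBk.fix
    (dnp_gen hj1'.toBC pk) ρ r1 r2
  have hsm : ∀ (r : R) x, κ (r • x) = ψ r • κ x := fun r x => by
    rw [← algebraMap_smul S r, hκ.toBC.smul, hg1, algebraMap_smul]
  have hu : ∀ r, ψ r ≠ 0 → IsUnit r := fun r hr => IsUnit.of_map ψ r (IsUnit.mk0 _ hr)
  have hκF : jk.mapMatrix F = Matrix.of fun i i' => (bk.repr 1 i * bk.repr 1 i') • jk l := by
    ext i i'
    rw [hF, RingHom.mapMatrix_apply, map_apply, of_apply, of_apply, hjk.toBC.smul, map_mul,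
      ← hg3, ← hg3, map_one]
  rw [← hκF, hj2] at hZ
  obtain ⟨u, v, a1, a2, a3, -, -, a4, a5⟩ := np_two_good (k := k)
    (fun r => hBk.fix (algebraMap k Sk r)) ψ hinf κ jk.mapMatrix hκ.map_star
    (hjk.mat _).map_star hsm
    (by
      refine top_le_iff.1 fun x _ => ?_
      induction x using hκ.toBC.induction with
      | h0 => exact zero_mem _
      | h1 t a =>
        rw [← bk.sum_repr t, Finset.sum_smul]
        refine sum_mem fun i _ => ?_
        rw [smul_assoc, ← hg2, ← hκ.toBC.smul]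
        exact Submodule.smul_mem _ _ (Submodule.subset_span ⟨_, rfl⟩)
      | h2 x y hx hy => exact add_mem (hx trivial) (hy trivial))
    (fun _ => hκ.toBC.isUnit_of_map) (fun _ => (hjk.toBC.mat _).isUnit_of_map) ρ0 ρ
    (fun x => by
      induction x using hj.toBC.induction with
      | h0 => simp
      | h1 t a =>
        rw [hκ.toBC.smul, Algebra.smul_def, Algebra.smul_def, map_mul, map_mul, map_mul, h1, h2,
          r2, ← hj2, r1]
        congr 1
        · ext i i'
          rw [RingHom.mapMatrix_apply, map_apply, map_apply, map_apply, hjk.alg,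
            Algebra.leftMulMatrix_eq_repr_mul, Algebra.leftMulMatrix_eq_repr_mul, ← hg2, ← map_mul,
            hg3]
        · exact diagonal_map (map_zero jk)
      | h2 x y hx hy => simp only [map_add, hx, hy])
    F (j l) _
    (fun z hz hzu hli => by
      rw [hF]
      refine np_exists_matrix hA.fix j hj.map_star ρ0 h1 (algebraMap S A1 pb.gen)
        (Algebra.commutes _) (StarFix.fix _) (dnp_gen hj.toBC pb) (pb.basis.repr 1) l z hl hz hzu ?_
      rcases subsingleton_or_nontrivial A1 with _ | _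
      · rw [Subsingleton.elim (algebraMap S A1 pb.gen) 0]; exact zero_mem _
      obtain ⟨h0, q, q1, q2, q3⟩ := dnp_char (h.map hj) z
      exact algebraMap_mem_adjoin ψ hu κ hsm pb.basis pb.basis.span_eq z
        (by simpa using h0) q q1 (by simpa using q2) q3 hli _)
    hZ y hy hyu
  exact ⟨u, v, a1, a2, a3, a4, a5⟩

theorem dnp_two [IsLocalRing R] [Infinite (ResidueField R)] (h : QAz R m l) (hm : Even m)
    (pb : PowerBasis R S) (hj : SBC (algebraMap R S) j) (y : A1) (hy : La (j l) y)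
    (hyu : IsUnit y) : ∃ (v : A1) (t : S), Alt v ∧ IsUnit v ∧
      WN R l (Algebra.norm R (nrd S y * nrd S v * t ^ 2)) := by
  have := h.starFix
  have h' := h.map hj
  obtain ⟨ρ, h1, h2⟩ := dnp_reg hj.toBC pb.basis
  obtain ⟨u, v, a1, a2, a3, ⟨u1, W1, w1, b1, c1⟩, u2, W2, w2, b2, c2⟩ :=
    dnp_good h hm pb hj ρ h1 h2 rfl y hy hyu
  have hF : (Matrix.of fun i i' => (pb.basis.repr 1 i * pb.basis.repr 1 i') • l) =
      gram l fun i => algebraMap R A (pb.basis.repr 1 i) := by
    ext i i'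
    rw [gram, of_apply, of_apply, StarFix.fix, mul_assoc, ← Algebra.commutes, ← mul_assoc,
      ← map_mul (algebraMap R A), Algebra.smul_def]
  rw [hF] at c1 c2
  have key := wn_of_two h (u1.map ρ) (u2.map ρ) w1 w2 b1 b2 c1 c2
  have hr := h.az.nrd_regular hj.toBC pb.basis (ρ : A1 →+* _) h1 h2
  simp only [RingHom.coe_coe] at hr
  have e : y - y * v * star y = algebraMap S A1 (-1) * (y * v * star (y + u)) := by
    rw [map_neg, map_one, star_add, a1.star_eq, mul_add, mul_neg, mul_assoc y v u, a3]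
    noncomm_ring
  rw [hr, hr, ← map_mul, e, h'.az.nrd_mul, h'.az.nrd_mul, h'.az.nrd_mul, h'.nrd_algebraMap,
    h'.nrd_star, hm.neg_one_pow] at key
  refine ⟨v, nrd S (y + u), a1.inv a2, ⟨⟨v, u, a3, a2⟩, rfl⟩, ?_⟩
  rwa [show nrd S y * nrd S v * nrd S (y + u) ^ 2 =
    nrd S (y + u) * (1 * (nrd S y * nrd S v * nrd S (y + u))) by ring]

end

/-- The norm principle over a local ring with infinite residue field. -/
theorem np_inf {R A A1 : Type u} [CommRing R] [IsLocalRing R] [Infinite (ResidueField R)] [Ring A]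
    [StarRing A] [Algebra R A] {P : R[X]} [Ring A1] [StarRing A1] [Algebra (AdjoinRoot P) A1]
    [StarFix (AdjoinRoot P) A1] {j : A →+* A1} {m : ℕ} {l : A} (h : QAz R m l) (hm : Even m)
    (hP : P.Monic) (hj : SBC (AdjoinRoot.of P) j) {c : AdjoinRoot P} (hu : IsUnit c)
    (hc : PairN (AdjoinRoot P) (j l) c) : WN R l (Algebra.norm R c) := by
  let _ : Algebra R A1 := Algebra.compHom A1 (algebraMap R (AdjoinRoot P))
  have : IsScalarTower R (AdjoinRoot P) A1 := IsScalarTower.of_algebraMap_eq' rfl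
  have h' := h.map hj
  obtain ⟨l1, l2, t, c1, c2, a1, a2, n1, n2, rfl⟩ := hc
  obtain ⟨v1, t1, b1, u1, w1⟩ := dnp_two h hm (AdjoinRoot.powerBasis' hP) hj _ a1 l1.isUnit
  obtain ⟨v2, t2, b2, u2, w2⟩ := dnp_two h hm (AdjoinRoot.powerBasis' hP) hj _ a2 l2.isUnit
  rw [h'.az.nrd_eq n1] at w1
  rw [h'.az.nrd_eq n2] at w2
  refine (w1.mul h w2).of_isSquare h (hu.map _) ?_
  obtain ⟨z1, e1⟩ := b1
  obtain ⟨z2, e2⟩ := b2
  have hW : Alt (diagonal ![v1, v2]) := ⟨diagonal ![z1, z2], by
    ext i i'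
    fin_cases i <;> fin_cases i' <;> simp [e1, e2]⟩
  have hU : IsUnit (![v1, v2] : Fin 2 → A1) :=
    Pi.isUnit_iff.2 fun i => by fin_cases i <;> simpa
  have hU' : IsUnit (diagonal ![v1, v2]) := by
    obtain ⟨w, e3, e4⟩ := isUnit_iff_exists.1 hU
    refine isUnit_iff_exists.2 ⟨diagonal w, ?_, ?_⟩ <;>
      rw [diagonal_mul_diagonal', ← diagonal_one] <;> congr 1
  obtain ⟨r, hr⟩ := h'.isSquare_nrd (by simp) hW hU'
  rw [h'.az.nrd_diagonal, Fin.prod_univ_two] at hr
  refine ⟨Algebra.norm R (c1 * c2 * t * t1 * t2 * r), ?_⟩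
  rw [← map_mul, ← map_mul, ← map_mul]
  congr 1
  change nrd _ v1 * nrd _ v2 = _ at hr
  linear_combination (c1 * c2 * t * t1 * t2) ^ 2 * hr

end Pool.Agent.GSD
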