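import Pool.Agent.P.MP_c1f06d_ag.su.Spr
import Pool.Agent.P.MP_c1f06d_ag.d.DBC

open Matrix Module Pool.Agent.SU Pool.Agent.P.MP_c1f06d_ag

universe u

namespace Pool.Agent.GSD

section
variable {T T' A A' : Type u} [CommRing T] [CommRing T'] [Ring A] [Ring A'] [Algebra T A]
  [Algebra T' A'] {f : T →+* T'} {j : A →+* A'} {m N : ℕ}

theorem dsprn_map (hj : BC f j) (h : ASplit T A m) : ASplit T' A' m := by
  obtain ⟨φ, hφ⟩ := h
  have h1 : BC f ((f.mapMatrix : Matrix (Fin m) (Fin m) T →+* _).comp φ) :=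
    hφ.comp (bc_mapMatrix f (Fin m))
  obtain ⟨k, hk, hk'⟩ := hj.lift (g := RingHom.id T') _ h1.alg
  exact ⟨k, hj.of_comp (by rw [hk]; exact h1) hk'⟩

theorem asplit_map (B : SAlg T N) (f : T →+* T') (h : ASplit T B.Car m) :
    ASplit T' (B.map f).Car m := dsprn_map (sbc_bc B f).toBC h

/-- Coordinates of matrices. -/
def dsprnCo (σ : Fin N ≃ Fin m × Fin m) (T : Type u) [CommRing T] :
    Matrix (Fin m) (Fin m) T ≃ₗ[T] (Fin N → T) where
  toFun X k := X (σ k).1 (σ k).2
  invFun v := of fun p q => v (σ.symm (p, q))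
  map_add' _ _ := rfl
  map_smul' _ _ := rfl
  left_inv X := by ext p q; simp
  right_inv v := by ext k; simp

/-- The determinant of the coordinates of a family of matrices. -/
def dsprnDet (σ : Fin N ≃ Fin m × Fin m) (v : Fin N → Matrix (Fin m) (Fin m) T) : T :=
  (of fun k i => v i (σ k).1 (σ k).2).det

theorem dsprn_det_map (σ : Fin N ≃ Fin m × Fin m) (v : Fin N → Matrix (Fin m) (Fin m) T)
    (g : T →+* T') : g (dsprnDet σ v) = dsprnDet σ fun i => (v i).map g :=
  RingHom.map_det g _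

theorem dsprn_det_eq (σ : Fin N ≃ Fin m × Fin m) (v : Fin N → Matrix (Fin m) (Fin m) T) :
    dsprnDet σ v = (Basis.ofEquivFun (dsprnCo σ T)).det v := by
  rw [Basis.det_apply]
  rfl

theorem dsprn_e (B : SAlg T N) (i : Fin N) : Basis.ofEquivFun B.coL i = B.e i := by
  rw [Basis.coe_ofEquivFun]
  rfl

theorem dsprn_bc_iff (σ : Fin N ≃ Fin m × Fin m) {B : SAlg T N} (r : Rep m B T') :
    BC r.f r.φ ↔ IsUnit (dsprnDet σ fun i => r.φ (B.e i)) := by
  rw [dsprn_det_eq]
  refine ⟨fun h => ?_, fun h => ?_⟩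
  · obtain ⟨b, hb, -⟩ := h.exists_basis (Basis.ofEquivFun B.coL)
    have : (fun i => r.φ (B.e i)) = b := funext fun i => by rw [← hb, dsprn_e]
    rw [this]
    exact Basis.isUnit_det _ b
  · obtain ⟨h1, h2⟩ := (Basis.is_basis_iff_det _).2 h
    exact ⟨fun t => by rw [r.map_algebraMap, Algebra.algebraMap_eq_smul_one], N,
      Basis.ofEquivFun B.coL, Basis.mk h1 h2.ge, fun i => by rw [dsprn_e, Basis.mk_apply]⟩

theorem dsprn_card [Nontrivial T'] {d : Type} [Fintype d] [DecidableEq d] {B : SAlg T N}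
    {φ : B.Car →+* Matrix d d T'} (h : BC f φ) (hN : N = m * m) : Fintype.card d = m := by
  obtain ⟨b, -, -⟩ := h.exists_basis (Basis.ofEquivFun B.coL)
  have := Module.finrank_eq_card_basis b
  rw [Module.finrank_matrix, Module.finrank_self, mul_one, Fintype.card_fin, hN] at this
  exact Nat.mul_self_inj.1 this

end

variable {B O : Type u} [CommRing B] [CommRing O] {ρ : B →+* O} {N m : ℕ}

theorem gisNrd_spread (h : LocPres ρ 0) (hN : N = m * m) (A : SAlg B N) {a : A.Car} {c : B}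
    (H : IsNrd O (A.bc ρ a) (ρ c)) :
    ∃ (B1 : Type u) (_ : CommRing B1) (j : B →+* B1) (ρ1 : B1 →+* O), Nb ρ j ρ1 ∧
      IsNrd B1 (A.bc j a) (j c) := by
  let σ : Fin N ≃ Fin m × Fin m := (finCongr hN).trans finProdFinEquiv.symm
  obtain ⟨U, _, rU, hU⟩ := spr_univ m A
  obtain ⟨Δ, hΔ⟩ : ∃ Δ, Δ = dsprnDet σ fun i => rU.φ (A.e i) := ⟨_, rfl⟩
  let M : Submonoid U := ((IsUnit.submonoid O).comap ρ).map rU.f ⊔ Submonoid.powers Δ
  obtain ⟨ψ, hψ⟩ := locPres_lift h (rU.post (algebraMap U (Localization M))).f fun F hF =>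
    IsLocalization.map_units (Localization M)
      (⟨rU.f F, Submonoid.mem_sup_left ⟨F, hF, rfl⟩⟩ : M)
  have hb := (dsprn_bc_iff σ ((rU.post (algebraMap U (Localization M))).lift ρ ψ hψ)).2 (by
    have := IsLocalization.map_units (Localization M)
      (⟨Δ, Submonoid.mem_sup_right (Submonoid.mem_powers Δ)⟩ : M)
    simp only [← SAlg.bc_e, Rep.lift_bc, Rep.post_φ]
    rwa [← dsprn_det_map, ← hΔ])
  have h1 := H _ _ _ _ hb
  rw [Rep.lift_bc, Rep.post_φ, Rep.lift_f, ← RingHom.comp_apply, hψ, ← RingHom.mapMatrix_apply,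
    ← RingHom.map_det, ← sub_eq_zero] at h1
  obtain ⟨⟨μ, hμ⟩, e⟩ := (IsLocalization.map_eq_zero_iff M (Localization M)
    (rU.f c - (rU.φ a).det)).1 ((map_sub _ _ _).trans h1)
  obtain ⟨_, ⟨F, hF, rfl⟩, _, ⟨n, rfl⟩, rfl⟩ := Submonoid.mem_sup.1 hμ
  obtain ⟨B1, _, j, ρ1, hn, hu⟩ := exists_nb_unit h F hF
  refine ⟨B1, inferInstance, j, ρ1, hn, fun d _ _ S _ f φ hφ => ?_⟩
  cases subsingleton_or_nontrivial S with
  | inl _ => exact Subsingleton.elim _ _
  | inr _ =>
    let ε : d ≃ Fin m := Fintype.equivFinOfCardEq (dsprn_card hφ hN)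
    let ω : Matrix d d S →+* Matrix (Fin m) (Fin m) S := (reindexAlgEquiv S S ε).toRingEquiv.toRingHom
    have hω : BC (RingHom.id S) ω := bc_of_bijective ω (reindexAlgEquiv S S ε).bijective
      (reindexAlgEquiv S S ε).commutes
    have hφ' : BC f (ω.comp φ) := hφ.comp hω
    let r : Rep m (A.map j) S := ⟨f, ω.comp φ, hφ'.smul⟩
    obtain ⟨g, hg, hφg⟩ := hU S (r.comap j)
    have h2 : IsUnit (g Δ) := by
      have := (dsprn_bc_iff σ r).1 hφ'
      simp only [← SAlg.bc_e, ← Rep.comap_φ, ← hφg] at this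
      rwa [hΔ, dsprn_det_map]
    have h3 : ∀ t, g (rU.f t) = f (j t) := RingHom.congr_fun hg
    have h4 := congrArg g e
    simp only [map_mul, map_pow, map_sub, map_zero, h3] at h4
    have h5 := ((hu.map f).mul (h2.pow n)).mul_right_eq_zero.1 h4
    rw [sub_eq_zero, RingHom.map_det, RingHom.mapMatrix_apply, hφg] at h5
    exact h5.trans (det_reindex_self ε _)

/-- Index set of the equations of a splitting. -/
abbrev dsprnIx (N m : ℕ) : Type :=
  (Fin m × Fin m) ⊕ ((Fin N × Fin N) × Fin m × Fin m) ⊕ ((Fin m × Fin m) × Fin m × Fin m) ⊕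
    (Fin N × Fin N)

/-- The equations of a splitting, as differences. -/
def dsprnAx {T : Type u} [CommRing T] (A : SAlg T N) (E : Fin N → Matrix (Fin m) (Fin m) T)
    (Y : Fin N → Matrix (Fin m) (Fin m) T) : dsprnIx N m → T
  | .inl p => (∑ i, A.one i • E i - 1 : Matrix (Fin m) (Fin m) T) p.1 p.2
  | .inr (.inl p) => (E p.1.1 * E p.1.2 - ∑ a, A.L p.1.1 a p.1.2 • E a) p.2.1 p.2.2
  | .inr (.inr (.inl p)) =>
      (∑ k, Y k p.1.1 p.1.2 • E k - single p.1.1 p.1.2 1 : Matrix (Fin m) (Fin m) T) p.2.1 p.2.2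
  | .inr (.inr (.inr p)) =>
      ∑ a, ∑ b, E p.1 a b * Y p.2 a b - (1 : Matrix (Fin N) (Fin N) T) p.1 p.2

theorem dsprn_ax_map {T T' : Type u} [CommRing T] [CommRing T'] (f : T →+* T') (A : SAlg T N)
    (E Y : Fin N → Matrix (Fin m) (Fin m) T) (k : dsprnIx N m) :
    f (dsprnAx A E Y k) = dsprnAx (A.map f) (fun i => (E i).map f) (fun i => (Y i).map f) k := by
  rcases k with p | p | p | p <;>
    simp [dsprnAx, SAlg.map, Matrix.mul_apply, Matrix.sum_apply, Matrix.one_apply,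
      Matrix.single_apply, apply_ite f]

theorem dsprn_split_iff {T : Type u} [CommRing T] (A : SAlg T N) :
    ASplit T A.Car m ↔ ∃ E Y : Fin N → Matrix (Fin m) (Fin m) T, ∀ k, dsprnAx A E Y k = 0 := by
  refine ⟨fun ⟨φ, hφ⟩ => ?_, fun ⟨E, Y, e⟩ => ?_⟩
  · let r : Rep m A T := ⟨RingHom.id T, φ, hφ.smul⟩
    choose y hy using fun p q : Fin m => hφ.surjective Function.surjective_id (single p q 1)
    refine ⟨fun i => φ (A.e i), fun k => of fun p q => (y p q).co k, ?_⟩
    rintro (p | p | p | p)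
    · exact congrFun (congrFun (sub_eq_zero.2 r.basis_one) _) _
    · exact congrFun (congrFun (sub_eq_zero.2 (r.basis_mul _ _)) _) _
    · exact congrFun (congrFun (sub_eq_zero.2 ((r.eq_sum _).symm.trans (hy _ _))) _) _
    · have : ∑ a, ∑ b, φ (A.e p.1) a b • y a b = A.e p.1 := by
        refine hφ.injective Function.injective_id ?_
        simp only [map_sum, hφ.smul, hy, RingHom.id_apply, smul_single, smul_eq_mul, mul_one]
        exact (matrix_eq_sum_single _).symm
      have h2 := congrFun (congrArg SAlg.Car.co this) p.2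
      simp only [SAlg.co_sum, SAlg.co_smul, Finset.sum_apply, Pi.smul_apply, smul_eq_mul] at h2
      simp only [dsprnAx, of_apply, h2]
      simp only [SAlg.e, Pi.single_apply, Matrix.one_apply, eq_comm, sub_self]
  · let r : Rep m A T := Rep.ofBasis A (RingHom.id T) E
      (sub_eq_zero.1 (Matrix.ext fun p q => e (.inl (p, q))))
      fun i j => sub_eq_zero.1 (Matrix.ext fun p q => e (.inr (.inl ((i, j), p, q))))
    have hr : ∀ x, r.φ x = ∑ i, x.co i • E i := fun _ => rfl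
    have h3 : ∀ p q, ∑ k, Y k p q • E k = single p q 1 := fun p q =>
      sub_eq_zero.1 (Matrix.ext fun a b => e (.inr (.inr (.inl ((p, q), a, b)))))
    have h4 : ∀ i k, ∑ a, ∑ b, E i a b * Y k a b = (1 : Matrix (Fin N) (Fin N) T) i k :=
      fun i k => sub_eq_zero.1 (e (.inr (.inr (.inr (i, k)))))
    refine ⟨r.φ, bc_of_bijective r.φ ⟨(injective_iff_map_eq_zero _).2 fun x hx => ?_, fun X => ?_⟩
      fun t => by rw [r.map_algebraMap, Algebra.algebraMap_eq_smul_one]; rfl⟩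
    · ext k
      have : x.co k = ∑ a, ∑ b, r.φ x a b * Y k a b := by
        simp only [hr, Matrix.sum_apply, Matrix.smul_apply, smul_eq_mul, Finset.sum_mul, mul_assoc]
        rw [Finset.sum_congr rfl fun a _ => Finset.sum_comm, Finset.sum_comm]
        simp only [← Finset.mul_sum, h4, Matrix.one_apply]
        simp
      rw [this, hx]
      simp
    · refine ⟨∑ p, ∑ q, X p q • ⟨fun k => Y k p q⟩, ?_⟩
      simp only [map_sum, r.smul]
      simp only [hr, h3, smul_single, smul_eq_mul, mul_one]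
      exact (matrix_eq_sum_single X).symm

theorem asplit_spread (h : LocPres ρ 0) (A : SAlg B N) (H : ASplit O (A.map ρ).Car m) :
    ∃ (B1 : Type u) (_ : CommRing B1) (j : B →+* B1) (ρ1 : B1 →+* O), Nb ρ j ρ1 ∧
      ASplit B1 (A.map j).Car m := by
  obtain ⟨E, Y, e⟩ := (dsprn_split_iff _).1 H
  obtain ⟨B1, _, j1, ρ1, n1, a, ha⟩ := exists_nb_lift h
    fun p : Bool × Fin N × Fin m × Fin m => cond p.1 E Y p.2.1 p.2.2.1 p.2.2.2
  let E1 : Fin N → Matrix (Fin m) (Fin m) B1 := fun i => of fun p q => a (true, i, p, q)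
  let Y1 : Fin N → Matrix (Fin m) (Fin m) B1 := fun i => of fun p q => a (false, i, p, q)
  have hE : (fun i => (E1 i).map ρ1) = E := funext fun i => Matrix.ext fun p q => ha _
  have hY : (fun i => (Y1 i).map ρ1) = Y := funext fun i => Matrix.ext fun p q => ha _
  obtain ⟨B2, _, j2, ρ2, n2, e2⟩ := exists_nb_eq n1.lp (dsprnAx (A.map j1) E1 Y1) (fun _ => 0)
    fun k => by rw [dsprn_ax_map, hE, hY, SAlg.map_map, n1.comp, e, map_zero]
  simp only [dsprn_ax_map, map_zero] at e2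
  exact ⟨B2, inferInstance, _, ρ2, n1.trans n2, (dsprn_split_iff _).2 ⟨_, _, e2⟩⟩

end Pool.Agent.GSD
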