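import Pool.Agent.P.MP_c1f06d_ag.d.DCore0
import Pool.Agent.P.MP_c1f06d_ag.d.DSprN
import Pool.Agent.P.MP_c1f06d_ag.d.DOri
import Pool.Agent.P.MP_c1f06d_ag.d.DNP
import Pool.Agent.P.MP_c1f06d_ag.d.DFinC

open Matrix Module Polynomial Pool.Agent.SU IsLocalRing Pool.Agent.P.MP_c1f06d_ag

universe u

namespace Pool.Agent.GSD

open SAlg

variable {N m : ℕ}

/-- A simple root along a section exists on an etale neighbourhood. -/
theorem dcb_root {T R : Type u} [CommRing T] [CommRing R] [IsLocalRing R] (σ : T →+* R)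
    (hσ : Function.Surjective σ) (F : T[X]) (h0 : σ (F.coeff 0) = 0)
    (h1 : IsUnit (σ (F.coeff 1))) :
    ∃ (T' : Type u) (_ : CommRing T') (f : T →+* T') (σ' : T' →+* R) (s : T'),
      f.Etale ∧ σ'.comp f = σ ∧ (F.map f).eval s = 0 := by
  obtain ⟨v, hv⟩ := h1.exists_left_inv
  obtain ⟨T', _, f, σ', x, hf, hc, -, hx⟩ := exists_etale_sol σ hσ (ι := Bool) (κ := Bool)
    (fun S _ f x b => cond b ((F.map f).eval (x true))
      (x false * (F.map f).derivative.eval (x true) - 1))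
    (fun S S' _ _ f g x => funext fun b => by
      cases b <;> simp [← Polynomial.map_map, eval_map, ← hom_eval₂, eval₂_map])
    (fun S _ f I hI x hx => by
      have sq : ∀ a ∈ I, ∀ b ∈ I, a * b = 0 := fun a ha b hb => by
        have : a * b ∈ I ^ 2 := by rw [sq]; exact Ideal.mul_mem_mul ha hb
        rwa [hI, Ideal.mem_bot] at this
      generalize F.map f = G at hx ⊢
      have a1 : G.eval (x true) ∈ I := hx true
      have a2 : x false * G.derivative.eval (x true) - 1 ∈ I := hx false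
      have a3 : -(x false * G.eval (x true)) ∈ I := I.neg_mem (I.mul_mem_left _ a1)
      have a4 := fun p : S[X] => p.eval_add_of_sq_eq_zero (x true) _ ((pow_two _).trans (sq _ a3 _ a3))
      have a5 : x false * G.derivative.eval (x true + -(x false * G.eval (x true))) - 1 ∈ I := by
        rw [a4, mul_add, add_sub_right_comm]
        exact I.add_mem a2 (I.mul_mem_left _ (I.mul_mem_left _ a3))
      refine ⟨fun b => cond b (x true + -(x false * G.eval (x true))) (x false - x false *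
        (x false * G.derivative.eval (x true + -(x false * G.eval (x true))) - 1)),
        fun b => ?_, funext fun b => ?_⟩
      · cases b
        · simpa using I.mul_mem_left _ a5
        · simpa using a3
      · cases b
        · have := sq _ a5 _ a5
          simp only [cond_false, cond_true, Pi.zero_apply]
          linear_combination -this
        · have := sq _ a1 _ a2
          simp only [cond_true, Pi.zero_apply, a4]
          linear_combination -this)
    (fun b => cond b 0 v) (funext fun b => by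
      cases b <;> simp [← coeff_zero_eq_eval_zero, coeff_derivative, h0, hv])
  exact ⟨T', inferInstance, f, σ', x true, hf, hc, congrFun hx true⟩

section Spread
variable {B O : Type u} [CommRing B] [CommRing O] {ρ : B →+* O}

theorem dcb_pairN_spread (h : LocPres ρ 0) (hN : N = m * m) (A : SAlg B N) {l : A.Car} {c : B}
    (H : PairN O (A.bc ρ l) (ρ c)) :
    ∃ (B' : Type u) (_ : CommRing B') (j : B →+* B') (ρ' : B' →+* O), Nb ρ j ρ' ∧
      PairN B' (A.bc j l) (j c) := by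
  obtain ⟨l1, l2, t, c1, c2, ⟨z1, a1⟩, ⟨z2, a2⟩, n1, n2, e⟩ := H
  obtain ⟨B1, _, j1, ρ1, h1, y, hy⟩ := spr_lift h A
    ![(l1 : (A.map ρ).Car), l2, (l1⁻¹ : (A.map ρ).Carˣ), (l2⁻¹ : (A.map ρ).Carˣ), z1, z2]
  obtain rfl := h1.comp
  obtain ⟨B2, _, j2, ρ2, h2, s, hs⟩ := exists_nb_lift h1.lp ![t, c1, c2]
  obtain rfl := h2.comp
  let A2 := (A.map j1).map j2
  let w : Fin 6 → A2.Car := fun i => (A.map j1).bc j2 (y i)
  let l' : A2.Car := A.bc (j2.comp j1) l
  have w0 : A2.bc ρ2 (w 0) = l1.1 := Car.ext (hy 0)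
  have w1 : A2.bc ρ2 (w 1) = l2.1 := Car.ext (hy 1)
  have w2 : A2.bc ρ2 (w 2) = (l1⁻¹).1 := Car.ext (hy 2)
  have w3 : A2.bc ρ2 (w 3) = (l2⁻¹).1 := Car.ext (hy 3)
  have w4 : A2.bc ρ2 (w 4) = z1 := Car.ext (hy 4)
  have w5 : A2.bc ρ2 (w 5) = z2 := Car.ext (hy 5)
  have s0 : ρ2 (s 0) = t := hs 0
  have s1 : ρ2 (s 1) = c1 := hs 1
  have s2 : ρ2 (s 2) = c2 := hs 2
  obtain ⟨B3, _, j3, ρ3, h3, e3⟩ := spr_eq h2.lp A2
    ![w 0 * w 2, w 1 * w 3, w 0 - l', w 1 - l']
    ![1, 1, w 4 - star (w 4), w 5 - star (w 5)] fun i => by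
      fin_cases i
      · change A2.bc ρ2 (w 0 * w 2) = A2.bc ρ2 1
        rw [map_mul, w0, w2, map_one]; exact l1.mul_inv
      · change A2.bc ρ2 (w 1 * w 3) = A2.bc ρ2 1
        rw [map_mul, w1, w3, map_one]; exact l2.mul_inv
      · change A2.bc ρ2 (w 0 - l') = A2.bc ρ2 (w 4 - star (w 4))
        rw [map_sub, map_sub, bc_star, w0, w4]; exact a1
      · change A2.bc ρ2 (w 1 - l') = A2.bc ρ2 (w 5 - star (w 5))
        rw [map_sub, map_sub, bc_star, w1, w5]; exact a2
  obtain rfl := h3.comp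
  obtain ⟨B4, _, j4, ρ4, h4, e4⟩ := exists_nb_eq h3.lp (fun _ : Unit => j3 (j2 (j1 c)))
    (fun _ => j3 (s 0 ^ 2 * (s 1 * s 2))) fun _ => by
      change _ = (ρ3.comp j3) _
      rw [map_mul, map_mul, map_pow, s0, s1, s2]
      exact e
  obtain rfl := h4.comp
  obtain ⟨B5, _, j5, ρ5, h5, e5⟩ := gisNrd_spread h4.lp hN ((A2.map j3).map j4)
    (a := A2.bc (j4.comp j3) (w 0)) (c := j4 (j3 (s 1))) (by
      rw [← s1, ← w0] at n1; exact n1)
  obtain rfl := h5.comp
  obtain ⟨B6, _, j6, ρ6, h6, e6⟩ := gisNrd_spread h5.lp hN (((A2.map j3).map j4).map j5)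
    (a := A2.bc (j5.comp (j4.comp j3)) (w 1)) (c := j5 (j4 (j3 (s 2)))) (by
      rw [← s2, ← w1] at n2; exact n2)
  let k := (j6.comp (j5.comp j4)).comp j3
  have e3' : ∀ i, A2.bc k (![w 0 * w 2, w 1 * w 3, w 0 - l', w 1 - l'] i) =
      A2.bc k (![1, 1, w 4 - star (w 4), w 5 - star (w 5)] i) := fun i =>
    congrArg ((A2.map j3).bc (j6.comp (j5.comp j4))) (e3 i)
  have u1 : IsUnit (A2.bc k (w 0)) := isUnit_of_mul_eq_one (y := A2.bc k (w 2)) (by
    rw [← map_mul]; exact (e3' 0).trans (map_one _))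
  have u2 : IsUnit (A2.bc k (w 1)) := isUnit_of_mul_eq_one (y := A2.bc k (w 3)) (by
    rw [← map_mul]; exact (e3' 1).trans (map_one _))
  refine ⟨B6, inferInstance, _, ρ6, ((((h1.trans h2).trans h3).trans h4).trans h5).trans h6,
    u1.unit, u2.unit, k (s 0), k (s 1), k (s 2), ⟨A2.bc k (w 4), ?_⟩,
    ⟨A2.bc k (w 5), ?_⟩, e5.map (sbc_bc _ j6).toBC, e6, ?_⟩
  · have : A2.bc k (w 0 - l') = A2.bc k (w 4 - star (w 4)) := e3' 2
    rw [map_sub, map_sub, bc_star] at this
    exact this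
  · have : A2.bc k (w 1 - l') = A2.bc k (w 5 - star (w 5)) := e3' 3
    rw [map_sub, map_sub, bc_star] at this
    exact this
  · rw [← map_pow, ← map_mul, ← map_mul]
    exact congrArg (j6.comp j5) (e4 ())

theorem dcb_mat_eq (h : LocPres ρ 0) (A : SAlg B N) {ι n : Type} [Finite ι] [Finite n]
    (x y : ι → Matrix n n A.Car) (e : ∀ i, (x i).map (A.bc ρ) = (y i).map (A.bc ρ)) :
    ∃ (B' : Type u) (_ : CommRing B') (j : B →+* B') (ρ' : B' →+* O), Nb ρ j ρ' ∧
      ∀ i, (x i).map (A.bc j) = (y i).map (A.bc j) := by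
  obtain ⟨B', _, j, ρ', hn, e'⟩ := spr_eq h A (fun p : ι × n × n => x p.1 p.2.1 p.2.2)
    (fun p => y p.1 p.2.1 p.2.2) fun p => congrFun (congrFun (e p.1) p.2.1) p.2.2
  exact ⟨B', inferInstance, j, ρ', hn, fun i => Matrix.ext fun a b => e' (i, a, b)⟩

omit ρ in
theorem dcb_gram {T T' : Type u} [CommRing T] [CommRing T'] (A : SAlg T N) (f : T →+* T')
    {n : Type} (l : A.Car) (C : n → A.Car) :
    (gram l C).map (A.bc f) = gram (A.bc f l) fun i => A.bc f (C i) := by
  ext1 a b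
  simp only [gram, Matrix.map_apply, Matrix.of_apply, map_mul, bc_star]

omit ρ in
theorem dcb_star {T T' : Type u} [CommRing T] [CommRing T'] (A : SAlg T N) (f : T →+* T')
    {n : Type} (Z : Matrix n n A.Car) : (star Z).map (A.bc f) = star (Z.map (A.bc f)) := by
  ext1 a b
  simp only [Matrix.map_apply, Matrix.star_apply, bc_star]

theorem dcb_wn_spread (h : LocPres ρ 0) (A : SAlg B N) {l : A.Car} (hA : QAz B m l) {c : B}
    (H : WN O (A.bc ρ l) (ρ c)) :
    ∃ (B' : Type u) (_ : CommRing B') (j : B →+* B') (ρ' : B' →+* O), Nb ρ j ρ' ∧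
      WN B' (A.bc j l) (j c) := by
  obtain ⟨g, n, _, _, C0, Y, t, he, ⟨Z, hZ⟩, -, hc⟩ := H
  obtain ⟨B1, _, j1, ρ1, h1, y, hy⟩ := spr_lift h A (ι := n ⊕ Fin 3 × n × n)
    (Sum.elim C0 fun p => (![(Y : Matrix n n _), (Y⁻¹ : (Matrix n n _)ˣ), Z] p.1) p.2.1 p.2.2)
  obtain rfl := h1.comp
  obtain ⟨B2, _, j2, ρ2, h2, s, hs⟩ := exists_nb_lift h1.lp ![(t : O), (t⁻¹ : Oˣ)]
  obtain rfl := h2.comp
  let A2 := (A.map j1).map j2
  let l' : A2.Car := A.bc (j2.comp j1) l
  let C2 : n → A2.Car := fun i => (A.map j1).bc j2 (y (.inl i))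
  let M : Fin 3 → Matrix n n A2.Car := fun a =>
    Matrix.of fun p q => (A.map j1).bc j2 (y (.inr (a, p, q)))
  have hC : (fun i => A2.bc ρ2 (C2 i)) = C0 := funext fun i => Car.ext (hy (.inl i))
  have hM0 : (M 0).map (A2.bc ρ2) = Y.1 := Matrix.ext fun p q => Car.ext (hy (.inr (0, p, q)))
  have hM1 : (M 1).map (A2.bc ρ2) = (Y⁻¹).1 :=
    Matrix.ext fun p q => Car.ext (hy (.inr (1, p, q)))
  have hM2 : (M 2).map (A2.bc ρ2) = Z := Matrix.ext fun p q => Car.ext (hy (.inr (2, p, q)))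
  obtain ⟨B3, _, j3, ρ3, h3, e3⟩ := dcb_mat_eq h2.lp A2
    ![M 0 * M 1, M 1 * M 0, M 0 - gram l' C2] ![1, 1, M 2 - star (M 2)] fun i => by
      fin_cases i
      · change (M 0 * M 1).map _ = (1 : Matrix n n A2.Car).map _
        rw [Matrix.map_mul, hM0, hM1, Matrix.map_one _ (map_zero _) (map_one _)]
        exact Y.mul_inv
      · change (M 1 * M 0).map _ = (1 : Matrix n n A2.Car).map _
        rw [Matrix.map_mul, hM0, hM1, Matrix.map_one _ (map_zero _) (map_one _)]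
        exact Y.inv_mul
      · change (M 0 - gram l' C2).map _ = (M 2 - star (M 2)).map _
        rw [Matrix.map_sub _ (map_sub _), Matrix.map_sub _ (map_sub _), dcb_gram, dcb_star, hM0,
          hM2, hC]
        exact hZ
  obtain rfl := h3.comp
  have hA2 : Az B2 A2.Car := (hA.map (sbc_bc A (j2.comp j1))).az
  obtain ⟨B4, _, j4, ρ4, h4, e4⟩ := exists_nb_eq h3.lp ![j3 (j2 (j1 c)), j3 (s 0 * s 1)]
    ![j3 (s 0 ^ 2 * nrd B2 (M 0)), 1] fun i => by
      fin_cases i
      · change ρ3 (j3 (j2 (j1 c))) = (ρ3.comp j3) (s 0 ^ 2 * nrd B2 (M 0))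
        rw [map_mul, map_pow, hs, ← hA2.nrd_map_mat (sbc_bc A2 _).toBC, hM0]
        exact hc
      · change (ρ3.comp j3) (s 0 * s 1) = ρ3 1
        rw [map_mul, hs, hs, map_one]
        exact t.mul_inv
  let k := j4.comp j3
  have e3' : ∀ i, (![M 0 * M 1, M 1 * M 0, M 0 - gram l' C2] i).map (A2.bc k) =
      (![1, 1, M 2 - star (M 2)] i).map (A2.bc k) := fun i =>
    congrArg (fun X => Matrix.map X ((A2.map j3).bc j4)) (e3 i)
  have u0 : (M 0).map (A2.bc k) * (M 1).map (A2.bc k) = 1 := by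
    rw [← Matrix.map_mul]
    exact (e3' 0).trans (Matrix.map_one _ (map_zero _) (map_one _))
  have u1 : (M 1).map (A2.bc k) * (M 0).map (A2.bc k) = 1 := by
    rw [← Matrix.map_mul]
    exact (e3' 1).trans (Matrix.map_one _ (map_zero _) (map_one _))
  have u2 : k (s 0) * k (s 1) = 1 := by
    rw [← map_mul]; exact (e4 1).trans (map_one j4)
  refine ⟨B4, inferInstance, _, ρ4, ((h1.trans h2).trans h3).trans h4, _, n, inferInstance,
    inferInstance, fun i => A2.bc k (C2 i), ⟨_, _, u0, u1⟩, ⟨_, _, u2, (mul_comm _ _).trans u2⟩,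
    he, ⟨(M 2).map (A2.bc k), ?_⟩, rfl, ?_⟩
  · have := e3' 2
    change (M 0 - gram l' C2).map _ = (M 2 - star (M 2)).map _ at this
    rw [Matrix.map_sub _ (map_sub _), Matrix.map_sub _ (map_sub _), dcb_gram, dcb_star] at this
    exact this
  · change _ = k (s 0) ^ 2 * nrd B4 ((M 0).map (A2.bc k))
    rw [hA2.nrd_map_mat (sbc_bc A2 k).toBC, ← map_pow, ← map_mul]
    exact e4 0

end Spread

theorem dcb_siso {T : Type u} [CommRing T] {A1 A2 : SAlg T N} (Φ : SIso A1 A2) :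
    SBC (RingHom.id T) (Φ.e : A1.Car →+* A2.Car) :=
  ⟨⟨Φ.e.commutes, N, (Pi.basisFun T (Fin N)).map A1.coL.symm,
    ((Pi.basisFun T (Fin N)).map A1.coL.symm).map Φ.e.toLinearEquiv, fun _ => rfl⟩, Φ.st⟩

/-- The datum along `ψ` is isomorphic to the constant one, and the two constants differ by a
product of two norms. -/
def dcb_W {B R : Type u} [CommRing B] [CommRing R] (A : SAlg B N) (l : A.Car) (c : B)
    (ρ : B →+* R) : Pr R B := fun T _ i ψ =>
  (∃ Φ : SIso (A.map (i.comp ρ)) (A.map ψ), Alt (Φ.e (A.bc _ l) - A.bc ψ l)) ∧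
    PairN T (A.bc (i.comp ρ) l) (i (ρ c) * ψ c)

theorem dcb_stable {B R : Type u} [CommRing B] [CommRing R] (A : SAlg B N) (l : A.Car) (c : B)
    (ρ : B →+* R) : (dcb_W A l c ρ).Stable := by
  rintro T T' _ _ χ i ψ ⟨⟨Φ, h1⟩, h2⟩
  obtain ⟨Ψ, hΨ⟩ := Φ.exists_map χ
  refine ⟨⟨Ψ, ?_⟩, ?_⟩
  · have := h1.map _ ((A.map ψ).bc_star (f := χ))
    rw [map_sub, ← hΨ] at this
    exact this
  · have := h2.map (sbc_bc _ χ)
    rw [map_mul] at this
    exact this

theorem dcb_near {B R : Type u} [CommRing B] [CommRing R] [IsLocalRing R]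
    [Infinite (ResidueField R)] {A : SAlg B N} {l : A.Car} {c : B} {ρ : B →+* R}
    (hA : QAz R m (A.bc ρ l)) (hm : 2 ≤ m) (hq : QM A l) (hc : IsUnit c) :
    (dcb_W A l c ρ).Near ρ := by
  intro T _ i ψ σ hi hψ
  have hσ : Function.Surjective σ := fun r => ⟨i r, RingHom.congr_fun hi r⟩
  have hcm : σ.comp (i.comp ρ) = σ.comp ψ := by rw [← RingHom.comp_assoc, hi, hψ]; rfl
  have hG : QAz T m (A.bc (i.comp ρ) l) := hA.map (sbc_bc _ i)
  obtain ⟨T1, _, f1, σ1, e1, c1, Φ, -, p2⟩ := exists_etale_qiso (A1 := A.map (i.comp ρ))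
    (A2 := A.map ψ) σ hσ (congrArg A.map hcm) (l1 := A.bc _ l) (l2 := A.bc _ l)
    (funext fun a => RingHom.congr_fun hcm (l.co a)) (hG.qn (by omega)) (hq.map ψ)
  have hσ1 : Function.Surjective σ1 := fun r =>
    let ⟨t, ht⟩ := hσ r; ⟨f1 t, (RingHom.congr_fun c1 t).trans ht⟩
  obtain ⟨y, w, p, hy, uy, hw, p0, p1, hp⟩ := hA.exists_smooth_line hm
  have s1 : ∀ r, σ1 (f1 (i r)) = r := fun r =>
    (RingHom.congr_fun c1 _).trans (RingHom.congr_fun hi r)
  have s2 : σ1 (f1 (ψ c)) = ρ c := (RingHom.congr_fun c1 _).trans (RingHom.congr_fun hψ c)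
  obtain ⟨T2, _, f2, σ2, s, e2, c2, hs⟩ := dcb_root σ1 hσ1
    (C (f1 (i (ρ c))) * p.map (f1.comp i) - C (f1 (i (p.coeff 0)) * f1 (ψ c)))
    (by simp [s1, s2, mul_comm]) (by simpa [s1, coeff_C] using (hc.map ρ).mul p1)
  refine ⟨T2, inferInstance, f2.comp f1, σ2, RingHom.Etale.stableUnderComposition _ _ e1 e2,
    by rw [← RingHom.comp_assoc, c2, c1], ?_, ?_⟩
  · obtain ⟨Ψ, hΨ⟩ := Φ.exists_map f2
    refine ⟨Ψ, ?_⟩
    have := p2.map _ (((A.map ψ).map f1).bc_star (f := f2))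
    rw [map_sub, ← hΨ] at this
    exact this
  · let k : R →+* T2 := (f2.comp f1).comp i
    have hk := sbc_bc (A.map ρ) k
    have hz : Az T2 ((A.map ρ).map k).Car := (hA.map hk).az
    have n1 := hp _ _ k _ hk.toBC s
    have n2 : nrd T2 ((A.map ρ).bc k y) = k (p.coeff 0) := by
      rw [hA.az.nrd_map hk.toBC, p0]
    have u0 : IsUnit (k (p.coeff 0)) := (p0 ▸ hA.az.isUnit_nrd_iff.2 uy).map k
    have hs' : k (ρ c) * (p.map k).eval s = k (p.coeff 0) * f2 (f1 (ψ c)) := by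
      rw [Polynomial.map_sub, Polynomial.map_mul, map_C, map_C, Polynomial.map_map, eval_sub,
        eval_mul, eval_C, eval_C, map_mul, sub_eq_zero] at hs
      exact hs
    have u1 : IsUnit ((A.map ρ).bc k y + s • (A.map ρ).bc k w) := by
      rw [← hz.isUnit_nrd_iff, n1]
      exact isUnit_of_mul_isUnit_right (hs' ▸ u0.mul (((hc.map ψ).map f1).map f2))
    obtain ⟨v, hv⟩ := u0.exists_right_inv
    have ly : La ((A.map ρ).bc k (A.bc ρ l)) ((A.map ρ).bc k y) := by
      have := Alt.map _ hk.map_star hy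
      rw [map_sub] at this
      exact this
    have lw : Alt (s • (A.map ρ).bc k w) := by
      obtain ⟨z, hz⟩ := Alt.map _ hk.map_star hw
      exact ⟨s • z, by rw [hz, star_smul', smul_sub]⟩
    refine ⟨u1.unit, (uy.map ((A.map ρ).bc k)).unit, k (ρ c) * v, _, _, ly.add_alt lw, ly,
      hz.isNrd _, hz.isNrd _, ?_⟩
    change k (ρ c) * f2 (f1 (ψ c)) = _ * (nrd T2 (_ + _) * nrd T2 ((A.map ρ).bc k y))
    rw [n1, n2]
    linear_combination (-(k (ρ c) * v ^ 2 * k (p.coeff 0))) * hs' -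
      k (ρ c) * f2 (f1 (ψ c)) * (k (p.coeff 0) * v + 1) * hv

theorem dcb_norm {R : Type u} [CommRing R] {P : R[X]} (hP : P.Monic) (c : R) :
    Algebra.norm R (AdjoinRoot.of P c) = c ^ P.natDegree := by
  have := Algebra.norm_algebraMap_of_basis (AdjoinRoot.powerBasis' hP).basis c
  rwa [Fintype.card_fin] at this

theorem dcb_inf {B R : Type u} [CommRing B] [CommRing R] [IsDomain R] [IsLocalRing R]
    [Infinite (ResidueField R)] {ρ : B →+* R} {q : Ideal R} [q.IsPrime]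
    [ValuationRing (Localization.AtPrime q)] (hg : GP ρ q) (K : Type u) [Field K] [Algebra R K]
    [IsFractionRing R K] (hN : N = m * m) {A : SAlg R N} {l : A.Car} (h : QAz R m l)
    (hm : Even m) (h2 : 2 ≤ m) {c : R} (hc : IsUnit c)
    (hK : PairN K (A.bc (algebraMap R K) l) (algebraMap R K c)) : WN R l c := by
  obtain ⟨B1, _, j1, ρ1, n1, A1, rfl⟩ := spr_model hg.lp A
  obtain ⟨B2, _, j2, ρ2, n2, y, hy⟩ := spr_lift n1.lp A1 fun _ : Unit => l
  obtain rfl := n2.comp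
  obtain rfl : (A1.map j2).bc ρ2 (y ()) = l := Car.ext (hy ())
  obtain ⟨B3, _, j3, ρ3, n3, q3⟩ := qm_spread n2.lp (A1.map j2) (h.qn (by omega)).toQM
  obtain rfl := n3.comp
  obtain ⟨B4, _, j4, ρ4, n4, a, ha⟩ := exists_nb_lift n3.lp fun _ : Unit => c
  obtain rfl := n4.comp
  obtain rfl := ha ()
  obtain ⟨B5, _, j5, ρ5, n5, u5⟩ := exists_nb_unit n4.lp (a ()) hc
  obtain rfl := n5.comp
  have hg1 := hg.nb ((((n1.trans n2).trans n3).trans n4).trans n5)
  let A0 := (((A1.map j2).map j3).map j4).map j5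
  let l0 : A0.Car := (A1.map j2).bc (j5.comp (j4.comp j3)) (y ())
  have q0 : QM A0 l0 := (q3.map j4).map j5
  have h' : QAz R m (A0.bc ρ5 l0) := h
  change WN R (A0.bc ρ5 l0) (ρ5 (j5 (a ())))
  change PairN K ((A0.map ρ5).bc _ (A0.bc ρ5 l0)) (algebraMap R K (ρ5 (j5 (a ())))) at hK
  generalize j5 (a ()) = c0 at u5 hK ⊢
  let O := Localization.AtPrime q
  have := infinite_residue (algebraMap R O)
  let _ : Algebra O K := IsLocalization.localizationAlgebraOfSubmonoidLe O K q.primeCompl _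
    q.primeCompl_le_nonZeroDivisors
  have : IsScalarTower R O K := IsLocalization.localization_isScalarTower_of_submonoid_le O K
    q.primeCompl _ q.primeCompl_le_nonZeroDivisors
  have : IsFractionRing O K :=
    IsFractionRing.isFractionRing_of_isDomain_of_isLocalization q.primeCompl O K
  rw [IsScalarTower.algebraMap_eq R O K] at hK
  have hO := val_pairN (h'.map (sbc_bc _ (algebraMap R O))) hm (sbc_bc _ (algebraMap O K))
    ((u5.map ρ5).map (algebraMap R O)) hK
  obtain ⟨B6, _, j6, ρ6, n6, t6⟩ := dcb_pairN_spread (hg1.lp_at O) hN A0 (l := l0) (c := c0) hO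
  obtain ⟨P, k, ψ, hP, hk, ⟨Φ, hΦ⟩, hW⟩ := hg1.run n6 2 two_pos (dcb_W A0 l0 c0 ρ5)
    (dcb_stable _ _ _ _) (dcb_near h' h2 q0 u5)
  have t7 : PairN _ (A0.bc (ψ.comp j6) l0) (ψ (j6 c0)) := by
    have := t6.map (sbc_bc _ ψ)
    exact this
  have t8 := (t7.of_la hΦ).map (dcb_siso Φ.symm)
  have t9 : PairN _ ((A0.map ρ5).bc (AdjoinRoot.of P) (A0.bc ρ5 l0)) (ψ (j6 c0)) := by
    change PairN _ (Φ.e.symm (Φ.e _)) _ at t8
    rw [Φ.e.symm_apply_apply] at t8
    exact t8
  have u6 : IsUnit (ψ (j6 c0)) := (u5.map j6).map ψ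
  have w1 := np_inf h' hm hP (sbc_bc _ _) u6 t9
  have w2 := np_inf h' hm hP (sbc_bc _ _) (((u5.map ρ5).map (AdjoinRoot.of P)).mul u6) hW
  rw [map_mul, dcb_norm hP] at w2
  refine WN.of_odd_pow h' (k := P.natDegree) ⟨k, hk⟩
    ((w1.mul h' w2).of_isSquare h' ((u5.map ρ5).pow _)
      ⟨Algebra.norm R (ψ (j6 c0)) * ρ5 c0 ^ P.natDegree, by ring⟩)

theorem dcb_run_RX {R : Type u} [CommRing R] [IsLocalRing R] [Finite (ResidueField R)]
    {B' : Type u} [CommRing B'] {j : R[X] →+* B'} {ρ' : B' →+* RX R}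
    (hn : Nb (algebraMap R[X] (RX R)) j ρ') (D : ℕ) (hD : 0 < D) :
    ∃ (P : R[X]) (k : ℕ) (ψ' : B' →+* AdjoinRoot P), P.Monic ∧ P.natDegree = D * (k + 1) + 1 ∧
      Irreducible (P.map (residue R)) ∧ (ψ'.comp j).comp C = AdjoinRoot.of P := by
  obtain ⟨s, hF, hx⟩ := hn.ext
  have hs : s.map (residue R) ≠ 0 := by
    have := hF.map ρ'
    rw [hn.apply] at this
    exact (isUnit_RX_iff R s).1 this
  obtain ⟨Q, q1, q2, q3⟩ := exists_irreducible_degree (ResidueField R)
    (D * ((s.map (residue R)).natDegree + 1) + 1) (Nat.succ_ne_zero _)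
  have su : Function.Surjective (Polynomial.map (residue R)) :=
    map_surjective _ residue_surjective
  obtain ⟨P, p1, p2, p3⟩ := lifts_and_natDegree_eq_and_monic (f := residue R) (p := Q)
    ((mem_lifts Q).mpr (su Q)) q1
  have hu : IsUnit (AdjoinRoot.mk P s) := by
    obtain ⟨a, b, hab⟩ : IsCoprime Q (s.map (residue R)) :=
      q2.coprime_iff_not_dvd.mpr fun h => absurd (natDegree_le_of_dvd h hs) (by rw [q3]; nlinarith)
    obtain ⟨a, rfl⟩ := su a
    obtain ⟨b, rfl⟩ := su b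
    have := p3.finite_adjoinRoot
    have h1 : a * P + b * s - 1 ∈ mX R := by
      rw [rx_mem_iff, Polynomial.map_sub, Polynomial.map_add, Polynomial.map_mul,
        Polynomial.map_mul, p1, hab, Polynomial.map_one, sub_self]
    have h2 := Ideal.mem_map_of_mem (AdjoinRoot.mk P) h1
    rw [Ideal.map_map, map_sub, map_add, map_mul, map_mul, AdjoinRoot.mk_self, mul_zero, zero_add,
      map_one] at h2
    exact isUnit_of_mul_isUnit_right (isUnit_of_sub_mem_map (R := R) isUnit_one h2)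
  obtain ⟨ψ', e⟩ := hx _ (AdjoinRoot.mk P) hu
  exact ⟨P, _, ψ', p3, p2.trans q3, p1 ▸ q2, by rw [e]; rfl⟩

theorem dcb_finDeg (n k : ℕ) : FinDeg n (n.factorial * (k + 1) + 1) := by
  refine ⟨Nat.lt_succ_of_le (Nat.mul_pos n.factorial_pos k.succ_pos), fun e h2 hn hd => ?_⟩
  have := (Nat.dvd_add_right ((Nat.dvd_factorial (by omega) hn).mul_right _)).1 hd
  have := Nat.le_of_dvd one_pos this
  omega

variable (V C : Type u) [CommRing V] [IsDomain V] [ValuationRing V] [CommRing C] [Algebra V C]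
  [Algebra.Smooth V C] (p : Ideal C) [p.IsPrime] {R : Type u} [CommRing R] [IsDomain R]
  [Algebra C R] [IsLocalization.AtPrime R p] {K : Type u} [Field K] [Algebra R K]
  [IsFractionRing R K]

include V p

theorem dcb_main (hN : N = m * m) {A : SAlg R N} {l : A.Car} (h : QAz R m l) (hm : Even m)
    (h5 : 5 ≤ m) {c : R} (hc : IsUnit c)
    (hK : PairN K (A.bc (algebraMap R K) l) (algebraMap R K c)) : WN R l c := by
  have := IsLocalization.AtPrime.isLocalRing R p
  rcases finite_or_infinite (ResidueField R) with hfin | hinf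
  · obtain ⟨B, _, ρ, q, _, _, hg⟩ := exists_gp_RX V C p R
    obtain ⟨K1, _, _, _, j, hj⟩ := exists_frac_RX R K
    have := infinite_residueField_RX R
    have t1 : PairN K1 (A.bc (j.comp (algebraMap R K)) l) (j.comp (algebraMap R K) c) := by
      have := hK.map (sbc_bc _ j)
      exact this
    rw [hj] at t1
    have t3 := dcb_inf hg K1 hN (h.map (sbc_bc A ((algebraMap R[X] (RX R)).comp Polynomial.C)))
      hm (by omega) (hc.map ((algebraMap R[X] (RX R)).comp Polynomial.C)) t1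
    obtain ⟨B2, _, j2, ρ2, hn, t4⟩ := dcb_wn_spread lp_RX (A.map Polynomial.C)
      (h.map (sbc_bc A Polynomial.C)) (c := Polynomial.C c) t3
    obtain ⟨P, k, ψ, hP, hk, hi, hψ⟩ := dcb_run_RX hn _
      (m * m + Nat.card (ResidueField R)).factorial_pos
    have t5 : WN _ (A.bc ((ψ.comp j2).comp Polynomial.C) l) (((ψ.comp j2).comp Polynomial.C) c) := by
      have := t4.map (h.map (sbc_bc A (j2.comp Polynomial.C))) (sbc_bc _ ψ)
      exact this
    rw [hψ] at t5
    have hd := dcb_finDeg (m * m + Nat.card (ResidueField R)) k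
    have t6 := np_fin h hm h5 hP hi (hk ▸ hd) (sbc_bc A _) t5
    rw [dcb_norm hP] at t6
    refine t6.of_odd_pow h (Nat.not_even_iff_odd.1 fun he => ?_)
    exact hd.2 2 le_rfl (by nlinarith) (hk ▸ he.two_dvd)
  · obtain ⟨B, _, ρ, q, _, _, hg⟩ := exists_gp V C p R
    exact dcb_inf hg K hN h hm (by omega) hc hK

theorem dcb_coreB {A AK : Type u} [Ring A] [StarRing A] [Algebra R A] [Ring AK] [StarRing AK]
    [Algebra K AK] [StarFix K AK] {j : A →+* AK} {l : A}
    (h : QAz R m l) (hm : Even m) (h5 : 5 ≤ m) (hj : SBC (algebraMap R K) j) {c : R}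
    (hc : IsUnit c) (hK : PairN K (j l) (algebraMap R K c)) : WN R l c := by
  have := h.starFix
  have := h.az.free
  have := h.az.finite
  obtain ⟨N, B, e, h1, h2⟩ := exists_salg (T := R) (A := A)
  have hB := h.map h1
  have hN : N = m * m := by
    rw [← hB.finrank, B.coL.finrank_eq, Module.finrank_fin_fun]
  obtain ⟨k, hk, h3⟩ := hj.lift (g := RingHom.id K) (h1.comp (sbc_bc B (algebraMap R K)))
  have t1 := hK.map h3
  rw [show k (j l) = B.bc (algebraMap R K) (e l) from RingHom.congr_fun hk l] at t1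
  have t2 := (dcb_main V C p hN hB hm h5 hc t1).map hB h2
  rwa [show (e.symm : B.Car →+* A) ((e : A →+* B.Car) l) = l from e.symm_apply_apply l] at t2

end Pool.Agent.GSD
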