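import Pool.Agent.P.MP_c1f06d_ag.su.GeoD
import Pool.Agent.P.MP_c1f06d_ag.d.DOri
import Pool.Agent.P.MP_c1f06d_ag.d.DSplit
import Pool.Agent.P.MP_c1f06d_ag.d.DNP
import Pool.Agent.P.MP_c1f06d_ag.d.DFinC
import Pool.Agent.P.MP_c1f06d_ag.d.DCoreB
import Pool.Agent.P.MP_c1f06d_ag.d.DCoreA

open Matrix Module Polynomial Pool.Agent.SU IsLocalRing Pool.Agent.P.MP_c1f06d_ag

universe u

namespace Pool.Agent.GSD

variable (V C : Type u) [CommRing V] [IsDomain V] [ValuationRing V] [CommRing C] [Algebra V C]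
  [Algebra.Smooth V C] (p : Ideal C) [p.IsPrime] {R : Type u} [CommRing R] [IsDomain R]
  [Algebra C R] [IsLocalization.AtPrime R p] {K : Type u} [Field K] [Algebra R K]
  [IsFractionRing R K] {A AK : Type u} [Ring A] [StarRing A] [Algebra R A] [Ring AK] [StarRing AK]
  [Algebra K AK] [StarFix K AK] {j : A →+* AK} {m : ℕ} {l : A}

include V p

theorem coreA (h : QAz R m l) (hm : 2 ≤ m) (hj : SBC (algebraMap R K) j) {th : A}
    (hth : IsUnit (th + star th)) (hK : FormIso (j l) (j th)) : FormIso l th :=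
  coreA' V C p h hm hj hth hK

theorem coreB (h : QAz R m l) (hm : Even m) (h5 : 5 ≤ m) (hj : SBC (algebraMap R K) j) {c : R}
    (hc : IsUnit c) (hK : PairN K (j l) (algebraMap R K c)) : WN R l c :=
  dcb_coreB V C p h hm h5 hj hc hK

theorem coreC (h : QAz R m l) (hm : 2 ≤ m) (hj : SBC (algebraMap R K) j) {v : AK} (hv : v ≠ 0)
    (h1 : R1 v) : IsSplit R m l :=
  coreC' V C p h hm hj hv h1

end Pool.Agent.GSD
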