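import Pool.Agent.P.MP_c1f06d_ag.Stmt

open Matrix CliffordAlgebra Pool.Agent.P.MP_c1f06d_ag

universe u

namespace Pool.Agent.GSD

/-- The map of Clifford algebras that is `f` on scalars and `θ` on vectors sends `x` to `x'`. -/
def Sends {T T' M M' : Type u} [CommRing T] [AddCommGroup M] [Module T M]
    [CommRing T'] [AddCommGroup M'] [Module T' M'] (q : QuadraticForm T M)
    (q' : QuadraticForm T' M') (f : T → T') (θ : M → M') (x : CliffordAlgebra q)
    (x' : CliffordAlgebra q') : Prop :=
  ∃ Ψ : CliffordAlgebra q →+* CliffordAlgebra q',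
    (∀ c, Ψ (algebraMap T _ c) = algebraMap T' _ (f c)) ∧ (∀ v, Ψ (ι q v) = ι q' (θ v)) ∧ Ψ x = x'

variable {A : Type u} [Ring A] [StarRing A]

/-- A splitting over the `R`-algebra `T` of the algebra `A` with involution `star` and semitrace
`s ↦ Trd (l s)`: an isomorphism `T ⊗ A ≅ M_d(T)` that carries the pair to the pair adjoint to the
regular quadratic form `x ↦ xᵀ Q x`, whose polar matrix is `Q + Qᵀ`. -/
structure Splitting (R : Type u) [CommRing R] [Algebra R A] (l : A) (d : ℕ)
    (T : Type u) [CommRing T] [Algebra R T] where
  φ : A →ₐ[R] Matrix (Fin d) (Fin d) T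
  Q : Matrix (Fin d) (Fin d) T
  baseChange : IsBaseChange T φ.toLinearMap
  regular : IsUnit (Q + Qᵀ)
  adjoint : ∀ a, (Q + Qᵀ) * φ (star a) = (φ a)ᵀ * (Q + Qᵀ)
  semitrace : Q = (Q + Qᵀ) * φ l

/-- `(star, s ↦ Trd (l s))` is a quadratic pair of degree `d` on `A`: the involution is `R`-linear,
`l + star l = 1`, and some faithfully flat `R`-algebra carries a splitting. -/
def IsQuadPair (R : Type u) [CommRing R] [Algebra R A] (l : A) (d : ℕ) : Prop :=
  (∀ (r : R) (a : A), star (r • a) = r • star a) ∧ l + star l = 1 ∧
    ∃ (S : Type u) (_ : CommRing S) (_ : Algebra R S),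
      Module.FaithfullyFlat R S ∧ Nonempty (Splitting R l d S)

variable {R : Type u} [CommRing R] [Algebra R A] {l : A} {d : ℕ}

section
variable {T T' : Type u} [CommRing T] [Algebra R T] [CommRing T'] [Algebra R T']

/-- The quadratic form of a splitting. -/
noncomputable def Splitting.form (s : Splitting R l d T) : QuadraticForm T (Fin d → T) :=
  s.Q.toQuadraticForm'

/-- The points with values in `T` of the spin group of the quadratic pair, read in the splitting
`s`: the group `Spin(q)(T)` of the form `q` of `s`. -/
structure Splitting.Pt (s : Splitting R l d T) where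
  val : CliffordAlgebra s.form
  inSpin : InSpin s.form val

/-- `h` is an isometry from the base change of `s` along `f` to `s'` that intertwines the two
representations of `A`. -/
def Splitting.IsHom (s : Splitting R l d T) (s' : Splitting R l d T') (f : T →ₐ[R] T')
    (h : Matrix (Fin d) (Fin d) T') : Prop :=
  hᵀ * s'.Q * h = s.Q.map f ∧ ∀ a, s'.φ a * h = h * (s.φ a).map f

end

/-- A family of maps `Spin(q)(T) × E(T) → E(T)`, one for every `R`-algebra `T` and every splitting
over `T`, with form `q`. -/
def PairAction (R : Type u) [CommRing R] [Algebra R A] (l : A) (d : ℕ)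
    (E : Type u) [CommRing E] [Algebra R E] : Type (u + 1) :=
  ∀ (T : Type u) [CommRing T] [Algebra R T] (s : Splitting R l d T),
    s.Pt → (E →ₐ[R] T) → (E →ₐ[R] T)

variable {E : Type u} [CommRing E] [Algebra R E]

/-- The unit acts trivially and products act by composition. -/
def PairAction.IsAction (act : PairAction R l d E) : Prop :=
  ∀ (T : Type u) [CommRing T] [Algebra R T] (s : Splitting R l d T) (e : E →ₐ[R] T),
    (∀ x : s.Pt, x.val = 1 → act T s x e = e) ∧
    ∀ x y z : s.Pt, z.val = x.val * y.val → act T s z e = act T s x (act T s y e)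

/-- The action commutes with maps of `R`-algebras and with changes of splitting. -/
def PairAction.IsNatural (act : PairAction R l d E) : Prop :=
  ∀ (T T' : Type u) [CommRing T] [Algebra R T] [CommRing T'] [Algebra R T']
    (s : Splitting R l d T) (s' : Splitting R l d T') (f : T →ₐ[R] T')
    (h : Matrix (Fin d) (Fin d) T'), s.IsHom s' f h → ∀ (x : s.Pt) (x' : s'.Pt) (e : E →ₐ[R] T),
      Sends s.form s'.form f (fun v => h *ᵥ (f ∘ v)) x.val x'.val →
        f.comp (act T s x e) = act T' s' x' (f.comp e)

/-- Exactly one group element moves a given point to a given point. -/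
def PairAction.IsSimplyTransitive (act : PairAction R l d E) : Prop :=
  ∀ (T : Type u) [CommRing T] [Algebra R T] (s : Splitting R l d T) (e e' : E →ₐ[R] T),
    ∃! x : s.Pt, act T s x e = e'

/-- `Spec E` is a torsor under the spin group of the quadratic pair: it is faithfully flat over
`R`, and for every splitting over an `R`-algebra `T`, with form `q`, the group `Spin(q)(T)` acts
simply transitively on `E(T)`, naturally in `T` and in the splitting. -/
def IsPairTorsor (R : Type u) [CommRing R] [Algebra R A] (l : A) (d : ℕ)
    (E : Type u) [CommRing E] [Algebra R E] : Prop :=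
  Module.FaithfullyFlat R E ∧
    ∃ act : PairAction R l d E, act.IsAction ∧ act.IsNatural ∧ act.IsSimplyTransitive

end Pool.Agent.GSD
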