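import Mathlib

open Module

namespace Pool.Agent.GSD

section
variable {k V W : Type*} [Field k] [AddCommGroup V] [Module k V] [AddCommGroup W] [Module k W]

/-- `1 + t M` is invertible for all but finitely many `t`. -/
theorem finite_not_isUnit_one_add [FiniteDimensional k V] (M : Module.End k V) :
    {t : k | ¬ IsUnit (1 + t • M)}.Finite := by
  have h := Module.End.finite_spectrum M
  refine (h.image fun x => -x⁻¹).subset fun t ht => ?_
  have ht0 : t ≠ 0 := by
    rintro rfl
    exact ht (by simp)
  refine ⟨-t⁻¹, ?_, by simp⟩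
  rw [spectrum.mem_iff]
  intro hu
  apply ht
  have e : 1 + t • M = (-t) • (algebraMap k (Module.End k V) (-t⁻¹) - M) := by
    rw [Algebra.algebraMap_eq_smul_one, smul_sub, smul_smul]
    simp [ht0]
  rw [e, Algebra.smul_def]
  exact (((IsUnit.mk0 _ (neg_ne_zero.2 ht0))).map _).mul hu

/-- The rank does not drop at all but finitely many points of a line. -/
theorem finite_rank_lt [FiniteDimensional k W] (a b : V →ₗ[k] W) :
    {t : k | finrank k (LinearMap.range (a + t • b)) < finrank k (LinearMap.range a)}.Finite := by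
  obtain ⟨i, hi⟩ := a.rangeRestrict.exists_rightInverse_of_surjective a.range_rangeRestrict
  obtain ⟨p, hp⟩ := (LinearMap.range a).subtype.exists_leftInverse_of_injective
    (Submodule.ker_subtype _)
  refine (finite_not_isUnit_one_add (p ∘ₗ b ∘ₗ i)).subset fun t ht hu => ?_
  have e : 1 + t • (p ∘ₗ b ∘ₗ i) = p ∘ₗ (a + t • b) ∘ₗ i := by
    ext x
    have h1 : a (i x) = x := congrArg Subtype.val (LinearMap.congr_fun hi x)
    have h2 : p x = x := LinearMap.congr_fun hp x
    simp [h1, h2]
  rw [e, LinearMap.isUnit_iff_range_eq_top] at hu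
  have h3 : Submodule.map p (LinearMap.range (a + t • b)) = ⊤ := by
    rw [eq_top_iff, ← hu]
    rintro _ ⟨x, rfl⟩
    exact ⟨_, ⟨i x, rfl⟩, rfl⟩
  have h4 := Submodule.finrank_map_le p (LinearMap.range (a + t • b))
  rw [h3, finrank_top] at h4
  exact absurd ht (not_lt.2 h4)

/-- Flanders: if the rank of `a` is maximal on the line `a + t d`, then `d` maps the kernel of `a`
into the range of `a`. -/
theorem flanders [Infinite k] [FiniteDimensional k W] (a d : V →ₗ[k] W)
    (h : ∀ t : k, finrank k (LinearMap.range (a + t • d)) ≤ finrank k (LinearMap.range a))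
    {v : V} (hv : a v = 0) : d v ∈ LinearMap.range a := by
  by_contra hn
  let φ : V × k →ₗ[k] W := a.coprod (LinearMap.toSpanSingleton k W (d v))
  let ψ : V × k →ₗ[k] W := d.coprod 0
  have h1 : LinearMap.range a < LinearMap.range φ := by
    refine lt_of_le_of_ne ?_ fun e => hn ?_
    · rintro _ ⟨x, rfl⟩
      exact ⟨(x, 0), by simp [φ]⟩
    · rw [e]
      exact ⟨(0, 1), by simp [φ]⟩
  have h2 := Submodule.finrank_lt_finrank_of_lt h1
  obtain ⟨t, ht⟩ := ((finite_rank_lt φ ψ).union (Set.finite_singleton 0)).exists_notMem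
  simp only [Set.mem_union, Set.mem_ofPred_eq, Set.mem_singleton_iff, not_or, not_lt] at ht
  have h3 : LinearMap.range (φ + t • ψ) ≤ LinearMap.range (a + t • d) := by
    rintro _ ⟨⟨x, s⟩, rfl⟩
    refine ⟨x + (s * t⁻¹) • v, ?_⟩
    simp [φ, ψ, hv, smul_smul, ht.2, add_comm, add_left_comm, mul_left_comm t s]
  have h4 := Submodule.finrank_mono h3
  have h5 := h t
  omega

end

section
variable {k A : Type*} [Field k] [Ring A] [Algebra k A]

variable (k) in
/-- The dimension of the right ideal `a A`. -/
noncomputable def rk (a : A) : ℕ := finrank k (LinearMap.range (LinearMap.mulLeft k a))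

theorem mulLeft_add_smul (a b : A) (t : k) :
    LinearMap.mulLeft k (a + t • b) = LinearMap.mulLeft k a + t • LinearMap.mulLeft k b := by
  ext x
  simp [add_mul]

theorem rk_add_smul (a b : A) (t : k) : rk k (a + t • b) =
    finrank k (LinearMap.range (LinearMap.mulLeft k a + t • LinearMap.mulLeft k b)) := by
  rw [rk, mulLeft_add_smul]

theorem rk_le [FiniteDimensional k A] (a : A) : rk k a ≤ finrank k A :=
  Submodule.finrank_le _

theorem finite_rk_lt [FiniteDimensional k A] (a b : A) :
    {t : k | rk k (a + t • b) < rk k a}.Finite := by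
  simp only [rk_add_smul]
  exact finite_rank_lt (LinearMap.mulLeft k a) (LinearMap.mulLeft k b)

/-- Flanders for left multiplications. -/
theorem flanders_mul [Infinite k] [FiniteDimensional k A] (a d : A)
    (h : ∀ t : k, rk k (a + t • d) ≤ rk k a) {v : A} (hv : a * v = 0) : ∃ c, d * v = a * c := by
  obtain ⟨c, hc⟩ := flanders (LinearMap.mulLeft k a) (LinearMap.mulLeft k d)
    (fun t => by rw [← rk_add_smul]; exact h t) (v := v) hv
  exact ⟨c, hc.symm⟩

/-- In a nonempty set there is an element of maximal rank. -/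
theorem exists_max_rk [FiniteDimensional k A] {S : Set A} (hS : S.Nonempty) :
    ∃ a ∈ S, ∀ b ∈ S, rk k b ≤ rk k a := by
  have hb : BddAbove (rk k '' S) := ⟨finrank k A, by rintro _ ⟨b, -, rfl⟩; exact rk_le b⟩
  obtain ⟨a, ha, e⟩ := Nat.sSup_mem (hS.image (rk k)) hb
  exact ⟨a, ha, fun b h => e ▸ le_csSup hb ⟨b, h, rfl⟩⟩

theorem isUnit_iff_rk [FiniteDimensional k A] (a : A) : IsUnit a ↔ rk k a = finrank k A := by
  constructor
  · rintro ⟨u, rfl⟩
    have : LinearMap.range (LinearMap.mulLeft k (u : A)) = ⊤ :=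
      LinearMap.range_eq_top.2 fun y => ⟨(u⁻¹ : Aˣ) * y, by simp⟩
    rw [rk, this, finrank_top]
  · intro h
    have h1 : LinearMap.range (LinearMap.mulLeft k a) = ⊤ := Submodule.eq_top_of_finrank_eq h
    obtain ⟨b, hb⟩ := LinearMap.range_eq_top.1 h1 1
    have hb' : a * b = 1 := hb
    have h2 := (LinearMap.injective_iff_surjective.2 (LinearMap.range_eq_top.1 h1))
    have : b * a = 1 := h2 (by simp [← mul_assoc, hb'])
    exact ⟨⟨a, b, hb', this⟩, rfl⟩

end

end Pool.Agent.GSD
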