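import Pool.Agent.P.MP_c1f06d_ag.su.VSep
import Pool.Agent.P.MP_c1f06d_ag.su.VReg
import Pool.Agent.P.MP_c1f06d_ag.d.ValA
import Pool.Agent.P.MP_c1f06d_ag.d.Flanders
import Pool.Agent.P.MP_c1f06d_ag.d.RankOne

namespace Pool.Agent.GSD

open Pool.Agent.SU IsLocalRing

section
variable {O A B : Type*} [CommRing O] [Ring A] [StarRing A] [Algebra O A] [Ring B] [StarRing B]
  [Algebra O B]

/-- `B` is the generic fibre of `A`. -/
structure GenF (i : A →ₐ[O] B) : Prop where
  inj : Function.Injective i
  map_star : ∀ a, i (star a) = star (i a)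
  den : ∀ b : B, ∃ d : O, d ≠ 0 ∧ ∃ a, d • b = i a
  unit : ∀ d : O, d ≠ 0 → IsUnit (algebraMap O B d)

/-- `n` lies in `A ∩ x A`. -/
def InN (i : A →ₐ[O] B) (x : B) (n : A) : Prop := ∃ c : A, i n = x * i c

/-- `A` is covered by `x A` and `r` more elements. -/
def Cov (i : A →ₐ[O] B) (r : ℕ) (x : B) : Prop :=
  ∃ s : Finset B, s.card ≤ r ∧ ∀ a : A, ∃ c : A, i a - x * i c ∈ Submodule.span O (s : Set B)

/-- `a` lies in `c A`. -/
def Dv (c : O) (a : A) : Prop := ∃ y : A, a = c • y

/-- The data of the first layer of `A / (A ∩ x A)`. -/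
structure Lay [IsLocalRing O] (i : A →ₐ[O] B) (x : B) (lam : O) (v r om : A) : Prop where
  mem : lam ∈ maximalIdeal O
  ne : lam ≠ 0
  eq : i v = lam • (x * i r)
  idem : Dv lam (v * v - v)
  kill : ∀ n, InN i x n → Dv lam (star v * n)
  hom : InN i x (lam • om)
  prim : qm (maximalIdeal O) (star v * om) ≠ 0
  compl : ∃ n, InN i x n ∧ Dv lam (1 - star v - n)

end

/-- The residue algebra as an algebra over the residue field. -/
noncomputable instance resAlg {T A : Type*} [CommRing T] [IsLocalRing T] [Ring A] [Algebra T A] :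
    Algebra (ResidueField T) (QA A (maximalIdeal T)) :=
  RingHom.toAlgebra'
    (Ideal.Quotient.lift (maximalIdeal T) ((qm (maximalIdeal T)).comp (algebraMap T A))
      fun t ht => by
        have := qm_smul (A := A) ht 1
        rwa [Algebra.smul_def, mul_one] at this)
    fun c x => by
      obtain ⟨t, rfl⟩ := residue_surjective c
      obtain ⟨a, rfl⟩ := qm_surjective (maximalIdeal T) x
      change qm _ (algebraMap T A t) * qm _ a = qm _ a * qm _ (algebraMap T A t)
      rw [← map_mul, ← map_mul, Algebra.commutes]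

theorem res_smul {T A : Type*} [CommRing T] [IsLocalRing T] [Ring A] [Algebra T A] (t : T)
    (a : A) : residue T t • qm (maximalIdeal T) a = qm (maximalIdeal T) (t • a) := by
  rw [Algebra.smul_def, Algebra.smul_def, map_mul]
  rfl

instance resFin {T A : Type*} [CommRing T] [IsLocalRing T] [Ring A] [Algebra T A]
    [Module.Finite T A] : FiniteDimensional (ResidueField T) (QA A (maximalIdeal T)) := by
  obtain ⟨s, hs⟩ := Module.Finite.fg_top (R := T) (M := A)
  classical
  refine ⟨⟨s.image (qm (maximalIdeal T)), top_le_iff.1 fun x _ => ?_⟩⟩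
  obtain ⟨a, rfl⟩ := qm_surjective (maximalIdeal T) x
  have ha : a ∈ Submodule.span T (s : Set A) := hs ▸ Submodule.mem_top
  induction ha using Submodule.span_induction with
  | mem y hy => exact Submodule.subset_span (Finset.mem_coe.2 (Finset.mem_image_of_mem _ hy))
  | zero => rw [map_zero]; exact zero_mem _
  | add y z _ _ hy hz => rw [map_add]; exact add_mem (hy trivial) (hz trivial)
  | smul t y _ hy => rw [← res_smul]; exact Submodule.smul_mem _ _ (hy trivial)

instance resFix {T A : Type*} [CommRing T] [IsLocalRing T] [Ring A] [Algebra T A] [StarRing A]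
    [StarFix T A] : StarFix (ResidueField T) (QA A (maximalIdeal T)) where
  fix c := by
    obtain ⟨t, rfl⟩ := residue_surjective c
    change star (qm _ (algebraMap T A t)) = qm _ (algebraMap T A t)
    rw [← qm_star, StarFix.fix]

section
variable {O : Type*} [CommRing O] [IsLocalRing O] {A : Type*} [Ring A] [StarRing A] [Algebra O A]
  [StarFix O A]

/-- The consequences of the splitting that the valuation step uses. -/
structure Base (nrd : A → O) : Prop where
  avg : Avg O A
  sat : ∀ (c : O) (a : A), c ≠ 0 → Alt (c • a) → Alt a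
  prime : ∀ a b : QA A (maximalIdeal O), (∀ c, a * c * b = 0) → a = 0 ∨ b = 0
  unit : ∀ a : A, IsUnit a → IsUnit (nrd a)
  reg : ∀ lam ∈ maximalIdeal O, ∀ e n c0 : A, Dv lam (e * e - e) → Alt n →
    qm (maximalIdeal O) (star e * n * e * c0 * (star e * n * e)) =
      qm (maximalIdeal O) (star e * n * e) →
    R1 (qm (maximalIdeal O) (e - e * c0 * (star e * n * e))) →
    ∃ c : A, Dv lam (star e * n * e * c * (star e * n * e) - star e * n * e)
  nr1 : ∀ lam ∈ maximalIdeal O, lam ≠ 0 → ∀ l T e : A, IsUnit T → Dv (lam ^ 2) (e * e - e) →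
    qm (maximalIdeal O) e ≠ 0 → R1 (qm (maximalIdeal O) e) →
    Dv (lam ^ 2) (l - T * (lam • e + 1 - e)) → ∃ ε : O, IsUnit ε ∧ nrd l = lam * ε

end

/-- A splitting of an algebra with an involution adjoint to a symmetric matrix. -/
structure Spl {O A S d : Type*} [CommRing O] [Ring A] [StarRing A] [Algebra O A] [CommRing S]
    [Algebra O S] [Fintype d] [DecidableEq d] (φ : A →ₐ[O] Matrix d d S) (b : Matrix d d S) :
    Prop where
  bc : IsBaseChange S φ.toLinearMap
  symm : b.transpose = b
  unit : IsUnit b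
  adj : ∀ a, b * φ (star a) = (φ a).transpose * b

/-- The properties of the spinor norm relation on the generic fibre that are used. -/
structure SNax {O K A B : Type*} [CommRing O] [Field K] [Algebra O K] [Ring A] [StarRing A]
    [Algebra O A] [Ring B] [StarRing B] [Algebra O B] (i : A →ₐ[O] B) (l : A) (nrd : A → O)
    (SN : B → K → Prop) : Prop where
  mul : ∀ g c g' c', SN g c → SN g' c' → SN (g * g') (c * c')
  inv : ∀ g c, SN g c → SN (star g) c
  one : ∀ c, SN 1 c → IsSquare c
  ne : ∀ g c, SN g c → c ≠ 0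
  iso : ∀ g c, SN g c → Iso (i l) g ∧ g * star g = 1
  ori : ∀ g c, SN g c → ∃ y : Bˣ, La (i l) y ∧ IsUnit (1 - g * gl y)
  gen : ∀ (l1 l2 : A) (y1 y2 : Bˣ), La l l1 → La l l2 → i l1 = y1 → i l2 = y2 →
    SN (gl y1 * gl y2) (algebraMap O K (nrd l1 * nrd l2))

end Pool.Agent.GSD
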