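import Pool.Agent.P.MP_c1f06d_ag.d.DNrd
import Pool.Agent.P.MP_c1f06d_ag.d.ValD
import Pool.Agent.P.MP_c1f06d_ag.d.Stmt
import Pool.Agent.P.MP_c1f06d_ag.d.LiftM

open Matrix Module Polynomial Pool.Agent.SU IsLocalRing

universe u

namespace Pool.Agent.GSD

variable {T T' S A A' : Type u} [CommRing T] [CommRing T'] [CommRing S] [Ring A] [Ring A']
  [StarRing A] [StarRing A'] [Algebra T A] [Algebra T' A'] {f : T →+* T'} {j : A →+* A'} {m : ℕ}
  {l : A} {n : Type} [Fintype n] [DecidableEq n]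

omit [Fintype n] [DecidableEq n] in
theorem dqaz0_symm (Q : Matrix n n S) : (Q + Qᵀ)ᵀ = Q + Qᵀ := by
  rw [transpose_add, transpose_transpose, add_comm]

theorem dqaz0_cancel {B X Y : Matrix n n S} (h : IsUnit B.det) (e : B * X = B * Y) : X = Y :=
  ((isUnit_iff_isUnit_det B).2 h).mul_left_cancel e

omit [Fintype n] [DecidableEq n] in
theorem dqaz0_map (Q : Matrix n n S) (g : S →+* T') :
    Q.map g + (Q.map g)ᵀ = (Q + Qᵀ).map g := by
  ext; simp

theorem dqaz0_unit {B : Matrix n n S} (h : IsUnit B.det) (g : S →+* T') : IsUnit (B.map g).det := by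
  rw [← RingHom.mapMatrix_apply, ← RingHom.map_det]; exact h.map g

theorem dqaz0_adj {φ : A →+* Matrix n n S} {B : Matrix n n S}
    (h : ∀ a, B * φ (star a) = (φ a)ᵀ * B) (g : S →+* T') (a : A) :
    B.map g * (g.mapMatrix.comp φ) (star a) = ((g.mapMatrix.comp φ) a)ᵀ * B.map g := by
  change B.map g * (φ (star a)).map g = ((φ a).map g)ᵀ * B.map g
  rw [← Matrix.map_mul, h, Matrix.map_mul, transpose_map]

theorem dqaz0_alt {φ : A →+* Matrix n n S} {B : Matrix n n S} (sy : Bᵀ = B)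
    (h : ∀ a, B * φ (star a) = (φ a)ᵀ * B) {x : A} (hx : Alt x) : IsAltM (B * φ x) := by
  obtain ⟨c, rfl⟩ := hx
  exact ⟨B * φ c, by rw [map_sub, Matrix.mul_sub, h, transpose_mul, sy]⟩

theorem dqaz0_ratio {c : T →+* S} {φ1 φ2 : A →+* Matrix n n S} (h1 : BC c φ1) (h2 : BC c φ2)
    {B1 B2 : Matrix n n S} (u1 : IsUnit B1.det) (s1 : B1ᵀ = B1) (s2 : B2ᵀ = B2)
    (a1 : ∀ a, B1 * φ1 (star a) = (φ1 a)ᵀ * B1) (a2 : ∀ a, B2 * φ2 (star a) = (φ2 a)ᵀ * B2)
    {x y : A} (hx : Alt x) (hy : Alt y) :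
    pf (B2 * φ2 x) * pf (B1 * φ1 y) = pf (B1 * φ1 x) * pf (B2 * φ2 y) := by
  obtain ⟨k, hk, hk'⟩ := h1.lift (g := RingHom.id S) φ2 h2.alg
  let α : Matrix n n S →ₐ[S] Matrix n n S := { k with commutes' := hk' }
  have e : ∀ a, α (φ1 a) = φ2 a := fun a => RingHom.congr_fun hk a
  have key : ∀ X, ∀ Y, B1 * Y = Xᵀ * B1 → B2 * α Y = (α X)ᵀ * B2 := fun X => by
    have : B2 * α (B1⁻¹ * (Xᵀ * B1)) = (α X)ᵀ * B2 := by
      induction X using h1.induction with
      | h0 => simp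
      | h1 t a =>
        rw [transpose_smul, smul_mul_assoc, ← a1, mul_smul_comm, nonsing_inv_mul_cancel_left _ _ u1,
          map_smul, map_smul, e, e, mul_smul_comm, a2, transpose_smul, smul_mul_assoc]
      | h2 X Y hX hY => simp only [transpose_add, add_mul, mul_add, map_add, hX, hY]
    intro Y hY
    rwa [← hY, nonsing_inv_mul_cancel_left _ _ u1] at this
  have := pf_ratio α u1 key (dqaz0_alt s1 a1 hx) (dqaz0_alt s1 a1 hy)
    (by rw [e]; exact dqaz0_alt s2 a2 hx) (by rw [e]; exact dqaz0_alt s2 a2 hy)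
  rwa [e, e] at this

theorem dqaz0_sq {s : T →+* S} (hs : s.FaithfullyFlat) {φ : A →+* Matrix n n S} (h : BC s φ)
    {B : Matrix n n S} (u : IsUnit B.det) (sy : Bᵀ = B) (ad : ∀ a, B * φ (star a) = (φ a)ᵀ * B)
    {x y : A} (hx : Alt x) (hy : Alt y) (hy1 : (φ y).det = 1) : ∃ r, (φ x).det = s (r * r) := by
  have e1 := pf_sq (dqaz0_alt sy ad hx)
  have e2 := pf_sq (dqaz0_alt sy ad hy)
  rw [det_mul] at e1 e2
  rw [hy1, mul_one] at e2
  obtain ⟨q, hq⟩ := ((isUnit_pow_iff two_ne_zero).1 (e2 ▸ u)).exists_right_inv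
  obtain ⟨r, hr⟩ := ff_descent hs (pf (B * φ x) * q) fun P _ a b hab => by
    have e : ∀ (g : S →+* P) z, pf (B.map g * (g.mapMatrix.comp φ) z) = g (pf (B * φ z)) :=
      fun g z => by rw [pf_map, Matrix.map_mul]; rfl
    have := dqaz0_ratio (h.comp (bc_mapMatrix a n)) (hab ▸ h.comp (bc_mapMatrix b n))
      (dqaz0_unit u a) (by rw [← transpose_map, sy]) (by rw [← transpose_map, sy])
      (dqaz0_adj ad a) (dqaz0_adj ad b) hx hy
    rw [e, e, e, e] at this
    have ha := congrArg a hq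
    have hb := congrArg b hq
    rw [map_mul, map_one] at ha hb
    rw [map_mul, map_mul]
    linear_combination -(a q * b q) * this - a (pf (B * φ x)) * a q * hb +
      b (pf (B * φ x)) * b q * ha
  refine ⟨r, ?_⟩
  rw [map_mul, hr]
  linear_combination -q ^ 2 * e1 + (φ x).det * q ^ 2 * e2 -
    (φ x).det * (pf (B * φ y) * q + 1) * hq

theorem dqaz0_J (hn : Even (Fintype.card n)) : ∃ X : Matrix n n ℤ, (X - Xᵀ).det = 1 := by
  obtain ⟨k, hk⟩ := hn
  let e : n ≃ Fin k ⊕ Fin k := Fintype.equivOfCardEq (by simpa using hk)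
  refine ⟨(fromBlocks 0 0 1 0).submatrix e e, ?_⟩
  have h1 : (fromBlocks 0 0 1 0 : Matrix (Fin k ⊕ Fin k) (Fin k ⊕ Fin k) ℤ) -
      (fromBlocks 0 0 1 0)ᵀ = Matrix.J (Fin k) ℤ := by
    rw [fromBlocks_transpose, Matrix.J, sub_eq_add_neg, fromBlocks_neg, fromBlocks_add]
    simp
  obtain ⟨r, hr⟩ := IsAltM.isSquare_det (W := Matrix.J (Fin k) ℤ) ⟨_, h1.symm⟩
  change (((fromBlocks 0 0 1 0 : Matrix _ _ ℤ) - (fromBlocks 0 0 1 0)ᵀ).submatrix e e).det = 1
  rw [h1, det_submatrix_equiv_self]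
  rcases Int.eq_one_or_neg_one_of_mul_eq_one (Matrix.J_det_mul_J_det (Fin k) ℤ) with h | h
  · exact h
  · have := mul_self_nonneg r
    omega

theorem dqaz0_blk {φ : A →+* Matrix (Fin m) (Fin m) S} {B : Matrix (Fin m) (Fin m) S}
    (h : ∀ a, B * φ (star a) = (φ a)ᵀ * B) (Y : Matrix n n A) :
    flatD n B * flatM ((star Y).map φ) = (flatM (Y.map φ))ᵀ * flatD n B := by
  ext p p'
  rw [flatD_mul_apply]
  refine Eq.trans ?_ (mul_flatD_apply B (Matrix.of fun i j => (φ (Y j i))ᵀ) p p').symm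
  rw [Matrix.map_apply, Matrix.star_apply, h, of_apply]

theorem dqaz0_qspl [Algebra T S] [Module.Free T A] [Module.Finite T A]
    (s : Splitting T l m S) : QSpl l (algebraMap T S) (s.φ : A →+* _) s.Q :=
  ⟨bc_of_isBaseChange s.φ s.baseChange, (isUnit_iff_isUnit_det _).1 s.regular, s.adjoint,
    s.semitrace⟩

theorem QAz.az (h : QAz T m l) : Az T A := by
  obtain ⟨S, _, s, φ, Q, hs, hq⟩ := h
  exact ⟨Fin m, inferInstance, inferInstance, S, _, s, φ, hs, hq.toBC⟩

theorem QAz.starFix (h : QAz T m l) : StarFix T A := by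
  obtain ⟨S, _, s, φ, Q, hs, hq⟩ := h
  refine ⟨fun t => hq.toBC.injective (ff_injective hs) (dqaz0_cancel hq.unit ?_)⟩
  rw [hq.adj, hq.alg, Algebra.algebraMap_eq_smul_one, transpose_smul, transpose_one,
    smul_mul_assoc, mul_smul_comm, one_mul, mul_one]

theorem QAz.add_star (h : QAz T m l) : l + star l = 1 := by
  obtain ⟨S, _, s, φ, Q, hs, hq⟩ := h
  refine hq.toBC.injective (ff_injective hs) (dqaz0_cancel hq.unit ?_)
  have e := congrArg transpose hq.ell
  rw [transpose_mul, dqaz0_symm] at e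
  rw [map_add, mul_add, hq.adj, ← e, ← hq.ell, map_one, mul_one]

theorem QSpl.post {s : T →+* S} {φ : A →+* Matrix (Fin m) (Fin m) S}
    {Q : Matrix (Fin m) (Fin m) S} (h : QSpl l s φ Q) (g : S →+* T') :
    QSpl l (g.comp s) ((g.mapMatrix : _ →+* Matrix (Fin m) (Fin m) T').comp φ) (Q.map g) := by
  refine ⟨h.toBC.comp (bc_mapMatrix g _), ?_, ?_, ?_⟩ <;> rw [dqaz0_map]
  · exact dqaz0_unit h.unit g
  · exact dqaz0_adj h.adj g
  · change _ = _ * (φ l).map g
    rw [← Matrix.map_mul, ← h.ell]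

/-- A splitting extends to a base change. -/
theorem QSpl.lift [StarFix T' A'] (hj : SBC f j) {g : T' →+* S}
    {φ : A →+* Matrix (Fin m) (Fin m) S} {Q : Matrix (Fin m) (Fin m) S}
    (h : QSpl l (g.comp f) φ Q) :
    ∃ φ' : A' →+* Matrix (Fin m) (Fin m) S, φ'.comp j = φ ∧ QSpl (j l) g φ' Q := by
  obtain ⟨k, rfl, hk⟩ := hj.toBC.lift φ h.alg
  have hb := hj.toBC.of_comp h.toBC hk
  refine ⟨k, rfl, hb, h.unit, fun a => ?_, h.ell⟩
  induction a using hj.toBC.induction with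
  | h0 => simp
  | h1 t a =>
    rw [star_smul_fix, ← hj.map_star, hb.smul, hb.smul, transpose_smul, mul_smul_comm,
      smul_mul_assoc]
    exact congrArg _ (h.adj a)
  | h2 x y hx hy => simp only [star_add, map_add, transpose_add, mul_add _ (k _), add_mul (k _)ᵀ, hx, hy]

theorem QAz.map [StarFix T' A'] (h : QAz T m l) (hj : SBC f j) : QAz T' m (j l) := by
  obtain ⟨S, _, s, φ, Q, hs, hq⟩ := h
  obtain ⟨P, _, s', f', e, hs'⟩ := exists_pushout f s hs
  obtain ⟨φ', -, h'⟩ := QSpl.lift hj (e ▸ hq.post f')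
  exact ⟨P, _, s', φ', _, hs', h'⟩

theorem QAz.of_la (h : QAz T m l) {l' : A} (hl : La l l') : QAz T m l' := by
  obtain ⟨S, _, s, φ, Q, hs, hq⟩ := h
  obtain ⟨X, hX⟩ := dqaz0_alt (dqaz0_symm Q) hq.adj hl
  have e1 : (Q + Qᵀ) * φ l' = Q + (X - Xᵀ) := by
    rw [← hX, map_sub, mul_sub, ← hq.ell]; abel
  have e2 : Q + (X - Xᵀ) + (Q + (X - Xᵀ))ᵀ = Q + Qᵀ := by
    rw [transpose_add, transpose_sub, transpose_transpose]; abel
  exact ⟨S, _, s, φ, Q + (X - Xᵀ), hs, hq.toBC, e2 ▸ hq.unit, e2 ▸ hq.adj, by rw [e2, e1]⟩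

theorem IsSplit.map [StarFix T' A'] (h : IsSplit T m l) (hj : SBC f j) : IsSplit T' m (j l) := by
  obtain ⟨φ, Q, hq⟩ := h
  obtain ⟨φ', -, h'⟩ := QSpl.lift (g := RingHom.id T') hj (hq.post f)
  exact ⟨φ', _, h'⟩

theorem QAz.finrank [Nontrivial T] (h : QAz T m l) : Module.finrank T A = m * m := by
  obtain ⟨S, _, s, φ, Q, hs, hq⟩ := h
  have := (ff_injective hs).nontrivial
  obtain ⟨N, b, b', -⟩ := hq.basis
  have e := finrank_eq_card_basis b'
  rw [Module.finrank_matrix, Module.finrank_self, Fintype.card_fin, mul_one] at e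
  rw [finrank_eq_card_basis b, e]

theorem QAz.nrd_algebraMap (h : QAz T m l) (t : T) : nrd T (algebraMap T A t) = t ^ m := by
  have ha := h.az
  obtain ⟨S, _, s, φ, Q, hs, hq⟩ := h
  refine ff_injective hs ?_
  rw [ha.nrd_spec hq.toBC, hq.alg, Algebra.algebraMap_eq_smul_one, det_smul, det_one, mul_one,
    Fintype.card_fin, map_pow]

theorem QAz.nrd_star (h : QAz T m l) (a : A) : nrd T (star a) = nrd T a := by
  have ha := h.az
  obtain ⟨S, _, s, φ, Q, hs, hq⟩ := h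
  refine ff_injective hs (hq.unit.mul_left_cancel ?_)
  rw [ha.nrd_spec hq.toBC, ha.nrd_spec hq.toBC, ← det_mul, hq.adj, det_mul, det_transpose, mul_comm]

theorem QAz.nrd_star_mat (h : QAz T m l) (Y : Matrix n n A) : nrd T (star Y) = nrd T Y := by
  have ha := h.az
  obtain ⟨S, _, s, φ, Q, hs, hq⟩ := h
  have hu : IsUnit (flatD n (Q + Qᵀ)).det := by rw [det_flatD]; exact hq.unit.pow _
  refine ff_injective hs (hu.mul_left_cancel ?_)
  have e := congrArg det (dqaz0_blk hq.adj Y)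
  rw [det_mul, det_mul, det_transpose, mul_comm (flatM (Y.map φ)).det] at e
  rw [ha.nrd_mat_spec hq.toBC, ha.nrd_mat_spec hq.toBC]
  exact e

/-- PF: an alternating unit of even size has a square norm. -/
theorem QAz.isSquare_nrd (h : QAz T m l) (hn : Even (Fintype.card n)) {W : Matrix n n A}
    (hW : Alt W) (hu : IsUnit W) : IsSquare (nrd T W) := by
  have ha := h.az
  obtain ⟨S, _, s, φ, Q, hs, hq⟩ := h
  obtain ⟨X, hX⟩ := dqaz0_J hn
  have hJ : Alt ((X - Xᵀ).map (Int.castRingHom A)) :=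
    ⟨X.map (Int.castRingHom A), by ext i j; simp⟩
  obtain ⟨r, hr⟩ := dqaz0_sq hs (hq.toBC.blk n) (B := flatD n (Q + Qᵀ))
    (by rw [det_flatD]; exact hq.unit.pow _) (by rw [flatD_transpose, dqaz0_symm])
    (dqaz0_blk hq.adj) hW hJ (by
      refine (ha.nrd_mat_spec hq.toBC _).symm.trans ?_
      rw [ha.nrd_comm, hX, map_one, ha.nrd_one, map_one])
  exact ⟨r, ff_injective hs ((ha.nrd_mat_spec hq.toBC W).trans hr)⟩

theorem isUnit_of_formIso [Module.Finite T A] {th x : A} (hl : l + star l = 1)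
    (hth : IsUnit (th + star th)) (hx : Alt (star x * l * x - th)) : IsUnit x := by
  have e : th + star th = star x * x := by
    have h1 := hx.add_star
    simp only [star_sub, star_mul, star_star] at h1
    have h2 : star x * x = star x * (l + star l) * x := by rw [hl, mul_one]
    rw [h2, ← sub_eq_zero, ← neg_eq_zero, ← h1]
    noncomm_ring
  obtain ⟨z, hz⟩ := (e ▸ hth).exists_left_inv
  rw [← mul_assoc] at hz
  have hi := OrzechProperty.injective_of_surjective_endomorphism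
    (LinearMap.mulLeft T (z * star x)) fun a => ⟨x * a, by
      rw [LinearMap.mulLeft_apply, ← mul_assoc, hz, one_mul]⟩
  refine isUnit_iff_exists.2 ⟨z * star x, hi ?_, hz⟩
  rw [LinearMap.mulLeft_apply, LinearMap.mulLeft_apply, ← mul_assoc, hz, one_mul, mul_one]

/-- The base facts of the valuation block. -/
theorem QAz.exists_spl (h : QAz T m l) :
    ∃ (S : Type u) (_ : CommRing S) (_ : Algebra T S) (_ : Module.FaithfullyFlat T S)
      (φ : A →ₐ[T] Matrix (Fin m) (Fin m) S) (b : Matrix (Fin m) (Fin m) S),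
      Spl φ b ∧ ∀ a, algebraMap T S (nrd T a) = (φ a).det := by
  have ha := h.az
  obtain ⟨S, _, s, φ, Q, hs, hq⟩ := h
  letI := s.toAlgebra
  let ψ : A →ₐ[T] Matrix (Fin m) (Fin m) S :=
    { φ with commutes' := fun t => (hq.alg t).trans (IsScalarTower.algebraMap_apply T S _ t).symm }
  exact ⟨S, _, s.toAlgebra, hs, ψ, Q + Qᵀ, ⟨BC.isBaseChange ψ hq.toBC, dqaz0_symm Q,
    (isUnit_iff_isUnit_det _).2 hq.unit, hq.adj⟩, ha.nrd_spec hq.toBC⟩

theorem SBC.genF {O K B : Type u} [CommRing O] [IsDomain O] [Field K] [Algebra O K]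
    [IsFractionRing O K] [Algebra O A] [Ring B] [StarRing B] [Algebra O B] [Algebra K B]
    [IsScalarTower O K B] (i : A →ₐ[O] B) (h : SBC (algebraMap O K) (i : A →+* B)) : GenF i := by
  refine ⟨h.toBC.injective (IsFractionRing.injective O K), h.map_star, fun b => ?_, fun d hd => ?_⟩
  · induction b using h.toBC.induction with
    | h0 => exact ⟨1, one_ne_zero, 0, by simp⟩
    | h1 t a =>
      obtain ⟨⟨q, hq⟩, p, hp⟩ := IsLocalization.exists_integer_multiple (nonZeroDivisors O) t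
      refine ⟨q, nonZeroDivisors.ne_zero hq, p • a, ?_⟩
      rw [← smul_assoc, map_smul, ← algebraMap_smul K p, hp]
      rfl
    | h2 x y hx hy =>
      obtain ⟨d, hd, a, ha⟩ := hx
      obtain ⟨d', hd', a', ha'⟩ := hy
      refine ⟨d * d', mul_ne_zero hd hd', d' • a + d • a', ?_⟩
      rw [map_add, map_smul, map_smul, ← ha, ← ha', smul_add, smul_smul, smul_smul, mul_comm d']
  · rw [IsScalarTower.algebraMap_apply O K B]
    exact (IsUnit.mk0 _ ((map_ne_zero_iff _ (IsFractionRing.injective O K)).2 hd)).map _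

/-- Bridges to the statement file. -/
theorem IsQuadPair.qaz [Module.Free T A] [Module.Finite T A] (h : IsQuadPair T l m) :
    QAz T m l := by
  obtain ⟨-, -, S, _, _, hs, ⟨s⟩⟩ := h
  exact ⟨S, _, algebraMap T S, _, _, RingHom.faithfullyFlat_algebraMap_iff.2 hs, dqaz0_qspl s⟩

theorem Splitting.qspl [Algebra T S] [Module.Free T A] [Module.Finite T A]
    (s : Splitting T l m S) : QSpl l (algebraMap T S) (s.φ : A →+* _) s.Q := by
  exact dqaz0_qspl s

theorem QSpl.splitting [Algebra T S] {φ : A →+* Matrix (Fin m) (Fin m) S}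
    {Q : Matrix (Fin m) (Fin m) S} (h : QSpl l (algebraMap T S) φ Q) :
    ∃ s : Splitting T l m S, (∀ a, s.φ a = φ a) ∧ s.Q = Q := by
  let ψ : A →ₐ[T] Matrix (Fin m) (Fin m) S :=
    { φ with commutes' := fun t => (h.alg t).trans (IsScalarTower.algebraMap_apply T S _ t).symm }
  exact ⟨⟨ψ, Q, BC.isBaseChange ψ h.toBC, (isUnit_iff_isUnit_det _).2 h.unit, h.adj, h.ell⟩,
    fun _ => rfl, rfl⟩

end Pool.Agent.GSD
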