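import Pool.Agent.P.MP_c1f06d_ag.d.RunD
import Pool.Agent.P.MP_c1f06d_ag.d.DQAz0

open Matrix Module Pool.Agent.SU SAlg IsLocalRing

universe u

namespace Pool.Agent.GSD

variable {T S : Type u} [CommRing T] [CommRing S] {N m : ℕ} {A : SAlg T N} {l : A.Car}

theorem dcore0_sep (h : Avg T A.Car) : Sep A := by
  obtain ⟨n, x, y, h1, h2⟩ := h
  refine sepx_family x y h1 fun z a => Car.ext (funext fun c => ?_)
  have := congrFun (congrArg Car.co
    (h2 (((LinearMap.proj c : (Fin N → T) →ₗ[T] T) ∘ₗ A.coL.toLinearMap).smulRight 1) z)) a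
  simp only [LinearMap.smulRight_apply, LinearMap.comp_apply, LinearEquiv.coe_coe, coL_apply,
    LinearMap.proj_apply, mul_smul_comm, mul_one, Finset.mul_sum, co_sum, co_smul, Finset.sum_apply,
    Pi.smul_apply, smul_eq_mul] at this
  simp only [co_sum, co_smul, Finset.sum_apply, Pi.smul_apply, smul_eq_mul]
  simpa only [mul_comm] using this.symm

theorem dcore0_mat (p : A.Car →ₗ[T] A.Car) :
    ∃ P : Matrix (Fin N) (Fin N) T, ∀ x, (p x).co = P *ᵥ x.co :=
  ⟨LinearMap.toMatrix' (A.coL.toLinearMap ∘ₗ p ∘ₗ A.coL.symm.toLinearMap),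
    fun x => by rw [LinearMap.toMatrix'_mulVec]; rfl⟩

/-- The two linear facts in the split case. -/
theorem dcore0_split (h : IsSplit T m l) (hm : 0 < m) :
    (∃ P : Matrix (Fin N) (Fin N) T, (1 - A.st) * P * (1 - A.st) = 1 - A.st) ∧
      ∃ x g : Fin N → T, (1 - A.st) *ᵥ x = 0 ∧ g ᵥ* (1 - A.st) = 0 ∧ g ⬝ᵥ x = 1 := by
  obtain ⟨φ, Q, h⟩ := h
  obtain ⟨B, hB⟩ : ∃ B, B = Q + Qᵀ := ⟨_, rfl⟩
  have hBs : Bᵀ = B := by rw [hB, transpose_add, transpose_transpose, add_comm]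
  have hu := h.unit
  have ha := h.adj
  rw [← hB] at hu ha
  let e0 : A.Car ≃ₗ[T] Matrix (Fin m) (Fin m) T := LinearEquiv.ofBijective
    { toFun := φ, map_add' := φ.map_add, map_smul' := h.smul }
    ⟨h.injective Function.injective_id, h.surjective Function.surjective_id⟩
  let e1 : Matrix (Fin m) (Fin m) T ≃ₗ[T] Matrix (Fin m) (Fin m) T :=
    { LinearMap.mulLeft T B with
      invFun := fun X => B⁻¹ * X
      left_inv := fun X => nonsing_inv_mul_cancel_left B X hu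
      right_inv := fun X => mul_nonsing_inv_cancel_left B X hu }
  obtain ⟨e, he⟩ : ∃ e : A.Car ≃ₗ[T] Matrix (Fin m) (Fin m) T, ∀ x, e (star x) = (e x)ᵀ :=
    ⟨e0 ≪≫ₗ e1, fun x => by
      change B * φ (star x) = (B * φ x)ᵀ
      rw [ha, transpose_mul, hBs]⟩
  let up : Matrix (Fin m) (Fin m) T →ₗ[T] Matrix (Fin m) (Fin m) T :=
    { toFun := fun X => of fun i j => if i < j then X i j else 0
      map_add' := fun X Y => by ext i j; simp only [of_apply, Matrix.add_apply]; split_ifs <;> simp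
      map_smul' := fun c X => by ext i j; simp only [of_apply, Matrix.smul_apply]; split_ifs <;> simp }
  have hup : ∀ X : Matrix (Fin m) (Fin m) T, up (X - Xᵀ) - (up (X - Xᵀ))ᵀ = X - Xᵀ := fun X => by
    ext i j
    change (if i < j then (X - Xᵀ) i j else 0) - (if j < i then (X - Xᵀ) j i else 0) = (X - Xᵀ) i j
    rcases lt_trichotomy i j with h | rfl | h
    · rw [if_pos h, if_neg h.not_gt, sub_zero]
    · simp
    · rw [if_neg h.not_gt, if_pos h]; simp
  obtain ⟨P, hP⟩ := dcore0_mat (e.symm.toLinearMap ∘ₗ up ∘ₗ e.toLinearMap)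
  refine ⟨⟨P, mat_ext (A := A) fun x => ?_⟩, (e.symm (single ⟨0, hm⟩ ⟨0, hm⟩ 1)).co,
    fun a => e (A.e a) ⟨0, hm⟩ ⟨0, hm⟩, ?_, ?_, ?_⟩
  · rw [← mulVec_mulVec, ← mulVec_mulVec, ← co_sub_star x, ← hP, ← co_sub_star]
    congr 1
    apply e.injective
    simp only [map_sub, he, LinearMap.comp_apply, LinearEquiv.coe_coe, e.apply_symm_apply]
    rw [← map_sub up, hup]
  · rw [← co_sub_star, ← co_zero (A := A)]
    congr 1
    apply e.injective
    rw [map_sub, he, e.apply_symm_apply, transpose_single, sub_self, map_zero]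
  all_goals
    have k : ∀ y : A.Car, (fun a => e (A.e a) ⟨0, hm⟩ ⟨0, hm⟩) ⬝ᵥ y.co = e y ⟨0, hm⟩ ⟨0, hm⟩ :=
      fun y => by
        conv_rhs => rw [eq_sum y]
        simp only [map_sum, map_smul, Matrix.sum_apply, Matrix.smul_apply, smul_eq_mul, dotProduct,
          mul_comm]
  · funext a
    have := k (A.e a - star (A.e a))
    rw [co_sub_star, dotProduct_mulVec, map_sub, he, SAlg.e, dotProduct_single_one] at this
    rw [this]; simp
  · rw [k, e.apply_symm_apply, single_apply_same]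

theorem QAz.qn (h : QAz T m l) (hm : 0 < m) : QN A l := by
  have hc : ∀ (S : Type u) [CommRing S] (f : T →+* S) (z : (A.map f).Car), (∀ y, z * y = y * z) →
      ∃ t, z = algebraMap S _ t := fun S _ f z hz => (h.map (sbc_bc A f)).az.cen hz
  have hs := dcore0_sep h.az.avg
  have hl := h.add_star
  obtain ⟨S, _, f, φ, Q, hf, hQ⟩ := h
  obtain ⟨φ', -, hQ'⟩ := QSpl.lift (sbc_bc A f) (g := RingHom.id S) hQ
  obtain ⟨⟨P', hP'⟩, x, g, h1, h2, h3⟩ := dcore0_split ⟨φ', Q, hQ'⟩ hm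
  rw [← one_sub_st_map] at hP' h1 h2
  obtain ⟨Z, hZ⟩ : ∃ Z, Z = 1 - A.st := ⟨_, rfl⟩
  rw [← hZ] at hP' h1 h2
  obtain ⟨P, hP⟩ : ∃ P, Z * P * Z = Z := (bc_mapMatrix f (Fin N)).mem_range hf
    (LinearMap.mulRight T Z ∘ₗ LinearMap.mulLeft T Z)
    (LinearMap.mulRight S (Z.map f) ∘ₗ LinearMap.mulLeft S (Z.map f))
    (fun a => by simp [Matrix.map_mul]) ⟨P', hP'⟩
  obtain ⟨M, hM⟩ : ∃ M, M = (1 - Z * P) * (1 - P * Z) := ⟨_, rfl⟩
  obtain ⟨W, hW⟩ : ∃ W, (W * M).trace = 1 := by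
    let _ := f.toAlgebra
    have : Module.FaithfullyFlat T S := hf
    let L : ∀ (R : Type u) [CommRing R], Matrix (Fin N) (Fin N) R →
        (Fin N × Fin N → R) →ₗ[R] (Unit → R) := fun R _ M =>
      LinearMap.pi fun _ => ∑ p : Fin N × Fin N, M p.2 p.1 • LinearMap.proj p
    have hL : ∀ (R : Type u) [CommRing R] (M : Matrix (Fin N) (Fin N) R) y u,
        L R M y u = ((of fun a b => y (a, b)) * M).trace := fun R _ M y u => by
      simp [L, trace, mul_apply, Fintype.sum_prod_type, mul_comm]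
    obtain ⟨y, hy⟩ := ff_solve (T' := S) (L T M) (L S (M.map f)) (fun y => funext fun u => by
      rw [Function.comp_apply, hL, hL, RingHom.algebraMap_toAlgebra, AddMonoidHom.map_trace,
        Matrix.map_mul]; rfl) (fun _ => 1) ⟨fun p => x p.1 * g p.2, funext fun u => by
      have e : M.map f = (1 - Z.map f * P.map f) * (1 - P.map f * Z.map f) := by
        rw [hM]; simp [Matrix.map_mul, Matrix.map_sub]
      rw [hL, e, show (of fun a b => x a * g b) = vecMulVec x g from rfl, vecMulVec_mul,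
        trace_vecMulVec, ← vecMul_vecMul, vecMul_sub 1 (Z.map f * P.map f), ← vecMul_vecMul, h2,
        dotProduct_comm, ← dotProduct_mulVec, sub_mulVec, ← mulVec_mulVec, h1]
      simpa using h3⟩
    exact ⟨_, (hL _ _ _ ()).symm.trans (congrFun hy ())⟩
  refine ⟨⟨hl, 1 - P * Z, W * (1 - Z * P), ?_, ?_, ?_⟩, hs, ⟨P, hZ ▸ hP⟩, hc⟩
  · rw [← hZ, mul_sub, ← mul_assoc, hP, mul_one, sub_self]
  · rw [← hZ, mul_assoc, sub_mul, hP, one_mul, sub_self, mul_zero]
  · rw [mul_assoc, ← hM, hW]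

/-- Coordinates for an algebra and for its generic fibre. -/
theorem exists_core_model {R K A AK : Type u} [CommRing R] [CommRing K] [Ring A] [StarRing A]
    [Algebra R A] [Ring AK] [StarRing AK] [Algebra K AK] [StarFix K AK] {f : R →+* K}
    {j : A →+* AK} {l : A} (h : QAz R m l) (hj : SBC f j) :
    ∃ (N : ℕ) (B : SAlg R N) (e : A →+* B.Car) (e' : B.Car →+* A) (k : AK →+* (B.map f).Car),
      SBC (RingHom.id R) e ∧ SBC (RingHom.id R) e' ∧ SBC (RingHom.id K) k ∧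
      (∀ a, e' (e a) = a) ∧ (∀ a, k (j a) = B.bc f (e a)) ∧ QAz R m (e l) := by
  have := h.starFix
  have := h.az.free
  have := h.az.finite
  obtain ⟨N, B, e, h1, h2⟩ := exists_salg (T := R) (A := A)
  obtain ⟨k, k1, k2⟩ := hj.lift (g := RingHom.id K) (h1.comp (sbc_bc B f))
  exact ⟨N, B, e, e.symm, k, h1, h2, k2, e.symm_apply_apply, RingHom.congr_fun k1, h.map h1⟩

end Pool.Agent.GSD
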