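import Mathlib

open Matrix

universe u v

namespace Pool.Agent.GSD

section Field

theorem pf_field_aux {F : Type u} [Field F] [CharZero F] (N : ℕ) :
    ∀ (n : Type v) [Fintype n] [DecidableEq n], Fintype.card n ≤ N →
      ∀ W : Matrix n n F, Wᵀ = -W → IsSquare W.det := by
  induction N with
  | zero =>
    intro n _ _ hn W _
    have : IsEmpty n := Fintype.card_eq_zero_iff.1 (Nat.le_zero.1 hn)
    rw [Matrix.det_isEmpty]; exact IsSquare.one
  | succ N ih =>
    intro n _ _ hn W hW
    have hsk : ∀ i j, W j i = -W i j := fun i j => by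
      have := congrFun (congrFun hW i) j
      simpa using this
    have hd : ∀ i, W i i = 0 := fun i => by
      have := hsk i i
      have h2 : (2 : F) * W i i = 0 := by linear_combination this
      exact (mul_eq_zero.1 h2).resolve_left two_ne_zero
    by_cases h0 : W = 0
    · subst h0
      cases isEmpty_or_nonempty n with
      | inl h => rw [Matrix.det_isEmpty]; exact IsSquare.one
      | inr h => rw [Matrix.det_zero]; exact IsSquare.zero
    obtain ⟨i, j, hij⟩ : ∃ i j, W i j ≠ 0 := by
      by_contra hne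
      push Not at hne
      exact h0 (Matrix.ext hne)
    have hne : i ≠ j := fun e => hij (e ▸ hd i)
    let p : n → Prop := fun k => k = i ∨ k = j
    let e : Fin 2 ≃ {k // p k} := Equiv.ofBijective ![⟨i, Or.inl rfl⟩, ⟨j, Or.inr rfl⟩] (by
      constructor
      · intro a b hab
        have hv := congrArg Subtype.val hab
        fin_cases a <;> fin_cases b
        · rfl
        · exact absurd hv hne
        · exact absurd hv hne.symm
        · rfl
      · rintro ⟨k, rfl | rfl⟩
        · exact ⟨0, rfl⟩
        · exact ⟨1, rfl⟩)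
    have hA : (W.toBlock p p).det = W i j * W i j := by
      rw [← Matrix.det_submatrix_equiv_self e, Matrix.det_fin_two]
      change W i i * W j j - W i j * W j i = _
      rw [hd, hd, hsk i j]; ring
    have hAu : IsUnit (W.toBlock p p).det := by
      rw [hA]; exact (mul_ne_zero hij hij).isUnit
    let _ : Invertible (W.toBlock p p) := Matrix.invertibleOfIsUnitDet _ hAu
    rw [Matrix.det_toBlock W p, Matrix.det_fromBlocks₁₁, hA]
    refine IsSquare.mul ⟨_, rfl⟩ (ih _ ?_ _ ?_)
    · have h1 : Fintype.card {k // ¬ p k} < Fintype.card n :=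
        Fintype.card_subtype_lt (x := i) (by simp [p])
      omega
    · have t : ∀ (a b : n → Prop), (W.toBlock a b)ᵀ = -(W.toBlock b a) := fun a b => by
        ext x y
        simp [Matrix.toBlock_apply, hsk y x]
      have ti : (⅟(W.toBlock p p))ᵀ = -⅟(W.toBlock p p) := by
        rw [Matrix.invOf_eq_nonsing_inv, Matrix.transpose_nonsing_inv, t]
        apply Matrix.inv_eq_left_inv
        rw [neg_mul_neg, Matrix.nonsing_inv_mul _ hAu]
      rw [transpose_sub, transpose_mul, transpose_mul, t, t, t, ti]
      simp only [Matrix.neg_mul, Matrix.mul_neg, neg_neg, Matrix.mul_assoc]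
      abel

end Field

variable {n : Type v} [Fintype n] [DecidableEq n]

/-- The ring of the generic matrix. -/
abbrev GZ (n : Type v) : Type v := MvPolynomial (n × n) ℤ

/-- The generic matrix. -/
noncomputable def genM (n : Type v) : Matrix n n (GZ n) :=
  Matrix.of fun i j => MvPolynomial.X (i, j)

theorem isSquare_det_gen : IsSquare (genM n - (genM n)ᵀ).det := by
  let D := MvPolynomial (n × n) ℤ
  let F := FractionRing D
  have hi : Function.Injective (algebraMap D F) := IsFractionRing.injective D F
  have : CharZero F := charZero_of_injective_algebraMap hi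
  obtain ⟨y, hy⟩ := pf_field_aux (F := F) _ n le_rfl
    ((genM n - (genM n)ᵀ).map (algebraMap D F)) (by
      ext i j; simp)
  rw [← RingHom.mapMatrix_apply, ← RingHom.map_det] at hy
  have h2 : IsIntegral D (y ^ 2) := by
    rw [pow_two, ← hy]; exact isIntegral_algebraMap
  obtain ⟨z, hz⟩ := IsIntegrallyClosed.exists_algebraMap_eq_of_isIntegral_pow two_pos h2
  exact ⟨z, hi (by rw [hy, map_mul, hz])⟩

variable {T T' : Type*} [CommRing T] [CommRing T']

/-- Alternating matrices. -/
def IsAltM (W : Matrix n n T) : Prop := ∃ X : Matrix n n T, W = X - Xᵀ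

/-- The part above the diagonal, for a fixed order on the indices. -/
noncomputable def upperM (W : Matrix n n T) : Matrix n n T :=
  Matrix.of fun i j => if Fintype.equivFin n i < Fintype.equivFin n j then W i j else 0

/-- The value of an integral polynomial at the entries of a matrix. -/
noncomputable def evM (X : Matrix n n T) : GZ n →+* T :=
  MvPolynomial.eval₂Hom (Int.castRingHom T) fun p => X p.1 p.2

/-- The Pfaffian, up to a sign that depends only on the index type. -/
noncomputable def pf (W : Matrix n n T) : T :=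
  evM (upperM W) (isSquare_det_gen (n := n)).choose

omit [Fintype n] [DecidableEq n] in
theorem genM_map (X : Matrix n n T) : (genM n).map (evM X) = X := by
  ext i j; simp [genM, evM]

omit [Fintype n] [DecidableEq n] in
theorem evM_map (f : T →+* T') (X : Matrix n n T) : f.comp (evM X) = evM (X.map f) := by
  refine MvPolynomial.ringHom_ext (fun r => by simp) fun p => by simp [evM]

omit [DecidableEq n] in
theorem upperM_map (f : T →+* T') (W : Matrix n n T) :
    (upperM W).map f = upperM (W.map f) := by
  ext i j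
  simp only [upperM, Matrix.map_apply, Matrix.of_apply]
  split_ifs <;> simp

theorem pf_map (f : T →+* T') (W : Matrix n n T) : f (pf W) = pf (W.map f) := by
  unfold pf
  rw [← upperM_map, ← evM_map]; rfl

omit [Fintype n] [DecidableEq n] in
theorem IsAltM.map {W : Matrix n n T} (h : IsAltM W) (f : T →+* T') : IsAltM (W.map f) := by
  obtain ⟨X, rfl⟩ := h
  exact ⟨X.map f, by ext i j; simp⟩

omit [Fintype n] [DecidableEq n] in
theorem IsAltM.transpose {W : Matrix n n T} (h : IsAltM W) : Wᵀ = -W := by
  obtain ⟨X, rfl⟩ := h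
  simp

omit [Fintype n] [DecidableEq n] in
theorem IsAltM.diag {W : Matrix n n T} (h : IsAltM W) (i : n) : W i i = 0 := by
  obtain ⟨X, rfl⟩ := h
  simp

omit [DecidableEq n] in
theorem upperM_sub {W : Matrix n n T} (h1 : Wᵀ = -W) (h2 : ∀ i, W i i = 0) :
    upperM W - (upperM W)ᵀ = W := by
  ext i j
  have hs : W j i = -W i j := by simpa using congrFun (congrFun h1 i) j
  simp only [upperM, Matrix.sub_apply, Matrix.transpose_apply, Matrix.of_apply]
  rcases lt_trichotomy (Fintype.equivFin n i) (Fintype.equivFin n j) with h | h | h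
  · rw [if_pos h, if_neg h.asymm, sub_zero]
  · obtain rfl := (Fintype.equivFin n).injective h
    simp [h2]
  · rw [if_neg h.asymm, if_pos h, hs]; ring

omit [DecidableEq n] in
theorem isAltM_iff {W : Matrix n n T} : IsAltM W ↔ Wᵀ = -W ∧ ∀ i, W i i = 0 :=
  ⟨fun h => ⟨h.transpose, h.diag⟩, fun h => ⟨_, (upperM_sub h.1 h.2).symm⟩⟩

omit [Fintype n] [DecidableEq n] in
theorem IsAltM.add {W W' : Matrix n n T} (h : IsAltM W) (h' : IsAltM W') : IsAltM (W + W') := by
  obtain ⟨X, rfl⟩ := h
  obtain ⟨Y, rfl⟩ := h'
  exact ⟨X + Y, by rw [transpose_add]; abel⟩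

omit [Fintype n] [DecidableEq n] in
theorem IsAltM.smul {W : Matrix n n T} (h : IsAltM W) (c : T) : IsAltM (c • W) := by
  obtain ⟨X, rfl⟩ := h
  exact ⟨c • X, by rw [transpose_smul, smul_sub]⟩

omit [DecidableEq n] in
theorem IsAltM.congr {n' : Type*} {W : Matrix n n T} (h : IsAltM W) (P : Matrix n n' T) :
    ∃ X : Matrix n' n' T, Pᵀ * W * P = X - Xᵀ := by
  obtain ⟨X, rfl⟩ := h
  refine ⟨Pᵀ * X * P, ?_⟩
  rw [transpose_mul, transpose_mul, transpose_transpose, Matrix.mul_sub, Matrix.sub_mul,
    Matrix.mul_assoc Pᵀ Xᵀ P]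

/-- The square of the Pfaffian is the determinant. -/
theorem pf_sq {W : Matrix n n T} (h : IsAltM W) : pf W ^ 2 = W.det := by
  have e := congrArg (evM (upperM W)) (isSquare_det_gen (n := n)).choose_spec
  rw [map_mul, RingHom.map_det, RingHom.mapMatrix_apply, Matrix.map_sub _ (map_sub _),
    transpose_map, genM_map, upperM_sub h.transpose h.diag] at e
  rw [e, pow_two]; rfl

theorem IsAltM.isSquare_det {W : Matrix n n T} (h : IsAltM W) : IsSquare W.det :=
  ⟨pf W, by rw [← pf_sq h, pow_two]⟩

theorem IsAltM.det_eq_neg {W : Matrix n n T} (h : IsAltM W) (ho : Odd (Fintype.card n)) :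
    W.det = -W.det := by
  conv_lhs => rw [← det_transpose, h.transpose, det_neg, ho.neg_one_pow]
  ring

theorem pf_sign_aux {D D' : Type*} [CommRing D] [IsDomain D] [CommRing D'] [IsDomain D']
    [CharZero D'] {a b c : D} (s : D →+* D') (j : D' →+* D) {c0 : D'} (hc : j c0 = c)
    (hj : ∀ x, s (j x) = x) (h : a ^ 2 = (b * c) ^ 2) (ha : s a = c0) (hb : s b = 1) :
    a = b * c := by
  rcases sq_eq_sq_iff_eq_or_eq_neg.1 h with h1 | h1
  · exact h1
  · have h2 := congrArg s h1
    rw [map_neg, map_mul, ha, hb, one_mul, ← hc, hj] at h2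
    have h3 : (2 : D') * c0 = 0 := by linear_combination h2
    have h4 : c0 = 0 := (mul_eq_zero.1 h3).resolve_left two_ne_zero
    rw [h1, ← hc, h4, map_zero, mul_zero, neg_zero]

/-- The Pfaffian under a change of basis. -/
theorem pf_congr {W : Matrix n n T} (h : IsAltM W) (P : Matrix n n T) :
    pf (Pᵀ * W * P) = P.det * pf W := by
  obtain ⟨X, rfl⟩ := h
  let j : (GZ n) →+* (MvPolynomial (n × n) (GZ n)) := MvPolynomial.C
  let s : MvPolynomial (n × n) (GZ n) →+* GZ n :=
    MvPolynomial.eval fun p => (1 : Matrix n n (GZ n)) p.1 p.2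
  let W0 : Matrix n n (GZ n) := genM n - (genM n)ᵀ
  let P0 : Matrix n n (MvPolynomial (n × n) (GZ n)) := Matrix.of fun a b => MvPolynomial.X (a, b)
  have hW0 : IsAltM W0 := ⟨_, rfl⟩
  have hsj : ∀ x, s (j x) = x := fun x => by simp [s, j]
  have hsP : P0.map s = 1 := by ext1 a b; simp [P0, s]
  have hsW : (W0.map j).map s = W0 := by ext1 a b; simp [hsj]
  have key : pf (P0ᵀ * W0.map j * P0) = P0.det * pf (W0.map j) := by
    refine pf_sign_aux s j (pf_map j W0) hsj ?_ ?_ ?_
    · rw [mul_pow, pf_sq ((hW0.map j).congr P0), pf_sq (hW0.map j), det_mul, det_mul,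
        det_transpose]
      ring
    · rw [pf_map, Matrix.map_mul, Matrix.map_mul, transpose_map, hsP, hsW, transpose_one,
        Matrix.one_mul, Matrix.mul_one]
    · rw [RingHom.map_det, RingHom.mapMatrix_apply, hsP, det_one]
  let f : MvPolynomial (n × n) (GZ n) →+* T :=
    MvPolynomial.eval₂Hom (evM X) fun p => P p.1 p.2
  have hfP : P0.map f = P := by ext1 a b; simp [P0, f]
  have hfW : (W0.map j).map f = X - Xᵀ := by
    ext1 a b; simp [W0, f, j, genM, evM]
  have k2 := congrArg f key
  rwa [map_mul, pf_map, pf_map, RingHom.map_det, RingHom.mapMatrix_apply, Matrix.map_mul,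
    Matrix.map_mul, transpose_map, hfP, hfW] at k2

/-- The Pfaffian of a multiple. -/
theorem pf_smul {W : Matrix n n T} (h : IsAltM W) (c : T) :
    pf (c • W) = c ^ (Fintype.card n / 2) * pf W := by
  obtain ⟨X, rfl⟩ := h
  let j : (GZ n) →+* (Polynomial (GZ n)) := Polynomial.C
  let s : (Polynomial (GZ n)) →+* (GZ n) := Polynomial.evalRingHom 1
  let W0 : Matrix n n (GZ n) := genM n - (genM n)ᵀ
  have hW0 : IsAltM W0 := ⟨_, rfl⟩
  have hsj : ∀ x, s (j x) = x := fun x => by simp [s, j]
  have hsW : (W0.map j).map s = W0 := by ext1 a b; simp [hsj]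
  have key : pf ((Polynomial.X : (Polynomial (GZ n))) • W0.map j) =
      Polynomial.X ^ (Fintype.card n / 2) * pf (W0.map j) := by
    refine pf_sign_aux s j (pf_map j W0) hsj ?_ ?_ ?_
    · rw [mul_pow, pf_sq ((hW0.map j).smul _), pf_sq (hW0.map j), det_smul, ← pow_mul]
      rcases Nat.even_or_odd (Fintype.card n) with he | ho
      · rw [Nat.div_two_mul_two_of_even he]
      · have e := (hW0.map j).det_eq_neg ho
        have e2 : (2 : (Polynomial (GZ n))) * (W0.map j).det = 0 := by linear_combination e
        rw [(mul_eq_zero.1 e2).resolve_left two_ne_zero, mul_zero, mul_zero]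
    · rw [pf_map]
      congr 1
      ext1 a b
      simp [s, j]
    · simp [s]
  let f : (Polynomial (GZ n)) →+* T := Polynomial.eval₂RingHom (evM X) c
  have hfW : (W0.map j).map f = X - Xᵀ := by
    ext1 a b; simp [W0, f, j, genM, evM]
  have k2 := congrArg f key
  rw [map_mul, pf_map, pf_map, hfW, map_pow] at k2
  have e1 : f Polynomial.X = c := by simp [f]
  have e2 : ((Polynomial.X : (Polynomial (GZ n))) • W0.map j).map f = c • (X - Xᵀ) := by
    rw [← hfW]
    ext1 a b
    simp only [Matrix.map_apply, Matrix.smul_apply, smul_eq_mul, map_mul, e1]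
  rwa [e1, e2] at k2

/-- An element killed by a power of each entry of the image of a matrix unit is zero. -/
theorem eq_zero_of_entries (α : Matrix n n T →+* Matrix n n T) (i0 : n) (N : ℕ) {z : T}
    (h : ∀ a b, α (single i0 i0 1) a b ^ N * z = 0) : z = 0 := by
  let I : Ideal T := (Submodule.span T {z}).annihilator.radical
  have hI : ∀ a b, α (single i0 i0 1) a b ∈ I := fun a b =>
    ⟨N, by rw [Submodule.mem_annihilator_span_singleton]; exact h a b⟩
  have h1 : (1 : T) ∈ I := by
    have e : (1 : Matrix n n T) =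
        ∑ i, α (single i i0 1) * α (single i0 i0 1) * α (single i0 i 1) := by
      simp only [← map_mul, single_mul_single_same, mul_one, ← map_sum]
      rw [← map_one α]
      congr 1
      ext a b
      simp [Matrix.sum_apply, Matrix.single_apply, Matrix.one_apply, ite_and, eq_comm]
    have e2 := congrFun (congrFun e i0) i0
    rw [one_apply_eq, Matrix.sum_apply] at e2
    rw [e2]
    refine I.sum_mem fun i _ => ?_
    rw [mul_apply]
    refine I.sum_mem fun b _ => I.mul_mem_right _ ?_
    rw [mul_apply]
    exact I.sum_mem fun a _ => I.mul_mem_left _ (hI a b)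
  obtain ⟨k, hk⟩ := h1
  rw [one_pow, Submodule.mem_annihilator_span_singleton, one_smul] at hk
  exact hk

/-- An algebra map of a matrix algebra is inner up to an entry of a matrix unit. -/
theorem exists_intertwine (α : Matrix n n T →ₐ[T] Matrix n n T) (i0 a b : n) :
    ∃ h h' : Matrix n n T, (∀ X, α X * h = h * X) ∧
      h' * h = α (single i0 i0 1) a b • (1 : Matrix n n T) := by
  refine ⟨Matrix.of fun r j => α (single j i0 1) r b, Matrix.of fun i c => α (single i0 i 1) a c,
    fun X => ?_, ?_⟩
  · ext r j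
    have e : X * single j i0 (1 : T) = ∑ k, X k j • single k i0 (1 : T) := by
      ext p q
      simp [mul_apply, Matrix.sum_apply, Matrix.single_apply, ite_and, eq_comm]
    have e2 := congrFun (congrFun (congrArg α e) r) b
    rw [map_mul, map_sum, mul_apply, Matrix.sum_apply] at e2
    rw [mul_apply, mul_apply]
    simp only [Matrix.of_apply]
    rw [e2]
    refine Finset.sum_congr rfl fun k _ => ?_
    rw [map_smul, Matrix.smul_apply, smul_eq_mul, mul_comm]
  · ext i j
    have e2 := congrFun (congrFun (map_mul α (single i0 i (1 : T)) (single j i0 1)) a) b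
    rw [mul_apply] at e2
    rw [mul_apply]
    simp only [Matrix.of_apply]
    rw [← e2]
    by_cases hij : i = j
    · subst hij
      simp
    · rw [single_mul_single_of_ne _ _ _ _ hij]
      simp [hij]

/-- An element killed by the determinants of all intertwining matrices is zero. -/
theorem eq_zero_of_intertwine (α : Matrix n n T →ₐ[T] Matrix n n T) [Nonempty n] {z : T}
    (h : ∀ h : Matrix n n T, (∀ X, α X * h = h * X) → h.det * z = 0) : z = 0 := by
  obtain ⟨i0⟩ := ‹Nonempty n›
  refine eq_zero_of_entries α.toRingHom i0 (Fintype.card n) fun a b => ?_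
  obtain ⟨g, g', hg, hg'⟩ := exists_intertwine α i0 a b
  have e := congrArg det hg'
  rw [det_mul, det_smul, det_one, mul_one] at e
  change α (single i0 i0 1) a b ^ _ * z = 0
  rw [← e, mul_assoc, h g hg, mul_zero]

/-- Algebra maps of a matrix algebra keep the determinant. -/
theorem det_algHom (α : Matrix n n T →ₐ[T] Matrix n n T) (X : Matrix n n T) :
    (α X).det = X.det := by
  cases isEmpty_or_nonempty n with
  | inl _ => rw [det_isEmpty, det_isEmpty]
  | inr _ =>
    rw [← sub_eq_zero]
    refine eq_zero_of_intertwine α fun h hh => ?_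
    have e := congrArg det (hh X)
    rw [det_mul, det_mul] at e
    linear_combination e

/-- An intertwining matrix for a map that respects two adjoint involutions is a similitude. -/
theorem exists_multiplier (α : Matrix n n T →ₐ[T] Matrix n n T) {B1 B2 : Matrix n n T}
    (h1 : IsUnit B1.det)
    (hα : ∀ X Y, B1 * Y = Xᵀ * B1 → B2 * α Y = (α X)ᵀ * B2) {h : Matrix n n T}
    (hh : ∀ X, α X * h = h * X) : ∃ μ : T, hᵀ * B2 * h = μ • B1 := by
  have hc : ∀ X : Matrix n n T, hᵀ * B2 * h * B1⁻¹ * X = X * (hᵀ * B2 * h * B1⁻¹) := by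
    intro X
    have e0 : B1 * (B1⁻¹ * X * B1) = Xᵀᵀ * B1 := by
      rw [← Matrix.mul_assoc, ← Matrix.mul_assoc, mul_nonsing_inv _ h1, Matrix.one_mul,
        transpose_transpose]
    have e1 := hα _ _ e0
    have e2 : hᵀ * (B2 * α (B1⁻¹ * X * B1)) * h = hᵀ * B2 * h * B1⁻¹ * X * B1 := by
      rw [Matrix.mul_assoc, Matrix.mul_assoc, hh]
      simp only [Matrix.mul_assoc]
    have e3 : hᵀ * ((α Xᵀ)ᵀ * B2) * h = X * (hᵀ * B2 * h) := by
      rw [← Matrix.mul_assoc, ← transpose_mul, hh, transpose_mul, transpose_transpose]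
      simp only [Matrix.mul_assoc]
    rw [e1, e3] at e2
    have e4 := congrArg (· * B1⁻¹) e2
    simp only [Matrix.mul_assoc, mul_nonsing_inv _ h1, Matrix.mul_one] at e4 ⊢
    exact e4.symm
  obtain ⟨μ, hμ⟩ := Matrix.mem_range_scalar_of_commute_single (M := hᵀ * B2 * h * B1⁻¹)
    (fun i j _ => (hc _).symm)
  refine ⟨μ, ?_⟩
  have e := congrArg (· * B1) hμ
  simp only [Matrix.mul_assoc, nonsing_inv_mul _ h1, Matrix.mul_one] at e ⊢
  rw [← e, scalar_apply, ← smul_eq_diagonal_mul]

/-- The ratio of two Pfaffians does not depend on the splitting. -/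
theorem pf_ratio (α : Matrix n n T →ₐ[T] Matrix n n T) {B1 B2 : Matrix n n T}
    (h1 : IsUnit B1.det)
    (hα : ∀ X Y, B1 * Y = Xᵀ * B1 → B2 * α Y = (α X)ᵀ * B2) {x y : Matrix n n T}
    (hx : IsAltM (B1 * x)) (hy : IsAltM (B1 * y)) (hx' : IsAltM (B2 * α x))
    (hy' : IsAltM (B2 * α y)) :
    pf (B2 * α x) * pf (B1 * y) = pf (B1 * x) * pf (B2 * α y) := by
  cases isEmpty_or_nonempty n with
  | inl _ =>
    rw [Subsingleton.elim (B2 * α x) (B1 * x), Subsingleton.elim (B2 * α y) (B1 * y)]
  | inr _ =>
    rw [← sub_eq_zero]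
    refine eq_zero_of_intertwine α fun h hh => ?_
    obtain ⟨μ, hμ⟩ := exists_multiplier α h1 hα hh
    have key : ∀ z, hᵀ * (B2 * α z) * h = μ • (B1 * z) := fun z => by
      rw [Matrix.mul_assoc, Matrix.mul_assoc, hh, ← Matrix.smul_mul, ← hμ]
      simp only [Matrix.mul_assoc]
    have ex := pf_congr hx' h
    have ey := pf_congr hy' h
    rw [key, pf_smul hx] at ex
    rw [key, pf_smul hy] at ey
    linear_combination pf (B1 * x) * ey - pf (B1 * y) * ex

end Pool.Agent.GSD
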