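import Pool.Agent.P.MP_c1f06d_ag.su.VDefs
import Pool.Agent.P.MP_c1f06d_ag.d.ValA
import Pool.Agent.P.MP_c1f06d_ag.d.Pf
import Pool.Agent.P.MP_c1f06d_ag.d.RankOne

/-! Definitions for type D: base change, splittings, reduced norm, Wall data. -/

open Matrix Module

universe u

namespace Pool.Agent.GSD

section BC
variable {T T' A A' : Type u} [CommRing T] [CommRing T'] [Ring A] [Ring A'] [Algebra T A]
  [Algebra T' A']

/-- `j : A → A'` is a base change along `f : T → T'` of finite free algebras. -/
structure BC (f : T →+* T') (j : A →+* A') : Prop where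
  alg : ∀ t, j (algebraMap T A t) = algebraMap T' A' (f t)
  basis : ∃ (N : ℕ) (b : Basis (Fin N) T A) (b' : Basis (Fin N) T' A'), ∀ i, j (b i) = b' i

/-- A base change that commutes with the involutions. -/
structure SBC [StarRing A] [StarRing A'] (f : T →+* T') (j : A →+* A') : Prop extends BC f j where
  map_star : ∀ a, j (star a) = star (j a)

end BC

section Spl
variable (T : Type u) {S A : Type u} [CommRing T] [CommRing S] [Ring A] [Algebra T A]

/-- `c` is the determinant of `a` in every splitting. -/
def IsNrd (a : A) (c : T) : Prop :=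
  ∀ (d : Type) [Fintype d] [DecidableEq d] (S : Type u) [CommRing S] (f : T →+* S)
    (φ : A →+* Matrix d d S), BC f φ → f c = (φ a).det

/-- The reduced norm. -/
noncomputable def nrd (a : A) : T := Classical.epsilon (IsNrd T a)

variable (A) in
/-- `A` is a finite free algebra that is a matrix algebra after a faithfully flat base change. -/
def Az : Prop :=
  ∃ (d : Type) (_ : Fintype d) (_ : DecidableEq d) (S : Type u) (_ : CommRing S) (f : T →+* S)
    (φ : A →+* Matrix d d S), f.FaithfullyFlat ∧ BC f φ

variable (A) in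
/-- `A` is a matrix algebra over the base ring itself. -/
def ASplit (m : ℕ) : Prop := ∃ φ : A →+* Matrix (Fin m) (Fin m) T, BC (RingHom.id T) φ

variable {T} [StarRing A]

/-- A splitting of `(A, *, l)`: the involution becomes adjoint to the polar form of `Q`, and `l`
represents the quadratic form `Q`. -/
structure QSpl {m : ℕ} (l : A) (f : T →+* S) (φ : A →+* Matrix (Fin m) (Fin m) S)
    (Q : Matrix (Fin m) (Fin m) S) : Prop extends BC f φ where
  unit : IsUnit (Q + Qᵀ).det
  adj : ∀ a, (Q + Qᵀ) * φ (star a) = (φ a)ᵀ * (Q + Qᵀ)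
  ell : Q = (Q + Qᵀ) * φ l

variable (T) in
/-- `(A, *, l)` is an Azumaya algebra of degree `m` with quadratic pair. -/
def QAz (m : ℕ) (l : A) : Prop :=
  ∃ (S : Type u) (_ : CommRing S) (f : T →+* S) (φ : A →+* Matrix (Fin m) (Fin m) S)
    (Q : Matrix (Fin m) (Fin m) S), f.FaithfullyFlat ∧ QSpl l f φ Q

variable (T) in
/-- `(A, *, l)` splits over the base ring itself. -/
def IsSplit (m : ℕ) (l : A) : Prop :=
  ∃ (φ : A →+* Matrix (Fin m) (Fin m) T) (Q : Matrix (Fin m) (Fin m) T),
    QSpl l (RingHom.id T) φ Q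

end Spl

section Wall
variable (T : Type u) {A : Type u} [CommRing T] [Ring A] [Algebra T A] [StarRing A]
  {n : Type} [Fintype n]

/-- The Gram matrix of a family of vectors for the form `x ↦ x* l x`. -/
def gram (l : A) (C : n → A) : Matrix n n A := Matrix.of fun i j => star (C i) * l * C j

/-- The isometry `1 - C Z C*`. -/
def wiso (C : n → A) (Z : Matrix n n A) : A := 1 - ∑ i, ∑ j, C i * Z i j * star (C j)

/-- `g` is the isometry of a Wall datum of even size whose norm is `c` up to a square. -/
def SN (l g : A) (c : T) : Prop :=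
  ∃ (n : Type) (_ : Fintype n) (_ : DecidableEq n) (C : n → A) (Y : (Matrix n n A)ˣ) (u : Tˣ),
    Even (Fintype.card n) ∧ Alt ((Y : Matrix n n A) - gram l C) ∧
      g = wiso C ((Y⁻¹ : (Matrix n n A)ˣ) : Matrix n n A) ∧
      c = (u : T) ^ 2 * nrd T (Y : Matrix n n A)

/-- Spinor norms. -/
def WN (l : A) (c : T) : Prop := ∃ g, SN T l g c

/-- `x` carries the form `th` to the form `l`. -/
def FormIso (l th : A) : Prop := ∃ x : A, Alt (star x * l * x - th)

/-- `c` is, up to a square, a product of the norms of two units of the coset `l + Alt`. -/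
def PairN (l : A) (c : T) : Prop :=
  ∃ (l1 l2 : Aˣ) (t c1 c2 : T), La l l1 ∧ La l l2 ∧ IsNrd T (l1 : A) c1 ∧ IsNrd T (l2 : A) c2 ∧
    c = t ^ 2 * (c1 * c2)

/-- `g` is a product of two Cayley transforms. -/
def IsPair (l g : A) : Prop := ∃ y1 y2 : Aˣ, La l y1 ∧ La l y2 ∧ g = gl y1 * gl y2

instance starFixMat [DecidableEq n] [SU.StarFix T A] : SU.StarFix T (Matrix n n A) where
  fix t := by
    ext i j
    rw [Matrix.star_apply, Matrix.algebraMap_matrix_apply, Matrix.algebraMap_matrix_apply]
    by_cases h : i = j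
    · subst h; simp [SU.StarFix.fix]
    · rw [if_neg h, if_neg (Ne.symm h), star_zero]

end Wall

end Pool.Agent.GSD
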