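import Mathlib

/-! Norm principle for `Spin (A, σ)`, existence of the alternating solution `W` of
`ρ y * W = ρ l * E` modulo alternating elements. -/

namespace Pool.Agent.GSD

section
variable {R A1 B : Type*} [CommRing R] [Ring A1] [StarRing A1] [Algebra R A1]
  [Ring B] [StarRing B] [Algebra R B]

omit [StarRing A1] in
/-- the commutator identity for elements of `R[y]` -/
theorem np_adjoin (ρ : A1 →ₐ[R] B) (hB : ∀ r : R, star (algebraMap R B r) = algebraMap R B r)
    (y b : A1) (hb : b ∈ Algebra.adjoin R {y}) (z : B) :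
    ∃ z', ρ b * z - z * star (ρ b) = ρ y * z' - z' * star (ρ y) := by
  have hc : ∀ b ∈ Algebra.adjoin R {y}, ρ b * ρ y = ρ y * ρ b := by
    intro b hb
    rw [← map_mul, ← map_mul]
    congr 1
    exact (Algebra.commute_of_mem_adjoin_self hb).eq.symm
  induction hb using Algebra.adjoin_induction generalizing z with
  | mem x hx =>
    rw [Set.mem_singleton_iff] at hx
    subst hx
    exact ⟨z, rfl⟩
  | algebraMap r =>
    refine ⟨0, ?_⟩
    rw [AlgHom.commutes, hB, Algebra.commutes]
    simp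
  | add x w _ _ ihx ihw =>
    obtain ⟨z1, h1⟩ := ihx z
    obtain ⟨z2, h2⟩ := ihw z
    refine ⟨z1 + z2, ?_⟩
    rw [map_add, star_add]
    calc _ = (ρ x * z - z * star (ρ x)) + (ρ w * z - z * star (ρ w)) := by noncomm_ring
      _ = _ := by rw [h1, h2]; noncomm_ring
  | mul x w hx _ ihx ihw =>
    obtain ⟨z1, h1⟩ := ihx (z * star (ρ w))
    obtain ⟨z2, h2⟩ := ihw z
    refine ⟨z1 + ρ x * z2, ?_⟩
    have h3 := hc x hx
    rw [map_mul, star_mul]
    calc ρ x * ρ w * z - z * (star (ρ w) * star (ρ x))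
        = ρ x * (ρ w * z - z * star (ρ w))
          + (ρ x * (z * star (ρ w)) - z * star (ρ w) * star (ρ x)) := by noncomm_ring
      _ = (ρ x * ρ y) * z2 - ρ x * z2 * star (ρ y) + (ρ y * z1 - z1 * star (ρ y)) := by
          rw [h1, h2]; noncomm_ring
      _ = _ := by rw [h3]; noncomm_ring

omit [Algebra R A1] [Algebra R B] in
/-- the ideal of the diagonal -/
theorem np_diag (ρ : A1 →+* B) (t : A1) (htc : ∀ b, t * b = b * t) (hts : star t = t) (E : B)
    (D : Set A1) (hD : ∀ a ∈ D, ρ a * E = E * star (ρ (star a)))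
    (hgen : ∀ b : A1, b ∈ AddSubgroup.closure {x | ∃ a ∈ D, ∃ i : ℕ, x = a * t ^ i}) (b : A1) :
    ∃ z, ρ b * E - E * star (ρ (star b)) = ρ t * z - z * star (ρ t) := by
  have step : ∀ b : A1, (∃ z, ρ b * E - E * star (ρ (star b)) = ρ t * z - z * star (ρ t)) →
      ∃ z, ρ (b * t) * E - E * star (ρ (star (b * t))) = ρ t * z - z * star (ρ t) := by
    rintro b ⟨z, hz⟩
    refine ⟨ρ b * E + z * star (ρ t), ?_⟩
    rw [star_mul, hts, ← htc b, map_mul, map_mul, star_mul]
    calc ρ t * ρ b * E - E * (star (ρ (star b)) * star (ρ t))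
        = ρ t * (ρ b * E) - ρ b * E * star (ρ t)
          + (ρ b * E - E * star (ρ (star b))) * star (ρ t) := by noncomm_ring
      _ = _ := by rw [hz]; noncomm_ring
  induction hgen b using AddSubgroup.closure_induction with
  | mem x hx =>
    obtain ⟨a, ha, i, rfl⟩ := hx
    induction i with
    | zero => exact ⟨0, by simp [hD a ha]⟩
    | succ i ih => rw [pow_succ, ← mul_assoc]; exact step _ ih
  | zero => exact ⟨0, by simp⟩
  | add x w _ _ ihx ihw =>
    obtain ⟨z1, h1⟩ := ihx
    obtain ⟨z2, h2⟩ := ihw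
    refine ⟨z1 + z2, ?_⟩
    rw [star_add, map_add, map_add, star_add]
    calc _ = (ρ x * E - E * star (ρ (star x))) + (ρ w * E - E * star (ρ (star w))) := by
          noncomm_ring
      _ = _ := by rw [h1, h2]; noncomm_ring
  | neg x _ ihx =>
    obtain ⟨z1, h1⟩ := ihx
    refine ⟨-z1, ?_⟩
    rw [star_neg, map_neg, map_neg, star_neg]
    calc _ = -(ρ x * E - E * star (ρ (star x))) := by noncomm_ring
      _ = _ := by rw [h1]; noncomm_ring

/-- **Existence of the alternating solution.** `ρ` is the regular representation of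
`A1 = A ⊗ S` in `B = M_r(A)`, `D` the image of `A`, `E = e e*`. -/
theorem np_exists (ρ : A1 →ₐ[R] B) (hB : ∀ r : R, star (algebraMap R B r) = algebraMap R B r)
    (t : A1) (htc : ∀ b, t * b = b * t) (hts : star t = t) (E : B) (hE : star E = E)
    (D : Set A1) (hD : ∀ a ∈ D, ρ a * E = E * star (ρ (star a)))
    (hgen : ∀ b : A1, b ∈ AddSubgroup.closure {x | ∃ a ∈ D, ∃ i : ℕ, x = a * t ^ i})
    (l y : A1) (hl : l + star l = 1) (hy : ∃ c, y - l = c - star c) (hu : IsUnit (y - star y))
    (hτ : t ∈ Algebra.adjoin R {y}) :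
    ∃ W : B, (∃ z, W = z - star z) ∧ ∃ z, ρ y * W - ρ l * E = z - star z := by
  obtain ⟨c, hc⟩ := hy
  have hy1 : star y = 1 - y := by
    have h1 : y = l + (c - star c) := by rw [← hc]; abel
    have h2 : star y = star l + (star c - c) := by
      rw [h1, star_add, star_sub, star_star]
    rw [h2, h1, ← hl]; abel
  obtain ⟨u, hu⟩ := hu
  have huy : y * (u : A1) = u * y := by rw [hu, hy1]; noncomm_ring
  have huy' : (↑u⁻¹ : A1) * y = y * ↑u⁻¹ := by
    calc (↑u⁻¹ : A1) * y = ↑u⁻¹ * (y * u) * ↑u⁻¹ := by simp [mul_assoc]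
      _ = y * ↑u⁻¹ := by rw [huy]; simp [← mul_assoc]
  set a : A1 := y * ↑u⁻¹ with ha
  have hay : y * a - a * star y = y := by
    have h1 : y * a = a * y := by rw [ha, mul_assoc, huy']
    rw [h1, ← mul_sub, ← hu, ha]; simp [mul_assoc]
  have hI := np_diag (ρ : A1 →+* B) t htc hts E D hD hgen
  simp only [RingHom.coe_coe] at hI
  obtain ⟨z1, h1⟩ := hI (star c)
  obtain ⟨z2, h2⟩ := hI (star y)
  rw [star_star] at h1 h2
  have hat : ρ a * ρ t = ρ t * ρ a := by rw [← map_mul, ← map_mul, htc]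
  obtain ⟨z3, h3⟩ := np_adjoin ρ hB y t hτ (z1 - ρ a * z2)
  -- `z = ρ a * E + z3`
  have hl' : ρ l = ρ y - ρ c + ρ (star c) := by
    rw [← map_sub, ← map_add]; congr 1
    have : l = y - (c - star c) := by rw [← hc]; abel
    rw [this]; abel
  have hay' : ρ y * ρ a - ρ a * ρ (star y) = ρ y := by
    rw [← map_mul, ← map_mul, ← map_sub, hay]
  have key : ρ y * (ρ a * E + z3) - (ρ a * E + z3) * star (ρ y) - ρ l * E
      = ρ c * E - star (ρ c * E) := by
    rw [star_mul, hE, hl']
    have e1 : ρ (star c) * E = E * star (ρ c) + (ρ t * z1 - z1 * star (ρ t)) := by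
      rw [← h1]; abel
    have e2 : E * star (ρ y) = ρ (star y) * E - (ρ t * z2 - z2 * star (ρ t)) := by
      rw [← h2]; abel
    calc _ = ρ y * ρ a * E - ρ a * (E * star (ρ y)) + (ρ y * z3 - z3 * star (ρ y))
            - ρ y * E + ρ c * E - ρ (star c) * E := by noncomm_ring
      _ = (ρ y * ρ a - ρ a * ρ (star y)) * E + ((ρ a * ρ t) * z2 - ρ a * z2 * star (ρ t))
            + (ρ t * (z1 - ρ a * z2) - (z1 - ρ a * z2) * star (ρ t))
            - ρ y * E + ρ c * E - (E * star (ρ c) + (ρ t * z1 - z1 * star (ρ t))) := by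
          rw [e1, e2, ← h3]; noncomm_ring
      _ = _ := by rw [hay', hat]; noncomm_ring
  refine ⟨(ρ a * E + z3) - star (ρ a * E + z3), ⟨_, rfl⟩,
    ρ c * E - ρ y * star (ρ a * E + z3), ?_⟩
  rw [star_sub, star_mul (ρ y), star_star]
  calc _ = (ρ y * (ρ a * E + z3) - (ρ a * E + z3) * star (ρ y) - ρ l * E)
        - ρ y * star (ρ a * E + z3) + (ρ a * E + z3) * star (ρ y) := by noncomm_ring
    _ = _ := by rw [key]; noncomm_ring

end

/-- Matrix form: `ρ b` is the matrix of left multiplication by `b` on `A1`, a right `A`-module with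
basis in the centre; `e` are the coordinates of `1`. -/
theorem np_exists_matrix {R A A1 n : Type*} [CommRing R] [Ring A] [StarRing A] [Algebra R A]
    [Ring A1] [StarRing A1] [Algebra R A1] [Fintype n] [DecidableEq n]
    (hA : ∀ r : R, star (algebraMap R A r) = algebraMap R A r)
    (j : A →+* A1) (hj : ∀ a, j (star a) = star (j a))
    (ρ : A1 →ₐ[R] Matrix n n A) (hρ : ∀ a, ρ (j a) = Matrix.diagonal fun _ => a)
    (t : A1) (htc : ∀ b, t * b = b * t) (hts : star t = t)
    (hgen : ∀ b : A1, b ∈ AddSubgroup.closure {x | ∃ a ∈ Set.range j, ∃ i : ℕ, x = a * t ^ i})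
    (e : n → R) (l : A) (y : A1) (hl : l + star l = 1) (hy : ∃ c, y - j l = c - star c)
    (hu : IsUnit (y - star y)) (hτ : t ∈ Algebra.adjoin R {y}) :
    ∃ W : Matrix n n A, (∃ z, W = z - star z) ∧
      ∃ z, ρ y * W - (Matrix.of fun p q => (e p * e q) • l) = z - star z := by
  have hB : ∀ r : R, star (algebraMap R (Matrix n n A) r) = algebraMap R (Matrix n n A) r := by
    intro r
    ext p q
    rw [Matrix.star_apply, Matrix.algebraMap_matrix_apply, Matrix.algebraMap_matrix_apply]
    by_cases h : p = q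
    · simp [h, hA]
    · simp [h, Ne.symm h]
  set E : Matrix n n A := Matrix.of fun p q => algebraMap R A (e p * e q) with hEd
  have hE : star E = E := by
    ext p q
    rw [Matrix.star_apply, hEd, Matrix.of_apply, Matrix.of_apply, hA, mul_comm]
  have hD : ∀ a ∈ Set.range j, ρ a * E = E * star (ρ (star a)) := by
    rintro _ ⟨a, rfl⟩
    rw [← hj, hρ, hρ]
    ext p q
    have : star (Matrix.diagonal fun _ : n => star a) = Matrix.diagonal fun _ : n => a := by
      rw [Matrix.star_eq_conjTranspose, Matrix.diagonal_conjTranspose]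
      congr 1
      funext i
      simp
    rw [this, Matrix.diagonal_mul, Matrix.mul_diagonal, hEd, Matrix.of_apply, Algebra.commutes]
  obtain ⟨W, hW, z, hz⟩ := np_exists ρ hB t htc hts E hE (Set.range j) hD hgen (j l) y
    (by rw [← hj, ← map_add, hl, map_one]) hy hu hτ
  refine ⟨W, hW, z, ?_⟩
  rw [← hz, hρ]
  congr 1
  ext p q
  rw [Matrix.diagonal_mul, hEd, Matrix.of_apply, Matrix.of_apply, Algebra.smul_def,
    Algebra.commutes]

end Pool.Agent.GSD
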