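import Pool.Agent.P.MP_c1f06d_ag.d.DDefs
import Pool.Agent.P.MP_c1f06d_ag.d.NPex

open Polynomial Pool.Agent.SU IsLocalRing

universe u

namespace Pool.Agent.GSD

/-- The twisted commutator. -/
def tw {B : Type*} [Ring B] [StarRing B] (c z : B) : B := c * z - z * star c

theorem dfina1_tw_star {B : Type*} [Ring B] [StarRing B] (c z : B) :
    star (tw c z) = -tw c (star z) := by
  simp only [tw, star_sub, star_mul, star_star, neg_sub]

theorem dfina1_tw_comm {B : Type*} [Ring B] [StarRing B] {c y : B} (h : c * y = y * c) (z : B) :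
    tw c (tw y z) = tw y (tw c z) := by
  have h' : star y * star c = star c * star y := by rw [← star_mul, h, star_mul]
  simp only [tw]
  calc c * (y * z - z * star y) - (y * z - z * star y) * star c
      = (c * y) * z - c * z * star y - y * z * star c + z * (star y * star c) := by noncomm_ring
    _ = _ := by rw [h, h']; noncomm_ring

/-- Existence of the alternating solution, with control of its diagonal part. -/
theorem fa_exists {A1 B : Type*} [Ring A1] [StarRing A1] [Ring B] [StarRing B] (ρ : A1 →+* B)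
    (t : A1) (htc : ∀ b, t * b = b * t) (hts : star t = t) (E : B) (hE : star E = E)
    (D : Set A1) (hD : ∀ a ∈ D, ρ a * E = E * star (ρ (star a)))
    (hgen : ∀ b : A1, b ∈ AddSubgroup.closure {x | ∃ a ∈ D, ∃ i : ℕ, x = a * t ^ i})
    {l y a : A1} (hl : l + star l = 1) (hlE : ρ (star l) * E = E * star (ρ l)) (hy : La l y)
    (ha : a * (y - star y) = 1)
    (ha' : (y - star y) * a = 1)
    (hs : ∀ z, ∃ z1, tw (ρ t) z = tw (ρ y) (tw (ρ t) z1)) :
    ∃ W : B, Alt W ∧ Alt (ρ y * W - ρ l * E) ∧ tw (ρ y) W = E ∧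
      ∃ z, W - ρ a * E = tw (ρ t) z := by
  have hy0 := hy.add_star hl
  obtain ⟨c, hc⟩ := hy
  have hy1 : star y = 1 - y := eq_sub_of_add_eq' hy0
  have huy : y * (y - star y) = (y - star y) * y := by rw [hy1]; noncomm_ring
  have hay0 : a * y = y * a := by
    calc a * y = a * (y * (y - star y)) * a := by rw [mul_assoc a, mul_assoc y, ha', mul_one]
      _ = y * a := by rw [huy, ← mul_assoc a, ha, one_mul]
  have hsa : star a = -a := by
    have h1 : star a * (y - star y) = -1 := by
      have := congrArg star ha'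
      rw [star_mul, star_one, star_sub, star_star] at this
      rw [← neg_sub, mul_neg, this]
    calc star a = star a * ((y - star y) * a) := by rw [ha', mul_one]
      _ = -a := by rw [← mul_assoc, h1, neg_one_mul]
  obtain ⟨b, hb⟩ : ∃ b : A1, b = y * a := ⟨_, rfl⟩
  have hby : y * b - b * star y = y := by
    have h1 : y * b = b * y := by rw [hb, mul_assoc y a y, hay0]
    rw [h1, ← mul_sub, hb, mul_assoc, ha, mul_one]
  have hbs : b - star b = a := by
    rw [hb, star_mul, hsa, hy1, ← hay0]; noncomm_ring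
  have hI := np_diag ρ t htc hts E D hD hgen
  obtain ⟨z1, h1⟩ := hI (star c)
  obtain ⟨z2, h2⟩ := hI (star y)
  obtain ⟨z4, h4⟩ := hI (star b)
  rw [star_star] at h1 h2 h4
  have hat : ρ b * ρ t = ρ t * ρ b := by rw [← map_mul, ← map_mul, htc]
  obtain ⟨z5, h5⟩ := hs (z1 - ρ b * z2)
  set z3 := tw (ρ t) z5 with hz3
  have h3 : ρ t * (z1 - ρ b * z2) - (z1 - ρ b * z2) * star (ρ t) = ρ y * z3 - z3 * star (ρ y) := h5
  have hl' : ρ l = ρ y - ρ c + ρ (star c) := by
    rw [← map_sub, ← map_add]; congr 1
    have : l = y - (c - star c) := by rw [← hc]; abel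
    rw [this]; abel
  have hay' : ρ y * ρ b - ρ b * ρ (star y) = ρ y := by
    rw [← map_mul, ← map_mul, ← map_sub, hby]
  have key : ρ y * (ρ b * E + z3) - (ρ b * E + z3) * star (ρ y) - ρ l * E
      = ρ c * E - star (ρ c * E) := by
    rw [star_mul, hE, hl']
    have e1 : ρ (star c) * E = E * star (ρ c) + (ρ t * z1 - z1 * star (ρ t)) := by
      rw [← h1]; abel
    have e2 : E * star (ρ y) = ρ (star y) * E - (ρ t * z2 - z2 * star (ρ t)) := by
      rw [← h2]; abel
    calc _ = ρ y * ρ b * E - ρ b * (E * star (ρ y)) + (ρ y * z3 - z3 * star (ρ y))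
            - ρ y * E + ρ c * E - ρ (star c) * E := by noncomm_ring
      _ = (ρ y * ρ b - ρ b * ρ (star y)) * E + ((ρ b * ρ t) * z2 - ρ b * z2 * star (ρ t))
            + (ρ t * (z1 - ρ b * z2) - (z1 - ρ b * z2) * star (ρ t))
            - ρ y * E + ρ c * E - (E * star (ρ c) + (ρ t * z1 - z1 * star (ρ t))) := by
          rw [e1, e2, ← h3]; noncomm_ring
      _ = _ := by rw [hay', hat]; noncomm_ring
  have hA : Alt (ρ y * ((ρ b * E + z3) - star (ρ b * E + z3)) - ρ l * E) := by
    refine ⟨ρ c * E - ρ y * star (ρ b * E + z3), ?_⟩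
    rw [star_sub, star_mul (ρ y), star_star]
    calc _ = (ρ y * (ρ b * E + z3) - (ρ b * E + z3) * star (ρ y) - ρ l * E)
          - ρ y * star (ρ b * E + z3) + (ρ b * E + z3) * star (ρ y) := by noncomm_ring
      _ = _ := by rw [key]; noncomm_ring
  have hW : Alt ((ρ b * E + z3) - star (ρ b * E + z3)) := ⟨_, rfl⟩
  refine ⟨_, hW, hA, ?_, z4 + z5 + star z5, ?_⟩
  · have h6 := hA.add_star
    rw [star_sub, star_mul, star_mul, hW.star_eq, hE, ← hlE] at h6
    have h7 : ρ l * E + ρ (star l) * E = E := by rw [← add_mul, ← map_add, hl, map_one, one_mul]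
    generalize (ρ b * E + z3) - star (ρ b * E + z3) = W at h6 ⊢
    calc tw (ρ y) W = (ρ y * W - ρ l * E + (-W * star (ρ y) - ρ (star l) * E)) +
          (ρ l * E + ρ (star l) * E) := by simp only [tw]; noncomm_ring
      _ = E := by rw [h6, h7, zero_add]
  · have e3 : star z3 = -tw (ρ t) (star z5) := dfina1_tw_star _ _
    have e4 : ρ a = ρ b - ρ (star b) := by rw [← map_sub, hbs]
    rw [star_add, star_mul, hE, e3, e4, hz3]
    have e5 : E * star (ρ b) = ρ (star b) * E - (ρ t * z4 - z4 * star (ρ t)) := by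
      rw [← h4]; abel
    rw [e5]
    simp only [tw]
    noncomm_ring

variable {T B : Type*} [CommRing T] [Ring B] [StarRing B] [Algebra T B] [StarFix T B]

theorem dfina1_star_aeval (c : B) (p : T[X]) : star (aeval c p) = aeval (star c) p := by
  induction p using Polynomial.induction_on' with
  | add p q hp hq => rw [map_add, star_add, hp, hq, map_add]
  | monomial n a =>
    rw [aeval_monomial, aeval_monomial, star_mul, star_pow, StarFix.fix, Algebra.commutes]

omit [StarRing B] [StarFix T B] in
theorem dfina1_mulRight (c : B) (p : T[X]) (z : B) :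
    aeval (LinearMap.mulRight T c) p z = z * aeval c p := by
  induction p using Polynomial.induction_on' with
  | add p q hp hq => rw [map_add, LinearMap.add_apply, hp, hq, map_add, mul_add]
  | monomial n a =>
    rw [aeval_monomial, aeval_monomial, Module.End.mul_apply, LinearMap.pow_mulRight,
      LinearMap.mulRight_apply, Module.algebraMap_end_apply, ← Algebra.smul_def, mul_smul_comm]

omit [StarRing B] [StarFix T B] in
theorem dfina1_mulLeft (c : B) (p : T[X]) (z : B) :
    aeval (LinearMap.mulLeft T c) p z = aeval c p * z := by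
  induction p using Polynomial.induction_on' with
  | add p q hp hq => rw [map_add, LinearMap.add_apply, hp, hq, map_add, add_mul]
  | monomial n a =>
    rw [aeval_monomial, aeval_monomial, Module.End.mul_apply, LinearMap.pow_mulLeft,
      LinearMap.mulLeft_apply, Module.algebraMap_end_apply, ← Algebra.smul_def, smul_mul_assoc]

theorem dfina1_comm {C : Type*} [CommRing C] [Algebra T C] {a b : C} {P u : T[X]}
    (ha : aeval a P = 0) (hb : aeval b P = 0) (hu : aeval b (u * derivative P) = 1) :
    ∃ η : C, (a - b) * (a - b) * η = a - b := by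
  obtain ⟨κ, hκ⟩ := (P.map (algebraMap T C)).binomExpansion b (a - b)
  rw [add_sub_cancel, derivative_map, eval_map_algebraMap, eval_map_algebraMap,
    eval_map_algebraMap, ha, hb] at hκ
  rw [map_mul] at hu
  exact ⟨-(κ * aeval b u), by linear_combination (aeval b u) * hκ + (a - b) * hu⟩

/-- For a separable equation the image of the twisted commutator is a direct summand. -/
theorem fa_eta {c : B} {P u : T[X]} (hP : aeval c P = 0) (hu : aeval c (u * derivative P) = 1) :
    ∃ η : B →ₗ[T] B, (∀ z, tw c (tw c (η z)) = tw c z) ∧ ∀ z, η (tw c z) = tw c (η z) := by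
  let t1 : Module.End T B := LinearMap.mulLeft T c
  let t2 : Module.End T B := LinearMap.mulRight T (star c)
  have h12 : t1 * t2 = t2 * t1 := LinearMap.ext fun z => (mul_assoc c z (star c)).symm
  let C := Algebra.adjoin T ({t1, t2} : Set (Module.End T B))
  have hc : ∀ a ∈ ({t1, t2} : Set (Module.End T B)), ∀ b ∈ ({t1, t2} : Set (Module.End T B)),
      a * b = b * a := by
    rintro a (rfl | rfl) b (rfl | rfl)
    exacts [rfl, h12, h12.symm, rfl]
  have hcm := Algebra.isMulCommutative_adjoin T hc
  let _ : CommRing C := { (inferInstance : Ring C) with mul_comm := hcm.is_comm.comm }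
  let a : C := ⟨t1, Algebra.subset_adjoin (by simp)⟩
  let b : C := ⟨t2, Algebra.subset_adjoin (by simp)⟩
  have hv : ∀ (x : C) (p : T[X]), ((aeval x p : C) : Module.End T B) = aeval x.1 p :=
    fun x p => (aeval_algHom_apply C.val x p).symm
  obtain ⟨η, hη⟩ := dfina1_comm (a := a) (b := b) (P := P) (u := u)
    (Subtype.ext (by
      rw [hv]; ext z
      exact (dfina1_mulLeft c P z).trans (by rw [hP, zero_mul]; rfl)))
    (Subtype.ext (by
      rw [hv]; ext z
      exact (dfina1_mulRight (star c) P z).trans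
        (by rw [← dfina1_star_aeval, hP, star_zero, mul_zero]; rfl)))
    (Subtype.ext (by
      rw [hv]; ext z
      exact (dfina1_mulRight (star c) _ z).trans
        (by rw [← dfina1_star_aeval, hu, star_one, mul_one]; rfl)))
  have e2 : η * (a - b) = (a - b) * η := mul_comm _ _
  exact ⟨η.1, fun z => LinearMap.congr_fun (congrArg Subtype.val hη) z,
    fun z => LinearMap.congr_fun (congrArg Subtype.val e2) z⟩

/-- Nakayama. -/
theorem fa_surj [IsLocalRing T] [Module.Finite T B] {c y : B} (hc : c * y = y * c) {P u : T[X]}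
    (hP : aeval c P = 0) (hu : aeval c (u * derivative P) = 1) {B' : Type*} [Ring B'] [StarRing B']
    (π : B →+* B') (hπ : ∀ b, π (star b) = star (π b)) (hs : Function.Surjective π)
    (hk : ∀ b, π b = 0 → b ∈ extI B (maximalIdeal T)) [Finite B']
    (hi : ∀ z, tw (π y) (tw (π c) z) = 0 → tw (π c) z = 0) (z : B) :
    ∃ z1, tw c z = tw y (tw c z1) := by
  obtain ⟨η, h1, h2⟩ := fa_eta hP hu
  let L : B → B →ₗ[T] B := fun x => LinearMap.mulLeft T x - LinearMap.mulRight T (star x)
  have hL : ∀ x z, L x z = tw x z := fun _ _ => rfl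
  have hπt : ∀ x z, π (tw x z) = tw (π x) (π z) := fun x z => by
    simp only [tw, map_sub, map_mul, hπ]
  have hc' : π c * π y = π y * π c := by rw [← map_mul, hc, map_mul]
  have hsub : ∀ x z z' : B', tw x (z - z') = tw x z - tw x z' := fun x z z' => by
    simp only [tw]; noncomm_ring
  let f : Set.range (tw (π c)) → Set.range (tw (π c)) := fun v =>
    ⟨tw (π y) v.1, by
      obtain ⟨_, w, rfl⟩ := v
      exact ⟨tw (π y) w, dfina1_tw_comm hc' w⟩⟩
  have hf : Function.Surjective f := Finite.surjective_of_injective (by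
    rintro ⟨_, w, rfl⟩ ⟨_, w', rfl⟩ e
    have e1 : tw (π y) (tw (π c) w) = tw (π y) (tw (π c) w') := congrArg Subtype.val e
    refine Subtype.ext (sub_eq_zero.1 ?_)
    change tw (π c) w - tw (π c) w' = 0
    rw [← hsub]
    exact hi _ (by rw [hsub, hsub, e1, sub_self]))
  have key : LinearMap.range (L c) ≤ LinearMap.range (L y ∘ₗ L c) := by
    refine Submodule.le_of_le_smul_of_le_jacobson_bot (I := maximalIdeal T)
      (by rw [← Submodule.map_top]; exact Module.Finite.fg_top.map _)
      (IsLocalRing.maximalIdeal_le_jacobson ⊥) ?_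
    rintro _ ⟨w, rfl⟩
    obtain ⟨⟨_, w1, rfl⟩, e⟩ := hf ⟨tw (π c) (π w), _, rfl⟩
    obtain ⟨w2, rfl⟩ := hs w1
    have e1 : tw (π y) (tw (π c) (π w2)) = tw (π c) (π w) := congrArg Subtype.val e
    have e2 : L c w - L y (L c w2) ∈ maximalIdeal T • (⊤ : Submodule T B) :=
      mem_extI_iff.1 (hk _ (by rw [map_sub, hL, hL, hL, hπt, hπt, hπt, e1, sub_self]))
    have e3 : (L c ∘ₗ η) (L c w - L y (L c w2)) = L c w - L y (L c w2) := by
      simp only [map_sub, LinearMap.comp_apply, hL]
      rw [← dfina1_tw_comm hc, h2, h2, h1, h1]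
    have e4 : L c w - L y (L c w2) ∈ maximalIdeal T • LinearMap.range (L c) := by
      rw [← e3]
      have := Submodule.mem_map_of_mem (f := L c ∘ₗ η) e2
      rw [Submodule.map_smul''] at this
      refine Submodule.smul_mono le_rfl ?_ this
      rintro _ ⟨x, -, rfl⟩
      exact ⟨η x, rfl⟩
    rw [show L c w = L y (L c w2) + (L c w - L y (L c w2)) by abel]
    exact Submodule.add_mem_sup ⟨w2, rfl⟩ e4
  obtain ⟨z1, h⟩ := key ⟨z, rfl⟩
  exact ⟨z1, h.symm⟩

end Pool.Agent.GSD
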