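import Pool.Agent.P.MP_c1f06d_ag.d.DFinA0
import Pool.Agent.P.MP_c1f06d_ag.d.DFinA1

open Matrix Polynomial Pool.Agent.SU

universe u

namespace Pool.Agent.GSD

variable {k D : Type u} [Field k] [Ring D] [StarRing D] [Algebra k D] [StarFix k D]
  [FiniteDimensional k D] {n : Type} [Fintype n] [DecidableEq n]

/-- The residual witness: a point of the coset and a commuting alternating unit. -/
structure Wit (l yc w : D) (γ : k) : Prop where
  la : La l yc
  alt : Alt w
  unit : IsUnit w
  alt2 : ((2 : k) = 0 ∧ γ = 1 ∧ w = 1) ∨ ((2 : k) ≠ 0 ∧ γ = 0 ∧ yc = algebraMap k D 2⁻¹)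

/-- The matrix of the witness. -/
noncomputable def witM (yc w : D) (C : Matrix n n k) (c : k) : Matrix n n D :=
  (diagonal fun _ => yc) + (C + c • 1).map (algebraMap k D) * diagonal fun _ => w

variable {l yc w : D} {γ c : k} {P u : k[X]} {C : Matrix n n k}

theorem dfina2_ideal {A : Type u} [CommRing A] [Algebra k A] {N : ℕ} (hN : 1 ≤ N)
    (hc : Shift N P c) {a1 a2 g : A} (h1 : aeval a1 P = 0) (h2 : aeval a2 P = 0)
    (hu : aeval a1 (u * derivative P) = 1) {χ : k[X]} (hχ0 : χ ≠ 0) (hχ : χ.natDegree ≤ N)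
    (hg : aeval g χ = 0) (I : Ideal A) (hI : ∀ x, x * (a2 - a1) = 0 → x ∈ I)
    (hr : g - (a2 - a1) ∈ I ∨ (a1 + algebraMap k A c) * g + (a2 + algebraMap k A c) ∈ I) :
    I = ⊤ := by
  by_contra hne
  obtain ⟨m, hm, hle⟩ := Ideal.exists_le_maximal I hne
  let _ := Ideal.Quotient.field m
  have hev : ∀ (a : A) (q : k[X]), aeval (Ideal.Quotient.mkₐ k m a) q =
      Ideal.Quotient.mkₐ k m (aeval a q) := fun a q => aeval_algHom_apply _ a q
  have hz : ∀ x ∈ I, Ideal.Quotient.mkₐ k m x = 0 := fun x hx =>
    Ideal.Quotient.eq_zero_iff_mem.2 (hle hx)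
  have r1 : aeval (Ideal.Quotient.mkₐ k m a1) P = 0 := by rw [hev, h1, map_zero]
  have r2 : aeval (Ideal.Quotient.mkₐ k m a2) P = 0 := by rw [hev, h2, map_zero]
  have r3 : aeval (Ideal.Quotient.mkₐ k m g) χ = 0 := by rw [hev, hg, map_zero]
  have he : Ideal.Quotient.mkₐ k m a1 = Ideal.Quotient.mkₐ k m a2 := by
    rcases hr with hr | hr
    · have h3 := hz _ hr
      rw [map_sub, map_sub, sub_eq_zero] at h3
      exact hc.add _ _ _ χ r1 r2 hχ0 hχ (by rw [← h3, r3])
    · have h3 := hz _ hr
      rw [map_add, map_mul, map_add, map_add, AlgHom.commutes] at h3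
      have h4 := hc.one _ _ X r1 X_ne_zero (by rw [natDegree_X]; exact hN)
      rw [aeval_X, neg_ne_zero] at h4
      refine hc.mul _ _ _ χ r1 r2 hχ0 hχ ?_
      rw [← r3]
      congr 2
      rw [div_eq_iff h4]
      linear_combination -h3
  obtain ⟨κ, hκ⟩ := (P.map (algebraMap k A)).binomExpansion a1 (a2 - a1)
  rw [add_sub_cancel, derivative_map, eval_map_algebraMap, eval_map_algebraMap,
    eval_map_algebraMap, h1, h2] at hκ
  have h5 := hz _ (hI (aeval a1 (derivative P) + κ * (a2 - a1)) (by linear_combination -hκ))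
  rw [map_add, map_mul, map_sub, he, sub_self, mul_zero, add_zero] at h5
  have h6 := congrArg (Ideal.Quotient.mkₐ k m) hu
  rw [map_mul, map_mul, h5, mul_zero, map_one] at h6
  exact zero_ne_one h6

open scoped IsMulCommutative in
theorem dfina2_op {V : Type u} [AddCommGroup V] [Module k V] {N : ℕ} (hN : 1 ≤ N)
    (hc : Shift N P c) {t1 t2 G : Module.End k V} (c1 : t1 * t2 = t2 * t1) (c2 : t1 * G = G * t1)
    (c3 : t2 * G = G * t2) (h1 : aeval t1 P = 0) (h2 : aeval t2 P = 0)
    (hu : aeval t1 (u * derivative P) = 1) {χ : k[X]} (hχ0 : χ ≠ 0) (hχ : χ.natDegree ≤ N)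
    (hg : aeval G χ = 0) {z v : V} (hv : v = t1 z - t2 z)
    (hr : G v = t2 v - t1 v ∨ t1 (G v) + c • G v + (t2 v + c • v) = 0) : v = 0 := by
  have := Algebra.isMulCommutative_adjoin k (s := {t1, t2, G}) (by
    rintro x (rfl | rfl | rfl) y (rfl | rfl | rfl) <;> simp only [c1, c2, c3])
  let I : Ideal (Algebra.adjoin k ({t1, t2, G} : Set (Module.End k V))) :=
    { carrier := {a | a.1 v = 0}
      add_mem' := fun {a b} ha hb => by
        show a.1 v + b.1 v = 0
        rw [ha, hb, add_zero]
      zero_mem' := rfl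
      smul_mem' := fun a b hb => by
        show a.1 (b.1 v) = 0
        rw [hb, map_zero] }
  have hI := dfina2_ideal (u := u) hN hc
    (a1 := (⟨t1, Algebra.subset_adjoin (by simp)⟩ : Algebra.adjoin k ({t1, t2, G} : Set _)))
    (a2 := ⟨t2, Algebra.subset_adjoin (by simp)⟩) (g := ⟨G, Algebra.subset_adjoin (by simp)⟩)
    (Subtype.ext ((aeval_subalgebra_coe _ _ _).trans h1))
    (Subtype.ext ((aeval_subalgebra_coe _ _ _).trans h2))
    (Subtype.ext ((aeval_subalgebra_coe _ _ _).trans hu)) hχ0 hχ
    (Subtype.ext ((aeval_subalgebra_coe _ _ _).trans hg)) I (fun x hx => by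
      have h3 : x.1 (t2 z - t1 z) = 0 := LinearMap.congr_fun (congrArg Subtype.val hx) z
      show x.1 v = 0
      rw [hv, ← neg_sub, map_neg, h3, neg_zero]) (hr.imp (fun h => by
      show G v - (t2 v - t1 v) = 0
      rw [h, sub_self]) fun h => h)
  have h4 : (1 : Algebra.adjoin k ({t1, t2, G} : Set (Module.End k V))) ∈ I := by
    rw [hI]; trivial
  exact h4

omit [StarRing D] [StarFix k D] [FiniteDimensional k D] [DecidableEq n] in
theorem dfina2_psi : ∃ ψ : Module.End k D →ₐ[k] Module.End k (Matrix n n D),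
    (∀ g v i j, ψ g v i j = g (v i j)) ∧
    (∀ g v (X : Matrix n n k), ψ g (X.map (algebraMap k D) * v) = X.map (algebraMap k D) * ψ g v) ∧
    ∀ g v (X : Matrix n n k), ψ g (v * X.map (algebraMap k D)) = ψ g v * X.map (algebraMap k D) := by
  refine ⟨{ toFun := fun g => g.mapMatrix, map_one' := rfl, map_mul' := fun _ _ => rfl
            map_zero' := rfl, map_add' := fun _ _ => rfl, commutes' := fun _ => rfl },
    fun _ _ _ _ => rfl, fun g v X => ?_, fun g v X => ?_⟩
  · ext i j
    show g ((X.map (algebraMap k D) * v) i j) = ∑ l, algebraMap k D (X i l) * g (v l j)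
    simp only [Matrix.mul_apply, Matrix.map_apply, map_sum, ← Algebra.smul_def, map_smul]
  · ext i j
    show g ((v * X.map (algebraMap k D)) i j) = ∑ l, g (v i l) * algebraMap k D (X l j)
    simp only [Matrix.mul_apply, Matrix.map_apply, map_sum, ← Algebra.commutes, ← Algebra.smul_def,
      map_smul]

omit [FiniteDimensional k D] [Fintype n] [DecidableEq n] in
theorem dfina2_star (X : Matrix n n k) :
    star (X.map (algebraMap k D)) = Xᵀ.map (algebraMap k D) := by
  ext i j
  exact StarFix.fix _

omit [StarRing D] [StarFix k D] [FiniteDimensional k D] in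
theorem dfina2_aeval (X : Matrix n n k) (q : k[X]) (v : Matrix n n D) :
    aeval (LinearMap.mulLeft k (X.map (algebraMap k D))) q v =
      (aeval X q).map (algebraMap k D) * v ∧
    aeval (LinearMap.mulRight k (Xᵀ.map (algebraMap k D))) q v =
      v * (aeval X q)ᵀ.map (algebraMap k D) := by
  have hp : ∀ (Y : Matrix n n k) (a : k) (i : ℕ), (a • Y ^ i).map (algebraMap k D) =
      a • Y.map (algebraMap k D) ^ i := fun Y a i => by
    have := map_pow (Algebra.ofId k D).mapMatrix Y i
    have h2 := map_smul (Algebra.ofId k D).mapMatrix a (Y ^ i)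
    rw [this] at h2
    exact h2
  induction q using Polynomial.induction_on' with
  | add p q hp hq =>
    simp only [map_add, LinearMap.add_apply, hp.1, hp.2, hq.1, hq.2, transpose_add,
      Matrix.map_add _ (map_add (algebraMap k D)), add_mul, mul_add, and_self]
  | monomial i a =>
    simp only [aeval_monomial, ← Algebra.smul_def, LinearMap.pow_mulLeft, LinearMap.pow_mulRight,
      LinearMap.smul_apply, LinearMap.mulLeft_apply, LinearMap.mulRight_apply, transpose_smul,
      transpose_pow, hp, smul_mul_assoc, mul_smul_comm, and_self]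

omit [StarRing D] [StarFix k D] [FiniteDimensional k D] in
theorem dfina2_comm (X : Matrix n n k) (a : D) :
    X.map (algebraMap k D) * (diagonal fun _ => a) = (diagonal fun _ => a) * X.map (algebraMap k D) := by
  ext i j
  rw [mul_diagonal, diagonal_mul, Matrix.map_apply, Algebra.commutes]

omit [StarRing D] [StarFix k D] [FiniteDimensional k D] in
theorem dfina2_shift (X : Matrix n n k) (c : k) :
    (X + c • 1).map (algebraMap k D) = X.map (algebraMap k D) + c • 1 := by
  have h := map_add (Algebra.ofId k D).mapMatrix X (c • 1)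
  rw [map_smul, map_one] at h
  exact h

omit [FiniteDimensional k D] in
theorem dfina2_tw (hw : Alt w) (v : Matrix n n D) :
    tw (witM yc w C c) v = ((diagonal fun _ => yc) * v - v * diagonal fun _ => star yc) +
      ((C.map (algebraMap k D) + c • 1) * ((diagonal fun _ => w) * v) +
        v * (diagonal fun _ => w) * (Cᵀ.map (algebraMap k D) + c • 1)) := by
  have h1 : ∀ a : D, star (diagonal fun _ : n => a) = diagonal fun _ => star a := fun a =>
    diagonal_conjTranspose _
  have h2 : (diagonal fun _ : n => -w) = -diagonal fun _ => w := (diagonal_neg _).symm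
  rw [tw, witM, star_add, star_mul, h1, h1, hw.star_eq, h2, dfina2_star, transpose_add,
    transpose_smul, transpose_one, dfina2_shift, dfina2_shift]
  generalize C.map (algebraMap k D) + c • (1 : Matrix n n D) = X
  generalize Cᵀ.map (algebraMap k D) + c • (1 : Matrix n n D) = Y
  noncomm_ring

/-- The twisted commutator with the witness is injective off the diagonal. -/
theorem fa_inj (hw : Wit l yc w γ) (hc : Shift (Module.finrank k D) P c) (hC : aeval C P = 0)
    (hu : aeval C (u * derivative P) = 1) (z : Matrix n n D)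
    (hz : tw (witM yc w C c) (tw (C.map (algebraMap k D)) z) = 0) :
    tw (C.map (algebraMap k D)) z = 0 := by
  rcases subsingleton_or_nontrivial D with hD | hD
  · exact Subsingleton.elim _ _
  obtain ⟨ψ, s1, s2, s3⟩ := dfina2_psi (k := k) (D := D) (n := n)
  have key : ∀ g : Module.End k D,
      (ψ g (tw (C.map (algebraMap k D)) z) = tw (C.map (algebraMap k D)) z *
          Cᵀ.map (algebraMap k D) - C.map (algebraMap k D) * tw (C.map (algebraMap k D)) z ∨
        C.map (algebraMap k D) * ψ g (tw (C.map (algebraMap k D)) z) +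
          c • ψ g (tw (C.map (algebraMap k D)) z) + (tw (C.map (algebraMap k D)) z *
            Cᵀ.map (algebraMap k D) + c • tw (C.map (algebraMap k D)) z) = 0) →
      tw (C.map (algebraMap k D)) z = 0 := fun g hg =>
    dfina2_op (u := u) (z := z) Module.finrank_pos hc
      (t1 := LinearMap.mulLeft k (C.map (algebraMap k D)))
      (t2 := LinearMap.mulRight k (Cᵀ.map (algebraMap k D))) (G := ψ g)
      (LinearMap.commute_mulLeft_right _ _) (LinearMap.ext fun v => (s2 g v C).symm)
      (LinearMap.ext fun v => (s3 g v Cᵀ).symm)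
      (LinearMap.ext fun v => by simp [(dfina2_aeval C P v).1, hC])
      (LinearMap.ext fun v => by simp [(dfina2_aeval C P v).2, hC])
      (LinearMap.ext fun v => by rw [(dfina2_aeval C _ v).1, hu]; simp)
      (g.charpoly_monic.ne_zero) g.charpoly_natDegree.le
      (by rw [aeval_algHom_apply, g.aeval_self_charpoly, map_zero])
      (by rw [tw, dfina2_star]; rfl) hg
  rw [dfina2_tw hw.alt] at hz
  generalize tw (C.map (algebraMap k D)) z = v at hz key ⊢
  rcases hw.alt2 with ⟨h2, -, rfl⟩ | ⟨-, -, rfl⟩
  · refine key (LinearMap.mulLeft k yc - LinearMap.mulRight k (star yc)) (Or.inl ?_)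
    have e1 : ψ (LinearMap.mulLeft k yc - LinearMap.mulRight k (star yc)) v =
        (diagonal fun _ => yc) * v - v * diagonal fun _ => star yc := by
      ext i j
      rw [s1, Matrix.sub_apply, diagonal_mul, mul_diagonal]
      rfl
    have e2 : ∀ x : Matrix n n D, x + x = 0 := fun x => by rw [← two_smul k, h2, zero_smul]
    rw [diagonal_one, one_mul, mul_one, add_mul, mul_add, smul_mul_assoc, mul_smul_comm, one_mul,
      mul_one] at hz
    rw [e1, eq_neg_of_add_eq_zero_left hz, ← sub_eq_zero]
    calc _ = -(v * Cᵀ.map (algebraMap k D) + v * Cᵀ.map (algebraMap k D)) - (c • v + c • v) := by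
          abel
      _ = 0 := by rw [e2, e2, neg_zero, sub_zero]
  · obtain ⟨w, rfl⟩ := hw.unit
    refine key (LinearMap.mulLeft k (w : D) * LinearMap.mulRight k (↑w⁻¹ : D)) (Or.inr ?_)
    have e1 : ψ (LinearMap.mulLeft k (w : D) * LinearMap.mulRight k (↑w⁻¹ : D)) v =
        (diagonal fun _ => (w : D)) * v * diagonal fun _ => (↑w⁻¹ : D) := by
      ext i j
      rw [s1, mul_diagonal, diagonal_mul, mul_assoc]
      rfl
    have e2 : (diagonal fun _ => algebraMap k D 2⁻¹) * v -
        v * (diagonal fun _ => star (algebraMap k D 2⁻¹)) = 0 := by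
      ext i j
      rw [Matrix.sub_apply, diagonal_mul, mul_diagonal, StarFix.fix, Algebra.commutes, sub_self,
        Matrix.zero_apply]
    have e3 : (diagonal fun _ : n => (w : D)) * (diagonal fun _ => (↑w⁻¹ : D)) = 1 := by
      rw [diagonal_mul_diagonal]; simp
    have e4 := congrArg (· * diagonal fun _ : n => (↑w⁻¹ : D)) hz
    simp only [e2, zero_add, zero_mul, add_mul, mul_add, smul_mul_assoc, mul_smul_comm, one_mul,
      mul_one, mul_assoc, dfina2_comm Cᵀ] at e4
    simp only [← mul_assoc (diagonal fun _ : n => (w : D)) (diagonal fun _ => (↑w⁻¹ : D)), e3,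
      one_mul, mul_one] at e4
    rw [e1, mul_assoc]
    exact e4

/-- Every solution with the prescribed diagonal part is a unit. -/
theorem fa_unit [Nontrivial D] (hl : l + star l = 1) (hw : Wit l yc w γ)
    (hc : Shift (Module.finrank k D) P c) (hC : aeval C P = 0)
    (hu : aeval C (u * derivative P) = 1) {e : n → k}
    (he : ∀ v : n → k, (∀ i : ℕ, (C ^ i *ᵥ e) ⬝ᵥ v = 0) → v = 0) {W a z : Matrix n n D}
    (hW : tw (witM yc w C c) W = (vecMulVec e e).map (algebraMap k D))
    (ha : a * (((2 : k) • (C + c • 1) + γ • 1).map (algebraMap k D) * diagonal fun _ => w) = 1)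
    (hz : W - a * (vecMulVec e e).map (algebraMap k D) = tw (C.map (algebraMap k D)) z) :
    IsUnit W := by
  obtain ⟨X0, hX, hL⟩ := exists_lyapunov Module.finrank_pos hc
    (hw.alt2.imp (fun h => ⟨h.1, h.2.1⟩) fun h => ⟨h.1, h.2.1⟩) hC he
  obtain ⟨wi, w1, w2⟩ : ∃ wi : Matrix n n D, (diagonal fun _ => w) * wi = 1 ∧
      ∀ X : Matrix n n k, wi * X.map (algebraMap k D) * (diagonal fun _ => w) =
        X.map (algebraMap k D) := by
    obtain ⟨w, rfl⟩ := hw.unit
    refine ⟨diagonal fun _ => (↑w⁻¹ : D), by rw [diagonal_mul_diagonal]; simp, fun X => ?_⟩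
    rw [mul_assoc, dfina2_comm, ← mul_assoc, diagonal_mul_diagonal]
    simp
  have hfin : ∀ x y : Matrix n n D, x * y = 1 → y * x = 1 := fun x y h => by
    have h1 : LinearMap.mulLeft k y * LinearMap.mulLeft k x = 1 :=
      mul_eq_one_comm.1 (LinearMap.ext fun v => by
        show x * (y * v) = v
        rw [← mul_assoc, h, one_mul])
    simpa using LinearMap.congr_fun h1 1
  have hE := congrArg (Algebra.ofId k D).mapMatrix hL
  rw [map_add, map_add, map_mul, map_mul, map_smul, transpose_add, transpose_smul,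
    transpose_one] at hE
  change (C + c • 1).map (algebraMap k D) * X0.map (algebraMap k D) + X0.map (algebraMap k D) *
    (Cᵀ + c • 1).map (algebraMap k D) + γ • X0.map (algebraMap k D) =
      (vecMulVec e e).map (algebraMap k D) at hE
  have hB := map_add (Algebra.ofId k D).mapMatrix ((2 : k) • (C + c • 1)) (γ • 1)
  rw [map_smul, map_smul, map_one] at hB
  change ((2 : k) • (C + c • 1) + γ • 1).map (algebraMap k D) =
    (2 : k) • (C + c • 1).map (algebraMap k D) + γ • 1 at hB
  rw [dfina2_shift C c] at hB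
  rw [dfina2_shift, dfina2_shift] at hE
  rw [hB] at ha
  have hXu : IsUnit (X0.map (algebraMap k D)) := hX.map (Algebra.ofId k D).mapMatrix
  have h0 : (diagonal fun _ => yc) * (wi * X0.map (algebraMap k D)) -
      wi * X0.map (algebraMap k D) * (diagonal fun _ => star yc) = γ • X0.map (algebraMap k D) := by
    rcases hw.alt2 with ⟨h2, rfl, rfl⟩ | ⟨-, rfl, rfl⟩
    · rw [diagonal_one, one_mul] at w1
      have e2 : star yc + star yc = 0 := by rw [← two_smul k, h2, zero_smul]
      have e3 : yc - star yc = 1 := by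
        rw [← hw.la.add_star hl, ← add_zero (yc - star yc), ← e2]; abel
      rw [w1, one_mul, dfina2_comm, ← sub_mul, diagonal_sub]
      simp [e3]
    · ext i j
      rw [Matrix.sub_apply, diagonal_mul, mul_diagonal, StarFix.fix, Algebra.commutes, sub_self,
        zero_smul, Matrix.zero_apply]
  have h1 : tw (witM yc w C c) (wi * X0.map (algebraMap k D)) =
      (vecMulVec e e).map (algebraMap k D) := by
    rw [dfina2_tw hw.alt, h0, w2, ← mul_assoc (diagonal fun _ => w), w1, one_mul, ← hE, add_comm]
  have hca : C.map (algebraMap k D) * a = a * C.map (algebraMap k D) := by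
    have hb : C.map (algebraMap k D) * (((2 : k) • (C.map (algebraMap k D) + c • 1) + γ • 1) *
        diagonal fun _ => w) = (((2 : k) • (C.map (algebraMap k D) + c • 1) + γ • 1) *
          diagonal fun _ => w) * C.map (algebraMap k D) := by
      rw [mul_assoc, ← dfina2_comm, ← mul_assoc, ← mul_assoc]
      simp only [mul_add, add_mul, smul_mul_assoc, mul_smul_comm, one_mul, mul_one]
    generalize ((2 : k) • (C.map (algebraMap k D) + c • 1) + γ • 1) *
      (diagonal fun _ : n => w) = B at ha hb
    calc _ = (a * B) * (C.map (algebraMap k D) * a) := by rw [ha, one_mul]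
      _ = a * C.map (algebraMap k D) * (B * a) := by
          rw [mul_assoc a, ← mul_assoc B, ← hb]; simp only [mul_assoc]
      _ = _ := by rw [hfin _ _ ha, mul_one]
  have h2 : wi * X0.map (algebraMap k D) - a * (vecMulVec e e).map (algebraMap k D) =
      tw (C.map (algebraMap k D)) (a * X0.map (algebraMap k D)) := by
    have e1 : wi = a * ((2 : k) • (C.map (algebraMap k D) + c • 1) + γ • 1) := by
      have e0 := congrArg (· * wi) ha
      simp only [one_mul] at e0
      rw [← e0, mul_assoc, mul_assoc, w1, mul_one]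
    rw [tw, dfina2_star, ← mul_assoc, hca, e1, ← hE, two_smul]
    simp only [mul_add, add_mul, smul_mul_assoc, mul_smul_comm, one_mul, mul_one, mul_assoc]
    abel
  have h3 : W - wi * X0.map (algebraMap k D) =
      tw (C.map (algebraMap k D)) (z - a * X0.map (algebraMap k D)) := by
    have e1 : ∀ x y y' : Matrix n n D, tw x (y - y') = tw x y - tw x y' := fun x y y' => by
      simp only [tw]; noncomm_ring
    rw [e1, ← hz, ← h2]
    abel
  have h4 := fa_inj hw hc hC hu (z - a * X0.map (algebraMap k D)) (by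
    have e1 : ∀ x y y' : Matrix n n D, tw x (y - y') = tw x y - tw x y' := fun x y y' => by
      simp only [tw]; noncomm_ring
    rw [← h3, e1, hW, h1, sub_self])
  rw [← h3, sub_eq_zero] at h4
  rw [h4]
  exact IsUnit.mul ⟨⟨wi, _, hfin _ _ w1, w1⟩, rfl⟩ hXu

end Pool.Agent.GSD
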