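import Pool.Agent.P.MP_c1f06d_ag.d.DWall

open Matrix Module Polynomial Pool.Agent.SU IsLocalRing

universe u

namespace Pool.Agent.GSD

/-- An ideal that comes from the maximal ideal lies in the radical. -/
theorem dfink_isUnit {R S A1 : Type u} [CommRing R] [IsLocalRing R] [CommRing S] [Algebra R S]
    [Module.Finite R S] [Ring A1] [Algebra S A1] [Module.Finite S A1] {a : A1}
    (ha : a ∈ extI A1 ((maximalIdeal R).map (algebraMap R S))) : IsUnit (1 - a) := by
  let _ : Algebra R A1 := ((algebraMap S A1).comp (algebraMap R S)).toAlgebra'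
    fun c x => Algebra.commutes _ x
  have : IsScalarTower R S A1 := IsScalarTower.of_algebraMap_eq fun _ => rfl
  have : Module.Finite R A1 := Module.Finite.trans S A1
  have h1 : a ∈ extI A1 (maximalIdeal R) := by
    rw [extI, Ideal.map_map] at ha
    exact ha
  refine isUnit_of_qm (T := R) ?_
  rw [map_sub, map_one, Ideal.Quotient.eq_zero_iff_mem.2 h1, sub_zero]
  exact isUnit_one

/-- The norm principle on the kernel of the reduction, from one good residue class. -/
theorem fin_kernel_of_good {R A A1 : Type u} [CommRing R] [IsLocalRing R] [Ring A] [StarRing A]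
    [Algebra R A] {m : ℕ} {l : A} {P : R[X]} [Ring A1] [StarRing A1] [Algebra (AdjoinRoot P) A1]
    [StarFix (AdjoinRoot P) A1] {j : A →+* A1} (h : QAz R m l) (hP : P.Monic)
    (hj : SBC (AdjoinRoot.of P) j)
    (good : ∃ y0 : A1ˣ, La (j l) y0 ∧ ∀ y y' : A1ˣ, La (j l) y → La (j l) y' →
      (y : A1) - y0 ∈ extI A1 ((maximalIdeal R).map (AdjoinRoot.of P)) →
      (y' : A1) - y0 ∈ extI A1 ((maximalIdeal R).map (AdjoinRoot.of P)) →
      WN R l (Algebra.norm R (nrd (AdjoinRoot P) (y : A1) * nrd (AdjoinRoot P) (y' : A1))))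
    {g : A1} {c : AdjoinRoot P} (hs : SN (AdjoinRoot P) (j l) g c)
    (hg : g - 1 ∈ extI A1 ((maximalIdeal R).map (AdjoinRoot.of P))) :
    WN R l (Algebra.norm R c) := by
  obtain ⟨y0, h0, good⟩ := good
  have h1 := h.map hj
  have hl := h1.add_star
  have := hj.toBC.finite'
  have := hP.finite_adjoinRoot
  have e0 : 1 - g * gl y0 = (1 - (g - 1) * (gl y0 * y0)) * ((y0⁻¹ : A1ˣ) : A1) := by
    rw [sub_mul, one_mul, mul_assoc, mul_assoc, Units.mul_inv, mul_one, gl]
    noncomm_ring
  have hm : (g - 1) * (gl y0 * y0) ∈ extI A1 ((maximalIdeal R).map (AdjoinRoot.of P)) :=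
    Ideal.mul_mem_right _ _ hg
  have hu : IsUnit (1 - g * gl y0) := e0 ▸ (dfink_isUnit (R := R) hm).mul (Units.isUnit _)
  obtain ⟨y, hy, -, e1, e2⟩ := (hs.iso h1).1.exists_gl_mul_gl hl h0 hu
  have e3 : (y : A1) - y0 = y * ((g - 1) * (gl y0 * y0)) := by
    have e4 : ((y⁻¹ : A1ˣ) : A1) * y0 = 1 - (g - 1) * (gl y0 * y0) := by
      rw [e2, e0, mul_assoc, Units.inv_mul, mul_one]
    calc (y : A1) - y0 = y - y * (((y⁻¹ : A1ˣ) : A1) * y0) := by
          rw [Units.mul_inv_cancel_left]
      _ = _ := by rw [e4]; noncomm_ring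
  have w := good y y0 hy h0 (e3 ▸ Ideal.mul_mem_left _ _ hm) (by rw [sub_self]; exact zero_mem _)
  have s1 := sn_gl h1 hy (y2 := star y0) h0.star
  rw [← e1, Units.coe_star, h1.nrd_star] at s1
  refine w.of_isSquare h ((hs.isUnit h1).map _) ?_
  rw [← map_mul]
  exact (s1.ratio h1 hs).map _

end Pool.Agent.GSD
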