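import Pool.Agent.P.MP_c1f06d_ag.d.DWall
import Pool.Agent.P.MP_c1f06d_ag.d.DSplit
import Pool.Agent.P.MP_c1f06d_ag.d.DFinA2
import Pool.Agent.P.MP_c1f06d_ag.d.DFinK

open Matrix Module Polynomial Pool.Agent.SU IsLocalRing

universe u

namespace Pool.Agent.GSD

section aux

theorem dfina_coprime {k M : Type*} [Field k] [Ring M] [Algebra k M] {P q : k[X]}
    (hi : Irreducible P) (hq : q ≠ 0) (hd : q.natDegree < P.natDegree) {C : M}
    (hC : aeval C P = 0) : IsUnit (aeval C q) := by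
  obtain ⟨a, b, h⟩ := (hi.isCoprime_or_dvd q).resolve_right fun h =>
    absurd (natDegree_le_of_dvd h hq) (not_le.2 hd)
  refine ⟨⟨_, aeval C b, ?_, ?_⟩, rfl⟩
  · have := congrArg (aeval C) h
    rwa [map_add, map_mul, hC, mul_zero, zero_add, mul_comm, map_mul, map_one] at this
  · have := congrArg (aeval C) h
    rwa [map_add, map_mul, hC, mul_zero, zero_add, map_mul, map_one] at this

theorem dfina_dvd {k M : Type*} [CommRing k] [Ring M] [Algebra k M] {x y : M} (h : Commute x y)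
    (χ : k[X]) : x - y ∣ aeval x χ - aeval y χ := by
  induction χ using Polynomial.induction_on' with
  | add p q hp hq =>
    rw [map_add, map_add, add_sub_add_comm]
    exact dvd_add hp hq
  | monomial i r =>
    rw [aeval_monomial, aeval_monomial, ← mul_sub, Algebra.commutes]
    exact (h.sub_dvd_pow_sub_pow i).mul_right _

theorem dfina_altU (k : Type*) [CommRing k] {m : ℕ} (hm : Even m) :
    ∃ U : Matrix (Fin m) (Fin m) k, IsUnit (U - Uᵀ) := by
  obtain ⟨a, rfl⟩ := hm
  refine ⟨(fromBlocks 0 1 0 0 : Matrix (Fin a ⊕ Fin a) (Fin a ⊕ Fin a) k).submatrix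
    finSumFinEquiv.symm finSumFinEquiv.symm, IsUnit.of_mul_eq_one
      ((fromBlocks 0 (-1) 1 0 : Matrix (Fin a ⊕ Fin a) (Fin a ⊕ Fin a) k).submatrix
        finSumFinEquiv.symm finSumFinEquiv.symm) ?_⟩
  have e : (fromBlocks 0 1 0 0 : Matrix (Fin a ⊕ Fin a) (Fin a ⊕ Fin a) k) -
      (fromBlocks 0 1 0 0)ᵀ = fromBlocks 0 1 (-1) 0 := by
    rw [fromBlocks_transpose]
    ext (i | i) (j | j) <;> simp
  change ((fromBlocks 0 1 0 0 : Matrix (Fin a ⊕ Fin a) (Fin a ⊕ Fin a) k) -
    (fromBlocks 0 1 0 0)ᵀ).submatrix finSumFinEquiv.symm finSumFinEquiv.symm * _ = _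
  rw [e, submatrix_mul_equiv, fromBlocks_multiply]
  simp

variable {k D : Type u} [Field k] [Ring D] [StarRing D] [Algebra k D] [StarFix k D]

theorem dfina_wit [Finite k] {m : ℕ} {l : D} (h : QAz k m l) (hm : Even m) :
    ∃ (yc w : D) (γ : k), Wit l yc w γ := by
  have hl := h.add_star
  by_cases h2 : (2 : k) = 0
  · have h3 : (2 : D) = 0 := by rw [← map_ofNat (algebraMap k D) 2, h2, map_zero]
    refine ⟨l, 1, 1, La.refl l, ⟨l, ?_⟩, isUnit_one, Or.inl ⟨h2, rfl, rfl⟩⟩
    rw [← hl, sub_eq_add_neg, add_right_inj, eq_neg_iff_add_eq_zero, ← two_mul, h3, zero_mul]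
  · obtain ⟨φ, Q, hs⟩ := isSplit_of_finite h
    obtain ⟨U, hU⟩ := dfina_altU k hm
    obtain ⟨c, hc⟩ := hs.toBC.surjective Function.surjective_id ((Q + Qᵀ)⁻¹ * U)
    have e1 : (Q + Qᵀ) * φ c = U := by rw [hc, mul_nonsing_inv_cancel_left _ _ hs.unit]
    have e2 : (Q + Qᵀ) * φ (star c) = Uᵀ := by
      rw [hs.adj, ← e1, transpose_mul, transpose_add, transpose_transpose, add_comm Qᵀ]
    have e3 : IsUnit (φ (c - star c)) := by
      rw [← e2, ← e1, ← mul_sub, ← map_sub] at hU
      exact isUnit_of_mul_isUnit_right hU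
    refine ⟨algebraMap k D 2⁻¹, c - star c, 0, ⟨-((2⁻¹ : k) • l), ?_⟩, alt_sub_star c,
      hs.toBC.isUnit_of_map e3, Or.inr ⟨h2, rfl, rfl⟩⟩
    have e4 : (2⁻¹ : k) + 2⁻¹ = 1 := by rw [← two_mul, mul_inv_cancel₀ h2]
    rw [star_neg, star_smul_fix, eq_sub_of_add_eq' hl, smul_sub, Algebra.algebraMap_eq_smul_one]
    conv_lhs => rw [← one_smul k l, ← e4, add_smul]
    abel

variable {n : Type} [Fintype n] [DecidableEq n] {l yc w : D} {γ c : k} {P : k[X]}
  {C : Matrix n n k}

omit [StarFix k D] in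
theorem dfina_two (hw : Wit l yc w γ) :
    witM yc w C c + witM yc w C c - 1 =
      ((2 : k) • (C + c • 1) + γ • 1).map (algebraMap k D) * diagonal fun _ => w := by
  have e : (diagonal fun _ : n => yc) + (diagonal fun _ => yc) - 1 =
      (γ • (1 : Matrix n n k)).map (algebraMap k D) * diagonal fun _ => w := by
    rcases hw.alt2 with ⟨h2, rfl, rfl⟩ | ⟨h2, rfl, rfl⟩
    · have h3 : (2 : Matrix n n D) = 0 := by
        rw [← map_ofNat (algebraMap k (Matrix n n D)) 2, h2, map_zero]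
      rw [one_smul, Matrix.map_one _ (map_zero _) (map_one _), diagonal_one, mul_one, ← two_mul, h3,
        zero_mul, zero_sub, neg_eq_iff_add_eq_zero, one_add_one_eq_two, h3]
    · rw [zero_smul, Matrix.map_zero _ (map_zero _), zero_mul, diagonal_add, ← map_add, ← two_mul,
        mul_inv_cancel₀ h2, map_one, diagonal_one, sub_self]
  rw [Matrix.map_add _ (map_add _), add_mul, ← e, two_smul, Matrix.map_add _ (map_add _), add_mul,
    witM]
  abel

theorem dfina_shift (hi : Irreducible P) (hC : aeval C P = 0) {χ : k[X]} (hχ : χ ≠ 0)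
    (hd : χ.natDegree < P.natDegree) : IsUnit (aeval (-(C + c • 1)) χ) := by
  have e : aeval C (-(X + Polynomial.C c)) = -(C + c • 1) := by
    rw [map_neg, map_add, aeval_X, aeval_C, Algebra.algebraMap_eq_smul_one]
  have e1 : (-(X + Polynomial.C c) : k[X]).natDegree = 1 := by
    rw [natDegree_neg, natDegree_X_add_C]
  rw [← e, ← aeval_comp]
  refine dfina_coprime hi (fun h0 => hχ ?_) (by rw [natDegree_comp, e1, mul_one]; exact hd) hC
  rcases comp_eq_zero_iff.1 h0 with h | ⟨-, h⟩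
  · exact h
  · rw [h, natDegree_C] at e1
    exact absurd e1 zero_ne_one

omit [StarFix k D] in
theorem dfina_unit2 (hw : Wit l yc w γ) (hi : Irreducible P) (hC : aeval C P = 0)
    (hd : 1 < P.natDegree) :
    IsUnit (((2 : k) • (C + c • 1) + γ • 1).map (algebraMap k D) * diagonal fun _ => w) := by
  refine IsUnit.mul (IsUnit.map (algebraMap k D).mapMatrix ?_) (hw.unit.map (scalar n))
  rcases hw.alt2 with ⟨h2, rfl, -⟩ | ⟨h2, rfl, -⟩
  · rw [h2, zero_smul, zero_add, one_smul]
    exact isUnit_one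
  · have := dfina_shift (c := c) hi hC X_ne_zero (by rwa [natDegree_X])
    rw [aeval_X, IsUnit.neg_iff] at this
    rw [zero_smul, add_zero, Algebra.smul_def]
    exact ((IsUnit.mk0 _ h2).map _).mul this

omit [StarFix k D] in
theorem dfina_unit1 [Finite D] [FiniteDimensional k D] (hw : Wit l yc w γ) (hi : Irreducible P)
    (hC : aeval C P = 0) (hd : finrank k D < P.natDegree) : IsUnit (witM yc w C c) := by
  obtain ⟨v, rfl⟩ := hw.unit
  obtain ⟨g, hg⟩ : ∃ g, g = yc * ((v⁻¹ : Dˣ) : D) := ⟨_, rfl⟩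
  have hint : IsIntegral k g := Algebra.IsIntegral.isIntegral g
  have e1 : aeval (scalar n g) (minpoly k g) = 0 := by
    have := aeval_algHom_apply (scalarAlgHom n k) g (minpoly k g)
    rwa [minpoly.aeval, map_zero] at this
  have e2 : IsUnit (aeval ((Algebra.ofId k D).mapMatrix (-(C + c • 1))) (minpoly k g)) := by
    rw [aeval_algHom_apply]
    exact (dfina_shift hi hC (minpoly.ne_zero hint) ((minpoly.natDegree_le g).trans_lt hd)).map _
  have e3 : Commute (scalar n g) ((Algebra.ofId k D).mapMatrix (-(C + c • 1))) := by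
    ext i j
    rw [scalar_apply, diagonal_mul, mul_diagonal]
    exact (Algebra.commutes _ _).symm
  obtain ⟨z, hz⟩ := dfina_dvd e3 (minpoly k g)
  rw [e1, zero_sub] at hz
  have e4 := e2.neg
  rw [hz] at e4
  have e5 : witM yc (v : D) C c =
      (scalar n g - (Algebra.ofId k D).mapMatrix (-(C + c • 1))) * scalar n (v : D) := by
    rw [map_neg, sub_neg_eq_add, add_mul, ← map_mul, hg, Units.inv_mul_cancel_right]
    rfl
  rw [e5]
  exact (isUnit_of_mul_isUnit_left e4).mul ((Units.isUnit v).map _)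

theorem dfina_tw {B B' : Type*} [Ring B] [StarRing B] [Ring B'] [StarRing B'] (π : B →+* B')
    (hπ : ∀ b, π (star b) = star (π b)) (c z : B) : π (tw c z) = tw (π c) (π z) := by
  rw [tw, tw, map_sub, map_mul, map_mul, hπ]

theorem dfina_norm {R S : Type*} [CommRing R] [CommRing S] [Algebra R S] [Module.Free R S]
    [Module.Finite R S] {x : S} (h : IsUnit (Algebra.norm R x)) : IsUnit x := by
  rw [Algebra.norm_apply, ← LinearMap.isUnit_iff_isUnit_det] at h
  exact Algebra.lmul_isUnit_iff.1 h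

end aux

variable {R A A1 : Type u} [CommRing R] [IsLocalRing R] [Finite (ResidueField R)] [Ring A]
  [StarRing A] [Algebra R A] {m : ℕ} {l : A} {P : R[X]} [Ring A1] [StarRing A1]
  [Algebra (AdjoinRoot P) A1] [StarFix (AdjoinRoot P) A1] {j : A →+* A1}

omit [IsLocalRing R] [Finite (ResidueField R)] [StarRing A] [StarRing A1]
  [StarFix (AdjoinRoot P) A1] in
theorem dfina_gen (hj : BC (AdjoinRoot.of P) j) (b : A1) :
    b ∈ AddSubgroup.closure {x | ∃ a ∈ Set.range j, ∃ i : ℕ,
      x = a * algebraMap (AdjoinRoot P) A1 (AdjoinRoot.root P) ^ i} := by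
  refine hj.induction (p := fun b => b ∈ _) (zero_mem _) (fun t a => ?_) (fun _ _ => add_mem) b
  obtain ⟨q, rfl⟩ := AdjoinRoot.mk_surjective t
  induction q using Polynomial.induction_on' with
  | add p q hp hq =>
    rw [map_add, add_smul]
    exact add_mem hp hq
  | monomial i r =>
    refine AddSubgroup.subset_closure ⟨j (r • a), ⟨_, rfl⟩, i, ?_⟩
    rw [← C_mul_X_pow_eq_monomial, map_mul, map_pow, AdjoinRoot.mk_C, AdjoinRoot.mk_X, hj.smul,
      ← map_pow, ← Algebra.commutes, ← Algebra.smul_def, smul_smul, mul_comm]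

/-- One residue class of Cayley parameters for which the norm principle holds. -/
theorem fin_good (h : QAz R m l) (hm : Even m) (hP : P.Monic)
    (hi : Irreducible (P.map (residue R)))
    (hd : FinDeg (m * m + Nat.card (ResidueField R)) P.natDegree)
    (hj : SBC (AdjoinRoot.of P) j) :
    ∃ y0 : A1ˣ, La (j l) y0 ∧ ∀ y y' : A1ˣ, La (j l) y → La (j l) y' →
      (y : A1) - y0 ∈ extI A1 ((maximalIdeal R).map (AdjoinRoot.of P)) →
      (y' : A1) - y0 ∈ extI A1 ((maximalIdeal R).map (AdjoinRoot.of P)) →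
      WN R l (Algebra.norm R (nrd (AdjoinRoot P) (y : A1) * nrd (AdjoinRoot P) (y' : A1))) := by
  have := h.starFix
  have := h.az.free
  have := h.az.finite
  have := hP.free_adjoinRoot
  have := hP.finite_adjoinRoot
  have hl := h.add_star
  have h1 := h.map hj
  have hl1 := h1.add_star
  obtain ⟨D, _, _, _, _, π0, hπ0⟩ := exists_sbc (A := A) (residue R)
  have hD := h.map hπ0
  have := hπ0.toBC.finite'
  have : Finite D := Module.finite_of_finite (ResidueField R)
  have hsur := hπ0.toBC.surjective residue_surjective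
  have hdeg : (P.map (residue R)).natDegree = P.natDegree := hP.natDegree_map _
  have hlt : finrank (ResidueField R) D < (P.map (residue R)).natDegree := by
    rw [hD.finrank, hdeg]
    by_contra hc
    have hc' := not_lt.1 hc
    exact hd.2 _ hd.1 (hc'.trans (Nat.le_add_right _ _)) dvd_rfl
  have hone : 1 < (P.map (residue R)).natDegree := hdeg ▸ hd.1
  obtain ⟨c, hc⟩ := exists_shift (hP.map _) hi (hdeg ▸ hd)
  rw [← hD.finrank] at hc
  obtain ⟨yc, w, γ, hw⟩ := dfina_wit hD hm
  obtain ⟨c', rfl⟩ := residue_surjective c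
  obtain ⟨y1, hy1, rfl⟩ := La.lift π0 hπ0.map_star hsur hw.la
  obtain ⟨w1, hw1, rfl⟩ := Alt.lift π0 hπ0.map_star hsur hw.alt
  obtain ⟨b, hb⟩ : ∃ b : Basis (Fin P.natDegree) R (AdjoinRoot P),
      ∀ i, b i = AdjoinRoot.root P ^ (i : ℕ) :=
    ⟨(AdjoinRoot.powerBasis' hP).basis, (AdjoinRoot.powerBasis' hP).basis_eq_pow⟩
  have hj' : BC (algebraMap R (AdjoinRoot P)) j := hj.toBC
  obtain ⟨ρ, hρ, hρ'⟩ := hj'.exists_regular b
  have hπ := hπ0.mat (Fin P.natDegree)
  obtain ⟨π, hπd⟩ : ∃ π : Matrix (Fin P.natDegree) (Fin P.natDegree) A →+*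
      Matrix (Fin P.natDegree) (Fin P.natDegree) D, π = π0.mapMatrix := ⟨_, rfl⟩
  rw [← hπd] at hπ
  obtain ⟨κ, hκ⟩ : ∃ κ : AdjoinRoot P →+* Matrix (Fin P.natDegree) (Fin P.natDegree)
      (ResidueField R), ∀ s, κ s = (Algebra.leftMulMatrix b s).map (residue R) :=
    ⟨(residue R).mapMatrix.comp (Algebra.leftMulMatrix b).toRingHom, fun _ => rfl⟩
  have hπa : ∀ X : Matrix (Fin P.natDegree) (Fin P.natDegree) R,
      π (X.map (algebraMap R A)) = (X.map (residue R)).map (algebraMap _ D) := fun X => by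
    rw [hπd]
    exact Matrix.ext fun p q => hπ0.alg _
  have hπj : ∀ a, π (ρ (j a)) = diagonal fun _ => π0 a := fun a => by
    rw [hρ, hπd, RingHom.mapMatrix_apply, diagonal_map (map_zero _)]
  have hπs : ∀ s, π (ρ (algebraMap _ A1 s)) = (κ s).map (algebraMap _ D) := fun s => by
    rw [hρ', hπa, hκ]
  have hκa : ∀ r, κ (algebraMap R _ r) = algebraMap _ _ (residue R r) := fun r => by
    rw [hκ, AlgHom.commutes, algebraMap_eq_diagonal, algebraMap_eq_diagonal,
      diagonal_map (map_zero _)]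
    rfl
  have hκp : ∀ q : R[X], κ (aeval (AdjoinRoot.root P) q) =
      aeval (κ (AdjoinRoot.root P)) (q.map (residue R)) := fun q =>
    map_aeval_eq_aeval_map (RingHom.ext fun r => (hκa r).symm) q _
  obtain ⟨C, hC⟩ : ∃ C, C = κ (AdjoinRoot.root P) := ⟨_, rfl⟩
  rw [← hC] at hκp
  have hP0 : aeval (AdjoinRoot.root P) P = 0 := by rw [AdjoinRoot.aeval_eq, AdjoinRoot.mk_self]
  have hCP : aeval C (P.map (residue R)) = 0 := by rw [← hκp, hP0, map_zero]
  obtain ⟨u, hu⟩ : ∃ u : R[X], aeval (AdjoinRoot.root P) (u * derivative P) = 1 := by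
    have hs := PerfectField.separable_of_irreducible hi
    have h2 : IsUnit (κ (aeval (AdjoinRoot.root P) (derivative P))) := by
      rw [hκp, ← derivative_map]
      refine dfina_coprime hi (fun h0 => ?_) (natDegree_derivative_lt (by omega)) hCP
      rw [Separable, h0, isCoprime_zero_right] at hs
      exact hi.not_isUnit hs
    rw [hκ, isUnit_iff_isUnit_det, ← RingHom.mapMatrix_apply, ← RingHom.map_det, isUnit_map_iff,
      ← Algebra.norm_eq_matrix_det] at h2
    obtain ⟨v, hv⟩ := (dfina_norm h2).exists_left_inv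
    obtain ⟨u, rfl⟩ := AdjoinRoot.mk_surjective v
    exact ⟨u, by rw [map_mul, AdjoinRoot.aeval_eq, hv]⟩
  have hCu : aeval C (u.map (residue R) * derivative (P.map (residue R))) = 1 := by
    rw [derivative_map, ← Polynomial.map_mul, ← hκp, hu, map_one]
  obtain ⟨t, ht⟩ : ∃ t, t = algebraMap (AdjoinRoot P) A1 (AdjoinRoot.root P) := ⟨_, rfl⟩
  have hρp : ∀ q : R[X], aeval (ρ t) q = ρ (algebraMap _ A1 (aeval (AdjoinRoot.root P) q)) :=
    fun q => by
      rw [ht, hρ', hρ']
      exact aeval_algHom_apply ((Algebra.ofId R A).mapMatrix.comp (Algebra.leftMulMatrix b)) _ q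
  have hπt : π (ρ t) = C.map (algebraMap _ D) := by rw [ht, hπs, hC]
  have hker : ∀ x ∈ extI A1 ((maximalIdeal R).map (AdjoinRoot.of P)), π (ρ x) = 0 := by
    intro x hx
    rw [extI, Ideal.map_map] at hx
    refine (Ideal.map_le_iff_le_comap.2 fun r hr => ?_ : _ ≤ RingHom.ker (π.comp ρ)) hx
    change π (ρ (algebraMap _ A1 (algebraMap R _ r))) = 0
    rw [hπs, hκa, (residue_eq_zero_iff r).2 hr, map_zero, Matrix.map_zero _ (map_zero _)]
  have hun : ∀ x, IsUnit (π (ρ x)) → IsUnit x := fun x hx => by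
    have h2 := h.az.mat _ |>.isUnit_nrd_iff.2 (hπ.toBC.isUnit_of_map hx)
    rw [h.az.nrd_regular hj' b ρ hρ hρ'] at h2
    exact h1.az.isUnit_nrd_iff.1 (dfina_norm h2)
  obtain ⟨y0, hy0⟩ : ∃ y0, y0 = j y1 +
      algebraMap _ A1 (AdjoinRoot.root P + algebraMap R _ c') * j w1 := ⟨_, rfl⟩
  have hy0w : π (ρ y0) = witM (π0 y1) (π0 w1) C (residue R c') := by
    rw [hy0, map_add, map_add, map_mul, map_mul, hπj, hπj, hπs, map_add, hκa, ← hC,
      Algebra.algebraMap_eq_smul_one, witM]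
  have hy0l : La (j l) y0 := hy0 ▸ (hy1.map j hj.map_star).add_alt
    ((hw1.map j hj.map_star).cmul (Algebra.commutes _) (StarFix.fix _))
  obtain ⟨e, he⟩ : ∃ e : Fin P.natDegree → R, e = b.repr 1 := ⟨_, rfl⟩
  obtain ⟨E, hE⟩ : ∃ E, E = (vecMulVec e e).map (algebraMap R A) := ⟨_, rfl⟩
  have hEa : ∀ p q, E p q = algebraMap R A (e p * e q) := fun p q => by rw [hE]; rfl
  have hπE : π E = (vecMulVec (residue R ∘ e) (residue R ∘ e)).map (algebraMap _ D) := by
    rw [hE, hπa]
    exact congrArg (Matrix.map · _) (Matrix.ext fun p q => map_mul (residue R) _ _)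
  have hEs : star E = E := by
    ext p q
    rw [Matrix.star_apply, hEa, hEa, StarFix.fix, mul_comm]
  have hED : ∀ a ∈ Set.range j, ρ a * E = E * star (ρ (star a)) := by
    rintro _ ⟨a, rfl⟩
    rw [← hj.map_star, hρ, hρ, star_eq_conjTranspose, diagonal_conjTranspose]
    ext p q
    rw [diagonal_mul, mul_diagonal, hEa, Pi.star_apply, star_star, Algebra.commutes]
  have hgram : ρ (j l) * E = gram l fun p => algebraMap R A (e p) := by
    ext p q
    rw [hρ, diagonal_mul, hEa, gram, of_apply, StarFix.fix, Algebra.commutes (e p), map_mul,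
      mul_assoc]
  have hcyc : ∀ v : Fin P.natDegree → ResidueField R,
      (∀ i : ℕ, (C ^ i *ᵥ (residue R ∘ e)) ⬝ᵥ v = 0) → v = 0 := fun v hv => by
    funext i
    have h2 : C ^ (i : ℕ) *ᵥ (residue R ∘ e) = Pi.single i 1 := by
      funext p
      rw [hC, ← map_pow, hκ, ← RingHom.map_mulVec, he, Algebra.leftMulMatrix_mulVec_repr, mul_one,
        ← hb, Basis.repr_self, Finsupp.single_apply, Pi.single_apply]
      by_cases hp : i = p
      · rw [if_pos hp, if_pos hp.symm, map_one]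
      · rw [if_neg hp, if_neg (Ne.symm hp), map_zero]
    have := hv i
    rwa [h2, single_dotProduct, one_mul] at this
  have key : ∀ y : A1, La (j l) y → π (ρ y) = witM (π0 y1) (π0 w1) C (residue R c') →
      ∃ W, IsUnit W ∧ Alt W ∧ Alt (ρ y * W - gram l fun p => algebraMap R A (e p)) := by
    intro y hy hyw
    have h2 : π (ρ (y - star y)) = ((2 : ResidueField R) • (C + residue R c' • 1) + γ • 1).map
        (algebraMap _ D) * diagonal fun _ => π0 w1 := by
      rw [← dfina_two hw, ← hyw, eq_sub_of_add_eq' (hy.add_star hl1), sub_sub_eq_add_sub,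
        map_sub, map_sub, map_add, map_add, map_one, map_one]
    obtain ⟨v, hv⟩ := hun _ (h2 ▸ dfina_unit2 hw hi hCP hone)
    have := hπ.toBC.finite
    have htc : ∀ x, t * x = x * t := fun x => ht ▸ Algebra.commutes _ x
    obtain ⟨W, w1, w2, w3, z, w4⟩ := fa_exists ρ t htc (ht ▸ StarFix.fix _) E hEs (Set.range j) hED
      (ht ▸ dfina_gen hj.toBC) hl1 (by
        have := hED _ ⟨star l, rfl⟩
        rwa [hj.map_star, star_star] at this) hy (hv ▸ v.inv_mul) (hv ▸ v.mul_inv)
      (fa_surj (T := R) (P := P) (u := u) (by rw [← map_mul, ← map_mul, htc])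
        (by rw [hρp, hP0, map_zero, map_zero]) (by rw [hρp, hu, map_one, map_one]) π hπ.map_star
        (hπ.toBC.surjective residue_surjective)
        (fun x hx => ker_residue (R := R) ▸ hπ.toBC.map_eq_zero_iff.1 hx)
        (by rw [hyw, hπt]; exact fa_inj hw hc hCP hCu))
    refine ⟨W, hπ.toBC.isUnit_of_map ?_, w1, hgram ▸ w2⟩
    rcases subsingleton_or_nontrivial D with hD0 | hD0
    · exact isUnit_of_subsingleton _
    refine fa_unit (a := π (ρ ((v⁻¹ : A1ˣ) : A1))) (z := π z) hD.add_star hw hc hCP hCu hcyc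
      ?_ ?_ ?_
    · rw [← hyw, ← hπE, ← w3, dfina_tw π hπ.map_star]
    · rw [← h2, ← map_mul, ← map_mul, ← hv, v.inv_mul, map_one, map_one]
    · rw [← hπE, ← hπt, ← dfina_tw π hπ.map_star, ← w4, map_sub, map_mul]
  obtain ⟨y0', rfl⟩ := hun y0 (hy0w ▸ dfina_unit1 hw hi hCP hlt)
  refine ⟨y0', hy0l, fun y y' hy hy' e1 e2 => ?_⟩
  have cong : ∀ x : A1, x - y0' ∈ extI A1 ((maximalIdeal R).map (AdjoinRoot.of P)) →
      π (ρ x) = witM (π0 y1) (π0 w1) C (residue R c') := fun x hx => by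
    have := hker _ hx
    rwa [map_sub, map_sub, sub_eq_zero, hy0w] at this
  obtain ⟨W, a1, a2, a3⟩ := key y hy (cong _ e1)
  obtain ⟨W', b1, b2, b3⟩ := key y' hy' (cong _ e2)
  have := wn_of_two h ((Units.isUnit y).map ρ) ((Units.isUnit y').map ρ) a1 b1 a2 b2 a3 b3
  rwa [h.az.nrd_regular hj' b ρ hρ hρ', h.az.nrd_regular hj' b ρ hρ hρ', ← map_mul] at this

/-- The norm principle on the kernel of the reduction. -/
theorem fin_kernel (h : QAz R m l) (hm : Even m) (hP : P.Monic)
    (hi : Irreducible (P.map (residue R)))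
    (hd : FinDeg (m * m + Nat.card (ResidueField R)) P.natDegree)
    (hj : SBC (AdjoinRoot.of P) j) {g : A1} {c : AdjoinRoot P} (hs : SN (AdjoinRoot P) (j l) g c)
    (hg : g - 1 ∈ extI A1 ((maximalIdeal R).map (AdjoinRoot.of P))) :
    WN R l (Algebra.norm R c) :=
  fin_kernel_of_good h hP hj (fin_good h hm hP hi hd hj) hs hg

end Pool.Agent.GSD
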