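import Mathlib

open Matrix Polynomial

universe u

namespace Pool.Agent.GSD

/-- The degree is large and has no small divisor. -/
def FinDeg (N d : ℕ) : Prop := 1 < d ∧ ∀ e, 2 ≤ e → e ≤ N → ¬ e ∣ d

/-- The properties of the shifted roots `θ + c` of `P` that are used. -/
structure Shift {k : Type u} [Field k] (N : ℕ) (P : k[X]) (c : k) : Prop where
  one : ∀ (F : Type u) [Field F] [Algebra k F] (θ : F) (χ : k[X]), aeval θ P = 0 → χ ≠ 0 →
    χ.natDegree ≤ N → aeval (-(θ + algebraMap k F c)) χ ≠ 0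
  add : ∀ (F : Type u) [Field F] [Algebra k F] (θ θ' : F) (χ : k[X]), aeval θ P = 0 →
    aeval θ' P = 0 → χ ≠ 0 → χ.natDegree ≤ N → aeval (θ' - θ) χ = 0 → θ = θ'
  mul : ∀ (F : Type u) [Field F] [Algebra k F] (θ θ' : F) (χ : k[X]), aeval θ P = 0 →
    aeval θ' P = 0 → χ ≠ 0 → χ.natDegree ≤ N →
    aeval (-(θ' + algebraMap k F c) / (θ + algebraMap k F c)) χ = 0 → θ = θ'

variable {k : Type u} [Field k]

theorem dfina0_cop {M d m : ℕ} (hd : FinDeg M d) (h0 : m ≠ 0) (hm : m ≤ M) : Nat.Coprime m d :=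
  Nat.coprime_of_dvd fun l hl h =>
    hd.2 l hl.two_le ((Nat.le_of_dvd (Nat.pos_of_ne_zero h0) h).trans hm)

/-- An element of small degree lies in the base field. -/
theorem dfina0_base {F : Type u} [Field F] [Algebra k F] {L : IntermediateField k F}
    [FiniteDimensional k L] {M : ℕ} (hd : FinDeg M (Module.finrank k L)) {α : L} {χ : k[X]}
    (h0 : χ ≠ 0) (h1 : χ.natDegree ≤ M) (h2 : aeval (algebraMap L F α) χ = 0) :
    ∃ a, algebraMap k L a = α := by
  rw [aeval_algebraMap_eq_zero_iff_of_injective (algebraMap L F).injective] at h2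
  have hi : IsIntegral k α := Algebra.IsIntegral.isIntegral α
  by_contra hn
  exact hd.2 _ ((minpoly.two_le_natDegree_iff hi).2 hn)
    ((natDegree_le_natDegree (minpoly.degree_le_of_ne_zero k α h0 h2)).trans h1)
    (minpoly.degree_dvd hi)

/-- Two roots are conjugate inside the field generated by one of them. -/
theorem dfina0_conj [Finite k] {P : k[X]} (hP : P.Monic) (hi : Irreducible P)
    (hd : 1 < P.natDegree) {F : Type u} [Field F] [Algebra k F] {θ θ' : F} (h : aeval θ P = 0)
    (h' : aeval θ' P = 0) : ∃ (L : IntermediateField k F) (t : L) (σ : L ≃ₐ[k] L),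
      FiniteDimensional k L ∧ Module.finrank k L = P.natDegree ∧ (t : F) = θ ∧ (σ t : F) = θ' ∧
        ∀ a, algebraMap k L a ≠ t := by
  have i1 : IsIntegral k θ := ⟨P, hP, h⟩
  have i2 : IsIntegral k θ' := ⟨P, hP, h'⟩
  have m1 := minpoly.eq_of_irreducible_of_monic hi h hP
  have m2 := minpoly.eq_of_irreducible_of_monic hi h' hP
  let L := IntermediateField.adjoin k {θ}
  have fd : FiniteDimensional k L := IntermediateField.adjoin.finiteDimensional i1
  have fn : Finite L := Module.finite_of_finite k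
  let t : L := ⟨θ, IntermediateField.mem_adjoin_simple_self k θ⟩
  have m3 : minpoly k t = P := (IntermediateField.minpoly_eq t).trans m1.symm
  have nm : Normal k L := inferInstance
  have hm : θ' ∈ L := i2.mem_intermediateField_of_minpoly_splits (by
    rw [← m2, ← m3]
    exact nm.splits t)
  have it : IsIntegral k t := Algebra.IsIntegral.isIntegral t
  obtain ⟨σ, hσ⟩ := minpoly.exists_algEquiv_of_root' (x := (⟨θ', hm⟩ : L)) it.isAlgebraic (by
    rw [m3, ← aeval_algebraMap_eq_zero_iff_of_injective (algebraMap L F).injective]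
    exact h')
  refine ⟨L, t, σ, fd, (IntermediateField.adjoin.finrank i1).trans (by rw [← m1]), rfl,
    by rw [hσ], fun a ha => ?_⟩
  have := minpoly.natDegree_eq_one_iff.2 (⟨a, ha⟩ : t ∈ (algebraMap k L).range)
  rw [m3] at this
  omega

theorem exists_shift [Finite k] {N : ℕ} {P : k[X]} (hP : P.Monic) (hi : Irreducible P)
    (hd : FinDeg (N + Nat.card k) P.natDegree) : ∃ c, Shift N P c := by
  have hq : 1 < Nat.card k := Finite.one_lt_card
  refine ⟨0, fun F _ _ θ χ h h0 h1 h2 => ?_, fun F _ _ θ θ' χ h h' h0 h1 h2 => ?_,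
    fun F _ _ θ θ' χ h h' h0 h1 h2 => ?_⟩
  · obtain ⟨L, t, σ, fd, rk, rfl, -, nt⟩ := dfina0_conj hP hi hd.1 h h
    rw [map_zero, add_zero] at h2
    obtain ⟨a, ha⟩ := dfina0_base (α := -t) (rk ▸ hd) h0 (h1.trans (Nat.le_add_right _ _)) h2
    exact nt (-a) (by rw [map_neg, ha, neg_neg])
  · obtain ⟨L, t, σ, fd, rk, rfl, rfl, -⟩ := dfina0_conj hP hi hd.1 h h'
    obtain ⟨a, ha⟩ := dfina0_base (α := σ t - t) (rk ▸ hd) h0 (h1.trans (Nat.le_add_right _ _)) h2
    have e1 := congrArg (Algebra.trace k L) ha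
    rw [Algebra.trace_algebraMap, map_sub, Algebra.trace_eq_of_algEquiv, sub_self, rk] at e1
    have e2 : a = 0 := (nsmul_eq_zero_iff_of_coprime
      (dfina0_cop hd (by omega) (Nat.le_add_left _ _))).1 ⟨card_nsmul_eq_zero', e1⟩
    rw [e2, map_zero] at ha
    exact congrArg _ (sub_eq_zero.1 ha.symm).symm
  · obtain ⟨L, t, σ, fd, rk, rfl, rfl, nt⟩ := dfina0_conj hP hi hd.1 h h'
    rw [map_zero, add_zero, add_zero] at h2
    obtain ⟨a, ha⟩ := dfina0_base (α := -σ t / t) (rk ▸ hd) h0 (h1.trans (Nat.le_add_right _ _)) h2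
    have t0 : t ≠ 0 := fun e => nt 0 (by rw [map_zero, e])
    have e0 : σ t = algebraMap k L (-a) * t := by
      rw [map_neg, ha, neg_div, neg_neg, div_mul_cancel₀ _ t0]
    have e1 := congrArg (Algebra.norm k) e0
    rw [Algebra.norm_eq_of_algEquiv, map_mul, Algebra.norm_algebraMap, rk] at e1
    have e2 : (-a) ^ P.natDegree = 1 :=
      mul_right_cancel₀ (Algebra.norm_ne_zero_iff.2 t0) (e1.symm.trans (one_mul _).symm)
    have a0 : -a ≠ 0 := fun e => by
      rw [e, zero_pow (by have := hd.1; omega)] at e2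
      exact zero_ne_one e2
    have := Fintype.ofFinite k
    have e3 := FiniteField.pow_card_sub_one_eq_one (-a) a0
    rw [← Nat.card_eq_fintype_card] at e3
    have e4 : -a = 1 := (pow_eq_one_iff_of_coprime (dfina0_cop hd (by omega) (by omega))).1 ⟨e3, e2⟩
    rw [e0, e4, map_one, one_mul]

theorem dfina0_semi {R : Type*} [Ring R] [Algebra k R] {a b y : R} (h : a * y = y * b) (f : k[X]) :
    aeval a f * y = y * aeval b f := by
  induction f using Polynomial.induction_on' with
  | add p q hp hq => rw [map_add, map_add, add_mul, mul_add, hp, hq]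
  | monomial i r =>
    have h1 : y * b ^ i = a ^ i * y := SemiconjBy.pow_right h.symm i
    rw [aeval_monomial, aeval_monomial, mul_assoc, ← h1, ← mul_assoc, Algebra.commutes, mul_assoc]

theorem dfina0_tr {n : Type} [Fintype n] [DecidableEq n] (C : Matrix n n k) (f : k[X]) :
    (aeval C f)ᵀ = aeval Cᵀ f := by
  induction f using Polynomial.induction_on' with
  | add p q hp hq => rw [map_add, map_add, transpose_add, hp, hq]
  | monomial i r =>
    rw [aeval_monomial, aeval_monomial, ← Algebra.smul_def, ← Algebra.smul_def, transpose_smul,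
      transpose_pow]

theorem dfina0_coprime {N : ℕ} (hN : 1 ≤ N) {P : k[X]} {c γ : k} (hc : Shift N P c)
    (hγ : ((2 : k) = 0 ∧ γ = 1) ∨ ((2 : k) ≠ 0 ∧ γ = 0)) :
    IsCoprime P (P.comp (-X - C (2 * c + γ))) := by
  refine (isCoprime_iff_aeval_ne_zero_of_isAlgClosed k (AlgebraicClosure k) _ _).2 fun θ => ?_
  by_contra hn
  rw [not_or, not_not, not_not, aeval_comp, map_sub, map_neg, aeval_X, aeval_C] at hn
  obtain ⟨h, h'⟩ := hn
  have two : algebraMap k (AlgebraicClosure k) 2 = 2 := map_ofNat _ 2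
  rcases hγ with ⟨h2, rfl⟩ | ⟨h2, rfl⟩
  · have z : (2 : AlgebraicClosure k) = 0 := by rw [← two, h2, map_zero]
    have e1 : -θ - algebraMap k (AlgebraicClosure k) (2 * c + 1) - θ = -1 := by
      rw [h2, zero_mul, zero_add, map_one]
      linear_combination (-θ) * z
    have e2 := hc.add _ θ _ (X + C 1) h h' (X_add_C_ne_zero 1) ((natDegree_X_add_C 1).le.trans hN)
      (by rw [e1, map_add, aeval_X, aeval_C, map_one, neg_add_cancel])
    rw [← e2, sub_self] at e1
    exact one_ne_zero (neg_eq_zero.1 e1.symm)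
  · have z : (2 : AlgebraicClosure k) ≠ 0 := by
      rw [← two]
      exact (_root_.map_ne_zero _).2 h2
    have e0 := hc.one _ θ X h X_ne_zero (natDegree_X.le.trans hN)
    rw [aeval_X, neg_ne_zero] at e0
    have e1 : -(-θ - algebraMap k (AlgebraicClosure k) (2 * c + 0) + algebraMap k _ c) =
        θ + algebraMap k _ c := by
      rw [add_zero, map_mul, two]
      ring
    have e2 := hc.mul _ θ _ (X - C 1) h h' (X_sub_C_ne_zero 1) ((natDegree_X_sub_C 1).le.trans hN)
      (by rw [e1, div_self e0, map_sub, aeval_X, aeval_C, map_one, sub_self])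
    rw [← e2] at e1
    exact mul_ne_zero z e0 (by linear_combination -e1)

/-- The Lyapunov equation with a cyclic vector has an invertible solution. -/
theorem exists_lyapunov {N : ℕ} (hN : 1 ≤ N) {P : k[X]} {c γ : k} (hc : Shift N P c)
    (hγ : ((2 : k) = 0 ∧ γ = 1) ∨ ((2 : k) ≠ 0 ∧ γ = 0)) {n : Type} [Fintype n] [DecidableEq n]
    {C : Matrix n n k} (hC : aeval C P = 0) {e : n → k}
    (he : ∀ v : n → k, (∀ i : ℕ, (C ^ i *ᵥ e) ⬝ᵥ v = 0) → v = 0) :
    ∃ X0 : Matrix n n k, IsUnit X0 ∧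
      (C + c • 1) * X0 + X0 * (C + c • 1)ᵀ + γ • X0 = vecMulVec e e := by
  let Φ : Matrix n n k →ₗ[k] Matrix n n k :=
    LinearMap.mulLeft k (C + c • 1) + LinearMap.mulRight k (C + c • 1)ᵀ + γ • LinearMap.id
  have hΦ : ∀ Y, Φ Y = (C + c • 1) * Y + Y * (C + c • 1)ᵀ + γ • Y := fun Y => rfl
  have inj : Function.Injective Φ := by
    refine (injective_iff_map_eq_zero Φ).2 fun Y hY => ?_
    obtain ⟨a, b, hab⟩ := dfina0_coprime hN hc hγ
    have s1 : C * Y = Y * (-Cᵀ - algebraMap k _ (2 * c + γ)) := by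
      rw [hΦ, transpose_add, transpose_smul, transpose_one] at hY
      rw [Algebra.algebraMap_eq_smul_one, ← sub_eq_zero, ← hY]
      simp only [add_mul, mul_add, mul_sub, mul_neg, smul_mul_assoc, mul_smul_comm, one_mul, mul_one,
        add_smul, two_mul]
      abel
    have s2 := dfina0_semi s1 (P.comp (-X - Polynomial.C (2 * c + γ)))
    rw [aeval_comp (-Cᵀ - algebraMap k _ (2 * c + γ)), map_sub, map_neg, aeval_X, aeval_C, neg_sub,
      sub_sub_cancel_left, neg_neg, ← dfina0_tr, hC, transpose_zero, mul_zero] at s2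
    generalize P.comp (-X - Polynomial.C (2 * c + γ)) = Q at hab s2
    have s3 := congrArg (fun f => aeval C f * Y) hab
    simp only [map_add, map_mul, map_one, hC, mul_zero, zero_add, one_mul] at s3
    rw [← s3, mul_assoc, s2, mul_zero]
  obtain ⟨Y, hY⟩ := LinearMap.injective_iff_surjective.1 inj (vecMulVec e e)
  have sym : Yᵀ = Y := inj (by
    have := congrArg transpose hY
    rw [transpose_vecMulVec, hΦ, transpose_add, transpose_add, transpose_mul, transpose_mul,
      transpose_transpose, transpose_smul, add_comm (Yᵀ * _)] at this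
    rw [hΦ, this, hY])
  rw [hΦ] at hY
  refine ⟨Y, mulVec_injective_iff_isUnit.1 ?_, hY⟩
  have key : ∀ v, Y *ᵥ v = 0 → e ⬝ᵥ v = 0 ∧ Y *ᵥ (Cᵀ *ᵥ v) = 0 := by
    intro v hv
    have h1 : Y *ᵥ ((C + c • 1)ᵀ *ᵥ v) = (e ⬝ᵥ v) • e := by
      have := congrArg (· *ᵥ v) hY
      simp only [add_mulVec, ← mulVec_mulVec, smul_mulVec, hv, mulVec_zero, smul_zero, zero_add,
        add_zero, vecMulVec_mulVec, op_smul_eq_smul] at this
      exact this
    have h2 : (e ⬝ᵥ v) * (e ⬝ᵥ v) = 0 := by
      have := congrArg (v ⬝ᵥ ·) h1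
      simp only [dotProduct_smul, smul_eq_mul] at this
      rw [dotProduct_mulVec, ← sym, vecMul_transpose, hv, zero_dotProduct, dotProduct_comm v e] at this
      exact this.symm
    have h3 := mul_self_eq_zero.1 h2
    rw [h3, zero_smul, transpose_add, transpose_smul, transpose_one, add_mulVec, mulVec_add,
      smul_mulVec, one_mulVec, mulVec_smul, hv, smul_zero, add_zero] at h1
    exact ⟨h3, h1⟩
  refine (injective_iff_map_eq_zero Y.mulVecLin).2 fun v hv => he v fun i => ?_
  have h4 : ∀ i : ℕ, Y *ᵥ (Cᵀ ^ i *ᵥ v) = 0 := fun i => by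
    induction i with
    | zero => rwa [pow_zero, one_mulVec]
    | succ i ih =>
      rw [pow_succ', ← mulVec_mulVec]
      exact (key _ ih).2
  have h5 := (key _ (h4 i)).1
  rwa [← transpose_pow, dotProduct_mulVec, vecMul_transpose] at h5

end Pool.Agent.GSD
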