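import Pool.Agent.P.MP_c1f06d_ag.d.TCl

open Matrix CliffordAlgebra Pool.Agent.P.MP_c1f06d_ag

universe u

namespace Pool.Agent.GSD

variable {R A : Type u} [CommRing R] [Ring A] [Algebra R A] [StarRing A] {l : A} {d : ℕ}
variable {T T' T'' : Type u} [CommRing T] [Algebra R T] [CommRing T'] [Algebra R T']
  [CommRing T''] [Algebra R T'']

namespace Splitting

/-- `x` and `x'` have the same image wherever both splittings become isometric to a third one. -/
def Tr (s : Splitting R l d T) (s' : Splitting R l d T') (f : T →ₐ[R] T') (x : s.C) (x' : s'.C) :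
    Prop :=
  ∀ (U : Type u) [CommRing U] [Algebra R U] (t : Splitting R l d U) (j : T' →ₐ[R] U)
    (h h' : Matrix (Fin d) (Fin d) U) (Ψ : s.C →+* t.C) (Φ : s'.C →+* t.C),
    s.IsHom t (j.comp f) h → s.Sem t (j.comp f) h Ψ → s'.IsHom t j h' → s'.Sem t j h' Φ →
      Ψ x = Φ x'

theorem exists_test (s : Splitting R l d T) (s' : Splitting R l d T') (f : T →ₐ[R] T') :
    ∃ (U : Type u) (_ : CommRing U) (_ : Algebra R U) (t : Splitting R l d U) (j : T' →ₐ[R] U)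
      (h h' : Matrix (Fin d) (Fin d) U) (Ψ : s.C →+* t.C) (Φ : s'.C →+* t.C),
      s.IsHom t (j.comp f) h ∧ s.Sem t (j.comp f) h Ψ ∧ s'.IsHom t j h' ∧ s'.Sem t j h' Φ ∧
        Function.Injective j ∧ Function.Injective Φ := by
  obtain ⟨U, _, _, j, h, hj, H⟩ := s.exists_hom s' f
  obtain ⟨Ψ, hΨ⟩ := H.exists_sem
  obtain ⟨Φ, hΦ⟩ := (s'.isHom_map j).exists_sem
  exact ⟨U, inferInstance, inferInstance, s'.map j, j, h, 1, Ψ, Φ, H, hΨ, s'.isHom_map j, hΦ, hj,
    hΦ.injective (s'.isHom_map j).isUnit_det hj⟩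

variable {s : Splitting R l d T} {s' : Splitting R l d T'} {s'' : Splitting R l d T''}
  {f : T →ₐ[R] T'} {g : T' →ₐ[R] T''} {x y : s.C} {x' y' : s'.C}

theorem Tr.unique (h1 : s.Tr s' f x x') (h2 : s.Tr s' f x y') : x' = y' := by
  obtain ⟨U, _, _, t, j, h, h', Ψ, Φ, a1, a2, a3, a4, -, hΦ⟩ := s.exists_test s' f
  exact hΦ ((h1 U t j h h' Ψ Φ a1 a2 a3 a4).symm.trans (h2 U t j h h' Ψ Φ a1 a2 a3 a4))

theorem Tr.add (h1 : s.Tr s' f x x') (h2 : s.Tr s' f y y') : s.Tr s' f (x + y) (x' + y') :=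
  fun U _ _ t j h h' Ψ Φ a1 a2 a3 a4 => by
    rw [map_add, map_add, h1 U t j h h' Ψ Φ a1 a2 a3 a4, h2 U t j h h' Ψ Φ a1 a2 a3 a4]

theorem Tr.mul (h1 : s.Tr s' f x x') (h2 : s.Tr s' f y y') : s.Tr s' f (x * y) (x' * y') :=
  fun U _ _ t j h h' Ψ Φ a1 a2 a3 a4 => by
    rw [map_mul, map_mul, h1 U t j h h' Ψ Φ a1 a2 a3 a4, h2 U t j h h' Ψ Φ a1 a2 a3 a4]

theorem Tr.reverse (h1 : s.Tr s' f x x') : s.Tr s' f (reverse x) (reverse x') :=
  fun U _ _ t j h h' Ψ Φ a1 a2 a3 a4 => by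
    rw [a2.reverse, a4.reverse, h1 U t j h h' Ψ Φ a1 a2 a3 a4]

theorem tr_algebraMap (c : T) : s.Tr s' f (algebraMap T _ c) (algebraMap T' _ (f c)) :=
  fun _ _ _ _ _ _ _ _ _ _ a2 _ a4 => by rw [a2.1, a4.1]; rfl

theorem tr_cm (X : Matrix (Fin d) (Fin d) T) : s.Tr s' f (s.cm X) (s'.cm (s.tr s' f X)) :=
  fun _ _ _ _ _ _ _ _ _ a1 a2 a3 a4 => by rw [a2.cm a1, a4.cm a3, tr_tr]

theorem even_ind {P : s.C → Prop} (h1 : ∀ c, P (algebraMap T _ c)) (h2 : ∀ X, P (s.cm X))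
    (h3 : ∀ x ∈ even s.q, ∀ y ∈ even s.q, P x → P y → P (x + y))
    (h4 : ∀ x ∈ even s.q, ∀ y ∈ even s.q, P x → P y → P (x * y)) (hx : x ∈ even s.q) : P x := by
  induction x, hx using CliffordAlgebra.even_induction with
  | algebraMap r => exact h1 r
  | add x y hx hy h h' => exact h3 x hx y hy h h'
  | ι_mul_ι_mul a b x hx h => exact h4 _ (ι_mul_ι_mem_evenOdd_zero _ _ _) x hx (cm_vec (s := s) a b ▸ h2 _) h

theorem exists_tr (s' : Splitting R l d T') (f : T →ₐ[R] T') (hx : x ∈ even s.q) :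
    ∃ x' ∈ even s'.q, s.Tr s' f x x' := by
  refine even_ind (P := fun x => ∃ x' ∈ even s'.q, s.Tr s' f x x')
    (fun c => ⟨_, Subalgebra.algebraMap_mem _ _, tr_algebraMap c⟩)
    (fun X => ⟨_, cm_even _, tr_cm X⟩) ?_ ?_ hx
  · rintro x - y - ⟨x', a, b⟩ ⟨y', a', b'⟩
    exact ⟨_, add_mem a a', b.add b'⟩
  · rintro x - y - ⟨x', a, b⟩ ⟨y', a', b'⟩
    exact ⟨_, mul_mem a a', b.mul b'⟩

open Classical in
/-- Transport of even elements of the Clifford algebra. -/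
noncomputable def trC (s : Splitting R l d T) (s' : Splitting R l d T') (f : T →ₐ[R] T')
    (x : s.C) : s'.C :=
  if h : ∃ x', s.Tr s' f x x' then h.choose else 0

theorem Tr.eq (h : s.Tr s' f x x') : s.trC s' f x = x' := by
  have h1 : ∃ x', s.Tr s' f x x' := ⟨x', h⟩
  rw [trC, dif_pos h1]
  exact h1.choose_spec.unique h

theorem tr_trC (hx : x ∈ even s.q) : s.Tr s' f x (s.trC s' f x) := by
  obtain ⟨x', -, h⟩ := exists_tr s' f hx
  rwa [h.eq]

theorem trC_even (hx : x ∈ even s.q) : s.trC s' f x ∈ even s'.q := by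
  obtain ⟨x', h1, h⟩ := exists_tr s' f hx
  rwa [h.eq]

theorem trC_add (hx : x ∈ even s.q) (hy : y ∈ even s.q) :
    s.trC s' f (x + y) = s.trC s' f x + s.trC s' f y := ((tr_trC hx).add (tr_trC hy)).eq

theorem trC_mul (hx : x ∈ even s.q) (hy : y ∈ even s.q) :
    s.trC s' f (x * y) = s.trC s' f x * s.trC s' f y := ((tr_trC hx).mul (tr_trC hy)).eq

theorem trC_reverse (hx : x ∈ even s.q) : s.trC s' f (reverse x) = reverse (s.trC s' f x) :=
  (tr_trC hx).reverse.eq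

theorem trC_algebraMap (c : T) : s.trC s' f (algebraMap T _ c) = algebraMap T' _ (f c) :=
  (tr_algebraMap c).eq

theorem trC_one : s.trC s' f 1 = 1 := by
  rw [← map_one (algebraMap T s.C), trC_algebraMap, map_one, map_one]

theorem trC_smul (c : T) (hx : x ∈ even s.q) : s.trC s' f (c • x) = f c • s.trC s' f x := by
  rw [Algebra.smul_def, trC_mul (Subalgebra.algebraMap_mem _ _) hx, trC_algebraMap,
    Algebra.smul_def]

theorem trC_cm (X : Matrix (Fin d) (Fin d) T) : s.trC s' f (s.cm X) = s'.cm (s.tr s' f X) :=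
  (tr_cm X).eq

theorem trC_trC (hx : x ∈ even s.q) : s'.trC s'' g (s.trC s' f x) = s.trC s'' (g.comp f) x := by
  refine even_ind (P := fun x => s'.trC s'' g (s.trC s' f x) = s.trC s'' (g.comp f) x)
    (fun c => ?_) (fun X => ?_) (fun x hx y hy h h' => ?_) (fun x hx y hy h h' => ?_) hx
  · rw [trC_algebraMap, trC_algebraMap, trC_algebraMap]; rfl
  · rw [trC_cm, trC_cm, trC_cm, tr_tr]
  · rw [trC_add hx hy, trC_add hx hy, trC_add (trC_even hx) (trC_even hy), h, h']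
  · rw [trC_mul hx hy, trC_mul hx hy, trC_mul (trC_even hx) (trC_even hy), h, h']

theorem Sem.trC_eq {h : Matrix (Fin d) (Fin d) T'} {Ψ : s.C →+* s'.C} (H : s.Sem s' f h Ψ)
    (H' : s.IsHom s' f h) (hx : x ∈ even s.q) : s.trC s' f x = Ψ x := by
  refine even_ind (P := fun x => s.trC s' f x = Ψ x)
    (fun c => ?_) (fun X => ?_) (fun x hx y hy h h' => ?_) (fun x hx y hy h h' => ?_) hx
  · rw [trC_algebraMap, H.1]
  · rw [trC_cm, H.cm H']
  · rw [trC_add hx hy, map_add, h, h']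
  · rw [trC_mul hx hy, map_mul, h, h']

theorem trC_ind {m : Matrix (Fin d) (Fin d) T} (hx : x ∈ even s.q) (h1 : Ind s.Q x m) :
    Ind s'.Q (s.trC s' f x) (s.tr s' f m) := by
  obtain ⟨U, _, _, t, j, h, h', Ψ, Φ, a1, a2, a3, a4, -, hΦ⟩ := s.exists_test s' f
  refine a4.ind_of a3 hΦ ?_
  rw [← tr_trC hx U t j h h' Ψ Φ a1 a2 a3 a4, tr_tr]
  exact a2.ind a1 h1

theorem trC_norm {c : T} (hx : x ∈ even s.q) (h : reverse x * x = algebraMap T _ c) :
    reverse (s.trC s' f x) * s.trC s' f x = algebraMap T' _ (f c) := by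
  rw [← trC_reverse hx, ← trC_mul ((reverse_mem_evenOdd_iff _).2 hx) hx, h, trC_algebraMap]

theorem unim' (s : Splitting R l d T) : Unim (s.Q.map (algebraMap T T)) := s.unim

theorem isUnit_tr {m : Matrix (Fin d) (Fin d) T} (hm : IsUnit m.det) :
    IsUnit (s.tr s' f m).det :=
  (isUnit_iff_isUnit_det _).1 (((isUnit_iff_isUnit_det _).2 hm).map (s.tr s' f))

theorem exists_spin_trC (s' : Splitting R l d T') (f : T →ₐ[R] T') (x : Spin s.Q T) :
    ∃ x' : Spin s'.Q T', x'.val.val = s.trC s' f x.val.val := by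
  obtain ⟨m, h1, h2⟩ := spin_ind x
  have he : x.val.val ∈ even s.q := x.2.1
  have hr : reverse x.val.val ∈ even s.q := (reverse_mem_evenOdd_iff _).2 he
  have n1 : x.val.val * reverse x.val.val = 1 := x.2.2.1
  have n2 : reverse x.val.val * x.val.val = 1 := by
    rw [← Units.inv_eq_of_mul_eq_one_right n1, Units.inv_mul]
  have k1 : s.trC s' f x.val.val * reverse (s.trC s' f x.val.val) = 1 := by
    rw [← trC_reverse he, ← trC_mul he hr, n1, trC_one]
  have k2 : reverse (s.trC s' f x.val.val) * s.trC s' f x.val.val = 1 := by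
    rw [← trC_reverse he, ← trC_mul hr he, n2, trC_one]
  exact ⟨⟨⟨_, _, k1, k2⟩, mem_spin (isUnit_tr (h2.isUnit_det s.unim')) (trC_even he) k2
    (trC_ind he h1)⟩, rfl⟩

theorem isUnit_trC (hx : x ∈ even s.q) (hy : y ∈ even s.q) (h1 : x * y = 1) (h2 : y * x = 1) :
    IsUnit (s.trC s' f x) :=
  ⟨⟨s.trC s' f x, s.trC s' f y, by rw [← trC_mul hx hy, h1, trC_one],
    by rw [← trC_mul hy hx, h2, trC_one]⟩, rfl⟩

end Splitting

end Pool.Agent.GSD
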