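import Pool.Agent.P.MP_c1f06d_ag.d.TDesc
import Pool.Agent.P.MP_c1f06d_ag.d.TTrC

open Matrix CliffordAlgebra Pool.Agent.P.MP_c1f06d_ag

universe u

namespace Pool.Agent.GSD

variable {R A : Type u} [CommRing R] [Ring A] [Algebra R A] [StarRing A] {l : A} {d : ℕ}
variable {T T' : Type u} [CommRing T] [Algebra R T] [CommRing T'] [Algebra R T']
variable {F B : Type u} [CommRing F] [Algebra R F] [Ring B] [StarRing B] [Algebra R B] [Algebra F B]
  [IsScalarTower R F B] {i : A →ₐ[R] B} {s : Splitting R l d T} {s' : Splitting R l d T'}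
  {f : F →ₐ[R] T} {τ : B →+* Matrix (Fin d) (Fin d) T}
  {ρ : Type} [Fintype ρ] [DecidableEq ρ] {g : B} {Y Yi : Matrix ρ ρ B} {C : ρ → B}

open Splitting

theorem Splitting.inv_det (s : Splitting R l d T) : s.B⁻¹.det * s.B.det = 1 :=
  det_nonsing_inv_mul_det _ s.isUnit_det_B

theorem IsExt.wallM (h : IsExt i s f τ) (hi : GenB F i) (W : WallD (i l) g Y Yi C) :
    WallM s.B (s.φ l) (Y.map τ) (fun k => τ (C k)) fun k => τ (star (C k)) := by
  obtain ⟨Z, hZ⟩ := W.alt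
  refine ⟨s.B_symm, fun k => by rw [h.map_star hi, B_mul_adj], Z.map τ,
    Matrix.of fun a b => τ (star (Z b a)), fun a b => ?_, fun a b => ?_⟩
  · rw [of_apply, h.map_star hi, B_mul_adj]; rfl
  · rw [Matrix.map_apply, hZ, map_add, map_sub, map_mul, map_mul, h.eq]; rfl

/-- The normalised Clifford lift of a Wall datum. -/
noncomputable def IsExt.nl (h : IsExt i s f τ) (hi : GenB F i) (W : WallD (i l) g Y Yi C) : s.C :=
  s.B⁻¹.det ^ (Fintype.card ρ / 2) • (h.wallM hi W).lift s.Q_map_self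

omit [StarRing A] [Algebra R T] in
theorem WallD.map_inv (W : WallD (i l) g Y Yi C) (τ : B →+* Matrix (Fin d) (Fin d) T) :
    Y.map τ * Yi.map τ = 1 := by
  rw [← Matrix.map_mul, W.inv, Matrix.map_one _ (map_zero τ) (map_one τ)]

variable (h : IsExt i s f τ) (hi : GenB F i) (W : WallD (i l) g Y Yi C)

theorem IsExt.nl_even (hr : Even (Fintype.card ρ)) : h.nl hi W ∈ even s.q :=
  Subalgebra.smul_mem _ ((h.wallM hi W).lift_even _ (hr.mul_right d)) _

theorem IsExt.nl_ind (hr : Even (Fintype.card ρ)) : Ind s.Q (h.nl hi W) (τ g) := by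
  have := ((h.wallM hi W).lift_ind s.Q_map_self (hr.mul_right d) s.isUnit_det_B s.B_add
    (W.map_inv τ)).smul (s.B⁻¹.det ^ (Fintype.card ρ / 2))
  rw [congrArg τ W.eq]
  simpa only [map_sub, map_one, map_sum, map_mul, Matrix.map_apply, IsExt.nl] using this

theorem norm_aux {a b c : T} {r : ℕ} (hr : Even r) (hab : a * b = 1) :
    a ^ (r / 2) * a ^ (r / 2) * (b ^ r * c) = c := by
  rw [← pow_add, ← two_mul, Nat.two_mul_div_two_of_even hr, ← mul_assoc, ← mul_pow, hab, one_pow,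
    one_mul]

theorem IsExt.reverse_nl_mul (hr : Even (Fintype.card ρ)) :
    reverse (h.nl hi W) * h.nl hi W = algebraMap T _ (flatM (Y.map τ)).det := by
  rw [IsExt.nl, map_smul, smul_mul_smul_comm, (h.wallM hi W).reverse_lift_mul _ (hr.mul_right d)
    s.isUnit_det_B (isUnit_det_flatM (W.map_inv τ)), Algebra.smul_def, ← map_mul,
    norm_aux hr s.inv_det]

theorem IsExt.nl_mul_reverse (hr : Even (Fintype.card ρ)) :
    h.nl hi W * reverse (h.nl hi W) = algebraMap T _ (flatM (Y.map τ)).det := by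
  rw [IsExt.nl, map_smul, smul_mul_smul_comm, (h.wallM hi W).lift_mul_reverse s.unim _
    (hr.mul_right d) s.isUnit_det_B (isUnit_det_flatM (W.map_inv τ)), Algebra.smul_def, ← map_mul,
    norm_aux hr s.inv_det]

theorem IsExt.isUnit_nl (hr : Even (Fintype.card ρ)) : IsUnit (h.nl hi W) := by
  obtain ⟨c, hc⟩ := isUnit_det_flatM (W.map_inv τ)
  refine ⟨⟨h.nl hi W, (↑c⁻¹ : T) • reverse (h.nl hi W), ?_, ?_⟩, rfl⟩
  · rw [mul_smul_comm, h.nl_mul_reverse hi W hr, ← hc, Algebra.smul_def, ← map_mul,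
      Units.inv_mul, map_one]
  · rw [smul_mul_assoc, h.reverse_nl_mul hi W hr, ← hc, Algebra.smul_def, ← map_mul,
      Units.inv_mul, map_one]

theorem IsExt.sem_nl (hr : Even (Fintype.card ρ)) {p : T →ₐ[R] T'} {m : Matrix (Fin d) (Fin d) T'}
    {Ψ : s.C →+* s'.C} (H : s.Sem s' p m Ψ) (H' : s.IsHom s' p m)
    {τ' : B →+* Matrix (Fin d) (Fin d) T'} (h' : IsExt i s' (p.comp f) τ') :
    Ψ (h.nl hi W) = h'.nl hi W := by
  have e : ∀ b, τ' b * m = m * (τ b).map p := fun b => by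
    rw [h'.unique hi.bc (h.tr s' p), RingHom.comp_apply, H'.tr_mul]
  have e1 := (h.wallM hi W).map_lift s.Q_map_self (h'.wallM hi W) s'.Q_map_self p.toRingHom m Ψ
    H.1 H.2 H'.B_eq (fun k => e _) fun a b => e _
  have e2 : p s.B⁻¹.det * m.det ^ 2 = s'.B⁻¹.det := by
    refine s'.isUnit_det_B.mul_right_cancel ?_
    rw [mul_assoc, H'.det_sq, ← map_mul, inv_det, inv_det, map_one]
  rw [IsExt.nl, IsExt.nl, H.smul, e1, smul_smul, ← e2, mul_pow, ← pow_mul,
    Nat.two_mul_div_two_of_even hr, map_pow]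

theorem IsExt.trC_nl (hr : Even (Fintype.card ρ)) {p : T →ₐ[R] T'}
    {τ' : B →+* Matrix (Fin d) (Fin d) T'} (h' : IsExt i s' (p.comp f) τ') :
    s.trC s' p (h.nl hi W) = h'.nl hi W :=
  Tr.eq fun U _ _ t j m m' Ψ Φ a1 a2 a3 a4 => by
    exact (h.sem_nl hi W hr a2 a1 (h'.tr t j)).trans (h'.sem_nl hi W hr a4 a3 (h'.tr t j)).symm

end Pool.Agent.GSD
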