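import Pool.Agent.P.MP_c1f06d_ag.d.TFrame
import Pool.Agent.P.MP_c1f06d_ag.d.TWall
import Pool.Agent.P.MP_c1f06d_ag.Tors3

open Matrix CliffordAlgebra TensorProduct IsLocalRing Pool.Agent.P.MP_c1f06d_ag

universe u

namespace Pool.Agent.GSD

variable {R A : Type u} [CommRing R] [Ring A] [Algebra R A] [StarRing A] {l : A} {d : ℕ}
variable {T T' S : Type u} [CommRing T] [Algebra R T] [CommRing T'] [Algebra R T']
  [CommRing S] [Algebra R S] {E : Type u} [CommRing E] [Algebra R E]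

namespace Splitting

/-- An even unit with its matrix and its norm. -/
structure Gd (s : Splitting R l d T) (x : s.C) (m : Matrix (Fin d) (Fin d) T) (c : T) : Prop where
  even : x ∈ even s.q
  ind : Ind s.Q x m
  det : IsUnit m.det
  unit : IsUnit c
  norm : reverse x * x = algebraMap T _ c
  norm' : x * reverse x = algebraMap T _ c

variable {s : Splitting R l d T} {x y : s.C} {m m' : Matrix (Fin d) (Fin d) T} {c c' : T}

theorem Gd.isUnit (h : s.Gd x m c) : IsUnit x := by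
  obtain ⟨v, hv⟩ := h.unit
  refine ⟨⟨x, (↑v⁻¹ : T) • reverse x, ?_, ?_⟩, rfl⟩
  · rw [mul_smul_comm, h.norm', ← hv, Algebra.smul_def, ← map_mul, Units.inv_mul, map_one]
  · rw [smul_mul_assoc, h.norm, ← hv, Algebra.smul_def, ← map_mul, Units.inv_mul, map_one]

theorem Gd.trC (h : s.Gd x m c) (s' : Splitting R l d T') (f : T →ₐ[R] T') :
    s'.Gd (s.trC s' f x) (s.tr s' f m) (f c) :=
  ⟨trC_even h.even, trC_ind h.even h.ind, isUnit_tr h.det, h.unit.map f, trC_norm h.even h.norm, by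
    rw [← trC_reverse h.even, ← trC_mul h.even ((reverse_mem_evenOdd_iff _).2 h.even), h.norm',
      trC_algebraMap]⟩

theorem Gd.mul (h : s.Gd x m c) (h' : s.Gd y m' c') : s.Gd (x * y) (m * m') (c * c') :=
  ⟨mul_mem h.even h'.even, h.ind.mul h'.ind, by rw [det_mul]; exact h.det.mul h'.det,
    h.unit.mul h'.unit, by
      rw [reverse.map_mul, mul_assoc, ← mul_assoc (reverse x), h.norm, ← Algebra.smul_def,
        mul_smul_comm, h'.norm, Algebra.smul_def, map_mul], by
      rw [reverse.map_mul, mul_assoc, ← mul_assoc y, h'.norm', ← Algebra.smul_def,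
        mul_smul_comm, h.norm', Algebra.smul_def, mul_comm c, map_mul]⟩

theorem Gd.smul (h : s.Gd x m c) {t : T} (ht : IsUnit t) : s.Gd (t • x) m (t ^ 2 * c) :=
  ⟨Subalgebra.smul_mem _ h.even t, h.ind.smul t, h.det, (ht.pow 2).mul h.unit, by
    rw [map_smul, smul_mul_smul_comm, h.norm, Algebra.smul_def, ← map_mul, pow_two], by
    rw [map_smul, smul_mul_smul_comm, h.norm', Algebra.smul_def, ← map_mul, pow_two]⟩

theorem Gd.norm_eq (h : s.Gd x m c) (h' : s.Gd x m' c') : c = c' :=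
  cl_algebraMap_injective (h.norm.symm.trans h'.norm)

theorem Gd.exists_smul (h : s.Gd x m c) (h' : s.Gd y m c') : ∃ t : T, IsUnit t ∧ x = t • y := by
  obtain ⟨t, ht⟩ := Ind.exists_smul s.unim h.det h'.isUnit h.ind h'.ind
  refine ⟨t, ?_, ht⟩
  have e := h.norm
  rw [ht, map_smul, smul_mul_smul_comm, h'.norm, Algebra.smul_def, ← map_mul] at e
  have e2 : IsUnit (t * t * c') := cl_algebraMap_injective e ▸ h.unit
  exact isUnit_of_mul_isUnit_left (isUnit_of_mul_isUnit_left e2)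

theorem Sem.odd {s' : Splitting R l d T'} {f : T →ₐ[R] T'} {h : Matrix (Fin d) (Fin d) T'}
    {Ψ : s.C →+* s'.C} (H : s.Sem s' f h Ψ) (hx : x ∈ evenOdd s.q 1) : Ψ x ∈ evenOdd s'.q 1 := by
  induction x, hx using CliffordAlgebra.odd_induction with
  | ι v => rw [H.2]; exact ι_mem_evenOdd_one _ _
  | add x y _ _ hx hy => rw [map_add]; exact add_mem hx hy
  | ι_mul_ι_mul a b x _ hx =>
    rw [map_mul, map_mul, H.2, H.2]
    have := SetLike.mul_mem_graded (ι_mul_ι_mem_evenOdd_zero s'.q (h *ᵥ (f ∘ a)) (h *ᵥ (f ∘ b))) hx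
    rwa [zero_add] at this

end Splitting

open Splitting

theorem IsExt.gd {F B : Type u} [CommRing F] [Algebra R F] [Ring B] [StarRing B] [Algebra R B]
    [Algebra F B] [IsScalarTower R F B] {i : A →ₐ[R] B} {s : Splitting R l d T} {f : F →ₐ[R] T}
    {τ : B →+* Matrix (Fin d) (Fin d) T} {ρ : Type} [Fintype ρ] [DecidableEq ρ] {g : B}
    {Y Yi : Matrix ρ ρ B} {C : ρ → B} (h : IsExt i s f τ) (hi : GenB F i)
    (W : WallD (i l) g Y Yi C) (hr : Even (Fintype.card ρ)) {n : F} (hn : NrdIs l d i Y n) :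
    s.Gd (h.nl hi W) (τ g) (f n) := by
  have e : (flatM (Y.map τ)).det = f n := hn T s f.toRingHom τ h.smul h.eq
  have hc : Carries (τ g) (s.Q.map (algebraMap T T)) (s.Q.map (algebraMap T T)) := fun v => by
    apply cl_algebraMap_injective (Q := s.Q)
    apply (h.isUnit_nl hi W hr).mul_right_cancel
    have h1 := h.nl_ind hi W hr v
    rw [involute_eq_of_mem_even (h.nl_even hi W hr)] at h1
    rw [← formOver_eq_qv, ← formOver_eq_qv, ← ι_sq_scalar, mul_assoc, ← h1, ← mul_assoc, ← h1,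
      mul_assoc, ι_sq_scalar, Algebra.commutes]
  exact ⟨h.nl_even hi W hr, h.nl_ind hi W hr, hc.isUnit_det s.unim',
    e ▸ isUnit_det_flatM (W.map_inv τ), e ▸ h.reverse_nl_mul hi W hr, e ▸ h.nl_mul_reverse hi W hr⟩

namespace PAct

variable (τ : PAct R l d E)

theorem gd (s : Splitting R l d T) (e e' : E →ₐ[R] T) :
    s.Gd (τ.gam s e e').val.val (τ.gmat s e e') 1 :=
  ⟨τ.gam_even s e e', τ.gmat_ind s e e', (τ.gmat_carries s e e').isUnit_det s.unim, isUnit_one,
    (spin_reverse_mul _).trans (map_one _).symm, (τ.gam s e e').2.2.1.trans (map_one _).symm⟩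

/-- `x` trivialises the cocycle in the Clifford algebra. -/
def CocC (s : Splitting R l d S) (e : E →ₐ[R] S) (x : s.C) : Prop :=
  ∀ (T : Type u) [CommRing T] [Algebra R T] (s' : Splitting R l d T) (a b : S →ₐ[R] T),
    (τ.gam s' (a.comp e) (b.comp e)).val.val * s.trC s' a x = s.trC s' b x

theorem exists_lift [IsLocalRing R] [IsLocalRing S] [Module.FaithfullyFlat R S]
    (s : Splitting R l d S) (e : E →ₐ[R] S) {h : Matrix (Fin d) (Fin d) S} (hh : τ.Coc s e h)
    {y : s.C} {ν : S} (hy : s.Gd y h ν) :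
    ∃ (x : s.C) (c : R), IsUnit c ∧ s.Gd x h (algebraMap R S c) ∧ τ.CocC s e x := by
  have := isLocalHom_of_faithfullyFlat (R := R) (S := S)
  have hex : ∀ (T : Type u) [CommRing T] [Algebra R T] (a b : S →ₐ[R] T), ∃ c : T,
      ∀ s' : Splitting R l d T,
        (τ.gam s' (a.comp e) (b.comp e)).val.val * s.trC s' a y = c • s.trC s' b y := by
    intro T _ _ a b
    have h1 := (τ.gd (s.map a) (a.comp e) (b.comp e)).mul (hy.trC (s.map a) a)
    rw [hh] at h1
    obtain ⟨c, -, hc⟩ := h1.exists_smul (hy.trC (s.map a) b)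
    refine ⟨c, fun s' => ?_⟩
    have h2 := congrArg ((s.map a).trC s' (AlgHom.id R T)) hc
    rwa [trC_mul (τ.gam_even _ _ _) (trC_even hy.even), trC_smul _ (trC_even hy.even), τ.gam_map,
      trC_trC hy.even, trC_trC hy.even] at h2
  choose c hcs using hex
  obtain ⟨t, ht, hcs'⟩ := h90_one (R := R) (S := S) c
    (fun T T' _ _ _ _ f a b => by
      have h1 := congrArg ((s.map a).trC (s.map (f.comp a)) f) (hcs T a b (s.map a))
      rw [trC_mul (τ.gam_even _ _ _) (trC_even hy.even), trC_smul _ (trC_even hy.even), τ.gam_map,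
        trC_trC hy.even, trC_trC hy.even] at h1
      exact cl_smul_cancel (hy.trC _ _).isUnit (h1.symm.trans (hcs T' (f.comp a) (f.comp b) _)))
    (fun T _ _ a => by
      have h1 := hcs T a a (s.map a)
      rw [τ.gam_self] at h1
      refine cl_smul_cancel (hy.trC (s.map a) a).isUnit ?_
      rw [← h1, one_smul]; exact one_mul _)
    (fun T _ _ a b b' => by
      refine cl_smul_cancel (hy.trC (s.map a) b').isUnit ?_
      rw [← hcs T a b', ← τ.gam_mul' _ (a.comp e) (b.comp e) (b'.comp e), mul_comm, mul_smul,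
        ← hcs T b b', ← mul_smul_comm, ← hcs T a b, ← mul_assoc])
  have hrel : τ.CocC s e (t • y) := by
    intro T _ _ s' a b
    rw [trC_smul _ hy.even, trC_smul _ hy.even, mul_smul_comm, hcs, smul_smul, mul_comm, hcs']
  obtain ⟨c0, hc0⟩ := desc_base (R := R) (t ^ 2 * ν) (by
    intro T _ _ a b
    have h1 := (τ.gd (s.map a) (a.comp e) (b.comp e)).mul ((hy.smul ht).trC (s.map a) a)
    rw [hrel, one_mul] at h1
    exact h1.norm_eq ((hy.smul ht).trC (s.map a) b))
  exact ⟨t • y, c0, IsUnit.of_map (algebraMap R S) _ (hc0 ▸ (hy.smul ht).unit), hc0 ▸ hy.smul ht,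
    hrel⟩

theorem nonempty_of_cocC [Module.FaithfullyFlat R S] (s : Splitting R l d S) (e : E →ₐ[R] S)
    {y : s.C} {m : Matrix (Fin d) (Fin d) S} (hy : s.Gd y m 1) (hc : τ.CocC s e y) :
    Nonempty (E →ₐ[R] R) := by
  let k : Spin s.Q S :=
    ⟨hy.isUnit.unit, mem_spin hy.det hy.even (hy.norm.trans (map_one _)) hy.ind⟩
  have hpt : ∀ (T : Type u) [CommRing T] [Algebra R T] (a b : S →ₐ[R] T),
      a.comp (τ.act S s k⁻¹ e) = b.comp (τ.act S s k⁻¹ e) := by
    intro T _ _ a b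
    obtain ⟨ka, hka⟩ := exists_spin_trC (s.map a) a k⁻¹
    obtain ⟨kb, hkb⟩ := exists_spin_trC (s.map a) b k⁻¹
    have hinv : (k⁻¹).val.val * y = 1 := hy.isUnit.val_inv_mul
    have hk : kb * τ.gam (s.map a) (a.comp e) (b.comp e) = ka := by
      apply Subtype.ext
      apply Units.ext
      apply (hy.trC (s.map a) a).isUnit.mul_right_cancel
      change kb.val.val * (τ.gam (s.map a) (a.comp e) (b.comp e)).val.val * _ = _
      rw [mul_assoc, hc, hka, hkb, ← trC_mul (k⁻¹).2.1 hy.even, ← trC_mul (k⁻¹).2.1 hy.even, hinv,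
        trC_one, trC_one]
    rw [τ.nat s _ a _ ka e hka, τ.nat s _ b _ kb e hkb, ← hk, τ.act_mul, τ.act_gam]
  exact exists_algHom_of_eq (τ.act S s k⁻¹ e) fun z =>
    DFunLike.congr_fun (hpt (S ⊗[R] S) Algebra.TensorProduct.includeLeft
      Algebra.TensorProduct.includeRight) z

end PAct

/-- Reduction of the triviality of a generically trivial torsor to forms and spinor norms. -/
theorem pair_reduction [IsLocalRing R] [Module.Free R A] [Module.Finite R A]
    (hA : IsQuadPair R l d) (K : Type u) [Field K] [Algebra R K]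
    {B : Type u} [Ring B] [StarRing B] [Algebra R B] [Algebra K B] [IsScalarTower R K B]
    (i : A →ₐ[R] B) (hi : GenB K i)
    (HA : ∀ θ : A, IsUnit (θ + star θ) → (∃ x : B, IsUnit x ∧ Alt (star x * i l * x - i θ)) →
      ∃ x : A, IsUnit x ∧ Alt (star x * l * x - θ))
    (HW : ∀ g : B, Iso (i l) g → ∃ c : K, SNw l d i g c)
    (HB : ∀ c : R, IsUnit c → (∃ g : B, SNw l d i g (algebraMap R K c)) →
      ∃ g : A, SNw l d (AlgHom.id R A) g c)
    (hE : IsPairTorsor R l d E) (hK : Nonempty (E →ₐ[R] K)) : Nonempty (E →ₐ[R] R) := by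
  obtain ⟨hs, hl, S0, _, _, hS0, ⟨s0⟩⟩ := hA
  obtain ⟨τ⟩ := hE.nonempty_pAct
  obtain ⟨eK⟩ := hK
  have hEf := hE.1
  have : Module.FaithfullyFlat R (E ⊗[R] S0) := Module.FaithfullyFlat.trans R E (E ⊗[R] S0)
  obtain ⟨S, _, _, _, hff, hinf, ⟨p⟩⟩ := exists_local_cover R (E ⊗[R] S0)
  let e : E →ₐ[R] S := p.comp Algebra.TensorProduct.includeLeft
  let s : Splitting R l d S := s0.map (p.comp Algebra.TensorProduct.includeRight)
  obtain ⟨h, hh, hc⟩ := τ.exists_frame s e hs hl hi HA eK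
  obtain ⟨Z, hZ⟩ := s.exists_zed hs
  have hnt : Nontrivial (K ⊗[R] S) := inferInstance
  set j : K →ₐ[R] K ⊗[R] S := Algebra.TensorProduct.includeLeft with hj
  set r : S →ₐ[R] K ⊗[R] S := Algebra.TensorProduct.includeRight with hr
  have hjinj : Function.Injective j := RingHom.injective j.toRingHom
  obtain ⟨σ, hσ⟩ := exists_isExt hi.bc (s.map r) j
  obtain ⟨g0, hg0⟩ := hh.descK hi.bc hσ eK
  have hiso : Iso (i l) g0 := by
    refine hσ.alt hi (hσ.injective hi.bc hjinj) hZ ?_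
    have h1 : Carries (σ g0) (s.map r).Q (s.map r).Q := by
      rw [hg0, tr_map]
      exact (hc.map r.toRingHom).mul (τ.gmat_carries _ _ _)
    simpa only [map_sub, map_mul, hσ.map_star hi, hσ.eq] using (s.map r).carries_iff.1 h1
  obtain ⟨-, ρ0, _, _, hρ0, Y0, Yi0, C0, -, n0, W0, hn0, -⟩ := HW g0 hiso
  have G0 := hσ.gd hi W0 hρ0 hn0
  obtain ⟨L, hL, hp⟩ := cartan_dieudonne s.unim' hc
  have hyi : Ind s.Q (vprod s.Q L) h := hp ▸ vprod_ind L hL
  have hLe : Even L.length := by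
    by_contra hodd
    have h3 := vprod_mem_evenOdd (Q := s.Q) L
    rw [(ZMod.natCast_eq_one_iff_odd).2 (Nat.not_even_iff_odd.1 hodd)] at h3
    obtain ⟨Ψ, hΨ⟩ := (s.isHom_map r).exists_sem
    have h1 := (τ.gmat_ind (s.map r) (r.comp e) (j.comp eK)).mul (hΨ.ind (s.isHom_map r) hyi)
    rw [← hg0] at h1
    obtain ⟨c', hc'⟩ := Ind.exists_smul (s.map r).unim G0.det G0.isUnit h1 G0.ind
    have h4 := SetLike.mul_mem_graded
      (show _ ∈ evenOdd (s.map r).q 0 from τ.gam_even (s.map r) (r.comp e) (j.comp eK)) (hΨ.odd h3)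
    rw [zero_add] at h4
    have h5 : c' • hσ.nl hi W0 ∈ evenOdd (s.map r).q 0 := Submodule.smul_mem _ _ G0.even
    have h6 := (Submodule.disjoint_def.1 (evenOdd_isCompl _).disjoint) _ (hc' ▸ h5) h4
    have h7 := (Units.isUnit (τ.gam (s.map r) (r.comp e) (j.comp eK)).val).mul
      ((isUnit_vprod L hL).map Ψ)
    have : Nontrivial (s.map r).C := (cl_algebraMap_injective (Q := (s.map r).Q)).nontrivial
    rw [h6] at h7
    exact not_isUnit_zero h7
  have hy : s.Gd (vprod s.Q L) h _ :=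
    ⟨by
      have h1 := vprod_mem_evenOdd (Q := s.Q) L
      rwa [(ZMod.natCast_eq_zero_iff_even).2 hLe] at h1, hyi, hc.isUnit_det s.unim,
      isUnit_list_prod hL, reverse_vprod_mul L, vprod_mul_reverse L⟩
  obtain ⟨x, c, hcu, hx, hrel⟩ := τ.exists_lift s e hh hy
  have G1 := (τ.gd (s.map r) (r.comp e) (j.comp eK)).mul (hx.trC (s.map r) r)
  rw [← hg0] at G1
  obtain ⟨ν, hν, hxν⟩ := G1.exists_smul G0
  obtain ⟨k, hk⟩ := desc_field ν (fun T _ _ a b hab => by
    have ha := hσ.tr ((s.map r).map a) a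
    have e1 : ∀ (b : K ⊗[R] S →ₐ[R] T), a.comp j = b.comp j → b ν • ha.nl hi W0 =
        (τ.gam _ ((b.comp r).comp e) ((b.comp j).comp eK)).val.val *
          s.trC ((s.map r).map a) (b.comp r) x := by
      intro b hab
      have h2 := congrArg ((s.map r).trC ((s.map r).map a) b) hxν
      rw [trC_mul (τ.gam_even _ _ _) (trC_even hx.even), trC_smul _ G0.even, τ.gam_map,
        trC_trC hx.even, hσ.trC_nl hi W0 hρ0 (hab ▸ ha)] at h2
      exact h2.symm
    refine cl_smul_cancel (ha.isUnit_nl hi W0 hρ0) ?_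
    rw [e1 a rfl, e1 b hab, ← hrel T _ (a.comp r) (b.comp r), ← mul_assoc, τ.gam_mul', hab])
  have hN : algebraMap R K c = k ^ 2 * n0 := by
    apply hjinj
    have h2 := G1.norm_eq (hxν ▸ G0.smul hν)
    rw [one_mul, AlgHom.commutes] at h2
    rw [AlgHom.commutes, h2, map_mul, map_pow, hk]
  obtain ⟨g, ρ, _, _, hρ, Y, Yi, C, v, n, W, hn, hcv⟩ :=
    HB c hcu ⟨g0, ρ0, inferInstance, inferInstance, hρ0, Y0, Yi0, C0, k, n0, W0, hn0, hN⟩
  have hv : IsUnit v := (isUnit_pow_iff two_ne_zero).1 (isUnit_of_mul_isUnit_left (hcv ▸ hcu))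
  have G2 := s.isExt_φ.gd (genB_id hs) W hρ hn
  obtain ⟨cu, rfl⟩ := hcu
  have G3 := (hx.mul G2).smul (((Units.isUnit cu⁻¹).mul hv).map (algebraMap R S))
  have e3 : algebraMap R S (↑cu⁻¹ * v) ^ 2 * (algebraMap R S ↑cu * Algebra.ofId R S n) = 1 := by
    rw [Algebra.ofId_apply, ← map_pow, ← map_mul, ← map_mul, show (↑cu⁻¹ * v) ^ 2 * (↑cu * n) =
      (↑cu⁻¹ * ↑cu) * (↑cu⁻¹ * (v ^ 2 * n)) by ring, ← hcv, Units.inv_mul, one_mul, map_one]
  refine τ.nonempty_of_cocC s e (e3 ▸ G3) fun T _ _ s' a b => ?_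
  have e4 : ∀ a : S →ₐ[R] T, s.trC s' a (s.isExt_φ.nl (genB_id hs) W) =
      s'.isExt_φ.nl (genB_id hs) W := fun a =>
    s.isExt_φ.trC_nl (genB_id hs) W hρ
      (Subsingleton.elim (Algebra.ofId R T) (a.comp (Algebra.ofId R S)) ▸ s'.isExt_φ)
  rw [trC_smul _ (hx.mul G2).even, trC_smul _ (hx.mul G2).even, trC_mul hx.even G2.even,
    trC_mul hx.even G2.even, e4, e4, AlgHom.commutes, AlgHom.commutes, mul_smul_comm, ← mul_assoc,
    hrel]

end Pool.Agent.GSD
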