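import Pool.Agent.P.MP_c1f06d_ag.d.DCore
import Pool.Agent.P.MP_c1f06d_ag.d.DBrid
import Pool.Agent.P.MP_c1f06d_ag.d.TMain
import Pool.Agent.P.MP_c1f06d_ag.Main

open Matrix Module Pool.Agent.SU Pool.Agent.P.MP_c1f06d_ag

universe u

namespace Pool.Agent.GSD

theorem pair_main (V : Type u) [CommRing V] [IsDomain V] [ValuationRing V]
    (C : Type u) [CommRing C] [Algebra V C] [Algebra.Smooth V C] (p : Ideal C) [p.IsPrime]
    (R : Type u) [CommRing R] [Algebra C R] [IsLocalization.AtPrime R p]
    (A : Type u) [Ring A] [StarRing A] [Algebra R A] [IsAzumaya R A] (l : A)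
    (n : ℕ) (hn : 3 ≤ n) (hA : IsQuadPair R l (2 * n))
    (E : Type u) [CommRing E] [Algebra R E] (hE : IsPairTorsor R l (2 * n) E)
    (hK : Nonempty (E →ₐ[R] FractionRing R)) : Nonempty (E →ₐ[R] R) := by
  have : IsLocalRing R := IsLocalization.AtPrime.isLocalRing R p
  have : IsDomain R := isDomain_of_smooth V C p R
  have : Module.Free R A := Module.free_of_flat_of_isLocalRing
  have h : QAz R (2 * n) l := hA.qaz
  have := h.starFix
  have := hE.1
  have hev : Even (2 * n) := even_two_mul n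
  have h5 : 5 ≤ 2 * n := by omega
  by_cases hs : IsSplit R (2 * n) l
  · obtain ⟨φ, Q, hQ⟩ := hs
    obtain ⟨s, -, -⟩ := QSpl.splitting (T := R) (S := R) hQ
    obtain ⟨τ⟩ := (hE.isSpinTorsor s).nonempty_spinAction
    exact spin_main V C p R (FractionRing R) _ h5 s.Q ((isUnit_iff_isUnit_det _).1 s.regular) E τ hK
  cases finite_or_infinite (FractionRing R) with
  | inl hf =>
    have : Finite R := Finite.of_injective _ (IsFractionRing.injective R (FractionRing R))
    have hb : Function.Bijective (algebraMap R (FractionRing R)) :=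
      ⟨IsFractionRing.injective R _,
        IsFractionRing.surjective_iff_isField.2 (Finite.isField_of_domain R)⟩
    obtain ⟨e⟩ := hK
    exact ⟨(AlgEquiv.ofBijective (Algebra.ofId R (FractionRing R)) hb).symm.toAlgHom.comp e⟩
  | inr hi =>
    obtain ⟨B, _, _, _, _, j, hj⟩ := exists_sbc (A := A) (algebraMap R (FractionRing R))
    let _ : Algebra R B := ((algebraMap (FractionRing R) B).comp
      (algebraMap R (FractionRing R))).toAlgebra' fun c x => Algebra.commutes _ x
    have : IsScalarTower R (FractionRing R) B := IsScalarTower.of_algebraMap_eq fun _ => rfl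
    let i : A →ₐ[R] B := ⟨j, hj.alg⟩
    have hi : SBC (algebraMap R (FractionRing R)) (i : A →+* B) := hj
    have hK1 := h.map hj
    have hp : ∀ g : B, Iso (j l) g → ∃ y1 y2 : Bˣ, La (j l) y1 ∧ La (j l) y2 ∧
        SN (FractionRing R) (j l) g
          (nrd (FractionRing R) (y1 : B) * nrd (FractionRing R) (y2 : B)) := fun g hg => by
      obtain ⟨y1, y2, h1, h2, rfl⟩ := isPair_of_no_r1 hK1 (fun v hv => by
        by_contra h0
        exact hs (coreC V C p h (by omega) hj h0 hv)) hg
      exact ⟨y1, y2, h1, h2, sn_gl hK1 h1 h2⟩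
    have := h.az.finite
    refine pair_reduction hA (FractionRing R) i hi.genB (fun th hth ⟨x, _, hx⟩ => ?_)
      (fun g hg => ?_) (fun c hc ⟨g, hg⟩ => ?_) hE hK
    · obtain ⟨y, hy⟩ := coreA V C p h (by omega) hj hth ⟨x, hx⟩
      exact ⟨y, isUnit_of_formIso (T := R) h.add_star hth hy, hy⟩
    · obtain ⟨y1, y2, -, -, h3⟩ := hp g hg
      exact ⟨_, SN.snw h hi h3⟩
    · have hc' := hc.map (algebraMap R (FractionRing R))
      have h1 := SNw.sn h hi hc' hg
      obtain ⟨y1, y2, e1, e2, h3⟩ := hp g (h1.iso hK1).1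
      obtain ⟨s, hs'⟩ := h1.ratio hK1 h3
      obtain ⟨v, hv⟩ := (h3.isUnit hK1).exists_right_inv
      obtain ⟨g0, h0⟩ := coreB V C p h hev h5 hj hc ⟨y1, y2, s * v, _, _, e1, e2,
        hK1.az.isNrd _, hK1.az.isNrd _, by
          linear_combination (exp := 1) (v ^ 2 * (nrd (FractionRing R) (y1 : B) *
            nrd (FractionRing R) (y2 : B))) * hs' - (algebraMap R (FractionRing R) c *
            (1 + nrd (FractionRing R) (y1 : B) * nrd (FractionRing R) (y2 : B) * v)) * hv⟩
      exact ⟨g0, SN.snw (i := AlgHom.id R A) h SBC.refl h0⟩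

end Pool.Agent.GSD
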