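import Pool.Agent.P.MP_c1f06d_ag.d.ValD

namespace Pool.Agent.GSD

open Pool.Agent.SU IsLocalRing Matrix TensorProduct

section
variable {O S P P' Q Q' : Type*} [CommRing O] [CommRing S] [Algebra O S]
  [AddCommGroup P] [Module O P] [AddCommGroup P'] [Module O P'] [Module S P']
  [IsScalarTower O S P'] [AddCommGroup Q] [Module O Q] [AddCommGroup Q'] [Module O Q']
  [Module S Q'] [IsScalarTower O S Q']

/-- Membership in a submodule descends. -/
theorem s1_desc [Module.FaithfullyFlat O S] {j : Q →ₗ[O] Q'} (hj : IsBaseChange S j)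
    (N : Submodule O Q) {q : Q} (h : j q ∈ Submodule.span S (j '' (N : Set Q))) : q ∈ N := by
  let g : Q' →ₗ[S] S ⊗[O] (Q ⧸ N) := hj.lift ((TensorProduct.mk O S (Q ⧸ N) 1).comp N.mkQ)
  have hg : ∀ x, g (j x) = 1 ⊗ₜ N.mkQ x := fun x => hj.lift_eq _ x
  have h0 : Submodule.span S (j '' (N : Set Q)) ≤ LinearMap.ker g := by
    rw [Submodule.span_le]
    rintro _ ⟨x, hx, rfl⟩
    rw [SetLike.mem_coe, LinearMap.mem_ker, hg, N.mkQ_apply,
      (Submodule.Quotient.mk_eq_zero N).2 hx, tmul_zero]
  have h1 := h0 h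
  rw [LinearMap.mem_ker, hg, Module.FaithfullyFlat.one_tmul_eq_zero_iff] at h1
  exact (Submodule.Quotient.mk_eq_zero N).1 h1

/-- Solvability of a linear system descends. -/
theorem s1_solve [Module.FaithfullyFlat O S] {i : P →ₗ[O] P'} (hi : IsBaseChange S i)
    {j : Q →ₗ[O] Q'} (hj : IsBaseChange S j) (f : P →ₗ[O] Q) (f' : P' →ₗ[S] Q')
    (hf : ∀ x, f' (i x) = j (f x)) {q : Q} {x' : P'} (h : f' x' = j q) : ∃ x, f x = q := by
  have h1 : ∀ y, f' y ∈ Submodule.span S (j '' (LinearMap.range f : Set Q)) := by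
    intro y
    induction y using hi.inductionOn with
    | zero => rw [map_zero]; exact zero_mem _
    | tmul x => rw [hf]; exact Submodule.subset_span ⟨f x, ⟨x, rfl⟩, rfl⟩
    | smul s y hy => rw [map_smul]; exact Submodule.smul_mem _ _ hy
    | add y z hy hz => rw [map_add]; exact add_mem hy hz
  exact s1_desc hj (LinearMap.range f) (h ▸ h1 x')

end

/-- The linear system of a separability element. -/
def s1_sys (R : Type*) {B ι : Type*} [CommRing R] [Ring B] [Algebra R B] [Fintype ι]
    (β : ι → B) (c : ι → ι → ι → R) : (ι → B) →ₗ[R] (Option (ι × ι) → B) where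
  toFun x o := o.elim (∑ i, x i * β i) fun k => β k.1 * x k.2 - ∑ i, c k.1 i k.2 • x i
  map_add' x y := by
    funext o
    cases o with
    | none => simp [add_mul, Finset.sum_add_distrib]
    | some k => simp only [Option.elim, Pi.add_apply, mul_add, smul_add, Finset.sum_add_distrib]; abel
  map_smul' r x := by
    funext o
    cases o with
    | none => simp [Finset.smul_sum]
    | some k =>
      simp only [Option.elim, Pi.smul_apply, RingHom.id_apply, mul_smul_comm, smul_sub,
        Finset.smul_sum, smul_comm r]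

theorem s1_matrix_sep {S d ι : Type*} [CommRing S] [Fintype d] [DecidableEq d] [Fintype ι]
    (β : Module.Basis ι S (Matrix d d S)) : ∃ X : ι → Matrix d d S, ∑ i, X i * β i = 1 ∧
      ∀ (Z : Matrix d d S) (j : ι), Z * X j = ∑ i, β.repr (β i * Z) j • X i := by
  rcases isEmpty_or_nonempty d with hd | ⟨⟨o⟩⟩
  · exact ⟨0, Subsingleton.elim _ _, fun _ _ => Subsingleton.elim _ _⟩
  refine ⟨fun i => ∑ t, β.repr (single o t 1) i • single t o 1, ?_, fun Z j => ?_⟩
  · simp only [Finset.sum_mul, smul_mul_assoc]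
    rw [Finset.sum_comm]
    have h1 : ∀ t, ∑ i, β.repr (single o t 1) i • (single t o (1 : S) * β i) = single t t 1 := by
      intro t
      simp only [← mul_smul_comm]
      rw [← Finset.mul_sum, β.sum_repr, single_mul_single_same, one_mul]
    rw [Finset.sum_congr rfl fun t _ => h1 t]
    ext a b
    simp [Matrix.sum_apply, single_apply, Matrix.one_apply, ite_and, eq_comm]
  · have h1 : ∀ t, ∑ i, β.repr (β i * Z) j * β.repr (single o t 1) i =
        ∑ u, Z t u * β.repr (single o u 1) j := by
      intro t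
      have h2 : single o t (1 : S) * Z = ∑ u, Z t u • single o u 1 := by
        ext a b
        by_cases ha : o = a
        · subst ha
          simp [Matrix.sum_apply, single_apply]
        · simp [Matrix.sum_apply, ha, Matrix.mul_apply]
      have h3 := congrArg (fun W => β.repr W j) h2
      conv_lhs at h3 => rw [← β.sum_repr (single o t 1)]
      simp only [Finset.sum_mul, smul_mul_assoc, map_sum, map_smul, Finsupp.finsetSum_apply,
        Finsupp.smul_apply, smul_eq_mul] at h3
      rw [← h3]
      exact Finset.sum_congr rfl fun i _ => mul_comm _ _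
    simp only [Finset.smul_sum, smul_smul]
    rw [Finset.sum_comm]
    simp only [← Finset.sum_smul, h1]
    ext a b
    by_cases hb : o = b
    · subst hb
      simp [Matrix.sum_apply, single_apply, Matrix.mul_apply, mul_comm]
    · simp [Matrix.sum_apply, hb, Matrix.mul_apply]

theorem s1_alt {S d : Type*} [CommRing S] [Fintype d] {W : Matrix d d S} (h1 : ∀ i, W i i = 0)
    (h2 : ∀ i j, W i j + W j i = 0) : ∃ Y : Matrix d d S, W = Y - Yᵀ := by
  classical
  let e := Fintype.equivFin d
  refine ⟨of fun i j => if e i < e j then W i j else 0, ?_⟩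
  ext i j
  simp only [Matrix.sub_apply, of_apply, transpose_apply]
  rcases lt_trichotomy (e i) (e j) with h | h | h
  · rw [if_pos h, if_neg h.not_gt, sub_zero]
  · rw [e.injective h, h1, sub_self]
  · rw [if_neg h.not_gt, if_pos h, zero_sub]
    exact eq_neg_of_add_eq_zero_left (h2 i j)

theorem s1_det_rank_one {F d : Type*} [Field F] [Fintype d] [DecidableEq d] {E : Matrix d d F}
    (hE : E * E = E) {i0 k0 : d} (h0 : E i0 k0 ≠ 0)
    (hm : ∀ i j k l, E i k * E j l = E j k * E i l) :
    (1 - E.map Polynomial.C + (Polynomial.X : Polynomial F) • E.map Polynomial.C).det =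
      Polynomial.X := by
  have h1 : ∀ j l, E j l = E j k0 * (E i0 l / E i0 k0) := by
    intro j l
    rw [← mul_div_assoc, ← hm, mul_div_cancel_left₀ _ h0]
  have h2 : ∑ j, E i0 j / E i0 k0 * E j k0 = 1 := by
    have := congrFun (congrFun hE i0) k0
    rw [Matrix.mul_apply] at this
    simp only [div_mul_eq_mul_div]
    rw [← Finset.sum_div, this, div_self h0]
  have h3 : 1 - E.map Polynomial.C + (Polynomial.X : Polynomial F) • E.map Polynomial.C =
      1 + replicateCol Unit (fun j => (Polynomial.X - 1) * Polynomial.C (E j k0)) *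
        replicateRow Unit (fun l => Polynomial.C (E i0 l / E i0 k0)) := by
    ext1 j l
    simp only [Matrix.add_apply, Matrix.sub_apply, Matrix.map_apply, Matrix.smul_apply, Matrix.mul_apply, replicateCol_apply,
      replicateRow_apply, Finset.univ_unique, Finset.sum_singleton, smul_eq_mul]
    rw [mul_assoc, ← map_mul, ← h1]
    ring
  rw [h3, det_one_add_replicateCol_mul_replicateRow, dotProduct]
  have h4 : ∀ j, Polynomial.C (E i0 j / E i0 k0) * ((Polynomial.X - 1) * Polynomial.C (E j k0)) =
      (Polynomial.X - 1) * Polynomial.C (E i0 j / E i0 k0 * E j k0) := fun j => by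
    rw [map_mul]; ring
  rw [Finset.sum_congr rfl fun j _ => h4 j, ← Finset.mul_sum, ← map_sum, h2, map_one]
  ring

theorem s1_det_add {S d : Type*} [CommRing S] [Fintype d] [DecidableEq d] (X Y : Matrix d d S)
    (c : S) : ∃ s, (X + c • Y).det = X.det + c * s := by
  have h : Ideal.Quotient.mk (Ideal.span {c}) (X + c • Y).det =
      Ideal.Quotient.mk (Ideal.span {c}) X.det := by
    rw [RingHom.map_det, RingHom.map_det]
    congr 1
    ext i j
    simp only [RingHom.mapMatrix_apply, Matrix.map_apply, Matrix.add_apply, Matrix.smul_apply, smul_eq_mul, map_add,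
      map_mul]
    rw [Ideal.Quotient.eq_zero_iff_mem.2 (Ideal.mem_span_singleton_self c), zero_mul, add_zero]
  obtain ⟨s, hs⟩ := Ideal.mem_span_singleton.1 (Ideal.Quotient.eq.1 h)
  exact ⟨s, by rw [← hs]; ring⟩

section
variable {O A S d : Type*} [CommRing O] [Ring A] [Algebra O A] [CommRing S] [Algebra O S]
  [Fintype d] [DecidableEq d] {φ : A →ₐ[O] Matrix d d S}

theorem s1_avg [Module.Finite O A] [Module.Free O A] [Module.FaithfullyFlat O S] [Nontrivial O]
    (h : IsBaseChange S φ.toLinearMap) : Avg O A := by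
  classical
  let β := Module.finBasis O A
  obtain ⟨X, hX1, hX2⟩ := s1_matrix_sep (h.basis β)
  have hb : ∀ i, h.basis β i = φ (β i) := fun i => h.basis_apply β i
  have hc : ∀ k i j, (h.basis β).repr (φ (β i) * φ (β k)) j =
      algebraMap O S (β.repr (β i * β k) j) := fun k i j => by
    rw [← map_mul]; exact h.basis_repr_comp_apply β _ j
  obtain ⟨x, hx⟩ := s1_solve (h.finitePow _) (h.finitePow _)
    (s1_sys O β fun k i j => β.repr (β i * β k) j)
    (s1_sys S (fun i => φ (β i)) fun k i j => algebraMap O S (β.repr (β i * β k) j))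
    (fun x => by
      funext o
      cases o with
      | none => simp [s1_sys]
      | some k => simp [s1_sys])
    (q := fun o => o.elim 1 fun _ => 0) (x' := X) (by
      funext o
      cases o with
      | none => simpa [s1_sys, hb] using hX1
      | some k =>
        have := hX2 (φ (β k.1)) k.2
        simp only [hb, hc] at this
        simpa [s1_sys, sub_eq_zero] using this)
  have h1 : ∑ i, x i * β i = 1 := congrFun hx none
  have h2 : ∀ k j, β k * x j = ∑ i, β.repr (β i * β k) j • x i := fun k j =>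
    sub_eq_zero.1 (congrFun hx (some (k, j)))
  refine ⟨_, x, β, h1, fun p a => ?_⟩
  have h3 : ∀ k, β k * ∑ i, x i * p (β i) = ∑ i, x i * p (β i * β k) := by
    intro k
    rw [Finset.mul_sum]
    simp only [← mul_assoc, h2, Finset.sum_mul]
    rw [Finset.sum_comm]
    refine Finset.sum_congr rfl fun i _ => ?_
    conv_rhs => rw [← β.sum_repr (β i * β k), map_sum, Finset.mul_sum]
    simp only [map_smul, smul_mul_assoc, mul_smul_comm]
  rw [← β.sum_repr a, Finset.sum_mul]
  simp only [smul_mul_assoc, h3]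
  simp only [Finset.mul_sum, map_sum, mul_smul_comm, map_smul, Finset.smul_sum]
  exact Finset.sum_comm

theorem s1_entry {I : Ideal O} {x : A} (hx : x ∈ extI A I) (i j : d) :
    φ x i j ∈ I.map (algebraMap O S) :=
  extI_induction (p := fun x => φ x i j ∈ I.map (algebraMap O S)) (by simp)
    (fun t ht a => by
      rw [map_smul, Matrix.smul_apply, Algebra.smul_def]
      exact Ideal.mul_mem_right _ _ (Ideal.mem_map_of_mem _ ht))
    (fun a b ha hb => by rw [map_add, Matrix.add_apply]; exact add_mem ha hb) hx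

theorem s1_unimod [IsLocalRing O] [Module.Finite O A] [Module.Free O A]
    (h : IsBaseChange S φ.toLinearMap) {a : A} (ha : qm (maximalIdeal O) a ≠ 0) (J : Ideal S)
    (hJ : ∀ i j, φ a i j ∈ J) : J = ⊤ := by
  let β := Module.finBasis O A
  obtain ⟨k, hk⟩ : ∃ k, β.repr a k ∉ maximalIdeal O := by
    by_contra hc
    push Not at hc
    apply ha
    rw [← β.sum_repr a, map_sum]
    exact Finset.sum_eq_zero fun k _ => qm_smul (hc k) _
  have hu : IsUnit (algebraMap O S (β.repr a k)) := (notMem_maximalIdeal.1 hk).map _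
  refine J.eq_top_of_isUnit_mem ?_ hu
  rw [← h.basis_repr_comp_apply β a k]
  change (h.basis β).repr (φ a) k ∈ J
  rw [matrix_eq_sum_single (φ a)]
  simp only [map_sum, Finsupp.finsetSum_apply]
  refine J.sum_mem fun i _ => J.sum_mem fun j _ => ?_
  rw [← mul_one (φ a i j), ← smul_eq_mul, ← smul_single, map_smul, Finsupp.smul_apply, smul_eq_mul]
  exact J.mul_mem_right _ (hJ i j)

theorem s1_ne_top [IsLocalRing O] [Module.FaithfullyFlat O S] :
    (maximalIdeal O).map (algebraMap O S) ≠ ⊤ := fun h => by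
  have := (maximalIdeal O).comap_map_eq_self_of_faithfullyFlat (B := S)
  rw [h, Ideal.comap_top] at this
  exact (maximalIdeal.isMaximal O).ne_top this.symm

theorem s1_isUnit [Module.FaithfullyFlat O S] {r : O} (h : IsUnit (algebraMap O S r)) :
    IsUnit r := by
  have := (Ideal.span {r}).comap_map_eq_self_of_faithfullyFlat (B := S)
  rw [Ideal.map_span, Set.image_singleton, Ideal.span_singleton_eq_top.2 h, Ideal.comap_top] at this
  exact Ideal.span_singleton_eq_top.1 this.symm

theorem s1_unit [Module.FaithfullyFlat O S] {nrd : A → O}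
    (hn : ∀ a, algebraMap O S (nrd a) = (φ a).det) (a : A) (ha : IsUnit a) : IsUnit (nrd a) :=
  s1_isUnit (S := S) (by rw [hn]; exact (isUnit_iff_isUnit_det _).1 (ha.map φ))

theorem s1_prime [IsLocalRing O] [Module.Finite O A] [Module.Free O A] [Module.FaithfullyFlat O S]
    (h : IsBaseChange S φ.toLinearMap) (a b : QA A (maximalIdeal O)) (hab : ∀ c, a * c * b = 0) :
    a = 0 ∨ b = 0 := by
  obtain ⟨a, rfl⟩ := qm_surjective _ a
  obtain ⟨b, rfl⟩ := qm_surjective _ b
  by_contra hc
  push Not at hc
  have h1 : ∀ (Z : Matrix d d S) i j,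
      (φ a * Z * φ b) i j ∈ (maximalIdeal O).map (algebraMap O S) := by
    intro Z
    induction Z using h.inductionOn with
    | zero => simp
    | tmul c =>
      intro i j
      have := hab (qm _ c)
      rw [← map_mul, ← map_mul, Ideal.Quotient.eq_zero_iff_mem] at this
      have h2 := s1_entry (φ := φ) this i j
      rwa [map_mul, map_mul] at h2
    | smul s Z hZ =>
      intro i j
      rw [mul_smul_comm, smul_mul_assoc, Matrix.smul_apply, smul_eq_mul]
      exact Ideal.mul_mem_left _ _ (hZ i j)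
    | add Y Z hY hZ =>
      intro i j
      rw [mul_add, add_mul, Matrix.add_apply]
      exact add_mem (hY i j) (hZ i j)
  obtain ⟨q, hq, hle⟩ := Ideal.exists_le_maximal _ (s1_ne_top (O := O) (S := S))
  obtain ⟨i, j, hij⟩ : ∃ i j, φ a i j ∉ q := by
    by_contra h2
    push Not at h2
    exact hq.ne_top (s1_unimod h hc.1 q h2)
  refine hq.ne_top (s1_unimod h hc.2 q fun k l => ?_)
  have h3 := hle (h1 (single j k 1) i l)
  have h4 : (φ a * single j k 1 * φ b : Matrix d d S) i l = φ a i j * φ b k l := by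
    simp [Matrix.mul_apply, single_apply, ite_and]
  rw [h4] at h3
  exact (hq.isPrime.mem_or_mem h3).resolve_left hij

variable [StarRing A] {b : Matrix d d S}

theorem Spl.s1_sub (h : Spl φ b) (x : A) : b * φ (x - star x) = b * φ x - (b * φ x)ᵀ := by
  rw [map_sub, mul_sub, h.adj, transpose_mul, h.symm]

theorem Spl.s1_sat [IsDomain O] [StarFix O A] [Module.FaithfullyFlat O S] (h : Spl φ b) (c : O)
    (a : A) (hc : c ≠ 0) (ha : Alt (c • a)) : Alt a := by
  let f : A →ₗ[O] A :=
    { toFun := fun x => x - star x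
      map_add' := fun x y => by rw [star_add]; abel
      map_smul' := fun r x => by rw [star_smul_fix, smul_sub, RingHom.id_apply] }
  let f' : Matrix d d S →ₗ[S] Matrix d d S :=
    { toFun := fun Z => (↑h.unit.unit⁻¹ : Matrix d d S) * (b * Z - (b * Z)ᵀ)
      map_add' := fun x y => by rw [← mul_add, mul_add b, transpose_add]; congr 1; abel
      map_smul' := fun r x => by
        rw [mul_smul_comm, transpose_smul, ← smul_sub, mul_smul_comm, RingHom.id_apply] }
  obtain ⟨x, hx⟩ := ha
  have hreg : IsSMulRegular S c :=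
    Module.Flat.isSMulRegular_of_nonZeroDivisors (mem_nonZeroDivisors_of_ne_zero hc)
  have h1 : c • (b * φ a) = b * φ x - (b * φ x)ᵀ := by
    rw [← h.s1_sub, ← hx, map_smul, mul_smul_comm]
  obtain ⟨Y, hY⟩ := s1_alt (W := b * φ a)
    (fun i => hreg (by
      have := congrFun (congrFun h1 i) i
      simp only [Matrix.smul_apply, Matrix.sub_apply, transpose_apply, sub_self] at this
      simp only [smul_zero, this]))
    (fun i j => hreg (by
      have e1 := congrFun (congrFun h1 i) j
      have e2 := congrFun (congrFun h1 j) i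
      simp only [Matrix.smul_apply, Matrix.sub_apply, transpose_apply] at e1 e2
      simp only [smul_add, smul_zero, e1, e2]
      ring))
  obtain ⟨y, hy⟩ := s1_solve h.bc h.bc f f'
    (fun x => by
      change (↑h.unit.unit⁻¹ : Matrix d d S) * (b * φ x - (b * φ x)ᵀ) = φ (x - star x)
      rw [← h.s1_sub, ← mul_assoc, h.unit.val_inv_mul, one_mul])
    (q := a) (x' := (↑h.unit.unit⁻¹ : Matrix d d S) * Y) (by
      change (↑h.unit.unit⁻¹ : Matrix d d S) * (b * (_ * Y) - (b * (_ * Y))ᵀ) = φ a
      rw [← mul_assoc b, h.unit.mul_val_inv, one_mul, ← hY, ← mul_assoc, h.unit.val_inv_mul,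
        one_mul])
  exact ⟨y, hy.symm⟩

/-- The two by two minors of an element of rank one vanish modulo the maximal ideal. -/
theorem Spl.s1_minor [IsLocalRing O] [StarFix O A] (h : Spl φ b) {e : A}
    (he : R1 (qm (maximalIdeal O) e)) (i j k l : d) :
    φ e i k * φ e j l - φ e j k * φ e i l ∈ (maximalIdeal O).map (algebraMap O S) := by
  have h1 : ∀ (Z : Matrix d d S) k l, ((φ e)ᵀ * (b * Z - (b * Z)ᵀ) * φ e) k l ∈
      (maximalIdeal O).map (algebraMap O S) := by
    intro Z
    induction Z using h.bc.inductionOn with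
    | zero => simp
    | tmul c =>
      intro k l
      have := he (qm _ c)
      rw [← qm_star, ← qm_star, ← map_sub, ← map_mul, ← map_mul,
        Ideal.Quotient.eq_zero_iff_mem] at this
      have h2 : (φ e)ᵀ * (b * φ c - (b * φ c)ᵀ) * φ e = b * φ (star e * (c - star c) * e) := by
        rw [← h.s1_sub, map_mul, map_mul, ← mul_assoc, ← h.adj]
        simp only [mul_assoc]
      change ((φ e)ᵀ * (b * φ c - (b * φ c)ᵀ) * φ e) k l ∈ _
      rw [h2, Matrix.mul_apply]
      exact Ideal.sum_mem _ fun t _ => Ideal.mul_mem_left _ _ (s1_entry this t l)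
    | smul s Z hZ =>
      intro k l
      rw [mul_smul_comm, transpose_smul, ← smul_sub, mul_smul_comm, smul_mul_assoc, Matrix.smul_apply,
        smul_eq_mul]
      exact Ideal.mul_mem_left _ _ (hZ k l)
    | add Y Z hY hZ =>
      intro k l
      have h2 : b * (Y + Z) - (b * (Y + Z))ᵀ = (b * Y - (b * Y)ᵀ) + (b * Z - (b * Z)ᵀ) := by
        rw [mul_add, transpose_add]; abel
      rw [h2, mul_add, add_mul, Matrix.add_apply]
      exact add_mem (hY k l) (hZ k l)
  have h3 := h1 ((↑h.unit.unit⁻¹ : Matrix d d S) * single i j 1) k l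
  rw [← mul_assoc b, h.unit.mul_val_inv, one_mul, transpose_single, mul_sub, sub_mul,
    Matrix.sub_apply] at h3
  have h4 : ∀ i j, ((φ e)ᵀ * single i j 1 * φ e : Matrix d d S) k l = φ e i k * φ e j l := by
    intro i j
    simp [Matrix.mul_apply, single_apply, ite_and]
  rwa [h4, h4] at h3

theorem Spl.s1_nr1 [IsDomain O] [ValuationRing O] [StarFix O A] [Module.Finite O A]
    [Module.Free O A] [Module.FaithfullyFlat O S] (h : Spl φ b) {nrd : A → O}
    (hn : ∀ a, algebraMap O S (nrd a) = (φ a).det) (lam : O) (hm : lam ∈ maximalIdeal O)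
    (h0 : lam ≠ 0) (l T e : A) (hT : IsUnit T) (hee : Dv (lam ^ 2) (e * e - e))
    (he : qm (maximalIdeal O) e ≠ 0) (hr : R1 (qm (maximalIdeal O) e))
    (hl : Dv (lam ^ 2) (l - T * (lam • e + 1 - e))) : ∃ ε : O, IsUnit ε ∧ nrd l = lam * ε := by
  obtain ⟨q, hq, hle⟩ := Ideal.exists_le_maximal _ (s1_ne_top (O := O) (S := S))
  let := Ideal.Quotient.field q
  obtain ⟨L, hL⟩ : ∃ L, L = algebraMap O S lam := ⟨_, rfl⟩
  have hLq : L ∈ q := hL ▸ hle (Ideal.mem_map_of_mem _ hm)
  have hreg : IsSMulRegular S lam :=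
    Module.Flat.isSMulRegular_of_nonZeroDivisors (mem_nonZeroDivisors_of_ne_zero h0)
  have hcan : ∀ x y : S, L * x = L * y → x = y := fun x y hxy =>
    hreg (by simpa only [Algebra.smul_def, ← hL] using hxy)
  obtain ⟨y, hy⟩ := hee
  obtain ⟨z, hz⟩ := hl
  have hE : φ e * φ e = φ e + L ^ 2 • φ y := by
    rw [← map_mul, sub_eq_iff_eq_add'.1 hy, map_add, map_smul, hL, ← map_pow, algebraMap_smul]
  have hF : φ l = φ T * (1 - φ e + L • φ e) + L ^ 2 • φ z := by
    rw [sub_eq_iff_eq_add'.1 hz, map_add, map_smul, map_mul, map_sub, map_add, map_smul, map_one,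
      hL, ← map_pow, algebraMap_smul, algebraMap_smul]
    congr 2
    abel
  obtain ⟨P, hP⟩ : ∃ P : Polynomial S, P = (1 - (φ e).map Polynomial.C +
    (Polynomial.X : Polynomial S) • (φ e).map Polynomial.C).det := ⟨_, rfl⟩
  have hev : ∀ t : S, P.eval t = (1 - φ e + t • φ e).det := by
    intro t
    rw [hP, ← Polynomial.coe_evalRingHom, RingHom.map_det]
    congr 1
    ext i j
    simp [Matrix.one_apply, apply_ite (Polynomial.eval t), mul_comm t]
  obtain ⟨i0, k0, hik⟩ : ∃ i j, φ e i j ∉ q := by
    by_contra h2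
    push Not at h2
    exact hq.ne_top (s1_unimod h.bc he q h2)
  have hmap : P.map (Ideal.Quotient.mk q) = Polynomial.X := by
    rw [← s1_det_rank_one (E := (φ e).map (Ideal.Quotient.mk q)) (i0 := i0) (k0 := k0) ?_
      (fun h2 => hik (Ideal.Quotient.eq_zero_iff_mem.1 h2)) ?_, hP, ← Polynomial.coe_mapRingHom,
      RingHom.map_det]
    · congr 1
      ext1 i j
      simp [Matrix.one_apply, apply_ite (Polynomial.map (Ideal.Quotient.mk q))]
    · rw [← Matrix.map_mul, hE]
      ext i j
      simp [Ideal.Quotient.eq_zero_iff_mem.2 hLq]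
    · intro i j k l
      simp only [Matrix.map_apply, ← map_mul]
      exact Ideal.Quotient.eq.2 (hle (h.s1_minor hr i j k l))
  obtain ⟨s0, hs0⟩ : L ^ 2 ∣ P.coeff 0 := by
    have h2 : (Ideal.span {L ^ 2}).colon {P.coeff 0} = ⊤ := by
      refine s1_unimod h.bc he _ fun i j => ?_
      rw [Submodule.mem_colon_singleton, smul_eq_mul, Ideal.mem_span_singleton]
      have h3 : (1 - φ e).det • φ e = L ^ 2 • (-((1 - φ e).adjugate * φ y)) := by
        rw [← one_mul (φ e), ← smul_mul_assoc, one_mul, ← adjugate_mul, mul_assoc, sub_mul,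
          one_mul, hE, sub_add_cancel_left, mul_neg, mul_smul_comm, smul_neg]
      have h4 := congrFun (congrFun h3 i) j
      rw [Matrix.smul_apply, Matrix.smul_apply, smul_eq_mul, smul_eq_mul] at h4
      rw [Polynomial.coeff_zero_eq_eval_zero, hev, zero_smul, add_zero, mul_comm, h4]
      exact dvd_mul_right _ _
    have h5 : (1 : S) ∈ (Ideal.span {L ^ 2}).colon {P.coeff 0} := h2 ▸ Submodule.mem_top
    rwa [Submodule.mem_colon_singleton, one_smul, Ideal.mem_span_singleton] at h5
  have hD : Ideal.Quotient.mk q (P.divX.eval L) = 1 := by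
    rw [← Polynomial.eval₂_at_apply, Ideal.Quotient.eq_zero_iff_mem.2 hLq,
      Polynomial.eval₂_at_zero, Polynomial.coeff_divX, ← Polynomial.coeff_map, hmap]
    simp
  obtain ⟨s1, hs1⟩ := s1_det_add (φ T * (1 - φ e + L • φ e)) (φ z) (L ^ 2)
  have hdet : algebraMap O S (nrd l) =
      L * ((φ T).det * P.divX.eval L + L * ((φ T).det * s0 + s1)) := by
    rw [hn, hF, hs1, det_mul, ← hev]
    conv_lhs => rw [← P.X_mul_divX_add]
    rw [Polynomial.eval_add, Polynomial.eval_mul, Polynomial.eval_X, Polynomial.eval_C, hs0]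
    ring
  generalize hu : (φ T).det * P.divX.eval L + L * ((φ T).det * s0 + s1) = u at hdet
  have huq : u ∉ q := by
    intro h2
    rw [← Ideal.Quotient.eq_zero_iff_mem, ← hu, map_add, map_mul, map_mul, hD,
      Ideal.Quotient.eq_zero_iff_mem.2 hLq, zero_mul, add_zero, mul_one] at h2
    exact (((isUnit_iff_isUnit_det _).1 (hT.map φ)).map (Ideal.Quotient.mk q)).ne_zero h2
  rcases ValuationRing.dvd_total lam (nrd l) with ⟨ε, hε⟩ | ⟨δ, hδ⟩
  · refine ⟨ε, ?_, hε⟩
    rw [hε, map_mul, ← hL] at hdet
    by_contra h2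
    exact huq (hcan _ _ hdet ▸ hle (Ideal.mem_map_of_mem _ h2))
  · have h2 : L * 1 = L * (u * algebraMap O S δ) := by
      rw [mul_one, ← mul_assoc, ← hdet, ← map_mul, ← hδ, hL]
    have h3 : IsUnit δ := s1_isUnit (S := S) (IsUnit.of_mul_eq_one_right u (hcan _ _ h2).symm)
    obtain ⟨δ, rfl⟩ := h3
    exact ⟨↑δ⁻¹, δ⁻¹.isUnit, by rw [hδ, Units.mul_inv_cancel_right]⟩

end

end Pool.Agent.GSD
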