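import Pool.Agent.P.MP_c1f06d_ag.d.DNrd0
import Pool.Agent.P.MP_c1f06d_ag.d.ValS1

open Matrix Module Polynomial Pool.Agent.SU

universe u

namespace Pool.Agent.GSD

variable {T T' S A A' : Type u} [CommRing T] [CommRing T'] [CommRing S] [Ring A] [Ring A']
  [Algebra T A] [Algebra T' A'] {f : T →+* T'} {j : A →+* A'}
  {n n' : Type} [Fintype n] [DecidableEq n] [Fintype n'] [DecidableEq n']

/-- The norm is a polynomial on lines. -/
theorem Az.exists_line (h : Az T A) (a b : A) :
    ∃ p : T[X], p.coeff 0 = nrd T a ∧ ∀ (T' A' : Type u) [CommRing T'] [Ring A'] [Algebra T' A']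
      (f : T →+* T') (j : A →+* A'), BC f j → ∀ t : T',
        nrd T' (j a + t • j b) = (p.map f).eval t := by
  have := h.free
  have := h.finite
  obtain ⟨A1, _, _, j1, h1⟩ := exists_bc (A := A) (Polynomial.C : T →+* T[X])
  have key : ∀ (T' A' : Type u) [CommRing T'] [Ring A'] [Algebra T' A']
      (f : T →+* T') (j : A →+* A'), BC f j → ∀ t : T', nrd T' (j a + t • j b) =
        ((nrd T[X] (j1 a + (X : T[X]) • j1 b)).map f).eval t := by
    intro T' A' _ _ _ f j hj t
    have hg : (eval₂RingHom f t).comp Polynomial.C = f := by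
      ext x
      simp
    obtain ⟨k, hk, hk'⟩ := h1.lift (g := eval₂RingHom f t) j fun x => by
      rw [hj.alg]
      simp
    have hb : BC (eval₂RingHom f t) k := h1.of_comp (by rw [hg, hk]; exact hj) hk'
    have h2 := (h.map h1).nrd_map hb (j1 a + (X : T[X]) • j1 b)
    have h3 : ∀ x, k (j1 x) = j x := fun x => by rw [← hk]; rfl
    rw [map_add, hb.smul, h3, h3] at h2
    simpa [eval_map] using h2
  refine ⟨_, ?_, key⟩
  have h4 := key T A (RingHom.id T) (RingHom.id A) BC.refl 0
  rw [Polynomial.map_id, ← coeff_zero_eq_eval_zero] at h4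
  simpa using h4.symm

theorem dnrd_ring [Algebra T T'] (b : Basis n T T') (s : T →+* S) :
    ∃ (P : Type u) (_ : CommRing P) (ι : S →+* P) (g : T' →+* P) (G : P →+* Matrix n n S),
      g.comp (algebraMap T T') = ι.comp s ∧ (∀ x, G (ι x) = algebraMap S _ x) ∧
        ∀ t, G (g t) = (Algebra.leftMulMatrix b t).map s := by
  let := s.toAlgebra
  let F : T' →ₐ[T] Matrix n n S :=
    (AlgHom.mapMatrix (Algebra.ofId T S)).comp (Algebra.leftMulMatrix b)
  let E : S →ₐ[T] Matrix n n S := IsScalarTower.toAlgHom T S (Matrix n n S)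
  refine ⟨TensorProduct T T' S, inferInstance,
    (Algebra.TensorProduct.includeRight : S →ₐ[T] TensorProduct T T' S),
    Algebra.TensorProduct.includeLeftRingHom,
    (Algebra.TensorProduct.lift F E fun x y => (Algebra.commutes y (F x)).symm :
      TensorProduct T T' S →ₐ[T] Matrix n n S), ?_, fun x => ?_, fun t => ?_⟩
  · exact Algebra.TensorProduct.includeLeftRingHom_comp_algebraMap
  · simp [E]
  · simp [F]
    rfl

/-- The norm of the regular representation over a finite free extension. -/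
theorem Az.nrd_regular (h : Az T A) [Algebra T T'] (hj : BC (algebraMap T T') j)
    (b : Basis n T T') (ρ : A' →+* Matrix n n A) (hρ : ∀ a, ρ (j a) = diagonal fun _ => a)
    (hρ' : ∀ s : T', ρ (algebraMap T' A' s) = (Algebra.leftMulMatrix b s).map (algebraMap T A))
    (y : A') : nrd T (ρ y) = Algebra.norm T (nrd T' y) := by
  have h' := h.map hj
  obtain ⟨d, _, _, S, _, s, φ, hs, hφ⟩ := id h
  obtain ⟨P, _, ι, g, G, h1, h2, h3⟩ := dnrd_ring b s
  have hb0 := hφ.comp (bc_mapMatrix ι d)
  obtain ⟨ψ, hψ, hψ'⟩ := hj.lift (g := g) (ι.mapMatrix.comp φ) fun t => by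
    rw [hb0.alg, ← h1]
    rfl
  have hb : BC g ψ := hj.of_comp (by rw [h1, hψ]; exact hb0) hψ'
  have h4 : ∀ a, ψ (j a) = (φ a).map ι := fun a => by
    rw [← RingHom.comp_apply, hψ]
    rfl
  have h5 : ∀ (z : A') i k p q, G (ψ z p q) i k = φ (ρ z i k) p q := by
    intro z
    induction z using hj.induction with
    | h0 => simp
    | h1 t a =>
      intro i k p q
      rw [hb.smul, h4, Matrix.smul_apply, smul_eq_mul, map_mul, h3, Matrix.map_apply, h2,
        Algebra.smul_def t, map_mul, hρ, hρ', Matrix.mul_diagonal, Matrix.map_apply,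
        ← Algebra.smul_def, hφ.smul, ← Algebra.commutes, ← Algebra.smul_def, Matrix.smul_apply,
        Matrix.smul_apply, Matrix.map_apply, smul_eq_mul, smul_eq_mul, mul_comm]
    | h2 x y hx hy =>
      intro i k p q
      simp only [map_add, Matrix.add_apply, hx, hy]
  apply ff_injective hs
  rw [h.nrd_mat_spec hφ, Algebra.norm_eq_matrix_det b, RingHom.map_det, RingHom.mapMatrix_apply,
    ← h3, h'.nrd_spec hb, Matrix.det_det,
    ← Matrix.det_submatrix_equiv_self (Equiv.prodComm d n)]
  congr 1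
  ext ⟨p, i⟩ ⟨q, k⟩
  simp [h5]

/-- The regular representation exists. -/
theorem BC.exists_regular [Algebra T T'] (hj : BC (algebraMap T T') j) (b : Basis n T T') :
    ∃ ρ : A' →+* Matrix n n A, (∀ a, ρ (j a) = diagonal fun _ => a) ∧
      ∀ s : T', ρ (algebraMap T' A' s) = (Algebra.leftMulMatrix b s).map (algebraMap T A) := by
  let ψ : T' →+* Matrix n n A :=
    (algebraMap T A).mapMatrix.comp (Algebra.leftMulMatrix b : T' →ₐ[T] Matrix n n T)
  let Z : Subring (Matrix n n A) := Subring.centralizer (Set.range ψ)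
  have h1 : ∀ s, ψ s ∈ Z := fun s => by
    rintro _ ⟨t, rfl⟩
    rw [← map_mul, ← map_mul, mul_comm]
  have h2 : ∀ a, Matrix.scalar n a ∈ Z := fun a => by
    rintro _ ⟨t, rfl⟩
    ext i k
    rw [Matrix.scalar_apply, Matrix.mul_diagonal, Matrix.diagonal_mul]
    exact Algebra.commutes _ _
  let : Algebra T' Z := (ψ.codRestrict Z h1).toAlgebra' fun t x =>
    Subtype.ext (x.2 _ ⟨t, rfl⟩)
  obtain ⟨k, hk, hk'⟩ := hj.lift (g := RingHom.id T') ((Matrix.scalar n).codRestrict Z h2)
    fun t => Subtype.ext (by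
      change Matrix.scalar n (algebraMap T A t) = ψ (algebraMap T T' t)
      simp only [ψ, RingHom.comp_apply, RingHom.coe_coe, AlgHom.commutes]
      ext i k
      by_cases hik : i = k <;> simp [Matrix.algebraMap_matrix_apply, Matrix.diagonal_apply, hik])
  refine ⟨Z.subtype.comp k, fun a => ?_, fun s => ?_⟩
  · rw [RingHom.comp_apply, ← RingHom.comp_apply k, hk]
    rfl
  · rw [RingHom.comp_apply, hk']
    rfl

theorem dnrd_alg (h : Az T A) :
    ∃ (d : Type) (_ : Fintype d) (_ : DecidableEq d) (S : Type u) (_ : CommRing S)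
      (_ : Algebra T S) (φ : A →ₐ[T] Matrix d d S),
      Module.FaithfullyFlat T S ∧ IsBaseChange S φ.toLinearMap := by
  obtain ⟨d, _, _, S, _, s, φ, hs, hφ⟩ := h
  let := s.toAlgebra
  let φ' : A →ₐ[T] Matrix d d S :=
    { φ with
      commutes' := fun t => (hφ.alg t).trans (IsScalarTower.algebraMap_apply T S _ t).symm }
  exact ⟨d, inferInstance, inferInstance, S, inferInstance, inferInstance, φ', hs,
    BC.isBaseChange φ' hφ⟩

theorem Az.avg (h : Az T A) : Avg T A := by
  have := h.free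
  have := h.finite
  rcases subsingleton_or_nontrivial T with hT | hT
  · have := Module.subsingleton T A
    exact ⟨0, 0, 0, Subsingleton.elim _ _, fun _ _ => Subsingleton.elim _ _⟩
  obtain ⟨d, _, _, S, _, _, φ, hs, hφ⟩ := dnrd_alg h
  exact s1_avg hφ

theorem Az.cen (h : Az T A) {z : A} (hz : ∀ a, z * a = a * z) : ∃ t, z = algebraMap T A t := by
  obtain ⟨d, _, _, S, _, _, φ, hs, hφ⟩ := dnrd_alg h
  have h1 : ∀ Z : Matrix d d S, φ z * Z = Z * φ z := by
    intro Z
    induction Z using hφ.inductionOn with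
    | zero => simp
    | tmul c =>
      have := congrArg φ (hz c)
      rwa [map_mul, map_mul] at this
    | smul s Z hZ => rw [mul_smul_comm, smul_mul_assoc, hZ]
    | add Y Z hY hZ => rw [mul_add, add_mul, hY, hZ]
  obtain ⟨x, hx⟩ := Matrix.mem_range_scalar_of_commute_single (M := φ z)
    fun i k _ => (h1 _).symm
  have h2 : z ∈ Submodule.span T {(1 : A)} := by
    refine s1_desc hφ _ ?_
    have h3 : φ.toLinearMap z = x • φ.toLinearMap 1 := by
      change φ z = x • φ 1
      rw [map_one, ← hx, Matrix.scalar_apply, Matrix.smul_one_eq_diagonal]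
    rw [h3]
    exact Submodule.smul_mem _ _
      (Submodule.subset_span ⟨1, Submodule.mem_span_singleton_self _, rfl⟩)
  obtain ⟨t, ht⟩ := Submodule.mem_span_singleton.1 h2
  exact ⟨t, by rw [← ht, Algebra.algebraMap_eq_smul_one]⟩

section Field
variable {k D : Type u} [Field k] [Ring D] [Algebra k D]

theorem dnrd_qm {a : D} (ha : qm (IsLocalRing.maximalIdeal k) a = 0) : a = 0 := by
  have := Ideal.Quotient.eq_zero_iff_mem.1 ha
  rwa [IsLocalRing.maximalIdeal_eq_bot, extI, Ideal.map_bot, Ideal.mem_bot] at this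

theorem dnrd_ss (h : Az k D) : IsSemisimpleRing D := by
  have := h.free
  have := h.finite
  have := h.avg.isSemisimpleRing
  exact (RingEquiv.ofBijective (qm (A := D) (IsLocalRing.maximalIdeal k))
    ⟨(injective_iff_map_eq_zero _).2 fun _ => dnrd_qm, qm_surjective _⟩).symm.isSemisimpleRing

theorem Az.reg (h : Az k D) (a : D) : ∃ b, a * b * a = a := by
  have := dnrd_ss h
  obtain ⟨e, he, hI⟩ := IsSemisimpleRing.ideal_eq_span_idempotent (Ideal.span {a})
  obtain ⟨b, hb⟩ := Ideal.mem_span_singleton'.1 (hI ▸ Ideal.mem_span_singleton_self e)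
  obtain ⟨c, hc⟩ := Ideal.mem_span_singleton'.1 (hI ▸ Ideal.mem_span_singleton_self a)
  refine ⟨b, ?_⟩
  rw [mul_assoc, hb, ← hc, mul_assoc, he.eq]

theorem Az.prime (h : Az k D) (a b : D) (hab : ∀ c, a * c * b = 0) : a = 0 ∨ b = 0 := by
  have := h.free
  have := h.finite
  obtain ⟨d, _, _, S, _, _, φ, hs, hφ⟩ := dnrd_alg h
  refine (s1_prime hφ (qm _ a) (qm _ b) fun c => ?_).imp dnrd_qm dnrd_qm
  obtain ⟨c, rfl⟩ := qm_surjective _ c
  rw [← map_mul, ← map_mul, hab, map_zero]

theorem Az.isSemisimpleRing (h : Az k D) : IsSemisimpleRing D := by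
  exact dnrd_ss h

end Field

end Pool.Agent.GSD
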