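import Pool.Agent.P.MP_c1f06d_ag.d.DBC

open Matrix Module Polynomial Pool.Agent.SU

universe u

namespace Pool.Agent.GSD

variable {T T' S A A' : Type u} [CommRing T] [CommRing T'] [CommRing S] [Ring A] [Ring A']
  [Algebra T A] [Algebra T' A'] {f : T →+* T'} {j : A →+* A'}
  {n n' : Type} [Fintype n] [DecidableEq n] [Fintype n'] [DecidableEq n']

theorem Az.free (h : Az T A) : Module.Free T A := by
  obtain ⟨d, _, _, S, _, s, φ, -, hφ⟩ := h
  exact hφ.free

theorem Az.finite (h : Az T A) : Module.Finite T A := by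
  obtain ⟨d, _, _, S, _, s, φ, -, hφ⟩ := h
  exact hφ.finite

theorem Az.map (h : Az T A) (hj : BC f j) : Az T' A' := by
  obtain ⟨d, _, _, S, _, s, φ, hs, hφ⟩ := h
  obtain ⟨P, _, s', f', e, hs'⟩ := exists_pushout f s hs
  have h1 := hφ.comp (bc_mapMatrix f' d)
  rw [← e] at h1
  obtain ⟨k, hk, hk'⟩ := hj.lift (g := s') _ h1.alg
  exact ⟨d, _, _, P, _, s', k, hs', hj.of_comp (hk ▸ h1) hk'⟩

/-- The block representation of a matrix algebra. -/
theorem BC.blk {d : Type} [Fintype d] [DecidableEq d] {s : T →+* S} {φ : A →+* Matrix d d S}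
    (h : BC s φ) (n : Type) [Fintype n] [DecidableEq n] :
    BC s (((compRingEquiv n d S : Matrix n n (Matrix d d S) ≃+* Matrix (n × d) (n × d) S) :
      Matrix n n (Matrix d d S) →+* Matrix (n × d) (n × d) S).comp
        (φ.mapMatrix : Matrix n n A →+* Matrix n n (Matrix d d S))) := by
  have := (h.mat n).free'
  have := (h.mat n).finite'
  exact (h.mat n).comp (bc_of_bijective (T := S) _ (compRingEquiv n d S).bijective
    (compAlgEquiv n d S S).commutes)

theorem Az.mat (h : Az T A) (n : Type) [Fintype n] [DecidableEq n] : Az T (Matrix n n A) := by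
  obtain ⟨d, _, _, S, _, s, φ, hs, hφ⟩ := h
  exact ⟨n × d, _, _, S, _, s, _, hs, hφ.blk n⟩

theorem IsNrd.map {a : A} {c : T} (h : IsNrd T a c) (hj : BC f j) : IsNrd T' (j a) (f c) := by
  intro d _ _ S _ g φ hφ
  exact h d S (g.comp f) (φ.comp j) (hj.comp hφ)

theorem dnrd0_uniq {s : T →+* S} {φ : A →+* Matrix n n S} {φ' : A →+* Matrix n' n' S}
    (h : BC s φ) (h' : BC s φ') (a : A) : (φ a).det = (φ' a).det := by
  cases subsingleton_or_nontrivial S with
  | inl _ => exact Subsingleton.elim _ _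
  | inr _ =>
    obtain ⟨k, hk, hk'⟩ := h.lift (g := RingHom.id S) φ' h'.alg
    have h1 : BC (RingHom.id S) k := h.of_comp (hk ▸ h') hk'
    let κ : Matrix n n S →ₐ[S] Matrix n' n' S := ⟨k, hk'⟩
    have h2 := (AlgEquiv.ofBijective κ
      ⟨h1.injective fun _ _ e => e, h1.surjective fun x => ⟨x, rfl⟩⟩).toLinearEquiv.finrank_eq
    simp only [Module.finrank_matrix, Module.finrank_self, mul_one] at h2
    let e : n' ≃ n := (Fintype.equivOfCardEq (Nat.mul_self_inj.1 h2)).symm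
    rw [← hk, ← det_algHom ((reindexAlgEquiv S S e).toAlgHom.comp κ)]
    exact det_reindex_self e _

theorem dnrd0_sq {P S' : Type u} [CommRing P] [CommRing S'] {s : T →+* S} {s' : T →+* S'}
    {φ : A →+* Matrix n n S} {φ' : A →+* Matrix n' n' S'} (h : BC s φ) (h' : BC s' φ')
    {g : S →+* P} {g' : S' →+* P} (e : g.comp s = g'.comp s') (a : A) :
    g (φ a).det = g' (φ' a).det := by
  rw [RingHom.map_det, RingHom.map_det]
  exact dnrd0_uniq (h.comp (bc_mapMatrix g n)) (e ▸ h'.comp (bc_mapMatrix g' n')) a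

theorem Az.isNrd (h : Az T A) (a : A) : IsNrd T a (nrd T a) := by
  obtain ⟨d, _, _, S, _, s, φ, hs, hφ⟩ := h
  obtain ⟨t, ht⟩ := ff_descent hs (φ a).det fun P _ g g' e => dnrd0_sq hφ hφ e a
  refine Classical.epsilon_spec (p := IsNrd T a) ⟨t, ?_⟩
  intro d' _ _ S' _ s' φ' hφ'
  obtain ⟨P, _, g', g, e, hg⟩ := exists_pushout s' s hs
  apply ff_injective hg
  rw [dnrd0_sq hφ' hφ e, ← ht]
  exact RingHom.congr_fun e t

theorem Az.nrd_eq (h : Az T A) {a : A} {c : T} (hc : IsNrd T a c) : nrd T a = c := by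
  obtain ⟨d, _, _, S, _, s, φ, hs, hφ⟩ := id h
  exact ff_injective hs ((h.isNrd a d S s φ hφ).trans (hc d S s φ hφ).symm)

theorem Az.nrd_spec (h : Az T A) {d : Type} [Fintype d] [DecidableEq d] {s : T →+* S}
    {φ : A →+* Matrix d d S} (hφ : BC s φ) (a : A) : s (nrd T a) = (φ a).det :=
  h.isNrd a d S s φ hφ

theorem Az.nrd_mat_spec (h : Az T A) {d : Type} [Fintype d] [DecidableEq d] {s : T →+* S}
    {φ : A →+* Matrix d d S} (hφ : BC s φ) (Y : Matrix n n A) :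
    s (nrd T Y) = (Matrix.comp n n d d S (Y.map φ)).det :=
  (h.mat n).nrd_spec (hφ.blk n) Y

theorem Az.nrd_map (h : Az T A) (hj : BC f j) (a : A) : nrd T' (j a) = f (nrd T a) :=
  (h.map hj).nrd_eq ((h.isNrd a).map hj)

theorem Az.nrd_map_mat (h : Az T A) (hj : BC f j) (Y : Matrix n n A) :
    nrd T' (Y.map j) = f (nrd T Y) :=
  (h.mat n).nrd_map (hj.mat n) Y

theorem Az.nrd_mul (h : Az T A) (a b : A) : nrd T (a * b) = nrd T a * nrd T b := by
  obtain ⟨d, _, _, S, _, s, φ, hs, hφ⟩ := id h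
  apply ff_injective hs
  rw [map_mul, h.nrd_spec hφ, h.nrd_spec hφ, h.nrd_spec hφ, map_mul, det_mul]

theorem Az.nrd_one (h : Az T A) : nrd T (1 : A) = 1 := by
  obtain ⟨d, _, _, S, _, s, φ, hs, hφ⟩ := id h
  apply ff_injective hs
  rw [h.nrd_spec hφ, map_one, map_one, det_one]

theorem Az.isUnit_nrd_iff (h : Az T A) {a : A} : IsUnit (nrd T a) ↔ IsUnit a := by
  obtain ⟨d, _, _, S, _, s, φ, hs, hφ⟩ := id h
  have := ff_isLocalHom hs
  rw [← isUnit_map_iff s, h.nrd_spec hφ, ← isUnit_iff_isUnit_det]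
  exact ⟨hφ.isUnit_of_map, fun e => e.map φ⟩

theorem Az.nrd_fromBlocks₂₁ (h : Az T A) (X : Matrix n n A) (Y : Matrix n n' A)
    (Z : Matrix n' n' A) : nrd T (fromBlocks X Y 0 Z) = nrd T X * nrd T Z := by
  obtain ⟨d, _, _, S, _, s, φ, hs, hφ⟩ := id h
  apply ff_injective hs
  rw [map_mul, h.nrd_mat_spec hφ, h.nrd_mat_spec hφ, h.nrd_mat_spec hφ,
    ← det_fromBlocks_zero₂₁ _ (Matrix.comp n n' d d S (Y.map φ)),
    ← det_submatrix_equiv_self (Equiv.sumProdDistrib n n' d).symm]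
  congr 1
  ext (⟨a, b⟩ | ⟨a, b⟩) (⟨c, e⟩ | ⟨c, e⟩) <;> simp

theorem Az.nrd_fromBlocks₁₂ (h : Az T A) (X : Matrix n n A) (Y : Matrix n' n A)
    (Z : Matrix n' n' A) : nrd T (fromBlocks X 0 Y Z) = nrd T X * nrd T Z := by
  obtain ⟨d, _, _, S, _, s, φ, hs, hφ⟩ := id h
  apply ff_injective hs
  rw [map_mul, h.nrd_mat_spec hφ, h.nrd_mat_spec hφ, h.nrd_mat_spec hφ,
    ← det_fromBlocks_zero₁₂ _ (Matrix.comp n' n d d S (Y.map φ)),
    ← det_submatrix_equiv_self (Equiv.sumProdDistrib n n' d).symm]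
  congr 1
  ext (⟨a, b⟩ | ⟨a, b⟩) (⟨c, e⟩ | ⟨c, e⟩) <;> simp

theorem Az.nrd_submatrix (h : Az T A) (e : n' ≃ n) (Y : Matrix n n A) :
    nrd T (Y.submatrix e e) = nrd T Y := by
  obtain ⟨d, _, _, S, _, s, φ, hs, hφ⟩ := id h
  apply ff_injective hs
  rw [h.nrd_mat_spec hφ, h.nrd_mat_spec hφ]
  exact det_submatrix_equiv_self (e.prodCongr (Equiv.refl d)) (Matrix.comp n n d d S (Y.map φ))

theorem Az.nrd_unique (h : Az T A) [Unique n] (Y : Matrix n n A) :
    nrd T Y = nrd T (Y default default) := by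
  obtain ⟨d, _, _, S, _, s, φ, hs, hφ⟩ := id h
  apply ff_injective hs
  rw [h.nrd_mat_spec hφ, h.nrd_spec hφ, ← det_submatrix_equiv_self (Equiv.uniqueProd d n).symm]
  rfl

theorem Az.nrd_comp (h : Az T A) (Y : Matrix n n (Matrix n' n' A)) :
    nrd T (Matrix.comp n n n' n' A Y) = nrd T Y := by
  obtain ⟨d, _, _, S, _, s, φ, hs, hφ⟩ := id h
  apply ff_injective hs
  rw [h.nrd_mat_spec hφ, (h.mat n').nrd_mat_spec (hφ.blk n'),
    ← det_submatrix_equiv_self (Equiv.prodAssoc n n' d).symm]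
  rfl

theorem Az.nrd_diagonal (h : Az T A) (a : n → A) : nrd T (diagonal a) = ∏ i, nrd T (a i) := by
  obtain ⟨d, _, _, S, _, s, φ, hs, hφ⟩ := id h
  apply ff_injective hs
  rw [h.nrd_mat_spec hφ, map_prod, Finset.prod_congr rfl fun i _ => h.nrd_spec hφ (a i),
    ← det_blockDiagonal fun i => φ (a i), ← det_submatrix_equiv_self (Equiv.prodComm d n)]
  congr 1
  ext ⟨b, i⟩ ⟨c, k⟩
  by_cases e : i = k <;> simp [blockDiagonal_apply', e]

/-- A matrix with entries in a commutative subring. -/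
theorem Az.nrd_comm (h : Az T A) {C : Type*} [CommRing C] (ψ : C →+* A) (X : Matrix n n C) :
    nrd T (X.map ψ) = nrd T (ψ X.det) := by
  obtain ⟨d, _, _, S, _, s, φ, hs, hφ⟩ := id h
  apply ff_injective hs
  rw [h.nrd_mat_spec hφ, h.nrd_spec hφ]
  exact (Matrix.det_det X (φ.comp ψ)).symm

theorem dnrd0_comp {d : Type} [Fintype d] [DecidableEq d] (φ : A →+* Matrix d d S)
    (X : Matrix n n' A) (Y : Matrix n' n A) : Matrix.comp n n d d S ((1 + X * Y).map φ) =
      1 + Matrix.comp n n' d d S (X.map φ) * Matrix.comp n' n d d S (Y.map φ) := by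
  rw [Matrix.map_add _ (map_add φ), Matrix.map_one _ (map_zero φ) (map_one φ), Matrix.map_mul,
    ← Matrix.comp_one]
  ext a b
  simp [Matrix.mul_apply, Matrix.sum_apply, Fintype.sum_prod_type]

theorem Az.nrd_one_add_mul_comm (h : Az T A) (X : Matrix n n' A) (Y : Matrix n' n A) :
    nrd T (1 + X * Y) = nrd T (1 + Y * X) := by
  obtain ⟨d, _, _, S, _, s, φ, hs, hφ⟩ := id h
  apply ff_injective hs
  rw [h.nrd_mat_spec hφ, h.nrd_mat_spec hφ, dnrd0_comp, dnrd0_comp, det_one_add_mul_comm]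

end Pool.Agent.GSD
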