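import Pool.Agent.P.MP_c1f06d_ag.d.ValD

namespace Pool.Agent.GSD

open Pool.Agent.SU IsLocalRing

section
variable {Q : Type*} [Ring Q] [StarRing Q]

/-- The torus move in a ring with a hyperbolic idempotent. -/
theorem vt_alg {l e μ κ s t z : Q} (hl : l + star l = 1) (h : Hyp l e) (cμ : Cen μ) (cκ : Cen κ)
    (cs : Cen s) (ct : Cen t) (sμ : star μ = μ) (st : star t = t) (hκ : (1 - μ) * κ = 1)
    (ht : (s - 2) * t = 1)
    (hz : (1 - s * ((1 - e - star e) * l * (1 - e - star e))) * z = 1)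
    (hz' : z * (1 - s * ((1 - e - star e) * l * (1 - e - star e))) = 1) :
    ∃ l1 T Ti m : Q, La l l1 ∧ T * Ti = 1 ∧ Ti * T = 1 ∧ l1 = T * (μ * e + 1 - e) ∧
      l1 * m = μ ∧ m * l1 = μ ∧ Ti * e = e ∧ e * Ti = e ∧ star e * l1 = (1 - μ) * star e := by
  have p1 := h.pi_mul
  have p2 := h.mul_pi
  have p3 := h.pi_mul_star
  have p4 := h.star_mul_pi
  have p5 := h.pi_idem
  have e1 := h.idem
  have e2 := h.idem'
  have e3 := h.mul_star
  have e4 := h.star_mul
  have hla : La l (l + t * (l - star l)) := (La.refl l).add_alt ((alt_sub_star l).cmul ct st)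
  have hl1 := h.la_mu hl hla cμ sμ
  have hsum : e + star e + (1 - e - star e) = 1 := by abel
  generalize 1 - e - star e = p at *
  generalize star e = f at *
  have hst : s * t = 1 + 2 * t := by rw [← ht]; noncomm_ring
  have hX : p * (l + t * (l - star l)) * p = -t * (p * (1 - s * (p * l * p))) := by
    have a1 : star l = 1 - l := eq_sub_of_add_eq' hl
    have a2 : p * (s * (p * l * p)) = s * (p * l * p) := by
      rw [← mul_assoc, ← cs p, mul_assoc, ← mul_assoc p, ← mul_assoc p, p5]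
    have a3 : p * (t * (l - (1 - l))) * p = t * (p * (l - (1 - l)) * p) := by
      rw [← mul_assoc p, ← ct p]; noncomm_ring
    rw [a1, mul_add, add_mul, a3, mul_sub p 1, a2, mul_sub (-t), neg_mul t (s * _), ← mul_assoc t s,
      ct s, hst]
    have a4 : p * (l - (1 - l)) * p = 2 * (p * l * p) - p * p := by noncomm_ring
    have a5 : (1 + 2 * t) * (p * l * p) = p * l * p + t * (2 * (p * l * p)) := by
      rw [← mul_assoc t 2, ct 2]; noncomm_ring
    rw [a4, a5, p5]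
    noncomm_ring
  set U := 1 - s * (p * l * p) with hU
  have hpU : p * U = U * p := by
    rw [hU, mul_sub, sub_mul, mul_one, one_mul, ← mul_assoc p s, ← cs p]
    calc p - s * p * (p * l * p) = p - s * ((p * p) * l * p) := by noncomm_ring
      _ = p - s * (p * l * (p * p)) := by rw [p5]
      _ = _ := by noncomm_ring
  have hpz : p * z = z * p := by
    calc p * z = (z * U) * p * z := by rw [hz', one_mul]
      _ = z * p * (U * z) := by rw [mul_assoc z U p, ← hpU]; noncomm_ring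
      _ = z * p := by rw [hz, mul_one]
  have c2 : Cen (s - 2) := fun b => by
    rw [sub_mul, mul_sub, cs b]; noncomm_ring
  have ht' : t * (s - 2) = 1 := by rw [ct, ht]
  have c1 : Cen (1 - μ) := fun b => by rw [sub_mul, mul_sub, cμ b, one_mul, mul_one]
  have hκ' : κ * (1 - μ) = 1 := by rw [cκ, hκ]
  set X := p * (l + t * (l - star l)) * p with hXd
  set Y := -(s - 2) * (p * z) with hY
  have hXY : X * Y = p := by
    rw [hX, hY]
    calc -t * (p * U) * (-(s - 2) * (p * z)) = t * ((p * U) * (s - 2)) * (p * z) := by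
          noncomm_ring
      _ = (t * (s - 2)) * (p * (U * p) * z) := by rw [← c2]; noncomm_ring
      _ = (p * p) * (U * z) := by rw [ht', ← hpU]; noncomm_ring
      _ = p := by rw [p5, hz, mul_one]
  have hYX : Y * X = p := by
    rw [hX, hY]
    calc -(s - 2) * (p * z) * (-t * (p * U)) = (s - 2) * ((p * z) * t) * (p * U) := by
          noncomm_ring
      _ = ((s - 2) * t) * (p * (z * p) * U) := by rw [← ct]; noncomm_ring
      _ = (p * p) * (z * U) := by rw [ht, ← hpz]; noncomm_ring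
      _ = p := by rw [p5, hz', mul_one]
  have x1 : X * e = 0 := by rw [hXd, mul_assoc, p1, mul_zero]
  have x2 : e * X = 0 := by rw [hXd, ← mul_assoc, ← mul_assoc, p2, zero_mul, zero_mul]
  have x3 : X * f = 0 := by rw [hXd, mul_assoc, p3, mul_zero]
  have x4 : f * X = 0 := by rw [hXd, ← mul_assoc, ← mul_assoc, p4, zero_mul, zero_mul]
  have y1 : Y * e = 0 := by rw [hY, hpz, mul_assoc, mul_assoc, p1, mul_zero, mul_zero]
  have y2 : e * Y = 0 := by
    rw [hY, neg_mul, mul_neg, ← mul_assoc, ← c2, mul_assoc, ← mul_assoc e, p2]; simp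
  have y3 : Y * f = 0 := by rw [hY, hpz, mul_assoc, mul_assoc, p3, mul_zero, mul_zero]
  have y4 : f * Y = 0 := by
    rw [hY, neg_mul, mul_neg, ← mul_assoc, ← c2, mul_assoc, ← mul_assoc f, p4]; simp
  clear_value X Y
  have mv : ∀ {c : Q}, Cen c → ∀ a b, a * (c * b) = c * (a * b) := fun hc a b => by
    rw [← mul_assoc, ← hc, mul_assoc]
  have k1 : (1 - μ) * (κ * f) = f := by rw [← mul_assoc, hκ, one_mul]
  have k2 : κ * ((1 - μ) * f) = f := by rw [← mul_assoc, hκ', one_mul]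
  generalize 1 - μ = ν at *
  refine ⟨μ * e + ν * f + X, e + ν * f + X, e + κ * f + Y, e + μ * (κ * f) + μ * Y, hl1,
    ?_, ?_, ?_, ?_, ?_, ?_, ?_, ?_⟩
  · simp only [add_mul, mul_add, mul_assoc, mv cκ e, mv cκ f, mv cκ X, e1, e2, e3, e4, x1, x3, y2,
      y4, hXY, k1, mul_zero, add_zero, zero_add, hsum]
  · simp only [add_mul, mul_add, mul_assoc, mv c1 e, mv c1 f, mv c1 Y, e1, e2, e3, e4, y1, y3, x2,
      x4, hYX, k2, mul_zero, add_zero, zero_add, hsum]
  · simp only [add_mul, mul_add, mul_sub, mul_assoc, mv cμ e, mv cμ f, mv cμ X, e1, e4, x1,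
      mul_zero, add_zero, mul_one]
    abel
  · simp only [add_mul, mul_add, mul_assoc, mv cκ e, mv cκ f, mv cκ X, mv cμ e, mv cμ f, mv cμ X,
      mv cμ ν, e1, e2, e3, e4, x1, x3, y2, y4, hXY, k1, mul_zero, add_zero, zero_add]
    rw [← mul_add, ← mul_add, hsum, mul_one]
  · simp only [add_mul, mul_add, mul_assoc, mv c1 e, mv c1 f, mv c1 Y, mv cμ e, mv cμ f, mv cμ Y,
      e1, e2, e3, e4, y1, y3, x2, x4, hYX, k2, mul_zero, add_zero, zero_add]
    rw [← mul_add, ← mul_add, hsum, mul_one]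
  · simp only [add_mul, mul_assoc, e1, e4, y1, mul_zero, add_zero]
  · simp only [mul_add, mv cκ e, e1, e3, y2, mul_zero, add_zero]
  · simp only [mul_add, mv cμ f, mv c1 f, e2, e4, x4, mul_zero, add_zero, zero_add]

omit [StarRing Q] in
/-- The powers of `μ - m`. -/
theorem vt_pow {e f μ κ l1 T Ti m : Q} (cμ : Cen μ) (cκ : Cen κ) (hκ : (1 - μ) * κ = 1)
    (he : e * e = e) (hT : Ti * T = 1) (h1 : l1 = T * (μ * e + 1 - e)) (h2 : l1 * m = μ)
    (h3 : Ti * e = e) (h4 : e * Ti = e) (h5 : f * l1 = (1 - μ) * f) (j : ℕ) :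
    (∃ b, (1 - e) * (μ - m) ^ j = μ ^ j * b) ∧ ∃ b, f * (μ - m) ^ j = (μ ^ j) ^ 2 * b := by
  have a1 : (1 - e) * (μ - m) = μ * ((1 - Ti) * (1 - e)) := by
    have b1 : (μ * e + 1 - e) * m = μ * Ti := by
      calc (μ * e + 1 - e) * m = (Ti * T) * (μ * e + 1 - e) * m := by rw [hT, one_mul]
        _ = Ti * (l1 * m) := by rw [h1]; noncomm_ring
        _ = μ * Ti := by rw [h2, cμ]
    have b2 : (1 - e) * (μ * e + 1 - e) = 1 - e := by
      calc (1 - e) * (μ * e + 1 - e) = μ * e + 1 - e - (e * μ) * e - e + e * e := by noncomm_ring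
        _ = 1 - e := by rw [← cμ e, mul_assoc, he]; abel
    have b3 : (1 - e) * m = μ * ((1 - e) * Ti) := by
      rw [← mul_assoc, cμ, mul_assoc, ← b1, ← mul_assoc, b2]
    rw [mul_sub, b3, ← cμ, ← mul_sub]
    congr 1
    rw [sub_mul, sub_mul, mul_sub Ti, h3, h4]
    noncomm_ring
  have a2 : f * (μ - m) = (μ * μ * -κ) * f := by
    have b1 : f * m = μ * κ * f := by
      calc f * m = (κ * (1 - μ)) * f * m := by rw [cκ, hκ, one_mul]
        _ = κ * (f * (l1 * m)) := by rw [mul_assoc κ, ← h5]; noncomm_ring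
        _ = μ * κ * f := by rw [h2, ← cμ f, ← mul_assoc, cκ μ]
    rw [mul_sub, b1, ← cμ f]
    calc μ * f - μ * κ * f = μ * ((1 - μ) * κ) * f - μ * κ * f := by rw [hκ, mul_one]
      _ = _ := by noncomm_ring
  have cp : ∀ (n : ℕ) (b : Q), μ ^ n * b = b * μ ^ n := fun n b =>
    (Commute.pow_left (cμ b) n).eq
  refine ⟨⟨(1 - Ti) ^ j * (1 - e), ?_⟩, ⟨(-κ) ^ j * f, ?_⟩⟩
  · induction j with
    | zero => simp
    | succ n ih =>
      rw [pow_succ, ← mul_assoc, ih, mul_assoc, mul_assoc, a1, ← mul_assoc ((1 - Ti) ^ n), ← cμ,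
        pow_succ, pow_succ]
      noncomm_ring
  · induction j with
    | zero => simp
    | succ n ih =>
      rw [pow_succ, ← mul_assoc, ih, mul_assoc, mul_assoc, a2, pow_succ μ n, pow_succ (-κ) n]
      have c1 : (-κ) ^ n * (μ * μ * -κ * f) = μ * μ * ((-κ) ^ n * -κ * f) := by
        rw [mul_assoc μ μ, mul_assoc μ, ← mul_assoc ((-κ) ^ n), ← cμ, mul_assoc μ, mul_assoc μ,
          ← mul_assoc ((-κ) ^ n) μ, ← cμ]
        noncomm_ring
      rw [c1, ← pow_succ μ n, ← pow_mul, ← pow_mul]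
      have c2 : μ ^ ((n + 1) * 2) = μ ^ (n * 2) * (μ * μ) := by
        rw [add_mul, pow_add, one_mul, pow_two]
      rw [c2]
      noncomm_ring

end

variable {O A : Type*} [CommRing O] [IsDomain O] [IsLocalRing O] [Infinite (ResidueField O)]
  [Ring A] [StarRing A] [Algebra O A] [StarFix O A] [Module.Finite O A] [Module.Free O A]

omit [IsDomain O] [StarRing A] [StarFix O A] [Module.Free O A] in
theorem vt_generic (x : A) : ∃ s : O, IsUnit (s - 2) ∧ IsUnit (1 - s • x) := by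
  have h1 := finite_rk_lt (k := ResidueField O) (1 : QA A (maximalIdeal O))
    (-(qm (maximalIdeal O) x))
  obtain ⟨c, hc⟩ := (h1.union (Set.finite_singleton (2 : ResidueField O))).infinite_compl.nonempty
  obtain ⟨s, rfl⟩ := residue_surjective c
  simp only [Set.mem_compl_iff, Set.mem_union, Set.mem_ofPred_eq, Set.mem_singleton_iff, not_or,
    not_lt] at hc
  refine ⟨s, ?_, isUnit_of_qm (T := O) ?_⟩
  · rw [← residue_ne_zero_iff_isUnit, map_sub, map_ofNat]
    exact sub_ne_zero.2 hc.2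
  · rw [map_sub, map_one, ← res_smul, sub_eq_add_neg, ← smul_neg,
      isUnit_iff_rk (k := ResidueField O)]
    exact le_antisymm (rk_le _) (((isUnit_iff_rk (k := ResidueField O)
      (1 : QA A (maximalIdeal O))).1 isUnit_one).symm.trans_le hc.1)

include O in
omit [IsDomain O] [Module.Free O A] in
theorem vt_unit_la {l : A} (hl : l + star l = 1) : ∃ l0 : Aˣ, La l l0 := by
  obtain ⟨s, ⟨u, hu⟩, hs⟩ := vt_generic (O := O) l
  have h1 : IsUnit (algebraMap O A (-(u⁻¹ : Oˣ)) * (1 - s • l)) :=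
    (((u⁻¹).isUnit.neg).map (algebraMap O A)).mul hs
  refine ⟨h1.unit, ?_⟩
  refine ((alt_sub_star l).cmul (μ := algebraMap O A (u⁻¹ : Oˣ)) (Algebra.commutes _)
    (StarFix.fix _)).of_eq ?_
  have a1 : star l = 1 - l := eq_sub_of_add_eq' hl
  have a2 : s = u + 2 := by rw [hu]; ring
  rw [IsUnit.unit_spec, a1, ← Algebra.smul_def, ← Algebra.smul_def, a2, smul_sub, smul_smul]
  have a3 : -((u⁻¹ : Oˣ) : O) * (u + 2) = -(1 + 2 * (u⁻¹ : Oˣ)) := by
    rw [neg_mul, mul_add, Units.inv_mul, mul_comm]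
  rw [a3]
  module

variable (O) in
include O in
omit [IsDomain O] [Module.Free O A] in
/-- There is a unit in `l + Alt`. -/
theorem exists_unit_la {l : A} (hl : l + star l = 1) : ∃ l0 : Aˣ, La l l0 :=
  vt_unit_la (O := O) hl

omit [IsDomain O] [IsLocalRing O] [Infinite (ResidueField O)] [StarRing A] [StarFix O A]
  [Module.Finite O A] [Module.Free O A] in
theorem vt_dv_iff {c : O} {a b : A} :
    Dv c (a - b) ↔ qm (Ideal.span {c}) a = qm (Ideal.span {c}) b := qm_span_eq_iff.symm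

omit [IsDomain O] [Infinite (ResidueField O)] [StarRing A] [StarFix O A] [Module.Free O A] in
theorem vt_unit {I : Ideal O} (hI : I ≤ maximalIdeal O) {a b : A} (h1 : qm I (a * b) = 1)
    (h2 : qm I (b * a) = 1) : IsUnit a := by
  refine isUnit_of_qm (T := O) ⟨⟨qm _ a, qm _ b, ?_, ?_⟩, rfl⟩
  · rw [← map_mul, qm_mono hI (h1.trans (map_one _).symm), map_one]
  · rw [← map_mul, qm_mono hI (h2.trans (map_one _).symm), map_one]

omit [IsDomain O] [Infinite (ResidueField O)] [StarRing A] [StarFix O A] [Module.Free O A] in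
theorem vt_unit_one_add {c : O} (hc : c ∈ maximalIdeal O) (n : A) : IsUnit (1 + c • n) :=
  isUnit_of_qm (T := O) (by rw [map_add, map_one, qm_smul hc, add_zero]; exact isUnit_one)

/-- V4, the torus move. -/
theorem exists_v4 {l w : A} (hl : l + star l = 1) {lam μ ε : O} {j : ℕ} (hj : 1 ≤ j)
    (hμ : μ ∈ maximalIdeal O) (hlam : lam ≠ 0) (hε : IsUnit ε) (e : lam = μ ^ j * ε)
    (hw : Dv (lam ^ 2) (w * w - w)) (hq : Dv (lam ^ 2) (star w * l * w)) :
    ∃ l1 m T c a : A, La l l1 ∧ l1 * m = μ • (1 : A) ∧ m * l1 = μ • (1 : A) ∧ IsUnit T ∧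
      Dv (lam ^ 2) ((w - w * l * star w) * (w - w * l * star w) - (w - w * l * star w)) ∧
      Dv (lam ^ 2) ((w - w * l * star w) * w - w) ∧
      Dv (lam ^ 2) (l1 - T * (μ • (w - w * l * star w) + 1 - (w - w * l * star w))) ∧
      (μ • (1 : A) - m) ^ j = w * c + lam • a ∧ Dv lam (star w * a) := by
  obtain ⟨i, rfl⟩ : ∃ i, j = i + 1 := ⟨j - 1, by omega⟩
  obtain ⟨ε, rfl⟩ := hε
  have hμ0 : μ ≠ 0 := by
    rintro rfl
    exact hlam (by rw [e]; simp)
  have hlm : lam ∈ maximalIdeal O := by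
    rw [e, pow_succ]
    exact Ideal.mul_mem_right _ _ (Ideal.mul_mem_left _ _ hμ)
  set I : Ideal O := Ideal.span {lam ^ 2} with hId
  have hI : I ≤ maximalIdeal O := by
    rw [hId, Ideal.span_singleton_le_iff_mem, pow_two]
    exact Ideal.mul_mem_left _ _ hlm
  set π : A →+* QA A I := qm I with hπ
  have hst : ∀ a, π (star a) = star (π a) := qm_star I
  let ψ : O →+* QA A I := π.comp (algebraMap O A)
  have hψ : ∀ (t : O) (a : A), π (t • a) = ψ t * π a := fun t a => by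
    rw [Algebra.smul_def, map_mul]; rfl
  have cψ : ∀ t, Cen (ψ t) := fun t b => by
    obtain ⟨b, rfl⟩ := qm_surjective I b
    change π _ * π b = π b * π _
    rw [← map_mul, ← map_mul, Algebra.commutes]
  have sψ : ∀ t, star (ψ t) = ψ t := fun t => by
    change star (π _) = π _
    rw [← hst, StarFix.fix]
  have hl' : π l + star (π l) = 1 := by rw [← hst, ← map_add, hl, map_one]
  have hw' : π w * π w = π w := by rw [← map_mul]; exact vt_dv_iff.1 hw
  have hq' : star (π w) * π l * π w = 0 := by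
    rw [← hst, ← map_mul, ← map_mul, ← map_zero π]
    exact vt_dv_iff.1 (by rwa [sub_zero])
  obtain ⟨hy, hew, -⟩ := hyp_of_isotropic hl' hw' (alt_zero.of_eq hq')
  set E := w - w * l * star w with hE
  have hπE : π w - π w * π l * star (π w) = π E := by
    rw [hE, map_sub, map_mul, map_mul, hst]
  rw [hπE] at hy hew
  clear_value E
  obtain ⟨s, ⟨u, hu⟩, ⟨z, hz⟩⟩ := vt_generic (O := O) ((1 - E - star E) * l * (1 - E - star E))
  obtain ⟨κ, hκ⟩ : IsUnit (1 - μ) := isUnit_one_sub_self_of_mem_nonunits μ hμ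
  have hκ' : (1 - ψ μ) * ψ (κ⁻¹ : Oˣ) = 1 := by
    rw [← map_one ψ, ← map_sub, ← map_mul, ← hκ, Units.mul_inv]
  have hz0 : 1 - ψ s * ((1 - π E - star (π E)) * π l * (1 - π E - star (π E))) = π z := by
    rw [hz, map_sub, map_one, hψ, map_mul, map_mul, map_sub, map_sub, map_one, hst]
  obtain ⟨L, T, Ti, M, h1, h2, h3, h4, h5, h6, h7, h8, h9⟩ :=
    vt_alg (μ := ψ μ) (κ := ψ (κ⁻¹ : Oˣ)) (s := ψ s) (t := ψ (u⁻¹ : Oˣ)) (z := π (z⁻¹ : Aˣ)) hl' hy
      (cψ _) (cψ _) (cψ _) (cψ _) (sψ _) (sψ _) hκ'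
      (by rw [← map_ofNat ψ 2, ← map_sub, ← map_mul, ← hu, Units.mul_inv, map_one])
      (by rw [hz0, ← map_mul, Units.mul_inv, map_one])
      (by rw [hz0, ← map_mul, Units.inv_mul, map_one])
  obtain ⟨l1, hl1, rfl⟩ := La.lift π hst (qm_surjective I) h1
  obtain ⟨T, rfl⟩ := qm_surjective I T
  obtain ⟨Ti, rfl⟩ := qm_surjective I Ti
  obtain ⟨m0, rfl⟩ := qm_surjective I M
  have hψ1 : ψ μ = π (μ • 1) := by rw [hψ, map_one, mul_one]
  have e2 : lam ^ 2 = μ * (μ * (μ ^ i * ε) ^ 2) := by rw [e]; ring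
  obtain ⟨n, hn⟩ : Dv (lam ^ 2) (l1 * m0 - μ • 1) := vt_dv_iff.2 (by rw [map_mul, ← hψ1]; exact h5)
  obtain ⟨n', hn'⟩ : Dv (lam ^ 2) (m0 * l1 - μ • 1) :=
    vt_dv_iff.2 (by rw [map_mul, ← hψ1]; exact h6)
  obtain ⟨U, hU⟩ := vt_unit_one_add (Ideal.mul_mem_right ((μ ^ i * ε) ^ 2) _ hμ) n
  obtain ⟨U', hU'⟩ := vt_unit_one_add (Ideal.mul_mem_right ((μ ^ i * ε) ^ 2) _ hμ) n'
  have g1 : l1 * (m0 * (U⁻¹ : Aˣ)) = μ • 1 := by
    have : l1 * m0 = μ • (U : A) := by
      rw [hU, smul_add, smul_smul, ← e2, ← hn]; abel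
    rw [← mul_assoc, this, smul_mul_assoc, Units.mul_inv]
  have g2 : ((U'⁻¹ : Aˣ) * m0) * l1 = μ • 1 := by
    have : m0 * l1 = μ • (U' : A) := by
      rw [hU', smul_add, smul_smul, ← e2, ← hn']; abel
    rw [mul_assoc, this, mul_smul_comm, Units.inv_mul]
  have g3 : m0 * (U⁻¹ : Aˣ) = (U'⁻¹ : Aˣ) * m0 := by
    refine smul_right_injective A hμ0 ?_
    change μ • (m0 * (U⁻¹ : Aˣ)) = μ • ((U'⁻¹ : Aˣ) * m0)
    calc μ • (m0 * (U⁻¹ : Aˣ)) = (μ • (1 : A)) * (m0 * (U⁻¹ : Aˣ)) := by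
          rw [smul_mul_assoc, one_mul]
      _ = ((U'⁻¹ : Aˣ) * m0) * (l1 * (m0 * (U⁻¹ : Aˣ))) := by rw [← g2, mul_assoc]
      _ = _ := by rw [g1, mul_smul_comm, mul_one]
  rw [← g3] at g2
  generalize m0 * (U⁻¹ : Aˣ) = m at g1 g2
  obtain ⟨⟨b1, hb1⟩, b2, hb2⟩ := vt_pow (m := π m) (cψ μ) (cψ _) hκ' hy.idem h3 h4
    (by rw [← map_mul, g1, hψ1]) h7 h8 h9 (i + 1)
  obtain ⟨b1, rfl⟩ := qm_surjective I b1
  set y := (μ • (1 : A) - m) ^ (i + 1) with hy0
  have hπy : (ψ μ - π m) ^ (i + 1) = π y := by rw [hy0, map_pow, map_sub, hψ1]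
  rw [hπy] at hb1 hb2
  clear_value y
  have e3 : μ ^ (i + 1) = lam * (ε⁻¹ : Oˣ) := by rw [e, Units.mul_inv_cancel_right]
  obtain ⟨n1, hn1⟩ : Dv (lam ^ 2) ((1 - E) * y - μ ^ (i + 1) • b1) :=
    vt_dv_iff.2 (by rw [map_mul, map_sub, map_one]; exact hb1.trans (by rw [hψ, map_pow]))
  have ha : (1 - E) * y = lam • (((ε⁻¹ : Oˣ) : O) • b1 + lam • n1) := by
    rw [smul_add, smul_smul, smul_smul, ← e3, ← pow_two, ← hn1]; abel
  have hwE : star (π w) = star (π w) * star (π E) := by rw [← star_mul, hew]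
  have hz2 : ψ (lam ^ 2) = 0 := by
    have := qm_smul (A := A) (Ideal.mem_span_singleton_self (lam ^ 2)) 1
    rwa [← hπ, hψ, map_one, mul_one] at this
  have k1 : star (π E) * π y = 0 := by
    rw [hb2, ← map_pow, ← map_pow, e3, mul_pow, map_mul, hz2, zero_mul, zero_mul]
  have k2 : star (π E) * π E = 0 := hy.star_mul
  obtain ⟨n2, hn2⟩ : Dv (lam ^ 2) (star w * ((1 - E) * y) - 0) := vt_dv_iff.2 (by
    change π _ = π _
    rw [map_zero, map_mul, map_mul, map_sub, map_one, hst, hwE, mul_assoc, sub_mul, mul_sub,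
      one_mul, k1, ← mul_assoc (star (π E)), k2, zero_mul, sub_zero, mul_zero])
  refine ⟨l1, m, T, (1 - l * star w) * y, ((ε⁻¹ : Oˣ) : O) • b1 + lam • n1, hl1, g1, g2,
    vt_unit hI (by rw [map_mul]; exact h2) (by rw [map_mul]; exact h3),
    vt_dv_iff.2 (by rw [map_mul]; exact hy.idem), vt_dv_iff.2 (by rw [map_mul]; exact hew),
    vt_dv_iff.2 ?_, ?_, n2, ?_⟩
  · refine h4.trans ?_
    change π T * _ = π _
    rw [map_mul, map_sub, map_add, map_one, hψ]
  · rw [← hy0, ← ha, hE]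
    noncomm_ring
  · refine smul_right_injective A hlam ?_
    change lam • (star w * _) = lam • (lam • n2)
    rw [← mul_smul_comm, ← ha, smul_smul, ← pow_two, ← hn2, sub_zero]

end Pool.Agent.GSD
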