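import Pool.Agent.P.MP_c1f06d_ag.d.DQAz0
import Pool.Agent.P.MP_c1f06d_ag.d.ValT

open Matrix Module Polynomial Pool.Agent.SU IsLocalRing

universe u

namespace Pool.Agent.GSD

variable {T T' S A A' : Type u} [CommRing T] [CommRing T'] [CommRing S] [Ring A] [Ring A']
  [StarRing A] [StarRing A'] [Algebra T A] [Algebra T' A'] {f : T →+* T'} {j : A →+* A'} {m : ℕ}
  {l : A} {n : Type} [Fintype n] [DecidableEq n]

/-- A splitting over a field that contains the residue field. -/
theorem dqaz_field [IsLocalRing T] [Infinite (ResidueField T)] (h : QAz T m l) :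
    ∃ (F : Type u) (_ : Field F) (s : T →+* F) (φ : A →+* Matrix (Fin m) (Fin m) F)
      (Q : Matrix (Fin m) (Fin m) F), QSpl l s φ Q ∧ (∀ t, s t ≠ 0 → IsUnit t) ∧
        (Set.range s).Infinite := by
  obtain ⟨S, _, f, φ, Q, hf, hQ⟩ := h
  obtain ⟨P, hP⟩ := (RingHom.FaithfullyFlat.iff_flat_and_comap_surjective.1 hf).2 (closedPoint T)
  have h1 : ∀ t, ((algebraMap S P.asIdeal.ResidueField).comp f) t ≠ 0 → IsUnit t := by
    intro t ht
    by_contra hn
    have h2 : t ∈ (PrimeSpectrum.comap f P).asIdeal := hP ▸ (mem_maximalIdeal t).2 hn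
    exact ht (Ideal.algebraMap_residueField_eq_zero.2 h2)
  refine ⟨_, inferInstance, _, _, _, hQ.post (algebraMap S P.asIdeal.ResidueField), h1, ?_⟩
  generalize (algebraMap S P.asIdeal.ResidueField).comp f = s at h1
  have : IsLocalHom s := ⟨fun t ht => h1 t ht.ne_zero⟩
  refine Set.infinite_of_injective_forall_mem (ResidueField.lift s).injective fun x => ?_
  obtain ⟨t, rfl⟩ := residue_surjective x
  exact ⟨t, (ResidueField.lift_residue_apply s t).symm⟩

section Fld
variable {F : Type u} [Field F] {s : T →+* F} {φ : A →+* Matrix (Fin m) (Fin m) F}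
  {Q : Matrix (Fin m) (Fin m) F}

omit [StarRing A] in
theorem dqaz_unit (h : Az T A) (hφ : BC s φ) (hs : ∀ t, s t ≠ 0 → IsUnit t) {a : A}
    (ha : (φ a).det ≠ 0) : IsUnit a :=
  h.isUnit_nrd_iff.1 (hs _ (by rwa [h.nrd_spec hφ]))

omit [StarRing A] in
/-- The image of `A` is Zariski dense. -/
theorem dqaz_gen (hφ : BC s φ) (hs : (Set.range s).Infinite)
    (L : Matrix (Fin m) (Fin m) F →ₗ[F] Matrix (Fin m) (Fin m) F) {X0 : Matrix (Fin m) (Fin m) F}
    (h0 : (L X0).det ≠ 0) : ∃ a, (L (φ a)).det ≠ 0 := by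
  obtain ⟨N, b, b', hb⟩ := hφ.basis
  let P : MvPolynomial (Fin N) F :=
    (∑ i, (MvPolynomial.X i : MvPolynomial (Fin N) F) • (L (b' i)).map MvPolynomial.C).det
  have hP : ∀ x, MvPolynomial.eval x P = (L (∑ i, x i • b' i)).det := fun x => by
    rw [RingHom.map_det, map_sum L]
    congr 1
    ext p q
    simp [Matrix.sum_apply]
  by_contra hn
  push Not at hn
  have h1 : P = 0 := MvPolynomial.funext_set (fun _ => Set.range s) (fun _ => hs) fun x hx => by
    choose t ht using fun i => hx i (Set.mem_univ i)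
    rw [hP, map_zero, ← hn (∑ i, t i • b i), map_sum φ]
    simp only [hφ.smul, hb, ht]
  apply h0
  rw [← b'.sum_repr X0, ← hP, h1, map_zero]

theorem dqaz_alt (h : QSpl l s φ Q) (a : A) :
    (Q + Qᵀ) * φ (a - star a) = (Q + Qᵀ) * φ a - ((Q + Qᵀ) * φ a)ᵀ := by
  rw [map_sub, mul_sub, h.adj, transpose_mul, transpose_add, transpose_transpose, add_comm Qᵀ]

omit [StarRing A] in
/-- A linear map that kills the image of `A` is zero. -/
theorem dqaz_lin {V : Type*} [AddCommGroup V] [Module F V] (hφ : BC s φ)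
    (L : Matrix (Fin m) (Fin m) F →ₗ[F] V) (h : ∀ a, L (φ a) = 0) (X) : L X = 0 :=
  hφ.induction (p := fun X => L X = 0) (map_zero L) (fun t a => by rw [map_smul, h, smul_zero])
    (fun x y hx hy => by rw [map_add, hx, hy, add_zero]) X

/-- The map `X ↦ B X - (B X)ᵀ`. -/
def dqazL (B : Matrix (Fin m) (Fin m) F) :
    Matrix (Fin m) (Fin m) F →ₗ[F] Matrix (Fin m) (Fin m) F where
  toFun X := B * X - (B * X)ᵀ
  map_add' X Y := by rw [mul_add, transpose_add]; abel
  map_smul' c X := by rw [Matrix.mul_smul, transpose_smul, RingHom.id_apply, smul_sub]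

theorem dqazL_inv {B : Matrix (Fin m) (Fin m) F} (hB : IsUnit B.det)
    (U : Matrix (Fin m) (Fin m) F) : dqazL B (B⁻¹ * U) = U - Uᵀ := by
  change B * (B⁻¹ * U) - (B * (B⁻¹ * U))ᵀ = _
  rw [mul_nonsing_inv_cancel_left _ _ hB]

theorem dqaz_eval (Y W : Matrix (Fin m) (Fin m) F) (t : F) :
    ((Y.map C + (X : F[X]) • W.map C).det).eval t = (Y + t • W).det := by
  rw [← coe_evalRingHom, RingHom.map_det]
  congr 1
  ext p q
  simp only [RingHom.mapMatrix_apply, Matrix.map_apply, Matrix.add_apply, Matrix.smul_apply,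
    smul_eq_mul, coe_evalRingHom, eval_add, eval_mul, eval_C, eval_X]

/-- A unit of `l + Alt` that is not symmetric modulo the maximal ideal. -/
theorem dqaz_nsym [IsLocalRing T] [Infinite (ResidueField T)] (h : QAz T m l) (hm : 2 ≤ m)
    (hQ : QSpl l s φ Q) (hs : ∀ t, s t ≠ 0 → IsUnit t) (hi : (Set.range s).Infinite) :
    ∃ y : A, La l y ∧ IsUnit y ∧ φ (star y) ≠ φ y := by
  have := h.starFix
  have := h.az.finite
  obtain ⟨y, hy⟩ := exists_unit_la T h.add_star
  by_cases h1 : φ (star (y : A)) = φ y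
  swap
  · exact ⟨y, hy, y.isUnit, h1⟩
  have h2 : φ y + φ y = 1 := by
    have := congrArg φ (hy.add_star h.add_star)
    rwa [map_add, map_one, h1] at this
  obtain ⟨a, ha⟩ : ∃ a, dqazL (Q + Qᵀ) (φ a) ≠ 0 := by
    by_contra hn
    push Not at hn
    have h3 := dqaz_lin hQ.toBC _ hn ((Q + Qᵀ)⁻¹ * single ⟨0, by omega⟩ ⟨1, by omega⟩ 1)
    rw [dqazL_inv hQ.unit] at h3
    have h4 := congrFun (congrFun h3 ⟨0, by omega⟩) ⟨1, by omega⟩
    simp at h4
  have h3 : φ (a - star a) ≠ 0 := fun e => ha (by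
    have := dqaz_alt hQ a
    rw [e, mul_zero] at this
    exact this.symm)
  have h4 : ((φ y).map C + (X : F[X]) • (φ (a - star a)).map C).det ≠ 0 := fun e => by
    have h5 := dqaz_eval (φ y) (φ (a - star a)) 0
    rw [e, eval_zero, zero_smul, add_zero] at h5
    exact ((Matrix.isUnit_iff_isUnit_det _).1 (y.isUnit.map φ)).ne_zero h5.symm
  obtain ⟨_, ⟨t, rfl⟩, h5⟩ := (hi.sdiff ((finite_setOfPred_isRoot h4).insert 0)).nonempty
  simp only [Set.mem_insert_iff, Set.mem_ofPred_eq, not_or, IsRoot, dqaz_eval] at h5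
  have h6 : Alt (t • (a - star a)) := by
    rw [Algebra.smul_def]
    exact (alt_sub_star a).cmul (Algebra.commutes t) (StarFix.fix t)
  refine ⟨y + t • (a - star a), hy.add_alt h6, dqaz_unit h.az hQ.toBC hs ?_, fun e => ?_⟩
  · rw [map_add, hQ.toBC.smul]
    exact h5.2
  · rw [star_add, h6.star_eq, map_add, map_add, h1, map_neg, add_right_inj, hQ.toBC.smul] at e
    have h7 : φ (a - star a) + φ (a - star a) = 0 := by
      rw [← (smul_eq_zero_iff_right h5.1), smul_add, add_eq_zero_iff_neg_eq, e]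
    apply h3
    rw [← one_mul (φ (a - star a)), ← h2, add_mul, ← mul_add, h7, mul_zero]

end Fld

/-- B8. -/
theorem QAz.exists_alt_unit [IsLocalRing T] [Infinite (ResidueField T)] (h : QAz T m l)
    (hm : Even m) : ∃ w : A, Alt w ∧ IsUnit w := by
  obtain ⟨F, _, s, φ, Q, hQ, hs, hi⟩ := dqaz_field h
  obtain ⟨k, rfl⟩ := hm
  let U : Matrix (Fin (k + k)) (Fin (k + k)) F :=
    reindex finSumFinEquiv finSumFinEquiv (fromBlocks 0 0 1 0)
  have hU : U - Uᵀ = reindex finSumFinEquiv finSumFinEquiv (J (Fin k) F) := by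
    ext p q
    obtain ⟨p, rfl⟩ := finSumFinEquiv.surjective p
    obtain ⟨q, rfl⟩ := finSumFinEquiv.surjective q
    simp only [U, reindex_apply, Matrix.sub_apply, transpose_apply, submatrix_apply,
      Equiv.symm_apply_apply, J]
    rcases p with p | p <;> rcases q with q | q <;> simp [one_apply, eq_comm]
  obtain ⟨a, ha⟩ := dqaz_gen hQ.toBC hi (dqazL (Q + Qᵀ)) (X0 := (Q + Qᵀ)⁻¹ * U) (by
    rw [dqazL_inv hQ.unit, hU, det_reindex_self]
    exact (isUnit_det_J _ _).ne_zero)
  refine ⟨a - star a, alt_sub_star a, dqaz_unit h.az hQ.toBC hs fun e => ha ?_⟩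
  exact (congrArg det (dqaz_alt hQ a).symm).trans (by rw [det_mul, e, mul_zero])

/-- A line in `l + Alt` along which the norm has a unit value and a unit derivative. -/
theorem QAz.exists_smooth_line [IsLocalRing T] [Infinite (ResidueField T)] (h : QAz T m l)
    (hm : 2 ≤ m) : ∃ (y w : A) (p : T[X]), La l y ∧ IsUnit y ∧ Alt w ∧ p.coeff 0 = nrd T y ∧
      IsUnit (p.coeff 1) ∧ ∀ (T' A' : Type u) [CommRing T'] [Ring A'] [Algebra T' A']
        (f : T →+* T') (j : A →+* A'), BC f j → ∀ t : T',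
          nrd T' (j y + t • j w) = (p.map f).eval t := by
  obtain ⟨F, _, s, φ, Q, hQ, hs, hi⟩ := dqaz_field h
  obtain ⟨y, h1, h2, h3⟩ := dqaz_nsym h hm hQ hs hi
  obtain ⟨u, rfl⟩ := h2
  have htr : ∀ a, trace (φ (star a)) = trace (φ a) := fun a => by
    rw [← nonsing_inv_mul_cancel_left _ (φ (star a)) hQ.unit, hQ.adj, trace_mul_comm,
      mul_nonsing_inv_cancel_right _ _ hQ.unit, trace_transpose]
  obtain ⟨z, hz⟩ : ∃ z : A, z = (u⁻¹ : Aˣ) := ⟨_, rfl⟩
  have e1 : (u : A) * z = 1 := by simp [hz]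
  have e2 : z * (u : A) = 1 := by simp [hz]
  obtain ⟨a, ha⟩ : ∃ a, trace (φ z * φ (a - star a)) ≠ 0 := by
    by_contra hn
    push Not at hn
    have h4 := dqaz_lin hQ.toBC
      ((traceLinearMap _ F F).comp (LinearMap.mulLeft F (φ z - φ (star z)))) fun a => by
        have h5 := htr (a * star z)
        rw [star_mul, star_star, map_mul, map_mul, trace_mul_comm (φ a)] at h5
        have h6 := hn a
        rw [map_sub, mul_sub, trace_sub, h5] at h6
        simpa [sub_mul] using h6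
    have h5 : φ z - φ (star z) = 0 := ext_iff_trace_mul_right.2 fun X => by simpa using h4 X
    apply h3
    rw [sub_eq_zero] at h5
    have h6 : φ (star (u : A)) * φ z = 1 := by
      rw [h5, ← map_mul, ← star_mul, e2, star_one, map_one]
    rw [← mul_one (φ (star (u : A))), ← map_one φ, ← e2, map_mul, ← mul_assoc, h6, one_mul]
  obtain ⟨p, h4, h5⟩ := h.az.exists_line u (a - star a)
  refine ⟨u, a - star a, p, h1, u.isUnit, alt_sub_star a, h4, hs _ ?_, h5⟩
  have : Infinite F := Set.infinite_univ_iff.1 (hi.mono (Set.subset_univ _))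
  have h6 : p.map s = C (φ u).det * (1 + (X : F[X]) • (φ z * φ (a - star a)).map C).det := by
    refine Polynomial.funext fun t => ?_
    have h7 := dqaz_eval 1 (φ z * φ (a - star a)) t
    rw [Matrix.map_one _ (map_zero _) (map_one _)] at h7
    rw [← h5 F _ s φ hQ.toBC, eval_mul, eval_C, h7, ← det_mul, mul_add, mul_one,
      Matrix.mul_smul, ← mul_assoc, ← map_mul, e1, map_one, one_mul]
    exact (h.az.map hQ.toBC).nrd_spec BC.refl _
  rw [← coeff_map, h6, coeff_C_mul, coeff_det_one_add_X_smul_one]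
  exact mul_ne_zero ((Matrix.isUnit_iff_isUnit_det _).1 (u.isUnit.map φ)).ne_zero ha

end Pool.Agent.GSD
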