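import Pool.Agent.P.MP_c1f06d_ag.d.DQAz

open Matrix Module Pool.Agent.SU IsLocalRing

universe u

namespace Pool.Agent.GSD

variable {T T' A A' : Type u} [CommRing T] [CommRing T'] [Ring A] [Ring A']
  [StarRing A] [StarRing A'] [Algebra T A] [Algebra T' A'] {f : T →+* T'} {j : A →+* A'} {m : ℕ}
  {l g g' : A} {c c' : T}

section Aux
variable {n n' n'' : Type} [Fintype n] [Fintype n'] [Fintype n'']

/-- The pairing `C Z D*`. -/
def dwallP (C : n → A) (Z : Matrix n n' A) (D : n' → A) : A :=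
  (replicateRow Unit C * Z * (replicateRow Unit D)ᴴ) () ()

/-- The matrix `C* a D`. -/
def dwallG (a : A) (C : n → A) (D : n' → A) : Matrix n n' A :=
  Matrix.of fun i j => star (C i) * a * D j

omit [Fintype n] [Fintype n'] in
theorem dwallG_eq (a : A) (C : n → A) (D : n' → A) :
    dwallG a C D = (replicateRow Unit C)ᴴ * (Matrix.of fun _ _ => a : Matrix Unit Unit A) *
      replicateRow Unit D := by
  ext i j
  simp [dwallG, Matrix.mul_apply]

omit [Fintype n] in
theorem dwall_gram (a : A) (C : n → A) : gram a C = dwallG a C C := rfl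

omit [Fintype n] [Fintype n'] in
theorem dwallG_star (a : A) (C : n → A) (D : n' → A) : (dwallG a C D)ᴴ = dwallG (star a) D C := by
  ext i j
  simp [dwallG, mul_assoc]

theorem dwallP_eq (C : n → A) (Z : Matrix n n' A) (D : n' → A) :
    dwallP C Z D = ∑ i, ∑ j, C i * Z i j * star (D j) := by
  rw [Finset.sum_comm]
  simp [dwallP, Matrix.mul_apply, Finset.sum_mul]

theorem dwall_wiso (C : n → A) (Z : Matrix n n A) : wiso C Z = 1 - dwallP C Z C := by
  rw [dwallP_eq, wiso]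

theorem dwallP_star (C : n → A) (Z : Matrix n n' A) (D : n' → A) :
    star (dwallP C Z D) = dwallP D Zᴴ C := by
  have h : replicateRow Unit D * Zᴴ * (replicateRow Unit C)ᴴ =
      (replicateRow Unit C * Z * (replicateRow Unit D)ᴴ)ᴴ := by
    rw [conjTranspose_mul, conjTranspose_mul, conjTranspose_conjTranspose, Matrix.mul_assoc]
  rw [dwallP, dwallP, h, conjTranspose_apply]

theorem dwallP_sub (C : n → A) (Z Z' : Matrix n n' A) (D : n' → A) :
    dwallP C (Z - Z') D = dwallP C Z D - dwallP C Z' D := by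
  rw [dwallP, dwallP, dwallP, Matrix.mul_sub, Matrix.sub_mul, Matrix.sub_apply]

theorem dwallP_neg (C : n → A) (Z : Matrix n n' A) (D : n' → A) :
    dwallP C (-Z) D = -dwallP C Z D := by
  rw [dwallP, dwallP, Matrix.mul_neg, Matrix.neg_mul, Matrix.neg_apply]

theorem dwallP_mul {n3 : Type} [Fintype n3] (C : n → A) (Z : Matrix n n' A) (D : n' → A) (a : A)
    (E : n'' → A) (Z' : Matrix n'' n3 A) (F : n3 → A) :
    dwallP C (Z * dwallG a D E * Z') F = dwallP C Z D * a * dwallP E Z' F := by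
  have h : replicateRow Unit C * (Z * dwallG a D E * Z') * (replicateRow Unit F)ᴴ =
      (replicateRow Unit C * Z * (replicateRow Unit D)ᴴ) *
        (Matrix.of fun _ _ => a : Matrix Unit Unit A) *
        (replicateRow Unit E * Z' * (replicateRow Unit F)ᴴ) := by
    rw [dwallG_eq]
    simp only [Matrix.mul_assoc]
  rw [dwallP, h, dwallP, dwallP]
  generalize replicateRow Unit C * Z * (replicateRow Unit D)ᴴ = X
  generalize replicateRow Unit E * Z' * (replicateRow Unit F)ᴴ = X'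
  simp [Matrix.mul_apply]

theorem dwallP_blocks (C : n → A) (D : n' → A) (X : Matrix n n A) (Y : Matrix n n' A)
    (Z : Matrix n' n' A) :
    dwallP (Sum.elim C D) (fromBlocks X Y 0 Z) (Sum.elim C D) =
      dwallP C X C + dwallP C Y D + dwallP D Z D := by
  simp [dwallP_eq, Fintype.sum_sum_type, Finset.sum_add_distrib, add_assoc]

variable [DecidableEq n] [DecidableEq n']

theorem dwallP_alt (C : n → A) {W : Matrix n n A} (hW : Alt W) : Alt (dwallP C W C) := by
  obtain ⟨K, rfl⟩ := hW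
  exact ⟨dwallP C K C, by rw [dwallP_sub, dwallP_star, star_eq_conjTranspose]⟩

theorem dwall_gram_alt {a : A} (ha : Alt a) (C : n → A) : Alt (gram a C) := by
  obtain ⟨k, rfl⟩ := ha
  refine ⟨gram k C, ?_⟩
  ext i j
  simp [gram, mul_sub, sub_mul, mul_assoc]

/-- A Wall datum of any size. -/
structure DwallD (l : A) (C : n → A) (Y Z : Matrix n n A) : Prop where
  yz : Y * Z = 1
  zy : Z * Y = 1
  alt : Alt (Y - gram l C)

theorem DwallD.iso {C : n → A} {Y Z : Matrix n n A} (h : DwallD l C Y Z) (h0 : l + star l = 1) :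
    Iso l (wiso C Z) := by
  have h1 : star (dwallP C Z C) * l * dwallP C Z C =
      star (dwallP C Z C) - dwallP C (star Z * (Y - gram l C) * Z) C := by
    rw [dwallP_star, ← dwallP_mul, ← dwallP_sub, ← dwall_gram, star_eq_conjTranspose,
      Matrix.mul_sub, Matrix.sub_mul, Matrix.mul_assoc Zᴴ Y Z, h.yz, Matrix.mul_one, sub_sub_cancel]
  have h2 := dwallP_alt C (h.alt.conj Z)
  rw [Iso, dwall_wiso]
  generalize dwallP C (star Z * (Y - gram l C) * Z) C = w at h1 h2
  generalize dwallP C Z C = s at h1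
  refine ((alt_star_sub (l * s)).sub h2).of_eq ?_
  have h3 : star l = 1 - l := eq_sub_of_add_eq' h0
  have h4 : star (1 - s) * l * (1 - s) - l = star s * l * s - star s * l - l * s := by
    rw [star_sub, star_one]; noncomm_ring
  rw [h4, h1, star_mul, h3]
  noncomm_ring

theorem DwallD.star {C : n → A} {Y Z : Matrix n n A} (h : DwallD l C Y Z) :
    DwallD l C (star Y) (star Z) where
  yz := by rw [← star_mul, h.zy, star_one]
  zy := by rw [← star_mul, h.yz, star_one]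
  alt := (h.alt.star.add (alt_star_sub (gram l C))).of_eq (by rw [star_sub]; abel)

omit [DecidableEq n] in
theorem dwall_wiso_star (C : n → A) (Z : Matrix n n A) : wiso C (star Z) = star (wiso C Z) := by
  rw [dwall_wiso, dwall_wiso, star_sub, star_one, dwallP_star, star_eq_conjTranspose]

theorem DwallD.mul {C : n → A} {Y Z : Matrix n n A} {C' : n' → A} {Y' Z' : Matrix n' n' A}
    (h : DwallD l C Y Z) (h' : DwallD l C' Y' Z') (h0 : l + Star.star l = 1) :
    DwallD l (Sum.elim C C') (fromBlocks Y (dwallG 1 C C') 0 Y')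
      (fromBlocks Z (-(Z * dwallG 1 C C' * Z')) 0 Z') where
  yz := by
    rw [fromBlocks_multiply, ← fromBlocks_one]
    simp only [Matrix.mul_zero, Matrix.zero_mul, add_zero, zero_add, h.yz, h'.yz, Matrix.mul_neg,
      ← Matrix.mul_assoc, Matrix.one_mul, neg_add_cancel, neg_zero]
  zy := by
    rw [fromBlocks_multiply, ← fromBlocks_one]
    simp only [Matrix.mul_zero, Matrix.zero_mul, add_zero, zero_add, h.zy, h'.zy, Matrix.neg_mul,
      Matrix.mul_assoc, Matrix.mul_one, add_neg_cancel]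
  alt := by
    obtain ⟨K, hK⟩ := h.alt
    obtain ⟨K', hK'⟩ := h'.alt
    have h3 : Star.star l = 1 - l := eq_sub_of_add_eq' h0
    refine ⟨fromBlocks K 0 (-dwallG l C' C) K', ?_⟩
    ext (i | i) (j | j)
    · simpa [gram] using congrFun (congrFun hK i) j
    · simp [gram, dwallG, h3, mul_sub, sub_mul, mul_assoc]
    · simp [gram, dwallG]
    · simpa [gram] using congrFun (congrFun hK' i) j

omit [DecidableEq n] [DecidableEq n'] in
theorem dwall_wiso_mul (C : n → A) (Z : Matrix n n A) (C' : n' → A) (Z' : Matrix n' n' A) :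
    wiso (Sum.elim C C') (fromBlocks Z (-(Z * dwallG 1 C C' * Z')) 0 Z') =
      wiso C Z * wiso C' Z' := by
  rw [dwall_wiso, dwall_wiso, dwall_wiso, dwallP_blocks, dwallP_neg, dwallP_mul]
  noncomm_ring

theorem DwallD.isUnit {C : n → A} {Y Z : Matrix n n A} (h : DwallD l C Y Z) : IsUnit Y :=
  ⟨⟨Y, Z, h.yz, h.zy⟩, rfl⟩

theorem DwallD.sn {C : n → A} {Y Z : Matrix n n A} (h : DwallD l C Y Z)
    (hn : Even (Fintype.card n)) (u : Tˣ) : SN T l (wiso C Z) ((u : T) ^ 2 * nrd T Y) :=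
  ⟨n, inferInstance, inferInstance, C, ⟨Y, Z, h.yz, h.zy⟩, u, hn, h.alt, rfl, rfl⟩

theorem dwallD_of_unit {C : n → A} (Y : (Matrix n n A)ˣ) (h : Alt ((Y : Matrix n n A) - gram l C)) :
    DwallD l C (Y : Matrix n n A) ((Y⁻¹ : (Matrix n n A)ˣ) : Matrix n n A) :=
  ⟨Y.mul_inv, Y.inv_mul, h⟩

theorem dwallD_single {y : Aˣ} (h : La l y) :
    DwallD l (fun _ : Unit => (1 : A)) (Matrix.of fun _ _ => (y : A))
      (Matrix.of fun _ _ => ((y⁻¹ : Aˣ) : A)) where
  yz := by ext i j; simp [Matrix.mul_apply]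
  zy := by ext i j; simp [Matrix.mul_apply]
  alt := by
    obtain ⟨k, hk⟩ := h
    refine ⟨Matrix.of fun _ _ => k, ?_⟩
    ext i j
    simpa [gram] using hk

theorem dwall_wiso_single (y : Aˣ) :
    wiso (fun _ : Unit => (1 : A)) (Matrix.of fun _ _ => ((y⁻¹ : Aˣ) : A)) = gl y := by
  simp [wiso, gl]

omit [Fintype n] [DecidableEq n] in
theorem dwall_gram_map (hj : ∀ a, j (star a) = star (j a)) (C : n → A) :
    (gram l C).map j = gram (j l) (fun i => j (C i)) := by
  ext i k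
  simp [gram, hj]

omit [DecidableEq n] in
theorem dwall_wiso_map (hj : ∀ a, j (star a) = star (j a)) (C : n → A) (Z : Matrix n n A) :
    j (wiso C Z) = wiso (fun i => j (C i)) (Z.map j) := by
  simp [wiso, hj]

omit [DecidableEq n] in
theorem dwall_gram_vecMul (C : n → A) (U : Matrix n n A) :
    gram l (C ᵥ* U) = star U * gram l C * U := by
  rw [dwall_gram, dwall_gram, dwallG_eq, dwallG_eq, replicateRow_vecMul, conjTranspose_mul,
    star_eq_conjTranspose]
  simp only [Matrix.mul_assoc]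

omit [StarRing A] in
theorem dwall_exists_U (C : n → A) (i0 : n) (hC : C i0 = 1) :
    ∃ U : Matrix n n A, IsUnit U ∧ C ᵥ* U = Pi.single i0 1 := by
  let E : Matrix n n A := vecMulVec (Pi.single i0 1) (C - Pi.single i0 1)
  have hE : E * E = 0 := by
    ext i k
    rw [Matrix.mul_apply, Matrix.zero_apply]
    refine Finset.sum_eq_zero fun x _ => ?_
    by_cases hx : x = i0
    · subst hx
      simp [E, vecMulVec_apply, hC]
    · simp [E, vecMulVec_apply, hx]
  refine ⟨1 - E, ⟨⟨1 - E, 1 + E, ?_, ?_⟩, rfl⟩, ?_⟩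
  · calc (1 - E) * (1 + E) = 1 - E * E := by noncomm_ring
      _ = 1 := by rw [hE, sub_zero]
  · calc (1 + E) * (1 - E) = 1 - E * E := by noncomm_ring
      _ = 1 := by rw [hE, sub_zero]
  · rw [vecMul_sub, vecMul_one]
    have : C ᵥ* E = C - Pi.single i0 1 := by
      funext k
      rw [vecMul, dotProduct, Finset.sum_eq_single i0]
      · simp [E, vecMulVec_apply, hC]
      · intro x _ hx
        simp [E, vecMulVec_apply, hx]
      · simp
    rw [this, sub_sub_cancel]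

omit [Fintype n] in
theorem dwall_gram_single (i0 : n) : gram l (Pi.single i0 1 : n → A) = Matrix.single i0 i0 l := by
  ext i k
  by_cases hi : i = i0
  · by_cases hk : k = i0
    · subst hi hk
      simp [gram]
    · simp [gram, hk, Ne.symm hk]
  · simp [gram, hi, Ne.symm hi]

theorem dwallD_plane (l : A) :
    DwallD l (Sum.elim (fun _ : Unit => (1 : A)) (fun _ : Unit => (0 : A)))
      (fromBlocks (Matrix.of fun _ _ => l) 1 (-1) 0)
      (fromBlocks 0 (-1) 1 (Matrix.of fun _ _ => l)) where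
  yz := by rw [fromBlocks_multiply, ← fromBlocks_one]; simp
  zy := by rw [fromBlocks_multiply, ← fromBlocks_one]; simp
  alt := by
    refine ⟨fromBlocks 0 1 0 0, ?_⟩
    ext (i | i) (k | k) <;> simp [gram]

theorem dwall_wiso_plane (l : A) :
    wiso (Sum.elim (fun _ : Unit => (1 : A)) (fun _ : Unit => (0 : A)))
      (fromBlocks 0 (-1) 1 (Matrix.of fun _ _ => l)) = 1 := by
  simp [wiso, Fintype.sum_sum_type]

end Aux

theorem SN.iso (h : QAz T m l) (hs : SN T l g c) : Iso l g ∧ g * star g = 1 := by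
  obtain ⟨n, _, _, C, Y, u, _, ha, rfl, _⟩ := hs
  have hd := dwallD_of_unit Y ha
  refine ⟨hd.iso h.add_star, ?_⟩
  have h2 := (hd.star.iso h.add_star).star_mul_self h.add_star
  rwa [dwall_wiso_star, star_star] at h2

theorem SN.isUnit (h : QAz T m l) (hs : SN T l g c) : IsUnit c := by
  obtain ⟨n, _, _, C, Y, u, _, _, _, rfl⟩ := hs
  exact (u.isUnit.pow 2).mul ((h.az.mat n).isUnit_nrd_iff.2 Y.isUnit)

theorem sn_one (h : QAz T m l) {u : T} (hu : IsUnit u) : SN T l 1 (u ^ 2) := by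
  have hd : DwallD l (fun x : Empty => (x.elim : A)) 1 1 :=
    ⟨mul_one _, mul_one _, alt_zero.of_eq (Subsingleton.elim _ _)⟩
  have h1 := hd.sn (by simp) hu.unit
  rw [(h.az.mat Empty).nrd_one, mul_one, hu.unit_spec] at h1
  simpa [wiso] using h1

theorem SN.mul (h : QAz T m l) (hs : SN T l g c) (hs' : SN T l g' c') :
    SN T l (g * g') (c * c') := by
  obtain ⟨n, _, _, C, Y, u, hn, ha, rfl, rfl⟩ := hs
  obtain ⟨n', _, _, C', Y', u', hn', ha', rfl, rfl⟩ := hs'
  have h1 := ((dwallD_of_unit Y ha).mul (dwallD_of_unit Y' ha') h.add_star).sn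
    (by rw [Fintype.card_sum]; exact hn.add hn') (u * u')
  rw [dwall_wiso_mul, h.az.nrd_fromBlocks₂₁, Units.val_mul] at h1
  rw [mul_mul_mul_comm, ← mul_pow]
  exact h1

theorem SN.inv (h : QAz T m l) (hs : SN T l g c) : SN T l (star g) c := by
  obtain ⟨n, _, _, C, Y, u, hn, ha, rfl, rfl⟩ := hs
  have h1 := (dwallD_of_unit Y ha).star.sn hn u
  rwa [dwall_wiso_star, h.nrd_star_mat] at h1

theorem SN.isSquare (h : QAz T m l) (hs : SN T l 1 c) : IsSquare c := by
  obtain ⟨n, _, _, C, Y, u, hn, ha, hg, rfl⟩ := hs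
  have hd := dwallD_of_unit Y ha
  generalize ((Y⁻¹ : (Matrix n n A)ˣ) : Matrix n n A) = Z at hd hg
  generalize (Y : Matrix n n A) = Y1 at hd
  have h0 : replicateRow Unit C * Z * (replicateRow Unit C)ᴴ = 0 := by
    rw [dwall_wiso] at hg
    ext i k
    exact sub_eq_self.1 hg.symm
  have h1 : Y1 - gram l C = Y1 * (1 + (-(Z * (replicateRow Unit C)ᴴ)) *
      ((Matrix.of fun _ _ => l : Matrix Unit Unit A) * replicateRow Unit C)) := by
    rw [dwall_gram, dwallG_eq, mul_add, mul_one, Matrix.neg_mul, Matrix.mul_neg, sub_eq_add_neg]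
    simp only [← Matrix.mul_assoc, hd.yz, Matrix.one_mul]
  have h2 : nrd T (Y1 - gram l C) = nrd T Y1 := by
    rw [h1, (h.az.mat n).nrd_mul, h.az.nrd_one_add_mul_comm, Matrix.mul_neg, Matrix.mul_assoc,
      ← Matrix.mul_assoc (replicateRow Unit C), h0, Matrix.mul_zero, neg_zero, add_zero,
      (h.az.mat Unit).nrd_one, mul_one]
  have h3 : IsUnit (Y1 - gram l C) := by
    rw [← (h.az.mat n).isUnit_nrd_iff, h2, (h.az.mat n).isUnit_nrd_iff]
    exact hd.isUnit
  have h4 := h.isSquare_nrd hn hd.alt h3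
  rw [h2] at h4
  exact (IsSquare.sq _).mul h4

theorem SN.ratio (h : QAz T m l) (hs : SN T l g c) (hs' : SN T l g c') : IsSquare (c * c') := by
  have h1 := hs.mul h (hs'.inv h)
  rw [(hs.iso h).2] at h1
  exact h1.isSquare h

theorem SN.mul_sq (hs : SN T l g c) {u : T} (hu : IsUnit u) : SN T l g (u ^ 2 * c) := by
  obtain ⟨n, _, _, C, Y, v, hn, ha, hg, rfl⟩ := hs
  refine ⟨n, inferInstance, inferInstance, C, Y, hu.unit * v, hn, ha, hg, ?_⟩
  rw [Units.val_mul, hu.unit_spec, mul_pow, mul_assoc]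

theorem SN.of_isSquare (h : QAz T m l) (hs : SN T l g c) (hu : IsUnit c')
    (hq : IsSquare (c * c')) : SN T l g c' := by
  obtain ⟨r, hr⟩ := hq
  obtain ⟨v, rfl⟩ := hs.isUnit h
  have h1 : IsUnit r := isUnit_of_mul_isUnit_left (hr ▸ v.isUnit.mul hu)
  have h2 := hs.mul_sq (h1.mul v⁻¹.isUnit)
  have h3 : (r * ((v⁻¹ : Tˣ) : T)) ^ 2 * v = c' := by
    calc (r * ((v⁻¹ : Tˣ) : T)) ^ 2 * v
        = (r * r) * ((v⁻¹ : Tˣ) : T) * (((v⁻¹ : Tˣ) : T) * v) := by ring
      _ = c' * (((v⁻¹ : Tˣ) : T) * v) * (((v⁻¹ : Tˣ) : T) * v) := by rw [← hr]; ring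
      _ = c' := by rw [Units.inv_mul, mul_one, mul_one]
  rwa [h3] at h2

theorem sn_gl (h : QAz T m l) {y1 y2 : Aˣ} (h1 : La l y1) (h2 : La l y2) :
    SN T l (gl y1 * gl y2) (nrd T (y1 : A) * nrd T (y2 : A)) := by
  have h3 := ((dwallD_single h1).mul (dwallD_single h2) h.add_star).sn
    (by simp) (1 : Tˣ)
  rw [dwall_wiso_mul, dwall_wiso_single, dwall_wiso_single, h.az.nrd_fromBlocks₂₁,
    h.az.nrd_unique, h.az.nrd_unique] at h3
  simpa using h3

theorem SN.of_la {l' : A} (hl : La l l') (hs : SN T l g c) : SN T l' g c := by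
  obtain ⟨n, _, _, C, Y, u, hn, ha, hg, hc⟩ := hs
  refine ⟨n, inferInstance, inferInstance, C, Y, u, hn, ?_, hg, hc⟩
  refine (ha.sub (dwall_gram_alt hl C)).of_eq ?_
  ext i k
  simp [gram, mul_sub, sub_mul]

theorem SN.map (h : QAz T m l) (hj : SBC f j) (hs : SN T l g c) : SN T' (j l) (j g) (f c) := by
  obtain ⟨n, _, _, C, Y, u, hn, ha, rfl, rfl⟩ := hs
  have hd : DwallD (j l) (fun i => j (C i)) ((Y : Matrix n n A).map j)
      (((Y⁻¹ : (Matrix n n A)ˣ) : Matrix n n A).map j) :=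
    ⟨by rw [← Matrix.map_mul, Y.mul_inv, Matrix.map_one _ j.map_zero j.map_one],
      by rw [← Matrix.map_mul, Y.inv_mul, Matrix.map_one _ j.map_zero j.map_one],
      (ha.map j.mapMatrix (hj.mat n).map_star).of_eq (by
        rw [map_sub, RingHom.mapMatrix_apply, RingHom.mapMatrix_apply, dwall_gram_map hj.map_star])⟩
  have h1 := hd.sn hn (Units.map (f : T →* T') u)
  rw [← dwall_wiso_map hj.map_star, h.az.nrd_map_mat hj.toBC] at h1
  rw [map_mul, map_pow]
  exact h1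

/-- Wall data lift along a surjective local map. -/
theorem SN.lift (h : QAz T m l) (hj : SBC f j) (hf : Function.Surjective f) [IsLocalHom f]
    {g1 : A'} {c1 : T'} (hs : SN T' (j l) g1 c1) : ∃ g c, SN T l g c ∧ j g = g1 ∧ f c = c1 := by
  obtain ⟨n, _, _, C, Y, u, hn, ha, rfl, rfl⟩ := hs
  choose C0 hC0 using fun i => hj.toBC.surjective hf (C i)
  obtain ⟨W, hW, hW'⟩ := ha.lift j.mapMatrix (hj.mat n).map_star ((hj.mat n).toBC.surjective hf)
  have hC : (fun i => j (C0 i)) = C := funext hC0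
  have hY : j.mapMatrix (W + gram l C0) = Y := by
    rw [map_add, hW', RingHom.mapMatrix_apply, dwall_gram_map hj.map_star, hC, sub_add_cancel]
  obtain ⟨Y0, hY0⟩ : IsUnit (W + gram l C0) :=
    (hj.mat n).toBC.isUnit_of_map (by rw [hY]; exact Y.isUnit)
  obtain ⟨t, ht⟩ := hf u
  obtain ⟨u0, rfl⟩ : IsUnit t := IsUnit.of_map f t (by rw [ht]; exact u.isUnit)
  have hd : DwallD l C0 (Y0 : Matrix n n A) _ :=
    dwallD_of_unit Y0 (hW.of_eq (by rw [hY0, add_sub_cancel_right]))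
  rw [← hY0] at hY
  have hZ : ((Y0⁻¹ : (Matrix n n A)ˣ) : Matrix n n A).map j =
      ((Y⁻¹ : (Matrix n n A')ˣ) : Matrix n n A') := by
    refine (Units.inv_eq_of_mul_eq_one_right ?_).symm
    rw [← hY, ← RingHom.mapMatrix_apply, ← map_mul, Y0.mul_inv, map_one]
  refine ⟨_, _, hd.sn hn u0, ?_, ?_⟩
  · rw [dwall_wiso_map hj.map_star, hC, hZ]
  · rw [map_mul, map_pow, ht, ← h.az.nrd_map_mat hj.toBC, ← hY, RingHom.mapMatrix_apply]

theorem WN.mul (h : QAz T m l) (hs : WN T l c) (hs' : WN T l c') : WN T l (c * c') := by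
  obtain ⟨g, hg⟩ := hs
  obtain ⟨g', hg'⟩ := hs'
  exact ⟨_, hg.mul h hg'⟩

theorem WN.of_isSquare (h : QAz T m l) (hs : WN T l c) (hu : IsUnit c')
    (hq : IsSquare (c * c')) : WN T l c' := by
  obtain ⟨g, hg⟩ := hs
  exact ⟨g, hg.of_isSquare h hu hq⟩

theorem wn_sq (h : QAz T m l) {u : T} (hu : IsUnit u) : WN T l (u ^ 2) := by
  exact ⟨1, sn_one h hu⟩

theorem WN.of_odd_pow (h : QAz T m l) {k : ℕ} (hk : Odd k) (hs : WN T l (c ^ k)) : WN T l c := by
  obtain ⟨i, rfl⟩ := hk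
  obtain ⟨g, hg⟩ := hs
  have hc : IsUnit c := (isUnit_pow_iff (Nat.succ_ne_zero _)).1 (hg.isUnit h)
  exact ⟨g, hg.of_isSquare h hc ⟨c ^ (i + 1), by ring⟩⟩

theorem WN.map (h : QAz T m l) (hj : SBC f j) (hs : WN T l c) : WN T' (j l) (f c) := by
  obtain ⟨g, hg⟩ := hs
  exact ⟨_, hg.map h hj⟩

/-- A datum of any size, corrected by an alternating unit of the same size, twice. -/
theorem wn_of_two (h : QAz T m l) {n : Type} [Fintype n] [DecidableEq n] {C C' : n → A}
    {M M' W W' : Matrix n n A} (hM : IsUnit M) (hM' : IsUnit M') (hW : IsUnit W) (hW' : IsUnit W')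
    (ha : Alt W) (ha' : Alt W') (hd : Alt (M * W - gram l C)) (hd' : Alt (M' * W' - gram l C')) :
    WN T l (nrd T M * nrd T M') := by
  obtain ⟨Y, hY⟩ := hM.mul hW
  obtain ⟨Y', hY'⟩ := hM'.mul hW'
  have hev : Even (Fintype.card (n ⊕ n)) := by rw [Fintype.card_sum]; exact ⟨_, rfl⟩
  have h1 := ((dwallD_of_unit Y (hY ▸ hd)).mul (dwallD_of_unit Y' (hY' ▸ hd')) h.add_star).sn
    hev (1 : Tˣ)
  rw [h.az.nrd_fromBlocks₂₁, hY, hY', (h.az.mat n).nrd_mul, (h.az.mat n).nrd_mul] at h1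
  have h2 : Alt (fromBlocks W 0 0 W') := by
    obtain ⟨K, rfl⟩ := ha
    obtain ⟨K', rfl⟩ := ha'
    refine ⟨fromBlocks K 0 0 K', ?_⟩
    ext (i | i) (k | k) <;> simp
  have h3 : IsUnit (fromBlocks W 0 0 W') := by
    rw [← (h.az.mat (n ⊕ n)).isUnit_nrd_iff, h.az.nrd_fromBlocks₂₁]
    exact ((h.az.mat n).isUnit_nrd_iff.2 hW).mul ((h.az.mat n).isUnit_nrd_iff.2 hW')
  obtain ⟨r, hr⟩ := h.isSquare_nrd hev h2 h3
  rw [h.az.nrd_fromBlocks₂₁] at hr
  refine ⟨_, h1.of_isSquare h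
    (((h.az.mat n).isUnit_nrd_iff.2 hM).mul ((h.az.mat n).isUnit_nrd_iff.2 hM'))
    ⟨nrd T M * nrd T M' * r, ?_⟩⟩
  rw [Units.val_one]
  linear_combination (nrd T M * nrd T M') ^ 2 * hr

/-- Normal form: the vectors of the datum are `1, 0, ..., 0`. -/
theorem WN.normal (h : QAz T m l) (hs : WN T l c) :
    ∃ (n : Type) (_ : Fintype n) (_ : DecidableEq n) (i0 : n) (Y : Matrix n n A) (u : T),
      Even (Fintype.card n) ∧ IsUnit Y ∧ IsUnit u ∧ Alt (Y - Matrix.single i0 i0 l) ∧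
        c = u ^ 2 * nrd T Y := by
  obtain ⟨g, hg⟩ := hs
  have hc := hg.isUnit h
  obtain ⟨n, _, _, C, Y, u, hn, ha, _, rfl⟩ := hg
  have hp := (dwallD_plane l).sn (by simp) (1 : Tˣ)
  rw [dwall_wiso_plane] at hp
  obtain ⟨r, hr⟩ := hp.isSquare h
  have hru : IsUnit r := isUnit_of_mul_isUnit_left (hr ▸ hp.isUnit h)
  rw [Units.val_one, one_pow, one_mul] at hr
  have hd := (dwallD_of_unit Y ha).mul (dwallD_plane l) h.add_star
  obtain ⟨U, hU, hU'⟩ := dwall_exists_U
    (Sum.elim C (Sum.elim (fun _ : Unit => (1 : A)) (fun _ : Unit => (0 : A))))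
    (Sum.inr (Sum.inl ())) rfl
  have haz := h.az.mat (n ⊕ (Unit ⊕ Unit))
  obtain ⟨t, ht⟩ := (haz.isUnit_nrd_iff.2 hU).mul hru
  refine ⟨n ⊕ (Unit ⊕ Unit), inferInstance, inferInstance, Sum.inr (Sum.inl ()), star U * _ * U,
    u * ((t⁻¹ : Tˣ) : T), ?_, (hU.star.mul hd.isUnit).mul hU, u.isUnit.mul t⁻¹.isUnit, ?_, ?_⟩
  · rw [Fintype.card_sum]
    exact hn.add (by simp)
  · refine (hd.alt.conj U).of_eq ?_
    rw [← dwall_gram_single, ← hU', dwall_gram_vecMul, mul_sub, sub_mul]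
  · rw [haz.nrd_mul, haz.nrd_mul, h.nrd_star_mat, h.az.nrd_fromBlocks₂₁, hr]
    have h1 : ((t⁻¹ : Tˣ) : T) * (nrd T U * r) = 1 := by rw [← ht, Units.inv_mul]
    linear_combination (-((u : T) ^ 2 * nrd T (Y : Matrix n n A)) *
      (((t⁻¹ : Tˣ) : T) * (nrd T U * r) + 1)) * h1

theorem PairN.wn (h : QAz T m l) (hc : IsUnit c) (hp : PairN T l c) : WN T l c := by
  obtain ⟨l1, l2, t, c1, c2, h1, h2, h3, h4, rfl⟩ := hp
  have ht : IsUnit t := (isUnit_pow_iff two_ne_zero).1 (isUnit_of_mul_isUnit_left hc)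
  rw [← h.az.nrd_eq h3, ← h.az.nrd_eq h4]
  exact ⟨_, (sn_gl h h1 h2).mul_sq ht⟩

theorem PairN.map (hj : SBC f j) (hp : PairN T l c) : PairN T' (j l) (f c) := by
  obtain ⟨l1, l2, t, c1, c2, h1, h2, h3, h4, rfl⟩ := hp
  exact ⟨Units.map (j : A →* A') l1, Units.map (j : A →* A') l2, f t, f c1, f c2,
    h1.map j hj.map_star, h2.map j hj.map_star, h3.map hj.toBC, h4.map hj.toBC,
    by rw [map_mul, map_pow, map_mul]⟩

theorem PairN.of_la {l' : A} (hl : La l l') (hp : PairN T l c) : PairN T l' c := by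
  obtain ⟨l1, l2, t, c1, c2, h1, h2, h3, h4, h5⟩ := hp
  exact ⟨l1, l2, t, c1, c2, hl.symm.trans h1, hl.symm.trans h2, h3, h4, h5⟩

end Pool.Agent.GSD
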