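import Mathlib

namespace Pool.Agent.GSD

section Mod
variable {T M M' : Type*} [CommRing T] [AddCommGroup M] [Module T M] [AddCommGroup M'] [Module T M']

/-- The submodule `I M`. -/
abbrev Sm (I : Ideal T) (M : Type*) [AddCommGroup M] [Module T M] : Submodule T M := I • ⊤

variable {I : Ideal T}

theorem sm_map (g : M →ₗ[T] M') {x : M} (hx : x ∈ Sm I M) : g x ∈ Sm I M' := by
  refine Submodule.smul_induction_on (p := fun x => g x ∈ Sm I M') hx ?_ ?_
  · intro r hr y _
    rw [map_smul]; exact Submodule.smul_mem_smul hr trivial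
  · intro y z hy hz
    rw [map_add]; exact add_mem hy hz

theorem sm_sq (hI : I ^ 2 = ⊥) (g : M →ₗ[T] M') (hg : ∀ y, g y ∈ Sm I M') {x : M}
    (hx : x ∈ Sm I M) : g x = 0 := by
  refine Submodule.smul_induction_on (p := fun x => g x = 0) hx ?_ ?_
  · intro r hr y _
    have : r • g y ∈ I • Sm I M' := Submodule.smul_mem_smul hr (hg y)
    rw [← Submodule.mul_smul, ← sq, hI, Submodule.bot_smul] at this
    rw [map_smul]; exact this
  · intro y z hy hz
    rw [map_add, hy, hz, add_zero]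

theorem inv_lift (hI : I ^ 2 = ⊥) (φ : M →ₗ[T] M') (ψ : M' →ₗ[T] M)
    (h1 : ∀ y, φ (ψ y) - y ∈ Sm I M') (h2 : ∀ x, ψ (φ x) - x ∈ Sm I M) :
    ∃ ψ' : M' →ₗ[T] M, (∀ y, ψ' y - ψ y ∈ Sm I M) ∧ (∀ y, φ (ψ' y) = y) ∧ ∀ x, ψ' (φ x) = x := by
  have e1 : ∀ y, φ (ψ (y - (φ (ψ y) - y))) = y := fun y => by
    have := sm_sq hI (φ ∘ₗ ψ - LinearMap.id) h1 (h1 y)
    simp only [LinearMap.sub_apply, LinearMap.comp_apply, LinearMap.id_apply, sub_eq_zero] at this
    rw [map_sub, map_sub, this]; abel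
  have e2 : Function.Injective φ := (injective_iff_map_eq_zero _).2 fun x hx => by
    have h3 := h2 x
    rw [hx, map_zero, zero_sub, neg_mem_iff] at h3
    have := sm_sq hI (ψ ∘ₗ φ - LinearMap.id) h2 h3
    simpa [hx] using this
  refine ⟨ψ ∘ₗ (LinearMap.id - (φ ∘ₗ ψ - LinearMap.id)), fun y => ?_, e1, fun x => e2 (e1 _)⟩
  have := sm_map ψ (neg_mem (h1 y))
  simpa using this

end Mod

variable {T A B : Type*} [CommRing T] [Ring A] [Algebra T A] [Ring B] [Algebra T B] {I : Ideal T}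

theorem sm_mul_left (a : B) {x : B} (hx : x ∈ Sm I B) : a * x ∈ Sm I B :=
  sm_map (LinearMap.mulLeft T a) hx

theorem sm_mul_right (a : B) {x : B} (hx : x ∈ Sm I B) : x * a ∈ Sm I B :=
  sm_map (LinearMap.mulRight T a) hx

theorem sm_mul (hI : I ^ 2 = ⊥) {x y : B} (hx : x ∈ Sm I B) (hy : y ∈ Sm I B) : x * y = 0 :=
  sm_sq hI (LinearMap.mulLeft T x) (fun z => sm_mul_right z hx) hy

/-- Separability of `A`, tested on bilinear maps to `B`. -/
def SepTo (T A B : Type*) [CommRing T] [Ring A] [Algebra T A] [Ring B] [Algebra T B] : Prop :=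
  ∃ (n : ℕ) (e v : Fin n → A), ∑ i, e i * v i = 1 ∧
    ∀ (β : A →ₗ[T] A →ₗ[T] B) (x : A), ∑ i, β (x * e i) (v i) = ∑ i, β (e i) (v i * x)

/-- Algebra maps from a separable algebra lift along square zero ideals. -/
theorem hom_lift (hI : I ^ 2 = ⊥) (hs : SepTo T A B) (φ : A →ₗ[T] B)
    (hm : ∀ x y, φ (x * y) - φ x * φ y ∈ Sm I B) (h1 : φ 1 - 1 ∈ Sm I B) :
    ∃ φ' : A →ₐ[T] B, ∀ x, φ' x - φ x ∈ Sm I B := by
  wlog h : φ 1 = 1 generalizing φ
  · have hd : ∀ x, φ x * (1 - (φ 1 - 1)) - φ x ∈ Sm I B := fun x => by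
      have := neg_mem (sm_mul_left (φ x) h1)
      rwa [show -(φ x * (φ 1 - 1)) = φ x * (1 - (φ 1 - 1)) - φ x by noncomm_ring] at this
    have hu : φ 1 * (1 - (φ 1 - 1)) = 1 := by
      rw [show φ 1 * (1 - (φ 1 - 1)) = 1 - (φ 1 - 1) * (φ 1 - 1) by noncomm_ring, sm_mul hI h1 h1,
        sub_zero]
    obtain ⟨φ', h'⟩ := this (LinearMap.mulRight T (1 - (φ 1 - 1)) ∘ₗ φ) (fun x y => by
      have := sub_mem (sub_mem (add_mem (hm x y) (hd (x * y))) (sm_mul_left (φ x) (hd y)))
        (sm_mul_right (φ y * (1 - (φ 1 - 1))) (hd x))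
      refine (congrArg (· ∈ Sm I B) ?_).mp this
      simp only [LinearMap.comp_apply, LinearMap.mulRight_apply]; noncomm_ring)
      (by rw [LinearMap.comp_apply, LinearMap.mulRight_apply, hu, sub_self]; exact zero_mem _) hu
    refine ⟨φ', fun x => ?_⟩
    have := add_mem (h' x) (hd x)
    simpa using this
  obtain ⟨n, e, v, hev, hβ⟩ := hs
  let c : A →ₗ[T] A →ₗ[T] B :=
    (LinearMap.mul T A).compr₂ φ - (LinearMap.mul T B).compl₁₂ φ φ
  have hc : ∀ x y, c x y = φ (x * y) - φ x * φ y := fun _ _ => rfl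
  let δ : A →ₗ[T] B := ∑ i, LinearMap.mulRight T (φ (v i)) ∘ₗ c.flip (e i)
  have hδ : ∀ x, δ x = ∑ i, c x (e i) * φ (v i) := fun x => by
    simp only [δ, LinearMap.sum_apply, LinearMap.comp_apply, LinearMap.mulRight_apply,
      LinearMap.flip_apply]
  have hδI : ∀ x, δ x ∈ Sm I B := fun x => by
    rw [hδ]; exact sum_mem fun i _ => sm_mul_right _ (hm _ _)
  refine ⟨AlgHom.ofLinearMap (φ + δ) ?_ fun x y => ?_, fun x => by
    rw [AlgHom.ofLinearMap_apply, LinearMap.add_apply, add_sub_cancel_left]; exact hδI x⟩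
  · rw [LinearMap.add_apply, hδ, h]
    simp [hc, h]
  · have k1 : ∑ i, c x (y * e i) * φ (v i) = δ x * φ y := by
      have := hβ ((LinearMap.mul T B).compl₁₂ (c x) φ) y
      simp only [LinearMap.compl₁₂_apply, LinearMap.mul_apply'] at this
      rw [this, hδ, Finset.sum_mul]
      refine Finset.sum_congr rfl fun i _ => ?_
      rw [← sub_eq_zero, mul_assoc, ← mul_sub]
      exact sm_mul hI (hm _ _) (hm _ _)
    have k2 : ∑ i, c x y * (φ (e i) * φ (v i)) = c x y := by
      have : ∑ i, c x y * (φ (e i) * φ (v i)) = ∑ i, c x y * φ (e i * v i) :=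
        Finset.sum_congr rfl fun i _ => by
          rw [eq_comm, ← sub_eq_zero, ← mul_sub]
          exact sm_mul hI (hm _ _) (hm _ _)
      rw [this, ← Finset.mul_sum, ← map_sum, hev, h, mul_one]
    have k3 : φ x * δ y - δ (x * y) + δ x * φ y - c x y = 0 := by
      rw [← k1, ← k2, hδ, hδ, Finset.mul_sum, ← Finset.sum_sub_distrib, ← Finset.sum_add_distrib,
        ← Finset.sum_sub_distrib]
      refine Finset.sum_eq_zero fun i _ => ?_
      simp only [hc, mul_assoc x]; noncomm_ring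
    simp only [LinearMap.add_apply]
    rw [← sub_eq_zero, ← neg_eq_zero, ← k3, hc, add_mul, mul_add, mul_add,
      sm_mul hI (hδI x) (hδI y)]
    abel

/-- Two algebra maps that agree modulo `I` are conjugate by an element of `1 + I B`. -/
theorem hom_inner (hs : SepTo T A B) (φ φ' : A →ₐ[T] B) (h : ∀ x, φ' x - φ x ∈ Sm I B) :
    ∃ w ∈ Sm I B, ∀ x, φ' x * (1 + w) = (1 + w) * φ x := by
  obtain ⟨n, e, v, hev, hβ⟩ := hs
  have e1 : 1 + ∑ i, (φ' (e i) - φ (e i)) * φ (v i) = ∑ i, φ' (e i) * φ (v i) := by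
    simp only [sub_mul, Finset.sum_sub_distrib, ← map_mul, ← map_sum, hev, map_one]; abel
  refine ⟨∑ i, (φ' (e i) - φ (e i)) * φ (v i),
    sum_mem fun i _ => sm_mul_right (φ (v i)) (h (e i)), fun x => ?_⟩
  have := hβ ((LinearMap.mul T B).compl₁₂ φ'.toLinearMap φ.toLinearMap) x
  simp only [LinearMap.compl₁₂_apply, LinearMap.mul_apply', AlgHom.toLinearMap_apply, map_mul]
    at this
  rw [e1, Finset.mul_sum, Finset.sum_mul]
  simpa only [mul_assoc] using this

variable [StarRing A] [StarRing B]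

/-- The involution as a linear map. -/
def hlStar (h : ∀ (t : T) (a : A), star (t • a) = t • star a) : A →ₗ[T] A where
  toFun := star
  map_add' := star_add
  map_smul' := h

/-- `1 - star` is a regular linear map. -/
def RegS (T A : Type*) [CommRing T] [Ring A] [Algebra T A] [StarRing A] : Prop :=
  ∃ p : A →ₗ[T] A, ∀ x, p (x - star x) - star (p (x - star x)) = x - star x

/-- No nonzero scalar makes all symmetric elements alternating. -/
def WitS (T B : Type*) [CommRing T] [Ring B] [Algebra T B] [StarRing B] : Prop :=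
  ∀ t : T, (∀ x : B, star x = x → ∃ z, t • x = z - star z) → t = 0

/-- Isomorphisms of algebras with quadratic pair lift along square zero ideals. -/
theorem qp_lift (hI : I ^ 2 = ⊥) (sA : ∀ (t : T) (a : A), star (t • a) = t • star a)
    (sB : ∀ (t : T) (a : B), star (t • a) = t • star a) (hs : SepTo T A B) (hr : RegS T A)
    (hc : ∀ z : A, (∀ y, z * y = y * z) → ∃ t, z = algebraMap T A t)
    (hw : WitS T B) {l1 : A} {l2 : B} (h1 : l1 + star l1 = 1) (h2 : l2 + star l2 = 1)
    (φ0 : A →ₗ[T] B) (ψ0 : B →ₗ[T] A) (c : B)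
    (hm : ∀ x y, φ0 (x * y) - φ0 x * φ0 y ∈ Sm I B) (hu : φ0 1 - 1 ∈ Sm I B)
    (hst : ∀ x, φ0 (star x) - star (φ0 x) ∈ Sm I B) (hφψ : ∀ y, φ0 (ψ0 y) - y ∈ Sm I B)
    (hψφ : ∀ x, ψ0 (φ0 x) - x ∈ Sm I A) (hl : φ0 l1 - l2 - (c - star c) ∈ Sm I B) :
    ∃ (φ' : A →ₐ[T] B) (ψ' : B →ₗ[T] A) (c' : B), (∀ x, φ' x - φ0 x ∈ Sm I B) ∧
      (∀ y, ψ' y - ψ0 y ∈ Sm I A) ∧ c' - c ∈ Sm I B ∧ (∀ x, φ' (star x) = star (φ' x)) ∧
      (∀ y, φ' (ψ' y) = y) ∧ (∀ x, ψ' (φ' x) = x) ∧ φ' l1 - l2 = c' - star c' := by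
  have sI : ∀ {y : B}, y ∈ Sm I B → star y ∈ Sm I B := fun hy => sm_map (hlStar sB) hy
  have hinv : ∀ φ' : A →ₐ[T] B, (∀ x, φ' x - φ0 x ∈ Sm I B) → ∃ ψ' : B →ₗ[T] A,
      (∀ y, ψ' y - ψ0 y ∈ Sm I A) ∧ (∀ y, φ' (ψ' y) = y) ∧ ∀ x, ψ' (φ' x) = x := fun φ' h =>
    inv_lift hI φ'.toLinearMap ψ0 (fun y => by simpa using add_mem (h (ψ0 y)) (hφψ y))
      fun x => by simpa using add_mem (sm_map ψ0 (h x)) (hψφ x)
  obtain ⟨φ, hφ⟩ := hom_lift hI hs φ0 hm hu
  obtain ⟨ψ, -, e1, e2⟩ := hinv φ hφ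
  let φs : A →ₐ[T] B := AlgHom.ofLinearMap (hlStar sB ∘ₗ φ.toLinearMap ∘ₗ hlStar sA)
    (by change star (φ (star 1)) = 1; simp)
    fun x y => by change star (φ (star (x * y))) = star (φ (star x)) * star (φ (star y)); simp
  obtain ⟨w, hwI, hb⟩ := hom_inner hs φ φs (I := I) fun x => by
    have := add_mem (sub_mem (sI (add_mem (hφ (star x)) (hst x))) (hφ x)) (zero_mem _)
    refine (congrArg (· ∈ Sm I B) ?_).mp this
    change _ = star (φ (star x)) - φ x
    simp only [star_add, star_sub, star_star]; abel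
  have hb1 : ∀ x, star (φ (star x)) * (1 + w) = (1 + w) * φ x := hb
  have hb2 : ∀ x, star (φ (star x)) * (1 + star w) = (1 + star w) * φ x := fun x => by
    have := congrArg star (hb1 (star x))
    simpa only [star_mul, star_add, star_one, star_star] using this.symm
  have hww : ∀ {a b : B}, a ∈ Sm I B → b ∈ Sm I B → a * b = 0 := sm_mul hI
  have hws := sI hwI
  have hd : ∀ x, star (φ (star x)) - φ x ∈ Sm I B := fun x => by
    have := sub_mem (sm_mul_right (φ x) hwI) (sm_mul_left (star (φ (star x))) hwI)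
    refine (congrArg (· ∈ Sm I B) ?_).mp this
    rw [← sub_eq_zero, ← neg_eq_zero, ← sub_eq_zero.2 (hb1 x)]; noncomm_ring
  have hsym : star w = w := by
    rw [← sub_eq_zero]
    have hcen : ∀ y, (star w - w) * φ y = φ y * (star w - w) := fun y => by
      have k := hww (hd y) (sub_mem hws hwI)
      rw [← sub_eq_zero, ← neg_eq_zero, ← sub_eq_zero.2 ((sub_eq_zero.2 (hb2 y)).trans
        (sub_eq_zero.2 (hb1 y)).symm), ← sub_eq_zero, ← neg_eq_zero, ← k]
      noncomm_ring
    obtain ⟨t, ht⟩ := hc (ψ (star w - w)) fun y => Function.LeftInverse.injective e2 (by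
      rw [map_mul, map_mul, e1, hcen])
    have ht2 : star w - w = algebraMap T B t := by rw [← φ.commutes, ← ht, e1]
    rw [ht2, hw t fun x hx => ?_, map_zero]
    rw [Algebra.smul_def, ← ht2]
    · obtain ⟨p, hp⟩ := hr
      have k1 : φ (ψ x - star (ψ x)) = star w * x - x * star w := by
        have k := congrArg star (hb1 (ψ x))
        simp only [star_mul, star_add, star_one, star_star, e1, hx] at k
        have k2 : φ (star (ψ x)) - x ∈ Sm I B := by
          have := sI (hd (ψ x))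
          rwa [star_sub, star_star, e1, hx] at this
        rw [map_sub, e1, ← sub_eq_zero, ← neg_eq_zero, ← sub_eq_zero.2 k, ← sub_eq_zero,
          ← neg_eq_zero, ← hww hws k2]
        noncomm_ring
      have k2 : ψ x - star (ψ x) ∈ Sm I A := by
        rw [← e2 (ψ x - star (ψ x)), k1]
        exact sm_map ψ (sub_mem (sm_mul_right _ hws) (sm_mul_left _ hws))
      have k3 : φ (p (ψ x - star (ψ x))) ∈ Sm I B := sm_map φ.toLinearMap (sm_map p k2)
      have k4 := hp (ψ x)
      generalize p (ψ x - star (ψ x)) = n at k3 k4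
      have k5 : star (φ (star n)) = φ n := by
        have k6 : star (φ (star n)) ∈ Sm I B := by simpa using add_mem (hd n) k3
        have := hb1 n
        rwa [mul_add, add_mul, hww k6 hwI, hww hwI k3, mul_one, one_mul, add_zero, add_zero] at this
      refine ⟨φ n - w * x, ?_⟩
      have k7 : φ n - star (φ n) = star w * x - x * star w := by
        rw [← k1, ← k4, map_sub, ← k5, star_star, k5]
      rw [star_sub, star_mul, hx, ← sub_eq_zero, ← neg_eq_zero, ← sub_eq_zero.2 k7]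
      noncomm_ring
  obtain ⟨n, hn⟩ : ∃ n, n = (1 + w) * φ l1 - l2 - (c - star c) := ⟨_, rfl⟩
  have hnI : n ∈ Sm I B := by
    have := add_mem (add_mem (sm_mul_right (φ l1) hwI) (hφ l1)) hl
    refine (congrArg (· ∈ Sm I B) ?_).mp this
    rw [hn]; noncomm_ring
  have hns := sI hnI
  have hnw : n + star n = w := by
    have k := hb1 (star l1)
    rw [star_star, show star l1 = 1 - l1 by rw [← h1]; abel, map_sub, map_one] at k
    rw [hn]
    simp only [star_sub, star_mul, star_add, star_one, star_star, hsym, k]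
    rw [show star l2 = 1 - l2 by rw [← h2]; abel]; noncomm_ring
  have hg1 : (1 + star n) * (1 - star n) = 1 := by
    rw [show (1 + star n) * (1 - star n) = 1 - star n * star n by noncomm_ring, hww hns hns, sub_zero]
  have hg2 : (1 - star n) * (1 + star n) = 1 := by
    rw [show (1 - star n) * (1 + star n) = 1 - star n * star n by noncomm_ring, hww hns hns, sub_zero]
  have hg3 : (1 - n) * (1 + w) = 1 + star n := by
    rw [show (1 - n) * (1 + w) = 1 + (w - n) - n * w by noncomm_ring, hww hnI hwI, ← hnw]; abel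
  have hg4 : (1 + n) = (1 + w) * (1 - star n) := by
    rw [show (1 + w) * (1 - star n) = 1 + (w - star n) - w * star n by noncomm_ring, hww hwI hns,
      ← hnw]; abel
  let φ' : A →ₐ[T] B := AlgHom.ofLinearMap
    (LinearMap.mulRight T (1 - star n) ∘ₗ LinearMap.mulLeft T (1 + star n) ∘ₗ φ.toLinearMap)
    (by change (1 + star n) * φ 1 * (1 - star n) = 1; rw [map_one, mul_one, hg1])
    fun x y => by
      change (1 + star n) * φ (x * y) * (1 - star n) =
        (1 + star n) * φ x * (1 - star n) * ((1 + star n) * φ y * (1 - star n))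
      rw [map_mul, mul_assoc _ (1 - star n), ← mul_assoc (1 - star n), ← mul_assoc (1 - star n), hg2]
      simp only [mul_assoc, one_mul]
  have hφ' : ∀ x, φ' x = (1 + star n) * φ x * (1 - star n) := fun _ => rfl
  have hφ'0 : ∀ x, φ' x - φ0 x ∈ Sm I B := fun x => by
    have := add_mem (sub_mem (sm_mul_right (φ x) hns) (sm_mul_left ((1 + star n) * φ x) hns)) (hφ x)
    refine (congrArg (· ∈ Sm I B) ?_).mp this
    rw [hφ']; noncomm_ring
  obtain ⟨ψ', d1, d2, d3⟩ := hinv φ' hφ'0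
  refine ⟨φ', ψ', (1 - n) * c * (1 - star n) - l2 * star n, hφ'0, d1, ?_, fun x => ?_, d2, d3, ?_⟩
  · have := sub_mem (neg_mem (add_mem (sm_mul_right c hnI) (sm_mul_left ((1 - n) * c) hns)))
      (sm_mul_left l2 hns)
    refine (congrArg (· ∈ Sm I B) ?_).mp this
    noncomm_ring
  · have k := hb1 (star x)
    rw [star_star] at k
    rw [hφ', hφ', star_mul, star_mul, star_sub, star_add, star_one, star_star, hg4,
      ← mul_assoc (star (φ x)), k, ← hg3]
    simp only [mul_assoc]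
  · have k : (1 + w) * φ l1 = l2 + (c - star c) + n := by rw [hn]; abel
    rw [hφ', ← hg3, mul_assoc (1 - n), k]
    simp only [star_sub, star_mul, star_one, star_star]
    have k1 := hww hnI hnI
    have k2 := hww (sm_mul_right l2 hnI) hns
    have k3 := hww hnI hns
    have k4 : n * n * star n = 0 := by rw [k1, zero_mul]
    rw [show star l2 = 1 - l2 by rw [← h2]; abel, ← sub_eq_zero, ← sub_zero 0, ← sub_zero (0 - 0),
      ← add_zero (0 - 0 - 0)]
    nth_rw 1 [← k2]
    nth_rw 1 [← k1]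
    nth_rw 1 [← k3]
    rw [← k4]
    noncomm_ring

end Pool.Agent.GSD
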