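import Pool.Agent.P.MP_c1f06d_ag.su.EqA2
import Pool.Agent.P.MP_c1f06d_ag.su.SepX
import Pool.Agent.P.MP_c1f06d_ag.d.HomLift
import Pool.Agent.P.MP_c1f06d_ag.d.ValA

open Matrix IsLocalRing

universe u

namespace Pool.Agent.GSD

open Pool.Agent.SU SAlg

variable {T T' : Type u} [CommRing T] [CommRing T'] {N : ℕ} {A A1 A2 : SAlg T N}

theorem sm_car {I : Ideal T} {x : A.Car} : x ∈ Sm I A.Car ↔ ∀ i, x.co i ∈ I := by
  refine ⟨fun hx i => ?_, fun h => ?_⟩
  · refine Submodule.smul_induction_on (p := fun x : A.Car => x.co i ∈ I) hx ?_ ?_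
    · intro r hr y _
      exact I.mul_mem_right _ hr
    · intro y z hy hz
      exact I.add_mem hy hz
  · rw [eq_sum x]
    exact sum_mem fun i _ => Submodule.smul_mem_smul (h i) trivial

theorem sm_bc {I : Ideal T} {x : A.Car} : x ∈ Sm I A.Car ↔ A.bc (Ideal.Quotient.mk I) x = 0 := by
  rw [sm_car, bc_eq_zero_iff]
  simp only [Ideal.Quotient.eq_zero_iff_mem]

/-- The equations of a quadratic pair that are spread out. -/
structure QM (A : SAlg T N) (l : A.Car) : Prop where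
  hl : l + star l = 1
  wit : ∃ U V : Matrix (Fin N) (Fin N) T, (1 - A.st) * U = 0 ∧ V * (1 - A.st) = 0 ∧
    (V * U).trace = 1

/-- What the lifting of isomorphisms uses on the source. -/
structure QN (A : SAlg T N) (l : A.Car) : Prop extends QM A l where
  sep : Sep A
  reg : ∃ P : Matrix (Fin N) (Fin N) T, (1 - A.st) * P * (1 - A.st) = 1 - A.st
  cen : ∀ (S : Type u) [CommRing S] (f : T →+* S) (z : (A.map f).Car), (∀ y, z * y = y * z) →
    ∃ t, z = algebraMap S _ t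

theorem co_sub_star (y : A.Car) : (y - star y).co = (1 - A.st) *ᵥ y.co := by
  rw [sub_mulVec, one_mulVec]; rfl

theorem one_sub_st_map (f : T →+* T') : (1 - A.st).map f = 1 - (A.map f).st := by
  rw [Matrix.map_sub _ (map_sub f), Matrix.map_one _ f.map_zero f.map_one]; rfl

theorem QM.map {l : A.Car} (h : QM A l) (f : T →+* T') : QM (A.map f) (A.bc f l) := by
  obtain ⟨U, V, h1, h2, h3⟩ := h.wit
  refine ⟨by rw [← bc_star, ← map_add, h.hl, map_one], U.map f, V.map f, ?_, ?_, ?_⟩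
  · rw [← one_sub_st_map, ← Matrix.map_mul, h1, Matrix.map_zero _ f.map_zero]
  · rw [← one_sub_st_map, ← Matrix.map_mul, h2, Matrix.map_zero _ f.map_zero]
  · rw [← Matrix.map_mul, ← AddMonoidHom.map_trace, h3, map_one]

theorem QN.map {l : A.Car} (h : QN A l) (f : T →+* T') : QN (A.map f) (A.bc f l) := by
  obtain ⟨P, hP⟩ := h.reg
  refine ⟨h.toQM.map f, h.sep.map f, ⟨P.map f, ?_⟩, fun S _ g => h.cen S (g.comp f)⟩
  rw [← one_sub_st_map, ← Matrix.map_mul, ← Matrix.map_mul, hP]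

theorem QM.witS {l : A.Car} (h : QM A l) : WitS T A.Car := by
  obtain ⟨U, V, h1, h2, h3⟩ := h.wit
  intro t ht
  have : ∀ j, ∃ z : A.Car, t • Uᵀ j = (1 - A.st) *ᵥ z.co := fun j => by
    obtain ⟨z, hz⟩ := ht ⟨Uᵀ j⟩ (by
      rw [eq_comm, ← sub_eq_zero]
      exact Car.ext ((co_sub_star _).trans (funext fun i => congrFun (congrFun h1 i) j)))
    exact ⟨z, (congrArg Car.co hz).trans (co_sub_star z)⟩
  choose z hz using this
  have e : t • U = (1 - A.st) * of fun i j => (z j).co i :=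
    Matrix.ext fun i j => congrFun (hz j) i
  rw [← mul_one t, ← h3, ← smul_eq_mul, ← trace_smul, ← Matrix.mul_smul, e, ← Matrix.mul_assoc, h2,
    Matrix.zero_mul, trace_zero]

theorem QN.regS {l : A.Car} (h : QN A l) : RegS T A.Car := by
  obtain ⟨P, hP⟩ := h.reg
  refine ⟨A.coL.symm.toLinearMap ∘ₗ Matrix.toLin' P ∘ₗ A.coL.toLinearMap, fun x => Car.ext ?_⟩
  rw [co_sub_star]
  change (1 - A.st) *ᵥ (P *ᵥ (x - star x).co) = _
  rw [co_sub_star, mulVec_mulVec, mulVec_mulVec, hP]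

theorem sepTo_of_sep (h : Sep A) (B : Type*) [Ring B] [Algebra T B] : SepTo T A.Car B :=
  let ⟨v, h1, h2⟩ := h
  ⟨N, A.e, v, h1, fun β x => sep_bil h2 β x⟩

/-- The equations for an isomorphism of algebras with quadratic pair. -/
def eqd_F (A1 A2 : SAlg T N) (l1 : A1.Car) (l2 : A2.Car)
    (x : Option (Fin N × Fin N) ⊕ Fin N → T) :
    (Option (Fin N) ⊕ Option (Fin N) × Fin N × Fin N) ⊕ Fin N → T
  | .inl k => eqa2_F A1 A2 (x ∘ Sum.inl) k
  | .inr a => (eqa2_mat (x ∘ Sum.inl) *ᵥ l1.co) a - l2.co a -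
      (x (Sum.inr a) - (A2.st *ᵥ (x ∘ Sum.inr)) a)

theorem eqd_nat {l1 : A1.Car} {l2 : A2.Car} (g : T →+* T') (x : Option (Fin N × Fin N) ⊕ Fin N → T) :
    eqd_F (A1.map g) (A2.map g) (A1.bc g l1) (A2.bc g l2) (g ∘ x) = g ∘ eqd_F A1 A2 l1 l2 x := by
  funext k
  rcases k with k | a
  · exact congrFun (eqa2_nat g (x ∘ Sum.inl)) k
  · change _ = g (_ - _ - (_ - _))
    rw [map_sub, map_sub, map_sub, RingHom.map_mulVec, RingHom.map_mulVec]
    rfl

theorem eqd_siso {l1 : A1.Car} {l2 : A2.Car} {x : Option (Fin N × Fin N) ⊕ Fin N → T}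
    (h : eqd_F A1 A2 l1 l2 x = 0) : ∃ Φ : SIso A1 A2,
      (∀ y, (Φ.e y).co = eqa2_mat (x ∘ Sum.inl) *ᵥ y.co) ∧
      Φ.e l1 - l2 = ⟨x ∘ Sum.inr⟩ - star ⟨x ∘ Sum.inr⟩ := by
  obtain ⟨Φ, hΦ⟩ := eqa2_siso (x := x ∘ Sum.inl) (funext fun k => congrFun h (.inl k))
  refine ⟨Φ, hΦ, Car.ext (funext fun a => ?_)⟩
  rw [co_sub, hΦ]
  exact sub_eq_zero.1 (congrFun h (.inr a))

theorem eqd_lift {l1 : A1.Car} {l2 : A2.Car} (h1 : QN A1 l1) (h2 : QM A2 l2) (I : Ideal T)
    (hI : I ^ 2 = ⊥) (x : Option (Fin N × Fin N) ⊕ Fin N → T)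
    (h : ∀ a, eqd_F A1 A2 l1 l2 x a ∈ I) :
    ∃ y : Option (Fin N × Fin N) ⊕ Fin N → T, (∀ i, y i - x i ∈ I) ∧ eqd_F A1 A2 l1 l2 y = 0 := by
  have sq0 : ∀ n ∈ I, n * n = 0 := fun n hn => by
    have : n * n ∈ I ^ 2 := by rw [sq]; exact Ideal.mul_mem_mul hn hn
    rwa [hI, Ideal.mem_bot] at this
  obtain ⟨Φ, hΦ, hΦl⟩ := eqd_siso (x := Ideal.Quotient.mk I ∘ x) (by
    rw [eqd_nat]; exact funext fun a => Ideal.Quotient.eq_zero_iff_mem.2 (h a))
  have hd : x (.inl none) * (eqa2_mat (x ∘ Sum.inl)).det - 1 ∈ I := h (.inl (.inl none))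
  obtain ⟨P0, hP0⟩ : ∃ P0, P0 = eqa2_mat (x ∘ Sum.inl) := ⟨_, rfl⟩
  rw [← hP0] at hd
  let f0 : A1.Car →ₗ[T] A2.Car := A2.coL.symm.toLinearMap ∘ₗ Matrix.toLin' P0 ∘ₗ A1.coL.toLinearMap
  let g0 : A2.Car →ₗ[T] A1.Car := A1.coL.symm.toLinearMap ∘ₗ
    Matrix.toLin' (x (.inl none) • P0.adjugate) ∘ₗ A2.coL.toLinearMap
  have hf : ∀ y, (f0 y).co = P0 *ᵥ y.co := fun _ => rfl
  have hg : ∀ y, (g0 y).co = (x (.inl none) • P0.adjugate) *ᵥ y.co := fun _ => rfl
  have hf0 : ∀ y, A2.bc (Ideal.Quotient.mk I) (f0 y) = Φ.e (A1.bc (Ideal.Quotient.mk I) y) :=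
    fun y => Car.ext (by
      rw [hΦ, co_bc, hf, hP0]; exact funext fun k => RingHom.map_mulVec _ _ y.co k)
  obtain ⟨φ, ψ, c, p1, -, p3, p4, p5, p6, p7⟩ := qp_lift hI star_smul' star_smul'
    (sepTo_of_sep h1.sep _) h1.regS (h1.cen T (RingHom.id T)) h2.witS h1.hl h2.hl f0 g0 ⟨x ∘ Sum.inr⟩
    (fun a b => by rw [sm_bc, map_sub, hf0, map_mul, map_mul, map_mul, hf0, hf0, sub_self])
    (by rw [sm_bc, map_sub, hf0, map_one, map_one, map_one, sub_self])
    (fun a => by rw [sm_bc, map_sub, bc_star, hf0, hf0, bc_star, Φ.st, sub_self])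
    (fun y => sm_car.2 fun i => by
      rw [co_sub, hf, hg, mulVec_mulVec, Matrix.mul_smul, mul_adjugate, smul_smul, smul_mulVec,
        one_mulVec, Pi.sub_apply, Pi.smul_apply, smul_eq_mul, ← sub_one_mul]
      exact I.mul_mem_right _ hd)
    (fun y => sm_car.2 fun i => by
      rw [co_sub, hg, hf, mulVec_mulVec, Matrix.smul_mul, adjugate_mul, smul_smul, smul_mulVec,
        one_mulVec, Pi.sub_apply, Pi.smul_apply, smul_eq_mul, ← sub_one_mul]
      exact I.mul_mem_right _ hd)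
    (by rw [sm_bc, map_sub, map_sub, hf0, hΦl, map_sub, bc_star]; exact sub_self _)
  obtain ⟨P, -, q1, q2, q3, q4⟩ := SIso.exists_matrix
    ⟨AlgEquiv.ofBijective φ ⟨Function.LeftInverse.injective p6, Function.RightInverse.surjective p5⟩,
      p4⟩
  have q5 : ∀ y, (φ y).co = P *ᵥ y.co := q4
  have hP : ∀ a b, P a b - P0 a b ∈ I := fun a b => by
    have := sm_car.1 (p1 (A1.e b)) a
    rwa [co_sub, q5, hf, SAlg.e, mulVec_single_one, mulVec_single_one] at this
  have hn : x (.inl none) * P.det - 1 ∈ I := by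
    have e : P.map (Ideal.Quotient.mk I) = P0.map (Ideal.Quotient.mk I) :=
      Matrix.ext fun a b => Ideal.Quotient.eq.2 (hP a b)
    rw [← Ideal.Quotient.eq_zero_iff_mem, map_sub, map_mul, RingHom.map_det,
      RingHom.mapMatrix_apply] at hd ⊢
    rwa [e]
  refine ⟨Sum.elim (fun o => o.elim (x (.inl none) * (1 - (x (.inl none) * P.det - 1)))
    fun q => P q.1 q.2) c.co, ?_, funext fun k => ?_⟩
  · rintro ((_ | ⟨a, b⟩) | a)
    · have := I.mul_mem_left (-x (.inl none)) hn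
      refine (congrArg (· ∈ I) ?_).mp this
      change _ = x (.inl none) * (1 - (x (.inl none) * P.det - 1)) - x (.inl none)
      ring
    · have := hP a b
      rwa [hP0] at this
    · exact sm_car.1 p3 a
  · rcases k with k | a
    · refine congrFun ((eqa2_iff (B1 := A1) (B2 := A2) (x := fun o => o.elim
        (x (.inl none) * (1 - (x (.inl none) * P.det - 1))) fun q => P q.1 q.2)).2
        ⟨?_, q1, q2, q3⟩) k
      change x (.inl none) * (1 - (x (.inl none) * P.det - 1)) * P.det = 1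
      linear_combination -sq0 _ hn
    · have := congrFun (congrArg Car.co p7) a
      rw [co_sub, q5] at this
      exact sub_eq_zero.2 this

variable {R : Type u} [CommRing R] [IsLocalRing R]

/-- Algebras with quadratic pair that agree along a section are isomorphic near it. -/
theorem exists_etale_qiso (σ : T →+* R) (hσ : Function.Surjective σ) (h : A1.map σ = A2.map σ)
    {l1 : A1.Car} {l2 : A2.Car} (hl : σ ∘ l1.co = σ ∘ l2.co) (h1 : QN A1 l1) (h2 : QM A2 l2) :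
    ∃ (T' : Type u) (_ : CommRing T') (f : T →+* T') (σ' : T' →+* R), f.Etale ∧ σ'.comp f = σ ∧
      ∃ Φ : SIso (A1.map f) (A2.map f), (∀ x, σ' ∘ (Φ.e x).co = σ' ∘ x.co) ∧
        Alt (Φ.e (A1.bc f l1) - A2.bc f l2) := by
  obtain ⟨T', _, f, σ', x, hf, hc, hx, h0⟩ := exists_etale_sol σ hσ
    (fun S _ f x => eqd_F (A1.map f) (A2.map f) (A1.bc f l1) (A2.bc f l2) x)
    (fun S S' _ _ f g x => eqd_nat (l1 := A1.bc f l1) (l2 := A2.bc f l2) g x)
    (fun S _ f I hI x hx => eqd_lift (h1.map f) (h2.map f) I hI x hx)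
    (Sum.elim (fun o => o.elim 1 fun q => (1 : Matrix (Fin N) (Fin N) R) q.1 q.2) 0) (by
      funext k
      rcases k with k | a
      · refine congrFun (?_ : eqa2_F _ _ _ = 0) k
        rw [h, eqa2_iff]
        change (1 : R) * (1 : Matrix (Fin N) (Fin N) R).det = 1 ∧ (1 : Matrix _ _ R) *ᵥ _ = _ ∧
          (∀ i, (1 : Matrix _ _ R) * _ = (∑ c, (1 : Matrix _ _ R) c i • _) * (1 : Matrix _ _ R)) ∧
          (1 : Matrix _ _ R) * _ = _ * (1 : Matrix _ _ R)
        simp [Matrix.one_apply]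
      · change ((1 : Matrix _ _ R) *ᵥ (σ ∘ l1.co)) a - (σ ∘ l2.co) a - (0 - (_ *ᵥ 0) a) = 0
        rw [one_mulVec, hl, mulVec_zero]; simp)
  obtain ⟨Φ, hΦ, hΦl⟩ := eqd_siso h0
  refine ⟨T', inferInstance, f, σ', hf, hc, Φ, fun y => funext fun k => ?_, _, hΦl⟩
  have h1 : (eqa2_mat (x ∘ Sum.inl)).map σ' = 1 :=
    Matrix.ext fun a b => congrFun hx (.inl (some (a, b)))
  rw [hΦ, Function.comp_apply, RingHom.map_mulVec, h1, one_mulVec]

/-- Regular forms that agree along a section are isometric near it. -/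
theorem exists_etale_form (σ : T →+* R) (hσ : Function.Surjective σ) {θ1 θ2 : A.Car}
    (hu : IsUnit (θ2 + star θ2)) (h : A.bc σ θ1 = A.bc σ θ2) :
    ∃ (T' : Type u) (_ : CommRing T') (f : T →+* T') (σ' : T' →+* R), f.Etale ∧ σ'.comp f = σ ∧
      ∃ y : (A.map f).Car, σ' ∘ y.co = σ ∘ A.one ∧ Alt (star y * A.bc f θ1 * y - A.bc f θ2) := by
  obtain ⟨T', _, f, σ', x, hf, hc, hx, h0⟩ := exists_etale_sol σ hσ (ι := Fin N ⊕ Fin N)
    (fun S _ f x => (star ⟨x ∘ Sum.inl⟩ * A.bc f θ1 * ⟨x ∘ Sum.inl⟩ - A.bc f θ2 -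
      (⟨x ∘ Sum.inr⟩ - star ⟨x ∘ Sum.inr⟩) : (A.map f).Car).co)
    (fun S S' _ _ f g x => by
      rw [← co_bc]
      simp only [map_sub, map_mul, bc_star]
      rfl)
    (fun S _ f I hI x hx => by
      obtain ⟨v, hv⟩ := (hu.map (A.bc f)).exists_right_inv
      rw [map_add, bc_star] at hv
      have hx' := sm_car.2 hx
      generalize A.bc f θ1 = t1 at *
      generalize A.bc f θ2 = t2 at *
      obtain ⟨y, hy⟩ : ∃ y : (A.map f).Car, y = ⟨x ∘ Sum.inl⟩ := ⟨_, rfl⟩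
      obtain ⟨c, hc⟩ : ∃ y : (A.map f).Car, y = ⟨x ∘ Sum.inr⟩ := ⟨_, rfl⟩
      rw [← hy, ← hc] at hx'
      obtain ⟨n, hn⟩ : ∃ n, n = star y * t1 * y - t2 - (c - star c) := ⟨_, rfl⟩
      rw [← hn] at hx'
      obtain ⟨w, hw⟩ : ∃ w, w = v * n := ⟨_, rfl⟩
      have hwI : w ∈ Sm I _ := hw ▸ sm_mul_left v hx'
      have hws : star w ∈ Sm I _ := sm_map (A.map f).stL hwI
      have a1 : y * (1 - w) - y ∈ Sm I _ := by
        have := neg_mem (sm_mul_left y hwI)
        refine (congrArg (· ∈ Sm I _) ?_).mp this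
        noncomm_ring
      have a2 : (1 - star w) * c * (1 - w) - star w * t2 - c ∈ Sm I _ := by
        have := neg_mem (add_mem (add_mem (sm_mul_right c hws) (sm_mul_left ((1 - star w) * c) hwI))
          (sm_mul_right t2 hws))
        refine (congrArg (· ∈ Sm I _) ?_).mp this
        noncomm_ring
      refine ⟨Sum.elim (y * (1 - w)).co ((1 - star w) * c * (1 - w) - star w * t2).co, ?_, ?_⟩
      · rintro (a | a)
        · have := sm_car.1 a1 a
          rwa [co_sub, Pi.sub_apply, show y.co a = x (.inl a) by rw [hy]; rfl] at this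
        · have := sm_car.1 a2 a
          rwa [co_sub, Pi.sub_apply, show c.co a = x (.inr a) by rw [hc]; rfl] at this
      · change (star (y * (1 - w)) * t1 * (y * (1 - w)) - t2 -
          (((1 - star w) * c * (1 - w) - star w * t2) -
            star ((1 - star w) * c * (1 - w) - star w * t2))).co = (0 : (A.map f).Car).co
        congr 1
        have k0 : star (y * (1 - w)) * t1 * (y * (1 - w)) =
            (1 - star w) * (t2 + (c - star c) + n) * (1 - w) := by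
          rw [hn, star_mul, star_sub, star_one]; noncomm_ring
        have k1 : (t2 + star t2) * w = n := by rw [hw, ← mul_assoc, hv, one_mul]
        have k2 := sm_mul hI hws hx'
        have k3 := sm_mul hI hx' hwI
        have k4 := sm_mul hI (sm_mul_right t2 hws) hwI
        have k5 : (1 - star w) * n * (1 - w) = (t2 + star t2) * w := by
          rw [k1, sub_mul, one_mul, k2, sub_zero, mul_sub, k3, sub_zero, mul_one]
        rw [k0, mul_add, add_mul, k5, ← k4]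
        simp only [star_sub, star_mul, star_one, star_star]
        noncomm_ring)
    (Sum.elim (σ ∘ A.one) 0) (by
      change (star 1 * A.bc σ θ1 * 1 - A.bc σ θ2 - (0 - star 0)).co = (0 : (A.map σ).Car).co
      rw [h]; simp)
  exact ⟨T', inferInstance, f, σ', hf, hc, ⟨x ∘ Sum.inl⟩, funext fun a => congrFun hx (.inl a),
    ⟨x ∘ Sum.inr⟩, sub_eq_zero.1 (Car.ext h0)⟩

end Pool.Agent.GSD
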