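import Mathlib

open Matrix CliffordAlgebra

namespace Pool.Agent.GSD

variable {T T' : Type*} [CommRing T] [CommRing T']
variable {N N' : Type*} [AddCommGroup N] [Module T N] [AddCommGroup N'] [Module T' N']
variable {q : QuadraticForm T N} {q' : QuadraticForm T' N'}

theorem ctr_involute (d : Module.Dual T N) (x : CliffordAlgebra q) :
    involute (contractLeft d x) = -contractLeft d (involute x) := by
  induction x using CliffordAlgebra.left_induction with
  | algebraMap r => simp
  | add x y hx hy => rw [map_add, map_add, map_add, map_add, hx, hy, neg_add]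
  | ι_mul x m hx =>
    rw [contractLeft_ι_mul, map_sub, map_smul, map_mul, map_mul, hx, involute_ι, neg_mul,
      neg_mul, map_neg, contractLeft_ι_mul, mul_neg, neg_neg, neg_neg]

theorem ctr_mul (d : Module.Dual T N) (a b : CliffordAlgebra q) :
    contractLeft d (a * b) = contractLeft d a * b + involute a * contractLeft d b := by
  induction a using CliffordAlgebra.left_induction with
  | algebraMap r =>
    rw [contractLeft_algebraMap_mul, contractLeft_algebraMap, AlgHom.commutes, zero_mul, zero_add]
  | add x y hx hy => rw [add_mul, map_add, hx, hy, map_add, map_add, add_mul, add_mul]; abel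
  | ι_mul x m hx =>
    rw [mul_assoc, contractLeft_ι_mul, hx, contractLeft_ι_mul, map_mul, involute_ι, sub_mul,
      smul_mul_assoc, mul_add, neg_mul, neg_mul, mul_assoc, mul_assoc]
    abel

theorem reverse_ctr (d : Module.Dual T N) (y : CliffordAlgebra q) :
    reverse (contractLeft d y) = -contractLeft d (involute (reverse y)) := by
  induction y using CliffordAlgebra.left_induction with
  | algebraMap r => simp
  | add x y hx hy => rw [map_add, map_add, map_add, map_add, map_add, hx, hy, neg_add]
  | ι_mul x m hx =>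
    rw [contractLeft_ι_mul, map_sub, map_smul, reverse.map_mul, reverse.map_mul, hx, reverse_ι,
      map_mul, involute_ι, mul_neg, map_neg, neg_neg, ctr_mul, involute_involute, contractLeft_ι,
      ← Algebra.commutes, ← Algebra.smul_def, neg_mul, sub_neg_eq_add, add_comm]

theorem ι_mul_sub_involute (v : N) (x : CliffordAlgebra q) :
    ι q v * x - involute x * ι q v = contractLeft (q.polarBilin v) x := by
  induction x using CliffordAlgebra.left_induction with
  | algebraMap r => rw [AlgHom.commutes, Algebra.commutes, sub_self, contractLeft_algebraMap]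
  | add x y hx hy => rw [mul_add, map_add, add_mul, map_add, ← hx, ← hy]; abel
  | ι_mul x m hx =>
    rw [contractLeft_ι_mul, ← hx, map_mul, involute_ι, QuadraticMap.polarBilin_apply_apply,
      Algebra.smul_def, ← ι_mul_ι_add_swap, add_mul, mul_sub, neg_mul, neg_mul]
    simp only [mul_assoc]
    abel

theorem ctr_ι_ι {d : Module.Dual T N} {i : ZMod 2} (a b : N) {x : CliffordAlgebra q}
    (hx : x ∈ evenOdd q (i + 1)) (h : contractLeft d x ∈ evenOdd q i) :
    contractLeft d (ι q a * ι q b * x) ∈ evenOdd q i := by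
  have h1 : ∀ c : N, ι q c * x ∈ evenOdd q i := fun c => by
    have := SetLike.mul_mem_graded (ι_mem_evenOdd_one q c) hx
    rwa [show (1 : ZMod 2) + (i + 1) = i from by
      rw [add_comm i, ← add_assoc, show (1 : ZMod 2) + 1 = 0 from rfl, zero_add]] at this
  have h2 : ι q a * ι q b * contractLeft d x ∈ evenOdd q i := by
    have := SetLike.mul_mem_graded (ι_mul_ι_mem_evenOdd_zero q a b) h
    rwa [zero_add] at this
  rw [mul_assoc, contractLeft_ι_mul, contractLeft_ι_mul, mul_sub, mul_smul_comm, ← mul_assoc]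
  exact sub_mem (Submodule.smul_mem _ _ (h1 b)) (sub_mem (Submodule.smul_mem _ _ (h1 a)) h2)

theorem ctr_evenOdd (d : Module.Dual T N) {i : ZMod 2} {x : CliffordAlgebra q}
    (hx : x ∈ evenOdd q i) : contractLeft d x ∈ evenOdd q (i + 1) := by
  have hi : ∀ j : ZMod 2, j = 0 ∨ j = 1 := by decide
  rcases hi i with rfl | rfl
  · induction x, hx using CliffordAlgebra.even_induction with
    | algebraMap r => rw [contractLeft_algebraMap]; exact zero_mem _
    | add x y _ _ hx hy => rw [map_add]; exact add_mem hx hy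
    | ι_mul_ι_mul a b x hx ih => exact ctr_ι_ι a b hx ih
  · induction x, hx using CliffordAlgebra.odd_induction with
    | ι v =>
      rw [contractLeft_ι]
      exact SetLike.algebraMap_mem_graded (evenOdd q) _
    | add x y _ _ hx hy => rw [map_add]; exact add_mem hx hy
    | ι_mul_ι_mul a b x hx ih => exact ctr_ι_ι a b hx ih

/-- The exterior product of a list of vectors inside the Clifford algebra, for a bilinear
form `B` with `B u u = q u`. -/
noncomputable def wlift (q : QuadraticForm T N) (B : LinearMap.BilinForm T N) (l : List N) :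
    CliffordAlgebra q :=
  l.foldr (fun u y => ι q u * y - contractLeft (B u) y) 1

variable {B : LinearMap.BilinForm T N} {B' : LinearMap.BilinForm T' N'}

theorem wl_nil : wlift q B [] = 1 := rfl

theorem wl_cons (u : N) (l : List N) :
    wlift q B (u :: l) = ι q u * wlift q B l - contractLeft (B u) (wlift q B l) := rfl

theorem wl_eq_changeForm (h : B.toQuadraticMap = q - 0) (l : List N) :
    wlift q B l = changeForm h (l.map (ι (0 : QuadraticForm T N))).prod := by
  induction l with
  | nil => rw [wl_nil, List.map_nil, List.prod_nil, changeForm_one]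
  | cons u l ih => rw [wl_cons, List.map_cons, List.prod_cons, changeForm_ι_mul, ih]

theorem wl_mem_evenOdd (l : List N) : wlift q B l ∈ evenOdd q (l.length : ZMod 2) := by
  induction l with
  | nil => exact SetLike.one_mem_graded (evenOdd q)
  | cons u l ih =>
    rw [wl_cons, List.length_cons, Nat.cast_succ]
    refine sub_mem ?_ (ctr_evenOdd _ ih)
    rw [add_comm]
    exact SetLike.mul_mem_graded (ι_mem_evenOdd_one q u) ih

/-- Iterated contraction. -/
noncomputable def ctrs (ds : List (Module.Dual T N)) (x : CliffordAlgebra q) : CliffordAlgebra q :=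
  ds.foldr (fun d y => contractLeft d (involute y)) x

theorem ctrs_cons (d : Module.Dual T N) (ds : List (Module.Dual T N)) (x : CliffordAlgebra q) :
    ctrs (d :: ds) x = contractLeft d (involute (ctrs ds x)) := rfl

theorem reverse_wl_mul {w : CliffordAlgebra q} (hw : ∀ u, ι q u * w = contractLeft (B u) w)
    (he : involute w = w) (l : List N) : reverse (wlift q B l) * w = ctrs (l.map B) w := by
  induction l with
  | nil => rw [wl_nil, reverse.map_one, one_mul]; rfl
  | cons u l ih =>
    rw [wl_cons, List.map_cons, ctrs_cons, ← ih, map_sub, reverse.map_mul, reverse_ι, reverse_ctr,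
      map_mul, he, ctr_mul, involute_involute, sub_neg_eq_add, add_mul, mul_assoc, hw, add_comm]

theorem ctrs_wedge (u : N) (ds : List (Module.Dual T N)) (h : ∀ d ∈ ds, d u = 0)
    (x : CliffordAlgebra q) :
    ctrs ds (ι q u * x - contractLeft (B u) x) =
      ι q u * ctrs ds x - contractLeft (B u) (ctrs ds x) := by
  induction ds with
  | nil => rfl
  | cons d ds ih =>
    rw [ctrs_cons, ctrs_cons, ih fun d' hd => h d' (List.mem_cons_of_mem _ hd), map_sub, map_mul,
      involute_ι, ctr_involute, map_sub, neg_mul, map_neg, map_neg, contractLeft_ι_mul,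
      h d List.mem_cons_self, zero_smul, contractLeft_comm d]
    abel

theorem ctrs_wl (L : List (N × Module.Dual T N)) (h1 : ∀ p ∈ L, p.2 p.1 = 1)
    (h2 : L.Pairwise fun p p' => p'.2 p.1 = 0) :
    ctrs (L.map Prod.snd) (wlift q B (L.map Prod.fst)) = algebraMap T _ ((-1) ^ L.length) := by
  induction L with
  | nil => rw [List.length_nil, pow_zero, map_one]; rfl
  | cons p L ih =>
    rw [List.pairwise_cons] at h2
    rw [List.map_cons, List.map_cons, wl_cons, ctrs_cons, ctrs_wedge,
      ih (fun p' hp => h1 p' (List.mem_cons_of_mem _ hp)) h2.2, contractLeft_algebraMap, sub_zero,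
      map_mul, involute_ι, AlgHom.commutes, neg_mul, map_neg, contractLeft_mul_algebraMap,
      contractLeft_ι, h1 p List.mem_cons_self, map_one, one_mul, List.length_cons, pow_succ,
      mul_neg_one, map_neg]
    intro d hd
    obtain ⟨p', hp, rfl⟩ := List.mem_map.1 hd
    exact h2.1 p' hp

section Top

variable {k : ℕ} (b : Module.Basis (Fin k) T N)

theorem ι_mul_top (h : B.toQuadraticMap = q - 0) (u : N) :
    ι q u * wlift q B (List.ofFn b) = contractLeft (B u) (wlift q B (List.ofFn b)) := by
  rw [← sub_eq_zero, ← wl_cons, wl_eq_changeForm h, List.map_cons, List.prod_cons,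
    ← b.sum_repr u, map_sum, Finset.sum_mul, Finset.sum_eq_zero, map_zero]
  intro i _
  rw [map_smul, smul_mul_assoc, List.map_ofFn]
  exact (congrArg (b.repr u i • ·) (ExteriorAlgebra.ι_mul_prod_list (R := T) b i)).trans
    (smul_zero _)

theorem wl_ofFn_eq (h : B.toQuadraticMap = q - 0) (v : Fin k → N) :
    wlift q B (List.ofFn v) = b.det v • wlift q B (List.ofFn b) := by
  let A : N [⋀^Fin k]→ₗ[T] CliffordAlgebra q :=
    (changeForm h).compAlternatingMap (ExteriorAlgebra.ιMulti T k)
  have hA : ∀ v, A v = wlift q B (List.ofFn v) := fun v => by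
    rw [wl_eq_changeForm h, List.map_ofFn]
    exact congrArg (changeForm h) (ExteriorAlgebra.ιMulti_apply v)
  have e : A = b.det.smulRight (A b) := by
    refine b.ext_alternating fun i hi => ?_
    let σ : Equiv.Perm (Fin k) := Equiv.ofBijective i (Finite.injective_iff_bijective.1 hi)
    change A (b ∘ σ) = b.det (b ∘ σ) • A b
    rw [AlternatingMap.map_perm, AlternatingMap.map_perm, Module.Basis.det_self, smul_assoc,
      one_smul]
  rw [← hA, ← hA, e]
  rw [AlternatingMap.smulRight_apply, AlternatingMap.smulRight_apply, Module.Basis.det_self,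
    one_smul]

/-- The norm of the top element. -/
theorem reverse_top_mul (h : B.toQuadraticMap = q - 0) (hk : Even k) (f : Fin k → N)
    (hf : ∀ i, B (f i) = b.coord i) :
    b.det f • (reverse (wlift q B (List.ofFn b)) * wlift q B (List.ofFn b)) = 1 := by
  have he : involute (wlift q B (List.ofFn b)) = wlift q B (List.ofFn b) := by
    apply involute_eq_of_mem_even
    have := wl_mem_evenOdd (q := q) (B := B) (List.ofFn b)
    rwa [List.length_ofFn, (ZMod.natCast_eq_zero_iff_even).2 hk] at this
  have key := ctrs_wl (q := q) (B := B) (List.ofFn fun i => (b i, b.coord i))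
    (fun p hp => by
      obtain ⟨i, rfl⟩ := List.mem_ofFn.1 hp
      simp)
    (List.pairwise_ofFn.2 fun i j hij => by simp [hij.ne])
  rw [List.map_ofFn, List.map_ofFn, List.length_ofFn, hk.neg_one_pow, map_one] at key
  rw [← smul_mul_assoc, ← map_smul, ← wl_ofFn_eq b h, reverse_wl_mul (ι_mul_top b h) he,
    List.map_ofFn, ← key]
  congr 2
  funext i
  exact hf i

end Top

section Semi

variable {f : T →+* T'} {ψ : CliffordAlgebra q →+* CliffordAlgebra q'}

theorem cl_ringHom_ext {A : Type*} [Semiring A] {ψ₁ ψ₂ : CliffordAlgebra q →+* A}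
    (h1 : ∀ t, ψ₁ (algebraMap T _ t) = ψ₂ (algebraMap T _ t))
    (h2 : ∀ u, ψ₁ (ι q u) = ψ₂ (ι q u)) (x : CliffordAlgebra q) : ψ₁ x = ψ₂ x := by
  induction x using CliffordAlgebra.induction with
  | algebraMap r => exact h1 r
  | ι v => exact h2 v
  | mul a b ha hb => rw [map_mul, map_mul, ha, hb]
  | add a b ha hb => rw [map_add, map_add, ha, hb]

theorem semi_smul (h1 : ∀ t, ψ (algebraMap T _ t) = algebraMap T' _ (f t)) (t : T)
    (x : CliffordAlgebra q) : ψ (t • x) = f t • ψ x := by
  rw [Algebra.smul_def, Algebra.smul_def, map_mul, h1]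

theorem semi_ctr (h1 : ∀ t, ψ (algebraMap T _ t) = algebraMap T' _ (f t)) {θ : N → N'}
    (h2 : ∀ u, ψ (ι q u) = ι q' (θ u)) {d : Module.Dual T N} {d' : Module.Dual T' N'}
    (hd : ∀ u, d' (θ u) = f (d u)) (x : CliffordAlgebra q) :
    ψ (contractLeft d x) = contractLeft d' (ψ x) := by
  induction x using CliffordAlgebra.left_induction with
  | algebraMap r => rw [contractLeft_algebraMap, h1, contractLeft_algebraMap, map_zero]
  | add x y hx hy => rw [map_add, map_add, map_add, map_add, hx, hy]
  | ι_mul x m hx =>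
    rw [contractLeft_ι_mul, map_sub, semi_smul h1, map_mul, map_mul, hx, h2, contractLeft_ι_mul, hd]

theorem semi_wl (h1 : ∀ t, ψ (algebraMap T _ t) = algebraMap T' _ (f t)) {θ : N → N'}
    (h2 : ∀ u, ψ (ι q u) = ι q' (θ u)) (hB : ∀ u v, B' (θ u) (θ v) = f (B u v)) (l : List N) :
    ψ (wlift q B l) = wlift q' B' (l.map θ) := by
  induction l with
  | nil => exact map_one ψ
  | cons u l ih =>
    rw [wl_cons, List.map_cons, wl_cons, map_sub, map_mul, h2, semi_ctr h1 h2 (hB u), ih]

theorem semi_reverse (h1 : ∀ t, ψ (algebraMap T _ t) = algebraMap T' _ (f t)) {θ : N → N'}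
    (h2 : ∀ u, ψ (ι q u) = ι q' (θ u)) (x : CliffordAlgebra q) :
    ψ (reverse x) = reverse (ψ x) := by
  induction x using CliffordAlgebra.induction with
  | algebraMap r => rw [reverse.commutes, h1, reverse.commutes]
  | ι v => rw [reverse_ι, h2, reverse_ι]
  | mul a b ha hb => rw [reverse.map_mul, map_mul, map_mul, reverse.map_mul, ha, hb]
  | add a b ha hb => rw [map_add, map_add, map_add, map_add, ha, hb]

theorem semi_even (h1 : ∀ t, ψ (algebraMap T _ t) = algebraMap T' _ (f t)) {θ : N → N'}
    (h2 : ∀ u, ψ (ι q u) = ι q' (θ u)) {x : CliffordAlgebra q} (hx : x ∈ evenOdd q 0) :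
    ψ x ∈ evenOdd q' 0 := by
  induction x, hx using CliffordAlgebra.even_induction with
  | algebraMap r => rw [h1]; exact SetLike.algebraMap_mem_graded (evenOdd q') _
  | add x y _ _ hx hy => rw [map_add]; exact add_mem hx hy
  | ι_mul_ι_mul a b x _ hx =>
    rw [map_mul, map_mul, h2, h2]
    have := SetLike.mul_mem_graded (ι_mul_ι_mem_evenOdd_zero q' (θ a) (θ b)) hx
    rwa [zero_add] at this

theorem exists_semi (f : T →+* T') (θ : N →ₛₗ[f] N') (h : ∀ u, q' (θ u) = f (q u)) :
    ∃ ψ : CliffordAlgebra q →+* CliffordAlgebra q',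
      (∀ t, ψ (algebraMap T _ t) = algebraMap T' _ (f t)) ∧ ∀ u, ψ (ι q u) = ι q' (θ u) := by
  let _ : Algebra T (CliffordAlgebra q') :=
    ((algebraMap T' (CliffordAlgebra q')).comp f).toAlgebra' fun c x => Algebra.commutes (f c) x
  let L : N →ₗ[T] CliffordAlgebra q' :=
    { toFun := fun v => ι q' (θ v)
      map_add' := fun v w => by rw [map_add, map_add]
      map_smul' := fun c v => by rw [map_smulₛₗ, map_smul, Algebra.smul_def]; rfl }
  let F := CliffordAlgebra.lift q ⟨L, fun v => by
    change ι q' (θ v) * ι q' (θ v) = algebraMap T' _ (f _)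
    rw [ι_sq_scalar, h]⟩
  exact ⟨F.toRingHom, fun t => F.commutes t, fun u => CliffordAlgebra.lift_ι_apply _ _ u⟩

end Semi

section Wall

variable {κ : Type*} [Fintype κ] [DecidableEq κ]

/-- The vectors `c i` and the matrix `Y` form a datum: `q (∑ x i • c i) = xᵀ Y x`. -/
def IsDatum (q : QuadraticForm T N) (c : κ → N) (Y : Matrix κ κ T) : Prop :=
  ∀ x : κ → T, q (∑ i, x i • c i) = x ⬝ᵥ Y *ᵥ x

/-- The form `xᵀ Y x`. -/
noncomputable def qY (Y : Matrix κ κ T) : QuadraticForm T (κ → T) :=
  (Matrix.toBilin' Y).toQuadraticMap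

theorem qY_apply (Y : Matrix κ κ T) (x : κ → T) : qY Y x = x ⬝ᵥ Y *ᵥ x := by
  rw [qY, LinearMap.BilinMap.toQuadraticMap_apply, toBilin'_apply']

theorem qY_sub (Y : Matrix κ κ T) : (Matrix.toBilin' Y).toQuadraticMap = qY Y - 0 :=
  (sub_zero _).symm

/-- The standard basis, listed. -/
noncomputable def stdB (T : Type*) [CommRing T] (κ : Type*) [Fintype κ] :
    Module.Basis (Fin (Fintype.card κ)) T (κ → T) :=
  (Pi.basisFun T κ).reindex (Fintype.equivFin κ)

/-- The top exterior product in the Clifford algebra of `xᵀ Y x`. -/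
noncomputable def topY (Y : Matrix κ κ T) : CliffordAlgebra (qY Y) :=
  wlift (qY Y) (Matrix.toBilin' Y) (List.ofFn (stdB T κ))

theorem IsDatum.exists_hom {c : κ → N} {Y : Matrix κ κ T} (h : IsDatum q c Y) :
    ∃ ψ : CliffordAlgebra (qY Y) →+* CliffordAlgebra q,
      (∀ t, ψ (algebraMap T _ t) = algebraMap T _ t) ∧
        ∀ x, ψ (ι (qY Y) x) = ι q (∑ i, x i • c i) := by
  obtain ⟨ψ, h1, h2⟩ := exists_semi (q := qY Y) (q' := q) (RingHom.id T)
    (Fintype.linearCombination T c) fun x => by
      rw [Fintype.linearCombination_apply, h, qY_apply, RingHom.id_apply]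
  exact ⟨ψ, h1, fun x => by rw [h2, Fintype.linearCombination_apply]⟩

/-- The element of the Clifford algebra attached to a datum. -/
noncomputable def IsDatum.lift {c : κ → N} {Y : Matrix κ κ T} (h : IsDatum q c Y) :
    CliffordAlgebra q :=
  h.exists_hom.choose (topY Y)

variable {c : κ → N} {Y : Matrix κ κ T}

theorem IsDatum.lift_eq (h : IsDatum q c Y) {ψ : CliffordAlgebra (qY Y) →+* CliffordAlgebra q}
    (h1 : ∀ t, ψ (algebraMap T _ t) = algebraMap T _ t)
    (h2 : ∀ x, ψ (ι (qY Y) x) = ι q (∑ i, x i • c i)) : h.lift = ψ (topY Y) :=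
  cl_ringHom_ext (fun t => by rw [h.exists_hom.choose_spec.1, h1])
    (fun x => by rw [h.exists_hom.choose_spec.2, h2]) _

theorem topY_even (hk : Even (Fintype.card κ)) : topY Y ∈ evenOdd (qY Y) 0 := by
  have := wl_mem_evenOdd (q := qY Y) (B := Matrix.toBilin' Y) (List.ofFn (stdB T κ))
  rwa [List.length_ofFn, (ZMod.natCast_eq_zero_iff_even).2 hk] at this

theorem IsDatum.lift_even (h : IsDatum q c Y) (hk : Even (Fintype.card κ)) : h.lift ∈ even q :=
  semi_even (f := RingHom.id T) h.exists_hom.choose_spec.1 h.exists_hom.choose_spec.2 (topY_even hk)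

/-- The lift moves `v` to `v - ∑ u i • c i`, where `uᵀ Y` lists the products of `v` with `c`. -/
theorem IsDatum.lift_mul_ι (h : IsDatum q c Y) (hk : Even (Fintype.card κ)) (v : N) (u : κ → T)
    (hu : ∀ j, (u ᵥ* Y) j = QuadraticMap.polar q v (c j)) :
    h.lift * ι q v = ι q (v - ∑ i, u i • c i) * h.lift := by
  obtain ⟨h1, h2⟩ := h.exists_hom.choose_spec
  have e1 := ι_mul_sub_involute v h.lift
  rw [involute_eq_of_mem_even (h.lift_even hk)] at e1
  have e2 : contractLeft (q.polarBilin v) h.lift = ι q (∑ i, u i • c i) * h.lift := by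
    unfold IsDatum.lift
    rw [← semi_ctr (f := RingHom.id T) h1 h2 (d := Matrix.toBilin' Y u), ← h2, ← map_mul, topY,
      ι_mul_top _ (qY_sub Y)]
    intro x
    rw [RingHom.id_apply, toBilin'_apply', dotProduct_mulVec, map_sum, dotProduct]
    refine Finset.sum_congr rfl fun j _ => ?_
    rw [map_smul, hu, QuadraticMap.polarBilin_apply_apply, smul_eq_mul, mul_comm]
  rw [map_sub, sub_mul, ← e2, ← e1, sub_sub_cancel]

theorem stdB_det (P : Matrix κ κ T) :
    (stdB T κ).det (fun i => Pᵀ ((Fintype.equivFin κ).symm i)) = P.det := by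
  rw [Module.Basis.det_apply, ← det_submatrix_equiv_self (Fintype.equivFin κ).symm P]
  congr 1

/-- The norm of the lift is the determinant. -/
theorem IsDatum.reverse_lift_mul (h : IsDatum q c Y) (hk : Even (Fintype.card κ))
    (hY : IsUnit Y.det) : reverse h.lift * h.lift = algebraMap T _ Y.det := by
  obtain ⟨h1, h2⟩ := h.exists_hom.choose_spec
  have key := reverse_top_mul (stdB T κ) (qY_sub Y) hk
    (fun i => (Y⁻¹)ᵀᵀ ((Fintype.equivFin κ).symm i)) fun i => by
      refine LinearMap.ext fun x => ?_
      rw [toBilin'_apply', transpose_transpose]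
      change (Y⁻¹ *ᵥ (Y *ᵥ x)) _ = _
      rw [mulVec_mulVec, nonsing_inv_mul _ hY, one_mulVec]
      simp [stdB]
  rw [stdB_det, det_transpose] at key
  have k2 := congrArg (Y.det • ·) key
  simp only [smul_smul] at k2
  rw [← det_mul, mul_nonsing_inv _ hY, det_one, one_smul, ← Algebra.algebraMap_eq_smul_one] at k2
  unfold IsDatum.lift
  rw [← semi_reverse (f := RingHom.id T) h1 h2, ← map_mul, topY, k2, h1]

/-- An even element that normalises the vectors and has a left inverse is a unit. -/
theorem exists_mul_eq_mul {x : CliffordAlgebra q} (hx : ∀ w, ∃ v, x * ι q v = ι q w * x)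
    (y : CliffordAlgebra q) : ∃ y', x * y' = y * x := by
  induction y using CliffordAlgebra.induction with
  | algebraMap r => exact ⟨_, (Algebra.commutes r x).symm⟩
  | ι w => exact (hx w).imp' _ fun _ h => h
  | mul a b ha hb =>
    obtain ⟨a', ha⟩ := ha
    obtain ⟨b', hb⟩ := hb
    exact ⟨a' * b', by rw [← mul_assoc, ha, mul_assoc, hb, mul_assoc]⟩
  | add a b ha hb =>
    obtain ⟨a', ha⟩ := ha
    obtain ⟨b', hb⟩ := hb
    exact ⟨a' + b', by rw [mul_add, ha, hb, add_mul]⟩

theorem mul_reverse_of_reverse_mul {x : CliffordAlgebra q} {t : T} (ht : IsUnit t)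
    (hx : ∀ w, ∃ v, x * ι q v = ι q w * x) (hn : reverse x * x = algebraMap T _ t) :
    x * reverse x = algebraMap T _ t := by
  obtain ⟨y, hy⟩ := exists_mul_eq_mul hx (reverse x)
  rw [hn] at hy
  have e : reverse x * algebraMap T _ t = y * algebraMap T _ t := by
    rw [← Algebra.commutes t y, ← hn, mul_assoc, hy, hn]
  rw [(ht.map (algebraMap T (CliffordAlgebra q))).mul_right_cancel e, hy]

omit [DecidableEq κ] in
theorem IsDatum.congr (h : IsDatum q c Y) (P : Matrix κ κ T) :
    IsDatum q (fun j => ∑ i, P i j • c i) (Pᵀ * Y * P) := fun x => by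
  have e : ∑ j, x j • ∑ i, P i j • c i = ∑ i, (P *ᵥ x) i • c i := by
    simp only [Finset.smul_sum, smul_smul, mulVec, dotProduct, Finset.sum_smul]
    rw [Finset.sum_comm]
    simp only [mul_comm]
  rw [e, h, ← mulVec_mulVec, ← mulVec_mulVec, dotProduct_mulVec x Pᵀ, vecMul_transpose]

/-- The lift under a change of the parameter basis. -/
theorem IsDatum.lift_congr (h : IsDatum q c Y) (P : Matrix κ κ T) {c' : κ → N}
    {Y' : Matrix κ κ T} (h' : IsDatum q c' Y') (hc : ∀ j, c' j = ∑ i, P i j • c i)
    (hY : Y' = Pᵀ * Y * P) : h'.lift = P.det • h.lift := by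
  obtain ⟨h1, h2⟩ := h.exists_hom.choose_spec
  have hB : ∀ u v, Matrix.toBilin' Y (P *ᵥ u) (P *ᵥ v) = Matrix.toBilin' Y' u v := fun u v => by
    rw [toBilin'_apply', toBilin'_apply', hY, ← mulVec_mulVec, ← mulVec_mulVec,
      dotProduct_mulVec u Pᵀ, vecMul_transpose]
  obtain ⟨χ, k1, k2⟩ := exists_semi (q := qY Y') (q' := qY Y) (RingHom.id T) P.mulVecLin
    fun x => hB x x
  rw [h'.lift_eq (ψ := h.exists_hom.choose.comp χ) (fun t => by
      rw [RingHom.comp_apply, k1, RingHom.id_apply, h1]) fun x => by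
      rw [RingHom.comp_apply, k2, h2]
      congr 1
      simp only [hc, Finset.smul_sum, smul_smul, mulVecLin_apply, mulVec, dotProduct,
        Finset.sum_smul]
      rw [Finset.sum_comm]
      simp only [mul_comm]]
  rw [RingHom.comp_apply, topY,
    semi_wl (f := RingHom.id T) (B := Matrix.toBilin' Y') (B' := Matrix.toBilin' Y) k1 k2 hB,
    List.map_ofFn, wl_ofFn_eq (stdB T κ) (qY_sub Y), semi_smul (f := RingHom.id T) h1,
    ← stdB_det P, RingHom.id_apply]
  have e : ⇑P.mulVecLin ∘ ⇑(stdB T κ) = fun i => Pᵀ ((Fintype.equivFin κ).symm i) := by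
    funext i j
    simp [stdB]
  rw [e]; rfl

/-- The lift is natural for maps of Clifford algebras that send `c i` to `c' i`. -/
theorem IsDatum.map_lift (h : IsDatum q c Y) {f : T →+* T'}
    {ψ : CliffordAlgebra q →+* CliffordAlgebra q'}
    (h1 : ∀ t, ψ (algebraMap T _ t) = algebraMap T' _ (f t)) {c' : κ → N'}
    (h2 : ∀ i, ψ (ι q (c i)) = ι q' (c' i)) (h' : IsDatum q' c' (Y.map f)) :
    ψ h.lift = h'.lift := by
  obtain ⟨a1, a2⟩ := h.exists_hom.choose_spec
  obtain ⟨b1, b2⟩ := h'.exists_hom.choose_spec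
  let θ : (κ → T) →ₛₗ[f] (κ → T') :=
    { toFun := fun x => f ∘ x
      map_add' := fun x y => by funext i; simp
      map_smul' := fun a x => by funext i; simp }
  have hB : ∀ u v, Matrix.toBilin' (Y.map f) (θ u) (θ v) = f (Matrix.toBilin' Y u v) :=
    fun u v => by
      simp [θ, toBilin'_apply, map_sum]
  obtain ⟨χ, k1, k2⟩ := exists_semi (q := qY Y) (q' := qY (Y.map f)) f θ fun x => hB x x
  have e := cl_ringHom_ext (ψ₁ := ψ.comp h.exists_hom.choose) (ψ₂ := h'.exists_hom.choose.comp χ)
    (fun t => by rw [RingHom.comp_apply, RingHom.comp_apply, a1, h1, k1, b1])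
    (fun x => by
      rw [RingHom.comp_apply, RingHom.comp_apply, a2, k2, b2, map_sum, map_sum, map_sum]
      refine Finset.sum_congr rfl fun i _ => ?_
      rw [map_smul (ι q), map_smul (ι q'), semi_smul h1, h2]; rfl) (topY Y)
  rw [RingHom.comp_apply, RingHom.comp_apply] at e
  unfold IsDatum.lift
  rw [e, topY, semi_wl (B' := Matrix.toBilin' (Y.map f)) k1 k2 hB, List.map_ofFn, topY]
  congr 3
  funext i j
  simp [θ, stdB, Pi.single_apply]

end Wall

end Pool.Agent.GSD
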