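import Pool.Agent.P.MP_c1f06d_ag.Cliff
import Pool.Agent.P.MP_c1f06d_ag.d.Lift
import Pool.Agent.P.MP_c1f06d_ag.d.Pf

open Matrix CliffordAlgebra

universe u

namespace Pool.Agent.GSD

open Pool.Agent.P.MP_c1f06d_ag

variable {R : Type u} [CommRing R] {m : ℕ} {Q : Matrix (Fin m) (Fin m) R}
variable {T T' : Type u} [CommRing T] [Algebra R T] [CommRing T'] [Algebra R T']
variable {κ : Type*} [Fintype κ] [DecidableEq κ]
variable {C : Matrix (Fin m) κ T} {Y : Matrix κ κ T}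

omit [DecidableEq κ] in
theorem sum_smul_col (C : Matrix (Fin m) κ T) (x : κ → T) : ∑ i, x i • Cᵀ i = C *ᵥ x := by
  funext j
  simp [Finset.sum_apply, mulVec, dotProduct, mul_comm]

omit [DecidableEq κ] in
theorem IsAltM.dot_eq_zero {W : Matrix κ κ T} (h : IsAltM W) (x : κ → T) : x ⬝ᵥ W *ᵥ x = 0 := by
  obtain ⟨X, rfl⟩ := h
  rw [sub_mulVec, dotProduct_sub, dotProduct_mulVec x Xᵀ, vecMul_transpose, dotProduct_comm,
    sub_self]

omit [DecidableEq κ] in
/-- The columns of `C` and the matrix `Y` form a datum when `Y = Cᵀ Q C` up to an alternating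
matrix. -/
theorem isDatum_of_alt (h : IsAltM (Y - Cᵀ * Q.map (algebraMap R T) * C)) :
    IsDatum (formOver Q T) (fun i => Cᵀ i) Y := fun x => by
  have e := h.dot_eq_zero x
  rw [sub_mulVec, dotProduct_sub, sub_eq_zero] at e
  rw [sum_smul_col, formOver_apply, e, ← mulVec_mulVec, ← mulVec_mulVec, dotProduct_mulVec x Cᵀ,
    vecMul_transpose]

/-- The isometry attached to a datum. -/
noncomputable def wallMat (Q' : Matrix (Fin m) (Fin m) T) (C : Matrix (Fin m) κ T)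
    (Y : Matrix κ κ T) : Matrix (Fin m) (Fin m) T :=
  1 - C * Yᵀ⁻¹ * Cᵀ * (Q' + Q'ᵀ)

theorem IsDatum.lift_ind (h : IsDatum (formOver Q T) (fun i => Cᵀ i) Y)
    (hk : Even (Fintype.card κ)) (hY : IsUnit Y.det) :
    Ind Q h.lift (wallMat (Q.map (algebraMap R T)) C Y) := by
  intro v
  rw [involute_eq_of_mem_even (h.lift_even hk), h.lift_mul_ι hk v
    ((Yᵀ⁻¹ * Cᵀ * (Q.map (algebraMap R T) + (Q.map (algebraMap R T))ᵀ)) *ᵥ v) fun j => by
      rw [← mulVec_transpose, mulVec_mulVec, ← Matrix.mul_assoc, ← Matrix.mul_assoc,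
        mul_nonsing_inv _ (by rwa [det_transpose]), Matrix.one_mul, cliff_polar, bv_comm,
        ← mulVec_mulVec]
      rfl]
  rw [sum_smul_col, wallMat, sub_mulVec, one_mulVec, mulVec_mulVec]
  simp only [Matrix.mul_assoc]

theorem IsDatum.carries_wallMat (h : IsDatum (formOver Q T) (fun i => Cᵀ i) Y)
    (hY : IsUnit Y.det) :
    Carries (wallMat (Q.map (algebraMap R T)) C Y) (Q.map (algebraMap R T))
      (Q.map (algebraMap R T)) := by
  intro v
  set Q' := Q.map (algebraMap R T)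
  set u := (Yᵀ⁻¹ * Cᵀ * (Q' + Q'ᵀ)) *ᵥ v with hu
  have e1 : wallMat Q' C Y *ᵥ v = v - C *ᵥ u := by
    rw [wallMat, sub_mulVec, one_mulVec, hu, mulVec_mulVec]
    simp only [Matrix.mul_assoc]
  have e2 : qv Q' (C *ᵥ u) = u ⬝ᵥ Y *ᵥ u := by
    rw [← h u, sum_smul_col, formOver_eq_qv]
  have e3 : Yᵀ *ᵥ u = Cᵀ *ᵥ ((Q' + Q'ᵀ) *ᵥ v) := by
    rw [hu, mulVec_mulVec, ← Matrix.mul_assoc, ← Matrix.mul_assoc,
      mul_nonsing_inv _ (by rwa [det_transpose]), Matrix.one_mul, mulVec_mulVec]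
  have e4 : bv Q' v (C *ᵥ u) = u ⬝ᵥ Y *ᵥ u := by
    rw [bv_comm, bv, dotProduct_mulVec u, ← mulVec_transpose Y, e3, mulVec_transpose,
      ← dotProduct_mulVec, dotProduct_comm]
  rw [e1, qv_sub, e2, e4, add_sub_cancel_right]

theorem IsDatum.lift_mul_reverse (hQ : Unim Q) (h : IsDatum (formOver Q T) (fun i => Cᵀ i) Y)
    (hk : Even (Fintype.card κ)) (hY : IsUnit Y.det) :
    h.lift * reverse h.lift = algebraMap T _ Y.det := by
  have hd := (h.carries_wallMat hY).isUnit_det (hQ.map _)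
  refine mul_reverse_of_reverse_mul hY
    (fun w => ⟨(wallMat (Q.map (algebraMap R T)) C Y)⁻¹ *ᵥ w, ?_⟩) (h.reverse_lift_mul hk hY)
  have e := h.lift_ind hk hY ((wallMat (Q.map (algebraMap R T)) C Y)⁻¹ *ᵥ w)
  rwa [involute_eq_of_mem_even (h.lift_even hk), mulVec_mulVec, mul_nonsing_inv _ hd,
    one_mulVec] at e

theorem IsDatum.isUnit_lift (hQ : Unim Q) (h : IsDatum (formOver Q T) (fun i => Cᵀ i) Y)
    (hk : Even (Fintype.card κ)) (hY : IsUnit Y.det) : IsUnit h.lift := by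
  obtain ⟨d, hd⟩ := hY
  refine ⟨⟨h.lift, (↑d⁻¹ : T) • reverse h.lift, ?_, ?_⟩, rfl⟩
  · rw [mul_smul_comm, h.lift_mul_reverse hQ hk ⟨d, hd⟩, ← hd, Algebra.smul_def, ← map_mul,
      Units.inv_mul, map_one]
  · rw [smul_mul_assoc, h.reverse_lift_mul hk ⟨d, hd⟩, ← hd, Algebra.smul_def, ← map_mul,
      Units.inv_mul, map_one]

/-- With a square root of the determinant the lift becomes a point of the spin group. -/
theorem IsDatum.exists_spin (hQ : Unim Q) (h : IsDatum (formOver Q T) (fun i => Cᵀ i) Y)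
    (hk : Even (Fintype.card κ)) {s : T} (hs : s ^ 2 * Y.det = 1) :
    ∃ x : Spin Q T, x.val.val = s • h.lift ∧
      Ind Q x.val.val (wallMat (Q.map (algebraMap R T)) C Y) := by
  have hY : IsUnit Y.det := IsUnit.of_mul_eq_one_right _ hs
  have n1 : reverse (s • h.lift) * (s • h.lift) = 1 := by
    rw [map_smul, smul_mul_smul_comm, h.reverse_lift_mul hk hY, Algebra.smul_def, ← map_mul,
      ← pow_two, hs, map_one]
  have n2 : (s • h.lift) * reverse (s • h.lift) = 1 := by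
    rw [map_smul, smul_mul_smul_comm, h.lift_mul_reverse hQ hk hY, Algebra.smul_def, ← map_mul,
      ← pow_two, hs, map_one]
  exact ⟨⟨⟨s • h.lift, reverse (s • h.lift), n2, n1⟩,
    mem_spin ((h.carries_wallMat hY).isUnit_det (hQ.map _))
      (Subalgebra.smul_mem _ (h.lift_even hk) s) n1 ((h.lift_ind hk hY).smul s)⟩, rfl,
    (h.lift_ind hk hY).smul s⟩

theorem IsDatum.clMap_lift (h : IsDatum (formOver Q T) (fun i => Cᵀ i) Y) (f : T →ₐ[R] T')
    (h' : IsDatum (formOver Q T') (fun i => (C.map f)ᵀ i) (Y.map f)) :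
    clMap Q f h.lift = h'.lift :=
  h.map_lift (f := f.toRingHom) (clMap_algebraMap Q f) (fun i => clMap_ι Q f (Cᵀ i)) h'

end Pool.Agent.GSD
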