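import Pool.Agent.P.MP_c1f06d_ag.d.NPgen

/-! Norm principle for `Spin (A, σ)`: the good elements over a splitting field are generic. -/

namespace Pool.Agent.GSD

open Matrix Polynomial

/-- a complete family of orthogonal rank one idempotents onto the lines of a hyperbolic basis -/
structure HypFrame {A ι : Type*} [Ring A] [StarRing A] [Fintype ι] [DecidableEq ι] (l : A)
    (bar : ι → ι) (p : ι → A) : Prop where
  bar_bar : ∀ a, bar (bar a) = a
  bar_ne : ∀ a, bar a ≠ a
  mul : ∀ a b, p a * p b = if a = b then p a else 0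
  sum : ∑ a, p a = 1
  star_eq : ∀ a, star (p a) = p (bar a)
  ne : ∀ a, p a ≠ 0
  alt : ∀ a x, p a * (x - star x) * p (bar a) = 0
  iso : ∀ a, p a * l * p (bar a) = 0

theorem alt_of_skew {A ι : Type*} [Ring A] [StarRing A] [Fintype ι] (bar : ι → ι)
    (hbar : ∀ a, bar (bar a) = a) (p : ι → A) (hsum : ∑ a, p a = 1)
    (hps : ∀ a, star (p a) = p (bar a)) (x : A) (hx : star x = -x)
    (h0 : ∀ a, p a * x * p (bar a) = 0) : ∃ c, x = c - star c := by
  classical
  obtain ⟨idx, hidx⟩ := exists_injective_nat ι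
  have hsum' : ∑ a, p (bar a) = 1 := by
    rw [← hsum]
    exact Fintype.sum_bijective bar (Function.Involutive.bijective hbar) _ _ fun _ => rfl
  refine ⟨∑ a, ∑ b, if idx a < idx b then p a * x * p (bar b) else 0, ?_⟩
  have h1 : star (∑ a, ∑ b, if idx a < idx b then p a * x * p (bar b) else 0)
      = ∑ a, ∑ b, if idx b < idx a then -(p a * x * p (bar b)) else 0 := by
    rw [star_sum, Finset.sum_comm]
    refine Finset.sum_congr rfl fun a _ => ?_
    rw [star_sum]
    refine Finset.sum_congr rfl fun b _ => ?_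
    split_ifs
    · rw [star_mul, star_mul, hps, hps, hbar, hx]; noncomm_ring
    · exact star_zero _
  rw [h1, ← Finset.sum_sub_distrib]
  calc x = (∑ a, p a) * x * ∑ b, p (bar b) := by rw [hsum, hsum', one_mul, mul_one]
    _ = _ := by
      rw [Finset.sum_mul, Finset.sum_mul]
      refine Finset.sum_congr rfl fun a _ => ?_
      rw [Finset.mul_sum, ← Finset.sum_sub_distrib]
      refine Finset.sum_congr rfl fun b _ => ?_
      rcases lt_trichotomy (idx a) (idx b) with h | h | h
      · rw [if_pos h, if_neg (not_lt.mpr h.le), sub_zero]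
      · rw [← hidx h, h0]; simp
      · rw [if_neg (not_lt.mpr h.le), if_pos h, zero_sub, neg_neg]

theorem zar_good_of_frame {k S A A1 n ι : Type*} [Field k] [IsAlgClosed k] [CommRing S]
    [Algebra k S] [Ring A] [StarRing A] [Algebra k A] [Module.Finite k A] [Ring A1] [StarRing A1]
    [Algebra k A1] [Module.Finite k A1] [Fintype n] [DecidableEq n] [Fintype ι] [DecidableEq ι]
    (hA : ∀ r : k, star (algebraMap k A r) = algebraMap k A r)
    (l : A) (hl : l + star l = 1) (bar : ι → ι) (p : ι → A) (hp : HypFrame l bar p)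
    (b : Module.Basis n k S) (t : S) (ht : Algebra.adjoin k {t} = ⊤) (lam : S →ₗ[k] k)
    (hlam : ∀ s, (∀ s', lam (s * s') = 0) → s = 0)
    (j : A →+* A1) (hj : ∀ a, j (star a) = star (j a))
    (σ : S →ₐ[k] A1) (hσc : ∀ s x, σ s * x = x * σ s) (hσs : ∀ s, star (σ s) = σ s)
    (hgen : ∀ x : A1, x ∈ AddSubgroup.closure {x | ∃ a ∈ Set.range j, ∃ i : ℕ, x = a * σ t ^ i})
    (ρ : A1 →ₐ[k] Matrix n n A) (hρ : ∀ a, ρ (j a) = diagonal fun _ => a)
    (hρσ : ∀ s, ρ (σ s) = (Algebra.leftMulMatrix b s).map (algebraMap k A)) :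
    Zar k {c | GoodF k ρ (Matrix.of fun i i' => (b.repr 1 i * b.repr 1 i') • l)
      (Fintype.card ι * Fintype.card n) (j l + (c - star c))} := by
  have hfin := Module.Finite.of_basis b
  have hA1 : ∀ r : k, star (algebraMap k A1 r) = algebraMap k A1 r := by
    intro r; rw [← σ.commutes, hσs]
  have hB : ∀ r : k, star (algebraMap k (Matrix n n A) r) = algebraMap k (Matrix n n A) r := by
    intro r
    ext i i'
    rw [star_apply, algebraMap_matrix_apply, algebraMap_matrix_apply]
    by_cases h : i = i'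
    · simp [h, hA]
    · simp [h, Ne.symm h]
  obtain ⟨η, hη, hηa, hηu, hηu', hcop⟩ := exists_eta bar hp.bar_bar hp.bar_ne t
    (Algebra.IsIntegral.isIntegral t) ht
  have hpp : ∀ a a', j (p a) * j (p a') = if a = a' then j (p a) else 0 := by
    intro a a'; rw [← map_mul, hp.mul]; split_ifs <;> simp
  have hsum : ∑ a, j (p a) = 1 := by rw [← map_sum, hp.sum, map_one]
  have hps : ∀ a, star (j (p a)) = j (p (bar a)) := by intro a; rw [← hj, hp.star_eq]
  let Θ : (ι → S) →ₐ[k] A1 :=
    { toFun := fun ξ => ∑ a, σ (ξ a) * j (p a)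
      map_one' := by simp [hsum]
      map_zero' := by simp
      map_add' := fun ξ ζ => by simp [add_mul, Finset.sum_add_distrib]
      map_mul' := fun ξ ζ => by
        rw [Finset.sum_mul]
        refine Finset.sum_congr rfl fun a _ => ?_
        rw [Finset.mul_sum, Finset.sum_eq_single a]
        · rw [mul_assoc, ← mul_assoc (j (p a)), ← hσc (ζ a), mul_assoc, hpp, if_pos rfl,
            Pi.mul_apply, map_mul, mul_assoc]
        · intro a' _ ha
          rw [mul_assoc, ← mul_assoc (j (p a)), ← hσc (ζ a'), mul_assoc, hpp, if_neg (Ne.symm ha),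
            mul_zero, mul_zero]
        · simp
      commutes' := fun r => by
        simp only [Pi.algebraMap_apply, AlgHom.commutes]
        rw [← Finset.mul_sum, hsum, mul_one] }
  have hΘ : ∀ ξ, Θ ξ = ∑ a, σ (ξ a) * j (p a) := fun _ => rfl
  have hρΘ : ∀ ξ i i', ρ (Θ ξ) i i' = ∑ a, Algebra.leftMulMatrix b (ξ a) i i' • p a := by
    intro ξ i i'
    rw [hΘ, map_sum, Matrix.sum_apply]
    refine Finset.sum_congr rfl fun a _ => ?_
    rw [map_mul, hρ, hρσ, mul_diagonal, map_apply, Algebra.smul_def]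
  have hΘs : ∀ ξ, star (Θ ξ) = Θ (ξ ∘ bar) := by
    intro ξ
    rw [hΘ, hΘ, star_sum]
    refine Fintype.sum_bijective bar (Function.Involutive.bijective hp.bar_bar) _ _ fun a => ?_
    rw [star_mul, hσs, hps, Function.comp_apply, hp.bar_bar, hσc]
  have hΘi : Function.Injective Θ := by
    rw [injective_iff_map_eq_zero]
    intro ξ hξ
    funext a
    apply Algebra.leftMulMatrix_injective b
    ext i i'
    have h1 := hρΘ ξ i i'
    rw [hξ, map_zero, Matrix.zero_apply] at h1
    have h2 := congrArg (· * p a) h1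
    simp only [zero_mul, Finset.sum_mul, smul_mul_assoc, hp.mul, smul_ite, smul_zero,
      Finset.sum_ite_eq', Finset.mem_univ, if_true] at h2
    rw [Pi.zero_apply, map_zero, Matrix.zero_apply]
    exact (smul_eq_zero.mp h2.symm).resolve_right (hp.ne a)
  have hadj := adjoin_pi_eq_top η hηa hcop
  have hy1 : Θ η + star (Θ η) = 1 := by
    rw [hΘs, ← map_add, ← map_one Θ]
    congr 1
    funext a
    simp [hη]
  have hjl : j l + star (j l) = 1 := by rw [← hj, ← map_add, hl, map_one]
  have halt : ∃ c, Θ η - j l = c - star c := by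
    refine alt_of_skew bar hp.bar_bar (fun a => j (p a)) hsum hps _ ?_ fun a => ?_
    · rw [star_sub, eq_sub_of_add_eq' hy1, eq_sub_of_add_eq' hjl]; abel
    · have h1 : j (p a) * Θ η = Θ η * j (p a) := by
        have : j (p a) = Θ (Pi.single a 1) := by
          rw [hΘ, Finset.sum_eq_single a]
          · simp
          · intro a' _ ha; simp [ha]
          · simp
        rw [this, ← map_mul, ← map_mul, mul_comm]
      rw [mul_sub, sub_mul, h1, mul_assoc, hpp, if_neg (hp.bar_ne a).symm, mul_zero, ← map_mul,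
        ← map_mul, hp.iso, map_zero, sub_zero]
  have hu1 : IsUnit (Θ η) := (Pi.isUnit_iff.mpr hηu).map Θ
  have hu2 : IsUnit (Θ η - star (Θ η)) := by
    rw [hΘs, ← map_sub]
    exact (Pi.isUnit_iff.mpr hηu').map Θ
  have hli : LinearIndependent k fun i : Fin (Fintype.card ι * Fintype.card n) =>
      Θ η ^ (i : ℕ) := by
    have h1 : Module.finrank k (ι → S) = Fintype.card ι * Fintype.card n := by
      rw [Module.finrank_pi_fintype, Finset.sum_const, Module.finrank_eq_card_basis b]; rfl
    have h2 := linearIndependent_pow_of_adjoin η hadj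
    rw [h1] at h2
    have h3 := h2.map' Θ.toLinearMap (LinearMap.ker_eq_bot.mpr hΘi)
    have : (fun i : Fin (Fintype.card ι * Fintype.card n) => Θ η ^ (i : ℕ))
        = ⇑Θ.toLinearMap ∘ fun i : Fin (Fintype.card ι * Fintype.card n) => η ^ (i : ℕ) := by
      funext i; exact (map_pow Θ η i).symm
    rw [this]; exact h3
  have hτ : σ t ∈ Algebra.adjoin k {Θ η} := by
    have h1 : σ t = Θ fun _ => t := by rw [hΘ, ← Finset.mul_sum, hsum, mul_one]
    rw [h1, ← Set.image_singleton, ← AlgHom.map_adjoin, hadj]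
    exact ⟨_, trivial, rfl⟩
  obtain ⟨W0, hW0⟩ := np_exists_matrix hA j hj ρ hρ (σ t) (hσc t) (hσs t) hgen (b.repr 1) l (Θ η)
    hl halt hu2 hτ
  obtain ⟨W1, hW1, huniq⟩ := np_witness_unique hA bar hp.bar_bar p hp.mul hp.sum hp.star_eq hp.alt
    l hl hp.iso hp.bar_ne (fun a => Algebra.leftMulMatrix b (η a)) (b.repr 1)
    (fun a => cyc_leftMulMatrix b _ (hηa a))
    (fun a => cyc_leftMulMatrix_transpose b lam hlam _ (hηa a))
    (fun a a' h => by
      obtain ⟨f, h0, h1⟩ := hcop a a' h
      exact ⟨f, by rw [aeval_algHom_apply, h0, map_zero],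
        by rw [aeval_algHom_apply]; exact h1.map _⟩)
    (ρ (Θ η)) (hρΘ η)
  have e := huniq W0 hW0.1 hW0.2
  exact zar_good hA1 hB ρ _ _ (j l) (Θ η) halt hu1 hu2 hli W0 hW0 (e ▸ hW1)
    fun W hW => (huniq W hW.1 hW.2).trans e.symm

end Pool.Agent.GSD
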