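import Mathlib

/-! Norm principle for `Spin (A, σ)`: the eigenvalues of the diagonal witness. -/

namespace Pool.Agent.GSD

open Matrix Polynomial

theorem exists_eval_ne_zero_all {k J : Type*} [Field k] [Infinite k] [Finite J] (g : J → k[X])
    (hg : ∀ j, g j ≠ 0) : ∃ x, ∀ j, (g j).eval x ≠ 0 := by
  have := Fintype.ofFinite J
  have h : ∏ j, g j ≠ 0 := Finset.prod_ne_zero_iff.mpr fun j _ => hg j
  obtain ⟨x, hx⟩ := (finite_setOfPred_isRoot h).exists_notMem
  refine ⟨x, fun j hj => hx ?_⟩
  show IsRoot _ x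
  rw [IsRoot, eval_prod]
  exact Finset.prod_eq_zero (Finset.mem_univ j) hj

/-- affine maps `α ↦ s a * α + c a` that move a finite set to pairwise disjoint sets -/
theorem exists_affine {k ι : Type*} [Field k] [Infinite k] [Finite ι] (bar : ι → ι)
    (hbar : ∀ a, bar (bar a) = a) (hne : ∀ a, bar a ≠ a) (Z : Finset k) :
    ∃ s c : ι → k, (∀ a, s a ≠ 0) ∧ (∀ a, s (bar a) = -s a) ∧ (∀ a, c (bar a) = 1 - c a) ∧
      (∀ a, ∀ α ∈ Z, s a * α + c a ≠ 0) ∧
      ∀ a b, a ≠ b → ∀ α ∈ Z, ∀ β ∈ Z, s a * α + c a ≠ s b * β + c b := by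
  classical
  obtain ⟨idx, hidx⟩ := exists_injective_nat ι
  let g : ι → k → k[X] := fun a α =>
    if idx a < idx (bar a) then C α * X + X ^ (idx a + 2) else 1 - (C α * X + X ^ (idx (bar a) + 2))
  have hco : ∀ (α : k) (m i : ℕ), (C α * X + X ^ (m + 2) : k[X]).coeff (i + 2)
      = if i = m then 1 else 0 := by
    intro α m i
    simp [coeff_X_pow]
  have hc0 : ∀ (α : k) (m : ℕ), (C α * X + X ^ (m + 2) : k[X]).coeff 0 = 0 := by
    intro α m
    simp
  have hc1 : ∀ i : ℕ, (1 : k[X]).coeff (i + 2) = 0 := by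
    intro i; simp [coeff_one]
  have g0 : ∀ a α, g a α ≠ 0 := by
    intro a α h
    by_cases ha : idx a < idx (bar a)
    · have := congrArg (coeff · (idx a + 2)) h
      simp only [g, if_pos ha, hco] at this
      simp at this
    · have := congrArg (coeff · 0) h
      simp only [g, if_neg ha, coeff_sub, hc0] at this
      simp at this
  have g1 : ∀ a b, a ≠ b → ∀ α β, g a α - g b β ≠ 0 := by
    intro a b hab α β h
    rw [sub_eq_zero] at h
    by_cases ha : idx a < idx (bar a) <;> by_cases hb : idx b < idx (bar b)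
    · have := congrArg (coeff · (idx a + 2)) h
      simp only [g, if_pos ha, if_pos hb, hco] at this
      simp [hidx.ne hab] at this
    · have := congrArg (coeff · 0) h
      simp only [g, if_pos ha, if_neg hb, coeff_sub, hc0] at this
      simp at this
    · have := congrArg (coeff · 0) h
      simp only [g, if_neg ha, if_pos hb, coeff_sub, hc0] at this
      simp at this
    · have := congrArg (coeff · (idx (bar a) + 2)) h
      have hab' : bar a ≠ bar b := fun h => hab (by rw [← hbar a, h, hbar])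
      simp only [g, if_neg ha, if_neg hb, coeff_sub, hco, hc1] at this
      simp [hidx.ne hab'] at this
  obtain ⟨x, hx⟩ := exists_eval_ne_zero_all
    (J := Unit ⊕ (ι × Z) ⊕ ({p : ι × ι // p.1 ≠ p.2} × Z × Z))
    (Sum.elim (fun _ => X) (Sum.elim (fun p => g p.1 p.2)
      fun p => g p.1.1.1 p.2.1 - g p.1.1.2 p.2.2))
    (by rintro (_ | p | p)
        · exact X_ne_zero
        · exact g0 _ _
        · exact g1 _ _ p.1.2 _ _)
  have hx0 : x ≠ 0 := by simpa using hx (Sum.inl ())
  let s : ι → k := fun a => if idx a < idx (bar a) then x else -x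
  let c : ι → k := fun a =>
    if idx a < idx (bar a) then x ^ (idx a + 2) else 1 - x ^ (idx (bar a) + 2)
  have hev : ∀ a α, (g a α).eval x = s a * α + c a := by
    intro a α
    by_cases ha : idx a < idx (bar a)
    · simp only [g, s, c, if_pos ha]; simp; ring
    · simp only [g, s, c, if_neg ha]; simp; ring
  have hflip : ∀ a, idx (bar a) < idx (bar (bar a)) ↔ ¬ idx a < idx (bar a) := by
    intro a
    have := hidx.ne (hne a)
    rw [hbar]; omega
  refine ⟨s, c, fun a => ?_, fun a => ?_, fun a => ?_, fun a α hα => ?_,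
    fun a b hab α hα β hβ => ?_⟩
  · by_cases ha : idx a < idx (bar a) <;> simp [s, ha, hx0]
  · by_cases ha : idx a < idx (bar a)
    · simp only [s, if_pos ha, if_neg (fun h => (hflip a).1 h ha)]
    · simp only [s, if_neg ha, if_pos ((hflip a).2 ha), neg_neg]
  · by_cases ha : idx a < idx (bar a)
    · simp only [c, if_pos ha, if_neg (fun h => (hflip a).1 h ha), hbar]
    · simp only [c, if_neg ha, if_pos ((hflip a).2 ha), sub_sub_cancel]
  · rw [← hev]; exact hx (Sum.inr (Sum.inl (a, ⟨α, hα⟩)))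
  · rw [← hev, ← hev, ← sub_ne_zero, ← eval_sub]
    exact hx (Sum.inr (Sum.inr (⟨(a, b), hab⟩, ⟨α, hα⟩, ⟨β, hβ⟩)))

section
variable {k S : Type*} [Field k] [CommRing S] [Algebra k S]

/-- the eigenvalues `η a ∈ S` of the witness -/
theorem exists_eta [IsAlgClosed k] {ι : Type*} [Finite ι] (bar : ι → ι)
    (hbar : ∀ a, bar (bar a) = a) (hne : ∀ a, bar a ≠ a) (t : S) (hint : IsIntegral k t)
    (ht : Algebra.adjoin k {t} = ⊤) :
    ∃ η : ι → S, (∀ a, η (bar a) = 1 - η a) ∧ (∀ a, Algebra.adjoin k {η a} = ⊤) ∧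
      (∀ a, IsUnit (η a)) ∧ (∀ a, IsUnit (η a - η (bar a))) ∧
      ∀ a b, a ≠ b → ∃ f : k[X], aeval (η b) f = 0 ∧ IsUnit (aeval (η a) f) := by
  classical
  obtain ⟨P, hPm, hP⟩ := hint
  have hP' : aeval t P = 0 := hP
  obtain ⟨s, c, hs0, hs, hc, h0, h1⟩ := exists_affine bar hbar hne P.roots.toFinset
  have hun : ∀ g : k[X], (∀ α ∈ P.roots.toFinset, g.eval α ≠ 0) → IsUnit (aeval t g) := by
    intro g hg
    have : IsCoprime g P := by
      rw [isCoprime_iff_aeval_ne_zero_of_isAlgClosed k k]
      intro α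
      by_cases hα : P.eval α = 0
      · left
        simpa using hg α (by simp [hPm.ne_zero, hα])
      · right; simpa using hα
    obtain ⟨u, v, huv⟩ := this
    have h2 := congrArg (aeval t) huv
    rw [map_add, map_mul, map_mul, hP', mul_zero, add_zero, map_one] at h2
    exact IsUnit.of_mul_eq_one_right _ h2
  let η : ι → S := fun a => aeval t (C (s a) * X + C (c a))
  have hback : ∀ a, aeval (η a) (C (s a)⁻¹ * (X - C (c a))) = t := by
    intro a
    simp only [η, map_mul, map_sub, map_add, aeval_C, aeval_X, add_sub_cancel_right]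
    rw [← mul_assoc, ← map_mul, inv_mul_cancel₀ (hs0 a), map_one, one_mul]
  refine ⟨η, fun a => ?_, fun a => ?_, fun a => hun _ fun α hα => ?_, fun a => ?_,
    fun a b hab => ?_⟩
  · simp only [η, hs, hc, map_add, map_mul, aeval_C, aeval_X, map_neg, map_sub, map_one]
    ring
  · rw [eq_top_iff, ← ht, Algebra.adjoin_le_iff, Set.singleton_subset_iff, ← hback a]
    exact aeval_mem_adjoin_singleton _ _
  · simpa using h0 a α hα
  · rw [← map_sub]
    refine hun _ fun α hα => ?_
    have := h1 a (bar a) (hne a).symm α hα α hα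
    simpa [sub_eq_zero] using this
  · refine ⟨P.comp (C (s b)⁻¹ * (X - C (c b))), ?_, ?_⟩
    · rw [aeval_comp, hback, hP']
    · have : aeval (η a) (P.comp (C (s b)⁻¹ * (X - C (c b))))
          = aeval t ((P.comp (C (s b)⁻¹ * (X - C (c b)))).comp (C (s a) * X + C (c a))) := by
        rw [aeval_comp (p := P.comp _)]
      rw [this]
      refine hun _ fun α hα hz => ?_
      simp only [eval_comp, eval_mul, eval_C, eval_sub, eval_add, eval_X] at hz
      refine h1 a b hab α hα _ (by simpa [hPm.ne_zero] using hz) ?_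
      rw [mul_inv_cancel_left₀ (hs0 b)]; ring

theorem span_pow_eq_top (x : S) (hx : Algebra.adjoin k {x} = ⊤) :
    Submodule.span k (Set.range fun i : ℕ => x ^ i) = ⊤ := by
  have := Algebra.adjoin_eq_span k ({x} : Set S)
  rw [hx, Algebra.top_toSubmodule] at this
  rw [this, ← Submonoid.powers_eq_closure]
  rfl

/-- the family of eigenvalues generates the product algebra -/
theorem adjoin_pi_eq_top {ι : Type*} [Fintype ι] (η : ι → S)
    (hη : ∀ a, Algebra.adjoin k {η a} = ⊤)
    (hcop : ∀ a b, a ≠ b → ∃ f : k[X], aeval (η b) f = 0 ∧ IsUnit (aeval (η a) f)) :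
    Algebra.adjoin k {η} = ⊤ := by
  classical
  choose! f hf0 hfu using hcop
  have hev : ∀ (g : k[X]) a, aeval η g a = aeval (η a) g := fun g a =>
    (aeval_algHom_apply (Pi.evalAlgHom k (fun _ => S) a) η g).symm
  rw [eq_top_iff]
  rintro z -
  rw [← Finset.univ_sum_single z]
  refine Subalgebra.sum_mem _ fun a _ => ?_
  let g : k[X] := ∏ b ∈ Finset.univ.erase a, f a b
  have hgu : IsUnit (aeval (η a) g) := by
    rw [map_prod]
    exact IsUnit.prod_iff.mpr fun b hb => hfu a b (Finset.ne_of_mem_erase hb).symm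
  have hmem : z a * ↑hgu.unit⁻¹ ∈ Algebra.adjoin k {η a} := by rw [hη]; trivial
  rw [Algebra.adjoin_singleton_eq_range_aeval] at hmem ⊢
  obtain ⟨h, hh⟩ := hmem
  refine ⟨h * g, funext fun b => ?_⟩
  change aeval η (h * g) b = _
  change aeval (η a) h = _ at hh
  rw [hev, map_mul]
  by_cases hb : b = a
  · subst hb
    rw [hh, Pi.single_eq_same, mul_assoc, hgu.val_inv_mul, mul_one]
  · rw [Pi.single_eq_of_ne hb, map_prod,
      Finset.prod_eq_zero (Finset.mem_erase.mpr ⟨hb, Finset.mem_univ b⟩) (hf0 a b (Ne.symm hb)),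
      mul_zero]

theorem linearIndependent_pow_of_adjoin [Module.Finite k S] (x : S)
    (hx : Algebra.adjoin k {x} = ⊤) :
    LinearIndependent k fun i : Fin (Module.finrank k S) => x ^ (i : ℕ) := by
  have hint : IsIntegral k x := Algebra.IsIntegral.isIntegral x
  have h1 := (Algebra.adjoin.powerBasis hint).finrank
  rw [Algebra.adjoin.powerBasis_dim] at h1
  have h2 : Module.finrank k (Algebra.adjoin k {x}) = Module.finrank k S := by
    rw [hx]; exact Subalgebra.topEquiv.toLinearEquiv.finrank_eq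
  rw [← h2, h1]
  exact linearIndependent_pow x

variable {n : Type*} [Fintype n] [DecidableEq n]

theorem cyc_leftMulMatrix (b : Module.Basis n k S) (x : S) (hx : Algebra.adjoin k {x} = ⊤) :
    Submodule.span k (Set.range fun i : ℕ => (Algebra.leftMulMatrix b x ^ i) *ᵥ ⇑(b.repr 1))
      = ⊤ := by
  have h := congrArg (Submodule.map (b.equivFun : S →ₗ[k] n → k)) (span_pow_eq_top x hx)
  rw [Submodule.map_span, Submodule.map_top, LinearEquiv.range, ← Set.range_comp] at h
  rw [← h]
  congr 2
  funext i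
  rw [← map_pow, Algebra.leftMulMatrix_mulVec_repr, mul_one]
  rfl

theorem cyc_leftMulMatrix_transpose (b : Module.Basis n k S) (lam : S →ₗ[k] k)
    (hlam : ∀ s, (∀ s', lam (s * s') = 0) → s = 0) (x : S) (hx : Algebra.adjoin k {x} = ⊤) :
    ∃ v, Submodule.span k
      (Set.range fun i : ℕ => ((Algebra.leftMulMatrix b x)ᵀ ^ i) *ᵥ v) = ⊤ := by
  have := Module.Finite.of_basis b
  let Θ : S →ₗ[k] n → k := LinearMap.pi fun j => lam ∘ₗ LinearMap.mulRight k (b j)
  have hinj : Function.Injective Θ := by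
    rw [injective_iff_map_eq_zero]
    intro s hs
    refine hlam s fun s' => ?_
    rw [← b.sum_repr s', Finset.mul_sum, map_sum]
    refine Finset.sum_eq_zero fun j _ => ?_
    have : lam (s * b j) = 0 := congrFun hs j
    rw [mul_smul_comm, map_smul, this, smul_zero]
  have hsurj : Function.Surjective Θ :=
    (LinearMap.injective_iff_surjective_of_finrank_eq_finrank b.equivFun.finrank_eq).mp hinj
  refine ⟨fun i => lam (b i), ?_⟩
  have h := congrArg (Submodule.map Θ) (span_pow_eq_top x hx)
  rw [Submodule.map_span, Submodule.map_top, LinearMap.range_eq_top.mpr hsurj,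
    ← Set.range_comp] at h
  rw [← h]
  congr 2
  funext i j
  rw [← transpose_pow, ← map_pow]
  change _ = lam (x ^ i * b j)
  rw [← b.sum_repr (x ^ i * b j), map_sum]
  simp only [mulVec, dotProduct, transpose_apply, Algebra.leftMulMatrix_eq_repr_mul, map_smul,
    smul_eq_mul]

/-- a monogenic algebra has a nondegenerate linear form -/
theorem exists_lam (pb : PowerBasis k S) :
    ∃ lam : S →ₗ[k] k, ∀ s, (∀ s', lam (s * s') = 0) → s = 0 := by
  rcases Nat.eq_zero_or_pos pb.dim with h0 | hpos
  · refine ⟨0, fun s _ => ?_⟩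
    rw [← pb.basis.sum_repr s]
    have : IsEmpty (Fin pb.dim) := by rw [h0]; infer_instance
    simp
  let last : Fin pb.dim := ⟨pb.dim - 1, by omega⟩
  refine ⟨pb.basis.coord last, fun s hs => ?_⟩
  have hco : ∀ h : k[X], h.natDegree < pb.dim →
      pb.basis.coord last (aeval pb.gen h) = h.coeff (pb.dim - 1) := by
    intro h hh
    rw [aeval_eq_sum_range' hh, Finset.sum_range, map_sum, Finset.sum_eq_single last]
    · rw [← pb.basis_eq_pow, map_smul, Module.Basis.coord_apply, Module.Basis.repr_self,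
        Finsupp.single_eq_same, smul_eq_mul, mul_one]
    · intro i _ hi
      rw [← pb.basis_eq_pow, map_smul, Module.Basis.coord_apply, Module.Basis.repr_self,
        Finsupp.single_eq_of_ne hi.symm, smul_zero]
    · simp
  have : Nontrivial S := by
    refine ⟨⟨pb.basis last, 0, pb.basis.ne_zero last⟩⟩
  obtain ⟨g, hg, rfl⟩ := pb.exists_eq_aeval s
  by_contra hne
  have hg0 : g ≠ 0 := by rintro rfl; simp at hne
  have h1 := hs (pb.gen ^ (pb.dim - 1 - g.natDegree))
  have h2 : aeval pb.gen g * pb.gen ^ (pb.dim - 1 - g.natDegree)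
      = aeval pb.gen (g * X ^ (pb.dim - 1 - g.natDegree)) := by simp
  have h3 : (g * X ^ (pb.dim - 1 - g.natDegree)).natDegree = pb.dim - 1 := by
    rw [natDegree_mul_X_pow _ hg0]; omega
  rw [h2, hco _ (by omega)] at h1
  have h4 : (g * X ^ (pb.dim - 1 - g.natDegree)).leadingCoeff = 0 := by
    rw [leadingCoeff, h3]; exact h1
  rw [leadingCoeff_mul_X_pow, leadingCoeff_eq_zero] at h4
  exact hg0 h4

end

end Pool.Agent.GSD
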