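import Mathlib

/-! Norm principle for `Spin (A, σ)`: at the diagonal witness every alternating solution `W` is a
unit. -/

namespace Pool.Agent.GSD

open Matrix Polynomial

/-- a form that is alternating together with its twist by a cyclic self-adjoint operator is zero -/
theorem cyc_form_zero {k N V : Type*} [CommRing k] [AddCommGroup N] [Module k N] [AddCommGroup V]
    [Module k V] (h : N →ₗ[k] N →ₗ[k] V) (T : N →ₗ[k] N) (v : N)
    (hv : Submodule.span k (Set.range fun i : ℕ => (T ^ i) v) = ⊤)
    (hT : ∀ x y, h (T x) y = h x (T y)) (h0 : ∀ x, h x x = 0) (h1 : ∀ x, h (T x) x = 0) :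
    h = 0 := by
  have mv : ∀ (m : ℕ) x y, h ((T ^ m) x) y = h x ((T ^ m) y) := by
    intro m
    induction m with
    | zero => intro x y; simp
    | succ m ih =>
      intro x y
      rw [pow_succ', Module.End.mul_apply, hT, ih, ← Module.End.mul_apply, ← pow_succ, pow_succ']
  have one : ∀ s : ℕ, h ((T ^ s) v) v = 0 := by
    intro s
    obtain ⟨m, rfl | rfl⟩ := Nat.even_or_odd' s
    · rw [two_mul, pow_add, Module.End.mul_apply, mv, h0]
    · rw [two_mul, add_assoc, pow_add, Module.End.mul_apply, mv, pow_succ', Module.End.mul_apply,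
        h1]
  refine LinearMap.ext_on_range hv fun i => LinearMap.ext_on_range hv fun j => ?_
  rw [← mv, ← Module.End.mul_apply, ← pow_add, one]
  simp

/-- uniqueness in the Sylvester equation -/
theorem sylv_zero {k B : Type*} [CommRing k] [Ring B] [Algebra k B] (Y Y' X : B)
    (h : Y * X = X * Y') (f : k[X]) (h0 : aeval Y' f = 0) (hu : IsUnit (aeval Y f)) : X = 0 := by
  have hp : ∀ m : ℕ, Y ^ m * X = X * Y' ^ m := by
    intro m
    induction m with
    | zero => simp
    | succ m ih => rw [pow_succ', mul_assoc, ih, ← mul_assoc, h, mul_assoc, ← pow_succ']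
  have key : ∀ g : k[X], aeval Y g * X = X * aeval Y' g := by
    intro g
    induction g using Polynomial.induction_on' with
    | add p q hp hq => rw [map_add, map_add, add_mul, mul_add, hp, hq]
    | monomial m c =>
      rw [aeval_monomial, aeval_monomial, mul_assoc, hp, ← mul_assoc, Algebra.commutes,
        mul_assoc]
  have := key f
  rw [h0, mul_zero] at this
  exact hu.mul_right_eq_zero.mp this

theorem aeval_transpose' {k n : Type*} [CommRing k] [Fintype n] [DecidableEq n]
    (Y : Matrix n n k) (f : k[X]) : aeval Yᵀ f = (aeval Y f)ᵀ := by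
  induction f using Polynomial.induction_on' with
  | add p q hp hq => rw [map_add, map_add, transpose_add, hp, hq]
  | monomial m c =>
    rw [aeval_monomial, aeval_monomial, ← Algebra.smul_def, ← Algebra.smul_def, transpose_smul,
      transpose_pow]

/-- a solution of the Lyapunov equation with cyclic data is invertible -/
theorem lyap_unit {k n : Type*} [Field k] [Fintype n] [DecidableEq n] (Y Y' X : Matrix n n k)
    (e : n → k) (hY : Submodule.span k (Set.range fun i : ℕ => (Y ^ i) *ᵥ e) = ⊤)
    (hY' : Submodule.span k (Set.range fun i : ℕ => (Y' ^ i) *ᵥ e) = ⊤)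
    (h : Y * X - X * Y'ᵀ = vecMulVec e e) : IsUnit X := by
  have hv : ∀ u, Y *ᵥ (X *ᵥ u) = X *ᵥ (Y'ᵀ *ᵥ u) + (e ⬝ᵥ u) • e := by
    intro u
    have := congrArg (· *ᵥ u) h
    simp only [sub_mulVec, ← mulVec_mulVec, vecMulVec_mulVec] at this
    rw [sub_eq_iff_eq_add] at this
    rw [this, add_comm]
    simp
  by_cases he : ∃ u, X *ᵥ u = e
  · rw [← mulVec_surjective_iff_isUnit]
    have hr : LinearMap.range (Matrix.mulVecLin X) = ⊤ := by
      rw [eq_top_iff, ← hY, Submodule.span_le]
      rintro _ ⟨i, rfl⟩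
      induction i with
      | zero => obtain ⟨u, hu⟩ := he; exact ⟨u, by simpa using hu⟩
      | succ i ih =>
        obtain ⟨u, hu⟩ := ih
        obtain ⟨u0, hu0⟩ := he
        refine ⟨Y'ᵀ *ᵥ u + (e ⬝ᵥ u) • u0, ?_⟩
        simp only [mulVecLin_apply] at hu ⊢
        rw [pow_succ', ← mulVec_mulVec, ← hu, hv, mulVec_add, mulVec_smul, hu0]
    exact LinearMap.range_eq_top.mp hr
  · rw [← mulVec_injective_iff_isUnit]
    have step : ∀ u, X *ᵥ u = 0 → e ⬝ᵥ u = 0 ∧ X *ᵥ (Y'ᵀ *ᵥ u) = 0 := by
      intro u hu
      have h1 := hv u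
      rw [hu, mulVec_zero] at h1
      have h2 : e ⬝ᵥ u = 0 := by
        by_contra hne
        apply he
        refine ⟨(-(e ⬝ᵥ u)⁻¹) • (Y'ᵀ *ᵥ u), ?_⟩
        rw [mulVec_smul, eq_neg_of_add_eq_zero_left h1.symm, smul_neg, neg_smul, neg_neg, smul_smul,
          inv_mul_cancel₀ hne, one_smul]
      refine ⟨h2, ?_⟩
      rw [h2, zero_smul, add_zero] at h1
      exact h1.symm
    have inj : ∀ u, X *ᵥ u = 0 → u = 0 := by
      intro u hu
      have h1 : ∀ i : ℕ, X *ᵥ ((Y'ᵀ ^ i) *ᵥ u) = 0 := by
        intro i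
        induction i with
        | zero => simpa using hu
        | succ i ih => rw [pow_succ', ← mulVec_mulVec]; exact (step _ ih).2
      have h2 : ∀ w, w ⬝ᵥ u = 0 := by
        intro w
        have hw : w ∈ Submodule.span k (Set.range fun i : ℕ => (Y' ^ i) *ᵥ e) := by
          rw [hY']; trivial
        induction hw using Submodule.span_induction with
        | mem x hx =>
          obtain ⟨i, rfl⟩ := hx
          have := (step _ (h1 i)).1
          rw [← transpose_pow, dotProduct_mulVec, vecMul_transpose] at this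
          exact this
        | zero => simp
        | add x y _ _ hx hy => rw [add_dotProduct, hx, hy, add_zero]
        | smul c x _ hx => rw [smul_dotProduct, hx, smul_zero]
      funext i
      simpa using h2 (Pi.single i 1)
    intro u w huw
    have : X *ᵥ (u - w) = 0 := by
      rw [mulVec_sub]; exact sub_eq_zero.mpr huw
    exact sub_eq_zero.mp (inj _ this)

theorem lyap_exists {k n : Type*} [Field k] [Fintype n] [DecidableEq n] (Y Y' Z : Matrix n n k)
    (f : k[X]) (h0 : aeval Y' f = 0) (hu : IsUnit (aeval Y f)) :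
    ∃ X : Matrix n n k, Y * X - X * Y'ᵀ = Z := by
  let L : Matrix n n k →ₗ[k] Matrix n n k := LinearMap.mulLeft k Y - LinearMap.mulRight k Y'ᵀ
  have hL : Function.Injective L := by
    rw [injective_iff_map_eq_zero]
    intro X hX
    refine sylv_zero Y Y'ᵀ X (sub_eq_zero.mp hX) f ?_ hu
    rw [aeval_transpose', h0, transpose_zero]
  exact LinearMap.injective_iff_surjective.mp hL Z

section main
variable {k A n ι : Type*} [Field k] [Ring A] [StarRing A] [Algebra k A] [Fintype n]
  [DecidableEq n] [Fintype ι] [DecidableEq ι]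

/-- **Witness.** `p a` are orthogonal rank-one idempotents onto the isotropic vectors of a
hyperbolic basis, `M = ∑ Y a ⊗ p a`. -/
theorem np_witness_aux (hA : ∀ r : k, star (algebraMap k A r) = algebraMap k A r)
    (bar : ι → ι) (hbar : ∀ a, bar (bar a) = a) (p : ι → A)
    (hpp : ∀ a b, p a * p b = if a = b then p a else 0) (hsum : ∑ a, p a = 1)
    (hps : ∀ a, star (p a) = p (bar a)) (hR1 : ∀ a x, p a * (x - star x) * p (bar a) = 0)
    (l : A) (hl : l + star l = 1) (hiso : ∀ a, p a * l * p (bar a) = 0) (hne : ∀ a, bar a ≠ a)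
    (Y : ι → Matrix n n k) (e : n → k)
    (X : ι → Matrix n n k) (hXe : ∀ a, Y a * X a - X a * (Y (bar a))ᵀ = vecMulVec e e)
    (hcyc' : ∀ a, ∃ v, Submodule.span k (Set.range fun i : ℕ => ((Y a)ᵀ ^ i) *ᵥ v) = ⊤)
    (hcop : ∀ a b, a ≠ b → ∃ f : k[X], aeval (Y b) f = 0 ∧ IsUnit (aeval (Y a) f))
    (M W : Matrix n n A) (hM : ∀ i j, M i j = ∑ a, Y a i j • p a)
    (hW : ∃ z, W = z - star z)
    (hMW : ∃ z, M * W - (Matrix.of fun i j => (e i * e j) • l) = z - star z) :
    W = ∑ a, (Algebra.ofId k A).mapMatrix (X a) * diagonal fun _ => p a := by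
  obtain ⟨z, hz⟩ := hW
  obtain ⟨z', hz'⟩ := hMW
  let φ : Matrix n n k →ₐ[k] Matrix n n A := (Algebra.ofId k A).mapMatrix
  have φa : ∀ Z i j, φ Z i j = algebraMap k A (Z i j) := fun _ _ _ => rfl
  let P : ι → Matrix n n A := fun a => diagonal fun _ => p a
  have hφP : ∀ Z a, φ Z * P a = P a * φ Z := by
    intro Z a; ext i j
    rw [mul_diagonal, diagonal_mul, φa, Algebra.commutes]
  have hφs : ∀ Z, star (φ Z) = φ Zᵀ := by
    intro Z; ext i j
    rw [star_apply, φa, φa, hA, transpose_apply]
  have hPs : ∀ a, star (P a) = P (bar a) := by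
    intro a
    rw [star_eq_conjTranspose, diagonal_conjTranspose]
    congr 1; funext i; simp [hps]
  have hPP : ∀ a b, P a * P b = if a = b then P a else 0 := by
    intro a b
    rw [diagonal_mul_diagonal]
    by_cases h : a = b
    · simp [hpp, h, P]
    · simp [hpp, h]
  have hPsum : ∑ a, P a = 1 := by
    ext i j
    rw [Matrix.sum_apply]
    by_cases h : i = j
    · subst h; simp [P, hsum]
    · simp [P, h]
  have hM' : M = ∑ a, φ (Y a) * P a := by
    ext i j
    rw [hM, Matrix.sum_apply]
    refine Finset.sum_congr rfl fun a _ => ?_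
    rw [mul_diagonal, φa, Algebra.smul_def]
  have hPM : ∀ a, P a * M = φ (Y a) * P a := by
    intro a
    rw [hM', Finset.mul_sum, Finset.sum_eq_single a]
    · rw [← mul_assoc, ← hφP, mul_assoc, hPP, if_pos rfl]
    · intro b _ hb
      rw [← mul_assoc, ← hφP, mul_assoc, hPP, if_neg (Ne.symm hb), mul_zero]
    · simp
  have hMP : ∀ b, star M * P b = P b * φ (Y (bar b))ᵀ := by
    intro b
    have := congrArg star (hPM (bar b))
    rwa [star_mul, star_mul, hPs, hbar, hφs] at this
  have hE : (Matrix.of fun i j => (e i * e j) • l) = φ (vecMulVec e e) * diagonal fun _ => l := by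
    ext i j
    rw [mul_diagonal, φa, of_apply, vecMulVec_apply, Algebra.smul_def]
  have hWs : star W = -W := by rw [hz, star_sub, star_star, neg_sub]
  have hbil : M * W - W * star M = φ (vecMulVec e e) := by
    have h1 := congrArg star hz'
    rw [star_sub, star_sub, star_star, star_mul, hWs] at h1
    have h2 : star (Matrix.of fun i j => (e i * e j) • l)
        = Matrix.of fun i j => (e i * e j) • star l := by
      ext i j
      rw [star_apply, of_apply, of_apply, Algebra.smul_def, Algebra.smul_def, star_mul, hA,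
        mul_comm (e j), Algebra.commutes]
    have h3 : (Matrix.of fun i j => (e i * e j) • l) + (Matrix.of fun i j => (e i * e j) • star l)
        = φ (vecMulVec e e) := by
      ext i j
      rw [Matrix.add_apply, of_apply, of_apply, ← smul_add, hl, φa, vecMulVec_apply,
        Algebra.algebraMap_eq_smul_one]
    rw [h2] at h1
    rw [← h3, eq_add_of_sub_eq hz', ← sub_eq_zero]
    have h4 : W * star M = -(star z' - z') - Matrix.of fun i j => (e i * e j) • star l := by
      rw [← h1]; noncomm_ring
    rw [h4]; abel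
  have hcomp : ∀ a b, φ (Y a) * (P a * W * P b) - (P a * W * P b) * φ (Y (bar b))ᵀ
      = φ (vecMulVec e e) * (P a * P b) := by
    intro a b
    calc _ = (φ (Y a) * P a) * W * P b - P a * W * (P b * φ (Y (bar b))ᵀ) := by noncomm_ring
      _ = P a * (M * W - W * star M) * P b := by rw [← hPM, ← hMP]; noncomm_ring
      _ = _ := by rw [hbil, ← hφP, mul_assoc]
  have hsyl : ∀ a b, a ≠ b → ∀ X : Matrix n n A, φ (Y a) * X = X * φ (Y b)ᵀ → X = 0 := by
    intro a b hab X hX
    obtain ⟨f, hf0, hfu⟩ := hcop a b hab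
    refine sylv_zero _ _ X hX f ?_ ?_
    · rw [aeval_algHom_apply, aeval_transpose', hf0, transpose_zero, map_zero]
    · rw [aeval_algHom_apply]; exact hfu.map φ
  have hX : ∀ a, P a * W * P a = φ (X a) * P a := by
    intro a
    have hX := hXe a
    rw [← sub_eq_zero]
    apply hsyl a (bar a) (hne a).symm
    have h1 := hcomp a a
    rw [hPP, if_pos rfl, ← hX, map_sub, map_mul, map_mul] at h1
    rw [← sub_eq_zero]
    calc _ = (φ (Y a) * (P a * W * P a) - (P a * W * P a) * φ (Y (bar a))ᵀ)
          - (φ (Y a) * φ (X a) * P a - φ (X a) * (P a * φ (Y (bar a))ᵀ)) := by noncomm_ring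
      _ = 0 := by rw [h1, ← hφP]; noncomm_ring
  have hoff : ∀ a b, a ≠ b → P a * W * P b = 0 := by
    intro a b hab
    have h1 := hcomp a b
    rw [hPP, if_neg hab, mul_zero, sub_eq_zero] at h1
    by_cases hb : a = bar b
    swap
    · exact hsyl a (bar b) hb _ h1
    have hb' : b = bar a := by rw [hb, hbar]
    rw [← hb] at h1
    obtain ⟨v, hv⟩ := hcyc' a
    let q : Matrix n n A → (n → k) → (n → k) → A := fun X x y => ∑ i, ∑ j, (x i * y j) • X i j
    let h : (n → k) →ₗ[k] (n → k) →ₗ[k] A := LinearMap.mk₂ k (q (P a * W * P b))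
      (by intro x x' y; simp only [q, Pi.add_apply, add_mul, add_smul, Finset.sum_add_distrib])
      (by intro c x y; simp only [q, Pi.smul_apply, smul_eq_mul, Finset.smul_sum, smul_smul,
            mul_assoc])
      (by intro x y y'; simp only [q, Pi.add_apply, mul_add, add_smul, Finset.sum_add_distrib])
      (by intro c x y; simp only [q, Pi.smul_apply, smul_eq_mul, Finset.smul_sum, smul_smul,
            mul_left_comm])
    have qL : ∀ Z X x y, q X (Zᵀ *ᵥ x) y = q (φ Z * X) x y := by
      intro Z X x y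
      simp only [q, mul_apply, φa, mulVec, dotProduct, transpose_apply, Finset.sum_mul,
        Finset.sum_smul, Finset.smul_sum, ← Algebra.smul_def, smul_smul]
      calc _ = ∑ j, ∑ i, ∑ m, (Z m i * x m * y j) • X i j := Finset.sum_comm
        _ = ∑ j, ∑ m, ∑ i, (Z m i * x m * y j) • X i j :=
          Finset.sum_congr rfl fun j _ => Finset.sum_comm
        _ = ∑ m, ∑ j, ∑ i, (Z m i * x m * y j) • X i j := Finset.sum_comm
        _ = _ := by
          refine Finset.sum_congr rfl fun m _ => Finset.sum_congr rfl fun j _ =>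
            Finset.sum_congr rfl fun i _ => ?_
          congr 1; ring
    have qR : ∀ Z X x y, q X x (Zᵀ *ᵥ y) = q (X * φ Zᵀ) x y := by
      intro Z X x y
      simp only [q, mul_apply, φa, mulVec, dotProduct, transpose_apply, Finset.mul_sum,
        Finset.sum_smul, Finset.smul_sum, ← Algebra.commutes, ← Algebra.smul_def, smul_smul]
      refine Finset.sum_congr rfl fun i _ => ?_
      rw [Finset.sum_comm]
      refine Finset.sum_congr rfl fun m _ => Finset.sum_congr rfl fun j _ => ?_
      congr 1; ring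
    have qP : ∀ X x y, q (P a * X * P b) x y = p a * q X x y * p b := by
      intro X x y
      simp only [q, P, mul_diagonal, diagonal_mul, Finset.mul_sum, Finset.sum_mul, mul_smul_comm,
        smul_mul_assoc]
    have qS : ∀ X x, q (X - star X) x x = q X x x - star (q X x x) := by
      intro X x
      simp only [q, Matrix.sub_apply, smul_sub, Finset.sum_sub_distrib, star_sum, star_apply]
      congr 1
      rw [Finset.sum_comm]
      refine Finset.sum_congr rfl fun i _ => Finset.sum_congr rfl fun j _ => ?_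
      rw [Algebra.smul_def, Algebra.smul_def, star_mul, hA, mul_comm (x j), Algebra.commutes]
    have h0 : h = 0 := by
      refine cyc_form_zero h (Matrix.toLin' (Y a)ᵀ) v ?_ ?_ ?_ ?_
      · rw [← hv]; congr 2; funext i
        rw [← Matrix.toLin'_pow, Matrix.toLin'_apply]
      · intro x y
        show q _ ((Y a)ᵀ *ᵥ x) y = q _ x ((Y a)ᵀ *ᵥ y)
        rw [qL, qR, h1]
      · intro x
        show q _ x x = 0
        rw [qP, hz, qS, hb', hR1]
      · intro x
        show q _ ((Y a)ᵀ *ᵥ x) x = 0
        have h2 : φ (Y a) * (P a * W * P b) = P a * (M * W) * P b := by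
          rw [← mul_assoc (P a), hPM]; noncomm_ring
        have h3 : q (Matrix.of (fun i j => (e i * e j) • l) + (z' - star z')) x x
            = (∑ i, ∑ j, x i * x j * (e i * e j)) • l + q (z' - star z') x x := by
          simp only [q, Matrix.add_apply, of_apply, smul_add, Finset.sum_add_distrib, Finset.sum_smul,
            smul_smul]
        rw [qL, h2, qP, eq_add_of_sub_eq' hz', h3, qS, mul_add, add_mul, hb', hR1, mul_smul_comm,
          smul_mul_assoc, hiso, smul_zero, add_zero]
    ext i j
    have h4 : q (P a * W * P b) (Pi.single i 1) (Pi.single j 1) = 0 := by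
      have := LinearMap.congr_fun (LinearMap.congr_fun h0 (Pi.single i 1)) (Pi.single j 1)
      exact this
    have h5 : ∀ X, q X (Pi.single i 1) (Pi.single j 1) = X i j := by
      intro X
      simp [q, Pi.single_apply, ite_smul]
    rw [h5] at h4
    exact h4
  calc W = (∑ a, P a) * W * ∑ b, P b := by rw [hPsum, one_mul, mul_one]
    _ = ∑ a, ∑ b, P a * W * P b := by
      rw [Finset.sum_mul, Finset.sum_mul]
      exact Finset.sum_congr rfl fun a _ => Finset.mul_sum _ _ _
    _ = _ := by
      refine Finset.sum_congr rfl fun a _ => ?_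
      rw [Finset.sum_eq_single a, hX]
      · intro b _ hb; exact hoff a b (Ne.symm hb)
      · simp

/-- **Witness.** There is at most one alternating solution, and it is a unit. -/
theorem np_witness_unique (hA : ∀ r : k, star (algebraMap k A r) = algebraMap k A r)
    (bar : ι → ι) (hbar : ∀ a, bar (bar a) = a) (p : ι → A)
    (hpp : ∀ a b, p a * p b = if a = b then p a else 0) (hsum : ∑ a, p a = 1)
    (hps : ∀ a, star (p a) = p (bar a)) (hR1 : ∀ a x, p a * (x - star x) * p (bar a) = 0)
    (l : A) (hl : l + star l = 1) (hiso : ∀ a, p a * l * p (bar a) = 0) (hne : ∀ a, bar a ≠ a)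
    (Y : ι → Matrix n n k) (e : n → k)
    (hcyc : ∀ a, Submodule.span k (Set.range fun i : ℕ => (Y a ^ i) *ᵥ e) = ⊤)
    (hcyc' : ∀ a, ∃ v, Submodule.span k (Set.range fun i : ℕ => ((Y a)ᵀ ^ i) *ᵥ v) = ⊤)
    (hcop : ∀ a b, a ≠ b → ∃ f : k[X], aeval (Y b) f = 0 ∧ IsUnit (aeval (Y a) f))
    (M : Matrix n n A) (hM : ∀ i j, M i j = ∑ a, Y a i j • p a) :
    ∃ W0 : Matrix n n A, IsUnit W0 ∧ ∀ W : Matrix n n A, (∃ z, W = z - star z) →
      (∃ z, M * W - (Matrix.of fun i j => (e i * e j) • l) = z - star z) → W = W0 := by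
  have hX : ∀ a, ∃ X : Matrix n n k, IsUnit X ∧ Y a * X - X * (Y (bar a))ᵀ = vecMulVec e e := by
    intro a
    obtain ⟨f, hf0, hfu⟩ := hcop a (bar a) (hne a).symm
    obtain ⟨X, hX⟩ := lyap_exists (Y a) (Y (bar a)) (vecMulVec e e) f hf0 hfu
    exact ⟨X, lyap_unit _ _ _ e (hcyc a) (hcyc (bar a)) hX, hX⟩
  choose X hXu hX using hX
  refine ⟨_, ?_, fun W hW hMW => np_witness_aux hA bar hbar p hpp hsum hps hR1 l hl hiso hne Y e X hX
    hcyc' hcop M W hM hW hMW⟩
  let φ : Matrix n n k →ₐ[k] Matrix n n A := (Algebra.ofId k A).mapMatrix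
  have φa : ∀ Z i j, φ Z i j = algebraMap k A (Z i j) := fun _ _ _ => rfl
  let P : ι → Matrix n n A := fun a => diagonal fun _ => p a
  have hφP : ∀ Z a, φ Z * P a = P a * φ Z := by
    intro Z a; ext i j
    rw [mul_diagonal, diagonal_mul, φa, Algebra.commutes]
  have hPP : ∀ a b, P a * P b = if a = b then P a else 0 := by
    intro a b
    rw [diagonal_mul_diagonal]
    by_cases h : a = b
    · simp [hpp, h, P]
    · simp [hpp, h]
  have hPsum : ∑ a, P a = 1 := by
    ext i j
    rw [Matrix.sum_apply]
    by_cases h : i = j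
    · subst h; simp [P, hsum]
    · simp [P, h]
  have hprod : ∀ U V : ι → Matrix n n k, (∀ a, U a * V a = 1) →
      (∑ a, φ (U a) * P a) * ∑ a, φ (V a) * P a = 1 := by
    intro U V hUV
    rw [Finset.sum_mul, ← hPsum]
    refine Finset.sum_congr rfl fun a _ => ?_
    rw [Finset.mul_sum, Finset.sum_eq_single a]
    · rw [mul_assoc, ← mul_assoc (P a), ← hφP, mul_assoc, hPP, if_pos rfl, ← mul_assoc, ← map_mul,
        hUV, map_one, one_mul]
    · intro b _ hb
      rw [mul_assoc, ← mul_assoc (P a), ← hφP, mul_assoc, hPP, if_neg (Ne.symm hb), mul_zero,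
        mul_zero]
    · simp
  exact ⟨⟨∑ a, φ (X a) * P a, ∑ a, φ (↑(hXu a).unit⁻¹) * P a,
    hprod _ _ fun a => (hXu a).mul_val_inv, hprod _ _ fun a => (hXu a).val_inv_mul⟩, rfl⟩

end main

end Pool.Agent.GSD
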