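import Mathlib

/-! Zariski-generic subsets of a vector space over an infinite field, without coordinates. -/

namespace Pool.Agent.GSD

open Matrix Polynomial

/-- polynomial functions on a vector space -/
def PolyF (k M : Type*) [Field k] [AddCommGroup M] [Module k M] : Subalgebra k (M → k) :=
  Algebra.adjoin k (Set.range fun φ : M →ₗ[k] k => (φ : M → k))

/-- polynomial maps of vector spaces -/
def IsPM (k : Type*) {M N : Type*} [Field k] [AddCommGroup M] [Module k M] [AddCommGroup N]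
    [Module k N] (G : M → N) : Prop :=
  ∀ φ : N →ₗ[k] k, (fun c => φ (G c)) ∈ PolyF k M

/-- sets that contain a nonempty basic Zariski-open set -/
def Zar (k : Type*) {M : Type*} [Field k] [AddCommGroup M] [Module k M] (U : Set M) : Prop :=
  ∃ f ∈ PolyF k M, (∃ c, f c ≠ 0) ∧ ∀ c, f c ≠ 0 → c ∈ U

variable {k M N N' N'' : Type*} [Field k] [AddCommGroup M] [Module k M] [AddCommGroup N]
  [Module k N] [AddCommGroup N'] [Module k N'] [AddCommGroup N''] [Module k N'']

theorem PolyF.lin (φ : M →ₗ[k] k) : (fun c => φ c) ∈ PolyF k M :=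
  Algebra.subset_adjoin ⟨φ, rfl⟩

theorem PolyF.const (a : k) : (fun _ : M => a) ∈ PolyF k M :=
  (PolyF k M).algebraMap_mem a

theorem PolyF.line {f : M → k} (hf : f ∈ PolyF k M) (a b : M) :
    ∃ p : k[X], ∀ τ, f (a + τ • b) = p.eval τ := by
  induction hf using Algebra.adjoin_induction with
  | mem x hx =>
    obtain ⟨φ, rfl⟩ := hx
    refine ⟨C (φ a) + C (φ b) * X, fun τ => ?_⟩
    rw [eval_add, eval_mul, eval_C, eval_C, eval_X, mul_comm]
    exact (map_add φ _ _).trans (by rw [map_smul, smul_eq_mul])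
  | algebraMap r => exact ⟨C r, fun τ => by simp⟩
  | add x y _ _ hx hy =>
    obtain ⟨p, hp⟩ := hx
    obtain ⟨q, hq⟩ := hy
    exact ⟨p + q, fun τ => by simp [hp, hq]⟩
  | mul x y _ _ hx hy =>
    obtain ⟨p, hp⟩ := hx
    obtain ⟨q, hq⟩ := hy
    exact ⟨p * q, fun τ => by simp [hp, hq]⟩

theorem IsPM.const (a : N) : IsPM k fun _ : M => a := fun φ => PolyF.const (φ a)

theorem IsPM.lin (L : M →ₗ[k] N) : IsPM k fun c => L c := fun φ => PolyF.lin (φ ∘ₗ L)

theorem IsPM.id : IsPM k fun c : M => c := fun φ => PolyF.lin φ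

theorem IsPM.map {G : M → N} (hG : IsPM k G) (L : N →ₗ[k] N') : IsPM k fun c => L (G c) :=
  fun φ => hG (φ ∘ₗ L)

theorem IsPM.add {G H : M → N} (hG : IsPM k G) (hH : IsPM k H) : IsPM k fun c => G c + H c :=
  fun φ => by
    simp only [map_add]
    exact (PolyF k M).add_mem (hG φ) (hH φ)

theorem IsPM.sub {G H : M → N} (hG : IsPM k G) (hH : IsPM k H) : IsPM k fun c => G c - H c :=
  fun φ => by
    simp only [map_sub]
    exact (PolyF k M).sub_mem (hG φ) (hH φ)

theorem IsPM.smul {f : M → k} (hf : f ∈ PolyF k M) {G : M → N} (hG : IsPM k G) :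
    IsPM k fun c => f c • G c :=
  fun φ => by
    simp only [map_smul, smul_eq_mul]
    exact (PolyF k M).mul_mem hf (hG φ)

theorem IsPM.sum {ι : Type*} (s : Finset ι) {G : ι → M → N} (hG : ∀ i, IsPM k (G i)) :
    IsPM k fun c => ∑ i ∈ s, G i c := fun φ => by
  have : (fun c => φ (∑ i ∈ s, G i c)) = ∑ i ∈ s, fun c => φ (G i c) := by
    funext c
    simp
  rw [this]
  exact (PolyF k M).sum_mem fun i _ => hG i φ

theorem IsPM.bilin [Module.Finite k N] (β : N →ₗ[k] N' →ₗ[k] N'') {G : M → N} {H : M → N'}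
    (hG : IsPM k G) (hH : IsPM k H) : IsPM k fun c => β (G c) (H c) := by
  let b := Module.finBasis k N
  have : (fun c => β (G c) (H c)) = fun c => ∑ i, b.coord i (G c) • β (b i) (H c) := by
    funext c
    conv_lhs => rw [← b.sum_repr (G c)]
    simp only [map_sum, map_smul, LinearMap.sum_apply, LinearMap.smul_apply,
      Module.Basis.coord_apply]
  rw [this]
  exact IsPM.sum _ fun i => IsPM.smul (hG _) (hH.map _)

theorem IsPM.mul {B : Type*} [Ring B] [Algebra k B] [Module.Finite k B] {G H : M → B}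
    (hG : IsPM k G) (hH : IsPM k H) : IsPM k fun c => G c * H c :=
  IsPM.bilin (LinearMap.mul k B) hG hH

theorem IsPM.pow {B : Type*} [Ring B] [Algebra k B] [Module.Finite k B] {G : M → B}
    (hG : IsPM k G) (i : ℕ) : IsPM k fun c => G c ^ i := by
  induction i with
  | zero => simpa only [pow_zero] using IsPM.const 1
  | succ i ih => simpa only [pow_succ] using ih.mul hG

theorem exists_poly_matrix {n : Type*} {G : M → Matrix n n k}
    (hG : ∀ i j, (fun c => G c i j) ∈ PolyF k M) :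
    ∃ (G0 : Matrix n n (PolyF k M)) (ev : M → (PolyF k M →+* k)),
      (∀ c f, ev c f = f.1 c) ∧ ∀ c, G c = G0.map (ev c) :=
  ⟨Matrix.of fun i j => ⟨_, hG i j⟩, fun c => (Pi.evalRingHom _ c).comp (PolyF k M).val.toRingHom,
    fun _ _ => rfl, fun _ => rfl⟩

theorem PolyF.det {n : Type*} [Fintype n] [DecidableEq n] {G : M → Matrix n n k}
    (hG : ∀ i j, (fun c => G c i j) ∈ PolyF k M) : (fun c => (G c).det) ∈ PolyF k M := by
  obtain ⟨G0, ev, h1, h2⟩ := exists_poly_matrix hG
  have : (fun c => (G c).det) = G0.det.1 := by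
    funext c
    rw [h2, ← h1, RingHom.map_det]; rfl
  rw [this]
  exact G0.det.2

theorem PolyF.adjugate {n : Type*} [Fintype n] [DecidableEq n] {G : M → Matrix n n k}
    (hG : ∀ i j, (fun c => G c i j) ∈ PolyF k M) (i j : n) :
    (fun c => (G c).adjugate i j) ∈ PolyF k M := by
  obtain ⟨G0, ev, h1, h2⟩ := exists_poly_matrix hG
  have : (fun c => (G c).adjugate i j) = (G0.adjugate i j).1 := by
    funext c
    have := RingHom.map_adjugate (ev c) G0
    rw [RingHom.mapMatrix_apply, RingHom.mapMatrix_apply] at this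
    rw [h2, ← h1, ← this]; rfl
  rw [this]
  exact (G0.adjugate i j).2

theorem IsPM.det [Module.Finite k N] {T : M → N →ₗ[k] N} (hT : IsPM k T) :
    (fun c => LinearMap.det (T c)) ∈ PolyF k M := by
  let b := Module.finBasis k N
  simp only [← LinearMap.det_toMatrix b]
  exact PolyF.det fun i j => hT ((Matrix.entryLinearMap k k i j) ∘ₗ (LinearMap.toMatrix b b : _ →ₗ[k] _))

/-- Cramer's rule -/
theorem IsPM.cramer [Module.Finite k N] {T : M → N →ₗ[k] N} (hT : IsPM k T) (v : N) :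
    ∃ G : M → N, IsPM k G ∧ ∀ c x, T c x = v → G c = LinearMap.det (T c) • x := by
  let b := Module.finBasis k N
  have hent : ∀ i j, (fun c => LinearMap.toMatrix b b (T c) i j) ∈ PolyF k M := fun i j =>
    hT ((Matrix.entryLinearMap k k i j) ∘ₗ (LinearMap.toMatrix b b : _ →ₗ[k] _))
  refine ⟨fun c => ∑ i, ∑ j, (LinearMap.toMatrix b b (T c)).adjugate i j • b.repr v j • b i,
    IsPM.sum _ fun i => IsPM.sum _ fun j => IsPM.smul (PolyF.adjugate hent i j) (IsPM.const _),
    fun c x hx => ?_⟩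
  have h1 : (LinearMap.toMatrix b b (T c)).adjugate *ᵥ ⇑(b.repr v)
      = LinearMap.det (T c) • ⇑(b.repr x) := by
    rw [← hx, ← LinearMap.toMatrix_mulVec_repr b b, mulVec_mulVec, adjugate_mul,
      LinearMap.det_toMatrix, smul_mulVec, one_mulVec]
  conv_rhs => rw [← b.sum_repr x, Finset.smul_sum]
  refine Finset.sum_congr rfl fun i _ => ?_
  have h2 := congrFun h1 i
  simp only [mulVec, dotProduct, Pi.smul_apply, smul_eq_mul] at h2
  rw [smul_smul, ← h2, Finset.sum_smul]
  exact Finset.sum_congr rfl fun j _ => smul_smul _ _ _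

theorem Zar.mono {U U' : Set M} (h : Zar k U) (hU : U ⊆ U') : Zar k U' := by
  obtain ⟨f, hf, h0, h1⟩ := h
  exact ⟨f, hf, h0, fun c hc => hU (h1 c hc)⟩

theorem Zar.of_poly {f : M → k} (hf : f ∈ PolyF k M) {c : M} (hc : f c ≠ 0) :
    Zar k {c | f c ≠ 0} := ⟨f, hf, ⟨c, hc⟩, fun _ h => h⟩

theorem Zar.nonempty {U : Set M} (h : Zar k U) : U.Nonempty := by
  obtain ⟨f, -, ⟨c, hc⟩, h1⟩ := h
  exact ⟨c, h1 c hc⟩

theorem Zar.inter [Infinite k] {U U' : Set M} (h : Zar k U) (h' : Zar k U') : Zar k (U ∩ U') := by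
  obtain ⟨f, hf, ⟨c, hc⟩, h1⟩ := h
  obtain ⟨g, hg, ⟨d, hd⟩, h2⟩ := h'
  refine ⟨f * g, (PolyF k M).mul_mem hf hg, ?_, fun x hx =>
    ⟨h1 x (left_ne_zero_of_mul hx), h2 x (right_ne_zero_of_mul hx)⟩⟩
  obtain ⟨p, hp⟩ := PolyF.line hf c (d - c)
  obtain ⟨q, hq⟩ := PolyF.line hg c (d - c)
  have hp0 : p ≠ 0 := by
    rintro rfl
    exact hc (by simpa using hp 0)
  have hq0 : q ≠ 0 := by
    rintro rfl
    exact hd (by simpa using hq 1)
  obtain ⟨τ, hτ⟩ := (finite_setOfPred_isRoot (mul_ne_zero hp0 hq0)).exists_notMem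
  refine ⟨c + τ • (d - c), fun h => hτ ?_⟩
  show IsRoot _ τ
  rw [IsRoot, eval_mul, ← hp, ← hq]
  exact h

/-- a spanning additive subgroup that is stable under infinitely many scalars is Zariski dense -/
theorem Zar.dense {U : Set M} (h : Zar k U) (D : AddSubgroup M) (Z : Set k) (hZ : Z.Infinite)
    (hD : ∀ z ∈ Z, ∀ d ∈ D, z • d ∈ D) (hspan : Submodule.span k (D : Set M) = ⊤) :
    ∃ d ∈ D, d ∈ U := by
  obtain ⟨f, hf, ⟨c, hc⟩, h1⟩ := h
  have key : ∀ x ∈ Submodule.span k (D : Set M), ∀ (s : k) (a : M), f (a + s • x) ≠ 0 →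
      ∃ d ∈ D, f (a + d) ≠ 0 := by
    intro x hx
    induction hx using Submodule.span_induction with
    | mem x hx =>
      intro s a ha
      obtain ⟨p, hp⟩ := PolyF.line hf a x
      have hp0 : p ≠ 0 := by
        rintro rfl
        exact ha (by simpa using hp s)
      obtain ⟨τ, hτZ, hτ⟩ := hZ.exists_notMem_finite (finite_setOfPred_isRoot hp0)
      exact ⟨τ • x, hD τ hτZ x hx, by rw [hp]; exact hτ⟩
    | zero => intro s a ha; exact ⟨0, D.zero_mem, by simpa using ha⟩
    | add x y _ _ hx hy =>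
      intro s a ha
      rw [smul_add, ← add_assoc] at ha
      obtain ⟨d, hd, h2⟩ := hy s _ ha
      rw [add_right_comm] at h2
      obtain ⟨d', hd', h3⟩ := hx s _ h2
      exact ⟨d + d', D.add_mem hd hd', by rwa [← add_assoc]⟩
    | smul r x _ hx =>
      intro s a ha
      rw [smul_smul] at ha
      exact hx _ a ha
  obtain ⟨d, hd, h2⟩ := key c (by rw [hspan]; trivial) 1 0 (by simpa using hc)
  exact ⟨d, hd, h1 d (by simpa using h2)⟩

/-- preimage under a rational map with denominator `δ` -/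
theorem Zar.preimage {δ : M → k} (hδ : δ ∈ PolyF k M) {ι G : M → N} (hG : IsPM k G) (m : ℕ)
    (hι : ∀ c, δ c ≠ 0 → G c = δ c ^ m • ι c) {U : Set N} (hU : Zar k U)
    (hdom : ∀ f ∈ PolyF k N, (∃ x, f x ≠ 0) → ∃ c, δ c ≠ 0 ∧ f (ι c) ≠ 0) :
    Zar k {c | δ c ≠ 0 ∧ ι c ∈ U} := by
  obtain ⟨f, hf, h0, h1⟩ := hU
  obtain ⟨c0, hc0, hc0'⟩ := hdom f hf h0
  have key : ∃ (m' : ℕ) (g : M → k), g ∈ PolyF k M ∧ ∀ c, δ c ≠ 0 → g c = δ c ^ m' * f (ι c) := by
    clear h0 h1 hc0'
    induction hf using Algebra.adjoin_induction with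
    | mem x hx =>
      obtain ⟨φ, rfl⟩ := hx
      exact ⟨m, _, hG φ, fun c hc => by simp [hι c hc]⟩
    | algebraMap r => exact ⟨0, _, PolyF.const r, fun c _ => by simp⟩
    | add x y _ _ hx hy =>
      obtain ⟨m1, g1, hg1, e1⟩ := hx
      obtain ⟨m2, g2, hg2, e2⟩ := hy
      refine ⟨m1 + m2, δ ^ m2 * g1 + δ ^ m1 * g2, (PolyF k M).add_mem
        ((PolyF k M).mul_mem ((PolyF k M).pow_mem hδ _) hg1)
        ((PolyF k M).mul_mem ((PolyF k M).pow_mem hδ _) hg2), fun c hc => ?_⟩
      simp only [Pi.add_apply, Pi.mul_apply, Pi.pow_apply, e1 c hc, e2 c hc]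
      ring
    | mul x y _ _ hx hy =>
      obtain ⟨m1, g1, hg1, e1⟩ := hx
      obtain ⟨m2, g2, hg2, e2⟩ := hy
      refine ⟨m1 + m2, g1 * g2, (PolyF k M).mul_mem hg1 hg2, fun c hc => ?_⟩
      simp only [Pi.mul_apply, e1 c hc, e2 c hc]
      ring
  obtain ⟨m', g, hg, e⟩ := key
  refine ⟨δ * g, (PolyF k M).mul_mem hδ hg, ⟨c0, ?_⟩, fun c hc => ?_⟩
  · rw [Pi.mul_apply, e c0 hc0]
    exact mul_ne_zero hc0 (mul_ne_zero (pow_ne_zero _ hc0) hc0')
  · have h2 : δ c ≠ 0 := left_ne_zero_of_mul hc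
    have h3 : g c ≠ 0 := right_ne_zero_of_mul hc
    rw [e c h2] at h3
    exact ⟨h2, h1 _ (right_ne_zero_of_mul h3)⟩

/-- preimage under a surjective polynomial map -/
theorem Zar.preimage_surj {G : M → N} (hG : IsPM k G) (hs : Function.Surjective G) {U : Set N}
    (hU : Zar k U) : Zar k {c | G c ∈ U} := by
  refine (Zar.preimage (PolyF.const 1) hG 0 (fun c _ => by simp) hU ?_).mono fun c hc => hc.2
  rintro f - ⟨x, hx⟩
  obtain ⟨c, rfl⟩ := hs x
  exact ⟨c, one_ne_zero, hx⟩

theorem isUnit_iff_det_lmul {B : Type*} [Ring B] [Algebra k B] [Module.Finite k B] (x : B) :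
    IsUnit x ↔ LinearMap.det (LinearMap.mul k B x) ≠ 0 := by
  rw [← isUnit_iff_ne_zero, ← LinearMap.isUnit_iff_isUnit_det]
  exact Algebra.lmul_isUnit_iff.symm

theorem Zar.isUnit {B : Type*} [Ring B] [Algebra k B] [Module.Finite k B] {G : M → B}
    (hG : IsPM k G) {c0 : M} (h0 : IsUnit (G c0)) : Zar k {c | IsUnit (G c)} := by
  simp only [isUnit_iff_det_lmul (k := k)] at h0 ⊢
  exact Zar.of_poly (hG.map (LinearMap.mul k B)).det h0

theorem Zar.linearIndependent {n : Type*} [Fintype n] {G : n → M → N} (hG : ∀ i, IsPM k (G i))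
    {c0 : M} (h0 : LinearIndependent k fun i => G i c0) :
    Zar k {c | LinearIndependent k fun i => G i c} := by
  classical
  obtain ⟨π, hπ⟩ := (Fintype.linearCombination k fun i => G i c0).exists_leftInverse_of_injective
    (LinearMap.ker_eq_bot.mpr (linearIndependent_iff_injective_fintypeLinearCombination.mp h0))
  let T : M → (n → k) →ₗ[k] (n → k) := fun c => π ∘ₗ Fintype.linearCombination k fun i => G i c
  have hT : IsPM k T := by
    have : T = fun c => ∑ i, (LinearMap.smulRightₗ (LinearMap.proj i : (n → k) →ₗ[k] k))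
        (π (G i c)) := by
      funext c
      refine LinearMap.ext fun v => ?_
      simp [T, Fintype.linearCombination_apply]
    rw [this]
    exact IsPM.sum _ fun i => ((hG i).map π).map _
  refine (Zar.of_poly hT.det (c := c0) (by simp [T, hπ])).mono fun c hc => ?_
  have hu : IsUnit (T c) := (LinearMap.isUnit_iff_isUnit_det _).mpr (isUnit_iff_ne_zero.mpr hc)
  have hinj : Function.Injective (T c) := ((Module.End.isUnit_iff _).mp hu).1
  exact linearIndependent_iff_injective_fintypeLinearCombination.mpr (Function.Injective.of_comp (f := π) hinj)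

end Pool.Agent.GSD
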