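import Pool.Agent.P.MP_c1f06d_ag.d.NPex
import Pool.Agent.P.MP_c1f06d_ag.d.NPwit
import Pool.Agent.P.MP_c1f06d_ag.d.NPeta
import Pool.Agent.P.MP_c1f06d_ag.d.NPzar

/-! Norm principle for `Spin (A, σ)`: the good elements are generic. -/

namespace Pool.Agent.GSD

open Matrix Polynomial

/-- `W` is alternating and `ρ y * W = F` modulo alternating elements -/
def NPSol {A1 B : Type*} [Ring B] [StarRing B] (ρ : A1 → B) (F : B) (y : A1) (W : B) : Prop :=
  (∃ z, W = z - star z) ∧ ∃ z, ρ y * W - F = z - star z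

/-- good elements -/
def NPGood {A1 B : Type*} [Ring A1] [Ring B] [StarRing B] (ρ : A1 → B) (F : B) (y : A1) : Prop :=
  IsUnit y ∧ ∃ W, IsUnit W ∧ NPSol ρ F y W

/-- the involution as a linear map -/
def starLin {R B : Type*} [CommRing R] [Ring B] [StarRing B] [Algebra R B]
    (hB : ∀ r : R, star (algebraMap R B r) = algebraMap R B r) : B →ₗ[R] B where
  toFun := star
  map_add' := star_add
  map_smul' r x := by
    rw [Algebra.smul_def, star_mul, hB, RingHom.id_apply, Algebra.smul_def, Algebra.commutes]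

section field
variable {k A1 B : Type*} [Field k] [Infinite k] [Ring A1] [StarRing A1] [Algebra k A1]
  [Module.Finite k A1] [Ring B] [StarRing B] [Algebra k B] [Module.Finite k B]

/-- good elements over the residual splitting field -/
def GoodF (k : Type*) {A1 B : Type*} [Field k] [Ring A1] [StarRing A1] [Algebra k A1] [Ring B]
    [StarRing B] (ρ : A1 → B) (F : B) (m : ℕ) (y : A1) : Prop :=
  IsUnit y ∧ IsUnit (y - star y) ∧ (LinearIndependent k fun i : Fin m => y ^ (i : ℕ)) ∧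
    ∀ W, NPSol ρ F y W → IsUnit W

theorem zar_good (hA1 : ∀ r : k, star (algebraMap k A1 r) = algebraMap k A1 r)
    (hB : ∀ r : k, star (algebraMap k B r) = algebraMap k B r) (ρ : A1 →ₐ[k] B) (F : B) (m : ℕ)
    (l y0 : A1) (hy0 : ∃ c, y0 - l = c - star c) (h1 : IsUnit y0) (h2 : IsUnit (y0 - star y0))
    (h3 : LinearIndependent k fun i : Fin m => y0 ^ (i : ℕ)) (W0 : B) (hW0 : NPSol ρ F y0 W0)
    (hu : IsUnit W0) (huniq : ∀ W, NPSol ρ F y0 W → W = W0) :
    Zar k {c | GoodF k ρ F m (l + (c - star c))} := by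
  obtain ⟨c0, hc0⟩ := hy0
  have hy0 : l + (c0 - star c0) = y0 := by rw [← hc0]; abel
  have hy : IsPM k fun c : A1 => l + (c - star c) :=
    (IsPM.const l).add (IsPM.id.sub (IsPM.lin (starLin hA1)))
  have z1 := Zar.isUnit hy (c0 := c0) (by rwa [hy0])
  have z2 := Zar.isUnit (hy.sub (hy.map (starLin hA1))) (c0 := c0) (by rw [hy0]; exact h2)
  have z3 := Zar.linearIndependent (fun i : Fin m => hy.pow i) (c0 := c0) (by rw [hy0]; exact h3)
  let V : Submodule k B := LinearMap.range (LinearMap.id - starLin hB)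
  have hV : ∀ x, x ∈ V ↔ ∃ z, x = z - star z := fun x =>
    ⟨fun ⟨z, hz⟩ => ⟨z, hz.symm⟩, fun ⟨z, hz⟩ => ⟨z, hz.symm⟩⟩
  let Φ0 : V →ₗ[k] B ⧸ V := V.mkQ ∘ₗ LinearMap.mul k B (ρ y0) ∘ₗ V.subtype
  have hΦ0 : LinearMap.ker Φ0 = ⊥ := by
    rw [LinearMap.ker_eq_bot']
    intro K hK
    have hK' : ρ y0 * K ∈ V := (Submodule.Quotient.mk_eq_zero V).mp hK
    have := huniq (W0 + K) ⟨(hV _).1 (V.add_mem ((hV _).2 hW0.1) K.2), (hV _).1 (by
      rw [mul_add, add_sub_right_comm]
      exact V.add_mem ((hV _).2 hW0.2) hK')⟩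
    exact Subtype.ext (by simpa using this)
  obtain ⟨π, hπ⟩ := Φ0.exists_leftInverse_of_injective hΦ0
  let L : B →ₗ[k] V →ₗ[k] V := LinearMap.llcomp k V B V (π ∘ₗ V.mkQ) ∘ₗ
    LinearMap.lcomp k B V.subtype ∘ₗ LinearMap.mul k B
  have hL : ∀ x (w : V), L x w = π (V.mkQ (x * w)) := fun _ _ => rfl
  have hT : IsPM k fun c : A1 => L (ρ (l + (c - star c))) :=
    IsPM.map (N' := V →ₗ[k] V) (hy.map ρ.toLinearMap) L
  obtain ⟨G, hG, hG'⟩ := hT.cramer (π (V.mkQ F))
  have hsol : ∀ c W (hW : NPSol ρ F (l + (c - star c)) W),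
      (G c : B) = LinearMap.det (L (ρ (l + (c - star c)))) • W := by
    intro c W hW
    have := hG' c ⟨W, (hV _).2 hW.1⟩ (by
      rw [hL]
      congr 1
      exact (Submodule.Quotient.eq V).mpr ((hV _).2 hW.2))
    exact congrArg Subtype.val this
  have hL0 : L (ρ (l + (c0 - star c0))) = LinearMap.id := by rw [hy0, ← hπ]; rfl
  have z5 := Zar.isUnit (hG.map V.subtype) (c0 := c0) (by
    have := hsol c0 W0 (by rwa [hy0])
    rw [hL0, LinearMap.det_id, one_smul] at this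
    rwa [Submodule.subtype_apply, this])
  refine (z1.inter (z2.inter (z3.inter z5))).mono ?_
  rintro c ⟨a1, a2, a3, a5⟩
  refine ⟨a1, a2, a3, fun W hW => ?_⟩
  have a6 : IsUnit (G c : B) := a5
  rw [hsol c W hW, Algebra.smul_def] at a6
  exact ((Algebra.commute_algebraMap_left _ W).isUnit_mul_iff.mp a6).2

theorem zar_two (hA1 : ∀ r : k, star (algebraMap k A1 r) = algebraMap k A1 r) {U : Set A1}
    (hU : Zar k U) (y cy cw : A1) (hy : IsUnit y) (hcw : IsUnit (cw - star cw)) :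
    Zar k {c | IsUnit (c - star c) ∧ cy + c ∈ U ∧
      ∀ v, (c - star c) * v = 1 → cy - y * (v * c * v) * star y ∈ U} := by
  have hu : IsPM k fun c : A1 => c - star c := IsPM.id.sub (IsPM.lin (starLin hA1))
  have z1 := Zar.preimage_surj ((IsPM.const cy).add IsPM.id)
    (fun x => ⟨x - cy, by simp⟩) hU
  have hT := hu.map (LinearMap.mul k A1)
  obtain ⟨G, hG, hG'⟩ := hT.cramer 1
  have hinv : ∀ c : A1, IsUnit (c - star c) → (c - star c) * Ring.inverse (c - star c) = 1 :=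
    fun c hc => Ring.mul_inverse_cancel _ hc
  have z2 := Zar.preimage (m := 2) hT.det
    (ι := fun c => cy - y * (Ring.inverse (c - star c) * c * Ring.inverse (c - star c)) * star y)
    (((IsPM.const cy).smul ((PolyF k A1).pow_mem hT.det 2)).sub
      (((IsPM.const y).mul ((hG.mul IsPM.id).mul hG)).mul (IsPM.const (star y))))
    (fun c hc => by
      rw [hG' c _ (hinv c ((isUnit_iff_det_lmul _).2 hc))]
      simp only [Pi.pow_apply, smul_sub, smul_mul_assoc, mul_smul_comm, smul_smul, pow_two]) hU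
    (by
      rintro f hf ⟨x, hx⟩
      obtain ⟨Y, rfl⟩ := hy
      have hc1 : IsPM k fun x : A1 => (↑Y⁻¹ : A1) * (cy - x) * star (↑Y⁻¹ : A1) :=
        ((IsPM.const _).mul ((IsPM.const cy).sub IsPM.id)).mul (IsPM.const _)
      have hs1 : star (Y : A1) * star (↑Y⁻¹ : A1) = 1 := by rw [← star_mul]; simp
      have hs2 : star (↑Y⁻¹ : A1) * star (Y : A1) = 1 := by rw [← star_mul]; simp
      have z3 := Zar.isUnit (hc1.sub (hc1.map (starLin hA1))) (c0 := cy - Y * cw * star (Y : A1))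
        (by
          have : (↑Y⁻¹ : A1) * (cy - (cy - Y * cw * star (Y : A1))) * star (↑Y⁻¹ : A1) = cw := by
            rw [sub_sub_cancel, mul_assoc, mul_assoc, hs1, mul_one, Units.inv_mul_cancel_left]
          rw [this]; exact hcw)
      obtain ⟨x1, hx1, hx2⟩ := ((Zar.of_poly hf hx).inter z3).nonempty
      set c1 := (↑Y⁻¹ : A1) * (cy - x1) * star (↑Y⁻¹ : A1) with hc1d
      obtain ⟨u, hu1⟩ : IsUnit (c1 - star c1) := hx2
      have hus : star (u : A1) = -u := by rw [hu1, star_sub, star_star, neg_sub]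
      have hus' : star (↑u⁻¹ : A1) = -↑u⁻¹ := by
        have h1 : star (↑u⁻¹ : A1) * star (u : A1) = 1 := by rw [← star_mul]; simp
        rw [hus, mul_neg, neg_eq_iff_eq_neg] at h1
        calc star (↑u⁻¹ : A1) = star (↑u⁻¹ : A1) * u * ↑u⁻¹ := by simp
          _ = _ := by rw [h1]; simp
      have h0 : (↑u⁻¹ : A1) * c1 * ↑u⁻¹ - star ((↑u⁻¹ : A1) * c1 * ↑u⁻¹) = ↑u⁻¹ := by
        rw [star_mul, star_mul, hus']
        calc _ = (↑u⁻¹ : A1) * (c1 - star c1) * ↑u⁻¹ := by noncomm_ring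
          _ = _ := by rw [← hu1]; simp
      refine ⟨(↑u⁻¹ : A1) * c1 * ↑u⁻¹, ?_, ?_⟩
      · rw [h0]; exact (isUnit_iff_det_lmul _).1 (Units.isUnit _)
      · have : cy - Y * (Ring.inverse (↑u⁻¹ : A1) * ((↑u⁻¹ : A1) * c1 * ↑u⁻¹)
            * Ring.inverse (↑u⁻¹ : A1)) * star (Y : A1) = x1 := by
          rw [Ring.inverse_unit, inv_inv, mul_assoc (↑u⁻¹ : A1), Units.mul_inv_cancel_left,
            Units.inv_mul_cancel_right, hc1d, mul_assoc, mul_assoc, hs2, mul_one,
            Units.mul_inv_cancel_left, sub_sub_cancel]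
        simp only [h0, this]
        exact hx1)
  refine (z1.inter z2).mono ?_
  rintro c ⟨a1, a2, a3⟩
  have hc : IsUnit (c - star c) := (isUnit_iff_det_lmul _).2 a2
  refine ⟨hc, a1, fun v hv => ?_⟩
  have : v = Ring.inverse (c - star c) := hc.mul_left_cancel (by rw [hv, hinv c hc])
  rw [this]; exact a3

omit [Algebra k B] [Module.Finite k B] in
/-- **Both factors good.** `y = l + Alt` a unit; then `1 - y⁻¹ = (1 - y₁⁻¹)(1 - y₂⁻¹)` for
`y₁ = y + u`, `y₂ = y - y u⁻¹ y*`, and `u` can be chosen such that both are good. -/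
theorem np_two_good {R A0 B0 : Type*} [CommRing R] [Ring A0] [StarRing A0] [Module R A0] [Ring B0]
    [StarRing B0] (hA1 : ∀ r : k, star (algebraMap k A1 r) = algebraMap k A1 r)
    (ψ : R →+* k) (hψ : (Set.range ψ).Infinite) (κ : A0 →+* A1) (κB : B0 →+* B)
    (hκs : ∀ x, κ (star x) = star (κ x)) (hκBs : ∀ x, κB (star x) = star (κB x))
    (hκsm : ∀ (r : R) x, κ (r • x) = ψ r • κ x) (hspan : Submodule.span k (Set.range κ) = ⊤)
    (hκu : ∀ x, IsUnit (κ x) → IsUnit x) (hκBu : ∀ x, IsUnit (κB x) → IsUnit x)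
    (ρ0 : A0 → B0) (ρ : A1 → B) (hρ : ∀ x, κB (ρ0 x) = ρ (κ x)) (F : B0) (l : A0) (m : ℕ)
    (hex : ∀ y, (∃ c, y - l = c - star c) → IsUnit (y - star y) →
      (LinearIndependent k fun i : Fin m => κ y ^ (i : ℕ)) → ∃ W, NPSol ρ0 F y W)
    (hZ : Zar k {c | GoodF k ρ (κB F) m (κ l + (c - star c))})
    (y : A0) (hy : ∃ c, y - l = c - star c) (hyu : IsUnit y) :
    ∃ u v, (∃ c, u = c - star c) ∧ u * v = 1 ∧ v * u = 1 ∧
      (∃ c, (y + u) - l = c - star c) ∧ (∃ c, (y - y * v * star y) - l = c - star c) ∧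
      NPGood ρ0 F (y + u) ∧ NPGood ρ0 F (y - y * v * star y) := by
  obtain ⟨cy, hcy⟩ := hy
  have good : ∀ c, GoodF k ρ (κB F) m (κ l + (κ c - star (κ c))) →
      NPGood ρ0 F (l + (c - star c)) := by
    intro c hc
    have e : κ l + (κ c - star (κ c)) = κ (l + (c - star c)) := by
      rw [map_add, map_sub, hκs]
    rw [e] at hc
    obtain ⟨a1, a2, a3, a4⟩ := hc
    obtain ⟨W, hW⟩ := hex _ ⟨c, by abel⟩ (hκu _ (by rwa [map_sub, hκs])) a3
    refine ⟨hκu _ a1, W, hκBu _ (a4 _ ?_), hW⟩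
    obtain ⟨⟨z, hz⟩, z', hz'⟩ := hW
    exact ⟨⟨κB z, by rw [hz, map_sub, hκBs]⟩, κB z', by
      rw [← hρ, ← map_mul, ← map_sub, hz', map_sub, hκBs]⟩
  obtain ⟨c0, hc0⟩ := hZ.nonempty
  obtain ⟨_, ⟨c, rfl⟩, a1, a2, a3⟩ := (zar_two hA1 hZ (κ y) (κ cy) _ (hyu.map κ) hc0.2.1).dense
    κ.toAddMonoidHom.range (Set.range ψ) hψ
    (by rintro _ ⟨r, rfl⟩ _ ⟨x, rfl⟩; exact ⟨r • x, hκsm r x⟩) hspan
  change IsUnit (κ c - star (κ c)) at a1
  obtain ⟨u, hu⟩ := hκu (c - star c) (by rwa [map_sub, hκs])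
  have hus : star (u : A0) = -u := by rw [hu, star_sub, star_star, neg_sub]
  have hus' : star (↑u⁻¹ : A0) = -↑u⁻¹ := by
    have h1 : star (↑u⁻¹ : A0) * star (u : A0) = 1 := by rw [← star_mul]; simp
    rw [hus, mul_neg, neg_eq_iff_eq_neg] at h1
    calc star (↑u⁻¹ : A0) = star (↑u⁻¹ : A0) * u * ↑u⁻¹ := by simp
      _ = _ := by rw [h1]; simp
  have e1 : y + u = l + ((cy + c) - star (cy + c)) := by
    rw [hu, eq_add_of_sub_eq' hcy, star_add]; abel
  have e2 : y - y * ↑u⁻¹ * star y = l + ((cy - y * (↑u⁻¹ * c * ↑u⁻¹) * star y)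
      - star (cy - y * (↑u⁻¹ * c * ↑u⁻¹) * star y)) := by
    have h0 : (↑u⁻¹ : A0) * (c - star c) * ↑u⁻¹ = ↑u⁻¹ := by rw [← hu]; simp
    simp only [star_sub, star_mul, star_star, hus']
    calc _ = l + (cy - star cy) - y * ((↑u⁻¹ : A0) * (c - star c) * ↑u⁻¹) * star y := by
          rw [h0, ← hcy]; abel
      _ = _ := by noncomm_ring
  refine ⟨u, ↑u⁻¹, ⟨c, hu⟩, by simp, by simp, ⟨_, by rw [e1]; exact add_sub_cancel_left _ _⟩,
    ⟨_, by rw [e2]; exact add_sub_cancel_left _ _⟩, ?_, ?_⟩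
  · rw [e1]; apply good; rw [map_add]; exact a2
  · rw [e2]; apply good
    have := a3 (κ ↑u⁻¹) (by
      change (κ c - star (κ c)) * _ = 1
      rw [← hκs, ← map_sub, ← hu, ← map_mul]; simp)
    simp only [map_sub, map_mul, hκs]
    exact this

end field

/-- powers independent over the residue field generate the module that contains them -/
theorem span_le_adjoin {R A0 k A1 μ : Type*} [CommRing R] [Ring A0] [Algebra R A0] [Field k]
    [Ring A1] [Algebra k A1] [Fintype μ] (ψ : R →+* k) (hψ : ∀ r, ψ r ≠ 0 → IsUnit r)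
    (κ : A0 →+* A1) (hκsm : ∀ (r : R) x, κ (r • x) = ψ r • κ x) (g : μ → A0) (y : A0)
    (hg : ∀ i : ℕ, y ^ i ∈ Submodule.span R (Set.range g)) {m : ℕ} (hm : Fintype.card μ = m)
    (hli : LinearIndependent k fun i : Fin m => κ y ^ (i : ℕ)) (x : A0)
    (hx : x ∈ Submodule.span R (Set.range g)) : x ∈ Algebra.adjoin R {y} := by
  classical
  let ε : μ ≃ Fin m := Fintype.equivFinOfCardEq hm
  choose D hD using fun i : μ => (Submodule.mem_span_range_iff_exists_fun R).mp (hg (ε i))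
  have hli' : LinearIndependent k fun i : μ => κ y ^ (ε i : ℕ) := hli.comp ε ε.injective
  have hu : IsUnit ((Matrix.of D).map ψ) := by
    rw [← Matrix.linearIndependent_rows_iff_isUnit]
    refine LinearIndependent.of_comp (Fintype.linearCombination k fun j => κ (g j)) ?_
    have : ⇑(Fintype.linearCombination k fun j => κ (g j)) ∘ ((Matrix.of D).map ψ).row
        = fun i : μ => κ y ^ (ε i : ℕ) := by
      funext i
      rw [← map_pow, ← hD, map_sum, Function.comp_apply, Fintype.linearCombination_apply]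
      simp only [hκsm]
      rfl
    rw [this]
    exact hli'
  have hdet : IsUnit (Matrix.of D).det := by
    apply hψ
    rw [RingHom.map_det]
    exact ((Matrix.isUnit_iff_isUnit_det _).mp hu).ne_zero
  have key : ∀ j, g j ∈ Algebra.adjoin R {y} := by
    intro j
    have : g j = ∑ i, (Matrix.of D)⁻¹ j i • y ^ (ε i : ℕ) := by
      simp only [← hD, Finset.smul_sum, smul_smul]
      rw [Finset.sum_comm]
      simp only [← Finset.sum_smul]
      have h1 : ∀ j', ∑ i, (Matrix.of D)⁻¹ j i * D i j' = (1 : Matrix μ μ R) j j' := by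
        intro j'
        rw [← Matrix.nonsing_inv_mul _ hdet, Matrix.mul_apply]; rfl
      simp [h1, Matrix.one_apply, ite_smul]
    rw [this]
    exact Subalgebra.sum_mem _ fun i _ => Subalgebra.smul_mem _
      (Subalgebra.pow_mem _ (Algebra.self_mem_adjoin_singleton R y) _) _
  exact (Submodule.span_le (p := (Algebra.adjoin R {y}).toSubmodule)).mpr
    (by rintro _ ⟨j, rfl⟩; exact key j) hx

/-- `S ⊆ R[y]` from a monic equation of degree `N` over `S` -/
theorem algebraMap_mem_adjoin {R S A0 k A1 n : Type*} [CommRing R] [CommRing S] [Algebra R S]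
    [Ring A0] [Algebra R A0] [Algebra S A0] [IsScalarTower R S A0] [Field k]
    [Ring A1] [Algebra k A1] [Fintype n] (ψ : R →+* k) (hψ : ∀ r, ψ r ≠ 0 → IsUnit r)
    (κ : A0 →+* A1) (hκsm : ∀ (r : R) x, κ (r • x) = ψ r • κ x) (b : n → S)
    (hb : Submodule.span R (Set.range b) = ⊤) (y : A0) {N : ℕ} (hN : 0 < N) (q : S[X])
    (hq : q.Monic) (hqN : q.natDegree = N) (hqy : aeval y q = 0)
    (hli : LinearIndependent k fun i : Fin (N * Fintype.card n) => κ y ^ (i : ℕ)) (s : S) :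
    algebraMap S A0 s ∈ Algebra.adjoin R {y} := by
  have h1 : ∀ (s : S) (j : Fin N), s • y ^ (j : ℕ) ∈
      Submodule.span R (Set.range fun p : Fin N × n => b p.2 • y ^ (p.1 : ℕ)) := by
    intro s j
    obtain ⟨c, rfl⟩ := (Submodule.mem_span_range_iff_exists_fun R).mp
      (show s ∈ Submodule.span R (Set.range b) by rw [hb]; trivial)
    rw [Finset.sum_smul]
    refine Submodule.sum_mem _ fun i _ => ?_
    rw [smul_assoc]
    exact Submodule.smul_mem _ _ (Submodule.subset_span ⟨(j, i), rfl⟩)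
  refine span_le_adjoin ψ hψ κ hκsm (fun p : Fin N × n => b p.2 • y ^ (p.1 : ℕ)) y (fun i => ?_)
    (by simp) hli _ (by simpa [Algebra.algebraMap_eq_smul_one] using h1 s ⟨0, hN⟩)
  have hne : q ≠ 1 := by rintro rfl; simp at hqN; omega
  have h2 : y ^ i = aeval y (X ^ i %ₘ q) := by
    rw [aeval_modByMonic_eq_self_of_root hqy]; simp
  have h3 : (X ^ i %ₘ q).natDegree < N := hqN ▸ natDegree_modByMonic_lt _ hq hne
  rw [h2, aeval_eq_sum_range' h3, Finset.sum_range]
  exact Submodule.sum_mem _ fun j _ => h1 _ j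

end Pool.Agent.GSD
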