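import Pool.Agent.P.MP_c1f06d_ag.su.Spr
import Pool.Agent.P.MP_c1f06d_ag.d.EqD

open Matrix Polynomial IsLocalRing

universe u

namespace Pool.Agent.GSD

open Pool.Agent.SU SAlg Pool.Agent.P.MP_c1f06d_ag

/-- A property of an algebra with two elements and a scalar. -/
abbrev Pr3 (N : ℕ) : Type (u + 1) :=
  ∀ (T : Type u) [CommRing T] (A : SAlg T N), A.Car → A.Car → T → Prop

variable {N : ℕ}

/-- Stable under base change. -/
def Pr3.Bc (p : Pr3.{u} N) : Prop :=
  ∀ (T T' : Type u) [CommRing T] [CommRing T'] (f : T →+* T') (A : SAlg T N) (l x : A.Car) (c : T),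
    p T A l x c → p T' (A.map f) (A.bc f l) (A.bc f x) (f c)

/-- Stable under isomorphisms of algebras with quadratic pair. -/
def Pr3.Iso (p : Pr3.{u} N) : Prop :=
  ∀ (T : Type u) [CommRing T] (A1 A2 : SAlg T N) (Φ : SIso A1 A2) (l1 : A1.Car) (l2 : A2.Car)
    (x : A1.Car) (c : T), Alt (Φ.e l1 - l2) → p T A2 l2 (Φ.e x) c → p T A1 l1 x c

/-- Spreads from a localisation when `g` holds. -/
def Pr3.Spread (p : Pr3.{u} N) (g : ∀ (T : Type u) [CommRing T] (A : SAlg T N), A.Car → Prop) :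
    Prop :=
  ∀ (B O : Type u) [CommRing B] [CommRing O] (ρ : B →+* O), LocPres ρ 0 →
    ∀ (A : SAlg B N) (l x : A.Car) (c : B), g B A l → p O (A.map ρ) (A.bc ρ l) (A.bc ρ x) (ρ c) →
      ∃ (B' : Type u) (_ : CommRing B') (j : B →+* B') (ρ' : B' →+* O), Nb ρ j ρ' ∧
        p B' (A.map j) (A.bc j l) (A.bc j x) (j c)

/-- The inputs of a run: `gd` is what is known on the given algebra, `ad` the conditions on the
data, `p0` the property over the fraction field, `p1` the property over a finite extension of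
degree `1 mod D`, `p2` the property that is proved. -/
structure Sys (D : ℕ) (gd : ∀ (T : Type u) [CommRing T] (A : SAlg T N), A.Car → Prop)
    (ad p0 p1 p2 : Pr3.{u} N) : Prop where
  pos : 0 < D
  qn : ∀ (T : Type u) [CommRing T] (A : SAlg T N) (l : A.Car), gd T A l → QN A l
  gd_bc : ∀ (T T' : Type u) [CommRing T] [CommRing T'] (f : T →+* T') (A : SAlg T N) (l : A.Car),
    gd T A l → gd T' (A.map f) (A.bc f l)
  ad_bc : ad.Bc
  p0_bc : p0.Bc
  p2_bc : ∀ (T T' : Type u) [CommRing T] [CommRing T'] (f : T →+* T') (A : SAlg T N)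
    (l x : A.Car) (c : T), gd T A l → p2 T A l x c → p2 T' (A.map f) (A.bc f l) (A.bc f x) (f c)
  ad_iso : ad.Iso
  p0_iso : p0.Iso
  ad_spread : ad.Spread fun _ _ _ _ => True
  p0_spread : p0.Spread fun _ _ _ _ => True
  p2_spread : p2.Spread gd
  near : ∀ (T R : Type u) [CommRing T] [CommRing R] [IsLocalRing R] [Infinite (ResidueField R)]
    (i : R →+* T) (σ : T →+* R), σ.comp i = RingHom.id R → ∀ (A : SAlg R N) (l : A.Car)
    (x1 x2 : (A.map i).Car) (c1 c2 : T), gd R A l → ad T _ (A.bc i l) x1 c1 →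
    ad T _ (A.bc i l) x2 c2 → (A.map i).bc σ x1 = (A.map i).bc σ x2 → σ c1 = σ c2 →
    ∃ (T' : Type u) (_ : CommRing T') (f : T →+* T') (σ' : T' →+* R), f.Etale ∧ σ'.comp f = σ ∧
      ∀ (S : Type u) [CommRing S] (χ : T' →+* S),
        p0 S ((A.map i).map (χ.comp f)) (A.bc ((χ.comp f).comp i) l)
          ((A.map i).bc (χ.comp f) x2) (χ (f c2)) →
        p1 S ((A.map i).map (χ.comp f)) (A.bc ((χ.comp f).comp i) l)
          ((A.map i).bc (χ.comp f) x1) (χ (f c1))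
  val : ∀ (O K : Type u) [CommRing O] [IsDomain O] [ValuationRing O] [Infinite (ResidueField O)]
    [Field K] [Algebra O K] [IsFractionRing O K] (A : SAlg O N) (l x : A.Car) (c : O), gd O A l →
    ad O A l x c → p0 K (A.map (algebraMap O K)) (A.bc _ l) (A.bc _ x) (algebraMap O K c) →
    p0 O A l x c
  desc : ∀ (R : Type u) [CommRing R] [IsLocalRing R] [Infinite (ResidueField R)] (A : SAlg R N)
    (l x : A.Car) (c : R), gd R A l → ad R A l x c → ∀ (P : R[X]) (k : ℕ), P.Monic →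
    P.natDegree = D * k + 1 →
    p1 (AdjoinRoot P) (A.map (AdjoinRoot.of P)) (A.bc _ l) (A.bc _ x) (AdjoinRoot.of P c) →
    p2 R A l x c
  fin : ∀ (R : Type u) [CommRing R] [IsLocalRing R] [Finite (ResidueField R)] (A : SAlg R N)
    (l x : A.Car) (c : R), gd R A l → ad R A l x c → ∃ D' > 0, ∀ (P : R[X]) (k : ℕ), P.Monic →
    Irreducible (P.map (residue R)) → P.natDegree = D' * (k + 1) + 1 →
    p2 (AdjoinRoot P) (A.map (AdjoinRoot.of P)) (A.bc _ l) (A.bc _ x) (AdjoinRoot.of P c) →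
    p2 R A l x c

theorem wit_spread {B O : Type u} [CommRing B] [CommRing O] {ρ : B →+* O} (h : LocPres ρ 0)
    (S : Matrix (Fin N) (Fin N) B) {U V : Matrix (Fin N) (Fin N) O} (h1 : S.map ρ * U = 0)
    (h2 : V * S.map ρ = 0) (h3 : (V * U).trace = 1) :
    ∃ (B' : Type u) (_ : CommRing B') (j : B →+* B') (ρ' : B' →+* O), Nb ρ j ρ' ∧
      ∃ U V : Matrix (Fin N) (Fin N) B', S.map j * U = 0 ∧ V * S.map j = 0 ∧ (V * U).trace = 1 := by
  obtain ⟨B1, _, j1, ρ1, n1, y, hy⟩ := exists_nb_lift h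
    (Sum.elim (fun p : Fin N × Fin N => U p.1 p.2) fun p : Fin N × Fin N => V p.1 p.2)
  obtain rfl := n1.comp
  obtain ⟨U1, rfl⟩ : ∃ U1 : Matrix (Fin N) (Fin N) B1, U1.map ρ1 = U :=
    ⟨of fun a b => y (.inl (a, b)), Matrix.ext fun a b => hy (.inl (a, b))⟩
  obtain ⟨V1, rfl⟩ : ∃ V1 : Matrix (Fin N) (Fin N) B1, V1.map ρ1 = V :=
    ⟨of fun a b => y (.inr (a, b)), Matrix.ext fun a b => hy (.inr (a, b))⟩
  rw [RingHom.coe_comp, ← Matrix.map_map, ← Matrix.map_mul] at h1 h2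
  rw [← Matrix.map_mul, ← AddMonoidHom.map_trace] at h3
  obtain ⟨B2, _, j2, ρ2, n2, e⟩ := exists_nb_eq n1.lp
    (ι := (Fin N × Fin N) ⊕ (Fin N × Fin N) ⊕ Unit)
    (Sum.elim (fun p => (S.map j1 * U1) p.1 p.2)
      (Sum.elim (fun p => (V1 * S.map j1) p.1 p.2) fun _ => (V1 * U1).trace))
    (Sum.elim (fun _ => 0) (Sum.elim (fun _ => 0) fun _ => 1)) (by
      rintro (p | p | p)
      · exact (congrFun (congrFun h1 p.1) p.2).trans (map_zero ρ1).symm
      · exact (congrFun (congrFun h2 p.1) p.2).trans (map_zero ρ1).symm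
      · exact h3.trans (map_one ρ1).symm)
  refine ⟨B2, inferInstance, _, ρ2, n1.trans n2, U1.map j2, V1.map j2, ?_, ?_, ?_⟩
  · rw [RingHom.coe_comp, ← Matrix.map_map, ← Matrix.map_mul]
    exact Matrix.ext fun a b => (e (.inl (a, b))).trans (map_zero j2)
  · rw [RingHom.coe_comp, ← Matrix.map_map, ← Matrix.map_mul]
    exact Matrix.ext fun a b => (e (.inr (.inl (a, b)))).trans (map_zero j2)
  · rw [← Matrix.map_mul, ← AddMonoidHom.map_trace]
    exact (e (.inr (.inr ()))).trans (map_one j2)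

theorem qm_spread {B O : Type u} [CommRing B] [CommRing O] {ρ : B →+* O} (h : LocPres ρ 0)
    (A : SAlg B N) {l : A.Car} (H : QM (A.map ρ) (A.bc ρ l)) :
    ∃ (B' : Type u) (_ : CommRing B') (j : B →+* B') (ρ' : B' →+* O), Nb ρ j ρ' ∧
      QM (A.map j) (A.bc j l) := by
  obtain ⟨U, V, h1, h2, h3⟩ := H.wit
  obtain ⟨B1, _, j1, ρ1, n1, e'⟩ := spr_eq h A (fun _ : Unit => l + star l) (fun _ => 1) fun _ => by
    rw [map_add, bc_star, map_one]; exact H.hl
  obtain rfl := n1.comp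
  rw [← SAlg.map_map, ← one_sub_st_map] at h1 h2
  obtain ⟨B2, _, j2, ρ2, n2, U, V, k1, k2, k3⟩ := wit_spread n1.lp _ h1 h2 h3
  rw [one_sub_st_map] at k1 k2
  refine ⟨B2, inferInstance, _, ρ2, n1.trans n2, ?_, U, V, k1, k2, k3⟩
  have := congrArg ((A.map j1).bc j2) (e' ())
  rwa [bc_bc, bc_bc, map_add, bc_star, map_one] at this

/-- The step from `R(X)` back to a local ring `R` with finite residue field. -/
theorem run_RX' {R : Type u} [CommRing R] [IsLocalRing R] [Finite (ResidueField R)] {B' : Type u}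
    [CommRing B'] {j : R[X] →+* B'} {ρ' : B' →+* RX R} (hn : Nb (algebraMap R[X] (RX R)) j ρ')
    (D : ℕ) (hD : 0 < D) :
    ∃ (P : R[X]) (k : ℕ) (ψ' : B' →+* AdjoinRoot P), P.Monic ∧ P.natDegree = D * (k + 1) + 1 ∧
      Irreducible (P.map (residue R)) ∧ (ψ'.comp j).comp C = AdjoinRoot.of P := by
  obtain ⟨s, hF, hx⟩ := hn.ext
  have hs : s.map (residue R) ≠ 0 := by
    have := hF.map ρ'
    rw [hn.apply] at this
    exact (isUnit_RX_iff R s).1 this
  obtain ⟨Q, q1, q2, q3⟩ := exists_irreducible_degree (ResidueField R)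
    (D * ((s.map (residue R)).natDegree + 1) + 1) (Nat.succ_ne_zero _)
  have su : Function.Surjective (Polynomial.map (residue R)) :=
    map_surjective _ residue_surjective
  obtain ⟨P, p1, p2, p3⟩ := lifts_and_natDegree_eq_and_monic (f := residue R) (p := Q)
    ((mem_lifts Q).mpr (su Q)) q1
  have hu : IsUnit (AdjoinRoot.mk P s) := by
    obtain ⟨a, b, hab⟩ : IsCoprime Q (s.map (residue R)) :=
      q2.coprime_iff_not_dvd.mpr fun h => absurd (natDegree_le_of_dvd h hs) (by rw [q3]; nlinarith)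
    obtain ⟨a, rfl⟩ := su a
    obtain ⟨b, rfl⟩ := su b
    have := p3.finite_adjoinRoot
    have h1 : a * P + b * s - 1 ∈ mX R := by
      rw [rx_mem_iff, Polynomial.map_sub, Polynomial.map_add, Polynomial.map_mul,
        Polynomial.map_mul, p1, hab, Polynomial.map_one, sub_self]
    have h2 := Ideal.mem_map_of_mem (AdjoinRoot.mk P) h1
    rw [Ideal.map_map, map_sub, map_add, map_mul, map_mul, AdjoinRoot.mk_self, mul_zero, zero_add,
      map_one] at h2
    exact isUnit_of_mul_isUnit_right (isUnit_of_sub_mem_map (R := R) isUnit_one h2)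
  obtain ⟨ψ', e⟩ := hx _ (AdjoinRoot.mk P) hu
  exact ⟨P, _, ψ', p3, p2.trans q3, p1 ▸ q2, by rw [e]; rfl⟩

variable {D : ℕ} {gd : ∀ (T : Type u) [CommRing T] (A : SAlg T N), A.Car → Prop}
  {ad p0 p1 p2 : Pr3.{u} N} (s : Sys D gd ad p0 p1 p2)
include s

theorem Sys.model {B O : Type u} [CommRing B] [CommRing O] {ρ : B →+* O} (h : LocPres ρ 0)
    (A : SAlg O N) {l x : A.Car} {c : O} (hA : gd O A l) (hx : ad O A l x c) :
    ∃ (B' : Type u) (_ : CommRing B') (j : B →+* B') (ρ' : B' →+* O), Nb ρ j ρ' ∧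
      ∃ (A0 : SAlg B' N) (l0 x0 : A0.Car) (c0 : B'), A0.map ρ' = A ∧ ρ' ∘ l0.co = l.co ∧
        ρ' ∘ x0.co = x.co ∧ ρ' c0 = c ∧ QM A0 l0 ∧ ad B' A0 l0 x0 c0 := by
  obtain ⟨B0, _, j0, ρ0, n0, c0, hc⟩ := exists_nb_lift h fun _ : Unit => c
  obtain ⟨B1, _, j1, ρ1, n1, A1, rfl⟩ := spr_model n0.lp A
  obtain rfl := n1.comp
  obtain ⟨B2, _, j2, ρ2, n2, y, hy⟩ := spr_lift n1.lp A1 ![l, x]
  obtain rfl := n2.comp
  obtain rfl := hc ()
  obtain rfl : (A1.map j2).bc ρ2 (y 0) = l := Car.ext (hy 0)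
  obtain rfl : (A1.map j2).bc ρ2 (y 1) = x := Car.ext (hy 1)
  obtain ⟨B3, _, j3, ρ3, n3, q3⟩ := qm_spread n2.lp (A1.map j2) (s.qn _ _ _ hA).toQM
  obtain rfl := n3.comp
  obtain ⟨B4, _, j4, ρ4, n4, q4⟩ := s.ad_spread _ _ ρ3 n3.lp ((A1.map j2).map j3)
    ((A1.map j2).bc j3 (y 0)) ((A1.map j2).bc j3 (y 1)) (j3 (j2 (j1 (c0 ())))) trivial hx
  obtain rfl := n4.comp
  exact ⟨B4, inferInstance, _, ρ4, (((n0.trans n1).trans n2).trans n3).trans n4, _, _, _, _, rfl,
    rfl, rfl, rfl, q3.map j4, q4⟩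

omit s in
/-- The property passes from the datum pulled back along `ψ` to the constant datum. -/
def WP (p0 p1 : Pr3.{u} N) {B R : Type u} [CommRing B] [CommRing R] (A : SAlg B N) (l x : A.Car)
    (c : B) (ρ : B →+* R) : Pr R B := fun T _ i ψ =>
  ∀ (S : Type u) [CommRing S] (χ : T →+* S),
    p0 S (A.map (χ.comp ψ)) (A.bc _ l) (A.bc _ x) (χ (ψ c)) →
      p1 S (A.map (χ.comp (i.comp ρ))) (A.bc _ l) (A.bc _ x) (χ (i (ρ c)))

theorem Sys.wp_near {B R : Type u} [CommRing B] [CommRing R] [IsLocalRing R]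
    [Infinite (ResidueField R)] {A : SAlg B N} {l x : A.Car} {c : B} {ρ : B →+* R}
    (hA : gd R (A.map ρ) (A.bc ρ l)) (hq : QM A l) (h : ad B A l x c) :
    (WP p0 p1 A l x c ρ).Near ρ := by
  intro T _ i ψ σ hi hψ
  have hσ : Function.Surjective σ := fun r => ⟨i r, RingHom.congr_fun hi r⟩
  have hc : σ.comp (i.comp ρ) = σ.comp ψ := by rw [← RingHom.comp_assoc, hi, hψ]; rfl
  have hG : gd T (A.map (i.comp ρ)) (A.bc _ l) := s.gd_bc _ _ i _ _ hA
  obtain ⟨T1, _, f1, σ1, e1, c1, Φ, q1, q2⟩ := exists_etale_qiso (A1 := A.map (i.comp ρ))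
    (A2 := A.map ψ) σ hσ (congrArg A.map hc) (l1 := A.bc _ l) (l2 := A.bc _ l)
    (funext fun a => RingHom.congr_fun hc (l.co a)) (s.qn _ _ _ hG) (hq.map ψ)
  have hk : ∀ b, σ1 (f1 (i (ρ b))) = σ1 (f1 (ψ b)) := fun b =>
    ((RingHom.congr_fun c1 _).trans (RingHom.congr_fun hc b)).trans (RingHom.congr_fun c1 _).symm
  obtain ⟨x2, hx2⟩ := Φ.e.surjective ((A.map ψ).bc f1 (A.bc ψ x))
  obtain ⟨T2, _, f2, σ2, e2, c2, t2⟩ := s.near _ _ (f1.comp i) σ1
    (by rw [← RingHom.comp_assoc, c1, hi]) (A.map ρ) (A.bc ρ l)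
    ((A.map (i.comp ρ)).bc f1 (A.bc _ x)) x2 (f1 (i (ρ c))) (f1 (ψ c)) hA
    (s.ad_bc _ _ (f1.comp (i.comp ρ)) _ _ _ _ h)
    (s.ad_iso _ _ _ Φ _ _ x2 _ q2 (hx2 ▸ s.ad_bc _ _ (f1.comp ψ) _ _ _ _ h))
    (Car.ext ((funext fun a => hk (x.co a)).trans
      ((congrArg (fun z : Car _ => σ1 ∘ z.co) hx2).symm.trans (q1 x2)))) (hk c)
  refine ⟨T2, inferInstance, f2.comp f1, σ2, RingHom.Etale.stableUnderComposition _ _ e1 e2,
    by rw [← RingHom.comp_assoc, c2, c1], fun S _ χ ht => t2 S χ ?_⟩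
  obtain ⟨Ψ, hΨ⟩ := Φ.exists_map (χ.comp f2)
  refine s.p0_iso _ _ _ Ψ (((A.map (i.comp ρ)).map f1).bc (χ.comp f2)
    ((A.map (i.comp ρ)).bc f1 (A.bc _ l)))
    (((A.map ψ).map f1).bc (χ.comp f2) ((A.map ψ).bc f1 (A.bc ψ l)))
    (((A.map (i.comp ρ)).map f1).bc (χ.comp f2) x2) _ ?_ ?_
  · rw [hΨ, ← map_sub]
    exact q2.map _ (bc_star _)
  · rw [hΨ, hx2]; exact ht

omit s in
theorem infinite_residue {R O : Type u} [CommRing R] [IsLocalRing R] [CommRing O]
    [IsLocalRing O] [Infinite (ResidueField R)] (f : R →+* O) : Infinite (ResidueField O) := by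
  choose g hg using residue_surjective (R := R)
  refine Infinite.of_injective (fun a => residue O (f (g a))) fun a b e => ?_
  by_contra hne
  have : IsUnit (g a - g b) := by
    rw [← residue_ne_zero_iff_isUnit, map_sub, hg, hg]; exact sub_ne_zero.2 hne
  have := (residue_ne_zero_iff_isUnit _).2 (this.map f)
  rw [map_sub, map_sub] at this
  exact this (sub_eq_zero.2 e)

theorem Sys.inf {B R : Type u} [CommRing B] [CommRing R] [IsDomain R] [IsLocalRing R]
    [Infinite (ResidueField R)] {ρ : B →+* R} {q : Ideal R} [q.IsPrime]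
    [ValuationRing (Localization.AtPrime q)] (hg : GP ρ q) (K : Type u) [Field K] [Algebra R K]
    [IsFractionRing R K] {A : SAlg R N} {l x : A.Car} {c : R} (hA : gd R A l) (h : ad R A l x c)
    (ht : p0 K (A.map (algebraMap R K)) (A.bc _ l) (A.bc _ x) (algebraMap R K c)) :
    p2 R A l x c := by
  obtain ⟨B1, _, j, ρ1, hn, A0, l0, x0, c0, rfl, hl, hx, rfl, q0, h0⟩ := s.model hg.lp A hA h
  obtain rfl : A0.bc ρ1 l0 = l := Car.ext hl
  obtain rfl : A0.bc ρ1 x0 = x := Car.ext hx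
  have hg1 := hg.nb hn
  let O := Localization.AtPrime q
  have := infinite_residue (algebraMap R O)
  let _ : Algebra O K := IsLocalization.localizationAlgebraOfSubmonoidLe O K q.primeCompl _
    q.primeCompl_le_nonZeroDivisors
  have : IsScalarTower R O K := IsLocalization.localization_isScalarTower_of_submonoid_le O K
    q.primeCompl _ q.primeCompl_le_nonZeroDivisors
  have : IsFractionRing O K :=
    IsFractionRing.isFractionRing_of_isDomain_of_isLocalization q.primeCompl O K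
  rw [IsScalarTower.algebraMap_eq R O K] at ht
  have hO := s.val O K _ _ _ _ (s.gd_bc _ _ (algebraMap R O) _ _ hA) (s.ad_bc _ _ _ _ _ _ _ h) ht
  obtain ⟨B2, _, j2, ρ2, hn2, t2⟩ := s.p0_spread _ _ _ (hg1.lp_at O) A0 l0 x0 c0 trivial hO
  obtain ⟨P, k, ψ, hP, hk, hW⟩ := hg1.run hn2 D s.pos (WP p0 p1 A0 l0 x0 c0 ρ1)
    (fun _ _ _ _ χ _ _ h S _ χ' => h S (χ'.comp χ)) (s.wp_near hA q0 h0)
  exact s.desc _ _ _ _ _ hA h P k hP hk (hW _ (RingHom.id _) (s.p0_bc _ _ ψ _ _ _ _ t2))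

/-- The property descends from the fraction field. -/
theorem Sys.main (V C : Type u) [CommRing V] [IsDomain V] [ValuationRing V] [CommRing C]
    [Algebra V C] [Algebra.Smooth V C] (p : Ideal C) [p.IsPrime] (R : Type u) [CommRing R]
    [IsLocalRing R] [IsDomain R] [Algebra C R] [IsLocalization.AtPrime R p] (K : Type u) [Field K]
    [Algebra R K] [IsFractionRing R K] {A : SAlg R N} {l x : A.Car} {c : R} (hA : gd R A l)
    (h : ad R A l x c) (ht : p0 K (A.map (algebraMap R K)) (A.bc _ l) (A.bc _ x) (algebraMap R K c)) :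
    p2 R A l x c := by
  rcases finite_or_infinite (ResidueField R) with hfin | hinf
  · obtain ⟨B, _, ρ, q, _, _, hg⟩ := exists_gp_RX V C p R
    obtain ⟨K1, _, _, _, j, hj⟩ := exists_frac_RX R K
    have := infinite_residueField_RX R
    have t1 : p0 K1 (A.map (j.comp (algebraMap R K))) (A.bc _ l) (A.bc _ x)
      (j.comp (algebraMap R K) c) := s.p0_bc _ _ j _ _ _ _ ht
    have t2 : p0 K1 (A.map ((algebraMap (RX R) K1).comp
        ((algebraMap R[X] (RX R)).comp Polynomial.C))) (A.bc _ l) (A.bc _ x)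
        ((algebraMap (RX R) K1).comp ((algebraMap R[X] (RX R)).comp Polynomial.C) c) := hj ▸ t1
    have t3 := s.inf hg K1 (s.gd_bc _ _ ((algebraMap R[X] (RX R)).comp Polynomial.C) _ _ hA)
      (s.ad_bc _ _ _ _ _ _ _ h) t2
    have hX := s.gd_bc _ _ Polynomial.C _ _ hA
    obtain ⟨B2, _, j2, ρ2, hn, t4⟩ := s.p2_spread _ _ _ lp_RX (A.map Polynomial.C)
      (A.bc Polynomial.C l) (A.bc Polynomial.C x) (Polynomial.C c) hX t3
    obtain ⟨D', hD, hf⟩ := s.fin R A l x c hA h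
    obtain ⟨P, k, ψ, hP, hk, hi, hψ⟩ := run_RX' hn D' hD
    have t5 : p2 _ (A.map ((ψ.comp j2).comp Polynomial.C)) (A.bc _ l) (A.bc _ x)
      ((ψ.comp j2).comp Polynomial.C c) := s.p2_bc _ _ ψ _ _ _ _ (s.gd_bc _ _ j2 _ _ hX) t4
    exact hf P k hP hi hk (hψ ▸ t5)
  · obtain ⟨B, _, ρ, q, _, _, hg⟩ := exists_gp V C p R
    exact s.inf hg K hA h ht

end Pool.Agent.GSD
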