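import Pool.Agent.P.MP_c1f06d_ag.d.TTrC

open Matrix CliffordAlgebra Pool.Agent.P.MP_c1f06d_ag

universe u

namespace Pool.Agent.GSD

variable {R A : Type u} [CommRing R] [Ring A] [Algebra R A] [StarRing A] {l : A} {d : ℕ}
variable {E : Type u} [CommRing E] [Algebra R E]
variable {T T' : Type u} [CommRing T] [Algebra R T] [CommRing T'] [Algebra R T']

/-- The action in the language of groups. -/
structure PAct (R : Type u) [CommRing R] [Algebra R A] (l : A) (d : ℕ)
    (E : Type u) [CommRing E] [Algebra R E] where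
  act : ∀ (T : Type u) [CommRing T] [Algebra R T] (s : Splitting R l d T),
    Spin s.Q T → (E →ₐ[R] T) → (E →ₐ[R] T)
  act_one : ∀ (T : Type u) [CommRing T] [Algebra R T] (s : Splitting R l d T) (e : E →ₐ[R] T),
    act T s 1 e = e
  act_mul : ∀ (T : Type u) [CommRing T] [Algebra R T] (s : Splitting R l d T)
    (x y : Spin s.Q T) (e : E →ₐ[R] T), act T s (x * y) e = act T s x (act T s y e)
  natural : ∀ (T T' : Type u) [CommRing T] [Algebra R T] [CommRing T'] [Algebra R T']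
    (s : Splitting R l d T) (s' : Splitting R l d T') (f : T →ₐ[R] T')
    (h : Matrix (Fin d) (Fin d) T') (Ψ : s.C →+* s'.C), s.IsHom s' f h → s.Sem s' f h Ψ →
    ∀ (x : Spin s.Q T) (x' : Spin s'.Q T') (e : E →ₐ[R] T),
      Ψ x.val.val = x'.val.val → f.comp (act T s x e) = act T' s' x' (f.comp e)
  trans : ∀ (T : Type u) [CommRing T] [Algebra R T] (s : Splitting R l d T) (e e' : E →ₐ[R] T),
    ∃! x : Spin s.Q T, act T s x e = e'

/-- A point of the subgroup as a point of the functor. -/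
def Splitting.pt (s : Splitting R l d T) (x : Spin s.Q T) : s.Pt :=
  ⟨(toPt x).val, (toPt x).inSpin⟩

theorem IsPairTorsor.nonempty_pAct (h : IsPairTorsor R l d E) : Nonempty (PAct R l d E) := by
  obtain ⟨-, act, h1, h2, h3⟩ := h
  refine ⟨⟨fun T _ _ s x e => act T s (s.pt x) e, fun T _ _ s e => (h1 T s e).1 _ rfl,
    fun T _ _ s x y e => (h1 T s e).2 _ _ _ rfl,
    fun T T' _ _ _ _ s s' f h Ψ a b x x' e hx => h2 T T' s s' f h a _ _ e ⟨Ψ, b.1, b.2, hx⟩,
    fun T _ _ s e e' => ?_⟩⟩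
  obtain ⟨x, hx, hu⟩ := h3 T s e e'
  refine ⟨ofPt (Q := s.Q) ⟨x.val, x.inSpin⟩, hx, fun y hy => ?_⟩
  have := hu _ hy
  subst this
  exact Subtype.ext (Units.ext rfl)

/-- A point of the spin group of the form as a point for the extended splitting. -/
def Splitting.pt0 (s : Splitting R l d R) (x : SpinPt s.Q T) : (s.map (Algebra.ofId R T)).Pt :=
  ⟨x.val, x.inSpin⟩

theorem Splitting.pt0_surj (s : Splitting R l d R) (x : (s.map (Algebra.ofId R T)).Pt) :
    ∃ y, s.pt0 y = x := by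
  obtain ⟨v, hv⟩ := x
  have hv' : InSpin (formOver s.Q T) v := hv
  exact ⟨⟨v, hv'⟩, rfl⟩

theorem Splitting.pt0_inj (s : Splitting R l d R) {y z : SpinPt s.Q T} (h : s.pt0 y = s.pt0 z) :
    y = z := by
  obtain ⟨v, hv⟩ := y
  obtain ⟨w, hw⟩ := z
  have e : v = w := congrArg Splitting.Pt.val h
  subst e
  rfl

theorem Splitting.existsUnique0 (s : Splitting R l d R) {P : (s.map (Algebra.ofId R T)).Pt → Prop}
    (h : ∃! x, P x) : ∃! y, P (s.pt0 y) := by
  obtain ⟨x, hx, hu⟩ := h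
  obtain ⟨y, rfl⟩ := s.pt0_surj x
  exact ⟨y, hx, fun z hz => s.pt0_inj (hu (s.pt0 z) hz)⟩

theorem Splitting.isHom0 (s : Splitting R l d R) (f : T →ₐ[R] T') :
    (s.map (Algebra.ofId R T)).IsHom (s.map (Algebra.ofId R T')) f 1 := by
  refine ⟨?_, fun a => ?_⟩
  · rw [transpose_one, Matrix.one_mul, Matrix.mul_one]
    ext i j
    exact (f.commutes _).symm
  · rw [Matrix.one_mul, Matrix.mul_one]
    ext i j
    exact (f.commutes _).symm

theorem Splitting.sends0 (s : Splitting R l d R) (f : T →ₐ[R] T') (φ : Cl s.Q T →+* Cl s.Q T')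
    (hφ : IsBaseChangeMap s.Q f φ) (x : SpinPt s.Q T) (x' : SpinPt s.Q T') (hx : φ x.val = x'.val) :
    Sends (s.map (Algebra.ofId R T)).form (s.map (Algebra.ofId R T')).form f
      (fun v => (1 : Matrix (Fin d) (Fin d) T') *ᵥ (f ∘ v)) (s.pt0 x).val (s.pt0 x').val :=
  ⟨φ, hφ.1, fun v => (hφ.2 v).trans (congrArg (vec s.Q T') (one_mulVec _).symm), hx⟩

/-- With a splitting over the base ring the torsor is a torsor under the spin group of a form. -/
theorem IsPairTorsor.isSpinTorsor (hE : IsPairTorsor R l d E) (s : Splitting R l d R) :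
    IsSpinTorsor s.Q E := by
  obtain ⟨hf, act, h1, h2, h3⟩ := hE
  refine ⟨hf, fun T _ _ x e => act T (s.map (Algebra.ofId R T)) (s.pt0 x) e, ?_, ?_, ?_⟩
  · intro T _ _ e
    exact ⟨fun x hx => (h1 T _ e).1 (s.pt0 x) hx,
      fun x y z hz => (h1 T _ e).2 (s.pt0 x) (s.pt0 y) (s.pt0 z) hz⟩
  · intro T T' _ _ _ _ f φ hφ x x' e hx
    exact h2 T T' (s.map (Algebra.ofId R T)) (s.map (Algebra.ofId R T')) f 1 (s.isHom0 f)
      (s.pt0 x) (s.pt0 x') e (s.sends0 f φ hφ x x' hx)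
  · intro T _ _ e e'
    exact s.existsUnique0 (P := fun x => act T (s.map (Algebra.ofId R T)) x e = e') (h3 T _ e e')

namespace PAct

open Splitting

variable (τ : PAct R l d E) (s : Splitting R l d T) (s' : Splitting R l d T')

theorem nat (f : T →ₐ[R] T') (x : Spin s.Q T) (x' : Spin s'.Q T') (e : E →ₐ[R] T)
    (hx : x'.val.val = s.trC s' f x.val.val) :
    f.comp (τ.act T s x e) = τ.act T' s' x' (f.comp e) := by
  obtain ⟨U, _, _, t, j, h, h', Ψ, Φ, a1, a2, a3, a4, hj, -⟩ := s.exists_test s' f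
  obtain ⟨y, hy⟩ := exists_spin_trC t (j.comp f) x
  have e1 := τ.natural T U s t (j.comp f) h Ψ a1 a2 x y e (by rw [hy, a2.trC_eq a1 x.2.1])
  have e2 := τ.natural T' U s' t j h' Φ a3 a4 x' y (f.comp e) (by
    rw [hy, ← a4.trC_eq a3 x'.2.1, hx, trC_trC x.2.1])
  exact AlgHom.ext fun z => hj (DFunLike.congr_fun (e1.trans e2.symm) z)

/-- The element of `Spin` that moves `e` to `e'`. -/
noncomputable def gam (e e' : E →ₐ[R] T) : Spin s.Q T := (τ.trans T s e e').exists.choose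

/-- Its matrix. -/
noncomputable def gmat (e e' : E →ₐ[R] T) : Matrix (Fin d) (Fin d) T :=
  (spin_ind (τ.gam s e e')).choose

theorem act_gam (e e' : E →ₐ[R] T) : τ.act T s (τ.gam s e e') e = e' :=
  (τ.trans T s e e').exists.choose_spec

theorem gam_eq {e e' : E →ₐ[R] T} {x : Spin s.Q T} (h : τ.act T s x e = e') : τ.gam s e e' = x :=
  (τ.trans T s e e').unique (τ.act_gam s e e') h

theorem gam_self (e : E →ₐ[R] T) : τ.gam s e e = 1 := τ.gam_eq s (τ.act_one T s e)

theorem gam_mul (e e' e'' : E →ₐ[R] T) : τ.gam s e' e'' * τ.gam s e e' = τ.gam s e e'' :=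
  (τ.gam_eq s (by rw [τ.act_mul, τ.act_gam, τ.act_gam])).symm

theorem gam_mul' (e e' e'' : E →ₐ[R] T) :
    (τ.gam s e' e'').val.val * (τ.gam s e e').val.val = (τ.gam s e e'').val.val := by
  rw [← τ.gam_mul s e e' e'']; rfl

theorem gam_even (e e' : E →ₐ[R] T) : (τ.gam s e e').val.val ∈ even s.q := (τ.gam s e e').2.1

theorem gam_map (f : T →ₐ[R] T') (e e' : E →ₐ[R] T) :
    s.trC s' f (τ.gam s e e').val.val = (τ.gam s' (f.comp e) (f.comp e')).val.val := by
  obtain ⟨x', hx'⟩ := exists_spin_trC s' f (τ.gam s e e')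
  have h := τ.nat s s' f _ x' e hx'
  rw [τ.act_gam] at h
  rw [← hx', τ.gam_eq s' h.symm]

theorem gmat_ind (e e' : E →ₐ[R] T) : Ind s.Q (τ.gam s e e').val.val (τ.gmat s e e') :=
  (spin_ind (τ.gam s e e')).choose_spec.1

theorem gmat_carries (e e' : E →ₐ[R] T) : Carries (τ.gmat s e e') s.Q s.Q :=
  (spin_ind (τ.gam s e e')).choose_spec.2

theorem gmat_self (e : E →ₐ[R] T) : τ.gmat s e e = 1 := by
  have h := τ.gmat_ind s e e
  rw [τ.gam_self] at h
  exact Ind.unique isUnit_one h ind_one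

theorem gmat_mul (e e' e'' : E →ₐ[R] T) : τ.gmat s e' e'' * τ.gmat s e e' = τ.gmat s e e'' := by
  have h := (τ.gmat_ind s e' e'').mul (τ.gmat_ind s e e')
  rw [τ.gam_mul'] at h
  exact Ind.unique (Units.isUnit _) h (τ.gmat_ind s e e'')

theorem gmat_map (f : T →ₐ[R] T') (e e' : E →ₐ[R] T) :
    s.tr s' f (τ.gmat s e e') = τ.gmat s' (f.comp e) (f.comp e') := by
  have h := trC_ind (s' := s') (f := f) (τ.gam_even s e e') (τ.gmat_ind s e e')
  rw [τ.gam_map] at h
  exact Ind.unique (Units.isUnit _) h (τ.gmat_ind _ _ _)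

end PAct

end Pool.Agent.GSD
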