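import Pool.Agent.P.MP_c1f06d_ag.d.TDesc

open Matrix TensorProduct Pool.Agent.P.MP_c1f06d_ag

universe u

namespace Pool.Agent.GSD

variable {R A : Type u} [CommRing R] [Ring A] [Algebra R A] [StarRing A] {l : A} {d : ℕ}
variable {T T' S : Type u} [CommRing T] [Algebra R T] [CommRing T'] [Algebra R T']
  [CommRing S] [Algebra R S]

/-- `Z` is a generalised inverse of `a ↦ a - star a`. -/
def Zed (Z : A →ₗ[R] A) : Prop := ∀ a, Z (a - star a) - star (Z (a - star a)) = a - star a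

/-- The part above the diagonal as a linear map. -/
def upL (T : Type u) [CommRing T] (d : ℕ) : Matrix (Fin d) (Fin d) T →ₗ[T] Matrix (Fin d) (Fin d) T where
  toFun W := Matrix.of fun i j => if i < j then W i j else 0
  map_add' W W' := by ext i j; by_cases h : i < j <;> simp [h]
  map_smul' c W := by ext i j; by_cases h : i < j <;> simp [h]

theorem upL_sub (Y : Matrix (Fin d) (Fin d) T) :
    upL T d (Y - Yᵀ) - (upL T d (Y - Yᵀ))ᵀ = Y - Yᵀ := by
  ext i j
  rcases lt_trichotomy i j with h | h | h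
  · simp [upL, h, not_lt.2 h.le]
  · subst h; simp [upL]
  · simp [upL, h, not_lt.2 h.le]

namespace Splitting

variable (s : Splitting R l d T)

/-- The map `X ↦ X - X*`. -/
noncomputable def dL : Matrix (Fin d) (Fin d) T →ₗ[T] Matrix (Fin d) (Fin d) T where
  toFun X := X - s.adj X
  map_add' X Y := by rw [adj_add]; abel
  map_smul' c X := by rw [adj_smul, smul_sub]; rfl

theorem dL_apply (X : Matrix (Fin d) (Fin d) T) : s.dL X = X - s.adj X := rfl

theorem B_mul_dL (X : Matrix (Fin d) (Fin d) T) : s.B * s.dL X = s.B * X - (s.B * X)ᵀ := by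
  rw [dL_apply, Matrix.mul_sub, B_mul_adj, transpose_mul, B_symm]

theorem exists_zed [Module.Free R A] [Module.Finite R A] [Module.FaithfullyFlat R S]
    (s : Splitting R l d S) (hs : ∀ (r : R) (a : A), star (r • a) = r • star a) :
    ∃ Z : A →ₗ[R] A, Zed Z := by
  let D : A →ₗ[R] A :=
    { toFun := fun a => a - star a
      map_add' := fun a b => by rw [star_add]; abel
      map_smul' := fun c a => by rw [hs, smul_sub]; rfl }
  have hD : ∀ a, s.dL (s.φ a) = s.φ (D a) := fun a => by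
    rw [dL_apply, adj_φ, ← map_sub]; rfl
  have he : ∀ (Z : A →ₗ[R] A) a, s.baseChange.endHom Z (s.φ a) = s.φ (Z a) :=
    s.baseChange.endHom_comp_apply
  let Z' : Matrix (Fin d) (Fin d) S →ₗ[S] Matrix (Fin d) (Fin d) S :=
    (LinearMap.mulLeft S s.B⁻¹).comp ((upL S d).comp (LinearMap.mulLeft S s.B))
  obtain ⟨Z, hZ⟩ := ff_range s.baseChange.end s.baseChange.end
    ((LinearMap.mulLeft R D).comp (LinearMap.mulRight R D))
    ((LinearMap.mulLeft S s.dL).comp (LinearMap.mulRight S s.dL))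
    (fun Z => s.baseChange.algHom_ext _ _ fun a => by
      change s.dL (s.baseChange.endHom Z (s.dL (s.φ a))) = s.baseChange.endHom _ (s.φ a)
      rw [hD, he, hD, he]; rfl) (v := D) (m' := Z')
    (s.baseChange.algHom_ext _ _ fun a => by
      change s.dL (s.B⁻¹ * upL S d (s.B * s.dL (s.φ a))) = s.baseChange.endHom _ (s.φ a)
      rw [he, ← hD]
      apply s.B_cancel
      rw [B_mul_dL, ← Matrix.mul_assoc, mul_nonsing_inv _ s.isUnit_det_B, Matrix.one_mul, B_mul_dL,
        upL_sub])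
  exact ⟨Z, fun a => LinearMap.congr_fun hZ a⟩

variable {Z : A →ₗ[R] A}

theorem zed (hZ : Zed Z) (X : Matrix (Fin d) (Fin d) T) :
    s.dL (s.baseChange.endHom Z (s.dL X)) = s.dL X := by
  induction X using s.ind with
  | h1 a =>
    have he : ∀ a, s.baseChange.endHom Z (s.φ a) = s.φ (Z a) := s.baseChange.endHom_comp_apply Z
    rw [dL_apply s (s.φ a), adj_φ, ← map_sub, he, dL_apply, adj_φ, ← map_sub, hZ]
  | h2 c X h => rw [map_smul, map_smul, map_smul, h]
  | h3 X Y h h' => rw [map_add, map_add, map_add, h, h']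

theorem tr_dL (s' : Splitting R l d T') (f : T →ₐ[R] T') (X : Matrix (Fin d) (Fin d) T) :
    s.tr s' f (s.dL X) = s'.dL (s.tr s' f X) := by
  rw [dL_apply, map_sub, tr_adj, dL_apply]

/-- A matrix that descends up to alternating elements comes from the base up to such. -/
theorem desc_alt [Module.Free R A] [Module.Finite R A] [Module.FaithfullyFlat R S]
    (s : Splitting R l d S) (hZ : Zed Z) {X : Matrix (Fin d) (Fin d) S}
    (H : ∀ (T : Type u) [CommRing T] [Algebra R T] (s' : Splitting R l d T) (a b : S →ₐ[R] T),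
      s'.AltM (s.tr s' a X - s.tr s' b X)) : ∃ a, s.AltM (X - s.φ a) := by
  obtain ⟨θ, hθ⟩ := s.desc_mat (X := X - s.dL (s.baseChange.endHom Z X)) fun T _ _ s' a b => by
    obtain ⟨Y, hY⟩ := H T s' a b
    have h1 := s'.zed hZ Y
    rw [dL_apply s' Y, ← hY, map_sub, map_sub] at h1
    rw [map_sub, map_sub, tr_dL, tr_dL, (s.isExt_tr s' a).endHom s.baseChange,
      (s.isExt_tr s' b).endHom s.baseChange, sub_eq_sub_iff_sub_eq_sub, h1]
  exact ⟨θ, _, by rw [hθ, sub_sub_cancel, dL_apply]⟩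

theorem altM_iff {X : Matrix (Fin d) (Fin d) T} : s.AltM X ↔ IsAltM (s.B * X) := by
  constructor
  · rintro ⟨Y, rfl⟩
    exact ⟨_, s.B_mul_dL Y⟩
  · rintro ⟨W, hW⟩
    refine ⟨s.B⁻¹ * W, s.B_cancel ?_⟩
    rw [← dL_apply, B_mul_dL, ← Matrix.mul_assoc, mul_nonsing_inv _ s.isUnit_det_B, Matrix.one_mul,
      hW]

theorem carries_iff {g : Matrix (Fin d) (Fin d) T} :
    Carries g s.Q s.Q ↔ s.AltM (s.adj g * s.φ l * g - s.φ l) := by
  rw [altM_iff, Matrix.mul_sub, ← Matrix.mul_assoc, ← Matrix.mul_assoc, B_mul_adj,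
    Matrix.mul_assoc gᵀ, ← Q_eq, isAltM_iff, Pool.Agent.P.MP_c1f06d_ag.carries_iff]
  refine and_comm.trans (and_congr ?_ (forall_congr' fun i => ?_))
  · rw [transpose_sub, neg_sub, sub_eq_sub_iff_add_eq_add, add_comm, eq_comm, add_comm s.Q, eq_comm]
  · rw [Matrix.sub_apply, sub_eq_zero]

variable {s}

theorem AltM.add {X Y : Matrix (Fin d) (Fin d) T} (h : s.AltM X) (h' : s.AltM Y) :
    s.AltM (X + Y) := by
  obtain ⟨a, rfl⟩ := h
  obtain ⟨b, rfl⟩ := h'
  exact ⟨a + b, by rw [adj_add]; abel⟩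

theorem AltM.neg {X : Matrix (Fin d) (Fin d) T} (h : s.AltM X) : s.AltM (-X) := by
  obtain ⟨a, rfl⟩ := h
  exact ⟨s.adj a, by rw [adj_adj, neg_sub]⟩

theorem AltM.conj {X : Matrix (Fin d) (Fin d) T} (h : s.AltM X) (g : Matrix (Fin d) (Fin d) T) :
    s.AltM (s.adj g * X * g) := by
  obtain ⟨a, rfl⟩ := h
  exact ⟨s.adj g * a * g, by
    rw [adj_mul, adj_mul, adj_adj, Matrix.mul_sub, Matrix.sub_mul, Matrix.mul_assoc _ (s.adj a)]⟩

theorem AltM.tr {X : Matrix (Fin d) (Fin d) T} (h : s.AltM X) (s' : Splitting R l d T')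
    (f : T →ₐ[R] T') : s'.AltM (s.tr s' f X) := by
  obtain ⟨a, rfl⟩ := h
  exact ⟨s.tr s' f a, by rw [map_sub, tr_adj]⟩

theorem AltM.add_adj {X : Matrix (Fin d) (Fin d) T} (h : s.AltM X) : X + s.adj X = 0 := by
  obtain ⟨a, rfl⟩ := h
  rw [adj_sub, adj_adj]; abel

end Splitting

section Ext

variable {F B : Type u} [CommRing F] [Algebra R F] [Ring B] [StarRing B] [Algebra R B] [Algebra F B]
  [IsScalarTower R F B] {i : A →ₐ[R] B} {s : Splitting R l d T} {f : F →ₐ[R] T}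
  {τ : B →+* Matrix (Fin d) (Fin d) T} {Z : A →ₗ[R] A}

theorem IsExt.altM (hi : GenB F i) (h : IsExt i s f τ) {b : B} (hb : Alt b) : s.AltM (τ b) := by
  obtain ⟨c, rfl⟩ := hb
  exact ⟨τ c, by rw [map_sub, h.map_star hi]⟩

theorem IsExt.alt (hi : GenB F i) (h : IsExt i s f τ) (hτ : Function.Injective τ) (hZ : Zed Z)
    {b : B} (hb : s.AltM (τ b)) : Alt b := by
  obtain ⟨Y, hY⟩ := hb
  refine ⟨hi.bc.endHom Z b, hτ ?_⟩
  rw [map_sub, h.map_star hi, h.endHom hi.bc, ← s.dL_apply, hY, ← s.dL_apply, s.zed hZ]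

end Ext

theorem genB_id (hs : ∀ (r : R) (a : A), star (r • a) = r • star a) : GenB R (AlgHom.id R A) :=
  ⟨fun _ => rfl, hs, bc_id⟩

end Pool.Agent.GSD
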