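import Pool.Agent.P.MP_c1f06d_ag.d.TTr

open Matrix CliffordAlgebra Pool.Agent.P.MP_c1f06d_ag

universe u

namespace Pool.Agent.GSD

variable {R A : Type u} [CommRing R] [Ring A] [Algebra R A] [StarRing A] {l : A} {d : ℕ}
variable {T T' T'' : Type u} [CommRing T] [Algebra R T] [CommRing T'] [Algebra R T']
  [CommRing T''] [Algebra R T'']

namespace Splitting

/-- The form of a splitting. -/
noncomputable abbrev q (s : Splitting R l d T) : QuadraticForm T (Fin d → T) := formOver s.Q T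

/-- Its Clifford algebra. -/
abbrev C (s : Splitting R l d T) : Type u := Cl s.Q T

/-- `Ψ` is `f` on scalars and `v ↦ h f(v)` on vectors. -/
def Sem (s : Splitting R l d T) (s' : Splitting R l d T') (f : T →ₐ[R] T')
    (h : Matrix (Fin d) (Fin d) T') (Ψ : s.C →+* s'.C) : Prop :=
  (∀ c, Ψ (algebraMap T _ c) = algebraMap T' _ (f c)) ∧ ∀ v, Ψ (ι s.q v) = ι s'.q (h *ᵥ (f ∘ v))

variable {s : Splitting R l d T} {s' : Splitting R l d T'} {s'' : Splitting R l d T''}
  {f : T →ₐ[R] T'} {h : Matrix (Fin d) (Fin d) T'} {Ψ : s.C →+* s'.C}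

theorem q_apply (v : Fin d → T) : s.q v = qv s.Q v := formOver_eq_qv v

theorem IsHom.exists_sem (H : s.IsHom s' f h) : ∃ Ψ, s.Sem s' f h Ψ := by
  let θ : (Fin d → T) →ₛₗ[f.toRingHom] (Fin d → T') :=
    { toFun := fun v => h *ᵥ (f ∘ v)
      map_add' := fun x y => by
        rw [← mulVec_add]; congr 1; funext i; simp
      map_smul' := fun a x => by
        rw [← mulVec_smul]; congr 1; funext i; simp }
  exact exists_semi (q := s.q) (q' := s'.q) f.toRingHom θ fun v => by
    rw [q_apply, q_apply]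
    change qv s'.Q (h *ᵥ (f ∘ v)) = _
    rw [qv_mulVec, H.1]
    exact qv_map s.Q f.toRingHom v

theorem Sem.smul (H : s.Sem s' f h Ψ) (c : T) (x : s.C) : Ψ (c • x) = f c • Ψ x :=
  semi_smul (f := f.toRingHom) H.1 c x

theorem Sem.reverse (H : s.Sem s' f h Ψ) (x : s.C) : Ψ (reverse x) = reverse (Ψ x) :=
  semi_reverse (f := f.toRingHom) H.1 H.2 x

theorem Sem.involute (H : s.Sem s' f h Ψ) (x : s.C) : Ψ (involute x) = involute (Ψ x) := by
  induction x using CliffordAlgebra.induction with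
  | algebraMap r => rw [AlgHom.commutes, H.1, AlgHom.commutes]
  | ι v => rw [involute_ι, map_neg, H.2, involute_ι]
  | mul a b ha hb => rw [map_mul, map_mul, map_mul, map_mul, ha, hb]
  | add a b ha hb => rw [map_add, map_add, map_add, map_add, ha, hb]

theorem Sem.injective (H : s.Sem s' f h Ψ) (hh : IsUnit h.det) (hf : Function.Injective f) :
    Function.Injective Ψ := by
  rw [injective_iff_map_eq_zero]
  have h0 : ∀ i (x : s.C), Ψ x = 0 → Ψ (contractLeft (Q := s.q) (LinearMap.proj i) x) = 0 := by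
    intro i x hx
    rw [semi_ctr (f := f.toRingHom) H.1 H.2 (d' := (LinearMap.proj i).comp (h⁻¹).mulVecLin), hx,
      map_zero]
    intro v
    change (h⁻¹ *ᵥ (h *ᵥ (f ∘ v))) i = _
    rw [mulVec_mulVec, nonsing_inv_mul _ hh, one_mulVec]; rfl
  have key : ∀ t : Finset (Fin d), ∀ x ∈ cliffSub s.Q T t, Ψ x = 0 → x = 0 := by
    intro t
    induction t using Finset.induction_on with
    | empty =>
      intro x hx h1
      rw [cliffSub, Finset.coe_empty, Set.image_empty, Algebra.adjoin_empty, Algebra.mem_bot] at hx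
      obtain ⟨c, rfl⟩ := hx
      rw [H.1, ← map_zero (algebraMap T' s'.C), ← map_zero f] at h1
      rw [hf (cl_algebraMap_injective h1), map_zero]
    | insert i t hi ih =>
      intro x hx h1
      obtain ⟨a, ha, b, hb, e⟩ := cliff_split i t hx
      have h2 := h0 i x h1
      rw [e, map_add, cliff_kill hi ha, contractLeft_ι_mul, cliff_kill hi hb] at h2
      have h3 : b = 0 := ih b hb (by simpa using h2)
      rw [h3, mul_zero, add_zero] at e
      exact ih x (e ▸ ha) h1
  exact fun x hx => key Finset.univ x (cliff_univ x) hx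

theorem tr_mulVec (H : s.IsHom s' f h) (g : Matrix (Fin d) (Fin d) T) (v : Fin d → T) :
    s.tr s' f g *ᵥ (h *ᵥ (f ∘ v)) = h *ᵥ (f ∘ (g *ᵥ v)) := by
  rw [mulVec_mulVec, H.tr_mul, ← mulVec_mulVec]
  congr 1
  funext i
  exact (RingHom.map_mulVec f.toRingHom g v i).symm

theorem Sem.ind (H : s.Sem s' f h Ψ) (H' : s.IsHom s' f h) {x : s.C}
    {g : Matrix (Fin d) (Fin d) T} (hx : Ind s.Q x g) : Ind s'.Q (Ψ x) (s.tr s' f g) := by
  intro v
  have key : ∀ w : Fin d → T, CliffordAlgebra.involute (Ψ x) * ι s'.q (h *ᵥ (f ∘ w)) =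
      ι s'.q (s.tr s' f g *ᵥ (h *ᵥ (f ∘ w))) * Ψ x := fun w => by
    have h1 := congrArg Ψ (hx w)
    rwa [map_mul, map_mul, H.involute, H.2, H.2, ← tr_mulVec H'] at h1
  have e : v = ∑ i, (h⁻¹ *ᵥ v) i • (h *ᵥ (f ∘ (Pi.single i 1 : Fin d → T))) := by
    have e1 : ∀ i, (f ∘ (Pi.single i 1 : Fin d → T) : Fin d → T') = Pi.single i 1 := fun i => by
      funext j
      by_cases hj : j = i
      · subst hj; simp
      · simp [Pi.single_eq_of_ne hj]
    simp only [e1, ← mulVec_smul]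
    rw [← mulVec_sum, cliff_sum_single, mulVec_mulVec, mul_nonsing_inv _ H'.isUnit_det, one_mulVec]
  rw [e]
  simp only [map_sum, map_smul, Finset.mul_sum, mul_smul_comm, key, mulVec_sum, mulVec_smul,
    Finset.sum_mul, smul_mul_assoc]

theorem Sem.ind_of (H : s.Sem s' f h Ψ) (H' : s.IsHom s' f h) (hΨ : Function.Injective Ψ)
    {x : s.C} {g : Matrix (Fin d) (Fin d) T} (hx : Ind s'.Q (Ψ x) (s.tr s' f g)) :
    Ind s.Q x g := fun v => hΨ (by
  rw [map_mul, map_mul, H.involute, H.2, H.2, ← tr_mulVec H']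
  exact hx _)

/-- The canonical linear map from the algebra to the even Clifford algebra. -/
noncomputable def cm (s : Splitting R l d T) (X : Matrix (Fin d) (Fin d) T) : s.C :=
  ∑ i, ∑ j, (X * s.B⁻¹) i j • (ι s.q (Pi.single i 1) * ι s.q (Pi.single j 1))

theorem cm_add (X Y : Matrix (Fin d) (Fin d) T) : s.cm (X + Y) = s.cm X + s.cm Y := by
  simp only [cm, Matrix.add_mul, Matrix.add_apply, add_smul, Finset.sum_add_distrib]

theorem cm_smul (c : T) (X : Matrix (Fin d) (Fin d) T) : s.cm (c • X) = c • s.cm X := by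
  simp only [cm, Matrix.smul_mul, Matrix.smul_apply, smul_eq_mul, Finset.smul_sum, smul_smul]

theorem cm_zero : s.cm 0 = 0 := by simp [cm]

theorem cm_even (X : Matrix (Fin d) (Fin d) T) : s.cm X ∈ even s.q :=
  Subalgebra.sum_mem _ fun _ _ => Subalgebra.sum_mem _ fun _ _ =>
    Subalgebra.smul_mem _ (ι_mul_ι_mem_evenOdd_zero _ _ _) _

theorem cm_vec (v w : Fin d → T) : s.cm (vecMulVec v w * s.B) = ι s.q v * ι s.q w := by
  rw [cm, Matrix.mul_assoc, mul_nonsing_inv _ s.isUnit_det_B, Matrix.mul_one]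
  conv_rhs => rw [← cliff_sum_single v, ← cliff_sum_single w]
  simp only [map_sum, map_smul, Finset.sum_mul, Finset.mul_sum, smul_mul_assoc, mul_smul_comm,
    vecMulVec_apply, Finset.smul_sum, smul_smul]
  rw [Finset.sum_comm]
  simp only [mul_comm]

theorem tr_vec (H : s.IsHom s' f h) (v w : Fin d → T) :
    s.tr s' f (vecMulVec v w * s.B) = vecMulVec (h *ᵥ (f ∘ v)) (h *ᵥ (f ∘ w)) * s'.B := by
  refine ((isUnit_iff_isUnit_det _).2 H.isUnit_det).mul_right_cancel ?_
  have e : (vecMulVec v w).map f = vecMulVec (f ∘ v) (f ∘ w) := by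
    ext i j; simp [vecMulVec_apply]
  rw [H.tr_mul, Matrix.map_mul, ← H.B_eq, e, ← Matrix.mul_assoc, ← Matrix.mul_assoc,
    ← Matrix.mul_assoc, mul_vecMulVec, vecMulVec_mul, vecMul_transpose]

theorem Sem.cm (H : s.Sem s' f h Ψ) (H' : s.IsHom s' f h) (X : Matrix (Fin d) (Fin d) T) :
    Ψ (s.cm X) = s'.cm (s.tr s' f X) := by
  have e : X = ∑ i, ∑ j, (X * s.B⁻¹) i j • (vecMulVec (Pi.single i 1) (Pi.single j 1) * s.B) := by
    simp only [← Matrix.smul_mul, ← Finset.sum_mul]
    have : ∑ i, ∑ j, (X * s.B⁻¹) i j • vecMulVec (Pi.single i (1 : T)) (Pi.single j 1) =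
        X * s.B⁻¹ := by
      ext a b
      simp [Matrix.sum_apply, vecMulVec_apply, Pi.single_apply]
    rw [this, Matrix.mul_assoc, nonsing_inv_mul _ s.isUnit_det_B, Matrix.mul_one]
  let P : Matrix (Fin d) (Fin d) T → Prop := fun X => Ψ (s.cm X) = s'.cm (s.tr s' f X)
  have hadd : ∀ X Y, P X → P Y → P (X + Y) := fun X Y hX hY => by
    simp only [P, cm_add, map_add] at hX hY ⊢
    rw [hX, hY]
  have h0 : P 0 := by simp only [P, cm_zero, map_zero]
  change P X
  rw [e]
  refine Finset.sum_induction _ P hadd h0 fun i _ => Finset.sum_induction _ P hadd h0 fun j _ => ?_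
  simp only [P]
  rw [cm_smul, tr_smul, cm_smul, H.smul, cm_vec, tr_vec H', cm_vec, map_mul, H.2, H.2]

end Splitting

end Pool.Agent.GSD
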