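import Pool.Agent.P.MP_c1f06d_ag.d.TTr
import Pool.Agent.P.MP_c1f06d_ag.Tors2

open Matrix TensorProduct Pool.Agent.P.MP_c1f06d_ag

universe u

namespace Pool.Agent.GSD

theorem ff_range {R S M N M' N' : Type u} [CommRing R] [CommRing S] [Algebra R S]
    [Module.FaithfullyFlat R S] [AddCommGroup M] [Module R M] [AddCommGroup N] [Module R N]
    [AddCommGroup M'] [Module R M'] [Module S M'] [IsScalarTower R S M']
    [AddCommGroup N'] [Module R N'] [Module S N'] [IsScalarTower R S N']
    {jM : M →ₗ[R] M'} {jN : N →ₗ[R] N'} (hM : IsBaseChange S jM) (hN : IsBaseChange S jN)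
    (L : M →ₗ[R] N) (L' : M' →ₗ[S] N') (hL : ∀ m, L' (jM m) = jN (L m)) {v : N} {m' : M'}
    (hv : L' m' = jN v) : ∃ m, L m = v := by
  let g := hN.lift ((TensorProduct.mk R S (N ⧸ LinearMap.range L) 1).comp (LinearMap.range L).mkQ)
  have hg : ∀ n, g (jN n) = (1 : S) ⊗ₜ[R] (LinearMap.range L).mkQ n := fun n => hN.lift_eq _ n
  have h0 : g.comp L' = 0 := hM.algHom_ext _ _ fun m => by
    rw [LinearMap.comp_apply, hL, hg, LinearMap.zero_apply,
      (Submodule.Quotient.mk_eq_zero _).2 (LinearMap.mem_range_self L m) |> fun h =>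
        show (LinearMap.range L).mkQ (L m) = 0 from h, tmul_zero]
  have h1 := LinearMap.congr_fun h0 m'
  rw [LinearMap.comp_apply, hv, hg, LinearMap.zero_apply,
    Module.FaithfullyFlat.one_tmul_eq_zero_iff] at h1
  exact (Submodule.Quotient.mk_eq_zero _).1 h1

variable {R A : Type u} [CommRing R] [Ring A] [Algebra R A] [StarRing A] {l : A} {d : ℕ}
variable {T T' S : Type u} [CommRing T] [Algebra R T] [CommRing T'] [Algebra R T']
  [CommRing S] [Algebra R S]

/-- `τ` extends the representation of the splitting `s` to the base change `B`. -/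
structure IsExt {F B : Type u} [CommRing F] [Algebra R F] [Ring B] [Algebra R B] [Algebra F B]
    (i : A →ₐ[R] B) (s : Splitting R l d T) (f : F →ₐ[R] T)
    (τ : B →+* Matrix (Fin d) (Fin d) T) : Prop where
  smul : ∀ c b, τ (c • b) = f c • τ b
  eq : ∀ a, τ (i a) = s.φ a

theorem Splitting.isExt_tr (s : Splitting R l d T) (s' : Splitting R l d T') (f : T →ₐ[R] T') :
    IsExt s.φ s' f (s.tr s' f) := ⟨s.tr_smul s' f, s.tr_φ s' f⟩

section Ext

variable {F B : Type u} [CommRing F] [Algebra R F] [Ring B] [Algebra R B] [Algebra F B]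
  [IsScalarTower R F B] {i : A →ₐ[R] B} {s : Splitting R l d T} {f : F →ₐ[R] T}
  {τ : B →+* Matrix (Fin d) (Fin d) T} {ι : Type*}

theorem exists_isExt (hb : IsBaseChange F i.toLinearMap) (s : Splitting R l d T) (f : F →ₐ[R] T) :
    ∃ τ, IsExt i s f τ :=
  let ⟨τ, h1, h2⟩ := exists_ext hb f s.φ; ⟨τ, h1, h2⟩

omit [IsScalarTower R F B] in
theorem IsExt.tr (h : IsExt i s f τ) (s' : Splitting R l d T') (g : T →ₐ[R] T') :
    IsExt i s' (g.comp f) ((s.tr s' g).comp τ) :=
  ⟨fun c b => by rw [RingHom.comp_apply, h.smul, s.tr_smul]; rfl,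
    fun a => by rw [RingHom.comp_apply, h.eq, s.tr_φ]⟩

theorem IsExt.unique (hb : IsBaseChange F i.toLinearMap) {τ' : B →+* Matrix (Fin d) (Fin d) T}
    (h : IsExt i s f τ) (h' : IsExt i s f τ') (b : B) : τ b = τ' b := by
  induction b using bc_ind hb with
  | h1 a => rw [h.eq, h'.eq]
  | h2 c b hb => rw [h.smul, h'.smul, hb]
  | h3 b b' hb hb' => rw [map_add, map_add, hb, hb']

theorem IsExt.repr (hb : IsBaseChange F i.toLinearMap) (h : IsExt i s f τ)
    (u : Module.Basis ι R A) (b : B) (k : ι) :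
    (s.baseChange.basis u).repr (τ b) k = f ((hb.basis u).repr b k) := by
  induction b using bc_ind hb with
  | h1 a =>
    rw [h.eq]
    exact (s.baseChange.basis_repr_comp_apply u a k).trans
      ((f.commutes _).symm.trans (congrArg f (hb.basis_repr_comp_apply u a k).symm))
  | h2 c b hb => rw [h.smul, map_smul, map_smul, Finsupp.smul_apply, Finsupp.smul_apply, hb,
      smul_eq_mul, smul_eq_mul, map_mul]
  | h3 b b' hb hb' => rw [map_add, map_add, map_add, Finsupp.add_apply, Finsupp.add_apply, hb, hb',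
      map_add]

theorem IsExt.endHom (hb : IsBaseChange F i.toLinearMap) (h : IsExt i s f τ) (Z : A →ₗ[R] A)
    (b : B) : τ (hb.endHom Z b) = s.baseChange.endHom Z (τ b) := by
  induction b using bc_ind hb with
  | h1 a =>
    rw [h.eq]
    exact (congrArg τ (hb.endHom_comp_apply Z a)).trans
      ((h.eq _).trans (s.baseChange.endHom_comp_apply Z a).symm)
  | h2 c b hb => rw [map_smul, h.smul, h.smul, map_smul, hb]
  | h3 b b' hb hb' => rw [map_add, map_add, map_add, map_add, hb, hb']

theorem IsExt.map_star [StarRing B] (hi : GenB F i) (h : IsExt i s f τ) (b : B) :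
    τ (star b) = s.adj (τ b) := by
  induction b using bc_ind hi.bc with
  | h1 a => rw [← hi.map_star, h.eq, h.eq, s.adj_φ]
  | h2 c b hb => rw [hi.star_smul, h.smul, h.smul, s.adj_smul, hb]
  | h3 b b' hb hb' => rw [star_add, map_add, map_add, s.adj_add, hb, hb']

variable [Module.Free R A]

theorem IsExt.injective (hb : IsBaseChange F i.toLinearMap) (h : IsExt i s f τ)
    (hf : Function.Injective f) : Function.Injective τ := fun b b' e => by
  refine (hb.basis (Module.Free.chooseBasis R A)).ext_elem fun k => hf ?_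
  rw [← h.repr hb, ← h.repr hb, e]

theorem IsExt.exists_eq [Module.Finite R A] (hb : IsBaseChange F i.toLinearMap) (h : IsExt i s f τ)
    {X : Matrix (Fin d) (Fin d) T}
    (H : ∀ k, ∃ c, f c = (s.baseChange.basis (Module.Free.chooseBasis R A)).repr X k) :
    ∃ b, τ b = X := by
  choose c hc using H
  refine ⟨(hb.basis (Module.Free.chooseBasis R A)).equivFun.symm c,
    (s.baseChange.basis (Module.Free.chooseBasis R A)).ext_elem fun k => ?_⟩
  rw [h.repr hb, ← hc, ← Module.Basis.equivFun_apply, LinearEquiv.apply_symm_apply]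

end Ext

omit [StarRing A] in
theorem bc_id : IsBaseChange R (AlgHom.id R A).toLinearMap :=
  IsBaseChange.ofEquiv (LinearEquiv.refl R A)

theorem Splitting.isExt_φ (s : Splitting R l d T) :
    IsExt (AlgHom.id R A) s (Algebra.ofId R T) s.φ.toRingHom :=
  ⟨fun c b => (map_smul s.φ c b).trans (algebraMap_smul T c _).symm, fun _ => rfl⟩

namespace Splitting

/-- Alternating elements for the adjoint involution. -/
def AltM (s : Splitting R l d T) (X : Matrix (Fin d) (Fin d) T) : Prop := ∃ Y, X = Y - s.adj Y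

variable [Module.Free R A] [Module.Finite R A]

omit [Module.Finite R A] in
theorem repr_eq (s : Splitting R l d T) {X : Matrix (Fin d) (Fin d) T} {a b : T →ₐ[R] T'}
    (H : s.tr (s.map a) a X = s.tr (s.map a) b X) (k) :
    a ((s.baseChange.basis (Module.Free.chooseBasis R A)).repr X k) =
      b ((s.baseChange.basis (Module.Free.chooseBasis R A)).repr X k) := by
  rw [← (s.isExt_tr (s.map a) a).repr s.baseChange, ← (s.isExt_tr (s.map a) b).repr s.baseChange, H]

theorem desc_mat [Module.FaithfullyFlat R S] (s : Splitting R l d S) {X : Matrix (Fin d) (Fin d) S}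
    (H : ∀ (T : Type u) [CommRing T] [Algebra R T] (s' : Splitting R l d T) (a b : S →ₐ[R] T),
      s.tr s' a X = s.tr s' b X) : ∃ a, s.φ a = X :=
  s.isExt_φ.exists_eq bc_id fun k => desc_base _ fun T _ _ a b => s.repr_eq (H T _ a b) k

omit [Module.Finite R A] in
theorem φ_injective [Module.FaithfullyFlat R S] (s : Splitting R l d S) : Function.Injective s.φ :=
  s.isExt_φ.injective bc_id (FaithfulSMul.algebraMap_injective R S)

theorem isUnit_of_φ [Module.FaithfullyFlat R S] (s : Splitting R l d S) {a : A}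
    (h : IsUnit (s.φ a)) : IsUnit a := by
  obtain ⟨X, hX⟩ := h
  obtain ⟨b, hb⟩ := s.desc_mat (X := ↑X⁻¹) fun T _ _ s' f g => by
    have e : ∀ f : S →ₐ[R] T, s.tr s' f ↑X⁻¹ * s'.φ a = 1 := fun f => by
      rw [← s.tr_φ s' f, ← hX, ← map_mul, Units.inv_mul, map_one]
    exact (Matrix.left_inv_eq_left_inv (e f) (e g))
  exact ⟨⟨a, b, s.φ_injective (by rw [map_mul, hb, ← hX, Units.mul_inv, map_one]),
    s.φ_injective (by rw [map_mul, hb, ← hX, Units.inv_mul, map_one])⟩, rfl⟩

end Splitting

theorem IsExt.desc [Module.Free R A] [Module.Finite R A] {K B : Type u} [Field K] [Algebra R K]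
    [Ring B] [Algebra R B] [Algebra K B] [IsScalarTower R K B] {i : A →ₐ[R] B}
    [Nontrivial (K ⊗[R] S)] (hb : IsBaseChange K i.toLinearMap) {s : Splitting R l d (K ⊗[R] S)}
    {τ : B →+* Matrix (Fin d) (Fin d) (K ⊗[R] S)}
    (h : IsExt i s (Algebra.TensorProduct.includeLeft : K →ₐ[R] K ⊗[R] S) τ)
    {X : Matrix (Fin d) (Fin d) (K ⊗[R] S)}
    (H : ∀ (T : Type u) [CommRing T] [Algebra R T] (s' : Splitting R l d T)
      (a b : K ⊗[R] S →ₐ[R] T),
      a.comp (Algebra.TensorProduct.includeLeft : K →ₐ[R] K ⊗[R] S) =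
        b.comp (Algebra.TensorProduct.includeLeft : K →ₐ[R] K ⊗[R] S) →
      s.tr s' a X = s.tr s' b X) : ∃ b, τ b = X :=
  h.exists_eq hb fun k => desc_field _ fun T _ _ a b hab => s.repr_eq (H T _ a b hab) k

end Pool.Agent.GSD
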