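import Mathlib

open Matrix

universe u

namespace Pool.Agent.GSD

theorem ss_of_prime {D : Type*} [Ring D] [IsArtinianRing D]
    (h : ∀ a b : D, (∀ c, a * c * b = 0) → a = 0 ∨ b = 0) : IsSemisimpleRing D := by
  rw [IsArtinianRing.isSemisimpleRing_iff_jacobson, eq_bot_iff]
  intro b hb
  by_contra hb0
  obtain ⟨N, hN⟩ := IsSemiprimaryRing.isNilpotent (R := D)
  induction N with
  | zero =>
    rw [Submodule.pow_zero, Ideal.one_eq_top] at hN
    exact hb0 (show b ∈ (0 : Ideal D) from hN ▸ Submodule.mem_top)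
  | succ N ih =>
    refine ih (eq_bot_iff.2 fun a ha => (h a b fun c => ?_).resolve_right hb0)
    have := Ideal.mul_mem_mul ha (Ideal.mul_mem_left _ c hb)
    rw [← Submodule.pow_succ, hN] at this
    rw [mul_assoc]; exact this

section
variable {κ n : Type*} [Field κ] [Fintype n] [DecidableEq n]

theorem mat_prime_of_span {s : Set (Matrix n n κ)} (hs : ∀ X, X ∈ Submodule.span κ s)
    {a b : Matrix n n κ} (h : ∀ c ∈ s, a * c * b = 0) : a = 0 ∨ b = 0 := by
  have h1 : ∀ c, a * c * b = 0 := fun c => by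
    induction hs c using Submodule.span_induction with
    | mem x hx => exact h x hx
    | zero => simp
    | add x y _ _ hx hy => rw [mul_add, add_mul, hx, hy, add_zero]
    | smul t x _ hx => rw [mul_smul_comm, smul_mul_assoc, hx, smul_zero]
  by_contra hne
  push Not at hne
  obtain ⟨i, j, hij⟩ : ∃ i j, a i j ≠ 0 := by
    by_contra hn
    push Not at hn
    exact hne.1 (by ext i j; exact hn i j)
  refine hne.2 ?_
  ext k l
  have := congrFun (congrFun (h1 (single j k 1)) i) l
  rw [Matrix.mul_assoc, Matrix.mul_apply, Finset.sum_eq_single j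
    (fun p _ hp => by rw [single_mul_apply_of_ne (h := hp), mul_zero]) (by simp),
    single_mul_apply_same, one_mul] at this
  exact (mul_eq_zero.1 this).resolve_left hij

theorem exists_unit_field (D : Subring (Matrix n n κ)) [IsSemisimpleRing D]
    (M M' : AddSubgroup (Matrix n n κ))
    (hM : ∀ X, X ∈ Submodule.span κ (M : Set (Matrix n n κ)))
    (hM' : ∀ X, X ∈ Submodule.span κ (M' : Set (Matrix n n κ)))
    (h1 : ∀ y ∈ M', ∀ x ∈ M, y * x ∈ D) (h2 : ∀ x ∈ M, ∀ a ∈ D, x * a ∈ M)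
    (h3 : ∀ y ∈ M', ∀ a ∈ D, a * y ∈ M') : ∃ x ∈ M, IsUnit x := by
  obtain ⟨_, ⟨x, hx, rfl⟩, hmin⟩ := (wellFounded_lt (α := Submodule κ (Matrix n n κ))).has_min
    ((fun x => LinearMap.ker (LinearMap.mulLeft κ x)) '' (M : Set (Matrix n n κ)))
    ⟨_, 0, M.zero_mem, rfl⟩
  refine ⟨x, hx, ?_⟩
  let I : Ideal D :=
    { carrier := {a | ∃ y ∈ M', y * x = a}
      add_mem' := by
        rintro a b ⟨y, hy, e⟩ ⟨z, hz, e'⟩
        exact ⟨y + z, add_mem hy hz, by rw [add_mul, e, e']; rfl⟩
      zero_mem' := ⟨0, zero_mem _, zero_mul _⟩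
      smul_mem' := by
        rintro c a ⟨y, hy, e⟩
        exact ⟨c * y, h3 y hy c c.2, by rw [mul_assoc, e]; rfl⟩ }
  obtain ⟨e, he, hI⟩ := IsSemisimpleRing.ideal_eq_span_idempotent I
  obtain ⟨y, hy, hye⟩ : e ∈ I := hI ▸ Ideal.subset_span rfl
  have hxyx : x * (y * x) = x := by
    rcases mat_prime_of_span hM' (a := 1) (b := x * (y * x) - x) (fun z hz => by
      have : (⟨z * x, h1 z hz x hx⟩ : D) ∈ Ideal.span {e} := hI ▸ ⟨z, hz, rfl⟩
      obtain ⟨c, hc⟩ := Ideal.mem_span_singleton'.1 this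
      have hc' : (c : Matrix n n κ) * e = z * x := congrArg Subtype.val hc
      have he' : (e : Matrix n n κ) * e = e := congrArg Subtype.val he.eq
      rw [one_mul, mul_sub, ← mul_assoc, ← hc', hye, mul_assoc, he', sub_self]) with h | h
    · have : Subsingleton (Matrix n n κ) := subsingleton_of_zero_eq_one h.symm
      exact Subsingleton.elim _ _
    · exact sub_eq_zero.1 h
  by_contra hu
  have hne : ¬ ∀ m ∈ (M : Set (Matrix n n κ)), (1 - x * y) * m * (1 - y * x) = 0 := fun h => by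
    rcases mat_prime_of_span hM h with h | h
    · exact hu (IsUnit.of_mul_eq_one y (sub_eq_zero.1 h).symm)
    · exact hu (IsUnit.of_mul_eq_one_right y (sub_eq_zero.1 h).symm)
  push Not at hne
  obtain ⟨m, hm, hz⟩ := hne
  have hzM : (1 - x * y) * m * (1 - y * x) ∈ M := by
    refine h2 _ ?_ _ (sub_mem (one_mem _) (h1 y hy x hx))
    rw [sub_mul, one_mul, mul_assoc]
    exact sub_mem hm (h2 x hx _ (h1 y hy m hm))
  have hx0 : x * (1 - y * x) = 0 := by rw [mul_sub, mul_one, hxyx, sub_self]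
  refine hmin _ ⟨x + (1 - x * y) * m * (1 - y * x), add_mem hx hzM, rfl⟩
    (lt_of_le_of_ne (fun w hw => ?_) fun h => hz ?_)
  · have hw' : (x + (1 - x * y) * m * (1 - y * x)) * w = 0 := hw
    have e1 : x * y * (x + (1 - x * y) * m * (1 - y * x)) = x := by
      have : x * y * (1 - x * y) = 0 := by
        rw [mul_sub, mul_one, ← mul_assoc, mul_assoc x y x, hxyx, sub_self]
      rw [mul_add, ← mul_assoc, ← mul_assoc, this, zero_mul, zero_mul, add_zero, mul_assoc, hxyx]
    change x * w = 0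
    rw [← e1, mul_assoc, hw', mul_zero]
  · have h4 : 1 - y * x ∈ LinearMap.ker (LinearMap.mulLeft κ x) := hx0
    beta_reduce at h
    rw [← h] at h4
    have h5 : (x + (1 - x * y) * m * (1 - y * x)) * (1 - y * x) = 0 := h4
    have h6 : (1 - y * x) * (1 - y * x) = 1 - y * x := by
      rw [sub_mul, one_mul, mul_assoc, hx0, mul_zero, sub_zero]
    rwa [add_mul, hx0, zero_add, mul_assoc, h6] at h5

end

/-- A module of matrices that spans, with an inverse module, contains an invertible matrix. -/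
theorem exists_unit_of_span {R S A : Type u} [CommRing R] [IsLocalRing R] [CommRing S]
    [IsLocalRing S] [Algebra R S] [IsLocalHom (algebraMap R S)] [Ring A] [Algebra R A]
    [Module.Finite R A] {d : ℕ} (φ : A →ₐ[R] Matrix (Fin d) (Fin d) S)
    (hφ : ∀ X, X ∈ Submodule.span S (Set.range φ))
    (M M' : AddSubgroup (Matrix (Fin d) (Fin d) S))
    (hM : ∀ X, X ∈ Submodule.span S (M : Set (Matrix (Fin d) (Fin d) S)))
    (hM' : ∀ X, X ∈ Submodule.span S (M' : Set (Matrix (Fin d) (Fin d) S)))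
    (h1 : ∀ y ∈ M', ∀ x ∈ M, ∃ a, φ a = y * x)
    (h2 : ∀ x ∈ M, ∀ a, x * φ a ∈ M) (h3 : ∀ y ∈ M', ∀ a, φ a * y ∈ M') :
    ∃ x ∈ M, IsUnit x := by
  let κ := IsLocalRing.ResidueField S
  let k := IsLocalRing.ResidueField R
  let π : Matrix (Fin d) (Fin d) S →ₐ[R] Matrix (Fin d) (Fin d) κ :=
    (IsScalarTower.toAlgHom R S κ).mapMatrix
  have hsp : ∀ s : Set (Matrix (Fin d) (Fin d) S), (∀ X, X ∈ Submodule.span S s) →
      ∀ X, X ∈ Submodule.span κ (π '' s) := fun s hs X => by
    choose Y hY using fun i j => IsLocalRing.residue_surjective (X i j)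
    obtain rfl : π (Matrix.of Y) = X := by ext i j; exact hY i j
    generalize Matrix.of Y = Z
    induction hs Z using Submodule.span_induction with
    | mem x hx => exact Submodule.subset_span ⟨x, hx, rfl⟩
    | zero => rw [map_zero]; exact zero_mem _
    | add x y _ _ hx hy => rw [map_add]; exact add_mem hx hy
    | smul t x _ hx =>
      have : π (t • x) = algebraMap S κ t • π x := by
        ext i j; exact map_mul (algebraMap S κ) t (x i j)
      rw [this]; exact Submodule.smul_mem _ _ hx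
  let D : Subalgebra k (Matrix (Fin d) (Fin d) κ) :=
    { (π.comp φ).range.toSubsemiring with
      algebraMap_mem' := fun c => by
        obtain ⟨t, rfl⟩ := IsLocalRing.residue_surjective c
        exact ⟨algebraMap R A t, ((π.comp φ).commutes t).trans
          (IsScalarTower.algebraMap_apply R k _ t)⟩ }
  have hfin : Module.Finite R D := Module.Finite.of_surjective
    ({ toFun := fun a => ⟨π (φ a), a, rfl⟩
       map_add' := fun a b => Subtype.ext (by simp)
       map_smul' := fun t a => Subtype.ext (by simp) } : A →ₗ[R] D)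
    (by rintro ⟨_, a, rfl⟩; exact ⟨a, rfl⟩)
  have : Module.Finite k D := Module.Finite.of_restrictScalars_finite R k D
  have : IsArtinianRing D := IsArtinianRing.of_finite k D
  have hss : IsSemisimpleRing D := ss_of_prime fun a b h =>
    (mat_prime_of_span (hsp _ hφ) (a := a.1) (b := b.1) (by
      rintro _ ⟨_, ⟨c, rfl⟩, rfl⟩
      exact congrArg Subtype.val (h ⟨π (φ c), c, rfl⟩))).imp Subtype.ext Subtype.ext
  have : IsSemisimpleRing D.toSubring := hss
  obtain ⟨_, ⟨x, hx, rfl⟩, hu⟩ := exists_unit_field D.toSubring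
    (M.map π.toRingHom.toAddMonoidHom) (M'.map π.toRingHom.toAddMonoidHom) (hsp _ hM) (hsp _ hM')
    (by
      rintro _ ⟨y, hy, rfl⟩ _ ⟨x, hx, rfl⟩
      obtain ⟨a, ha⟩ := h1 y hy x hx
      exact ⟨a, (congrArg π ha).trans (map_mul π y x)⟩)
    (by
      rintro _ ⟨x, hx, rfl⟩ _ ⟨a, rfl⟩
      exact ⟨x * φ a, h2 x hx a, map_mul π x (φ a)⟩)
    (by
      rintro _ ⟨y, hy, rfl⟩ _ ⟨a, rfl⟩
      exact ⟨φ a * y, h3 y hy a, map_mul π (φ a) y⟩)
  refine ⟨x, hx, ?_⟩
  rw [isUnit_iff_isUnit_det] at hu ⊢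
  refine (isUnit_map_iff (IsLocalRing.residue S) _).1 ?_
  rw [RingHom.map_det]
  exact hu

end Pool.Agent.GSD
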