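import Pool.Agent.P.MP_c1f06d_ag.d.TAlt
import Pool.Agent.P.MP_c1f06d_ag.d.TAct
import Pool.Agent.P.MP_c1f06d_ag.d.TUnit

open Matrix TensorProduct Pool.Agent.P.MP_c1f06d_ag

universe u

namespace Pool.Agent.GSD

variable {R A : Type u} [CommRing R] [Ring A] [Algebra R A] [StarRing A] {l : A} {d : ℕ}
variable {T T' S : Type u} [CommRing T] [Algebra R T] [CommRing T'] [Algebra R T']
  [CommRing S] [Algebra R S] {E : Type u} [CommRing E] [Algebra R E]

namespace Splitting

variable (s : Splitting R l d T)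

theorem φ_add_star : s.φ l + s.φ (star l) = 1 := by
  apply s.B_cancel
  have h := s.B_add
  rw [transpose_mul, B_symm] at h
  rw [Matrix.mul_add, Matrix.mul_one]
  exact (congrArg _ (s.adjoint l)).trans h

theorem adj_mul_self {x θ : Matrix (Fin d) (Fin d) T} (h : s.AltM (s.adj x * s.φ l * x - θ)) :
    s.adj x * x = θ + s.adj θ := by
  have e := h.add_adj
  rw [adj_sub, adj_mul, adj_mul, adj_adj, adj_φ, sub_add_sub_comm, sub_eq_zero, Matrix.mul_assoc,
    ← Matrix.mul_add, ← Matrix.add_mul, φ_add_star, Matrix.one_mul] at e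
  exact e

theorem adj_mul_of_carries {g : Matrix (Fin d) (Fin d) T} (h : Carries g s.Q s.Q) :
    s.adj g * g = 1 := by
  rw [s.adj_mul_self (s.carries_iff.1 h), adj_φ, φ_add_star]

theorem isUnit_adj {x : Matrix (Fin d) (Fin d) T} (h : IsUnit x) : IsUnit (s.adj x) := by
  obtain ⟨y, hy⟩ := h.exists_left_inv
  exact IsUnit.of_mul_eq_one (s.adj y) (by rw [← adj_mul, hy, adj_one])

/-- The matrix of left multiplication. -/
noncomputable def lm {N : ℕ} (u : Module.Basis (Fin N) R A) (g : Matrix (Fin d) (Fin d) T) :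
    Matrix (Fin N) (Fin N) T :=
  LinearMap.toMatrix (s.baseChange.basis u) (s.baseChange.basis u) (LinearMap.mulLeft T g)

theorem lm_tr {N : ℕ} (u : Module.Basis (Fin N) R A) (s' : Splitting R l d T') (f : T →ₐ[R] T')
    (g : Matrix (Fin d) (Fin d) T) : (s.lm u g).map f = s'.lm u (s.tr s' f g) := by
  ext i j
  rw [Matrix.map_apply, lm, lm, LinearMap.toMatrix_apply, LinearMap.toMatrix_apply,
    ← (s.isExt_tr s' f).repr s.baseChange, LinearMap.mulLeft_apply, LinearMap.mulLeft_apply, map_mul,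
    IsBaseChange.basis_apply, IsBaseChange.basis_apply]
  exact congrArg (fun y => (s'.baseChange.basis u).repr (_ * y) i) (s.tr_φ s' f _)

end Splitting

namespace PAct

open Splitting

variable (τ : PAct R l d E) (s : Splitting R l d S) (e : E →ₐ[R] S)

/-- `X` trivialises the cocycle of matrices. -/
def Coc (X : Matrix (Fin d) (Fin d) S) : Prop :=
  ∀ (T : Type u) [CommRing T] [Algebra R T] (s' : Splitting R l d T) (a b : S →ₐ[R] T),
    τ.gmat s' (a.comp e) (b.comp e) * s.tr s' a X = s.tr s' b X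

variable {τ s e} in
theorem Coc.mul_φ {X : Matrix (Fin d) (Fin d) S} (h : τ.Coc s e X) (x : A) :
    τ.Coc s e (X * s.φ x) := fun T _ _ s' a b => by
  rw [map_mul, map_mul, tr_φ, tr_φ, ← Matrix.mul_assoc, h]

/-- The trivialising matrices. -/
def cocSub : AddSubgroup (Matrix (Fin d) (Fin d) S) where
  carrier := {X | τ.Coc s e X}
  add_mem' hx hy := fun T _ _ s' a b => by rw [map_add, map_add, Matrix.mul_add, hx, hy]
  zero_mem' := fun T _ _ s' a b => by rw [map_zero, map_zero, Matrix.mul_zero]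
  neg_mem' hx := fun T _ _ s' a b => by rw [map_neg, map_neg, Matrix.mul_neg, hx]

theorem exists_span [IsLocalRing S] [Module.Flat R S] {N : ℕ} (u : Module.Basis (Fin N) R A) :
    ∃ x : Fin N → Matrix (Fin d) (Fin d) S, (∀ j, τ.Coc s e (x j)) ∧
      ∀ X, ∃ c : Fin N → S, X = ∑ j, c j • x j := by
  have hind : ∀ (T : Type u) [CommRing T] [Algebra R T] (s' : Splitting R l d T) (a b : S →ₐ[R] T),
      (s.map a).lm u (τ.gmat (s.map a) (a.comp e) (b.comp e)) =
        s'.lm u (τ.gmat s' (a.comp e) (b.comp e)) := fun T _ _ s' a b => by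
    have := (s.map a).lm_tr u s' (AlgHom.id R T) (τ.gmat (s.map a) (a.comp e) (b.comp e))
    rw [τ.gmat_map] at this
    exact this
  obtain ⟨H, hH, hh⟩ := h90 (R := R) (S := S) (n := N)
    (fun T _ _ a b => (s.map a).lm u (τ.gmat (s.map a) (a.comp e) (b.comp e)))
    (fun T T' _ _ _ _ f a b => by rw [lm_tr _ u (s.map (f.comp a)), τ.gmat_map]; rfl)
    (fun T _ _ a => by
      rw [τ.gmat_self, lm, LinearMap.mulLeft_one, LinearMap.toMatrix_id])
    (fun T _ _ a b c => by
      rw [hind T (s.map a) b c, ← τ.gmat_mul _ (a.comp e) (b.comp e) (c.comp e), lm, lm, lm,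
        LinearMap.mulLeft_mul, LinearMap.toMatrix_comp _ ((s.map a).baseChange.basis u)])
  have hx : ∀ j k, (s.baseChange.basis u).repr
      ((s.baseChange.basis u).equivFun.symm (Hᵀ j)) k = H k j := fun j k => by
    rw [← Module.Basis.equivFun_apply, LinearEquiv.apply_symm_apply]; rfl
  refine ⟨fun j => (s.baseChange.basis u).equivFun.symm (Hᵀ j), fun j T _ _ s' a b => ?_,
    fun X => ⟨H⁻¹ *ᵥ (s.baseChange.basis u).equivFun X, ?_⟩⟩
  · refine (s'.baseChange.basis u).ext_elem fun k => ?_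
    have h1 := congrFun (congrFun (hh T a b) k) j
    rw [hind T s'] at h1
    have h2 := congrFun (LinearMap.toMatrix_mulVec_repr (s'.baseChange.basis u)
      (s'.baseChange.basis u) (LinearMap.mulLeft T (τ.gmat s' (a.comp e) (b.comp e)))
      (s.tr s' a ((s.baseChange.basis u).equivFun.symm (Hᵀ j)))) k
    rw [LinearMap.mulLeft_apply] at h2
    rw [← h2, (s.isExt_tr s' b).repr s.baseChange, hx]
    refine Eq.trans ?_ h1
    rw [Matrix.mul_apply, mulVec, dotProduct]
    refine Finset.sum_congr rfl fun m _ => ?_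
    rw [(s.isExt_tr s' a).repr s.baseChange, hx]; rfl
  · apply (s.baseChange.basis u).equivFun.injective
    simp only [map_sum, map_smul, LinearEquiv.apply_symm_apply]
    conv_lhs => rw [← one_mulVec ((s.baseChange.basis u).equivFun X), ← mul_nonsing_inv _ hH,
      ← mulVec_mulVec]
    funext k
    simp [mulVec, dotProduct, Finset.sum_apply, mul_comm]

theorem exists_unit [IsLocalRing R] [IsLocalRing S] [Module.FaithfullyFlat R S] [Module.Free R A]
    [Module.Finite R A] : ∃ h, τ.Coc s e h ∧ IsUnit h := by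
  have := isLocalHom_of_faithfullyFlat (R := R) (S := S)
  obtain ⟨x, hx, hs⟩ := τ.exists_span s e (Module.finBasis R A)
  let ad : Matrix (Fin d) (Fin d) S →+ Matrix (Fin d) (Fin d) S := AddMonoidHom.mk' s.adj s.adj_add
  refine exists_unit_of_span s.φ (fun X => ?_) (τ.cocSub s e) ((τ.cocSub s e).comap ad)
    (fun X => ?_) (fun X => ?_) (fun y hy x hx => s.desc_mat fun T _ _ s' a b => ?_)
    (fun x hx a => Coc.mul_φ hx a) fun y hy a => ?_
  · induction X using s.ind with
    | h1 a => exact Submodule.subset_span ⟨a, rfl⟩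
    | h2 c X h => exact Submodule.smul_mem _ _ h
    | h3 X Y h h' => exact add_mem h h'
  · obtain ⟨c, rfl⟩ := hs X
    exact Submodule.sum_mem _ fun j _ => Submodule.smul_mem _ _ (Submodule.subset_span (hx j))
  · obtain ⟨c, hc⟩ := hs (s.adj X)
    rw [← s.adj_adj X, hc]
    change ad _ ∈ _
    rw [map_sum]
    refine Submodule.sum_mem _ fun j _ => ?_
    change s.adj _ ∈ _
    rw [adj_smul]
    refine Submodule.smul_mem _ _ (Submodule.subset_span ?_)
    change τ.Coc s e (s.adj (s.adj (x j)))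
    rw [adj_adj]; exact hx j
  · have h1 := congrArg s'.adj ((show τ.Coc s e (s.adj y) from hy) T s' a b)
    rw [tr_adj, tr_adj, adj_mul, adj_adj, adj_adj] at h1
    rw [map_mul, map_mul, ← h1, ← (show τ.Coc s e x from hx) T s' a b, Matrix.mul_assoc,
      ← Matrix.mul_assoc (s'.adj _), s'.adj_mul_of_carries (τ.gmat_carries _ _ _), Matrix.one_mul]
  · change τ.Coc s e (s.adj (s.φ a * y))
    rw [adj_mul, adj_φ]
    exact Coc.mul_φ hy _

section Gen

variable {K B : Type u} [Field K] [Algebra R K] [Ring B] [Algebra R B] [Algebra K B]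
  [IsScalarTower R K B] {i : A →ₐ[R] B} [Module.Free R A] [Module.Finite R A]
  [Nontrivial (K ⊗[R] S)] {t : Splitting R l d (K ⊗[R] S)}
  {σ : B →+* Matrix (Fin d) (Fin d) (K ⊗[R] S)}

variable {τ s e} in
theorem Coc.descK {h : Matrix (Fin d) (Fin d) S} (hh : τ.Coc s e h)
    (hb : IsBaseChange K i.toLinearMap)
    (hσ : IsExt i t (Algebra.TensorProduct.includeLeft : K →ₐ[R] K ⊗[R] S) σ) (eK : E →ₐ[R] K) :
    ∃ x, σ x = τ.gmat t ((Algebra.TensorProduct.includeRight : S →ₐ[R] K ⊗[R] S).comp e)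
        ((Algebra.TensorProduct.includeLeft : K →ₐ[R] K ⊗[R] S).comp eK) *
      s.tr t (Algebra.TensorProduct.includeRight : S →ₐ[R] K ⊗[R] S) h := by
  set j : K →ₐ[R] K ⊗[R] S := Algebra.TensorProduct.includeLeft with hj
  set r : S →ₐ[R] K ⊗[R] S := Algebra.TensorProduct.includeRight with hr
  refine hσ.desc hb fun T _ _ s' a b hab => ?_
  have e1 : ∀ a : K ⊗[R] S →ₐ[R] T, t.tr s' a (τ.gmat t (r.comp e) (j.comp eK) * s.tr t r h) =
      τ.gmat s' ((a.comp r).comp e) ((a.comp j).comp eK) * s.tr s' (a.comp r) h := by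
    intro a
    rw [map_mul, τ.gmat_map, tr_tr]; rfl
  rw [e1, e1, ← hh T s' (a.comp r) (b.comp r), ← Matrix.mul_assoc, τ.gmat_mul, hab]

end Gen

theorem exists_frame [IsLocalRing R] [IsLocalRing S] [Module.FaithfullyFlat R S] [Module.Free R A]
    [Module.Finite R A] (hs : ∀ (r : R) (a : A), star (r • a) = r • star a)
    (hl : l + star l = 1) {K B : Type u} [Field K] [Algebra R K] [Ring B] [StarRing B] [Algebra R B]
    [Algebra K B] [IsScalarTower R K B] {i : A →ₐ[R] B} (hi : GenB K i)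
    (HA : ∀ θ : A, IsUnit (θ + star θ) → (∃ x : B, IsUnit x ∧ Alt (star x * i l * x - i θ)) →
      ∃ x : A, IsUnit x ∧ Alt (star x * l * x - θ)) (eK : E →ₐ[R] K) :
    ∃ h, τ.Coc s e h ∧ Carries h s.Q s.Q := by
  obtain ⟨h, hh, hu⟩ := τ.exists_unit s e
  obtain ⟨Z, hZ⟩ := s.exists_zed hs
  have key : ∀ (T : Type u) [CommRing T] [Algebra R T] (s' : Splitting R l d T)
      (g y : Matrix (Fin d) (Fin d) T), Carries g s'.Q s'.Q →
      s'.AltM (s'.adj (g * y) * s'.φ l * (g * y) - s'.adj y * s'.φ l * y) := by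
    intro T _ _ s' g y hg
    have := (s'.carries_iff.1 hg).conj y
    rw [Matrix.mul_sub, Matrix.sub_mul] at this
    simpa only [adj_mul, Matrix.mul_assoc] using this
  obtain ⟨θ, hθ⟩ := s.desc_alt hZ (X := s.adj h * s.φ l * h) fun T _ _ s' a b => by
    have := (key T s' _ (s.tr s' a h) (τ.gmat_carries s' (a.comp e) (b.comp e))).neg
    rw [hh, neg_sub] at this
    simpa only [map_mul, tr_adj, tr_φ] using this
  have hθu : IsUnit (θ + star θ) := s.isUnit_of_φ (by
    rw [map_add, ← adj_φ, ← s.adj_mul_self hθ]; exact (s.isUnit_adj hu).mul hu)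
  have hnt : Nontrivial (K ⊗[R] S) := inferInstance
  set j : K →ₐ[R] K ⊗[R] S := Algebra.TensorProduct.includeLeft with hj
  set r : S →ₐ[R] K ⊗[R] S := Algebra.TensorProduct.includeRight with hr
  obtain ⟨σ, hσ⟩ := exists_isExt hi.bc (s.map r) j
  have hinj : Function.Injective σ := hσ.injective hi.bc (RingHom.injective j.toRingHom)
  obtain ⟨x, hx⟩ := hh.descK hi.bc hσ eK
  have hxa : Alt (star x * i l * x - i θ) := by
    refine hσ.alt hi hinj hZ ?_
    have h1 := (key _ (s.map r) _ (s.tr (s.map r) r h)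
      (τ.gmat_carries (s.map r) (r.comp e) (j.comp eK))).add (hθ.tr (s.map r) r)
    rw [← hx] at h1
    simpa only [map_sub, map_mul, tr_adj, tr_φ, hσ.map_star hi, hσ.eq, sub_add_sub_cancel] using h1
  have hxu : IsUnit x := by
    have h1 := hxa.add_star
    rw [star_sub, star_mul, star_mul, star_star, sub_add_sub_comm, sub_eq_zero, mul_assoc,
      ← mul_add, ← add_mul, ← hi.map_star, ← hi.map_star, ← map_add, ← map_add, hl, map_one,
      one_mul] at h1
    obtain ⟨y, hy⟩ := (h1 ▸ hθu.map i : IsUnit (star x * x)).exists_left_inv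
    rw [← mul_assoc] at hy
    exact ⟨⟨x, y * star x, hinj (by
      rw [map_mul, map_one, mul_eq_one_comm, ← map_mul, hy, map_one]), hy⟩, rfl⟩
  obtain ⟨x0, ⟨x0, rfl⟩, h0⟩ := HA θ hθu ⟨x, hxu, hxa⟩
  refine ⟨h * s.φ ↑x0⁻¹, hh.mul_φ _, s.carries_iff.2 ?_⟩
  have h1 := (hθ.add (s.isExt_φ.altM (genB_id hs) h0).neg).conj (s.φ ↑x0⁻¹)
  have h2 : s.adj (s.φ ↑x0⁻¹) * s.φ (star ↑x0 * l * ↑x0) * s.φ ↑x0⁻¹ = s.φ l := by
    rw [adj_φ, ← map_mul, ← map_mul, ← mul_assoc, ← mul_assoc, ← star_mul, Units.mul_inv, star_one,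
      one_mul, Units.mul_inv_cancel_right]
  change s.AltM (_ * (_ + -s.φ _) * _) at h1
  rw [map_sub, neg_sub, sub_add_sub_cancel, Matrix.mul_sub, Matrix.sub_mul, h2] at h1
  simpa only [adj_mul, Matrix.mul_assoc] using h1

end PAct

end Pool.Agent.GSD
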