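import Pool.Agent.P.MP_c1f06d_ag.d.Pf

open Matrix

universe u

namespace Pool.Agent.GSD

theorem exists_iso_loc {T : Type u} [CommRing T] {d : ℕ} (hd : d ≠ 0)
    {B1 B2 g g' : Matrix (Fin d) (Fin d) T} (h2 : IsUnit B2.det) {c μ : T}
    (hg : g' * g = c • (1 : Matrix (Fin d) (Fin d) T)) (hμ : gᵀ * B2 * g = μ • B1) :
    ∃ (T' : Type u) (_ : CommRing T') (f : T →+* T') (w : T'), w * w * f μ = 1 ∧
      ∀ z, f z = 0 → ∃ N : ℕ, c ^ N * z = 0 := by
  have hc : IsUnit (algebraMap T (Localization.Away c) c) := IsLocalization.Away.algebraMap_isUnit c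
  have e1 := congrArg det hg
  have e2 := congrArg det hμ
  rw [det_mul, det_smul, det_one, mul_one] at e1
  rw [det_mul, det_mul, det_transpose, det_smul, Fintype.card_fin] at e2
  have h3 : IsUnit (algebraMap T (Localization.Away c) g.det) := by
    have := hc.pow (Fintype.card (Fin d))
    rw [← map_pow, ← e1, map_mul] at this
    exact isUnit_of_mul_isUnit_right this
  have h4 : IsUnit (algebraMap T (Localization.Away c) μ) := by
    have := (h3.mul (h2.map (algebraMap T (Localization.Away c)))).mul h3
    rw [← map_mul, ← map_mul, e2, map_mul, map_pow] at this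
    exact (isUnit_pow_iff hd).1 (isUnit_of_mul_isUnit_left this)
  obtain ⟨ν, hν⟩ := h4.exists_left_inv
  refine ⟨QuadraticAlgebra (Localization.Away c) ν 0, inferInstance,
    (algebraMap (Localization.Away c) _).comp (algebraMap T _), QuadraticAlgebra.omega, ?_,
    fun z hz => ?_⟩
  · rw [QuadraticAlgebra.omega_mul_omega_eq_algebraMap, map_zero, zero_mul, add_zero,
      RingHom.comp_apply, ← map_mul, hν, map_one]
  · have h0 : algebraMap T (Localization.Away c) z = 0 := congrArg QuadraticAlgebra.re hz
    obtain ⟨⟨_, N, rfl⟩, hN⟩ := (IsLocalization.map_eq_zero_iff (Submonoid.powers c) _ z).1 h0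
    exact ⟨N, hN⟩

/-- An algebra map of a matrix algebra that respects two adjoint involutions is given by an
isometry over a larger ring. -/
theorem exists_iso_ext {T : Type u} [CommRing T] {d : ℕ}
    (α : Matrix (Fin d) (Fin d) T →ₐ[T] Matrix (Fin d) (Fin d) T)
    {B1 B2 : Matrix (Fin d) (Fin d) T} (h1 : IsUnit B1.det) (h2 : IsUnit B2.det)
    (hα : ∀ X Y, B1 * Y = Xᵀ * B1 → B2 * α Y = (α X)ᵀ * B2) :
    ∃ (T' : Type u) (_ : CommRing T') (_ : Algebra T T'), Function.Injective (algebraMap T T') ∧
      ∃ h : Matrix (Fin d) (Fin d) T', hᵀ * B2.map (algebraMap T T') * h = B1.map (algebraMap T T') ∧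
        ∀ X, (α X).map (algebraMap T T') * h = h * X.map (algebraMap T T') := by
  rcases Nat.eq_zero_or_pos d with rfl | hd
  · exact ⟨T, inferInstance, inferInstance, fun _ _ h => h, 1, Subsingleton.elim _ _,
      fun _ => Subsingleton.elim _ _⟩
  let i0 : Fin d := ⟨0, hd⟩
  choose g g' hg hg' using fun p : Fin d × Fin d => exists_intertwine α i0 p.1 p.2
  choose μ hμ using fun p => exists_multiplier α h1 hα (hg p)
  choose T' inst f w hw hf using fun p => exists_iso_loc hd.ne' h2 (hg' p) (hμ p)
  let F : T →+* ∀ p, T' p := RingHom.pi f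
  refine ⟨∀ p, T' p, inferInstance, F.toAlgebra, ?_,
    Matrix.of fun i j p => w p * f p (g p i j), ?_, fun X => ?_⟩
  · refine (injective_iff_map_eq_zero F).2 fun z hz => ?_
    choose N hN using fun p => hf p z (congrFun hz p)
    refine eq_zero_of_entries α.toRingHom i0 (∑ p, N p) fun a b => ?_
    obtain ⟨k, hk⟩ := Nat.exists_eq_add_of_le
      (Finset.single_le_sum (f := N) (fun _ _ => Nat.zero_le _) (Finset.mem_univ (a, b)))
    rw [hk, pow_add, mul_right_comm]
    exact mul_eq_zero_of_left (hN (a, b)) _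
  · ext i j p
    have e := congrArg (f p) (congrFun (congrFun (hμ p) i) j)
    simp only [Matrix.mul_apply, transpose_apply, Matrix.smul_apply, smul_eq_mul, map_sum, map_mul,
      Finset.sum_mul] at e
    simp only [Matrix.mul_apply, transpose_apply, Matrix.of_apply, Matrix.map_apply,
      Finset.sum_apply, Pi.mul_apply, Finset.sum_mul]
    change ∑ k, ∑ l, w p * f p (g p l i) * f p (B2 l k) * (w p * f p (g p k j)) = f p (B1 i j)
    rw [← one_mul (f p (B1 i j)), ← hw p, mul_assoc, ← e, Finset.mul_sum]
    refine Finset.sum_congr rfl fun k _ => ?_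
    rw [Finset.mul_sum]
    exact Finset.sum_congr rfl fun l _ => by ring
  · ext i j p
    have e := congrArg (f p) (congrFun (congrFun (hg p X) i) j)
    simp only [Matrix.mul_apply, map_sum, map_mul] at e
    simp only [Matrix.mul_apply, Matrix.of_apply, Matrix.map_apply, Finset.sum_apply, Pi.mul_apply]
    change ∑ k, f p (α X i k) * (w p * f p (g p k j)) = ∑ k, w p * f p (g p i k) * f p (X k j)
    simp only [mul_left_comm _ (w p), mul_assoc, ← Finset.mul_sum, e]

end Pool.Agent.GSD
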