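import Pool.Agent.P.MP_c1f06d_ag.d.TDefs
import Pool.Agent.P.MP_c1f06d_ag.d.TIso

open Matrix Pool.Agent.P.MP_c1f06d_ag

universe u

namespace Pool.Agent.GSD

variable {R A : Type u} [CommRing R] [Ring A] [Algebra R A]

section Ext

variable {F B M T : Type u} [CommRing F] [Algebra R F] [Ring B] [Algebra R B] [Algebra F B]
  [IsScalarTower R F B] [CommRing T] [Algebra R T] [Ring M] [Algebra T M] [Algebra R M]
  [IsScalarTower R T M] {i : A →ₐ[R] B}

theorem bc_ind (hb : IsBaseChange F i.toLinearMap) {P : B → Prop} (h1 : ∀ a, P (i a))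
    (h2 : ∀ (c : F) b, P b → P (c • b)) (h3 : ∀ b b', P b → P b' → P (b + b')) (b : B) : P b :=
  hb.inductionOn b P (by simpa using h1 0) h1 h2 h3

theorem exists_ext (hb : IsBaseChange F i.toLinearMap) (f : F →ₐ[R] T) (ψ : A →ₐ[R] M) :
    ∃ τ : B →+* M, (∀ c b, τ (c • b) = f c • τ b) ∧ ∀ a, τ (i a) = ψ a := by
  let _ : Module F M := Module.compHom M f.toRingHom
  have hs : ∀ (c : F) (m : M), c • m = f c • m := fun _ _ => rfl
  have : IsScalarTower R F M := ⟨fun r c m => by
    rw [hs, hs, map_smul, smul_assoc]⟩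
  let L := hb.lift ψ.toLinearMap
  have h1 : ∀ a, L (i a) = ψ a := hb.lift_eq ψ.toLinearMap
  have h2 : ∀ (c : F) b, L (c • b) = f c • L b := fun c b => L.map_smul c b
  have h3 : ∀ b b', L (b * b') = L b * L b' := by
    intro b b'
    induction b using bc_ind hb with
    | h1 a =>
      induction b' using bc_ind hb with
      | h1 a' => rw [← map_mul, h1, h1, h1, map_mul]
      | h2 c b hb => rw [mul_smul_comm, h2, h2, hb, mul_smul_comm]
      | h3 b b' hb hb' => rw [mul_add, map_add, map_add, hb, hb', mul_add]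
    | h2 c b hb => rw [smul_mul_assoc, h2, h2, hb, smul_mul_assoc]
    | h3 b b1 hb hb1 => rw [add_mul, map_add, map_add, hb, hb1, add_mul]
  exact ⟨{ toFun := L, map_one' := by rw [← map_one i, h1, map_one], map_mul' := h3,
           map_zero' := L.map_zero, map_add' := L.map_add }, h2, h1⟩

end Ext

theorem isBaseChange_mapMatrix {T T' : Type u} [CommRing T] [CommRing T'] [Algebra T T'] (d : ℕ) :
    IsBaseChange T' ((Algebra.ofId T T').mapMatrix (m := Fin d)).toLinearMap :=
  ((IsBaseChange.linearMap T T').finitePow (Fin d)).finitePow (Fin d)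

variable [StarRing A] {l : A} {d : ℕ}
variable {T T' T'' : Type u} [CommRing T] [Algebra R T] [CommRing T'] [Algebra R T']
  [CommRing T''] [Algebra R T'']

namespace Splitting

variable (s : Splitting R l d T) (s' : Splitting R l d T') (s'' : Splitting R l d T'')

/-- The polar matrix. -/
def B : Matrix (Fin d) (Fin d) T := s.Q + s.Qᵀ

theorem B_symm : s.Bᵀ = s.B := by rw [B, transpose_add, transpose_transpose, add_comm]

theorem isUnit_det_B : IsUnit s.B.det := (isUnit_iff_isUnit_det _).1 s.regular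

theorem unim : Unim s.Q := s.isUnit_det_B

theorem Q_eq : s.Q = s.B * s.φ l := s.semitrace

theorem Q_map_self : s.Q.map (algebraMap T T) = s.B * s.φ l := s.semitrace

theorem B_add : s.B * s.φ l + (s.B * s.φ l)ᵀ = s.B := by rw [← s.Q_eq]; rfl

/-- The adjoint matrix. -/
noncomputable def adj (X : Matrix (Fin d) (Fin d) T) : Matrix (Fin d) (Fin d) T :=
  s.B⁻¹ * Xᵀ * s.B

theorem B_mul_adj (X : Matrix (Fin d) (Fin d) T) : s.B * s.adj X = Xᵀ * s.B := by
  rw [adj, ← Matrix.mul_assoc, ← Matrix.mul_assoc, mul_nonsing_inv _ s.isUnit_det_B,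
    Matrix.one_mul]

theorem B_cancel {X Y : Matrix (Fin d) (Fin d) T} (h : s.B * X = s.B * Y) : X = Y :=
  s.regular.mul_left_cancel h

theorem adj_eq {X Y : Matrix (Fin d) (Fin d) T} (h : s.B * Y = Xᵀ * s.B) : s.adj X = Y :=
  s.B_cancel (by rw [B_mul_adj, h])

theorem adj_φ (a : A) : s.adj (s.φ a) = s.φ (star a) := s.adj_eq (s.adjoint a)

theorem adj_add (X Y : Matrix (Fin d) (Fin d) T) : s.adj (X + Y) = s.adj X + s.adj Y := by
  rw [adj, adj, adj, transpose_add, Matrix.mul_add, Matrix.add_mul]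

theorem adj_sub (X Y : Matrix (Fin d) (Fin d) T) : s.adj (X - Y) = s.adj X - s.adj Y := by
  rw [adj, adj, adj, transpose_sub, Matrix.mul_sub, Matrix.sub_mul]

theorem adj_smul (c : T) (X : Matrix (Fin d) (Fin d) T) : s.adj (c • X) = c • s.adj X := by
  rw [adj, adj, transpose_smul, Matrix.mul_smul, Matrix.smul_mul]

theorem adj_mul (X Y : Matrix (Fin d) (Fin d) T) : s.adj (X * Y) = s.adj Y * s.adj X :=
  s.adj_eq (by rw [← Matrix.mul_assoc, B_mul_adj, Matrix.mul_assoc, B_mul_adj, transpose_mul,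
    Matrix.mul_assoc])

theorem adj_one : s.adj 1 = 1 := s.adj_eq (by rw [transpose_one, Matrix.mul_one, Matrix.one_mul])

theorem adj_adj (X : Matrix (Fin d) (Fin d) T) : s.adj (s.adj X) = X :=
  s.adj_eq (by
    have := congrArg transpose (s.B_mul_adj X)
    rwa [transpose_mul, transpose_mul, transpose_transpose, B_symm, eq_comm] at this)

theorem ind {P : Matrix (Fin d) (Fin d) T → Prop} (h1 : ∀ a, P (s.φ a))
    (h2 : ∀ (c : T) X, P X → P (c • X)) (h3 : ∀ X Y, P X → P Y → P (X + Y)) (X) : P X :=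
  bc_ind s.baseChange h1 h2 h3 X

theorem baseChange_map (f : T →ₐ[R] T') :
    IsBaseChange T' ((f.mapMatrix (m := Fin d)).comp s.φ).toLinearMap := by
  let _ : Algebra T T' := f.toRingHom.toAlgebra
  have : IsScalarTower R T T' := IsScalarTower.of_algebraMap_eq fun r => (f.commutes r).symm
  have h := s.baseChange.comp (isBaseChange_mapMatrix (T := T) (T' := T') d)
  have e : ((f.mapMatrix (m := Fin d)).comp s.φ).toLinearMap =
      (((Algebra.ofId T T').mapMatrix (m := Fin d)).toLinearMap.restrictScalars R).comp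
        s.φ.toLinearMap := LinearMap.ext fun a => rfl
  rw [e]; exact h

theorem polar_map (f : T →ₐ[R] T') : s.Q.map f + (s.Q.map f)ᵀ = f.mapMatrix s.B := by
  ext i j; simp [B]

/-- Base change of a splitting. -/
noncomputable def map (f : T →ₐ[R] T') : Splitting R l d T' where
  φ := f.mapMatrix.comp s.φ
  Q := s.Q.map f
  baseChange := s.baseChange_map f
  regular := by rw [polar_map]; exact s.regular.map f.mapMatrix
  adjoint a := by
    have := congrArg f.mapMatrix (s.adjoint a)
    rw [map_mul, map_mul] at this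
    rw [polar_map]; exact this
  semitrace := by
    have := congrArg f.mapMatrix s.semitrace
    rw [map_mul] at this
    rw [polar_map]; exact this

theorem map_φ (f : T →ₐ[R] T') (a : A) : (s.map f).φ a = (s.φ a).map f := rfl

theorem map_Q (f : T →ₐ[R] T') : (s.map f).Q = s.Q.map f := rfl

theorem map_B (f : T →ₐ[R] T') : (s.map f).B = s.B.map f := s.polar_map f

/-- Transport of matrices from one splitting to another along a map of rings. -/
noncomputable def tr (f : T →ₐ[R] T') : Matrix (Fin d) (Fin d) T →+* Matrix (Fin d) (Fin d) T' :=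
  (exists_ext s.baseChange f s'.φ).choose

theorem tr_smul (f : T →ₐ[R] T') (c : T) (X : Matrix (Fin d) (Fin d) T) :
    s.tr s' f (c • X) = f c • s.tr s' f X :=
  (exists_ext s.baseChange f s'.φ).choose_spec.1 c X

theorem tr_φ (f : T →ₐ[R] T') (a : A) : s.tr s' f (s.φ a) = s'.φ a :=
  (exists_ext s.baseChange f s'.φ).choose_spec.2 a

theorem tr_tr (f : T →ₐ[R] T') (g : T' →ₐ[R] T'') (X : Matrix (Fin d) (Fin d) T) :
    s'.tr s'' g (s.tr s' f X) = s.tr s'' (g.comp f) X := by
  induction X using s.ind with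
  | h1 a => rw [tr_φ, tr_φ, tr_φ]
  | h2 c X h => rw [tr_smul, tr_smul, tr_smul, h]; rfl
  | h3 X Y h h' => rw [map_add, map_add, map_add, h, h']

theorem tr_id (X : Matrix (Fin d) (Fin d) T) : s.tr s (AlgHom.id R T) X = X := by
  induction X using s.ind with
  | h1 a => rw [tr_φ]
  | h2 c X h => rw [tr_smul, h]; rfl
  | h3 X Y h h' => rw [map_add, h, h']

theorem tr_adj (f : T →ₐ[R] T') (X : Matrix (Fin d) (Fin d) T) :
    s.tr s' f (s.adj X) = s'.adj (s.tr s' f X) := by
  induction X using s.ind with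
  | h1 a => rw [adj_φ, tr_φ, tr_φ, adj_φ]
  | h2 c X h => rw [adj_smul, tr_smul, tr_smul, adj_smul, h]
  | h3 X Y h h' => rw [adj_add, map_add, map_add, adj_add, h, h']

variable {s s'} in
theorem IsHom.tr_mul {f : T →ₐ[R] T'} {h : Matrix (Fin d) (Fin d) T'} (H : s.IsHom s' f h)
    (X : Matrix (Fin d) (Fin d) T) : s.tr s' f X * h = h * X.map f := by
  induction X using s.ind with
  | h1 a => rw [tr_φ, H.2]
  | h2 c X hX =>
    have e : (c • X).map f = f c • X.map f := by ext; simp
    rw [tr_smul, Matrix.smul_mul, hX, e, Matrix.mul_smul]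
  | h3 X Y hX hY =>
    rw [map_add, Matrix.add_mul, hX, hY, Matrix.map_add _ (map_add f), Matrix.mul_add]

variable {s s'} in
theorem IsHom.B_eq {f : T →ₐ[R] T'} {h : Matrix (Fin d) (Fin d) T'} (H : s.IsHom s' f h) :
    hᵀ * s'.B * h = s.B.map f := by
  have e := congrArg transpose H.1
  rw [transpose_mul, transpose_mul, transpose_transpose, ← Matrix.mul_assoc] at e
  rw [B, Matrix.mul_add, Matrix.add_mul, H.1, e, ← map_B]; rfl

variable {s s'} in
theorem IsHom.det_sq {f : T →ₐ[R] T'} {h : Matrix (Fin d) (Fin d) T'} (H : s.IsHom s' f h) :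
    h.det ^ 2 * s'.B.det = f s.B.det := by
  have e := congrArg det H.B_eq
  rw [det_mul, det_mul, det_transpose] at e
  rw [AlgHom.map_det, AlgHom.mapMatrix_apply, ← e]; ring

variable {s s'} in
theorem IsHom.isUnit_det {f : T →ₐ[R] T'} {h : Matrix (Fin d) (Fin d) T'} (H : s.IsHom s' f h) :
    IsUnit h.det := by
  have e : IsUnit (h.det ^ 2 * s'.B.det) := H.det_sq ▸ s.isUnit_det_B.map f
  exact (isUnit_pow_iff two_ne_zero).1 (isUnit_of_mul_isUnit_left e)

theorem isHom_map (f : T →ₐ[R] T') : s.IsHom (s.map f) f 1 :=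
  ⟨by rw [transpose_one, Matrix.one_mul, Matrix.mul_one]; rfl,
    fun a => by rw [Matrix.one_mul, Matrix.mul_one]; rfl⟩

theorem tr_map (f : T →ₐ[R] T') (X : Matrix (Fin d) (Fin d) T) :
    s.tr (s.map f) f X = X.map f := by
  simpa using (s.isHom_map f).tr_mul X

/-- Two splittings become isometric over a larger ring. -/
theorem exists_hom (f : T →ₐ[R] T') :
    ∃ (T'' : Type u) (_ : CommRing T'') (_ : Algebra R T'') (j : T' →ₐ[R] T'')
      (h : Matrix (Fin d) (Fin d) T''), Function.Injective j ∧ s.IsHom (s'.map j) (j.comp f) h := by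
  let α : Matrix (Fin d) (Fin d) T' →ₐ[T'] Matrix (Fin d) (Fin d) T' :=
    AlgHom.mk' ((s.map f).tr s' (AlgHom.id R T')) ((s.map f).tr_smul s' (AlgHom.id R T'))
  have hα : ∀ X, α X = (s.map f).tr s' (AlgHom.id R T') X := fun _ => rfl
  obtain ⟨T'', _, _, hj, h, h1, h2⟩ := exists_iso_ext α (s.map f).isUnit_det_B s'.isUnit_det_B
    fun X Y e => by rw [← (s.map f).adj_eq e, hα, hα, tr_adj, B_mul_adj]
  let _ : Algebra R T'' := ((algebraMap T' T'').comp (algebraMap R T')).toAlgebra
  have : IsScalarTower R T' T'' := IsScalarTower.of_algebraMap_eq fun _ => rfl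
  have h3 : ∀ a, (s'.map (IsScalarTower.toAlgHom R T' T'')).φ a * h =
      h * (s.φ a).map ((IsScalarTower.toAlgHom R T' T'').comp f) := fun a => by
    have := h2 ((s.map f).φ a)
    rw [hα, tr_φ] at this
    exact this
  refine ⟨T'', inferInstance, inferInstance, IsScalarTower.toAlgHom R T' T'', h, hj, ?_, h3⟩
  rw [Q_eq, map_B, Matrix.mul_assoc, Matrix.mul_assoc, h3, ← Matrix.mul_assoc, ← Matrix.mul_assoc,
    s.Q_eq, Matrix.map_mul]
  rw [map_B] at h1
  exact congrArg (· * _) h1

end Splitting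

end Pool.Agent.GSD
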