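import Pool.Agent.P.MP_c1f06d_ag.d.ValD

namespace Pool.Agent.GSD

open Pool.Agent.SU IsLocalRing

theorem v3_alg {R : Type*} [Ring R] [StarRing R] {E N C : R} (hE : E * E = E) (hN : Alt N)
    (h : star E * N * E * C * (star E * N * E) = star E * N * E) :
    ∃ ν, Alt ν ∧ star E * N * E * (E * C * (star E * N * E)) = star E * N * E ∧
      ∀ a Z : R, Z = E * C * (star E * N * E) +
        (E - E * C * (star E * N * E)) * a * (E * C * (star E * N * E)) →
        E * Z = Z ∧ star Z * N * Z * ν * star Z = star Z := by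
  have hM : Alt (star E * N * E) := hN.conj E
  obtain ⟨M, hMd⟩ : ∃ M, M = star E * N * E := ⟨_, rfl⟩
  rw [← hMd] at h hM ⊢
  have hME : M * E = M := by rw [hMd, mul_assoc, hE]
  obtain ⟨F, hF⟩ : ∃ F, F = E * C * M := ⟨_, rfl⟩
  rw [← hF]
  have hMF : M * F = M := by rw [hF, ← mul_assoc, ← mul_assoc, hME, h]
  have hEF : E * F = F := by rw [hF, ← mul_assoc, ← mul_assoc, hE]
  have hFF : F * F = F := by
    calc F * F = E * C * (M * F) := by rw [← mul_assoc, ← hF]
      _ = F := by rw [hMF, ← hF]
  have key : ∀ Z, E * Z = Z → M * Z = M → star Z * N * Z = M := fun Z h1 h2 => by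
    have h3 : star Z * M = M := by
      have := congrArg star h2
      rw [star_mul, hM.star_eq, mul_neg] at this
      exact neg_injective this
    calc star Z * N * Z = star (E * Z) * N * (E * Z) := by rw [h1]
      _ = star Z * (M * Z) := by rw [hMd, star_mul]; noncomm_ring
      _ = M := by rw [h2, h3]
  have hF' : star F * N * F * (-(star C * star E)) = star F := by
    rw [key F hEF hMF, hF, star_mul, star_mul, hM.star_eq]
    noncomm_ring
  obtain ⟨ν, hν, -, -, h4, -⟩ := exists_alt_inv hFF hN hF'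
  rw [key F hEF hMF] at h4
  refine ⟨ν, hν, hMF, fun a Z hZ => ?_⟩
  have h5 : E * Z = Z := by
    rw [hZ, mul_add, hEF, ← mul_assoc, ← mul_assoc, mul_sub, hE, hEF]
  have h6 : M * Z = M := by
    rw [hZ, mul_add, hMF, ← mul_assoc, ← mul_assoc, mul_sub, hME, hMF, sub_self, zero_mul,
      zero_mul, add_zero]
  refine ⟨h5, ?_⟩
  have h7 : star F * star Z = star Z := by
    rw [← star_mul, hZ, add_mul, hFF, mul_assoc _ F F, hFF]
  rw [key Z h5 h6, h4, h7]

section
variable {O A : Type*} [CommRing O] [Ring A] [Algebra O A]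

theorem dv_sub_iff {c : O} {a b : A} :
    Dv c (a - b) ↔ qm (Ideal.span {c}) a = qm (Ideal.span {c}) b := qm_span_eq_iff.symm

theorem Dv.res [IsLocalRing O] {c : O} (hc : c ∈ maximalIdeal O) {a b : A} (h : Dv c (a - b)) :
    qm (maximalIdeal O) a = qm (maximalIdeal O) b :=
  qm_mono ((Ideal.span_singleton_le_iff_mem _).2 hc) (dv_sub_iff.1 h)

variable [StarRing A] [StarFix O A]

theorem Alt.smul {n : A} (h : Alt n) (t : O) : Alt (t • n) := by
  obtain ⟨c, rfl⟩ := h
  exact ⟨t • c, by rw [star_smul_fix, smul_sub]⟩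

end

variable {O A : Type*} [CommRing O] [IsLocalRing O] [Infinite (ResidueField O)]
  [Ring A] [StarRing A] [Algebra O A] [StarFix O A] [Module.Finite O A] [Module.Free O A]

/-- An alternating corner element of maximal rank has a kernel of rank at most one. -/
theorem exists_max_corner {F D : Type*} [Field F] [Infinite F] [Ring D] [StarRing D] [Algebra F D]
    [StarFix F D] [FiniteDimensional F D] (E : D) :
    ∃ N, Alt N ∧ ∀ p, E * p = p → star E * N * E * p = 0 → R1 p := by
  obtain ⟨_, ⟨N, hN, rfl⟩, hmax⟩ := exists_max_rk (k := F)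
    (S := {M : D | ∃ N, Alt N ∧ M = star E * N * E}) ⟨_, 0, alt_zero, rfl⟩
  refine ⟨N, hN, fun p h1 h2 c => ?_⟩
  obtain ⟨z, hz⟩ := flanders_mul (k := F) (star E * N * E) (star E * (c - star c) * E)
    (fun t => hmax _ ⟨N + t • (c - star c), hN.add ((alt_sub_star c).smul t), by
      rw [mul_add, add_mul, mul_smul_comm, smul_mul_assoc]⟩) h2
  have h3 : star p * (star E * N * E) = 0 := by
    have := congrArg star h2
    rwa [star_mul, (hN.conj E).star_eq, mul_neg, star_zero, neg_eq_zero] at this
  calc star p * (c - star c) * p = star (E * p) * (c - star c) * (E * p) := by rw [h1]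
    _ = star p * (star E * (c - star c) * E * p) := by rw [star_mul]; noncomm_ring
    _ = 0 := by rw [hz, ← mul_assoc, h3, zero_mul]

/-- V3 -/
theorem exists_v3 {nrd : A → O} (hb : Base nrd) {lam : O} (hlam : lam ∈ maximalIdeal O)
    {v om : A} (hv : Dv lam (v * v - v)) (hom : qm (maximalIdeal O) (star v * om) ≠ 0) :
    R1 (qm (maximalIdeal O) v) ∨ ∃ z n ν : A, Alt n ∧ Alt ν ∧ Dv lam (v * z - z) ∧
      Dv lam (star z * n * z * ν * star z - star z) ∧
      qm (maximalIdeal O) (star z * om) ≠ 0 := by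
  have := hb.avg.isSemisimpleRing
  have hE : qm (maximalIdeal O) v * qm (maximalIdeal O) v = qm (maximalIdeal O) v := by
    rw [← map_mul]; exact hv.res hlam
  obtain ⟨N, hN, hmax⟩ := exists_max_corner (F := ResidueField O) (qm (maximalIdeal O) v)
  obtain ⟨n, hn, rfl⟩ := Alt.lift _ (qm_star _) (qm_surjective (maximalIdeal O)) hN
  have hMd : qm (maximalIdeal O) (star v * n * v) =
      star (qm (maximalIdeal O) v) * qm (maximalIdeal O) n * qm (maximalIdeal O) v := by
    rw [map_mul, map_mul, qm_star]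
  rw [← hMd] at hmax
  by_cases hM : qm (maximalIdeal O) (star v * n * v) = 0
  · exact Or.inl (hmax _ hE (by rw [hM, zero_mul]))
  right
  obtain ⟨c0, hc0⟩ := vreg (qm (maximalIdeal O) (star v * n * v))
  obtain ⟨c0, rfl⟩ := qm_surjective (maximalIdeal O) c0
  have hME : qm (maximalIdeal O) (star v * n * v) * qm (maximalIdeal O) v =
      qm (maximalIdeal O) (star v * n * v) := by rw [hMd, mul_assoc, hE]
  obtain ⟨c, hc⟩ := hb.reg lam hlam v n c0 hv hn (by rw [map_mul, map_mul _ _ c0, hc0]) (by
    refine hmax _ ?_ ?_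
    · rw [map_sub, map_mul _ (v * c0), map_mul _ v, mul_sub, ← mul_assoc, ← mul_assoc, hE]
    · rw [map_sub, map_mul _ (v * c0), map_mul _ v, mul_sub, ← mul_assoc, ← mul_assoc, hME, hc0,
        sub_self])
  have hq := dv_sub_iff.1 hc
  simp only [map_mul, qm_star] at hq
  obtain ⟨ν, hν, h1, h2⟩ := v3_alg (by rw [← map_mul]; exact dv_sub_iff.1 hv)
    (hn.map _ (qm_star _)) hq
  obtain ⟨ν, hν', rfl⟩ := Alt.lift _ (qm_star _) (qm_surjective (Ideal.span {lam})) hν
  obtain ⟨f, hf⟩ : ∃ f, f = v * c * (star v * n * v) := ⟨_, rfl⟩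
  have hf0 : star (qm (maximalIdeal O) f) ≠ 0 := by
    intro h0
    have h3 : Dv lam (star v * n * v * f - star v * n * v) :=
      dv_sub_iff.2 (by simpa only [hf, map_mul, qm_star] using h1)
    have h4 := h3.res hlam
    rw [map_mul _ _ f, star_eq_zero.1 h0, mul_zero] at h4
    exact hM h4.symm
  obtain ⟨a, ha⟩ : ∃ a, qm (maximalIdeal O) (star (f + (v - f) * a * f) * om) ≠ 0 := by
    by_cases h5 : qm (maximalIdeal O) (star f * om) = 0
    · have h6 : qm (maximalIdeal O) (star (v - f) * om) ≠ 0 := by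
        rwa [star_sub, sub_mul, map_sub, h5, sub_zero]
      by_contra hcon
      push Not at hcon
      rcases hb.prime (star (qm (maximalIdeal O) f)) (qm (maximalIdeal O) (star (v - f) * om))
        (fun x => by
          obtain ⟨x, rfl⟩ := qm_surjective (maximalIdeal O) x
          have h7 := hcon (star x)
          rw [star_add, add_mul, map_add, h5, zero_add, star_mul, star_mul, star_star] at h7
          rw [← qm_star, ← map_mul, ← map_mul, ← h7]
          congr 1
          noncomm_ring) with h | h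
      · exact hf0 h
      · exact h6 h
    · exact ⟨0, by rwa [mul_zero, zero_mul, add_zero]⟩
  obtain ⟨h8, h9⟩ := h2 (qm (Ideal.span {lam}) a) (qm (Ideal.span {lam}) (f + (v - f) * a * f))
    (by simp only [hf, map_add, map_sub, map_mul, qm_star])
  refine ⟨f + (v - f) * a * f, n, ν, hn, hν', dv_sub_iff.2 (by rw [map_mul, h8]),
    dv_sub_iff.2 ?_, ha⟩
  rw [map_mul, map_mul, map_mul, map_mul, qm_star, h9]

end Pool.Agent.GSD
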