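import Pool.Agent.P.MP_c1f06d_ag.d.ValT
import Pool.Agent.P.MP_c1f06d_ag.d.ValE

namespace Pool.Agent.GSD

open Pool.Agent.SU IsLocalRing

section
variable {F D : Type*} [Field F] [Ring D] [Algebra F D] [FiniteDimensional F D]

theorem finite_not_isUnit {u : D} (hu : IsUnit u) (b : D) :
    {t : F | ¬ IsUnit (u + t • b)}.Finite := by
  refine (finite_rk_lt (k := F) u b).subset fun t ht => ?_
  rw [Set.mem_ofPred_eq, (isUnit_iff_rk (k := F) u).1 hu]
  exact lt_of_le_of_ne (rk_le _) fun h => ht ((isUnit_iff_rk (k := F) _).2 h)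

theorem finite_not_isUnit' {a b : D} {t0 : F} (hu : IsUnit (a + t0 • b)) :
    {t : F | ¬ IsUnit (a + t • b)}.Finite := by
  refine ((finite_not_isUnit (F := F) hu b).image (· + t0)).subset fun t ht =>
    ⟨t - t0, fun h => ht ?_, sub_add_cancel _ _⟩
  rwa [add_assoc, ← add_smul, add_sub_cancel] at h

end

theorem alt_eq_zero_of_r1 {D : Type*} [Ring D] [StarRing D] (hreg : ∀ a : D, ∃ b, a * b * a = a)
    (hprime : ∀ a b : D, (∀ c, a * c * b = 0) → a = 0 ∨ b = 0) {n : D} (hn : Alt n)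
    (h : R1 n) : n = 0 := by
  obtain ⟨b, hb⟩ := hreg n
  have h1 : n * star (n * b) = n := by
    have := congrArg star hb
    rw [star_mul (n * b), hn.star_eq, neg_mul] at this
    exact neg_injective this
  obtain ⟨c, hc⟩ := hn
  have h2 := (h.mul_right b).star hreg hprime c
  rw [star_star, ← hc, hb, h1] at h2
  exact h2

/-- The dichotomy over an infinite field, stable on lines. -/
theorem kd {F D : Type*} [Field F] [Infinite F] [Ring D] [StarRing D] [Algebra F D] [StarFix F D]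
    [FiniteDimensional F D] (hreg : ∀ a : D, ∃ b, a * b * a = a)
    (hprime : ∀ a b : D, (∀ c, a * c * b = 0) → a = 0 ∨ b = 0) {l g : D} {l0 : Dˣ}
    (h0 : La l l0) (hg : IsUnit g) :
    ∃ l1, La l l1 ∧ ∀ n, Alt n → {t : F | ¬ (IsUnit (l1 + t • n) ∧
      ∀ v, ((1 - g) * (l1 + t • n) + g) * v = 0 → R1 v)}.Finite := by
  have line : ∀ (a n : D) (t : F), (1 - g) * (a + t • n) + g = (1 - g) * a + g + t • ((1 - g) * n) :=
    fun a n t => by rw [mul_add, mul_smul_comm]; abel
  obtain ⟨_, ⟨l2, h2, rfl⟩, hmax⟩ := exists_max_rk (k := F)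
    (S := {M : D | ∃ a, La l a ∧ M = (1 - g) * a + g}) ⟨_, l, La.refl l, rfl⟩
  have good : ∀ a, La l a → rk F ((1 - g) * l2 + g) ≤ rk F ((1 - g) * a + g) →
      ∀ v, ((1 - g) * a + g) * v = 0 → R1 v := fun a ha hr v hv => by
    obtain ⟨b, hb⟩ := hreg ((1 - g) * a + g)
    by_cases hw : 1 - ((1 - g) * a + g) * b = 0
    · have : IsNoetherianRing D := isNoetherian_of_tower F (inferInstance : IsNoetherian F D)
      have h3 : b * ((1 - g) * a + g) = 1 := mul_eq_one_comm.1 (sub_eq_zero.1 hw).symm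
      have h4 : v = 0 := by rw [← one_mul v, ← h3, mul_assoc, hv, mul_zero]
      rw [h4]
      exact r1_zero
    obtain ⟨w, hwd⟩ : ∃ w, w = 1 - ((1 - g) * a + g) * b := ⟨_, rfl⟩
    rw [← hwd] at hw
    have h5 : w * ((1 - g) * a + g) = 0 := by rw [hwd, sub_mul, one_mul, hb, sub_self]
    have h6 : w * (1 - g) ≠ 0 := fun h => hw (by
      rw [mul_add, ← mul_assoc, h, zero_mul, zero_add] at h5
      exact hg.mul_left_eq_zero.1 h5)
    have h7 : ∀ c : D, w * (1 - g) * (c - star c) * v = 0 := fun c => by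
      obtain ⟨z, hz⟩ := flanders_mul (k := F) ((1 - g) * a + g) ((1 - g) * (c - star c))
        (fun t => (hmax _ ⟨a + t • (c - star c), ha.add_alt ((alt_sub_star c).smul t),
          (line _ _ _).symm⟩).trans hr) hv
      rw [mul_assoc w, mul_assoc w, hz, ← mul_assoc, h5, zero_mul]
    obtain ⟨y, hy⟩ := r1_wl hreg hprime h6 h7
    intro c
    rw [hy, mul_assoc y, mul_assoc y, h7, mul_zero]
  have hu : IsUnit (l2 + (1 : F) • ((l0 : D) - l2)) := by
    rw [one_smul, add_sub_cancel]; exact l0.isUnit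
  obtain ⟨s, hs⟩ := ((finite_not_isUnit' hu).union
    (finite_rk_lt (k := F) ((1 - g) * l2 + g) ((1 - g) * ((l0 : D) - l2)))).exists_notMem
  rw [Set.mem_union, not_or, Set.mem_ofPred_eq, Set.mem_ofPred_eq, not_not, not_lt, ← line] at hs
  have h1 : La l (l2 + s • ((l0 : D) - l2)) := h2.add_alt ((h0.sub h2).smul s)
  refine ⟨_, h1, fun n hn => ((finite_not_isUnit (F := F) hs.1 n).union
    (finite_rk_lt (k := F) ((1 - g) * (l2 + s • ((l0 : D) - l2)) + g) ((1 - g) * n))).subset
    fun t ht => ?_⟩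
  by_contra hc
  rw [Set.mem_union, not_or, Set.mem_ofPred_eq, Set.mem_ofPred_eq, not_not, not_lt, ← line] at hc
  exact ht ⟨hc.1, good _ (h1.add_alt (hn.smul t)) (hs.2.trans hc.2)⟩

theorem exists_dvd_all {O ι : Type*} [CommRing O] [IsDomain O] [ValuationRing O] (c : ι → O)
    {s : Finset ι} (hs : s.Nonempty) : ∃ i ∈ s, ∀ j ∈ s, c i ∣ c j := by
  induction hs using Finset.Nonempty.cons_induction with
  | singleton a => exact ⟨a, by simp, by simp⟩
  | cons a s h _ ih =>
    obtain ⟨i, hi, h1⟩ := ih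
    rcases ValuationRing.dvd_total (c a) (c i) with h2 | h2
    · exact ⟨a, by simp, fun j hj => by
        rcases Finset.mem_cons.1 hj with rfl | hj
        exacts [dvd_rfl, h2.trans (h1 j hj)]⟩
    · exact ⟨i, Finset.mem_cons.2 (Or.inr hi), fun j hj => by
        rcases Finset.mem_cons.1 hj with rfl | hj
        exacts [h2, h1 j hj]⟩

section
variable {O A B : Type*} [CommRing O] [IsDomain O] [ValuationRing O] [Ring A] [Algebra O A]
  [Module.Finite O A] [Module.Free O A]

/-- Every nonzero element is a multiple of a primitive one. -/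
theorem exists_prim {a : A} (ha : a ≠ 0) :
    ∃ (c : O) (n : A), a = c • n ∧ qm (maximalIdeal O) n ≠ 0 := by
  let b := Module.Free.chooseBasis O A
  obtain ⟨j, hj⟩ : ∃ j, b.repr a j ≠ 0 := by
    by_contra h
    push Not at h
    exact ha (b.repr.injective (by rw [map_zero]; exact Finsupp.ext h))
  obtain ⟨k, -, hk⟩ := exists_dvd_all (fun j => b.repr a j) ⟨j, Finset.mem_univ j⟩
  choose f hf using fun j => hk j (Finset.mem_univ j)
  have h0 : b.repr a k ≠ 0 := fun h => hj (by rw [hf j, h, zero_mul])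
  have h1 : f k = 1 := mul_left_cancel₀ h0 (by rw [← hf k, mul_one])
  refine ⟨b.repr a k, ∑ j, f j • b j, ?_, fun h => ?_⟩
  · rw [Finset.smul_sum]
    conv_lhs => rw [← b.sum_repr a]
    exact Finset.sum_congr rfl fun j _ => by rw [smul_smul, ← hf j]
  · have h2 := (lay_mem_smul_top b _ _).1 (mem_extI_iff.1 (Ideal.Quotient.eq_zero_iff_mem.1 h)) k
    rw [b.repr_sum_self, h1] at h2
    exact (maximalIdeal.isMaximal O).ne_top ((Ideal.eq_top_iff_one _).2 h2)

variable [StarRing A] [Ring B] [StarRing B] [Algebra O B] {i : A →ₐ[O] B}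

omit [IsDomain O] [ValuationRing O] [Module.Finite O A] [Module.Free O A] in
theorem GenF.cancel (hi : GenF i) {c : O} (hc : c ≠ 0) {x y : B} (h : c • x = c • y) : x = y := by
  rw [Algebra.smul_def, Algebra.smul_def] at h
  exact (hi.unit c hc).mul_left_cancel h

/-- An element of the generic fibre is integral or has a primitive multiple. -/
theorem GenF.prim (hi : GenF i) (y : B) : (∃ a, i a = y) ∨
    ∃ c ∈ maximalIdeal O, ∃ n, c • y = i n ∧ qm (maximalIdeal O) n ≠ 0 := by
  obtain ⟨d, hd, a, ha⟩ := hi.den y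
  by_cases h0 : a = 0
  · exact Or.inl ⟨0, hi.cancel hd (by rw [ha, h0, map_zero, smul_zero])⟩
  obtain ⟨c, n, rfl, hn⟩ := exists_prim (O := O) h0
  rcases ValuationRing.dvd_total d c with ⟨e, rfl⟩ | ⟨e, rfl⟩
  · exact Or.inl ⟨e • n, hi.cancel hd (by rw [ha, mul_smul, map_smul i d])⟩
  have h1 : e • y = i n := hi.cancel (left_ne_zero_of_mul hd) (by rw [← mul_smul, ha, map_smul])
  by_cases he : IsUnit e
  · obtain ⟨e, rfl⟩ := he
    exact Or.inl ⟨((e⁻¹ : Oˣ) : O) • n, by
      rw [map_smul, ← h1, smul_smul, Units.inv_mul, one_smul]⟩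
  · exact Or.inr ⟨e, he, n, h1, hn⟩

omit [Module.Finite O A] [Module.Free O A] in
theorem GenF.alt [StarFix O A] (hi : GenF i) {nrd : A → O} (hb : Base nrd) {a : A}
    (h : Alt (i a)) : Alt a := by
  obtain ⟨b, hb'⟩ := h
  obtain ⟨d, hd, c, hc⟩ := hi.den b
  refine hb.sat d a hd ⟨c, hi.inj ?_⟩
  have h1 : star (algebraMap O B d) = algebraMap O B d := by
    rw [← i.commutes, ← hi.map_star, StarFix.fix]
  rw [map_smul, map_sub, hi.map_star, ← hc, hb', smul_sub, Algebra.smul_def d b, star_mul, h1,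
    Algebra.smul_def, Algebra.commutes d (star b)]

omit [IsDomain O] [ValuationRing O] [Module.Free O A] in
theorem GenF.finite {K : Type*} [Field K] [Algebra O K] [FaithfulSMul O K] [Algebra K B]
    [IsScalarTower O K B] (hi : GenF i) : FiniteDimensional K B := by
  obtain ⟨s, hs⟩ := Module.Finite.fg_top (R := O) (M := A)
  classical
  have key : ∀ a : A, i a ∈ Submodule.span K ((s.image i : Finset B) : Set B) := fun a => by
    have ha : a ∈ Submodule.span O (s : Set A) := hs ▸ Submodule.mem_top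
    induction ha using Submodule.span_induction with
    | mem y hy => exact Submodule.subset_span (Finset.mem_coe.2 (Finset.mem_image_of_mem _ hy))
    | zero => rw [map_zero]; exact zero_mem _
    | add y z _ _ hy hz => rw [map_add]; exact add_mem hy hz
    | smul t y _ hy => rw [map_smul]; exact Submodule.smul_of_tower_mem _ _ hy
  refine ⟨⟨s.image i, top_le_iff.1 fun x _ => ?_⟩⟩
  obtain ⟨d, hd, a, ha⟩ := hi.den x
  have hd' : algebraMap O K d ≠ 0 := (map_ne_zero_iff _ (FaithfulSMul.algebraMap_injective O K)).2 hd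
  have h1 : x = (algebraMap O K d)⁻¹ • i a := by
    rw [← ha, ← algebraMap_smul K d x, smul_smul, inv_mul_cancel₀ hd', one_smul]
  rw [h1]
  exact Submodule.smul_mem _ _ (key a)

end

/-- V0 -/
theorem exists_v0 {O K A B : Type*} [CommRing O] [IsDomain O] [ValuationRing O]
    [Infinite (ResidueField O)] [Field K] [Algebra O K] [IsFractionRing O K] [Ring A] [StarRing A]
    [Algebra O A] [StarFix O A] [Module.Finite O A] [Module.Free O A] [Ring B] [StarRing B]
    [Algebra O B] [StarFix O B] [Algebra K B] [IsScalarTower O K B] {i : A →ₐ[O] B} (hi : GenF i)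
    {nrd : A → O} (hb : Base nrd) {l g : A} (hl : l + star l = 1) (hg : Iso (i l) (i g))
    (hg' : i g * star (i g) = 1) {y : Bˣ} (hy : La (i l) y) (hu : IsUnit (1 - i g * gl y)) :
    ∃ l1 l2 : Aˣ, La l l1 ∧ La l l2 ∧ g = gl l1 * gl l2 := by
  have := hb.avg.isSemisimpleRing
  have := hi.finite (K := K)
  have hlB : i l + star (i l) = 1 := by rw [← hi.map_star, ← map_add, hl, map_one]
  have hgA : Iso l g := hi.alt hb (hg.of_eq (by rw [map_sub, map_mul, map_mul, hi.map_star]))
  have hgu : IsUnit g := ⟨⟨g, star g, hi.inj (by rw [map_mul, hi.map_star, hg', map_one]),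
    hgA.star_mul_self hl⟩, rfl⟩
  obtain ⟨l0, h0⟩ := exists_unit_la O hl
  obtain ⟨_, hl1, hfin⟩ := kd (F := ResidueField O) vreg hb.prime
    (l0 := Units.map (qm (maximalIdeal O)).toMonoidHom l0) (l := qm (maximalIdeal O) l)
    (h0.map (qm (maximalIdeal O)) (qm_star _))
    (hgu.map (qm (maximalIdeal O)))
  obtain ⟨l1, h1, rfl⟩ := La.lift _ (qm_star _) (qm_surjective (maximalIdeal O)) hl1
  have h1B : La (i l) (i l1) := h1.map (i : A →+* B) hi.map_star
  obtain ⟨d, hd, n1, hn1⟩ := hi.den ((y : B) - i l1)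
  have hn : Alt n1 := hi.alt hb (hn1 ▸ (hy.sub h1B).smul d)
  have hd' : algebraMap O K d ≠ 0 := (map_ne_zero_iff _ (IsFractionRing.injective O K)).2 hd
  have hK : IsUnit ((1 - i g) * i l1 + i g + (algebraMap O K d)⁻¹ • ((1 - i g) * i n1)) := by
    rw [← mul_smul_comm, ← hn1, ← algebraMap_smul K d, smul_smul, inv_mul_cancel₀ hd', one_smul,
      add_right_comm, ← mul_add, add_sub_cancel]
    rw [one_sub_mul_gl] at hu
    simpa using hu.mul y.isUnit
  obtain ⟨t, ht⟩ := ((hfin _ (hn.map _ (qm_star _))).union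
    (((finite_not_isUnit' hK).preimage (IsFractionRing.injective O K).injOn).image
      (residue O))).exists_notMem
  obtain ⟨τ, rfl⟩ := residue_surjective t
  rw [Set.mem_union, not_or, Set.mem_ofPred_eq, not_not, res_smul, ← map_add] at ht
  obtain ⟨⟨h2, h3⟩, h4⟩ := ht
  obtain ⟨l2, hl2⟩ := isUnit_of_qm h2
  have h5 : La l l2 := hl2 ▸ h1.add_alt (hn.smul τ)
  have h6 : IsUnit (i (1 - g * gl l2)) := by
    rw [one_sub_mul_gl, map_mul]
    refine IsUnit.mul ?_ ((l2⁻¹).isUnit.map i)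
    by_contra hc
    refine h4 ⟨τ, fun h => hc ?_, rfl⟩
    rw [hl2, map_add, map_mul, map_sub, map_one, map_add, map_smul, mul_add, mul_smul_comm,
      add_right_comm]
    rwa [algebraMap_smul] at h
  suffices h7 : IsUnit (1 - g * gl l2) by
    obtain ⟨l', a1, -, a2, -⟩ := hgA.exists_gl_mul_gl hl h5 h7
    exact ⟨l', star l2, a1, h5.star, a2⟩
  obtain ⟨Y, hY⟩ := h6
  have h8 : La (i l) ((Y⁻¹ : Bˣ) : B) :=
    ((hgA.mul (h5.iso_gl hl)).map (i : A →+* B) hi.map_star).la_inv hlB (by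
      have e := Y.mul_inv
      rwa [hY, map_sub, map_one] at e)
  rcases hi.prim ((Y⁻¹ : Bˣ) : B) with ⟨a, ha⟩ | ⟨c, hc, n, e1, e2⟩
  · exact ⟨⟨_, a, hi.inj (by rw [map_mul, ← hY, ha, Y.mul_inv, map_one]),
      hi.inj (by rw [map_mul, ← hY, ha, Y.inv_mul, map_one])⟩, rfl⟩
  exfalso
  have e3 : Alt (n - c • l) := hi.alt hb ((Alt.smul h8 c).of_eq (by
    rw [map_sub, map_smul, ← e1, smul_sub]))
  have e4 : Alt (qm (maximalIdeal O) n) := (e3.map _ (qm_star (maximalIdeal O))).of_eq (by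
    rw [map_sub, qm_smul hc, sub_zero])
  have e5 : (1 - g * gl l2) * n = c • (1 : A) := hi.inj (by
    rw [map_mul, ← hY, ← e1, mul_smul_comm, Y.mul_inv, map_smul, map_one])
  have e6 := h3 (qm (maximalIdeal O) ((l2⁻¹ : Aˣ) * n)) (by
    rw [← hl2, ← qm_smul hc (1 : A), ← e5, one_sub_mul_gl, mul_assoc]
    simp only [map_mul, map_add, map_sub, map_one])
  have e7 := e6.mul_left (qm (maximalIdeal O) l2)
  rw [← map_mul, Units.mul_inv_cancel_left] at e7
  exact e2 (alt_eq_zero_of_r1 vreg hb.prime e4 e7)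

end Pool.Agent.GSD
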