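import Pool.Agent.P.MP_c1f06d_ag.d.TUnit
import Pool.Agent.P.MP_c1f06d_ag.Tors3

open Matrix TensorProduct IsLocalRing Pool.Agent.P.MP_c1f06d_ag

universe u

namespace Pool.Agent.GSD

variable {R : Type u} [CommRing R]

/-- The version of `exists_unit_of_span` at one residue field. -/
theorem exists_unit_at {S A κ : Type u} [CommRing S] [Algebra R S] [Ring A] [Algebra R A]
    [Module.Finite R A] [Field κ] [Algebra R κ] (ρ : S →ₐ[R] κ) (hρ : Function.Surjective ρ)
    (hm : (RingHom.ker (algebraMap R κ)).IsMaximal) {d : ℕ}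
    (φ : A →ₐ[R] Matrix (Fin d) (Fin d) S) (hφ : ∀ X, X ∈ Submodule.span S (Set.range φ))
    (M M' : AddSubgroup (Matrix (Fin d) (Fin d) S))
    (hM : ∀ X, X ∈ Submodule.span S (M : Set (Matrix (Fin d) (Fin d) S)))
    (hM' : ∀ X, X ∈ Submodule.span S (M' : Set (Matrix (Fin d) (Fin d) S)))
    (h1 : ∀ y ∈ M', ∀ x ∈ M, ∃ a, φ a = y * x)
    (h2 : ∀ x ∈ M, ∀ a, x * φ a ∈ M) (h3 : ∀ y ∈ M', ∀ a, φ a * y ∈ M') :
    ∃ x ∈ M, ρ x.det ≠ 0 := by
  let k := R ⧸ RingHom.ker (algebraMap R κ)
  let _ : Field k := Ideal.Quotient.field _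
  let _ : Algebra k κ := (RingHom.kerLift (algebraMap R κ)).toAlgebra
  have : IsScalarTower R k κ := IsScalarTower.of_algebraMap_eq fun _ => rfl
  let π : Matrix (Fin d) (Fin d) S →ₐ[R] Matrix (Fin d) (Fin d) κ := ρ.mapMatrix
  have hsp : ∀ s : Set (Matrix (Fin d) (Fin d) S), (∀ X, X ∈ Submodule.span S s) →
      ∀ X, X ∈ Submodule.span κ (π '' s) := fun s hs X => by
    choose Y hY using fun i j => hρ (X i j)
    obtain rfl : π (Matrix.of Y) = X := by ext i j; exact hY i j
    generalize Matrix.of Y = Z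
    induction hs Z using Submodule.span_induction with
    | mem x hx => exact Submodule.subset_span ⟨x, hx, rfl⟩
    | zero => rw [map_zero]; exact zero_mem _
    | add x y _ _ hx hy => rw [map_add]; exact add_mem hx hy
    | smul t x _ hx =>
      have : π (t • x) = ρ t • π x := by
        ext i j; exact map_mul ρ t (x i j)
      rw [this]; exact Submodule.smul_mem _ _ hx
  let D : Subalgebra k (Matrix (Fin d) (Fin d) κ) :=
    { (π.comp φ).range.toSubsemiring with
      algebraMap_mem' := fun c => by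
        obtain ⟨t, rfl⟩ := Ideal.Quotient.mk_surjective c
        exact ⟨algebraMap R A t, ((π.comp φ).commutes t).trans
          (IsScalarTower.algebraMap_apply R k _ t)⟩ }
  have hfin : Module.Finite R D := Module.Finite.of_surjective
    ({ toFun := fun a => ⟨π (φ a), a, rfl⟩
       map_add' := fun a b => Subtype.ext (by simp)
       map_smul' := fun t a => Subtype.ext (by simp) } : A →ₗ[R] D)
    (by rintro ⟨_, a, rfl⟩; exact ⟨a, rfl⟩)
  have : Module.Finite k D := Module.Finite.of_restrictScalars_finite R k D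
  have : IsArtinianRing D := IsArtinianRing.of_finite k D
  have hss : IsSemisimpleRing D := ss_of_prime fun a b h =>
    (mat_prime_of_span (hsp _ hφ) (a := a.1) (b := b.1) (by
      rintro _ ⟨_, ⟨c, rfl⟩, rfl⟩
      exact congrArg Subtype.val (h ⟨π (φ c), c, rfl⟩))).imp Subtype.ext Subtype.ext
  have : IsSemisimpleRing D.toSubring := hss
  obtain ⟨_, ⟨x, hx, rfl⟩, hu⟩ := exists_unit_field D.toSubring
    (M.map π.toRingHom.toAddMonoidHom) (M'.map π.toRingHom.toAddMonoidHom) (hsp _ hM) (hsp _ hM')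
    (by
      rintro _ ⟨y, hy, rfl⟩ _ ⟨x, hx, rfl⟩
      obtain ⟨a, ha⟩ := h1 y hy x hx
      exact ⟨a, (congrArg π ha).trans (map_mul π y x)⟩)
    (by
      rintro _ ⟨x, hx, rfl⟩ _ ⟨a, rfl⟩
      exact ⟨x * φ a, h2 x hx a, map_mul π x (φ a)⟩)
    (by
      rintro _ ⟨y, hy, rfl⟩ _ ⟨a, rfl⟩
      exact ⟨φ a * y, h3 y hy a, map_mul π (φ a) y⟩)
  refine ⟨x, hx, ?_⟩
  rw [isUnit_iff_isUnit_det] at hu
  rw [AlgHom.map_det]
  exact hu.ne_zero

variable {ι : Type u} [Fintype ι] [DecidableEq ι] {L : ι → Type u} [∀ i, CommRing (L i)]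
  [∀ i, Algebra R (L i)] [∀ i, IsLocalRing (L i)]

/-- The local rings `L i` lie over distinct maximal ideals. -/
structure Sepa (R : Type u) [CommRing R] (L : ι → Type u) [∀ i, CommRing (L i)]
    [∀ i, Algebra R (L i)] [∀ i, IsLocalRing (L i)] : Prop where
  max : ∀ i, (RingHom.ker (algebraMap R (ResidueField (L i)))).IsMaximal
  sep : ∃ z : ι → R, ∀ i j, algebraMap R (ResidueField (L j)) (z i) = if i = j then 1 else 0

/-- The map to the residue field of a factor. -/
noncomputable def resAt (R : Type u) [CommRing R] (L : ι → Type u) [∀ i, CommRing (L i)]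
    [∀ i, Algebra R (L i)] [∀ i, IsLocalRing (L i)] (i : ι) :
    (∀ j, L j) →ₐ[R] ResidueField (L i) :=
  (IsScalarTower.toAlgHom R (L i) (ResidueField (L i))).comp (Pi.evalAlgHom R L i)

omit [Fintype ι] in
theorem resAt_surjective (i : ι) : Function.Surjective (resAt R L i) := fun y => by
  obtain ⟨x, rfl⟩ := residue_surjective y
  exact ⟨Pi.single i x, congrArg (residue (L i)) (Pi.single_eq_same i x)⟩

omit [Fintype ι] [DecidableEq ι] in
theorem isUnit_of_resAt {x : ∀ j, L j} (h : ∀ i, resAt R L i x ≠ 0) : IsUnit x :=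
  Pi.isUnit_iff.2 fun i => (residue_ne_zero_iff_isUnit _).1 (h i)

theorem Sepa.glue (hS : Sepa R L) {n : ℕ} (W : Submodule R (Matrix (Fin n) (Fin n) (∀ j, L j)))
    (H : ∀ i, ∃ X ∈ W, resAt R L i X.det ≠ 0) : ∃ X ∈ W, IsUnit X.det := by
  obtain ⟨z, hz⟩ := hS.sep
  choose X hX hd using H
  refine ⟨∑ i, z i • X i, W.sum_mem fun i _ => W.smul_mem _ (hX i), isUnit_of_resAt (R := R)
    fun j => ?_⟩
  have e : (resAt R L j).mapMatrix (∑ i, z i • X i) = (resAt R L j).mapMatrix (X j) := by
    rw [map_sum, Finset.sum_eq_single j (fun i _ hi => by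
      rw [map_smul, ← algebraMap_smul (ResidueField (L j)), hz, if_neg hi, zero_smul])
      (fun h => absurd (Finset.mem_univ j) h), map_smul, ← algebraMap_smul (ResidueField (L j)), hz,
      if_pos rfl, one_smul]
  rw [AlgHom.map_det, e, ← AlgHom.map_det]
  exact hd j

theorem Sepa.rows (hS : Sepa R L) {n : ℕ} (M : Submodule R (Fin n → ∀ j, L j))
    (hM : ∀ x, x ∈ Submodule.span (∀ j, L j) (M : Set (Fin n → ∀ j, L j))) :
    ∃ A : Matrix (Fin n) (Fin n) (∀ j, L j), IsUnit A.det ∧ ∀ i, A i ∈ M := by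
  obtain ⟨A, hA, hu⟩ := hS.glue (Submodule.pi Set.univ fun _ : Fin n => M) fun i => by
    obtain ⟨A, hA, hr⟩ := h90_rows (S := ResidueField (L i))
      ((fun v => resAt R L i ∘ v) '' (M : Set (Fin n → ∀ j, L j))) fun x => by
        obtain ⟨y, rfl⟩ := (resAt_surjective (R := R) (L := L) i).comp_left x
        induction hM y using Submodule.span_induction with
        | mem x hx => exact Submodule.subset_span ⟨x, hx, rfl⟩
        | zero =>
          have : (resAt R L i ∘ (0 : Fin n → ∀ j, L j)) = 0 := funext fun _ => map_zero _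
          beta_reduce; rw [this]; exact zero_mem _
        | add x y _ _ hx hy =>
          have : (resAt R L i ∘ (x + y)) = resAt R L i ∘ x + resAt R L i ∘ y :=
            funext fun _ => map_add _ _ _
          beta_reduce; rw [this]; exact add_mem hx hy
        | smul t x _ hx =>
          have : (resAt R L i ∘ (t • x)) = resAt R L i t • (resAt R L i ∘ x) :=
            funext fun _ => map_mul _ _ _
          beta_reduce; rw [this]; exact Submodule.smul_mem _ _ hx
    choose v hv he using hr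
    refine ⟨Matrix.of v, fun k _ => hv k, ?_⟩
    have e : (resAt R L i).mapMatrix (Matrix.of v) = A := funext he
    rw [AlgHom.map_det, e]
    exact hA.ne_zero
  exact ⟨A, hu, fun i => hA i trivial⟩

theorem Sepa.exists_unit (hS : Sepa R L) {A : Type u} [Ring A] [Algebra R A] [Module.Finite R A]
    {d : ℕ} (φ : A →ₐ[R] Matrix (Fin d) (Fin d) (∀ j, L j))
    (hφ : ∀ X, X ∈ Submodule.span (∀ j, L j) (Set.range φ))
    (M M' : AddSubgroup (Matrix (Fin d) (Fin d) (∀ j, L j)))
    (hM : ∀ X, X ∈ Submodule.span (∀ j, L j) (M : Set (Matrix (Fin d) (Fin d) (∀ j, L j))))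
    (hM' : ∀ X, X ∈ Submodule.span (∀ j, L j) (M' : Set (Matrix (Fin d) (Fin d) (∀ j, L j))))
    (h1 : ∀ y ∈ M', ∀ x ∈ M, ∃ a, φ a = y * x)
    (h2 : ∀ x ∈ M, ∀ a, x * φ a ∈ M) (h3 : ∀ y ∈ M', ∀ a, φ a * y ∈ M') :
    ∃ x ∈ M, IsUnit x := by
  let W : Submodule R (Matrix (Fin d) (Fin d) (∀ j, L j)) :=
    { M with
      smul_mem' := fun c x hx => by
        have := h2 x hx (algebraMap R A c)
        rwa [AlgHom.commutes, ← Algebra.commutes, ← Algebra.smul_def] at this }
  obtain ⟨x, hx, hu⟩ := hS.glue W fun i =>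
    exists_unit_at (resAt R L i) (resAt_surjective i) (hS.max i) φ hφ M M' hM hM' h1 h2 h3
  exact ⟨x, hx, (isUnit_iff_isUnit_det _).2 hu⟩

/-- A ring with finitely many maximal ideals has a cover by a finite product of local rings. -/
theorem exists_semi_cover (R E : Type u) [CommRing R] [Finite (MaximalSpectrum R)] [CommRing E]
    [Algebra R E] [Module.FaithfullyFlat R E] :
    ∃ (ι : Type u) (_ : Fintype ι) (_ : DecidableEq ι) (L : ι → Type u) (_ : ∀ i, CommRing (L i))
      (_ : ∀ i, Algebra R (L i)) (_ : ∀ i, IsLocalRing (L i)),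
      Sepa R L ∧ Module.FaithfullyFlat R (∀ i, L i) ∧ (∀ i, Module.Flat R (L i)) ∧
        (∀ i, Infinite (ResidueField (L i))) ∧ Nonempty (E →ₐ[R] ∀ i, L i) := by
  classical
  have := Fintype.ofFinite (MaximalSpectrum R)
  have key : ∀ m : MaximalSpectrum R, ∃ (S : Type u) (_ : CommRing S) (_ : Algebra R S)
      (_ : IsLocalRing S), RingHom.ker (algebraMap R (ResidueField S)) = m.asIdeal ∧
        Module.Flat R S ∧ Infinite (ResidueField S) ∧ Nonempty (E →ₐ[R] S) := by
    intro m
    have := m.isMaximal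
    obtain ⟨n, hn, hn'⟩ := Ideal.exists_isPrime_liesOver_of_faithfullyFlat (B := E) m.asIdeal
    let S1 := Localization.AtPrime n
    have hflat : Module.Flat R S1 := Module.Flat.trans R E S1
    have hff2 : Module.FaithfullyFlat S1 (RX S1) := faithfullyFlat_RX S1
    refine ⟨RX S1, inferInstance, inferInstance, inferInstance, ?_, Module.Flat.trans R S1 (RX S1),
      infinite_residueField_RX S1,
      ⟨(IsScalarTower.toAlgHom R S1 (RX S1)).comp (IsScalarTower.toAlgHom R E S1)⟩⟩
    ext a
    rw [RingHom.mem_ker, IsScalarTower.algebraMap_apply R (RX S1), ResidueField.algebraMap_eq,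
      residue_eq_zero_iff, mem_maximalIdeal, mem_nonunits_iff, IsScalarTower.algebraMap_apply R S1,
      isUnit_map_iff, IsScalarTower.algebraMap_apply R E S1,
      IsLocalization.AtPrime.isUnit_to_map_iff S1 n, hn'.over, Ideal.under, Ideal.mem_comap]
    exact not_not
  choose L i1 i2 i3 hk hf hi he using key
  have hz : ∀ i : MaximalSpectrum R, ∃ z : R, ∀ j, z - (if i = j then 1 else 0) ∈ j.asIdeal :=
    fun i => Ideal.exists_forall_sub_mem_ideal (I := fun j : MaximalSpectrum R => j.asIdeal)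
      (fun _ _ h => MaximalSpectrum.isCoprime_of_ne h) _
  choose z hz using hz
  have hfl : Module.Flat R (∀ i, L i) :=
    Module.Flat.of_linearEquiv (DFinsupp.linearEquivFunOnFintype (R := R) (M := L)).symm
  refine ⟨MaximalSpectrum R, inferInstance, inferInstance, L, i1, i2, i3,
    ⟨fun i => hk i ▸ i.isMaximal, z, fun i j => ?_⟩, ⟨fun m hm h => ?_⟩, hf, hi,
    ⟨AlgHom.pi fun i => (he i).some⟩⟩
  · have h1 := hz i j
    rw [← hk, RingHom.mem_ker, map_sub, sub_eq_zero] at h1
    rw [h1]
    split_ifs <;> simp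
  · have h1 : ∀ x ∈ m • (⊤ : Submodule R (∀ i, L i)), resAt R L ⟨m, hm⟩ x = 0 := fun x hx => by
      refine Submodule.smul_induction_on hx (fun r hr y _ => ?_) fun x y hx hy => ?_
      · have h2 : r ∈ RingHom.ker (algebraMap R (ResidueField (L ⟨m, hm⟩))) := (hk ⟨m, hm⟩).symm ▸ hr
        rw [map_smul, Algebra.smul_def, RingHom.mem_ker.1 h2, zero_mul]
      · rw [map_add, hx, hy, add_zero]
    exact one_ne_zero ((map_one _).symm.trans (h1 1 (by rw [h]; exact Submodule.mem_top)))

/-- Every spanning submodule over the base contains a basis. -/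
structure Rows (R S : Type u) [CommRing R] [CommRing S] [Algebra R S] : Prop where
  rows : ∀ {n : ℕ} (M : Submodule R (Fin n → S)),
    (∀ x, x ∈ Submodule.span S (M : Set (Fin n → S))) →
      ∃ A : Matrix (Fin n) (Fin n) S, IsUnit A.det ∧ ∀ i, A i ∈ M

theorem h90_semi {S : Type u} [CommRing S] [Algebra R S] [Module.Flat R S] (hS : Rows R S) {n : ℕ}
    (g : ∀ (T : Type u) [CommRing T] [Algebra R T],
      (S →ₐ[R] T) → (S →ₐ[R] T) → Matrix (Fin n) (Fin n) T)
    (hnat : ∀ (T T' : Type u) [CommRing T] [Algebra R T] [CommRing T'] [Algebra R T']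
      (f : T →ₐ[R] T') (a b : S →ₐ[R] T), (g T a b).map f = g T' (f.comp a) (f.comp b))
    (hone : ∀ (T : Type u) [CommRing T] [Algebra R T] (a : S →ₐ[R] T), g T a a = 1)
    (hmul : ∀ (T : Type u) [CommRing T] [Algebra R T] (a b c : S →ₐ[R] T),
      g T b c * g T a b = g T a c) :
    ∃ h : Matrix (Fin n) (Fin n) S, IsUnit h.det ∧
      ∀ (T : Type u) [CommRing T] [Algebra R T] (a b : S →ₐ[R] T),
        g T a b * h.map a = h.map b := by
  set il : S →ₐ[R] S ⊗[R] S := Algebra.TensorProduct.includeLeft with hil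
  set ir : S →ₐ[R] S ⊗[R] S := Algebra.TensorProduct.includeRight with hir
  set G := g (S ⊗[R] S) il ir with hG
  have hspan : ∀ x, x ∈ Submodule.span S (LinearMap.ker (h90d G) : Set (Fin n → S)) := by
    intro x
    obtain ⟨ξ, hξ⟩ := (piRight R R S (fun _ : Fin n => S)).surjective (G *ᵥ fun i => il (x i))
    rw [piRight_apply] at hξ
    have h0 : (h90d G).lTensor S ξ = 0 := by
      apply (piRight R R S (fun _ : Fin n => S ⊗[R] S)).injective
      rw [map_zero, piRight_apply]
      funext i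
      rw [h90_lTensor, hξ]
      set p12 := Algebra.TensorProduct.map (AlgHom.id R S) il with hp12
      set p13 := Algebra.TensorProduct.map (AlgHom.id R S) ir with hp13
      set p23 : S ⊗[R] S →ₐ[R] S ⊗[R] (S ⊗[R] S) := Algebra.TensorProduct.includeRight with hp23
      have e1 : p13.comp il = p12.comp il := by
        rw [hp12, hp13, hil, Algebra.TensorProduct.map_comp_includeLeft,
          Algebra.TensorProduct.map_comp_includeLeft]
      have e2 : p23.comp il = p12.comp ir := by
        rw [hp12, hir, Algebra.TensorProduct.map_comp_includeRight]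
      have e3 : p23.comp ir = p13.comp ir := by
        rw [hp13, hir, Algebra.TensorProduct.map_comp_includeRight]
      have hc : G.map p23 * G.map p12 = G.map p13 := by
        rw [hG, hnat, hnat, hnat, e1, e2, e3, hmul]
      have hx : ∀ k, p13 (il (x k)) = p12 (il (x k)) := fun k => AlgHom.congr_fun e1 (x k)
      have hc' : ∀ k, p13 (G i k) = ∑ j, ((1 : S) ⊗ₜ[R] G i j) * p12 (G j k) := fun k =>
        (congrFun (congrFun hc i) k).symm
      simp only [mulVec, dotProduct, map_sum, map_mul, hx, hc', Finset.mul_sum, Finset.sum_mul,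
        Pi.zero_apply, mul_assoc]
      rw [Finset.sum_comm, sub_self]
    obtain ⟨η, hη⟩ :=
      (Module.Flat.lTensor_exact S (LinearMap.exact_subtype_ker_map (h90d G)) ξ).1 h0
    have h1 := h90_mem_span (LinearMap.ker (h90d G)) η
    rw [hη, hξ] at h1
    have h2 : G.map (Algebra.TensorProduct.lmul' R : S ⊗[R] S →ₐ[R] S) = 1 := by
      rw [hG, hnat, hil, hir, Algebra.TensorProduct.lmul'_comp_includeLeft,
        Algebra.TensorProduct.lmul'_comp_includeRight, hone]
    have h3 : (fun i => Algebra.TensorProduct.lmul' R ((G *ᵥ fun i => il (x i)) i)) = x := by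
      funext i
      have h4 : ∀ j, Algebra.TensorProduct.lmul' R (G i j) = (1 : Matrix (Fin n) (Fin n) S) i j :=
        fun j => congrFun (congrFun h2 i) j
      have h5 : ∀ j, Algebra.TensorProduct.lmul' R (il (x j)) = x j := fun j => by simp [hil]
      simp only [mulVec, dotProduct, map_sum, map_mul, h4, h5]
      exact congrFun (one_mulVec x) i
    rwa [h3] at h1
  obtain ⟨A, hA, hM⟩ := hS.rows _ hspan
  refine ⟨Aᵀ, by rwa [det_transpose], fun T _ _ a b => ?_⟩
  have h6 : g T a b = G.map (Algebra.TensorProduct.productMap a b) := by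
    rw [hG, hnat, hil, hir, Algebra.TensorProduct.productMap_left,
      Algebra.TensorProduct.productMap_right]
  ext i k
  have h7 : h90d G (A k) i = 0 := congrFun (LinearMap.mem_ker.1 (hM k)) i
  rw [h90d_apply, sub_eq_zero] at h7
  have h8 := congrArg (Algebra.TensorProduct.productMap a b) h7
  simp only [map_sum, map_mul, Algebra.TensorProduct.productMap_left_apply,
    Algebra.TensorProduct.productMap_right_apply] at h8
  rw [h6, mul_apply]
  simpa only [map_apply, transpose_apply] using h8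

theorem h90_one_semi {S : Type u} [CommRing S] [Algebra R S] [Module.Flat R S] (hS : Rows R S)
    (g : ∀ (T : Type u) [CommRing T] [Algebra R T], (S →ₐ[R] T) → (S →ₐ[R] T) → T)
    (hnat : ∀ (T T' : Type u) [CommRing T] [Algebra R T] [CommRing T'] [Algebra R T']
      (f : T →ₐ[R] T') (a b : S →ₐ[R] T), f (g T a b) = g T' (f.comp a) (f.comp b))
    (hone : ∀ (T : Type u) [CommRing T] [Algebra R T] (a : S →ₐ[R] T), g T a a = 1)
    (hmul : ∀ (T : Type u) [CommRing T] [Algebra R T] (a b c : S →ₐ[R] T),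
      g T b c * g T a b = g T a c) :
    ∃ s : S, IsUnit s ∧ ∀ (T : Type u) [CommRing T] [Algebra R T] (a b : S →ₐ[R] T),
      g T a b * a s = b s := by
  obtain ⟨h, h1, h2⟩ := h90_semi (R := R) (S := S) hS (n := 1)
    (fun T _ _ a b => Matrix.of fun _ _ => g T a b)
    (fun T T' _ _ _ _ f a b => by ext i j; simp [hnat])
    (fun T _ _ a => by ext i j; rw [Subsingleton.elim i j]; simp [hone])
    (fun T _ _ a b c => by ext i j; simp [Matrix.mul_apply, hmul])
  refine ⟨h 0 0, by simpa using h1, fun T _ _ a b => ?_⟩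
  simpa [Matrix.mul_apply] using congrFun (congrFun (h2 T a b) 0) 0

end Pool.Agent.GSD
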