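import Pool.Agent.P.MP_c1f06d_ag.d.TMain
import Pool.Agent.P.MP_c1f06d_ag.d.WT1

open Matrix CliffordAlgebra TensorProduct IsLocalRing Pool.Agent.P.MP_c1f06d_ag

universe u

namespace Pool.Agent.GSD

variable {R A : Type u} [CommRing R] [Ring A] [Algebra R A] [StarRing A] {l : A} {d : ℕ}
variable {T T' S : Type u} [CommRing T] [Algebra R T] [CommRing T'] [Algebra R T']
  [CommRing S] [Algebra R S] {E : Type u} [CommRing E] [Algebra R E]
variable {ι : Type u} [Fintype ι] [DecidableEq ι] {L : ι → Type u} [∀ i, CommRing (L i)]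
  [∀ i, Algebra R (L i)]

namespace Splitting

theorem Sem.ctr {s : Splitting R l d T} {s' : Splitting R l d T'} {f : T →ₐ[R] T'}
    {Ψ : s.C →+* s'.C} (H : s.Sem s' f 1 Ψ) (i : Fin d) (x : s.C) :
    Ψ (contractLeft (Q := s.q) (LinearMap.proj i) x) =
      contractLeft (Q := s'.q) (LinearMap.proj i) (Ψ x) :=
  semi_ctr (f := f.toRingHom) H.1 H.2 (fun v => by rw [one_mulVec]; rfl) x

omit [Fintype ι] [DecidableEq ι] in
theorem eq_zero_pi {s : Splitting R l d (∀ i, L i)}
    {Ψ : ∀ i, s.C →+* (s.map (Pi.evalAlgHom R L i)).C}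
    (H : ∀ i, s.Sem (s.map (Pi.evalAlgHom R L i)) (Pi.evalAlgHom R L i) 1 (Ψ i)) {x : s.C}
    (hx : ∀ i, Ψ i x = 0) : x = 0 := by
  have key : ∀ t : Finset (Fin d), ∀ x ∈ cliffSub s.Q (∀ i, L i) t, (∀ i, Ψ i x = 0) → x = 0 := by
    intro t
    induction t using Finset.induction_on with
    | empty =>
      intro x hx h1
      rw [cliffSub, Finset.coe_empty, Set.image_empty, Algebra.adjoin_empty, Algebra.mem_bot] at hx
      obtain ⟨c, rfl⟩ := hx
      have : c = 0 := funext fun i => by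
        have h2 := h1 i
        rw [(H i).1, ← map_zero (algebraMap (L i) (s.map (Pi.evalAlgHom R L i)).C)] at h2
        exact cl_algebraMap_injective h2
      rw [this, map_zero]
    | insert k t hk ih =>
      intro x hx h1
      obtain ⟨a, ha, b, hb, e⟩ := cliff_split k t hx
      have h3 : b = 0 := ih b hb fun i => by
        have h2 := (H i).ctr k x
        rw [h1, map_zero, e, map_add, cliff_kill hk ha, contractLeft_ι_mul, cliff_kill hk hb] at h2
        simpa using h2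
      rw [h3, mul_zero, add_zero] at e
      exact ih x (e ▸ ha) h1
  exact key Finset.univ x (cliff_univ x) hx

theorem exists_even_of_surjective (s : Splitting R l d T) {f : T →ₐ[R] T'}
    (hf : Function.Surjective f) {Ψ : s.C →+* (s.map f).C} (H : s.Sem (s.map f) f 1 Ψ)
    {y : (s.map f).C} (hy : y ∈ even (s.map f).q) : ∃ x ∈ even s.q, Ψ x = y := by
  refine even_ind (P := fun y => ∃ x ∈ even s.q, Ψ x = y) (fun c => ?_) (fun X => ?_) ?_ ?_ hy
  · obtain ⟨c, rfl⟩ := hf c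
    exact ⟨_, Subalgebra.algebraMap_mem _ c, H.1 c⟩
  · choose Y hY using fun i j => hf (X i j)
    refine ⟨s.cm (Matrix.of Y), cm_even _, ?_⟩
    rw [H.cm (s.isHom_map f), tr_map]
    exact congrArg _ (Matrix.ext hY)
  · rintro x - y - ⟨x', a, rfl⟩ ⟨y', a', rfl⟩
    exact ⟨_, add_mem a a', map_add _ _ _⟩
  · rintro x - y - ⟨x', a, rfl⟩ ⟨y', a', rfl⟩
    exact ⟨_, mul_mem a a', map_mul _ _ _⟩

/-- Lifts over the factors give a lift over the product. -/
theorem gd_pi (s : Splitting R l d (∀ i, L i)) (h : Matrix (Fin d) (Fin d) (∀ i, L i))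
    (H : ∀ i, ∃ y ν, (s.map (Pi.evalAlgHom R L i)).Gd y
      (s.tr (s.map (Pi.evalAlgHom R L i)) (Pi.evalAlgHom R L i) h) ν) : ∃ y ν, s.Gd y h ν := by
  choose y ν hy using H
  choose Ψ hΨ using fun i => (s.isHom_map (Pi.evalAlgHom R L i)).exists_sem
  choose x hx he using fun i => s.exists_even_of_surjective (f := Pi.evalAlgHom R L i)
    (fun c => ⟨Pi.single i c, Pi.single_eq_same i c⟩) (hΨ i) (hy i).even
  obtain ⟨z, hz, hzy⟩ : ∃ z ∈ even s.q, ∀ j, Ψ j z = y j := by
    refine ⟨∑ i, (Pi.single i 1 : ∀ i, L i) • x i,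
      Subalgebra.sum_mem _ fun i _ => Subalgebra.smul_mem _ (hx i) _, fun j => ?_⟩
    rw [map_sum, Finset.sum_eq_single j (fun i _ hi => by
      rw [(hΨ j).smul, Pi.evalAlgHom_apply, Pi.single_eq_of_ne' hi, zero_smul])
      (fun h => absurd (Finset.mem_univ j) h), (hΨ j).smul, Pi.evalAlgHom_apply, Pi.single_eq_same,
      one_smul, he]
  refine ⟨z, ν, hz, fun v => ?_, Pi.isUnit_iff.2 fun i => ?_,
    Pi.isUnit_iff.2 fun i => (hy i).unit, ?_, ?_⟩
  · refine sub_eq_zero.1 (eq_zero_pi hΨ fun j => ?_)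
    rw [map_sub, map_mul, map_mul, (hΨ j).involute, (hΨ j).2, (hΨ j).2,
      ← tr_mulVec (s.isHom_map _), hzy, (hy j).ind, sub_self]
  · have := (hy i).det
    rwa [tr_map, ← AlgHom.mapMatrix_apply, ← AlgHom.map_det] at this
  · refine sub_eq_zero.1 (eq_zero_pi hΨ fun j => ?_)
    rw [map_sub, map_mul, (hΨ j).reverse, hzy, (hy j).norm, (hΨ j).1]
    exact sub_self _
  · refine sub_eq_zero.1 (eq_zero_pi hΨ fun j => ?_)
    rw [map_sub, map_mul, (hΨ j).reverse, hzy, (hy j).norm', (hΨ j).1]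
    exact sub_self _

/-- An isometry over a local ring with an even lift over some nonzero algebra has an even lift. -/
theorem gd_local [IsLocalRing S] [Infinite (ResidueField S)] [Nontrivial T] (s : Splitting R l d S)
    (r : S →ₐ[R] T) {h : Matrix (Fin d) (Fin d) S} (hc : Carries h s.Q s.Q) {x : (s.map r).C}
    {c : T} (G : (s.map r).Gd x (s.tr (s.map r) r h) c) : ∃ y ν, s.Gd y h ν := by
  obtain ⟨L, hL, hp⟩ := cartan_dieudonne s.unim' hc
  have hyi : Ind s.Q (vprod s.Q L) h := hp ▸ vprod_ind L hL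
  have hLe : Even L.length := by
    by_contra hodd
    have h3 := vprod_mem_evenOdd (Q := s.Q) L
    rw [(ZMod.natCast_eq_one_iff_odd).2 (Nat.not_even_iff_odd.1 hodd)] at h3
    obtain ⟨Ψ, hΨ⟩ := (s.isHom_map r).exists_sem
    obtain ⟨c', hc'⟩ := Ind.exists_smul (s.map r).unim G.det G.isUnit
      (hΨ.ind (s.isHom_map r) hyi) G.ind
    have h5 : c' • x ∈ evenOdd (s.map r).q 0 := Submodule.smul_mem _ _ G.even
    have h6 := (Submodule.disjoint_def.1 (evenOdd_isCompl _).disjoint) _ (hc' ▸ h5) (hΨ.odd h3)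
    have h7 := (isUnit_vprod L hL).map Ψ
    have : Nontrivial (s.map r).C := (cl_algebraMap_injective (Q := (s.map r).Q)).nontrivial
    rw [h6] at h7
    exact not_isUnit_zero h7
  exact ⟨vprod s.Q L, _, by
    have h1 := vprod_mem_evenOdd (Q := s.Q) L
    rwa [(ZMod.natCast_eq_zero_iff_even).2 hLe] at h1, hyi, hc.isUnit_det s.unim,
    isUnit_list_prod hL, reverse_vprod_mul L, vprod_mul_reverse L⟩

end Splitting

open Splitting

namespace PAct

variable (τ : PAct R l d E)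

section
variable (s : Splitting R l d S) (e : E →ₐ[R] S)

theorem exists_span' [Module.Flat R S] (hS : Rows R S) {N : ℕ}
    (u : Module.Basis (Fin N) R A) :
    ∃ x : Fin N → Matrix (Fin d) (Fin d) S, (∀ j, τ.Coc s e (x j)) ∧
      ∀ X, ∃ c : Fin N → S, X = ∑ j, c j • x j := by
  have hind : ∀ (T : Type u) [CommRing T] [Algebra R T] (s' : Splitting R l d T) (a b : S →ₐ[R] T),
      (s.map a).lm u (τ.gmat (s.map a) (a.comp e) (b.comp e)) =
        s'.lm u (τ.gmat s' (a.comp e) (b.comp e)) := fun T _ _ s' a b => by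
    have := (s.map a).lm_tr u s' (AlgHom.id R T) (τ.gmat (s.map a) (a.comp e) (b.comp e))
    rw [τ.gmat_map] at this
    exact this
  obtain ⟨H, hH, hh⟩ := h90_semi (R := R) (S := S) hS (n := N)
    (fun T _ _ a b => (s.map a).lm u (τ.gmat (s.map a) (a.comp e) (b.comp e)))
    (fun T T' _ _ _ _ f a b => by rw [lm_tr _ u (s.map (f.comp a)), τ.gmat_map]; rfl)
    (fun T _ _ a => by
      rw [τ.gmat_self, lm, LinearMap.mulLeft_one, LinearMap.toMatrix_id])
    (fun T _ _ a b c => by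
      rw [hind T (s.map a) b c, ← τ.gmat_mul _ (a.comp e) (b.comp e) (c.comp e), lm, lm, lm,
        LinearMap.mulLeft_mul, LinearMap.toMatrix_comp _ ((s.map a).baseChange.basis u)])
  have hx : ∀ j k, (s.baseChange.basis u).repr
      ((s.baseChange.basis u).equivFun.symm (Hᵀ j)) k = H k j := fun j k => by
    rw [← Module.Basis.equivFun_apply, LinearEquiv.apply_symm_apply]; rfl
  refine ⟨fun j => (s.baseChange.basis u).equivFun.symm (Hᵀ j), fun j T _ _ s' a b => ?_,
    fun X => ⟨H⁻¹ *ᵥ (s.baseChange.basis u).equivFun X, ?_⟩⟩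
  · refine (s'.baseChange.basis u).ext_elem fun k => ?_
    have h1 := congrFun (congrFun (hh T a b) k) j
    rw [hind T s'] at h1
    have h2 := congrFun (LinearMap.toMatrix_mulVec_repr (s'.baseChange.basis u)
      (s'.baseChange.basis u) (LinearMap.mulLeft T (τ.gmat s' (a.comp e) (b.comp e)))
      (s.tr s' a ((s.baseChange.basis u).equivFun.symm (Hᵀ j)))) k
    rw [LinearMap.mulLeft_apply] at h2
    rw [← h2, (s.isExt_tr s' b).repr s.baseChange, hx]
    refine Eq.trans ?_ h1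
    rw [Matrix.mul_apply, mulVec, dotProduct]
    refine Finset.sum_congr rfl fun m _ => ?_
    rw [(s.isExt_tr s' a).repr s.baseChange, hx]; rfl
  · apply (s.baseChange.basis u).equivFun.injective
    simp only [map_sum, map_smul, LinearEquiv.apply_symm_apply]
    conv_lhs => rw [← one_mulVec ((s.baseChange.basis u).equivFun X), ← mul_nonsing_inv _ hH,
      ← mulVec_mulVec]
    funext k
    simp [mulVec, dotProduct, Finset.sum_apply, mul_comm]

theorem exists_frame' [Module.FaithfullyFlat R S] [Module.Free R A]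
    [Module.Finite R A] (hs : ∀ (r : R) (a : A), star (r • a) = r • star a)
    (hl : l + star l = 1) {K B : Type u} [Field K] [Algebra R K] [Ring B] [StarRing B] [Algebra R B]
    [Algebra K B] [IsScalarTower R K B] {i : A →ₐ[R] B} (hi : GenB K i)
    (HA : ∀ θ : A, IsUnit (θ + star θ) → (∃ x : B, IsUnit x ∧ Alt (star x * i l * x - i θ)) →
      ∃ x : A, IsUnit x ∧ Alt (star x * l * x - θ)) (eK : E →ₐ[R] K)
    {h : Matrix (Fin d) (Fin d) S} (hh : τ.Coc s e h) (hu : IsUnit h) :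
    ∃ h, τ.Coc s e h ∧ Carries h s.Q s.Q := by
  obtain ⟨Z, hZ⟩ := s.exists_zed hs
  have key : ∀ (T : Type u) [CommRing T] [Algebra R T] (s' : Splitting R l d T)
      (g y : Matrix (Fin d) (Fin d) T), Carries g s'.Q s'.Q →
      s'.AltM (s'.adj (g * y) * s'.φ l * (g * y) - s'.adj y * s'.φ l * y) := by
    intro T _ _ s' g y hg
    have := (s'.carries_iff.1 hg).conj y
    rw [Matrix.mul_sub, Matrix.sub_mul] at this
    simpa only [adj_mul, Matrix.mul_assoc] using this
  obtain ⟨θ, hθ⟩ := s.desc_alt hZ (X := s.adj h * s.φ l * h) fun T _ _ s' a b => by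
    have := (key T s' _ (s.tr s' a h) (τ.gmat_carries s' (a.comp e) (b.comp e))).neg
    rw [hh, neg_sub] at this
    simpa only [map_mul, tr_adj, tr_φ] using this
  have hθu : IsUnit (θ + star θ) := s.isUnit_of_φ (by
    rw [map_add, ← adj_φ, ← s.adj_mul_self hθ]; exact (s.isUnit_adj hu).mul hu)
  have hnt : Nontrivial (K ⊗[R] S) := inferInstance
  set j : K →ₐ[R] K ⊗[R] S := Algebra.TensorProduct.includeLeft with hj
  set r : S →ₐ[R] K ⊗[R] S := Algebra.TensorProduct.includeRight with hr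
  obtain ⟨σ, hσ⟩ := exists_isExt hi.bc (s.map r) j
  have hinj : Function.Injective σ := hσ.injective hi.bc (RingHom.injective j.toRingHom)
  obtain ⟨x, hx⟩ := hh.descK hi.bc hσ eK
  have hxa : Alt (star x * i l * x - i θ) := by
    refine hσ.alt hi hinj hZ ?_
    have h1 := (key _ (s.map r) _ (s.tr (s.map r) r h)
      (τ.gmat_carries (s.map r) (r.comp e) (j.comp eK))).add (hθ.tr (s.map r) r)
    rw [← hx] at h1
    simpa only [map_sub, map_mul, tr_adj, tr_φ, hσ.map_star hi, hσ.eq, sub_add_sub_cancel] using h1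
  have hxu : IsUnit x := by
    have h1 := hxa.add_star
    rw [star_sub, star_mul, star_mul, star_star, sub_add_sub_comm, sub_eq_zero, mul_assoc,
      ← mul_add, ← add_mul, ← hi.map_star, ← hi.map_star, ← map_add, ← map_add, hl, map_one,
      one_mul] at h1
    obtain ⟨y, hy⟩ := (h1 ▸ hθu.map i : IsUnit (star x * x)).exists_left_inv
    rw [← mul_assoc] at hy
    exact ⟨⟨x, y * star x, hinj (by
      rw [map_mul, map_one, mul_eq_one_comm, ← map_mul, hy, map_one]), hy⟩, rfl⟩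
  obtain ⟨x0, ⟨x0, rfl⟩, h0⟩ := HA θ hθu ⟨x, hxu, hxa⟩
  refine ⟨h * s.φ ↑x0⁻¹, hh.mul_φ _, s.carries_iff.2 ?_⟩
  have h1 := (hθ.add (s.isExt_φ.altM (genB_id hs) h0).neg).conj (s.φ ↑x0⁻¹)
  have h2 : s.adj (s.φ ↑x0⁻¹) * s.φ (star ↑x0 * l * ↑x0) * s.φ ↑x0⁻¹ = s.φ l := by
    rw [adj_φ, ← map_mul, ← map_mul, ← mul_assoc, ← mul_assoc, ← star_mul, Units.mul_inv, star_one,
      one_mul, Units.mul_inv_cancel_right]
  change s.AltM (_ * (_ + -s.φ _) * _) at h1
  rw [map_sub, neg_sub, sub_add_sub_cancel, Matrix.mul_sub, Matrix.sub_mul, h2] at h1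
  simpa only [adj_mul, Matrix.mul_assoc] using h1

theorem exists_lift' [Module.FaithfullyFlat R S] (hS : Rows R S)
    {h : Matrix (Fin d) (Fin d) S} (hh : τ.Coc s e h)
    {y : s.C} {ν : S} (hy : s.Gd y h ν) :
    ∃ (x : s.C) (c : R), IsUnit c ∧ s.Gd x h (algebraMap R S c) ∧ τ.CocC s e x := by
  have hex : ∀ (T : Type u) [CommRing T] [Algebra R T] (a b : S →ₐ[R] T), ∃ c : T,
      ∀ s' : Splitting R l d T,
        (τ.gam s' (a.comp e) (b.comp e)).val.val * s.trC s' a y = c • s.trC s' b y := by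
    intro T _ _ a b
    have h1 := (τ.gd (s.map a) (a.comp e) (b.comp e)).mul (hy.trC (s.map a) a)
    rw [hh] at h1
    obtain ⟨c, -, hc⟩ := h1.exists_smul (hy.trC (s.map a) b)
    refine ⟨c, fun s' => ?_⟩
    have h2 := congrArg ((s.map a).trC s' (AlgHom.id R T)) hc
    rwa [trC_mul (τ.gam_even _ _ _) (trC_even hy.even), trC_smul _ (trC_even hy.even), τ.gam_map,
      trC_trC hy.even, trC_trC hy.even] at h2
  choose c hcs using hex
  obtain ⟨t, ht, hcs'⟩ := h90_one_semi (R := R) (S := S) hS c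
    (fun T T' _ _ _ _ f a b => by
      have h1 := congrArg ((s.map a).trC (s.map (f.comp a)) f) (hcs T a b (s.map a))
      rw [trC_mul (τ.gam_even _ _ _) (trC_even hy.even), trC_smul _ (trC_even hy.even), τ.gam_map,
        trC_trC hy.even, trC_trC hy.even] at h1
      exact cl_smul_cancel (hy.trC _ _).isUnit (h1.symm.trans (hcs T' (f.comp a) (f.comp b) _)))
    (fun T _ _ a => by
      have h1 := hcs T a a (s.map a)
      rw [τ.gam_self] at h1
      refine cl_smul_cancel (hy.trC (s.map a) a).isUnit ?_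
      rw [← h1, one_smul]; exact one_mul _)
    (fun T _ _ a b b' => by
      refine cl_smul_cancel (hy.trC (s.map a) b').isUnit ?_
      rw [← hcs T a b', ← τ.gam_mul' _ (a.comp e) (b.comp e) (b'.comp e), mul_comm, mul_smul,
        ← hcs T b b', ← mul_smul_comm, ← hcs T a b, ← mul_assoc])
  have hrel : τ.CocC s e (t • y) := by
    intro T _ _ s' a b
    rw [trC_smul _ hy.even, trC_smul _ hy.even, mul_smul_comm, hcs, smul_smul, mul_comm, hcs']
  obtain ⟨c0, hc0⟩ := desc_base (R := R) (t ^ 2 * ν) (by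
    intro T _ _ a b
    have h1 := (τ.gd (s.map a) (a.comp e) (b.comp e)).mul ((hy.smul ht).trC (s.map a) a)
    rw [hrel, one_mul] at h1
    exact h1.norm_eq ((hy.smul ht).trC (s.map a) b))
  exact ⟨t • y, c0, IsUnit.of_map (algebraMap R S) _ (hc0 ▸ (hy.smul ht).unit), hc0 ▸ hy.smul ht,
    hrel⟩

end

variable [∀ i, IsLocalRing (L i)]

theorem exists_unit' [Module.FaithfullyFlat R (∀ i, L i)] [Module.Free R A] [Module.Finite R A]
    (hS : Sepa R L) (s : Splitting R l d (∀ i, L i)) (e : E →ₐ[R] ∀ i, L i) :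
    ∃ h, τ.Coc s e h ∧ IsUnit h := by
  obtain ⟨x, hx, hs⟩ := τ.exists_span' s e ⟨hS.rows⟩
    ((Module.Free.chooseBasis R A).reindex (Fintype.equivFin _))
  let ad := AddMonoidHom.mk' s.adj s.adj_add
  refine hS.exists_unit s.φ (fun X => ?_) (τ.cocSub s e) ((τ.cocSub s e).comap ad)
    (fun X => ?_) (fun X => ?_) (fun y hy x hx => s.desc_mat fun T _ _ s' a b => ?_)
    (fun x hx a => Coc.mul_φ hx a) fun y hy a => ?_
  · induction X using s.ind with
    | h1 a => exact Submodule.subset_span ⟨a, rfl⟩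
    | h2 c X h => exact Submodule.smul_mem _ _ h
    | h3 X Y h h' => exact add_mem h h'
  · obtain ⟨c, rfl⟩ := hs X
    exact Submodule.sum_mem _ fun j _ => Submodule.smul_mem _ _ (Submodule.subset_span (hx j))
  · obtain ⟨c, hc⟩ := hs (s.adj X)
    rw [← s.adj_adj X, hc]
    change ad _ ∈ _
    rw [map_sum]
    refine Submodule.sum_mem _ fun j _ => ?_
    change s.adj _ ∈ _
    rw [adj_smul]
    refine Submodule.smul_mem _ _ (Submodule.subset_span ?_)
    change τ.Coc s e (s.adj (s.adj (x j)))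
    rw [adj_adj]; exact hx j
  · have h1 := congrArg s'.adj ((show τ.Coc s e (s.adj y) from hy) T s' a b)
    rw [tr_adj, tr_adj, adj_mul, adj_adj, adj_adj] at h1
    rw [map_mul, map_mul, ← h1, ← (show τ.Coc s e x from hx) T s' a b, Matrix.mul_assoc,
      ← Matrix.mul_assoc (s'.adj _), s'.adj_mul_of_carries (τ.gmat_carries _ _ _), Matrix.one_mul]
  · change τ.Coc s e (s.adj (s.φ a * y))
    rw [adj_mul, adj_φ]
    exact Coc.mul_φ hy _

end PAct

/-- Reduction of the triviality of a generically trivial torsor to forms and spinor norms. -/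
theorem pair_reduction_semi [Finite (MaximalSpectrum R)] [Module.Free R A] [Module.Finite R A]
    (hA : IsQuadPair R l d) (K : Type u) [Field K] [Algebra R K]
    (hRK : Function.Injective (algebraMap R K))
    {B : Type u} [Ring B] [StarRing B] [Algebra R B] [Algebra K B] [IsScalarTower R K B]
    (i : A →ₐ[R] B) (hi : GenB K i)
    (HA : ∀ θ : A, IsUnit (θ + star θ) → (∃ x : B, IsUnit x ∧ Alt (star x * i l * x - i θ)) →
      ∃ x : A, IsUnit x ∧ Alt (star x * l * x - θ))
    (HW : ∀ g : B, Iso (i l) g → ∃ c : K, SNw l d i g c)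
    (HB : ∀ c : R, IsUnit c → (∃ g : B, SNw l d i g (algebraMap R K c)) →
      ∃ g : A, SNw l d (AlgHom.id R A) g c)
    (hE : IsPairTorsor R l d E) (hK : Nonempty (E →ₐ[R] K)) : Nonempty (E →ₐ[R] R) := by
  obtain ⟨hs, hl, S0, _, _, hS0, ⟨s0⟩⟩ := hA
  obtain ⟨τ⟩ := hE.nonempty_pAct
  obtain ⟨eK⟩ := hK
  have hEf := hE.1
  have : Module.FaithfullyFlat R (E ⊗[R] S0) := Module.FaithfullyFlat.trans R E (E ⊗[R] S0)
  obtain ⟨ι, _, _, L, _, _, _, hS, hff, hfl, hinf, ⟨p⟩⟩ := exists_semi_cover R (E ⊗[R] S0)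
  let S := ∀ i, L i
  let e : E →ₐ[R] S := p.comp Algebra.TensorProduct.includeLeft
  let s : Splitting R l d S := s0.map (p.comp Algebra.TensorProduct.includeRight)
  obtain ⟨h0, hh0, hu0⟩ := τ.exists_unit' hS s e
  obtain ⟨h, hh, hc⟩ := τ.exists_frame' s e hs hl hi HA eK hh0 hu0
  obtain ⟨Z, hZ⟩ := s.exists_zed hs
  have hnt : Nontrivial (K ⊗[R] S) := inferInstance
  set j : K →ₐ[R] K ⊗[R] S := Algebra.TensorProduct.includeLeft with hj
  set r : S →ₐ[R] K ⊗[R] S := Algebra.TensorProduct.includeRight with hr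
  have hjinj : Function.Injective j := RingHom.injective j.toRingHom
  obtain ⟨σ, hσ⟩ := exists_isExt hi.bc (s.map r) j
  obtain ⟨g0, hg0⟩ := hh.descK hi.bc hσ eK
  have hiso : Iso (i l) g0 := by
    refine hσ.alt hi (hσ.injective hi.bc hjinj) hZ ?_
    have h1 : Carries (σ g0) (s.map r).Q (s.map r).Q := by
      rw [hg0, tr_map]
      exact (hc.map r.toRingHom).mul (τ.gmat_carries _ _ _)
    simpa only [map_sub, map_mul, hσ.map_star hi, hσ.eq] using (s.map r).carries_iff.1 h1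
  obtain ⟨-, ρ0, _, _, hρ0, Y0, Yi0, C0, -, n0, W0, hn0, -⟩ := HW g0 hiso
  have G0 := hσ.gd hi W0 hρ0 hn0
  obtain ⟨y, ν0, hy⟩ := s.gd_pi h fun k => by
    have hnk : Nontrivial (K ⊗[R] L k) :=
      (Algebra.TensorProduct.includeRight_injective (B := L k) hRK).nontrivial
    let π := Pi.evalAlgHom R L k
    let r' : L k →ₐ[R] K ⊗[R] L k := Algebra.TensorProduct.includeRight
    have G := ((τ.gd (s.map r) (j.comp eK) (r.comp e)).mul G0).trC ((s.map π).map r')
      (Algebra.TensorProduct.map (AlgHom.id R K) π)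
    rw [hg0, ← Matrix.mul_assoc, τ.gmat_mul, τ.gmat_self, Matrix.one_mul, tr_tr,
      Algebra.TensorProduct.map_comp_includeRight, ← tr_tr s (s.map π)] at G
    exact (s.map π).gd_local r' (by rw [tr_map]; exact hc.map π.toRingHom) G
  obtain ⟨x, c, hcu, hx, hrel⟩ := τ.exists_lift' s e ⟨hS.rows⟩ hh hy
  have G1 := (τ.gd (s.map r) (r.comp e) (j.comp eK)).mul (hx.trC (s.map r) r)
  rw [← hg0] at G1
  obtain ⟨ν, hν, hxν⟩ := G1.exists_smul G0
  obtain ⟨k, hk⟩ := desc_field ν (fun T _ _ a b hab => by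
    have ha := hσ.tr ((s.map r).map a) a
    have e1 : ∀ (b : K ⊗[R] S →ₐ[R] T), a.comp j = b.comp j → b ν • ha.nl hi W0 =
        (τ.gam _ ((b.comp r).comp e) ((b.comp j).comp eK)).val.val *
          s.trC ((s.map r).map a) (b.comp r) x := by
      intro b hab
      have h2 := congrArg ((s.map r).trC ((s.map r).map a) b) hxν
      rw [trC_mul (τ.gam_even _ _ _) (trC_even hx.even), trC_smul _ G0.even, τ.gam_map,
        trC_trC hx.even, hσ.trC_nl hi W0 hρ0 (hab ▸ ha)] at h2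
      exact h2.symm
    refine cl_smul_cancel (ha.isUnit_nl hi W0 hρ0) ?_
    rw [e1 a rfl, e1 b hab, ← hrel T _ (a.comp r) (b.comp r), ← mul_assoc, τ.gam_mul', hab])
  have hN : algebraMap R K c = k ^ 2 * n0 := by
    apply hjinj
    have h2 := G1.norm_eq (hxν ▸ G0.smul hν)
    rw [one_mul, AlgHom.commutes] at h2
    rw [AlgHom.commutes, h2, map_mul, map_pow, hk]
  obtain ⟨g, ρ, _, _, hρ, Y, Yi, C, v, n, W, hn, hcv⟩ :=
    HB c hcu ⟨g0, ρ0, inferInstance, inferInstance, hρ0, Y0, Yi0, C0, k, n0, W0, hn0, hN⟩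
  have hv : IsUnit v := (isUnit_pow_iff two_ne_zero).1 (isUnit_of_mul_isUnit_left (hcv ▸ hcu))
  have G2 := s.isExt_φ.gd (genB_id hs) W hρ hn
  obtain ⟨cu, rfl⟩ := hcu
  have G3 := (hx.mul G2).smul (((Units.isUnit cu⁻¹).mul hv).map (algebraMap R S))
  have e3 : algebraMap R S (↑cu⁻¹ * v) ^ 2 * (algebraMap R S ↑cu * Algebra.ofId R S n) = 1 := by
    rw [Algebra.ofId_apply, ← map_pow, ← map_mul, ← map_mul, show (↑cu⁻¹ * v) ^ 2 * (↑cu * n) =
      (↑cu⁻¹ * ↑cu) * (↑cu⁻¹ * (v ^ 2 * n)) by ring, ← hcv, Units.inv_mul, one_mul, map_one]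
  refine τ.nonempty_of_cocC s e (e3 ▸ G3) fun T _ _ s' a b => ?_
  have e4 : ∀ a : S →ₐ[R] T, s.trC s' a (s.isExt_φ.nl (genB_id hs) W) =
      s'.isExt_φ.nl (genB_id hs) W := fun a =>
    s.isExt_φ.trC_nl (genB_id hs) W hρ
      (Subsingleton.elim (Algebra.ofId R T) (a.comp (Algebra.ofId R S)) ▸ s'.isExt_φ)
  rw [trC_smul _ (hx.mul G2).even, trC_smul _ (hx.mul G2).even, trC_mul hx.even G2.even,
    trC_mul hx.even G2.even, e4, e4, AlgHom.commutes, AlgHom.commutes, mul_smul_comm, ← mul_assoc,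
    hrel]

end Pool.Agent.GSD
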