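import Pool.Agent.P.MP_c1f06d_ag.d.ValMB

namespace Pool.Agent.GSD

open Pool.Agent.SU IsLocalRing

section
variable {O A : Type*} [CommRing O] [Ring A] [Algebra O A]

theorem wv_unit [IsLocalRing O] [Module.Finite O A] {c : O} (hc : c ∈ maximalIdeal O) (z : A) :
    IsUnit (1 + c • z) :=
  isUnit_of_qm (T := O) (by rw [map_add, qm_smul hc, add_zero, map_one]; exact isUnit_one)

theorem wv_den [IsLocalRing O] [Module.Finite O A] {lam μ κ : O} (hlam : lam ∈ maximalIdeal O)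
    (e : lam = μ * κ) {l1 T f : A} (hT : IsUnit T) (hf : Dv (lam ^ 2) (f * f - f))
    (hl : Dv (lam ^ 2) (l1 - T * (μ • f + 1 - f))) : ∃ m, l1 * m = μ • (1 : A) := by
  obtain ⟨T, rfl⟩ := hT
  obtain ⟨d, hd⟩ := hf
  obtain ⟨y, hy⟩ := hl
  have h1 : (μ • f + 1 - f) * (f + μ • (1 - f)) = μ • (1 : A) - (1 - μ) ^ 2 • (f * f - f) := by
    simp only [mul_add, add_mul, sub_mul, mul_sub, smul_mul_assoc, mul_smul_comm, one_mul, mul_one,
      smul_sub, smul_add]
    module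
  obtain ⟨U, hU⟩ := wv_unit (Ideal.mul_mem_right κ _ hlam)
    ((y * (f + μ • (1 - f)) - (1 - μ) ^ 2 • ((T : A) * d)) * (T⁻¹ : Aˣ))
  refine ⟨(f + μ • (1 - f)) * (T⁻¹ : Aˣ) * (U⁻¹ : Aˣ), ?_⟩
  have h2 : l1 * ((f + μ • (1 - f)) * (T⁻¹ : Aˣ)) = μ • (U : A) := by
    rw [sub_eq_iff_eq_add.1 hy, hU, ← mul_assoc, add_mul, mul_assoc (T : A), h1, hd, mul_sub,
      mul_smul_comm, mul_one, add_mul, sub_mul, smul_mul_assoc μ, T.mul_inv, e]
    simp only [smul_mul_assoc, mul_smul_comm, sub_mul, smul_sub, smul_add]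
    module
  rw [← mul_assoc, h2, smul_mul_assoc, U.mul_inv]

theorem wv_dvd [IsDomain O] [ValuationRing O] [Module.Free O A] {lam t : O} (ht : t ≠ 0) {x : A}
    (hx : qm (maximalIdeal O) x ≠ 0) (h : Dv lam (t • x)) : lam ∣ t := by
  rcases ValuationRing.dvd_total lam t with h1 | ⟨e, rfl⟩
  · exact h1
  obtain ⟨y, hy⟩ := h
  rw [mul_smul] at hy
  have h2 : x = e • y := smul_right_injective A ht hy
  have h3 : IsUnit e := by
    by_contra h4
    exact hx (h2 ▸ qm_smul (I := maximalIdeal O) h4 y)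
  exact (h3.mul_right_dvd).2 dvd_rfl

/-- Two units that are close have close Cayley transforms. -/
theorem wv_gl {c : O} {y z : Aˣ} (h : Dv c ((z : A) - y)) : Dv c (gl z - gl y) := by
  obtain ⟨d, hd⟩ := h
  refine ⟨(y⁻¹ : Aˣ) * d * (z⁻¹ : Aˣ), ?_⟩
  rw [← smul_mul_assoc, ← mul_smul_comm, ← hd, mul_sub, sub_mul, y.inv_mul, mul_assoc, z.mul_inv,
    gl, gl]
  noncomm_ring

theorem Dv.mul_sub {c : O} {a a' b b' : A} (h : Dv c (a' - a)) (h' : Dv c (b' - b)) :
    Dv c (a' * b' - a * b) := by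
  obtain ⟨d, hd⟩ := h
  obtain ⟨e, he⟩ := h'
  refine ⟨d * b' + a * e, ?_⟩
  rw [smul_add, ← smul_mul_assoc, ← mul_smul_comm, ← hd, ← he]
  noncomm_ring

end

variable {O A B : Type*} [CommRing O] [IsDomain O] [ValuationRing O] [Infinite (ResidueField O)]
  [Ring A] [StarRing A] [Algebra O A] [StarFix O A] [Module.Finite O A] [Module.Free O A] [Ring B]
  [StarRing B] [Algebra O B] [StarFix O B] {i : A →ₐ[O] B}
  {K : Type*} [Field K] [Algebra O K] [IsFractionRing O K] [Algebra K B]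
  [IsScalarTower O K B] (hi : GenF i) {nrd : A → O} (hb : Base nrd) {l : A}
  (hl : l + star l = 1) {SN : B → K → Prop} (hs : SNax i l nrd SN)

include hi hb hl hs

/-- With one pole the first layer is a square up to a unit. -/
theorem Lay.sq_of_r1 {g : B} {c : O} {u : K} (hc : IsUnit c) (hu : u ≠ 0)
    (h : SN g (u ^ 2 * algebraMap O K c)) {lam : O} {v r om : A} (L : Lay i g lam v r om)
    (hr : R1 (qm (maximalIdeal O) v)) : ∃ μ ε : O, IsUnit ε ∧ lam = μ ^ 2 * ε := by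
  have hlB : i l + star (i l) = 1 := by rw [← hi.map_star, ← map_add, hl, map_one]
  obtain ⟨hg, hg1⟩ := hs.iso _ _ h
  have hg2 := hg.star_mul_self hlB
  obtain ⟨m, l1, y1, c1, a, T, f, b, hm, h1, h2, h3, h4, h5, h6, h7, h8, h9⟩ :=
    L.move hi (q := l) hl (P := Alt) (fun _ => Alt.add_star)
      (fun s m e => hi.alt hb ((Alt.conj hg (i s)).of_eq e)) le_rfl L.mem isUnit_one
      (by rw [pow_one, mul_one])
  obtain ⟨η, hη, e1⟩ := hb.nr1 lam L.mem L.ne l1 T f h5 h6 h9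
    (by rw [h8, map_mul]; exact hr.mul_right _) h7
  obtain ⟨l0, h0⟩ := exists_unit_la O hl
  obtain ⟨c2, hc2⟩ := L.mem_of_r1 hb hr h4
  have h10 := hs.mul _ _ _ _ (hs.inv _ _ h) (hs.gen l1 l0 y1 (Units.map (i : A →* B) l0)
    ((Alt.sub h1 hm).of_eq (by abel)) h0 h2 rfl)
  have h11 : star g * (gl y1 * gl (Units.map (i : A →* B) l0)) = i ((c1 + c2) * gl l0) := by
    rw [pow_one] at h3
    rw [h3, hc2, ← mul_add, ← map_gl, ← mul_assoc, ← mul_assoc, hg2, one_mul, map_mul, map_add]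
  rw [h11] at h10
  obtain ⟨l2, l3, -, -, h12⟩ := sq_of_int hi hb hl hs h10
  rw [mul_assoc, mul_assoc, ← map_mul, ← map_mul] at h12
  obtain ⟨t, ht⟩ := exists_int_of_sq hu h12
  obtain ⟨w, hw⟩ := ((hc.mul hη).mul (hb.unit _ l0.isUnit)).mul
    ((hb.unit _ l2.isUnit).mul (hb.unit _ l3.isUnit))
  refine ⟨t, (w⁻¹ : Oˣ), (w⁻¹).isUnit, ?_⟩
  have h13 : t ^ 2 = lam * w := by rw [ht, hw, e1]; ring
  rw [h13, mul_assoc, w.mul_inv, mul_one]

/-- (B) relative to a subring `I` of the generic fibre in which the moves can be approximated. -/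
theorem valB_rel (I : Subring B) (hI : ∀ b ∈ I, star b ∈ I)
    (orc : ∀ g ∈ I, ∃ t : O, t ≠ 0 ∧ (∃ a, t • g = i a) ∧ (t ∈ maximalIdeal O → ∀ l1, La l l1 →
      ∃ l2, La l l2 ∧ Dv (t ^ 4) (l2 - l1) ∧ ∀ y : Bˣ, i l2 = y → ((y⁻¹ : Bˣ) : B) ∈ I))
    (n : ℕ) : ∀ (g : B) (c : O) (u : K), g ∈ I → Cov i n g → IsUnit c → u ≠ 0 →
      SN g (u ^ 2 * algebraMap O K c) →
      ∃ (a : A) (w : K), w ≠ 0 ∧ i a ∈ I ∧ SN (i a) (w ^ 2 * algebraMap O K c) := by
  have hlB : i l + star (i l) = 1 := by rw [← hi.map_star, ← map_add, hl, map_one]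
  have hint : ∀ (g : B) (c : O) (u : K), g ∈ I → (∃ y, i y = star g) → u ≠ 0 →
      SN g (u ^ 2 * algebraMap O K c) →
      ∃ (a : A) (w : K), w ≠ 0 ∧ i a ∈ I ∧ SN (i a) (w ^ 2 * algebraMap O K c) :=
    fun g c u hg ⟨y, hy⟩ hu h => ⟨y, u, hu, hy ▸ hI g hg, hy ▸ hs.inv _ _ h⟩
  induction n with
  | zero =>
    intro g c u hgI hc _ hu h
    exact hint g c u hgI (hc.zero ((hs.iso _ _ h).1.star_mul_self hlB)) hu h
  | succ n ih =>
    intro g c u hgI hcov hc hu h
    obtain ⟨hg, hg1⟩ := hs.iso _ _ h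
    have hg2 := hg.star_mul_self hlB
    rcases exists_lay hi hb.avg hg1 hg2 isUnit_one (hg2.trans (map_one i).symm) with
      h0 | ⟨lam, v, r, om, L⟩
    · exact hint g c u hgI h0 hu h
    obtain ⟨t, ht, ⟨ag, hag⟩, happ⟩ := orc g hgI
    have hag' : t • star g = i (star ag) := by rw [hi.map_star, ← hag, star_smul_fix]
    obtain ⟨κ, hκ⟩ : lam ∣ t := wv_dvd ht L.prim (by
      rw [← mul_smul_comm]
      exact L.kill _ ⟨star ag * om, by
        rw [map_mul, ← hag', smul_mul_assoc, mul_smul_comm, ← mul_assoc, hg1, one_mul, map_smul]⟩)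
    have htm : t ∈ maximalIdeal O := hκ ▸ Ideal.mul_mem_right _ _ L.mem
    replace happ := happ htm
    have step : ∀ (k : B) (κ' : K) (E c a δ : A), SN k κ' → (∀ y, InN i g y → Dv lam (E * y)) →
        qm (maximalIdeal O) (E * om) ≠ 0 → k = g * i c + i a + t • i δ → Dv lam (E * a) →
        Cov i n (star k * g) := fun k κ' E c a δ hk h1 h2 h3 ⟨b, h4⟩ =>
      hcov.step hi L.mem L.hom h1 h2 ((hs.iso _ _ hk).1.star_mul_self hlB) (hs.iso _ _ hk).2
        (c := c) (a := a + t • δ) (by rw [h3, map_add, map_smul, add_assoc])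
        ⟨b + κ • (E * δ), by rw [mul_add, h4, mul_smul_comm, hκ, mul_smul, smul_add]⟩
    have hglI : ∀ y : Bˣ, ((y⁻¹ : Bˣ) : B) ∈ I → gl y ∈ I := fun y hy => I.sub_mem I.one_mem hy
    rcases exists_v3 hb L.mem L.idem L.prim with hr | ⟨z, m, ν, hm, hν, hz, hinv, hp⟩
    · obtain ⟨μ, ε, hε, e⟩ := L.sq_of_r1 hi hb hl hs hc hu h hr
      have hμ : μ ∈ maximalIdeal O := fun h1 => L.mem (e ▸ (IsUnit.pow 2 h1).mul hε)
      obtain ⟨m, l1, y1, c1, a, T, f, -, hm, h1, h2, h3, h4, h5, h6, h7, -⟩ :=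
        L.move hi (q := l) hl (P := Alt) (fun _ => Alt.add_star)
          (fun s m e => hi.alt hb ((Alt.conj hg (i s)).of_eq e)) one_le_two hμ hε e
      obtain ⟨m0, hm0⟩ := wv_den L.mem (κ := μ * ε) (by rw [e]; ring) h5 h6 h7
      obtain ⟨m1, hm1⟩ : ∃ m1, l1 * m1 = t • (1 : A) := ⟨(μ * ε * κ) • m0, by
        rw [mul_smul_comm, hm0, smul_smul, hκ, e]; congr 1; ring⟩
      obtain ⟨l2, a2, ⟨δ, hδ⟩, a3⟩ := happ l1 ((Alt.sub h1 hm).of_eq (by abel))
      obtain ⟨U, hU⟩ := wv_unit (Ideal.pow_mem_of_mem _ htm 3 three_pos) (δ * m1)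
      have hm2 : l2 * (m1 * (U⁻¹ : Aˣ)) = t • (1 : A) := by
        rw [← mul_assoc, sub_eq_iff_eq_add.1 hδ, add_mul, hm1, smul_mul_assoc, pow_succ', mul_smul,
          ← smul_add, add_comm, ← hU, smul_mul_assoc, U.mul_inv]
      have := hi.finite (K := K)
      have : IsNoetherianRing B := isNoetherian_of_tower K (inferInstance : IsNoetherian K B)
      obtain ⟨y2, hy2⟩ : IsUnit (i l2) := isUnit_of_mul_isUnit_left (y := i (m1 * (U⁻¹ : Aˣ))) (by
        rw [← map_mul, hm2, map_smul, map_one, ← Algebra.algebraMap_eq_smul_one]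
        exact hi.unit t ht)
      have inv : ∀ (y : Bˣ) (a b : A), i a = y → a * b = t • (1 : A) →
          t • ((y⁻¹ : Bˣ) : B) = i b := fun y a b e1 e2 => by
        rw [← y.inv_mul_cancel_left (i b), ← e1, ← map_mul, e2, map_smul, map_one, mul_smul_comm,
          mul_one]
      have i1 := inv y1 _ _ h2 hm1
      have i2 := inv y2 _ _ hy2.symm hm2
      have e1 : gl y2 - gl y1 = t ^ 2 • i (m1 * δ * (m1 * (U⁻¹ : Aˣ))) := by
        have e2 : (y2 : B) - y1 = t ^ 4 • i δ := by rw [hy2, ← h2, ← map_sub, hδ, map_smul]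
        rw [map_mul, map_mul, ← i1, ← i2]
        calc gl y2 - gl y1 = (y1⁻¹ : Bˣ) * ((y2 : B) - y1) * (y2⁻¹ : Bˣ) := by
              rw [mul_sub, sub_mul, y1.inv_mul, mul_assoc, y2.mul_inv, gl, gl]; noncomm_ring
          _ = _ := by
              rw [e2]; simp only [smul_mul_assoc, mul_smul_comm, smul_smul]; congr 1; ring
      have g1 : t • gl y1 = i (t • 1 - m1) := by rw [gl, smul_sub, i1, map_sub, map_smul, map_one]
      have g2 : t • gl y2 = i (t • 1 - m1 * (U⁻¹ : Aˣ)) := by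
        rw [gl, smul_sub, i2, map_sub, map_smul, map_one]
      have h8 := hs.gen l2 l2 y2 y2 a2 a2 hy2.symm hy2.symm
      have h9 := hs.ne _ _ h8
      rw [map_mul] at h9
      have h10 := hglI y2 (a3 y2 hy2.symm)
      refine ih _ c (algebraMap O K (nrd l2) * u) (I.mul_mem (hI _ (I.mul_mem h10 h10)) hgI)
        (step _ _ _ c1 a ((t • 1 - m1 * (U⁻¹ : Aˣ)) * (m1 * δ * (m1 * (U⁻¹ : Aˣ))) +
          m1 * δ * (m1 * (U⁻¹ : Aˣ)) * (t • 1 - m1)) h8 L.kill L.prim ?_ h4) hc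
        (mul_ne_zero (left_ne_zero_of_mul h9) hu) ?_
      · rw [← h3, map_add, map_mul i (t • 1 - _), map_mul i _ (t • 1 - m1), ← g1, ← g2,
          smul_mul_assoc, mul_smul_comm, ← smul_add, smul_smul, ← sq t, smul_add, ← mul_smul_comm,
          ← smul_mul_assoc, ← e1, sq (gl y1)]
        noncomm_ring
      · have h11 := hs.mul _ _ _ _ (hs.inv _ _ h8) h
        rwa [map_mul, ← mul_assoc, ← sq (algebraMap O K _), ← mul_pow] at h11
    · obtain ⟨u1, k1, c1, a, i1, i2, q1, q2, e, ha⟩ := exists_v2 hi hl hg1 L hm hν hz hinv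
      have small : ∀ x : A, Iso l x → qm (maximalIdeal O) x = 1 → ∃ (x' : A) (d : O), IsUnit d ∧
          SN (i x') (algebraMap O K d) ∧ i x' ∈ I ∧ Dv (t ^ 4) (x' - x) := fun x hx h1 => by
        obtain ⟨l0, h0⟩ := exists_unit_la O hl
        obtain ⟨l', a1, -, a2, -⟩ := hx.exists_gl_mul_gl hl h0 (isUnit_of_qm (T := O) (by
          rw [map_sub, map_mul, h1, one_mul, ← map_sub, gl, sub_sub_cancel]
          exact (l0⁻¹).isUnit.map _))
        have app : ∀ y : Aˣ, La l y → ∃ y' : Aˣ, La l y' ∧ Dv (t ^ 4) (gl y' - gl y) ∧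
            i (gl y') ∈ I := fun y hy => by
          obtain ⟨l2, b1, b2, b3⟩ := happ y hy
          obtain ⟨y', rfl⟩ : IsUnit l2 := isUnit_of_qm (T := O) (by
            rw [b2.res (Ideal.pow_mem_of_mem _ htm 4 four_pos)]
            exact y.isUnit.map _)
          exact ⟨y', b1, wv_gl b2, by rw [map_gl]; exact hglI _ (b3 _ rfl)⟩
        obtain ⟨y1, b1, b2, b3⟩ := app l' a1
        obtain ⟨y2, b4, b5, b6⟩ := app (star l0) h0.star
        exact ⟨gl y1 * gl y2, _, (hb.unit _ y1.isUnit).mul (hb.unit _ y2.isUnit), hs.gen' b1 b4,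
          by rw [map_mul]; exact I.mul_mem b3 b6, a2 ▸ b2.mul_sub b5⟩
      obtain ⟨u2, d1, hd1, s1, m1, β, hβ⟩ := small u1 i1 q1
      obtain ⟨k2, d2, hd2, s2, m2, α, hα⟩ := small k1 i2 q2
      have s3 := hs.mul _ _ _ _ s2 (hs.mul _ _ _ _ (hs.mul _ _ _ _ h s1) (hs.inv _ _ h))
      have hE : ∀ y, InN i g y → Dv lam (star z * y) := fun y hy => by
        obtain ⟨w, hw⟩ := hz
        obtain ⟨w', hw'⟩ := L.kill y hy
        have h1 : star z = star z * star v - lam • star w := by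
          rw [← star_smul_fix, ← hw, star_sub, star_mul, sub_sub_cancel]
        exact ⟨star z * w' - star w * y, by
          rw [smul_sub, ← mul_smul_comm, ← hw', ← smul_mul_assoc, ← mul_assoc, ← sub_mul, ← h1]⟩
      have s4 := hs.mul _ _ _ _ (hs.inv _ _ s3) h
      have hκ' := hs.ne _ _ h
      obtain ⟨G, w, hw, m3, s5⟩ := ih _ (c * d1 * d2) (u * (u ^ 2 * algebraMap O K c))
        (I.mul_mem (hI _ (I.mul_mem m2 (I.mul_mem (I.mul_mem hgI m1) (hI _ hgI)))) hgI)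
        (step _ _ _ c1 a (t • (α * (ag * u2 * star ag) + k1 * (ag * β * star ag))) s3 hE hp (by
          have e1 : i u2 = i u1 + t ^ 4 • i β := by rw [← map_smul, ← hβ, map_sub, add_sub_cancel]
          have e2 : i k2 = i k1 + t ^ 4 • i α := by rw [← map_smul, ← hα, map_sub, add_sub_cancel]
          rw [← e]
          simp only [map_smul, map_add, map_mul, ← hag, ← hag']
          rw [e2, add_mul, e1]
          simp only [mul_add, add_mul, smul_mul_assoc, mul_smul_comm, smul_add]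
          module) ha)
        ((hc.mul hd1).mul hd2) (mul_ne_zero hu hκ') (by
          have e1 : (u * (u ^ 2 * algebraMap O K c)) ^ 2 * algebraMap O K (c * d1 * d2) =
              algebraMap O K d2 * (u ^ 2 * algebraMap O K c * algebraMap O K d1 *
                (u ^ 2 * algebraMap O K c)) * (u ^ 2 * algebraMap O K c) := by
            rw [map_mul, map_mul]; ring
          rwa [e1])
      have s6 := hs.mul _ _ _ _ (hs.mul _ _ _ _ s5 s1) s2
      refine ⟨G * u2 * k2, w * algebraMap O K (d1 * d2),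
        mul_ne_zero hw ((hd1.mul hd2).map _).ne_zero, ?_, ?_⟩
      · rw [map_mul, map_mul]
        exact I.mul_mem (I.mul_mem m3 m1) m2
      · have e4 : (w * algebraMap O K (d1 * d2)) ^ 2 * algebraMap O K c =
            w ^ 2 * algebraMap O K (c * d1 * d2) * algebraMap O K d1 * algebraMap O K d2 := by
          simp only [map_mul]; ring
        rw [e4, map_mul, map_mul]
        exact s6

end Pool.Agent.GSD
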