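import Pool.Agent.P.MP_c1f06d_ag.d.WVal1
import Pool.Agent.P.MP_c1f06d_ag.d.DOri

open Matrix Module Pool.Agent.SU IsLocalRing

universe u

namespace Pool.Agent.GSD

/-- Locally, of two elements one divides the other. -/
def Arith (Z : Type*) [CommRing Z] : Prop :=
  ∀ x y : Z, ∃ a b c, (1 - a) * x = b * y ∧ a * y = c * x

section Ring
variable {Z : Type*} [CommRing Z]

theorem Arith.valuationRing (h : Arith Z) (N : Ideal Z) [N.IsPrime] (O : Type*) [CommRing O]
    [IsDomain O] [Algebra Z O] [IsLocalization.AtPrime O N] : ValuationRing O := by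
  have key : ∀ x y : Z, algebraMap Z O x ∣ algebraMap Z O y ∨ algebraMap Z O y ∣ algebraMap Z O x :=
    fun x y => by
      obtain ⟨a, b, c, h1, h2⟩ := h x y
      by_cases ha : a ∈ N
      · have h3 : 1 - a ∉ N := fun h4 => (inferInstance : N.IsPrime).ne_top
          ((Ideal.eq_top_iff_one _).2 (by simpa using N.add_mem h4 ha))
        refine Or.inr ((IsLocalization.map_units O (⟨1 - a, h3⟩ : N.primeCompl)).dvd_mul_left.1 ?_)
        rw [← map_mul, h1, map_mul]
        exact dvd_mul_left _ _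
      · refine Or.inl ((IsLocalization.map_units O (⟨a, ha⟩ : N.primeCompl)).dvd_mul_left.1 ?_)
        rw [← map_mul, h2, map_mul]
        exact dvd_mul_left _ _
  refine ValuationRing.iff_dvd_total.2 ⟨fun x y => ?_⟩
  obtain ⟨⟨x, s⟩, hx⟩ := IsLocalization.surj N.primeCompl x
  obtain ⟨⟨y, t⟩, hy⟩ := IsLocalization.surj N.primeCompl y
  have hs := IsLocalization.map_units O s
  have ht := IsLocalization.map_units O t
  have h5 := key x y
  rw [← hx, ← hy] at h5
  exact h5.imp (fun h6 => ht.dvd_mul_right.1 (hs.mul_right_dvd.1 h6))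
    fun h6 => hs.dvd_mul_right.1 (ht.mul_right_dvd.1 h6)

theorem Arith.exists_sqrt [IsDomain Z] (h : Arith Z) {K : Type*} [Field K] [Algebra Z K]
    [IsFractionRing Z K] {w : K} {c : Z} (hw : w ^ 2 = algebraMap Z K c) :
    ∃ t : Z, t ^ 2 = c := by
  obtain ⟨y, x, hx, rfl⟩ := IsFractionRing.div_surjective (A := Z) w
  have hx' : algebraMap Z K x ≠ 0 :=
    (map_ne_zero_iff _ (IsFractionRing.injective Z K)).2 (nonZeroDivisors.ne_zero hx)
  obtain ⟨a, b, d, h1, h2⟩ := h x y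
  have e1 := congrArg (algebraMap Z K) h1
  have e2 := congrArg (algebraMap Z K) h2
  simp only [map_mul, map_sub, map_one] at e1 e2
  refine ⟨d + b * c, IsFractionRing.injective Z K ?_⟩
  rw [map_pow, ← hw, map_add, map_mul, ← hw]
  congr 1
  field_simp
  linear_combination (-algebraMap Z K x) * e2 - algebraMap Z K y * e1

/-- A ring that is finite free and separable over a valuation ring. -/
theorem arith_of_avg {O : Type*} [CommRing O] [IsDomain O] [ValuationRing O] [Algebra O Z]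
    [Module.Finite O Z] [Module.Free O Z] (h : Avg O Z) : Arith Z := by
  intro x y
  obtain ⟨n, u, v, h1, h2⟩ := h
  let L : Submodule O (Z × Z) := LinearMap.ker
    ((LinearMap.mulRight O y).coprod (-LinearMap.mulRight O x))
  have hL : ∀ z : Z × Z, z ∈ L ↔ z.1 * y = z.2 * x := fun z => by
    simp [L, add_neg_eq_zero]
  obtain ⟨p, p1, p2⟩ := exists_proj_of_saturated L fun c z hc hz => (hL _).2 (by
    have := (hL _).1 hz
    rw [Prod.smul_fst, Prod.smul_snd, smul_mul_assoc, smul_mul_assoc] at this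
    exact smul_right_injective Z hc this)
  let f : (Z →ₗ[O] Z × Z) → (Z × Z →ₗ[O] Z) → Z := fun s r => ∑ k, u k * (r ∘ₗ p ∘ₗ s) (v k)
  have e1 : f (.inl O Z Z) (.fst O Z Z) * y = f (.inl O Z Z) (.snd O Z Z) * x := by
    simp only [f, Finset.sum_mul, mul_assoc]
    exact Finset.sum_congr rfl fun k _ => congrArg _ ((hL _).1 (p1 _))
  have e2 : x * f (.inl O Z Z) (.fst O Z Z) + y * f (.inr O Z Z) (.fst O Z Z) = x := by
    simp only [f]
    rw [h2, h2, ← Finset.sum_add_distrib]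
    conv_rhs => rw [← one_mul x, ← h1, Finset.sum_mul]
    refine Finset.sum_congr rfl fun k _ => ?_
    have e3 := p2 (v k * x, v k * y) ((hL _).2 (by ring))
    simp only [LinearMap.comp_apply, LinearMap.inl_apply, LinearMap.inr_apply]
    rw [← mul_add, ← map_add, ← map_add, Prod.mk_add_mk, add_zero, zero_add, e3, mul_assoc]
    rfl
  exact ⟨_, f (.inr O Z Z) (.fst O Z Z), _, by linear_combination -e2, e1⟩

theorem wv_pi (S : Finset (MaximalSpectrum Z)) {N : MaximalSpectrum Z} (hN : N ∉ S) :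
    ∃ π ν : Z, (∀ M ∈ S, π ∈ M.asIdeal) ∧ ν ∈ N.asIdeal ∧ π + ν = 1 := by
  classical
  have h1 : ∃ π : Z, (∀ M ∈ S, π ∈ M.asIdeal) ∧ π ∉ N.asIdeal := by
    induction S using Finset.induction_on with
    | empty => exact ⟨1, by simp, (Ideal.ne_top_iff_one _).1 N.isMaximal.ne_top⟩
    | insert M S _ ih =>
      obtain ⟨π, h2, h3⟩ := ih fun h => hN (Finset.mem_insert_of_mem h)
      obtain ⟨x, h4, h5⟩ : ∃ x ∈ M.asIdeal, x ∉ N.asIdeal := by
        by_contra hc
        push Not at hc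
        exact hN (MaximalSpectrum.ext (M.isMaximal.eq_of_le N.isMaximal.ne_top hc) ▸
          Finset.mem_insert_self M S)
      refine ⟨x * π, fun P hP => ?_, fun h => (N.isMaximal.isPrime.mem_or_mem h).elim h5 h3⟩
      rcases Finset.mem_insert.1 hP with rfl | hP
      exacts [Ideal.mul_mem_right _ _ h4, Ideal.mul_mem_left _ _ (h2 P hP)]
  obtain ⟨π, h2, h3⟩ := h1
  obtain ⟨y, ν, h4, h5⟩ := N.isMaximal.exists_inv h3
  exact ⟨y * π, ν, fun M hM => Ideal.mul_mem_left _ _ (h2 M hM), h4, h5⟩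

theorem wv_add_not_mem {M : Ideal Z} {a b : Z} (ha : a ∈ M) (hb : b ∉ M) : a + b ∉ M :=
  fun h => hb ((M.add_mem_iff_right ha).1 h)

theorem wv_mul_not_mem (M : MaximalSpectrum Z) {a b : Z} (ha : a ∉ M.asIdeal)
    (hb : b ∉ M.asIdeal) : a * b ∉ M.asIdeal :=
  fun h => (M.isMaximal.isPrime.mem_or_mem h).elim ha hb

theorem wv_compl (M : MaximalSpectrum Z) {a b : Z} (ha : a ∈ M.asIdeal) (e : a + b = 1) :
    b ∉ M.asIdeal :=
  fun h => (Ideal.ne_top_iff_one _).1 M.isMaximal.ne_top (e ▸ M.asIdeal.add_mem ha h)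

theorem wv_adj {A : Type*} [Ring A] [Algebra Z A] [Module.Finite Z A] [Module.Free Z A]
    (s π : Z) (a : A) : ∃ (x : A) (n : ℕ) (r : Z),
      (s • (1 : A) + π • a) * x = (s ^ n + π * r) • (1 : A) := by
  classical
  let b := Module.Free.chooseBasis Z A
  obtain ⟨r, hr⟩ := s1_det_add (s • (1 : Matrix _ _ Z)) (Algebra.leftMulMatrix b a) π
  have e : Algebra.leftMulMatrix b (s • (1 : A) + π • a) =
      s • (1 : Matrix _ _ Z) + π • Algebra.leftMulMatrix b a := by
    rw [map_add, map_smul, map_smul, map_one]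
  refine ⟨b.equivFun.symm ((Algebra.leftMulMatrix b (s • (1 : A) + π • a)).adjugate *ᵥ b.repr 1),
    Fintype.card (Module.Free.ChooseBasisIndex Z A), r, b.equivFun.injective ?_⟩
  rw [Basis.equivFun_apply, ← Algebra.leftMulMatrix_mulVec_repr, ← Basis.equivFun_apply,
    LinearEquiv.apply_symm_apply, mulVec_mulVec, mul_adjugate, e, hr, det_smul, det_one, mul_one,
    map_smul, smul_mulVec, one_mulVec, Basis.equivFun_apply]

end Ring

variable {Z K A B : Type u} [CommRing Z] [IsDomain Z] [Field K] [Algebra Z K] [IsFractionRing Z K]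
  [Ring A] [StarRing A] [Algebra Z A] [Ring B] [StarRing B] [Algebra K B] [StarFix K B]
  {j : A →+* B} {m : ℕ} {l : A}

omit [IsDomain Z] [StarRing A] in
theorem wv_frac {O A0 : Type u} [CommRing O] [Algebra Z O] (S : Submonoid Z) [IsLocalization S O]
    [Ring A0] [Algebra O A0] {j0 : A →+* A0} (h : BC (algebraMap Z O) j0) (x : A0) :
    ∃ s ∈ S, ∃ a, algebraMap Z O s • x = j0 a := by
  refine h.induction (p := fun x => ∃ s ∈ S, ∃ a, algebraMap Z O s • x = j0 a)
    ⟨1, S.one_mem, 0, by simp⟩ (fun t a => ?_) ?_ x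
  · obtain ⟨⟨p, s⟩, e⟩ := IsLocalization.surj S t
    exact ⟨s, s.2, p • a, by rw [smul_smul, mul_comm, e, h.smul]⟩
  · rintro x y ⟨s, hs, a, e⟩ ⟨t, ht, b, e'⟩
    exact ⟨s * t, S.mul_mem hs ht, t • a + s • b, by
      rw [map_add, h.smul, h.smul, ← e, ← e', smul_smul, smul_smul, ← map_mul, ← map_mul,
        mul_comm t s, smul_add]⟩

/-- The elements that are integral at the maximal ideals in `S`. -/
def intAt (hj : BC (algebraMap Z K) j) (S : Finset (MaximalSpectrum Z)) : Subring B where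
  carrier := {b | ∃ s : Z, s ≠ 0 ∧ (∀ M ∈ S, s ∉ M.asIdeal) ∧ ∃ a, algebraMap Z K s • b = j a}
  one_mem' := ⟨1, one_ne_zero, fun M _ => wv_compl M M.asIdeal.zero_mem (zero_add 1), 1, by simp⟩
  zero_mem' := ⟨1, one_ne_zero, fun M _ => wv_compl M M.asIdeal.zero_mem (zero_add 1), 0, by simp⟩
  mul_mem' := by
    rintro x y ⟨s, h0, hs, a, e⟩ ⟨t, h1, ht, b, e'⟩
    exact ⟨s * t, mul_ne_zero h0 h1, fun M hM => wv_mul_not_mem M (hs M hM) (ht M hM), a * b, by
      rw [map_mul, map_mul, ← e, ← e', smul_mul_smul_comm]⟩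
  add_mem' := by
    rintro x y ⟨s, h0, hs, a, e⟩ ⟨t, h1, ht, b, e'⟩
    exact ⟨s * t, mul_ne_zero h0 h1, fun M hM => wv_mul_not_mem M (hs M hM) (ht M hM),
      t • a + s • b, by
        rw [map_add, hj.smul, hj.smul, ← e, ← e', smul_smul, smul_smul, ← map_mul, ← map_mul,
          mul_comm t s, smul_add]⟩
  neg_mem' := by
    rintro x ⟨s, h0, hs, a, e⟩
    exact ⟨s, h0, hs, -a, by rw [smul_neg, e, map_neg]⟩

omit [StarRing A] [StarRing B] [StarFix K B] in
theorem mem_intAt (hj : BC (algebraMap Z K) j) {S : Finset (MaximalSpectrum Z)} {b : B} {s : Z}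
    (hs : ∀ M ∈ S, s ∉ M.asIdeal) {a : A} (e : algebraMap Z K s • b = j a) : b ∈ intAt hj S := by
  rcases S.eq_empty_or_nonempty with rfl | ⟨M, hM⟩
  · obtain ⟨t, ht, c, e'⟩ := wv_frac (nonZeroDivisors Z) hj b
    exact ⟨t, nonZeroDivisors.ne_zero ht, by simp, c, e'⟩
  · exact ⟨s, fun h => hs M hM (h ▸ M.asIdeal.zero_mem), hs, a, e⟩

omit [IsDomain Z] [IsFractionRing Z K] in
theorem wv_snax {O A0 : Type u} [CommRing O] [IsDomain O] [Algebra O K] [Infinite K] [Ring A0]
    [StarRing A0] [Algebra O A0] [Algebra O B] (i : A0 →ₐ[O] B) {l0 : A0} (h : QAz O m l0)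
    (hm : Even m) (hj : SBC (algebraMap O K) (i : A0 →+* B)) :
    SNax i l0 (nrd O) fun g c => SN K (i l0) g c ∧ IsPair (i l0) g :=
  have hB : QAz K m (i l0) := h.map hj
  { mul := fun _ _ _ _ a b => ⟨a.1.mul hB b.1, a.2.mul hB hm b.2⟩
    inv := fun _ _ a => ⟨a.1.inv hB, dori_star a.2⟩
    one := fun _ a => a.1.isSquare hB
    ne := fun _ _ a => (a.1.isUnit hB).ne_zero
    iso := fun _ _ a => a.1.iso hB
    ori := fun _ _ ⟨_, y1, y2, a1, a2, e⟩ => ⟨star y2, a2.star, by
      rw [e, mul_assoc, gl_mul_gl_star (a2.add_star hB.add_star), mul_one, gl, sub_sub_cancel]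
      exact (y1⁻¹).isUnit⟩
    gen := fun l1 l2 y1 y2 a1 a2 e1 e2 => by
      have b1 : La (i l0) y1 := e1 ▸ a1.map (i : A0 →+* B) hj.map_star
      have b2 : La (i l0) y2 := e2 ▸ a2.map (i : A0 →+* B) hj.map_star
      refine ⟨?_, y1, y2, b1, b2, rfl⟩
      rw [map_mul, ← h.az.nrd_map hj.toBC, ← h.az.nrd_map hj.toBC, RingHom.coe_coe, e1, e2]
      exact sn_gl hB b1 b2 }

end Pool.Agent.GSD
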