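import Pool.Agent.P.MP_c1f06d_ag.d.WVal2

open Matrix Module Pool.Agent.SU IsLocalRing

universe u

namespace Pool.Agent.GSD

variable {Z K A B : Type u} [CommRing Z] [IsDomain Z] [Field K] [Algebra Z K] [IsFractionRing Z K]
  [Ring A] [StarRing A] [Algebra Z A] [Ring B] [StarRing B] [Algebra K B] [StarFix K B]
  {j : A →+* B} {m : ℕ} {l : A}

section Loc
variable {N : MaximalSpectrum Z} {O A0 : Type u} [CommRing O] [IsDomain O] [ValuationRing O]
  [Infinite (ResidueField O)] [Algebra Z O] [N.asIdeal.IsPrime] [IsLocalization.AtPrime O N.asIdeal]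
  [Algebra O K] [IsFractionRing O K] [IsScalarTower Z O K] [Ring A0] [StarRing A0] [Algebra O A0]
  [StarFix O A0] [Algebra O B] [IsScalarTower O K B] {j0 : A →+* A0} {i : A0 →ₐ[O] B}
  (h : QAz Z m l) (hm : Even m) (hj : SBC (algebraMap Z K) j) (h0 : SBC (algebraMap Z O) j0)
  (hi : SBC (algebraMap O K) (i : A0 →+* B)) (e : ∀ a, i (j0 a) = j a)
include h hm h0 hi e

omit [IsDomain Z] [IsFractionRing Z K] [IsScalarTower Z O K] [Algebra Z K] in
theorem wv_loc0 {g : A} (hg : IsPair (j l) (j g)) :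
    ∃ y, La l y ∧ nrd Z y ∉ N.asIdeal ∧ nrd Z ((1 - g) * y + g) ∉ N.asIdeal := by
  have hO := h.map h0
  have := hO.az.finite
  have := hO.az.free
  have : StarFix O B := ⟨fun t => by rw [IsScalarTower.algebraMap_apply O K B, StarFix.fix]⟩
  have : Infinite O := Infinite.of_surjective _ (residue_surjective (R := O))
  have : Infinite K := Infinite.of_injective _ (IsFractionRing.injective O K)
  have hs := wv_snax i hO hm hi
  rw [← e, ← e] at hg
  obtain ⟨y1, y2, a1, a2, e1⟩ := hg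
  have hB : QAz K m (i (j0 l)) := hO.map hi
  obtain ⟨l1, l2, -, b2, e2⟩ : ∃ l1 l2 : A0ˣ, La (j0 l) l1 ∧ La (j0 l) l2 ∧
      j0 g = gl l1 * gl l2 := by
    have h1 := e1 ▸ sn_gl hB a1 a2
    obtain ⟨y, h2, h3⟩ := hs.ori _ _ ⟨h1, y1, y2, a1, a2, e1⟩
    exact exists_v0 (K := K) (SBC.genF i hi) (dori_base hO) hO.add_star (h1.iso hB).1 (h1.iso hB).2
      h2 h3
  obtain ⟨b, hb⟩ := b2.star
  obtain ⟨s, hs1, a, ha⟩ := wv_frac N.asIdeal.primeCompl h0.toBC b
  obtain ⟨s', ν, h4, h5⟩ := N.isMaximal.exists_inv hs1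
  have := h.starFix
  have h6 : qm (maximalIdeal O) (j0 (l + s' • (a - star a))) =
      qm (maximalIdeal O) ((star l2 : A0ˣ) : A0) := by
    have h7 : j0 (l + s' • (a - star a)) =
        ((star l2 : A0ˣ) : A0) - algebraMap Z O ν • (b - star b) := by
      rw [map_add, h0.smul, map_sub, h0.map_star, ← ha, star_smul_fix, ← smul_sub, smul_smul,
        ← map_mul, eq_sub_of_add_eq h5, map_sub, map_one, sub_smul, one_smul, Units.coe_star,
        ← hb]
      abel
    rw [h7, map_sub, qm_smul ((IsLocalization.AtPrime.to_map_mem_maximal_iff O N.asIdeal ν).2 h4),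
      sub_zero]
  have key : ∀ x : A, IsUnit (qm (maximalIdeal O) (j0 x)) → nrd Z x ∉ N.asIdeal := fun x hx hc =>
    (IsLocalization.AtPrime.to_map_mem_maximal_iff O N.asIdeal _).2 hc
      (h.az.nrd_map h0.toBC x ▸ hO.az.isUnit_nrd_iff.2 (isUnit_of_qm hx))
  refine ⟨_, (La.refl l).add_alt ((alt_sub_star a).smul s'), key _ (h6 ▸ (star l2).isUnit.map _),
    key _ ?_⟩
  have h8 : IsUnit (1 - j0 g * gl (star l2)) := by
    rw [e2, mul_assoc, gl_mul_gl_star (b2.add_star hO.add_star), mul_one, gl, sub_sub_cancel]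
    exact (l1⁻¹).isUnit
  rw [one_sub_mul_gl] at h8
  have h9 : IsUnit ((1 - j0 g) * ((star l2 : A0ˣ) : A0) + j0 g) := by
    simpa only [Units.inv_mul_cancel_right] using h8.mul (star l2).isUnit
  have h10 := h9.map (qm (maximalIdeal O))
  rw [map_add, map_mul, ← h6, ← map_mul, ← map_add] at h10
  rwa [map_add, map_mul, map_sub, map_one]

theorem wv_step {l0 : Aˣ} (hl0 : La l l0) {S : Finset (MaximalSpectrum Z)} (hN : N ∉ S) {g : B}
    (hg : g ∈ intAt hj.toBC S) {c : Z} (hc : c ∉ N.asIdeal) {u : K} (hu : u ≠ 0)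
    (h1 : SN K (j l) g (u ^ 2 * algebraMap Z K c) ∧ IsPair (j l) g) :
    ∃ (g' : B) (w : K), w ≠ 0 ∧ g' ∈ intAt hj.toBC (S.cons N hN) ∧
      SN K (j l) g' (w ^ 2 * algebraMap Z K c) ∧ IsPair (j l) g' := by
  have hO := h.map h0
  have := hO.az.finite
  have := hO.az.free
  have := h.az.finite
  have := h.az.free
  have := h.starFix
  have : StarFix O B := ⟨fun t => by rw [IsScalarTower.algebraMap_apply O K B, StarFix.fix]⟩
  have : Infinite O := Infinite.of_surjective _ (residue_surjective (R := O))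
  have : Infinite K := Infinite.of_injective _ (IsFractionRing.injective O K)
  have hsm : ∀ (s : Z) (b : B), algebraMap Z O s • b = algebraMap Z K s • b := fun s b => by
    rw [IsScalarTower.algebraMap_apply Z O K, algebraMap_smul K]
  obtain ⟨π, ν, hπ, hν, hπν⟩ := wv_pi S hN
  have hπN : π ∉ N.asIdeal := wv_compl N hν (by rw [add_comm, hπν])
  obtain ⟨n, hn⟩ := exists_cov (i := i) g
  rw [← e, IsScalarTower.algebraMap_apply Z O K] at h1
  obtain ⟨a, w, hw, ⟨s1, -, hs1, a1, e1⟩, h2⟩ := valB_rel (SBC.genF i hi) (dori_base hO) hO.add_star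
    (wv_snax i hO hm hi) (intAt hj.toBC S)
    (fun b ⟨s, s0, hs, a, ea⟩ => ⟨s, s0, hs, star a, by rw [hj.map_star, ← ea, star_smul_fix]⟩)
    (fun g ⟨s, s0, hs, a, ea⟩ => ⟨algebraMap Z O s, fun hz => s0 (IsFractionRing.injective Z K (by
      rw [IsScalarTower.algebraMap_apply Z O K, hz, map_zero, map_zero])),
      ⟨j0 a, by rw [hsm, ea, e]⟩, fun ht l1 hl1 => by
      have hsN := (IsLocalization.AtPrime.to_map_mem_maximal_iff O N.asIdeal s).1 ht
      obtain ⟨b, hb⟩ := hl1.sub (hl0.map j0 h0.map_star)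
      obtain ⟨s1, hs1, a1, ha1⟩ := wv_frac N.asIdeal.primeCompl h0.toBC b
      have hs' : s ^ 4 + π * s1 ∉ N.asIdeal :=
        wv_add_not_mem (Ideal.pow_mem_of_mem _ hsN 4 four_pos) (wv_mul_not_mem N hπN hs1)
      obtain ⟨σ, hσ⟩ := (IsLocalization.map_units O
        (⟨_, hs'⟩ : N.asIdeal.primeCompl)).exists_right_inv
      change algebraMap Z O (s ^ 4 + π * s1) * σ = 1 at hσ
      have hn1 : j0 (a1 - star a1) = algebraMap Z O s1 • (l1 - j0 l0) := by
        rw [map_sub, h0.map_star, ← ha1, star_smul_fix, ← smul_sub, hb]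
      refine ⟨j0 l0 + (algebraMap Z O π * σ) • j0 (a1 - star a1),
        (hl0.map j0 h0.map_star).add_alt (((alt_sub_star a1).map j0 h0.map_star).smul _),
        ⟨-σ • (l1 - j0 l0), ?_⟩, fun y hy => ?_⟩
      · have e2 : algebraMap Z O π * σ * algebraMap Z O s1 = 1 + algebraMap Z O s ^ 4 * -σ := by
          rw [map_add, map_mul, map_pow] at hσ
          linear_combination hσ
        rw [hn1, smul_smul, smul_smul, e2, add_smul, one_smul]
        abel
      · obtain ⟨x, k, r, hx⟩ := wv_adj (s ^ 4 + π * s1) π ((l0⁻¹ : Aˣ) * (a1 - star a1))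
        have e3 : algebraMap Z K (s ^ 4 + π * s1) • (y : B) =
            j (l0 * ((s ^ 4 + π * s1) • (1 : A) + π • ((l0⁻¹ : Aˣ) * (a1 - star a1)))) := by
          rw [← hsm, ← hy, ← map_smul, ← e, smul_add, smul_smul, mul_left_comm, hσ, mul_one,
            ← h0.smul, ← h0.smul, ← map_add, mul_add, mul_smul_comm, mul_smul_comm, mul_one,
            Units.mul_inv_cancel_left]
        refine mem_intAt hj.toBC (s := (s ^ 4 + π * s1) ^ k + π * r) (fun M hM hc => ?_)
          (a := (s ^ 4 + π * s1) • (x * (l0⁻¹ : Aˣ))) ?_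
        · have h3 := M.isMaximal.isPrime.mem_of_pow_mem k
            ((M.asIdeal.add_mem_iff_left (Ideal.mul_mem_right r _ (hπ M hM))).1 hc)
          exact hs M hM (M.isMaximal.isPrime.mem_of_pow_mem 4
            ((M.asIdeal.add_mem_iff_left (Ideal.mul_mem_right s1 _ (hπ M hM))).1 h3))
        · rw [← y.inv_mul_cancel_left (j _), hj.smul, mul_smul_comm, ← smul_mul_assoc _ (y : B), e3,
            ← map_mul, mul_assoc, ← mul_assoc _ x, hx, smul_mul_assoc, one_mul, mul_smul_comm,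
            l0.mul_inv, hj.smul, map_one, mul_smul_comm, mul_one]⟩)
    n g _ u hg hn ((IsLocalization.AtPrime.isUnit_to_map_iff O N.asIdeal c).2 hc) hu h1
  rw [e, ← IsScalarTower.algebraMap_apply Z O K] at h2
  obtain ⟨s2, hs2, a2, e2⟩ := wv_frac N.asIdeal.primeCompl h0.toBC a
  refine ⟨i a, w, hw, mem_intAt hj.toBC (s := π * s2 + ν * s1) (fun M hM => ?_)
    (a := π • a2 + ν • a1) ?_, h2⟩
  · rcases Finset.mem_cons.1 hM with rfl | hM
    · rw [add_comm]
      exact wv_add_not_mem (Ideal.mul_mem_right _ _ hν) (wv_mul_not_mem _ hπN hs2)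
    · exact wv_add_not_mem (Ideal.mul_mem_right _ _ (hπ M hM))
        (wv_mul_not_mem M (wv_compl M (hπ M hM) hπν) (hs1 M hM))
  · rw [map_add j, hj.smul, hj.smul, ← e1, ← e, ← e2, map_smul, hsm, smul_smul, smul_smul,
      ← map_mul, ← map_mul, ← add_smul, ← map_add]

end Loc

/-- The local model at a maximal ideal. -/
theorem wv_model (har : Arith Z) (h : QAz Z m l) (hj : SBC (algebraMap Z K) j)
    (N : MaximalSpectrum Z) (hinf : Infinite (Z ⧸ N.asIdeal)) :
    ∃ (O A0 : Type u) (_ : CommRing O) (_ : IsDomain O) (_ : ValuationRing O)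
      (_ : Infinite (ResidueField O)) (_ : Algebra Z O) (_ : N.asIdeal.IsPrime)
      (_ : IsLocalization.AtPrime O N.asIdeal) (_ : Algebra O K) (_ : IsFractionRing O K)
      (_ : IsScalarTower Z O K) (_ : Ring A0) (_ : StarRing A0) (_ : Algebra O A0)
      (_ : StarFix O A0) (_ : Algebra O B) (_ : IsScalarTower O K B) (j0 : A →+* A0)
      (i : A0 →ₐ[O] B), SBC (algebraMap Z O) j0 ∧ SBC (algebraMap O K) (i : A0 →+* B) ∧
        ∀ a, i (j0 a) = j a := by
  have := N.isMaximal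
  have := h.starFix
  have := h.az.finite
  have := h.az.free
  let O := Localization.AtPrime N.asIdeal
  have hv : ValuationRing O := har.valuationRing N.asIdeal O
  have hi : Infinite (ResidueField O) :=
    Infinite.of_injective _ (IsLocalization.AtPrime.equivQuotMaximalIdeal N.asIdeal O).injective
  have hu : ∀ y : N.asIdeal.primeCompl, IsUnit (algebraMap Z K y) := fun y =>
    IsUnit.mk0 _ ((map_ne_zero_iff _ (IsFractionRing.injective Z K)).2 fun h0 =>
      y.2 (h0 ▸ N.asIdeal.zero_mem))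
  let _ : Algebra O K := (IsLocalization.lift hu).toAlgebra
  have ht : IsScalarTower Z O K :=
    IsScalarTower.of_algebraMap_eq fun x => (IsLocalization.lift_eq hu x).symm
  have hf : IsFractionRing O K :=
    IsFractionRing.isFractionRing_of_isDomain_of_isLocalization N.asIdeal.primeCompl O K
  obtain ⟨A0, _, _, _, _, j0, h0⟩ := exists_sbc (A := A) (algebraMap Z O)
  obtain ⟨k, h1, h2⟩ := h0.lift (g := algebraMap O K) (j' := j)
    (by rwa [← IsScalarTower.algebraMap_eq])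
  let _ : Algebra O B := Algebra.compHom B (algebraMap O K)
  have ht' : IsScalarTower O K B := ⟨fun a b c => by rw [Algebra.smul_def a b, mul_smul]; rfl⟩
  exact ⟨O, A0, inferInstance, inferInstance, hv, hi, inferInstance, inferInstance, inferInstance,
    inferInstance, hf, ht, inferInstance, inferInstance, inferInstance, inferInstance,
    inferInstance, ht', j0, ⟨k, h2.alg⟩, h0, h2, fun a => RingHom.congr_fun h1 a⟩

omit [IsDomain Z] [StarRing A] in
theorem wv_cong (h : Az Z A) {M : Ideal Z} {t : Z} (ht : t ∈ M) {a : A} (ha : nrd Z a ∉ M)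
    (b : A) : nrd Z (a + t • b) ∉ M := by
  have := h.finite
  have := h.free
  obtain ⟨p, h1, h2⟩ := h.exists_line a b
  have h3 := h2 Z A _ _ BC.refl t
  rw [Polynomial.map_id, ← p.divX_mul_X_add, Polynomial.eval_add, Polynomial.eval_mul,
    Polynomial.eval_X, Polynomial.eval_C, h1] at h3
  exact fun hc => ha ((M.add_mem_iff_right (M.mul_mem_left _ ht)).1 (h3 ▸ hc))

variable [Finite (MaximalSpectrum Z)] (har : Arith Z)
  (hinf : ∀ N : MaximalSpectrum Z, Infinite (Z ⧸ N.asIdeal)) (h : QAz Z m l) (hm : Even m)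
  (hj : SBC (algebraMap Z K) j)
include har hinf h hm hj

/-- V0 over a semilocal base. -/
theorem wv_v0 {g : A} (hg : IsPair (j l) (j g)) :
    ∃ y : Aˣ, La l y ∧ IsUnit ((1 - g) * y + g) := by
  have := h.starFix
  have key : ∀ S : Finset (MaximalSpectrum Z), ∃ y, La l y ∧ ∀ M ∈ S, nrd Z y ∉ M.asIdeal ∧
      nrd Z ((1 - g) * y + g) ∉ M.asIdeal := fun S => by
    induction S using Finset.cons_induction with
    | empty => exact ⟨l, La.refl l, by simp⟩
    | cons N S hN ih =>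
      obtain ⟨y, h1, h2⟩ := ih
      obtain ⟨O, A0, _, _, _, _, _, _, _, _, _, _, _, _, _, _, _, _, j0, i, h0, hi, e⟩ :=
        wv_model har h hj N (hinf N)
      obtain ⟨z, h3, h4, h5⟩ := wv_loc0 (N := N) h hm h0 hi e hg
      obtain ⟨π, ν, hπ, hν, hπν⟩ := wv_pi S hN
      have line : ∀ (a b : A) (t : Z), (1 - g) * (a + t • b) + g =
          (1 - g) * a + g + t • ((1 - g) * b) := fun a b t => by rw [mul_add, mul_smul_comm]; abel
      refine ⟨y + π • (z - y), h1.add_alt ((h3.sub h1).smul π), fun M hM => ?_⟩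
      rcases Finset.mem_cons.1 hM with rfl | hM
      · have e1 : y + π • (z - y) = z + ν • (y - z) := by
          rw [eq_sub_of_add_eq hπν]; module
        rw [e1, line]
        exact ⟨wv_cong h.az hν h4 _, wv_cong h.az hν h5 _⟩
      · rw [line]
        exact ⟨wv_cong h.az (hπ M hM) (h2 M hM).1 _, wv_cong h.az (hπ M hM) (h2 M hM).2 _⟩
  have := Fintype.ofFinite (MaximalSpectrum Z)
  have unit : ∀ x : Z, (∀ M : MaximalSpectrum Z, x ∉ M.asIdeal) → IsUnit x := fun x hx => by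
    by_contra hc
    obtain ⟨M, hM, h1⟩ := exists_max_ideal_of_mem_nonunits hc
    exact hx ⟨M, hM⟩ h1
  obtain ⟨y, h1, h2⟩ := key Finset.univ
  obtain ⟨y, rfl⟩ := h.az.isUnit_nrd_iff.1 (unit _ fun M => (h2 M (Finset.mem_univ M)).1)
  exact ⟨y, h1, h.az.isUnit_nrd_iff.1 (unit _ fun M => (h2 M (Finset.mem_univ M)).2)⟩

/-- (B) over a semilocal domain whose localisations are valuation rings. -/
theorem val_pairN_semi {c : Z} (hc : IsUnit c) (hK : PairN K (j l) (algebraMap Z K c)) :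
    PairN Z l c := by
  have hB := h.map hj
  have hinj := hj.injective (IsFractionRing.injective Z K)
  obtain ⟨y1, y2, t, c1, c2, a1, a2, n1, n2, e⟩ := hK
  have ht : t ≠ 0 := fun h0 => (hc.map (algebraMap Z K)).ne_zero (by rw [e, h0]; ring)
  obtain ⟨l0, hl0, -⟩ := wv_v0 har hinf h hm hj (g := 1) ⟨y1, star y1, a1, a1.star, by
    rw [map_one, gl_mul_gl_star (a1.add_star hB.add_star)]⟩
  have key : ∀ S : Finset (MaximalSpectrum Z), ∃ (g : B) (w : K), w ≠ 0 ∧ g ∈ intAt hj.toBC S ∧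
      SN K (j l) g (w ^ 2 * algebraMap Z K c) ∧ IsPair (j l) g := fun S => by
    induction S using Finset.cons_induction with
    | empty =>
      obtain ⟨s, hs, a, ha⟩ := wv_frac (nonZeroDivisors Z) hj.toBC (gl y1 * gl y2)
      refine ⟨_, 1, one_ne_zero, mem_intAt hj.toBC (by simp) ha, ?_, y1, y2, a1, a2, rfl⟩
      rw [one_pow, one_mul, e, ← hB.az.nrd_eq n1, ← hB.az.nrd_eq n2]
      exact (sn_gl hB a1 a2).mul_sq (IsUnit.mk0 t ht)
    | cons N S hN ih =>
      obtain ⟨g, w, hw, h1, h2⟩ := ih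
      obtain ⟨O, A0, _, _, _, _, _, _, _, _, _, _, _, _, _, _, _, _, j0, i, h0, hi, e'⟩ :=
        wv_model har h hj N (hinf N)
      exact wv_step h hm hj h0 hi e' hl0 hN h1
        (fun h3 => N.isMaximal.ne_top (Ideal.eq_top_of_isUnit_mem _ h3 hc)) hw h2
  have := Fintype.ofFinite (MaximalSpectrum Z)
  obtain ⟨g, w, hw, ⟨s, -, hs, a, ha⟩, h1, h2⟩ := key Finset.univ
  obtain ⟨s, rfl⟩ : IsUnit s := by
    by_contra h3
    obtain ⟨M, hM, h4⟩ := exists_max_ideal_of_mem_nonunits h3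
    exact hs ⟨M, hM⟩ (Finset.mem_univ _) h4
  obtain ⟨g0, rfl⟩ : ∃ g0, j g0 = g := ⟨((s⁻¹ : Zˣ) : Z) • a, by
    rw [hj.smul, ← ha, smul_smul, ← map_mul, s.inv_mul, map_one, one_smul]⟩
  obtain ⟨y, b1, b2⟩ := wv_v0 har hinf h hm hj h2
  have hg : Iso l g0 := by
    have := h.starFix
    obtain ⟨S, _, _, _, φ, b, h3, -⟩ := h.exists_spl
    obtain ⟨x, hx⟩ := (h1.iso hB).1
    obtain ⟨d, hd, x0, hx0⟩ := wv_frac (nonZeroDivisors Z) hj.toBC x
    refine h3.s1_sat d _ (nonZeroDivisors.ne_zero hd) ⟨x0, hinj ?_⟩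
    rw [hj.smul, map_sub, map_mul, map_mul, hj.map_star, hx, map_sub, hj.map_star, ← hx0,
      star_smul_fix, smul_sub]
  obtain ⟨y', b3, -, b4, -⟩ := hg.exists_gl_mul_gl h.add_star b1 (by
    rw [one_sub_mul_gl]; exact b2.mul (y⁻¹).isUnit)
  obtain ⟨v, hv⟩ := h1.ratio hB (b4 ▸ (sn_gl h b3 b1.star).map h hj)
  obtain ⟨r, hr⟩ := har.exists_sqrt (w := v / w)
    (c := c * (nrd Z (y' : A) * nrd Z ((star y : Aˣ) : A))) (by
      rw [div_pow, sq v, ← hv, map_mul _ c, mul_assoc, mul_div_cancel_left₀ _ (pow_ne_zero 2 hw)])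
  obtain ⟨n, hn⟩ := (h.az.isUnit_nrd_iff.2 y'.isUnit).mul (h.az.isUnit_nrd_iff.2 (star y).isUnit)
  refine ⟨y', star y, r * (n⁻¹ : Zˣ), _, _, b3, b1.star, h.az.isNrd _, h.az.isNrd _, ?_⟩
  rw [mul_pow, hr, ← hn]
  have h5 : (n : Z) * (n⁻¹ : Zˣ) = 1 := n.mul_inv
  calc c = c * ((n : Z) * (n⁻¹ : Zˣ)) ^ 2 := by rw [h5, one_pow, mul_one]
    _ = _ := by ring

end Pool.Agent.GSD
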