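import Pool.Agent.P.MP_c1f06d_ag.d.WVal3

open Matrix Module Pool.Agent.SU IsLocalRing TensorProduct

universe u

namespace Pool.Agent.GSD

section Avg
variable {T T' Z Z' A A' : Type u} [CommRing T] [CommRing T'] [CommRing Z] [CommRing Z'] [Ring A]
  [Ring A'] [Algebra T A]

theorem avg_of_fintype {ι : Type*} [Fintype ι] (x y : ι → A) (h1 : ∑ i, x i * y i = 1)
    (h2 : ∀ (p : A →ₗ[T] A) (a : A), a * ∑ i, x i * p (y i) = ∑ i, x i * p (y i * a)) :
    Avg T A := by
  let e := (Fintype.equivFin ι).symm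
  refine ⟨_, x ∘ e, y ∘ e, (e.sum_comp fun i => x i * y i).trans h1, fun p a => ?_⟩
  exact (congrArg _ (e.sum_comp fun i => x i * p (y i))).trans
    ((h2 p a).trans (e.sum_comp fun i => x i * p (y i * a)).symm)

/-- Averaging with values in another ring. -/
theorem avg_hom [Module.Free T A] [Module.Finite T A] (h : Avg T A) :
    ∃ (n : ℕ) (x y : Fin n → A), ∑ i, x i * y i = 1 ∧ ∀ (A' : Type u) [Ring A'] (j : A →+* A')
      (q : A →+ A'), (∀ t a, q (t • a) = j (algebraMap T A t) * q a) →
      ∀ a, j a * ∑ i, j (x i) * q (y i) = ∑ i, j (x i) * q (y i * a) := by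
  obtain ⟨n, x, y, h1, h2⟩ := h
  refine ⟨n, x, y, h1, fun A' _ j q hq a => ?_⟩
  let b := Module.Free.chooseBasis T A
  have key : ∀ z : Fin n → A, ∑ i, j (x i) * q (z i) =
      ∑ k, j (∑ i, x i * (b.coord k).smulRight (1 : A) (z i)) * q (b k) := fun z => by
    simp only [map_sum, Finset.sum_mul]
    rw [Finset.sum_comm]
    refine Finset.sum_congr rfl fun i _ => ?_
    conv_lhs => rw [← b.sum_repr (z i), map_sum, Finset.mul_sum]
    refine Finset.sum_congr rfl fun k _ => ?_
    rw [hq, map_mul, mul_assoc, LinearMap.smulRight_apply, Basis.coord_apply,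
      ← Algebra.algebraMap_eq_smul_one]
  rw [key, key, Finset.mul_sum]
  refine Finset.sum_congr rfl fun k _ => ?_
  rw [← mul_assoc, ← map_mul, h2]

theorem avg_bc [Algebra T' A'] {f : T →+* T'} {j : A →+* A'} (hj : BC f j) (h : Avg T A) :
    Avg T' A' := by
  have := hj.free
  have := hj.finite
  obtain ⟨n, x, y, h1, h2⟩ := avg_hom h
  refine ⟨n, j ∘ x, j ∘ y, by simpa using congrArg j h1, fun p a => ?_⟩
  induction a using hj.induction with
  | h0 => simp
  | h1 t a =>
    have h3 := h2 A' j ((p : A' →+ A').comp (j : A →+ A')) (fun t a => by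
      change p (j (t • a)) = _ * p (j a)
      rw [hj.smul, map_smul, hj.alg, Algebra.smul_def]) a
    simp only [Function.comp_apply, mul_smul_comm, smul_mul_assoc, map_smul, ← Finset.smul_sum,
      ← map_mul j]
    exact congrArg _ h3
  | h2 a b ha hb => simp only [add_mul, mul_add, map_add, Finset.sum_add_distrib, ha, hb]

theorem avg_trans [Algebra T Z] [Algebra Z A] [IsScalarTower T Z A] [Module.Free T Z]
    [Module.Finite T Z] (h : Avg T Z) (h' : Avg Z A) : Avg T A := by
  obtain ⟨n, x, y, h1, h2⟩ := avg_hom h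
  obtain ⟨n', X, Y, h3, h4⟩ := h'
  refine avg_of_fintype (ι := Fin n' × Fin n) (fun i => x i.2 • X i.1) (fun i => y i.2 • Y i.1) ?_
    fun p a => ?_
  · simp only [Fintype.sum_prod_type, smul_mul_smul_comm, ← Finset.sum_smul, h1, one_smul, h3]
  let p' : A →ₗ[Z] A :=
    { toFun := fun w => ∑ i, x i • p (y i • w)
      map_add' := fun v w => by simp only [smul_add, map_add, Finset.sum_add_distrib]
      map_smul' := fun z w => by
        have h5 := h2 A (algebraMap Z A) ((p : A →+ A).comp ((smulAddHom Z A).flip w))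
          (fun t a => by
            change p ((t • a) • w) = _ * p (a • w)
            rw [smul_assoc, map_smul, ← IsScalarTower.algebraMap_apply, Algebra.smul_def]) z
        simp only [← Algebra.smul_def] at h5
        rw [RingHom.id_apply]
        simp only [← mul_smul]
        exact h5.symm }
  have h6 := h4 p' a
  simpa only [p', LinearMap.coe_mk, AddHom.coe_mk, Fintype.sum_prod_type, Finset.mul_sum,
    mul_smul_comm, smul_mul_assoc] using h6

theorem avg_of_unramified [Algebra T Z] [Module.Finite T Z] [Algebra.FormallyUnramified T Z] :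
    Avg T Z := by
  obtain ⟨t, h1, h2⟩ := (Algebra.FormallyUnramified.iff_exists_tensorProduct (R := T) (S := Z)).1
    inferInstance
  obtain ⟨n, x, y, rfl⟩ := TensorProduct.exists_sum_tmul_eq t
  refine ⟨n, x, y, by simpa using h2, fun p a => ?_⟩
  have h3 := congrArg ((LinearMap.mul' T Z).comp (p.lTensor Z)) (h1 a)
  simp only [sub_mul, Finset.mul_sum, Algebra.TensorProduct.tmul_mul_tmul, one_mul, map_sub,
    map_sum, map_zero, LinearMap.comp_apply, LinearMap.lTensor_tmul, LinearMap.mul'_apply,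
    Finset.sum_sub_distrib, sub_eq_zero] at h3
  simp only [Finset.mul_sum, ← mul_assoc, ← h3, mul_comm (y _) a]

/-- Base change in a tower. -/
theorem BC.tower [Algebra T Z] [Algebra Z A] [IsScalarTower T Z A] [Algebra T' Z'] [Algebra Z' A']
    [Algebra T' A'] [IsScalarTower T' Z' A'] {f : T →+* T'} {g : Z →+* Z'} {j : A →+* A'}
    (hg : BC f g) (hj : BC g j) : BC f j := by
  obtain ⟨N, b, b', hb⟩ := hg.basis
  obtain ⟨M, c, c', hc⟩ := hj.basis
  refine dbc0_mk (fun t => ?_) (b.smulTower c) (b'.smulTower c') fun i => ?_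
  · rw [IsScalarTower.algebraMap_apply T Z A, hj.alg, hg.alg, ← IsScalarTower.algebraMap_apply]
  · rw [Basis.smulTower_apply, Basis.smulTower_apply, hj.smul, hb, hc]

theorem wv_finite_max [IsLocalRing T] [Algebra T Z] [Module.Finite T Z] :
    Finite (MaximalSpectrum Z) := by
  have := (Algebra.QuasiFinite.finite_primesOver (S := Z) (maximalIdeal T)).to_subtype
  refine Finite.of_injective (β := (maximalIdeal T).primesOver Z) (fun N => ⟨N.asIdeal,
    N.isMaximal.isPrime, ⟨?_⟩⟩) fun N M e => MaximalSpectrum.ext (congrArg Subtype.val e)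
  have := N.isMaximal
  exact (eq_maximalIdeal (Ideal.isMaximal_comap_of_isIntegral_of_isMaximal N.asIdeal)).symm

theorem wv_infinite [IsLocalRing T] [Infinite (ResidueField T)] [Algebra T Z] [Module.Finite T Z]
    (N : MaximalSpectrum Z) : Infinite (Z ⧸ N.asIdeal) := by
  have := N.isMaximal
  have e : N.asIdeal.comap (algebraMap T Z) = maximalIdeal T :=
    eq_maximalIdeal (Ideal.isMaximal_comap_of_isIntegral_of_isMaximal N.asIdeal)
  have : Infinite (T ⧸ maximalIdeal T) := ‹Infinite (ResidueField T)›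
  exact Infinite.of_injective
    (Ideal.quotientMap N.asIdeal (algebraMap T Z) e.ge) (Ideal.quotientMap_injective' e.le)

theorem Arith.of_surjective (h : Arith Z) (f : Z →+* Z') (hf : Function.Surjective f) :
    Arith Z' := fun x y => by
  obtain ⟨x, rfl⟩ := hf x
  obtain ⟨y, rfl⟩ := hf y
  obtain ⟨a, b, c, h1, h2⟩ := h x y
  exact ⟨f a, f b, f c, by simpa using congrArg f h1, by simpa using congrArg f h2⟩

theorem Az.nrd_congr (h : Az T A) {I : Ideal T} {a b : A} (e : a - b ∈ extI A I) :
    nrd T a - nrd T b ∈ I := by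
  have := h.free
  have := h.finite
  obtain ⟨A1, _, _, j, hj⟩ := exists_bc (A := A) (Ideal.Quotient.mk I)
  have h1 : j (a - b) = 0 := hj.map_eq_zero_iff.2 (by rwa [Ideal.mk_ker])
  rw [map_sub, sub_eq_zero] at h1
  rw [← Ideal.Quotient.eq, ← h.nrd_map hj, ← h.nrd_map hj, h1]

end Avg

section Sat
variable {O A S d : Type*} [CommRing O] [Ring A] [Algebra O A] [CommRing S] [Algebra O S]
  [Fintype d] [DecidableEq d] {φ : A →ₐ[O] Matrix d d S} [StarRing A] {b : Matrix d d S}

theorem Spl.wv_sat [StarFix O A] [Module.FaithfullyFlat O S] (h : Spl φ b) {c : O}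
    {a : A} (hc : c ∈ nonZeroDivisors O) (ha : Alt (c • a)) : Alt a := by
  let f : A →ₗ[O] A :=
    { toFun := fun x => x - star x
      map_add' := fun x y => by rw [star_add]; abel
      map_smul' := fun r x => by rw [star_smul_fix, smul_sub, RingHom.id_apply] }
  let f' : Matrix d d S →ₗ[S] Matrix d d S :=
    { toFun := fun Z => (↑h.unit.unit⁻¹ : Matrix d d S) * (b * Z - (b * Z)ᵀ)
      map_add' := fun x y => by rw [← mul_add, mul_add b, transpose_add]; congr 1; abel
      map_smul' := fun r x => by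
        rw [mul_smul_comm, transpose_smul, ← smul_sub, mul_smul_comm, RingHom.id_apply] }
  obtain ⟨x, hx⟩ := ha
  have hreg : IsSMulRegular S c := Module.Flat.isSMulRegular_of_nonZeroDivisors hc
  have h1 : c • (b * φ a) = b * φ x - (b * φ x)ᵀ := by
    rw [← h.s1_sub, ← hx, map_smul, mul_smul_comm]
  obtain ⟨Y, hY⟩ := s1_alt (W := b * φ a)
    (fun i => hreg (by
      have := congrFun (congrFun h1 i) i
      simp only [Matrix.smul_apply, Matrix.sub_apply, transpose_apply, sub_self] at this
      simp only [smul_zero, this]))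
    (fun i j => hreg (by
      have e1 := congrFun (congrFun h1 i) j
      have e2 := congrFun (congrFun h1 j) i
      simp only [Matrix.smul_apply, Matrix.sub_apply, transpose_apply] at e1 e2
      simp only [smul_add, smul_zero, e1, e2]
      ring))
  obtain ⟨y, hy⟩ := s1_solve h.bc h.bc f f'
    (fun x => by
      change (↑h.unit.unit⁻¹ : Matrix d d S) * (b * φ x - (b * φ x)ᵀ) = φ (x - star x)
      rw [← h.s1_sub, ← mul_assoc, h.unit.val_inv_mul, one_mul])
    (q := a) (x' := (↑h.unit.unit⁻¹ : Matrix d d S) * Y) (by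
      change (↑h.unit.unit⁻¹ : Matrix d d S) * (b * (_ * Y) - (b * (_ * Y))ᵀ) = φ a
      rw [← mul_assoc b, h.unit.mul_val_inv, one_mul, ← hY, ← mul_assoc, h.unit.val_inv_mul,
        one_mul])
  exact ⟨y, hy.symm⟩

end Sat

section Et
variable {O Z : Type u} [CommRing O] [IsDomain O] [ValuationRing O] [CommRing Z] [Algebra O Z]
  [Module.Finite O Z] [Module.Free O Z] (hav : Avg O Z)

omit [ValuationRing O] [Module.Finite O Z] in
theorem wv_nzd {r : O} (hr : r ≠ 0) : algebraMap O Z r ∈ nonZeroDivisors Z :=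
  mem_nonZeroDivisors_iff_left.2 fun z hz =>
    smul_right_injective Z hr (by simpa only [smul_zero, Algebra.smul_def, mul_zero] using hz)

include hav

/-- Annihilators are generated by idempotents. -/
theorem wv_ann (x : Z) : ∃ e, x * e = 0 ∧ e * e = e ∧
    ∀ P ∈ (⊥ : Ideal O).primesOver Z, x + e ∉ P := by
  obtain ⟨n, u, v, h1, h2⟩ := hav
  obtain ⟨p, p1, p2⟩ := exists_proj_of_saturated (LinearMap.ker (LinearMap.mulLeft O x))
    fun c z hc hz => smul_right_injective Z hc (by
      have h3 : x * c • z = 0 := hz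
      change c • (x * z) = c • 0
      rw [← mul_smul_comm, h3, smul_zero])
  have e1 : x * ∑ i, u i * p (v i) = 0 := by
    rw [Finset.mul_sum]
    exact Finset.sum_eq_zero fun i _ => by
      rw [mul_left_comm, show x * p (v i) = 0 from p1 _, mul_zero]
  have e2 : ∀ z, x * z = 0 → z * ∑ i, u i * p (v i) = z := fun z hz => by
    rw [h2]
    conv_rhs => rw [← one_mul z, ← h1, Finset.sum_mul]
    refine Finset.sum_congr rfl fun i _ => ?_
    rw [p2 _ (show x * (v i * z) = 0 by rw [mul_left_comm, hz, mul_zero]), mul_assoc]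
  generalize ∑ i, u i * p (v i) = e at e1 e2
  refine ⟨e, e1, e2 e e1, fun P hP h3 => ?_⟩
  obtain ⟨r, hr, w, hw⟩ := (Algebra.IsIntegral.isIntegral (R := O) (x + e)).isAlgebraic
    |>.exists_nonzero_dvd (mem_nonZeroDivisors_iff_left.2 fun z hz => by
      have h4 : z * e = 0 := by linear_combination e * hz - z * e1 - z * e2 e e1
      rw [← e2 z (by linear_combination hz - h4), h4])
  have h5 : r ∈ P.under O := by
    rw [Ideal.under_def, Ideal.mem_comap, hw]
    exact P.mul_mem_right _ h3
  rw [← hP.2.over] at h5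
  exact hr h5

theorem wv_coprime : Pairwise (Function.onFun IsCoprime
    fun P : (⊥ : Ideal O).primesOver Z => (P : Ideal Z)) := by
  have key : ∀ P Q : (⊥ : Ideal O).primesOver Z, ¬ (P : Ideal Z) ≤ Q →
      IsCoprime (P : Ideal Z) (Q : Ideal Z) := fun P Q h => by
    obtain ⟨x, h1, h2⟩ := SetLike.not_le_iff_exists.1 h
    obtain ⟨e, e1, e2, e3⟩ := wv_ann hav x
    have h3 : e ∈ (Q : Ideal Z) := (Q.2.1.mem_or_mem (e1 ▸ zero_mem _)).resolve_left h2
    have h4 : 1 - e ∈ (P : Ideal Z) := (P.2.1.mem_or_mem (x := e) (by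
      rw [mul_sub, mul_one, e2, sub_self]; exact zero_mem _)).resolve_left
      fun h5 => e3 P P.2 (add_mem h1 h5)
    exact Ideal.isCoprime_iff_exists.2 ⟨_, h4, e, h3, sub_add_cancel 1 e⟩
  intro P Q h
  by_cases h1 : (P : Ideal Z) ≤ Q
  · exact (key Q P fun h2 => h (Subtype.ext (le_antisymm h1 h2))).symm
  · exact key P Q h1

theorem wv_inter {z : Z} (hz : ∀ P : (⊥ : Ideal O).primesOver Z, z ∈ (P : Ideal Z)) : z = 0 := by
  obtain ⟨e, e1, e2, e3⟩ := wv_ann hav z
  by_contra h0
  have hd : Disjoint ((Ideal.span {e} : Ideal Z) : Set Z)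
      (Algebra.algebraMapSubmonoid Z (nonZeroDivisors O)) := by
    refine Set.disjoint_left.2 ?_
    rintro _ h4 ⟨r, hr, rfl⟩
    obtain ⟨w, hw⟩ := Ideal.mem_span_singleton'.1 h4
    have h5 : r ≠ 0 := nonZeroDivisors.ne_zero (show r ∈ nonZeroDivisors O from hr)
    have h6 : algebraMap O Z r * z = 0 := by linear_combination w * e1 - z * hw
    exact h0 (mem_nonZeroDivisors_iff_left.1 (wv_nzd (Z := Z) h5) z h6)
  obtain ⟨P, h1, h2, h3⟩ := Ideal.exists_le_prime_disjoint _ _ hd
  have h4 : (⊥ : Ideal O) = P.under O := le_antisymm bot_le fun r hr => by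
    by_contra h5
    have h6 : algebraMap O Z r ∈ P := hr
    exact Set.disjoint_left.1 h3 h6 ⟨r, mem_nonZeroDivisors_of_ne_zero h5, rfl⟩
  exact e3 P ⟨h1, ⟨h4⟩⟩ (add_mem (hz ⟨P, h1, ⟨h4⟩⟩) (h2 (Ideal.mem_span_singleton_self e)))

end Et

end Pool.Agent.GSD
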