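import Pool.Agent.P.MP_c1f06d_ag.d.WVal4

open Matrix Module Pool.Agent.SU IsLocalRing

universe u

namespace Pool.Agent.GSD

variable {O Z : Type u} [CommRing O] [IsDomain O] [ValuationRing O] [CommRing Z] [Algebra O Z]
  [Infinite (ResidueField O)] {K F A B : Type u} [Field K] [Algebra O K]
  [IsFractionRing O K] [CommRing F] [Algebra K F] {g : Z →+* F} [Ring A] [StarRing A] [Algebra Z A]
  [Ring B] [StarRing B] [Algebra F B] [StarFix F B] {j : A →+* B} {m : ℕ} {l : A}

/-- (A) over a finite free separable algebra over a valuation ring. -/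
theorem val_formIso_fin (hg : BC (algebraMap O K) g) (hav : Avg O Z) (h : QAz Z m l)
    (hj : SBC g j) {th : A} (hth : IsUnit (th + star th)) (hK : FormIso (j l) (j th)) :
    FormIso l th := by
  have := hg.free
  have := hg.finite
  have := h.starFix
  have := h.az.finite
  have := h.az.free
  have := hj.finite'
  let : Algebra O A := Algebra.compHom A (algebraMap O Z)
  have : IsScalarTower O Z A := ⟨fun a b c => by rw [Algebra.smul_def a b, mul_smul]; rfl⟩
  let : Algebra K B := Algebra.compHom B (algebraMap K F)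
  have : IsScalarTower K F B := ⟨fun a b c => by rw [Algebra.smul_def a b, mul_smul]; rfl⟩
  let : Algebra O B := Algebra.compHom B (algebraMap O K)
  have : IsScalarTower O K B := ⟨fun a b c => by rw [Algebra.smul_def a b, mul_smul]; rfl⟩
  have : StarFix O A := ⟨fun t => StarFix.fix (algebraMap O Z t)⟩
  have : StarFix O B := ⟨fun t => StarFix.fix (algebraMap K F (algebraMap O K t))⟩
  have h1 := hg.tower hj.toBC
  have := h1.finite
  have := h1.free
  let i : A →ₐ[O] B := ⟨j, h1.alg⟩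
  have hi : GenF i := SBC.genF i ⟨h1, hj.map_star⟩
  obtain ⟨S, _, _, _, φ, b, h2, -⟩ := h.exists_spl
  obtain ⟨x, hx⟩ := hK
  obtain ⟨y, hy, -⟩ := valA hi (avg_trans hav h.az.avg) (P.MP_c1f06d_ag.FP.alt A)
    (P.MP_c1f06d_ag.FP.alt B)
    (fun a => ⟨fun ⟨w, hw⟩ => by
      obtain ⟨d, hd, c, hc⟩ := hi.den w
      refine h2.wv_sat (wv_nzd (Z := Z) hd) ⟨c, hi.inj ?_⟩
      rw [algebraMap_smul, map_smul, map_sub, hi.map_star, ← hc, star_smul_fix, ← smul_sub, hw],
      fun h => Alt.map j hj.map_star h⟩) h.add_star hth (fun _ => True) trivial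
    (fun _ _ _ _ _ _ _ _ _ _ => trivial) (x := x) (isUnit_of_formIso (T := F) (h.map hj).add_star
      (by rw [← hj.map_star, ← map_add]; exact hth.map j) hx) hx
  exact ⟨y, hy⟩

theorem wv_prime (hg : BC (algebraMap O K) g) (hav : Avg O Z) (h : QAz Z m l) (hm : Even m)
    (hj : SBC g j) {c : Z} (hc : IsUnit c) (hK : PairN F (j l) (g c))
    (P : (⊥ : Ideal O).primesOver Z) : ∃ (y1 y2 : A) (t : Z),
      c - t ^ 2 * (nrd Z (l + (y1 - star y1)) * nrd Z (l + (y2 - star y2))) ∈ (P : Ideal Z) := by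
  obtain ⟨P, hP, hP0⟩ := P
  have := hg.free
  have := hg.finite
  have := h.starFix
  have := h.az.finite
  have := h.az.free
  let L := FractionRing (Z ⧸ P)
  let f : Z →+* L := (algebraMap (Z ⧸ P) L).comp (Ideal.Quotient.mk P)
  have hf : Function.Injective (f.comp (algebraMap O Z)) := (injective_iff_map_eq_zero _).2
    fun r hr => by
      have h1 : algebraMap O Z r ∈ P := Ideal.Quotient.eq_zero_iff_mem.1
        ((IsFractionRing.to_map_eq_zero_iff (R := Z ⧸ P) (K := L)).1 hr)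
      have h2 : r ∈ P.under O := h1
      rwa [← hP0.over] at h2
  obtain ⟨k, hk, -⟩ := hg.lift (g := IsFractionRing.lift hf) (T'' := L) f fun t =>
    (IsFractionRing.lift_algebraMap hf t).symm
  obtain ⟨A0, _, _, _, _, j0, h0⟩ := exists_sbc (A := A) (Ideal.Quotient.mk P)
  have h' := h.map h0
  have := h'.az.finite
  have := h'.az.free
  obtain ⟨B0, _, _, _, _, j1, h1⟩ := exists_sbc (A := A0) (algebraMap (Z ⧸ P) L)
  obtain ⟨k', hk', h2⟩ := hj.lift (g := k) (j' := j1.comp j0) (hk ▸ h0.comp h1)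
  have h3 := hK.map h2
  rw [show k' (j l) = j1 (j0 l) from RingHom.congr_fun hk' l,
    show k (g c) = algebraMap _ L (Ideal.Quotient.mk P c) from RingHom.congr_fun hk c] at h3
  have := wv_finite_max (T := O) (Z := Z ⧸ P)
  obtain ⟨l1, l2, t, c1, c2, ⟨y1, a1⟩, ⟨y2, a2⟩, n1, n2, e⟩ := val_pairN_semi
    ((arith_of_avg hav).of_surjective _ Ideal.Quotient.mk_surjective) (wv_infinite (T := O)) h' hm
    h1 (hc.map _) h3
  obtain ⟨y1, rfl⟩ := h0.surjective Ideal.Quotient.mk_surjective y1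
  obtain ⟨y2, rfl⟩ := h0.surjective Ideal.Quotient.mk_surjective y2
  obtain ⟨t, rfl⟩ := Ideal.Quotient.mk_surjective t
  refine ⟨y1, y2, t, Ideal.Quotient.eq.1 ?_⟩
  rw [e, map_mul, map_mul, map_pow, ← h.az.nrd_map h0.toBC, ← h.az.nrd_map h0.toBC, map_add,
    map_add, map_sub, map_sub, h0.map_star, h0.map_star, ← a1, ← a2, add_sub_cancel,
    add_sub_cancel, h'.az.nrd_eq n1, h'.az.nrd_eq n2]

/-- (B) over a finite free separable algebra over a valuation ring. -/
theorem val_pairN_fin (hg : BC (algebraMap O K) g) (hav : Avg O Z) (h : QAz Z m l) (hm : Even m)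
    (hj : SBC g j) {c : Z} (hc : IsUnit c) (hK : PairN F (j l) (g c)) : PairN Z l c := by
  classical
  have := hg.free
  have := hg.finite
  have := h.starFix
  have := (Algebra.QuasiFinite.finite_primesOver (S := Z) (⊥ : Ideal O)).fintype
  choose y1 y2 t ht using wv_prime hg hav h hm hj hc hK
  obtain ⟨s, hs⟩ := Ideal.exists_forall_sub_mem_ideal (wv_coprime hav) t
  choose e he using fun P => Ideal.exists_forall_sub_mem_ideal (wv_coprime hav) (Pi.single P 1)
  have key : ∀ (y : (⊥ : Ideal O).primesOver Z → A) (P : (⊥ : Ideal O).primesOver Z),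
      nrd Z (l + (∑ Q, e Q • y Q - star (∑ Q, e Q • y Q))) - nrd Z (l + (y P - star (y P))) ∈
        (P : Ideal Z) := fun y P => by
    have h1 : ∑ Q, e Q • y Q - y P ∈ extI A (P : Ideal Z) := by
      have h2 : y P = ∑ Q, (Pi.single Q 1 : _ → Z) P • y Q := by
        rw [Finset.sum_eq_single P (fun Q _ hQ => by rw [Pi.single_eq_of_ne hQ.symm, zero_smul])
          fun h3 => absurd (Finset.mem_univ P) h3, Pi.single_eq_same, one_smul]
      rw [h2, ← Finset.sum_sub_distrib]
      exact Ideal.sum_mem _ fun Q _ => by rw [← sub_smul]; exact smul_mem_extI (he Q P) _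
    refine h.az.nrd_congr ?_
    have h3 := sub_mem h1 (star_mem_extI h1)
    rw [star_sub] at h3
    rwa [add_sub_add_left_eq_sub, sub_sub_sub_comm]
  have e1 := wv_inter hav (z := c - s ^ 2 * (nrd Z (l + (∑ Q, e Q • y1 Q - star (∑ Q, e Q • y1 Q))) *
      nrd Z (l + (∑ Q, e Q • y2 Q - star (∑ Q, e Q • y2 Q))))) fun P => by
    rw [← Ideal.Quotient.eq, Ideal.Quotient.eq.2 (ht P), map_mul, map_mul, map_mul, map_mul,
      map_pow, map_pow, Ideal.Quotient.eq.2 (hs P), Ideal.Quotient.eq.2 (key y1 P),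
      Ideal.Quotient.eq.2 (key y2 P)]
  rw [sub_eq_zero] at e1
  have h4 := isUnit_of_mul_isUnit_right (e1 ▸ hc)
  obtain ⟨l1, h5⟩ := h.az.isUnit_nrd_iff.1 (isUnit_of_mul_isUnit_left h4)
  obtain ⟨l2, h6⟩ := h.az.isUnit_nrd_iff.1 (isUnit_of_mul_isUnit_right h4)
  exact ⟨l1, l2, s, _, _, h5 ▸ (La.refl l).add_alt (alt_sub_star _),
    h6 ▸ (La.refl l).add_alt (alt_sub_star _), h.az.isNrd _, h.az.isNrd _, by rw [h5, h6, e1]⟩

end Pool.Agent.GSD
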